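import Mathlib
import Pool.Agent.Helper831.SemiRiem
import Pool.Agent.Helper831.SemiLemmas

set_option maxSynthPendingDepth 3
set_option linter.unusedSectionVars false

open scoped Manifold ContDiff Topology
open Set Filter

namespace Pool.Agent.Helper831

section
variable {E : Type*} [NormedAddCommGroup E] [NormedSpace ℝ E] [LocallyCompactSpace E]
variable {Γ : Type*} [Group Γ] [MulAction Γ E] [ProperlyDiscontinuousSMul Γ E]
  [ContinuousConstSMul Γ E] [IsCancelSMul Γ E]

/-- the projection to the quotient -/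
def proj (Γ : Type*) [Group Γ] {E : Type*} [MulAction Γ E] (y : E) :
    MulAction.orbitRel.Quotient Γ E :=
  Quotient.mk'' y

theorem proj_smul (δ : Γ) (y : E) : proj Γ (δ • y) = proj Γ y :=
  Quotient.sound' ⟨δ, rfl⟩

theorem exists_of_proj_eq {y z : E} (h : proj Γ y = proj Γ z) : ∃ δ : Γ, y = δ • z := by
  have h1 := Quotient.exact' h
  obtain ⟨δ, hδ⟩ := h1
  exact ⟨δ, hδ.symm⟩

theorem proj_surjective : Function.Surjective (proj Γ : E → MulAction.orbitRel.Quotient Γ E) :=
  Quotient.mk''_surjective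

theorem symm_eq_proj {e : OpenPartialHomeomorph (MulAction.orbitRel.Quotient Γ E) E}
    (he : e ∈ atlas E (MulAction.orbitRel.Quotient Γ E)) (y : E) : e.symm y = proj Γ y := by
  obtain ⟨q, rfl⟩ := he
  simp
  rfl

theorem proj_chart {e : OpenPartialHomeomorph (MulAction.orbitRel.Quotient Γ E) E}
    (he : e ∈ atlas E (MulAction.orbitRel.Quotient Γ E))
    {x : MulAction.orbitRel.Quotient Γ E} (hx : x ∈ e.source) : proj Γ (e x) = x := by
  rw [← symm_eq_proj he]
  exact e.left_inv hx

/-- the chart composed with the projection is locally the action of a group element -/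
theorem chart_proj {e : OpenPartialHomeomorph (MulAction.orbitRel.Quotient Γ E) E}
    (he : e ∈ atlas E (MulAction.orbitRel.Quotient Γ E)) {y : E} (hy : proj Γ y ∈ e.source) :
    ∃ δ : Γ, ∀ᶠ z in 𝓝 y, e (proj Γ z) = δ • z := by
  obtain ⟨δ, hδ⟩ := exists_of_proj_eq (proj_chart he hy)
  refine ⟨δ, ?_⟩
  have h1 : δ • y ∈ e.target := by
    rw [← hδ]
    exact e.map_source hy
  have h2 : ContinuousAt (fun z : E => δ • z) y := (continuous_const_smul δ).continuousAt
  filter_upwards [h2.eventually_mem (e.open_target.mem_nhds h1)] with z hz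
  rw [← proj_smul δ z, ← symm_eq_proj he, e.right_inv hz]

/-- the group acts by smooth maps -/
class SmoothConst (Γ : Type*) (E : Type*) [NormedAddCommGroup E] [NormedSpace ℝ E] [SMul Γ E] :
    Prop where
  smooth : ∀ δ : Γ, ContDiff ℝ ∞ (fun y : E => δ • y)

variable [SmoothConst Γ E]

instance : IsManifold 𝓘(ℝ, E) ∞ (MulAction.orbitRel.Quotient Γ E) := by
  apply isManifold_of_contDiffOn
  intro e e' he he' y hy
  simp only [modelWithCornersSelf_coe, modelWithCornersSelf_coe_symm, Function.comp_id,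
    Function.id_comp, OpenPartialHomeomorph.coe_trans, range_id, inter_univ, preimage_id,
    OpenPartialHomeomorph.trans_source] at hy ⊢
  have h1 : proj Γ y ∈ e'.source := by
    have := hy.2
    rw [mem_preimage, symm_eq_proj he] at this
    exact this
  obtain ⟨δ, hδ⟩ := chart_proj he' h1
  have h2 : (e' ∘ e.symm) =ᶠ[𝓝 y] fun z => δ • z := by
    filter_upwards [hδ] with z hz
    rw [Function.comp_apply, symm_eq_proj he, hz]
  exact ((SmoothConst.smooth δ).contDiffAt.congr_of_eventuallyEq h2).contDiffWithinAt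

theorem contMDiff_proj : ContMDiff 𝓘(ℝ, E) 𝓘(ℝ, E) ∞
    (proj Γ : E → MulAction.orbitRel.Quotient Γ E) := by
  intro y
  set e := chartAt E (proj Γ y) with he'
  have he := chart_mem_atlas E (proj Γ y)
  have hs := mem_chart_source E (proj Γ y)
  obtain ⟨δ, hδ⟩ := chart_proj he hs
  have h1 : e (proj Γ y) = δ • y := hδ.self_of_nhds
  have h2 : ContMDiffAt 𝓘(ℝ, E) 𝓘(ℝ, E) ∞ e.symm (δ • y) :=
    contMDiffAt_symm_of_mem_maximalAtlas (IsManifold.subset_maximalAtlas he)
      (by rw [← h1]; exact e.map_source hs)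
  have h3 : ContMDiffAt 𝓘(ℝ, E) 𝓘(ℝ, E) ∞ (fun z : E => δ • z) y :=
    (SmoothConst.smooth δ).contDiffAt.contMDiffAt
  have h4 := ContMDiffAt.comp (g := e.symm) (f := fun z : E => δ • z) y h2 h3
  refine h4.congr_of_eventuallyEq ?_
  filter_upwards with z
  rw [Function.comp_apply, symm_eq_proj he, proj_smul]

theorem mfderiv_proj {y : E} {δ : Γ}
    (hδ : ∀ᶠ z in 𝓝 y, chartAt E (proj Γ y) (proj Γ z) = δ • z) (u : E) :
    (mfderiv 𝓘(ℝ, E) 𝓘(ℝ, E) (proj Γ : E → MulAction.orbitRel.Quotient Γ E) y u : E)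
      = fderiv ℝ (fun z : E => δ • z) y u := by
  have h1 : MDifferentiableAt 𝓘(ℝ, E) 𝓘(ℝ, E)
      (proj Γ : E → MulAction.orbitRel.Quotient Γ E) y :=
    (contMDiff_proj y).mdifferentiableAt (by simp)
  have h2 := h1.mfderiv
  have h3 : (writtenInExtChartAt 𝓘(ℝ, E) 𝓘(ℝ, E) y
      (proj Γ : E → MulAction.orbitRel.Quotient Γ E)) =ᶠ[𝓝 y] fun z => δ • z := by
    filter_upwards [hδ] with z hz
    simp only [writtenInExtChartAt, extChartAt, mfld_simps]
    exact hz
  have h4 : fderivWithin ℝ (writtenInExtChartAt 𝓘(ℝ, E) 𝓘(ℝ, E) y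
      (proj Γ : E → MulAction.orbitRel.Quotient Γ E)) (range 𝓘(ℝ, E))
      (extChartAt 𝓘(ℝ, E) y y) = fderiv ℝ (fun z : E => δ • z) y := by
    simp only [modelWithCornersSelf_coe, range_id, fderivWithin_univ, mfld_simps]
    exact h3.fderiv_eq
  exact congrArg (fun L : E →L[ℝ] E => L u) (h2.trans h4)

theorem coordVec_quot {e : OpenPartialHomeomorph (MulAction.orbitRel.Quotient Γ E) E}
    (he : e ∈ atlas E (MulAction.orbitRel.Quotient Γ E)) (y : E) :
    ∃ δ : Γ, chartAt E (e.symm y) (e.symm y) = δ • y ∧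
      ∀ u : E, (coordVec e y u : E) = fderiv ℝ (fun z : E => δ • z) y u := by
  obtain ⟨δ, hδ⟩ := chart_proj (chart_mem_atlas E (proj Γ y)) (mem_chart_source E (proj Γ y))
  refine ⟨δ, ?_, ?_⟩
  · rw [symm_eq_proj he]
    exact hδ.self_of_nhds
  · intro u
    have h1 : (e.symm : E → MulAction.orbitRel.Quotient Γ E) = proj Γ := by
      ext1 z
      exact symm_eq_proj he z
    unfold coordVec
    rw [h1]
    exact mfderiv_proj hδ u

end

end Pool.Agent.Helper831
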