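import Mathlib
import Pool.Agent.Helper831.Quot

set_option maxSynthPendingDepth 3
set_option linter.unusedSectionVars false

open scoped Manifold ContDiff Topology
open Set Filter

namespace Pool.Agent.Helper831

section
variable {E : Type*} [NormedAddCommGroup E] [NormedSpace ℝ E] [LocallyCompactSpace E]
variable {Γ : Type*} [Group Γ] [MulAction Γ E] [ProperlyDiscontinuousSMul Γ E]
  [ContinuousConstSMul Γ E] [IsCancelSMul Γ E] [SmoothConst Γ E]

/-- The semi-Riemannian metric on the quotient `Γ \ E` induced by a `Γ`-invariant one on `E`. -/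
noncomputable def quotMetric (B : E → LinearMap.BilinForm ℝ E)
    (hsymm : ∀ y u w, B y u w = B y w u)
    (hnd : ∀ y u, (∀ w, B y u w = 0) → u = 0)
    (hsm : ∀ u w, ContDiff ℝ ∞ (fun y => B y u w))
    (hinv : ∀ (δ : Γ) (y u w : E), B (δ • y) (fderiv ℝ (fun z : E => δ • z) y u)
      (fderiv ℝ (fun z : E => δ • z) y w) = B y u w) :
    SemiRiemannianMetric E (MulAction.orbitRel.Quotient Γ E) where
  form := fun x => B (chartAt E x x)
  symm := fun x v w => hsymm _ v w
  nondegenerate := fun x v h => hnd _ v h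
  smooth := by
    intro e he u w
    refine (hsm u w).contDiffOn.congr ?_
    intro y _
    obtain ⟨δ, h1, h2⟩ := coordVec_quot he y
    have h3 : (B (chartAt E (e.symm y) (e.symm y)) (coordVec e y u : E) (coordVec e y w : E) : ℝ)
        = B y u w := by
      rw [h1, h2, h2, hinv]
    exact h3

theorem quotMetric_coeff (B : E → LinearMap.BilinForm ℝ E)
    (hsymm : ∀ y u w, B y u w = B y w u)
    (hnd : ∀ y u, (∀ w, B y u w = 0) → u = 0)
    (hsm : ∀ u w, ContDiff ℝ ∞ (fun y => B y u w))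
    (hinv : ∀ (δ : Γ) (y u w : E), B (δ • y) (fderiv ℝ (fun z : E => δ • z) y u)
      (fderiv ℝ (fun z : E => δ • z) y w) = B y u w)
    {e : OpenPartialHomeomorph (MulAction.orbitRel.Quotient Γ E) E}
    (he : e ∈ atlas E (MulAction.orbitRel.Quotient Γ E)) (y u w : E) :
    (quotMetric B hsymm hnd hsm hinv).coeff e y u w = B y u w := by
  obtain ⟨δ, h1, h2⟩ := coordVec_quot he y
  have h3 : (B (chartAt E (e.symm y) (e.symm y)) (coordVec e y u : E) (coordVec e y w : E) : ℝ)
      = B y u w := by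
    rw [h1, h2, h2, hinv]
  exact h3

/-- The 1-form on the quotient induced by an invariant one. -/
noncomputable def quotForm (β : E → (E →ₗ[ℝ] ℝ))
    (hsm : ∀ u, ContDiff ℝ ∞ (fun y => β y u))
    (hinv : ∀ (δ : Γ) (y u : E), β (δ • y) (fderiv ℝ (fun z : E => δ • z) y u) = β y u) :
    OneForm E (MulAction.orbitRel.Quotient Γ E) where
  form := fun x => β (chartAt E x x)
  smooth := by
    intro e he u
    refine (hsm u).contDiffOn.congr ?_
    intro y _
    obtain ⟨δ, h1, h2⟩ := coordVec_quot he y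
    have h3 : (β (chartAt E (e.symm y) (e.symm y)) (coordVec e y u : E) : ℝ) = β y u := by
      rw [h1, h2, hinv]
    exact h3

theorem quotForm_coeff (β : E → (E →ₗ[ℝ] ℝ))
    (hsm : ∀ u, ContDiff ℝ ∞ (fun y => β y u))
    (hinv : ∀ (δ : Γ) (y u : E), β (δ • y) (fderiv ℝ (fun z : E => δ • z) y u) = β y u)
    {e : OpenPartialHomeomorph (MulAction.orbitRel.Quotient Γ E) E}
    (he : e ∈ atlas E (MulAction.orbitRel.Quotient Γ E)) (y u : E) :
    (quotForm β hsm hinv).form (e.symm y) (coordVec e y u) = β y u := by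
  obtain ⟨δ, h1, h2⟩ := coordVec_quot he y
  have h3 : (β (chartAt E (e.symm y) (e.symm y)) (coordVec e y u : E) : ℝ) = β y u := by
    rw [h1, h2, hinv]
  exact h3

/-- smooth curves project to smooth curves -/
theorem contMDiff_proj_comp {σ : ℝ → E} (hσ : ContDiff ℝ ∞ σ) :
    ContMDiff 𝓘(ℝ, ℝ) 𝓘(ℝ, E) ∞ (fun t => proj Γ (σ t)) :=
  contMDiff_proj.comp hσ.contMDiff

end

section continuity
variable {E : Type*} [NormedAddCommGroup E] [NormedSpace ℝ E] [FiniteDimensional ℝ E]
  {M : Type*} [TopologicalSpace M] [ChartedSpace E M] [IsManifold 𝓘(ℝ, E) ∞ M]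

/-- a point of the tangent bundle in chart coordinates -/
theorem totalSpace_eq_cvec {e : OpenPartialHomeomorph M E} (he : e ∈ atlas E M)
    (q : TangentBundle 𝓘(ℝ, E) M) (hq : q.1 ∈ e.source) :
    q = cvec e (e q.1) (mfderiv 𝓘(ℝ, E) 𝓘(ℝ, E) e q.1 q.2) := by
  have h1 : IsManifold 𝓘(ℝ, E) 1 M := IsManifold.of_le (m := 1) (n := ∞) (by simp)
  have hm := mdifferentiable_of_mem_atlas (I := 𝓘(ℝ, E)) he
  have h2 := hm.symm_comp_deriv hq
  have h3 := congrArg (fun L => L q.2) h2
  have hb : q.1 = e.symm (e q.1) := (e.left_inv hq).symm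
  refine Bundle.TotalSpace.ext hb (heq_of_eq ?_)
  exact h3.symm

theorem form_eq_Hm (η : OneForm E M) {e : OpenPartialHomeomorph M E} (he : e ∈ atlas E M)
    (q : TangentBundle 𝓘(ℝ, E) M) (hq : q.1 ∈ e.source) :
    η.form q.1 q.2 = Hm η e (e q.1) (mfderiv 𝓘(ℝ, E) 𝓘(ℝ, E) e q.1 q.2) := by
  have h := totalSpace_eq_cvec he q hq
  exact congrArg (fun p : TangentBundle 𝓘(ℝ, E) M => η.form p.1 p.2) h

theorem triv_eq (x₀ : M) (q : TangentBundle 𝓘(ℝ, E) M) (hq : q.1 ∈ (chartAt E x₀).source) :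
    (trivializationAt E (TangentSpace 𝓘(ℝ, E)) x₀ q).2
      = mfderiv 𝓘(ℝ, E) 𝓘(ℝ, E) (chartAt E x₀) q.1 q.2 := by
  have h := TangentBundle.continuousLinearMapAt_trivializationAt (I := 𝓘(ℝ, E)) hq
  have h2 : (trivializationAt E (TangentSpace 𝓘(ℝ, E)) x₀ q).2
    = (trivializationAt E (TangentSpace 𝓘(ℝ, E)) x₀).continuousLinearMapAt ℝ q.1 q.2 := by
    rw [Bundle.Trivialization.continuousLinearMapAt_apply,
      Bundle.Trivialization.linearMapAt_apply, if_pos]
    exact hq
  rw [h2]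
  exact congrArg (fun L => L q.2) h

theorem continuous_oneForm (η : OneForm E M) :
    Continuous (fun q : TangentBundle 𝓘(ℝ, E) M => η.form q.1 q.2) := by
  rw [continuous_iff_continuousAt]
  intro q₀
  set e := chartAt E q₀.1 with he'
  have he := chart_mem_atlas E q₀.1
  have hs : q₀.1 ∈ e.source := mem_chart_source E q₀.1
  have hπ : Continuous (fun q : TangentBundle 𝓘(ℝ, E) M => q.1) :=
    FiberBundle.continuous_proj E (TangentSpace 𝓘(ℝ, E))
  have hev : ∀ᶠ q : TangentBundle 𝓘(ℝ, E) M in 𝓝 q₀, q.1 ∈ e.source :=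
    hπ.continuousAt.eventually_mem (e.open_source.mem_nhds hs)
  have h1 : (fun q : TangentBundle 𝓘(ℝ, E) M => η.form q.1 q.2) =ᶠ[𝓝 q₀]
      fun q => Hm η e (e q.1) (trivializationAt E (TangentSpace 𝓘(ℝ, E)) q₀.1 q).2 := by
    filter_upwards [hev] with q hq
    rw [form_eq_Hm η he q hq, triv_eq q₀.1 q hq]
  refine ContinuousAt.congr ?_ h1.symm
  have h2 : ContinuousAt (trivializationAt E (TangentSpace 𝓘(ℝ, E)) q₀.1) q₀ := by
    apply (trivializationAt E (TangentSpace 𝓘(ℝ, E)) q₀.1).continuousOn.continuousAt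
    apply (trivializationAt E (TangentSpace 𝓘(ℝ, E)) q₀.1).open_source.mem_nhds
    rw [Bundle.Trivialization.mem_source]
    exact FiberBundle.mem_baseSet_trivializationAt' q₀.1
  have h3 : ContinuousAt (Hm η e) (e q₀.1) :=
    ((contDiffOn_Hm η he).contDiffAt (e.open_target.mem_nhds (e.map_source hs))).continuousAt
  have h4 : ContinuousAt (fun q : TangentBundle 𝓘(ℝ, E) M => e q.1) q₀ :=
    ContinuousAt.comp (f := fun q : TangentBundle 𝓘(ℝ, E) M => q.1) (g := e)
      (e.continuousAt hs) hπ.continuousAt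
  have h5 : ContinuousAt (fun q : TangentBundle 𝓘(ℝ, E) M => Hm η e (e q.1)) q₀ :=
    ContinuousAt.comp (f := fun q : TangentBundle 𝓘(ℝ, E) M => e q.1) (g := Hm η e) h3 h4
  exact h5.clm_apply (continuousAt_snd.comp h2)

end continuity

end Pool.Agent.Helper831
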