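import Mathlib
import Pool.Agent.Helper831.Quot2

set_option maxSynthPendingDepth 3
set_option linter.unusedSectionVars false

open scoped Manifold ContDiff Topology
open Set Filter

namespace Pool.Agent.Helper831

/-- The infinite cyclic group acting on the plane by translations of the second coordinate by
multiples of `2π`. -/
@[ext] structure CylZ where
  k : ℤ

namespace CylZ

instance : Mul CylZ := ⟨fun g h => ⟨g.k + h.k⟩⟩
instance : One CylZ := ⟨⟨0⟩⟩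
instance : Inv CylZ := ⟨fun g => ⟨-g.k⟩⟩

@[simp] theorem mul_k (g h : CylZ) : (g * h).k = g.k + h.k := rfl
@[simp] theorem one_k : (1 : CylZ).k = 0 := rfl
@[simp] theorem inv_k (g : CylZ) : (g⁻¹).k = -g.k := rfl

instance : Group CylZ :=
  Group.ofLeftAxioms (by intro g h l; ext; simp; ring)
    (by intro g; ext; simp) (by intro g; ext; simp)

/-- `k` acts as `(x, y) ↦ (x, y + 2πk)`. -/
noncomputable instance : MulAction CylZ (ℝ × ℝ) where
  smul g p := (p.1, p.2 + g.k * (2 * Real.pi))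
  one_smul p := by
    show ((p.1, p.2 + ((1 : CylZ).k : ℝ) * (2 * Real.pi)) : ℝ × ℝ) = p
    simp
  mul_smul g h p := by
    refine Prod.ext rfl ?_
    show (p.2 + ((g * h).k : ℝ) * (2 * Real.pi) : ℝ) =
      p.2 + h.k * (2 * Real.pi) + g.k * (2 * Real.pi)
    rw [mul_k]
    push_cast
    ring

theorem smul_def (g : CylZ) (p : ℝ × ℝ) : g • p = (p.1, p.2 + g.k * (2 * Real.pi)) := rfl

theorem smul_eq_add (g : CylZ) (p : ℝ × ℝ) : g • p = p + (0, g.k * (2 * Real.pi)) := by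
  rw [smul_def]
  refine Prod.ext ?_ rfl
  simp

instance : SmoothConst CylZ (ℝ × ℝ) where
  smooth g := by
    simp only [smul_def]
    fun_prop

theorem fderiv_smul (g : CylZ) (y u : ℝ × ℝ) :
    fderiv ℝ (fun z : ℝ × ℝ => g • z) y u = u := by
  have h1 : (fun z : ℝ × ℝ => g • z) = fun z => z + (0, g.k * (2 * Real.pi)) := by
    funext z
    exact smul_eq_add g z
  rw [h1, fderiv_add_const]
  simp

instance : ContinuousConstSMul CylZ (ℝ × ℝ) where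
  continuous_const_smul g := (SmoothConst.smooth (E := ℝ × ℝ) g).continuous

instance : IsCancelSMul CylZ (ℝ × ℝ) where
  right_cancel' g h p hp := by
    rw [smul_def, smul_def, Prod.mk.injEq] at hp
    have h1 : (g.k : ℝ) * (2 * Real.pi) = h.k * (2 * Real.pi) := by linarith [hp.2]
    have h2 : (g.k : ℝ) = h.k := mul_right_cancel₀ (by positivity) h1
    exact CylZ.ext (by exact_mod_cast h2)

theorem eq_one_of_smul_eq {g : CylZ} {p : ℝ × ℝ} (h : g • p = p) : g = 1 := by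
  have h1 : g • p = (1 : CylZ) • p := by rw [h, one_smul]
  exact IsCancelSMul.right_cancel g 1 p h1

instance : ProperlyDiscontinuousSMul CylZ (ℝ × ℝ) where
  finite_disjoint_inter_image := by
    intro K L hK hL
    obtain ⟨R, hR⟩ := hK.isBounded.exists_norm_le
    obtain ⟨S, hS⟩ := hL.isBounded.exists_norm_le
    have h0 : (Set.Icc (-⌈R + S⌉) ⌈R + S⌉ : Set ℤ).Finite := Set.finite_Icc _ _
    refine (h0.image (fun k => (⟨k⟩ : CylZ))).subset ?_
    rintro g ⟨q, ⟨p, hp, rfl⟩, hq⟩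
    have h1 := hR p hp
    have h2 := hS _ hq
    change ‖g • p‖ ≤ S at h2
    rw [smul_def, Prod.norm_def] at h2
    rw [Prod.norm_def] at h1
    have h3 := (le_max_right _ _).trans h1
    have h4 := (le_max_right _ _).trans h2
    simp only [Real.norm_eq_abs] at h3 h4
    have h5 : |(g.k : ℝ) * (2 * Real.pi)| ≤ R + S := by
      have : (g.k : ℝ) * (2 * Real.pi) = (p.2 + g.k * (2 * Real.pi)) - p.2 := by ring
      rw [this]
      refine (abs_sub _ _).trans ?_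
      linarith
    have h6 : |(g.k : ℝ)| ≤ R + S := by
      rw [abs_mul, abs_of_pos (by positivity : (0 : ℝ) < 2 * Real.pi)] at h5
      have h7 : 1 ≤ 2 * Real.pi := by linarith [Real.pi_gt_three]
      nlinarith [abs_nonneg (g.k : ℝ)]
    have h7 : ((|g.k| : ℤ) : ℝ) ≤ ⌈R + S⌉ := by
      rw [Int.cast_abs]
      exact h6.trans (Int.le_ceil _)
    have h8 : |g.k| ≤ ⌈R + S⌉ := by exact_mod_cast h7
    exact ⟨g.k, abs_le.1 h8, rfl⟩

end CylZ

/-- The cylinder, the quotient of the plane by the translations `(x, y) ↦ (x, y + 2πk)`. -/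
abbrev Cyl : Type := MulAction.orbitRel.Quotient CylZ (ℝ × ℝ)

theorem cyl_isCovering : IsCoveringMap (proj CylZ : ℝ × ℝ → Cyl) :=
  isQuotientCoveringMap_quotientMk_of_properlyDiscontinuousSMul.isCoveringMap

instance : T2Space Cyl := by infer_instance

/-- the map to `ℝ × S¹` -/
noncomputable def cylTo : Cyl → ℝ × Circle :=
  Quotient.lift (fun p : ℝ × ℝ => (p.1, Circle.exp p.2)) (by
    rintro a b ⟨δ, hδ⟩
    have h1 : δ • b = a := hδ
    rw [← h1, CylZ.smul_def]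
    simp only [Prod.mk.injEq, true_and]
    rw [Circle.exp_eq_exp]
    exact ⟨δ.k, rfl⟩)

theorem cylTo_proj (p : ℝ × ℝ) : cylTo (proj CylZ p) = (p.1, Circle.exp p.2) := rfl

theorem cylTo_bijective : Function.Bijective cylTo := by
  constructor
  · intro a b hab
    obtain ⟨p, rfl⟩ := proj_surjective (Γ := CylZ) a
    obtain ⟨q, rfl⟩ := proj_surjective (Γ := CylZ) b
    rw [cylTo_proj, cylTo_proj, Prod.mk.injEq, Circle.exp_eq_exp] at hab
    obtain ⟨h1, m, h2⟩ := hab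
    have h3 : p = (⟨m⟩ : CylZ) • q := by
      rw [CylZ.smul_def]
      exact Prod.ext h1 h2
    rw [h3, proj_smul]
  · rintro ⟨x, z⟩
    obtain ⟨y, rfl⟩ := Circle.exp_surjective z
    exact ⟨proj CylZ (x, y), rfl⟩

theorem cylTo_smooth : ContMDiff 𝓘(ℝ, ℝ × ℝ) (𝓘(ℝ, ℝ).prod (𝓡 1)) ∞ cylTo := by
  intro q
  set e := chartAt (ℝ × ℝ) q with he'
  have he : e ∈ atlas (ℝ × ℝ) Cyl := chart_mem_atlas _ q
  have hq : q ∈ e.source := mem_chart_source _ q
  have h1 : ContMDiffAt 𝓘(ℝ, ℝ × ℝ) 𝓘(ℝ, ℝ × ℝ) ∞ e q :=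
    contMDiffAt_of_mem_maximalAtlas (IsManifold.subset_maximalAtlas he) hq
  have h2 : ContMDiff 𝓘(ℝ, ℝ × ℝ) (𝓘(ℝ, ℝ).prod (𝓡 1)) ∞
      (fun p : ℝ × ℝ => (p.1, Circle.exp p.2)) := by
    have h3 : ContMDiff 𝓘(ℝ, ℝ × ℝ) 𝓘(ℝ, ℝ) ∞ (fun p : ℝ × ℝ => p.1) := contDiff_fst.contMDiff
    have h4 : ContMDiff 𝓘(ℝ, ℝ × ℝ) 𝓘(ℝ, ℝ) ∞ (fun p : ℝ × ℝ => p.2) := contDiff_snd.contMDiff
    exact h3.prodMk (contMDiff_circleExp.comp h4)
  have h5 : ContMDiffAt 𝓘(ℝ, ℝ × ℝ) (𝓘(ℝ, ℝ).prod (𝓡 1)) ∞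
      ((fun p : ℝ × ℝ => (p.1, Circle.exp p.2)) ∘ e) q := (h2 (e q)).comp q h1
  refine h5.congr_of_eventuallyEq ?_
  filter_upwards [e.open_source.mem_nhds hq] with x hx
  rw [Function.comp_apply, ← cylTo_proj, proj_chart he hx]

/-- the inverse map is smooth -/
theorem cylTo_symm_smooth : ContMDiff (𝓘(ℝ, ℝ).prod (𝓡 1)) 𝓘(ℝ, ℝ × ℝ) ∞
    (Equiv.ofBijective cylTo cylTo_bijective).symm := by
  rintro ⟨x₀, z₀⟩
  obtain ⟨y₀, rfl⟩ := Circle.exp_surjective z₀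
  -- a local inverse of the exponential
  set ψ : ℝ × Circle → ℝ × ℝ :=
    fun p => (p.1, y₀ + Complex.arg ((p.2 : ℂ) * (Circle.exp (-y₀) : ℂ))) with hψ
  have hcoe : ContMDiff (𝓡 1) 𝓘(ℝ, ℂ) ∞ (fun z : Circle => (z : ℂ)) :=
    @contMDiff_coe_sphere ℂ _ _ _ 1 finrank_real_complex_fact'
  have hsl : ((Circle.exp y₀ : ℂ) * (Circle.exp (-y₀) : ℂ)) = 1 := by
    rw [← Circle.coe_mul, ← Circle.exp_add]
    simp
  have hψs : ContMDiffAt (𝓘(ℝ, ℝ).prod (𝓡 1)) 𝓘(ℝ, ℝ × ℝ) ∞ ψ (x₀, Circle.exp y₀) := by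
    have h1 : ContMDiffAt (𝓘(ℝ, ℝ).prod (𝓡 1)) 𝓘(ℝ, ℝ) ∞ (fun p : ℝ × Circle => p.1)
      (x₀, Circle.exp y₀) := contMDiffAt_fst
    have h2 : ContMDiffAt (𝓘(ℝ, ℝ).prod (𝓡 1)) 𝓘(ℝ, ℂ) ∞ (fun p : ℝ × Circle => (p.2 : ℂ))
      (x₀, Circle.exp y₀) := (hcoe _).comp _ contMDiffAt_snd
    have h3 : ContDiffAt ℝ ∞ (fun w : ℂ => y₀ + Complex.arg (w * (Circle.exp (-y₀) : ℂ)))
        (Circle.exp y₀ : ℂ) := by
      have h4 : ContDiffAt ℝ ∞ Complex.log
          ((Circle.exp y₀ : ℂ) * (Circle.exp (-y₀) : ℂ)) := by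
        rw [hsl]
        exact (Complex.contDiffAt_log (by simp)).restrict_scalars ℝ
      have h5 : ContDiffAt ℝ ∞ (fun w : ℂ => w * (Circle.exp (-y₀) : ℂ))
          (Circle.exp y₀ : ℂ) := contDiffAt_id.mul contDiffAt_const
      have h6 : ContDiffAt ℝ ∞ (fun w : ℂ => Complex.log (w * (Circle.exp (-y₀) : ℂ)))
          (Circle.exp y₀ : ℂ) :=
        ContDiffAt.comp (g := Complex.log) (f := fun w : ℂ => w * (Circle.exp (-y₀) : ℂ))
          (Circle.exp y₀ : ℂ) h4 h5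
      have h7 : ContDiffAt ℝ ∞ (fun w : ℂ => (Complex.log (w * (Circle.exp (-y₀) : ℂ))).im)
          (Circle.exp y₀ : ℂ) :=
        Complex.imCLM.contDiff.contDiffAt.comp _ h6
      simp only [Complex.log_im] at h7
      exact contDiffAt_const.add h7
    have h8 : ContMDiffAt (𝓘(ℝ, ℝ).prod (𝓡 1)) 𝓘(ℝ, ℝ) ∞
        (fun p : ℝ × Circle => y₀ + Complex.arg ((p.2 : ℂ) * (Circle.exp (-y₀) : ℂ)))
        (x₀, Circle.exp y₀) :=
      ContMDiffAt.comp (g := fun w : ℂ => y₀ + Complex.arg (w * (Circle.exp (-y₀) : ℂ)))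
        (f := fun p : ℝ × Circle => (p.2 : ℂ)) (x₀, Circle.exp y₀) h3.contMDiffAt h2
    exact h1.prodMk_space h8
  have h9 : ContMDiffAt (𝓘(ℝ, ℝ).prod (𝓡 1)) 𝓘(ℝ, ℝ × ℝ) ∞ (fun p => proj CylZ (ψ p))
      (x₀, Circle.exp y₀) := (contMDiff_proj _).comp _ hψs
  refine h9.congr_of_eventuallyEq ?_
  filter_upwards with p
  rw [Equiv.symm_apply_eq, Equiv.ofBijective_apply, cylTo_proj]
  refine Prod.ext rfl ?_
  simp only [hψ]
  rw [Circle.exp_add]
  have h10 : (p.2 : ℂ) * (Circle.exp (-y₀) : ℂ) = ((p.2 * Circle.exp (-y₀) : Circle) : ℂ) := by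
    rw [Circle.coe_mul]
  rw [h10, Circle.exp_arg, mul_comm p.2, ← mul_assoc, ← Circle.exp_add]
  simp

/-- the cylinder is diffeomorphic to `ℝ × S¹` -/
noncomputable def cylDiffeo : Diffeomorph 𝓘(ℝ, ℝ × ℝ) (𝓘(ℝ, ℝ).prod (𝓡 1)) Cyl (ℝ × Circle) ∞ where
  toEquiv := Equiv.ofBijective cylTo cylTo_bijective
  contMDiff_toFun := cylTo_smooth
  contMDiff_invFun := cylTo_symm_smooth

end Pool.Agent.Helper831
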