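import Mathlib
import Pool.Agent.Helper831.FinslerDef
import Pool.Agent.Helper831.Quot2

set_option maxSynthPendingDepth 3
set_option linter.unusedSectionVars false

open scoped Manifold ContDiff Topology
open Set Filter

namespace Pool.Agent.Helper831

theorem sq_second_deriv' {g g' : ℝ → ℝ} {g2 : ℝ} (hg : ∀ᶠ t in 𝓝 (0 : ℝ), HasDerivAt g (g' t) t)
    (hg2 : HasDerivAt g' g2 0) :
    iteratedDeriv 2 (fun t => g t ^ 2) 0 = 2 * (g' 0 ^ 2 + g 0 * g2) := by
  have h1 : deriv (fun t => g t ^ 2) =ᶠ[𝓝 0] fun t => 2 * (g t * g' t) := by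
    filter_upwards [hg] with t ht
    rw [(ht.fun_pow 2).deriv]
    push_cast
    ring
  have h2 : HasDerivAt (fun t => 2 * (g t * g' t)) (2 * (g' 0 * g' 0 + g 0 * g2)) 0 :=
    (hg.self_of_nhds.mul hg2).const_mul 2
  rw [iteratedDeriv_succ, iteratedDeriv_one, h1.deriv_eq, h2.deriv]
  ring

/-- strong convexity from positivity, homogeneity and the transversal second derivative -/
theorem convex_aux {V : Type*} [AddCommGroup V] [Module ℝ V] (F : V → ℝ)
    (hpos : ∀ v, v ≠ 0 → 0 < F v) (hhom : ∀ v (c : ℝ), 0 < c → F (c • v) = c * F v)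
    {v w : V} (hv : v ≠ 0)
    (hind : (∀ t : ℝ, v + t • w ≠ 0) → ∃ (g' : ℝ → ℝ) (g2 : ℝ),
      (∀ᶠ t in 𝓝 (0 : ℝ), HasDerivAt (fun t : ℝ => F (v + t • w)) (g' t) t) ∧
      HasDerivAt g' g2 0 ∧ 0 < g2) :
    0 < iteratedDeriv 2 (fun t : ℝ => F (v + t • w) ^ 2) 0 := by
  by_cases hdep : ∃ t : ℝ, v + t • w = 0
  · obtain ⟨t₀, ht₀⟩ := hdep
    have ht0 : t₀ ≠ 0 := by
      rintro rfl
      exact hv (by simpa using ht₀)
    have hwv : w = (-(t₀⁻¹)) • v := by
      have h1 : v = -(t₀ • w) := eq_neg_of_add_eq_zero_left ht₀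
      rw [h1, smul_neg, neg_smul, neg_neg, smul_smul, inv_mul_cancel₀ ht0, one_smul]
    set μ : ℝ := -(t₀⁻¹) with hμ
    have hμ0 : μ ≠ 0 := neg_ne_zero.2 (inv_ne_zero ht0)
    have hC : 0 < F v := hpos v hv
    have heq : (fun t : ℝ => F (v + t • w) ^ 2) =ᶠ[𝓝 0]
        fun t => ((1 + t * μ) * F v) ^ 2 := by
      have hc : ContinuousAt (fun t : ℝ => 1 + t * μ) 0 := by fun_prop
      have hpos : ∀ᶠ t in 𝓝 (0 : ℝ), 0 < 1 + t * μ :=
        hc.eventually (lt_mem_nhds (by norm_num))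
      filter_upwards [hpos] with t ht
      rw [hwv, smul_smul]
      have : v + (t * μ) • v = (1 + t * μ) • v := by rw [add_smul, one_smul]
      rw [this, hhom v _ ht]
    have hg : ∀ t : ℝ, HasDerivAt (fun t : ℝ => (1 + t * μ) * F v) (μ * F v) t := by
      intro t
      have := (((hasDerivAt_id t).mul_const μ).const_add 1).mul_const (F v)
      simpa using this
    rw [Filter.EventuallyEq.iteratedDeriv_eq 2 heq,
      sq_second_deriv' (g := fun t : ℝ => (1 + t * μ) * F v)
        (g' := fun _ => μ * F v) (g2 := 0) (Eventually.of_forall hg) (hasDerivAt_const _ _)]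
    have : 0 < (μ * F v) ^ 2 := by positivity
    simpa using this
  · push Not at hdep
    obtain ⟨g', g2, h1, h2, h3⟩ := hind hdep
    rw [sq_second_deriv' h1 h2]
    have h4 : 0 < F (v + (0 : ℝ) • w) := by
      rw [zero_smul, add_zero]
      exact hpos v hv
    have := mul_pos h4 h3
    have := sq_nonneg (g' 0)
    linarith

section
variable {E : Type*} [NormedAddCommGroup E] [NormedSpace ℝ E] [LocallyCompactSpace E]
variable {Γ : Type*} [Group Γ] [MulAction Γ E] [ProperlyDiscontinuousSMul Γ E]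
  [ContinuousConstSMul Γ E] [IsCancelSMul Γ E] [SmoothConst Γ E]

/-- The Finsler metric on the quotient `Γ \ E` induced by a `Γ`-invariant one on `E`. -/
noncomputable def quotFinsler (L : E → E → ℝ)
    (hnn : ∀ y u, 0 ≤ L y u)
    (hhom : ∀ y u (c : ℝ), 0 < c → L y (c • u) = c * L y u)
    (hcont : Continuous (fun p : E × E => L p.1 p.2))
    (hsm : ContDiffOn ℝ ∞ (fun p : E × E => L p.1 p.2) (univ ×ˢ {0}ᶜ))
    (hconv : ∀ y u w : E, u ≠ 0 → w ≠ 0 →
      0 < iteratedDeriv 2 (fun t : ℝ => L y (u + t • w) ^ 2) 0)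
    (hinv : ∀ (δ : Γ) (y u : E), L (δ • y) (fderiv ℝ (fun z : E => δ • z) y u) = L y u) :
    FinslerMetric E (MulAction.orbitRel.Quotient Γ E) :=
  have key : ∀ e ∈ atlas E (MulAction.orbitRel.Quotient Γ E), ∀ y u : E,
      L (chartAt E (e.symm y) (e.symm y)) (coordVec e y u) = L y u := by
    intro e he y u
    obtain ⟨δ, h1, h2⟩ := coordVec_quot he y
    have h3 : (L (chartAt E (e.symm y) (e.symm y)) (coordVec e y u : E) : ℝ) = L y u := by
      rw [h1, h2, hinv]
    exact h3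
  { toFun := fun x v => L (chartAt E x x) v
    nonneg := fun x v => hnn _ v
    homogeneous := fun x v c hc => hhom _ v c hc
    continuous := by
      intro e he
      refine hcont.continuousOn.congr ?_
      intro p _
      exact key e he p.1 p.2
    smooth := by
      intro e he
      refine (hsm.mono (prod_mono_left (subset_univ _))).congr ?_
      intro p _
      exact key e he p.1 p.2
    stronglyConvex := fun x v w hv hw => hconv _ v w hv hw }

theorem quotFinsler_lagrangian (L : E → E → ℝ)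
    (hnn : ∀ y u, 0 ≤ L y u)
    (hhom : ∀ y u (c : ℝ), 0 < c → L y (c • u) = c * L y u)
    (hcont : Continuous (fun p : E × E => L p.1 p.2))
    (hsm : ContDiffOn ℝ ∞ (fun p : E × E => L p.1 p.2) (univ ×ˢ {0}ᶜ))
    (hconv : ∀ y u w : E, u ≠ 0 → w ≠ 0 →
      0 < iteratedDeriv 2 (fun t : ℝ => L y (u + t • w) ^ 2) 0)
    (hinv : ∀ (δ : Γ) (y u : E), L (δ • y) (fderiv ℝ (fun z : E => δ • z) y u) = L y u) :
    ∀ {e : OpenPartialHomeomorph (MulAction.orbitRel.Quotient Γ E) E}
    (_ : e ∈ atlas E (MulAction.orbitRel.Quotient Γ E)) (y u : E),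
    (quotFinsler (Γ := Γ) L hnn hhom hcont hsm hconv hinv).lagrangian e y u = L y u := by
  intro e he y u
  obtain ⟨δ, h1, h2⟩ := coordVec_quot he y
  have h3 : (L (chartAt E (e.symm y) (e.symm y)) (coordVec e y u : E) : ℝ) = L y u := by
    rw [h1, h2, hinv]
  exact h3

end

end Pool.Agent.Helper831
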