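import Mathlib
import Pool.Agent.Helper831.FinslerQuot
import Pool.Agent.Helper831.CylAct

set_option maxSynthPendingDepth 3
set_option linter.unusedSectionVars false

open scoped Manifold ContDiff Topology
open Set Filter

namespace Pool.Agent.Helper831

/-- the quadratic form `u₁² + (1 + x²) u₂²` -/
noncomputable def cylA (y u : ℝ × ℝ) : ℝ := u.1 ^ 2 + (1 + y.1 ^ 2) * u.2 ^ 2

/-- the length integrand `√(u₁² + (1 + x²) u₂²) + x u₂` at the point `(x, θ)` -/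
noncomputable def cylL (y u : ℝ × ℝ) : ℝ :=
  Real.sqrt (u.1 ^ 2 + (1 + y.1 ^ 2) * u.2 ^ 2) + y.1 * u.2

theorem cylL_def (y u : ℝ × ℝ) : cylL y u = Real.sqrt (cylA y u) + y.1 * u.2 := rfl

theorem cylA_nonneg (y u : ℝ × ℝ) : 0 ≤ cylA y u := by unfold cylA; positivity

theorem cylA_pos (y : ℝ × ℝ) {u : ℝ × ℝ} (hu : u ≠ 0) : 0 < cylA y u := by
  unfold cylA
  by_cases h : u.2 = 0
  · have h1 : u.1 ≠ 0 := by
      intro h1
      exact hu (Prod.ext h1 h)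
    positivity
  · positivity

theorem abs_lt_sqrtA (y : ℝ × ℝ) {u : ℝ × ℝ} (hu : u ≠ 0) :
    |y.1 * u.2| < Real.sqrt (cylA y u) := by
  rw [← Real.sqrt_sq_eq_abs]
  apply Real.sqrt_lt_sqrt (sq_nonneg _)
  unfold cylA
  by_cases h : u.2 = 0
  · have h1 : u.1 ≠ 0 := by
      intro h1
      exact hu (Prod.ext h1 h)
    rw [h]
    have : 0 < u.1 ^ 2 := by positivity
    nlinarith
  · have : 0 < u.2 ^ 2 := by positivity
    nlinarith [sq_nonneg u.1]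

theorem cylL_pos (y : ℝ × ℝ) {u : ℝ × ℝ} (hu : u ≠ 0) : 0 < cylL y u := by
  have h1 := abs_lt_sqrtA y hu
  have h2 := (abs_lt.1 h1).1
  rw [cylL_def]
  linarith

theorem cylL_nonneg (y u : ℝ × ℝ) : 0 ≤ cylL y u := by
  rcases eq_or_ne u 0 with rfl | hu
  · simp [cylL]
  · exact (cylL_pos y hu).le

theorem cylL_hom (y u : ℝ × ℝ) (c : ℝ) (hc : 0 < c) : cylL y (c • u) = c * cylL y u := by
  unfold cylL
  simp only [Prod.smul_fst, Prod.smul_snd, smul_eq_mul]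
  have h1 : (c * u.1) ^ 2 + (1 + y.1 ^ 2) * (c * u.2) ^ 2 =
      c ^ 2 * (u.1 ^ 2 + (1 + y.1 ^ 2) * u.2 ^ 2) := by ring
  rw [h1, Real.sqrt_mul (sq_nonneg c), Real.sqrt_sq hc.le]
  ring

theorem cylL_continuous : Continuous (fun p : (ℝ × ℝ) × (ℝ × ℝ) => cylL p.1 p.2) := by
  unfold cylL
  fun_prop

theorem cylA_contDiff : ContDiff ℝ ∞ (fun p : (ℝ × ℝ) × (ℝ × ℝ) => cylA p.1 p.2) := by
  unfold cylA
  fun_prop

theorem cylL_smoothAt (y : ℝ × ℝ) {u : ℝ × ℝ} (hu : u ≠ 0) :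
    ContDiffAt ℝ ∞ (fun p : (ℝ × ℝ) × (ℝ × ℝ) => cylL p.1 p.2) (y, u) := by
  have h1 : ContDiffAt ℝ ∞ (fun p : (ℝ × ℝ) × (ℝ × ℝ) => Real.sqrt (cylA p.1 p.2)) (y, u) :=
    cylA_contDiff.contDiffAt.sqrt (cylA_pos y hu).ne'
  have h2 : ContDiff ℝ ∞ (fun p : (ℝ × ℝ) × (ℝ × ℝ) => p.1.1 * p.2.2) := by fun_prop
  exact h1.add h2.contDiffAt

theorem cylL_smooth : ContDiffOn ℝ ∞ (fun p : (ℝ × ℝ) × (ℝ × ℝ) => cylL p.1 p.2)
    (univ ×ˢ {0}ᶜ) := by
  rintro ⟨y, u⟩ ⟨-, hu⟩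
  exact (cylL_smoothAt y hu).contDiffWithinAt

theorem cylL_convex (y u w : ℝ × ℝ) (hu : u ≠ 0) (hw : w ≠ 0) :
    0 < iteratedDeriv 2 (fun t : ℝ => cylL y (u + t • w) ^ 2) 0 := by
  refine convex_aux (cylL y) (fun v hv => cylL_pos y hv) (fun v c hc => cylL_hom y v c hc) hu ?_
  intro hind
  set q0 := cylA y u
  set q2 := cylA y w
  set q1 := u.1 * w.1 + (1 + y.1 ^ 2) * (u.2 * w.2)
  have hline : ∀ t : ℝ, cylA y (u + t • w) = q0 + 2 * t * q1 + t ^ 2 * q2 := by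
    intro t
    simp only [cylA, q0, q1, q2, Prod.fst_add, Prod.snd_add, Prod.smul_fst, Prod.smul_snd,
      smul_eq_mul]
    ring
  have hqt : ∀ t : ℝ, 0 < q0 + 2 * t * q1 + t ^ 2 * q2 := by
    intro t
    rw [← hline]
    exact cylA_pos y (hind t)
  have hq0 : 0 < q0 := cylA_pos y hu
  have hq2 : 0 < q2 := cylA_pos y hw
  have hdisc : q1 ^ 2 < q0 * q2 := by
    have h1 := hqt (-(q1 / q2))
    have h2 : q0 + 2 * -(q1 / q2) * q1 + (-(q1 / q2)) ^ 2 * q2 = (q0 * q2 - q1 ^ 2) / q2 := by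
      field_simp
      ring
    rw [h2] at h1
    have h3 := (div_pos_iff_of_pos_right hq2).1 h1
    linarith
  set f : ℝ → ℝ := fun t => Real.sqrt (q0 + 2 * t * q1 + t ^ 2 * q2) with hf
  have hpoly : ∀ t : ℝ, HasDerivAt (fun t : ℝ => q0 + 2 * t * q1 + t ^ 2 * q2)
      (2 * (q1 + t * q2)) t := by
    intro t
    have h1 := ((((hasDerivAt_id t).const_mul 2).mul_const q1).const_add q0).add
      (((hasDerivAt_id t).pow 2).mul_const q2)
    refine h1.congr_deriv ?_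
    simp
    ring
  have hfd : ∀ t : ℝ, HasDerivAt f ((q1 + t * q2) / f t) t := by
    intro t
    refine ((hpoly t).sqrt (hqt t).ne').congr_deriv ?_
    rw [mul_div_mul_left _ _ two_ne_zero]
  have hf0 : f 0 = Real.sqrt q0 := by simp [hf]
  have hfpos : 0 < f 0 := by rw [hf0]; exact Real.sqrt_pos.2 hq0
  have hfsq : f 0 ^ 2 = q0 := by rw [hf0]; exact Real.sq_sqrt hq0.le
  have hfd2 : HasDerivAt (fun t => (q1 + t * q2) / f t)
      ((q2 * f 0 - q1 * (q1 / f 0)) / f 0 ^ 2) 0 := by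
    have h1 : HasDerivAt (fun t : ℝ => q1 + t * q2) q2 0 := by
      simpa using ((hasDerivAt_id (0 : ℝ)).mul_const q2).const_add q1
    refine (h1.fun_div (hfd 0) hfpos.ne').congr_deriv ?_
    simp
  refine ⟨fun t => (q1 + t * q2) / f t + y.1 * w.2, _, Eventually.of_forall fun t => ?_,
    hfd2.add_const _, ?_⟩
  · have h1 : (fun t : ℝ => cylL y (u + t • w)) = fun t => f t + (y.1 * u.2 + t * (y.1 * w.2)) := by
      funext t
      rw [cylL_def, hline]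
      simp only [Prod.snd_add, Prod.smul_snd, smul_eq_mul, hf]
      ring
    rw [h1]
    have h2 : HasDerivAt (fun t : ℝ => y.1 * u.2 + t * (y.1 * w.2)) (y.1 * w.2) t := by
      simpa using ((hasDerivAt_id t).mul_const (y.1 * w.2)).const_add (y.1 * u.2)
    exact (hfd t).add h2
  · have h2 : (q2 * f 0 - q1 * (q1 / f 0)) / f 0 ^ 2 = (q0 * q2 - q1 ^ 2) / f 0 ^ 3 := by
      field_simp
      rw [hfsq]
    rw [h2]
    apply div_pos (by linarith) (by positivity)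

/-- The Finsler metric `√(dx² + (1 + x²) dθ²) + x dθ` on the cylinder. -/
noncomputable def cylF : FinslerMetric (ℝ × ℝ) Cyl :=
  quotFinsler (Γ := CylZ) cylL cylL_nonneg cylL_hom cylL_continuous cylL_smooth cylL_convex
    (by
      intro δ y u
      rw [CylZ.fderiv_smul, CylZ.smul_def]
      rfl)

theorem cylF_lagrangian {e : OpenPartialHomeomorph Cyl (ℝ × ℝ)} (he : e ∈ atlas (ℝ × ℝ) Cyl)
    (y u : ℝ × ℝ) : cylF.lagrangian e y u = cylL y u :=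
  quotFinsler_lagrangian (Γ := CylZ) cylL _ _ _ _ _ _ he y u

/-! ### derivatives of the integrand -/

theorem hasFDerivAt_cylL_snd (y : ℝ × ℝ) {u : ℝ × ℝ} (hu : u ≠ 0) :
    HasFDerivAt (fun u => cylL y u)
      (((u.1 / Real.sqrt (cylA y u)) • ContinuousLinearMap.fst ℝ ℝ ℝ) +
        (((1 + y.1 ^ 2) * u.2 / Real.sqrt (cylA y u) + y.1) • ContinuousLinearMap.snd ℝ ℝ ℝ))
      u := by
  have hf : HasFDerivAt (fun u : ℝ × ℝ => u.1) (ContinuousLinearMap.fst ℝ ℝ ℝ) u := hasFDerivAt_fst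
  have hs : HasFDerivAt (fun u : ℝ × ℝ => u.2) (ContinuousLinearMap.snd ℝ ℝ ℝ) u := hasFDerivAt_snd
  have h1 : HasFDerivAt (fun u : ℝ × ℝ => u.1 * u.1 + (1 + y.1 ^ 2) * (u.2 * u.2)) _ u :=
    (hf.mul hf).add ((hs.mul hs).const_mul (1 + y.1 ^ 2))
  have h2 : (fun u : ℝ × ℝ => u.1 * u.1 + (1 + y.1 ^ 2) * (u.2 * u.2)) = cylA y := by
    funext u; unfold cylA; ring
  rw [h2] at h1
  have h3 := (h1.sqrt (cylA_pos y hu).ne').add (hs.const_mul y.1)
  refine HasFDerivAt.congr_fderiv h3 ?_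
  have hpos : 0 < Real.sqrt (cylA y u) := Real.sqrt_pos.2 (cylA_pos y hu)
  apply ContinuousLinearMap.ext
  intro v
  simp only [ContinuousLinearMap.add_apply, ContinuousLinearMap.smul_apply,
    ContinuousLinearMap.coe_fst', ContinuousLinearMap.coe_snd', smul_eq_mul]
  field_simp
  ring

theorem fderiv_cylL_snd (y : ℝ × ℝ) {u : ℝ × ℝ} (hu : u ≠ 0) (w : ℝ × ℝ) :
    fderiv ℝ (fun u => cylL y u) u w =
      u.1 / Real.sqrt (cylA y u) * w.1 +
        ((1 + y.1 ^ 2) * u.2 / Real.sqrt (cylA y u) + y.1) * w.2 := by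
  rw [(hasFDerivAt_cylL_snd y hu).fderiv]
  simp

theorem fderiv_cylL_fst (y : ℝ × ℝ) {u : ℝ × ℝ} (hu : u ≠ 0) (w : ℝ × ℝ) :
    fderiv ℝ (fun y => cylL y u) y w =
      (y.1 * u.2 ^ 2 / Real.sqrt (cylA y u) + u.2) * w.1 := by
  have hf : HasFDerivAt (fun y : ℝ × ℝ => y.1) (ContinuousLinearMap.fst ℝ ℝ ℝ) y := hasFDerivAt_fst
  have h1 : HasFDerivAt (fun y : ℝ × ℝ => u.1 ^ 2 + (1 + y.1 * y.1) * u.2 ^ 2) _ y :=
    (((hf.mul hf).const_add 1).mul_const (u.2 ^ 2)).const_add (u.1 ^ 2)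
  have h2 : (fun y : ℝ × ℝ => u.1 ^ 2 + (1 + y.1 * y.1) * u.2 ^ 2) = fun y => cylA y u := by
    funext y; unfold cylA; ring
  rw [h2] at h1
  have h3 : HasFDerivAt (fun y => cylL y u) _ y :=
    (h1.sqrt (cylA_pos y hu).ne').add (hf.mul_const u.2)
  have hpos : 0 < Real.sqrt (cylA y u) := Real.sqrt_pos.2 (cylA_pos y hu)
  rw [h3.fderiv]
  simp only [ContinuousLinearMap.add_apply, ContinuousLinearMap.smul_apply,
    ContinuousLinearMap.coe_fst', smul_eq_mul]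
  field_simp
  ring

end Pool.Agent.Helper831
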