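import Mathlib
import Pool.Agent.Helper831.CylLag

set_option linter.unusedSectionVars false

open scoped ContDiff Topology
open Set Filter MeasureTheory

namespace Pool.Agent.Helper831

namespace CylCurve

variable (x₀ θ₀ V p : ℝ)

/-- the radial coordinate -/
noncomputable def X (t : ℝ) : ℝ := x₀ + V * t + p * t ^ 2 / 2

noncomputable def rho (t : ℝ) : ℝ := Real.sqrt (1 + X x₀ V p t ^ 2)

theorem rho_pos (t : ℝ) : 0 < rho x₀ V p t := Real.sqrt_pos.2 (by positivity)

theorem rho_sq (t : ℝ) : rho x₀ V p t ^ 2 = 1 + X x₀ V p t ^ 2 := Real.sq_sqrt (by positivity)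

theorem contDiff_X : ContDiff ℝ ∞ (X x₀ V p) := by unfold X; fun_prop

theorem contDiff_rho : ContDiff ℝ ∞ (rho x₀ V p) := by
  unfold rho
  exact ContDiff.sqrt (contDiff_const.add ((contDiff_X x₀ V p).pow 2)) (fun t => by positivity)

theorem hasDerivAt_X (t : ℝ) : HasDerivAt (X x₀ V p) (V + p * t) t := by
  unfold X
  have h1 := (((hasDerivAt_id t).const_mul V).const_add x₀).add
    ((((hasDerivAt_id t).pow 2).const_mul p).div_const 2)
  refine h1.congr_deriv ?_
  simp
  ring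

theorem hasDerivAt_rho (t : ℝ) :
    HasDerivAt (rho x₀ V p) (X x₀ V p t * (V + p * t) / rho x₀ V p t) t := by
  have h1 := (((hasDerivAt_X x₀ V p t).fun_pow 2).const_add 1).sqrt
    (by positivity : (1 + X x₀ V p t ^ 2 : ℝ) ≠ 0)
  refine h1.congr_deriv ?_
  have h2 : Real.sqrt (1 + X x₀ V p t ^ 2) = rho x₀ V p t := rfl
  rw [h2]
  have := rho_pos x₀ V p t
  push_cast
  field_simp

/-- the speed of the explicit curve -/
noncomputable def spd (t : ℝ) : ℝ := (1 + p * X x₀ V p t) / rho x₀ V p t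

/-- the angular velocity of the explicit curve -/
noncomputable def ang (t : ℝ) : ℝ := (p - X x₀ V p t) / rho x₀ V p t

theorem contDiff_spd : ContDiff ℝ ∞ (spd x₀ V p) := by
  unfold spd
  exact (contDiff_const.add (contDiff_const.mul (contDiff_X x₀ V p))).div (contDiff_rho x₀ V p)
    (fun t => (rho_pos x₀ V p t).ne')

theorem contDiff_ang : ContDiff ℝ ∞ (ang x₀ V p) := by
  unfold ang
  exact (contDiff_const.sub (contDiff_X x₀ V p)).div (contDiff_rho x₀ V p)
    (fun t => (rho_pos x₀ V p t).ne')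

/-- primitives -/
noncomputable def prim (g : ℝ → ℝ) (t : ℝ) : ℝ := ∫ s in (0 : ℝ)..t, g s

theorem hasDerivAt_prim {g : ℝ → ℝ} (hg : Continuous g) (t : ℝ) : HasDerivAt (prim g) (g t) t :=
  intervalIntegral.integral_hasDerivAt_right (hg.intervalIntegrable _ _)
    hg.aestronglyMeasurable.stronglyMeasurableAtFilter hg.continuousAt

theorem contDiff_prim {g : ℝ → ℝ} (hg : ContDiff ℝ ∞ g) : ContDiff ℝ ∞ (prim g) := by
  rw [contDiff_infty_iff_deriv]
  have h1 : deriv (prim g) = g := funext fun t => (hasDerivAt_prim hg.continuous t).deriv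
  rw [h1]
  exact ⟨fun t => (hasDerivAt_prim hg.continuous t).differentiableAt, hg⟩

theorem prim_zero (g : ℝ → ℝ) : prim g 0 = 0 := by simp [prim]

variable {x₀ V p}

theorem sq_vel (hV : V ^ 2 = 1 - p ^ 2 + 2 * p * x₀) (t : ℝ) :
    (V + p * t) ^ 2 = 1 - p ^ 2 + 2 * p * X x₀ V p t := by
  unfold X
  linear_combination hV

theorem spd_pos (hV : V ^ 2 = 1 - p ^ 2 + 2 * p * x₀) (t : ℝ) : 0 < spd x₀ V p t := by
  unfold spd
  apply div_pos _ (rho_pos x₀ V p t)
  have h1 := sq_vel hV t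
  nlinarith [sq_nonneg (V + p * t), sq_nonneg p]

/-- `S ± arsinh X` are monotone -/
theorem mono_aux (hV : V ^ 2 = 1 - p ^ 2 + 2 * p * x₀) {ε : ℝ} (hε : ε = 1 ∨ ε = -1) :
    Monotone (fun t => prim (spd x₀ V p) t + ε * Real.arsinh (X x₀ V p t)) := by
  have hd : ∀ t, HasDerivAt (fun t => prim (spd x₀ V p) t + ε * Real.arsinh (X x₀ V p t))
      (spd x₀ V p t + ε * ((V + p * t) / rho x₀ V p t)) t := by
    intro t
    have h1 := hasDerivAt_prim (contDiff_spd x₀ V p).continuous t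
    have h2 := HasDerivAt.comp (h := X x₀ V p) t (Real.hasDerivAt_arsinh (X x₀ V p t))
      (hasDerivAt_X x₀ V p t)
    refine (h1.add (h2.const_mul ε)).congr_deriv ?_
    have h3 : Real.sqrt (1 + X x₀ V p t ^ 2) = rho x₀ V p t := rfl
    rw [h3]
    ring
  apply monotone_of_deriv_nonneg (fun t => (hd t).differentiableAt)
  intro t
  rw [(hd t).deriv]
  unfold spd
  have h1 := sq_vel hV t
  have h2 : (1 + p * X x₀ V p t) / rho x₀ V p t + ε * ((V + p * t) / rho x₀ V p t) =
      ((1 + p * X x₀ V p t) + ε * (V + p * t)) / rho x₀ V p t := by ring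
  rw [h2]
  apply div_nonneg _ (rho_pos x₀ V p t).le
  rcases hε with rfl | rfl
  · nlinarith [sq_nonneg (V + p * t + 1), sq_nonneg p]
  · nlinarith [sq_nonneg (V + p * t - 1), sq_nonneg p]

theorem prim_ge (hV : V ^ 2 = 1 - p ^ 2 + 2 * p * x₀) {t : ℝ} (ht : 0 ≤ t) :
    Real.arsinh |X x₀ V p t| - |Real.arsinh x₀| ≤ prim (spd x₀ V p) t := by
  have h1 := mono_aux hV (Or.inl rfl) ht
  have h2 := mono_aux hV (Or.inr rfl) ht
  simp only [prim_zero] at h1 h2
  have h3 : X x₀ V p 0 = x₀ := by simp [X]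
  rw [h3] at h1 h2
  have h4 := neg_abs_le (Real.arsinh x₀)
  have h5 := le_abs_self (Real.arsinh x₀)
  rcases abs_cases (X x₀ V p t) with ⟨h, _⟩ | ⟨h, _⟩
  · rw [h]; linarith
  · rw [h, Real.arsinh_neg]; linarith

theorem prim_le (hV : V ^ 2 = 1 - p ^ 2 + 2 * p * x₀) {t : ℝ} (ht : t ≤ 0) :
    prim (spd x₀ V p) t ≤ |Real.arsinh x₀| - Real.arsinh |X x₀ V p t| := by
  have h1 := mono_aux hV (Or.inl rfl) ht
  have h2 := mono_aux hV (Or.inr rfl) ht
  simp only [prim_zero] at h1 h2
  have h3 : X x₀ V p 0 = x₀ := by simp [X]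
  rw [h3] at h1 h2
  have h4 := neg_abs_le (Real.arsinh x₀)
  have h5 := le_abs_self (Real.arsinh x₀)
  rcases abs_cases (X x₀ V p t) with ⟨h, _⟩ | ⟨h, _⟩
  · rw [h]; linarith
  · rw [h, Real.arsinh_neg]; linarith

theorem tendsto_arsinh : Tendsto Real.arsinh atTop atTop := Real.sinhOrderIso.symm.tendsto_atTop

theorem tendsto_abs_X (hV : V ^ 2 = 1 - p ^ 2 + 2 * p * x₀) :
    Tendsto (fun t => |X x₀ V p t|) atTop atTop := by
  rcases eq_or_ne p 0 with rfl | hp
  · have hV1 : |V| = 1 := by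
      have : V ^ 2 = 1 := by rw [hV]; ring
      rw [← sq_eq_sq₀ (abs_nonneg V) zero_le_one, sq_abs, this, one_pow]
    have h1 : Tendsto (fun t : ℝ => t - |x₀|) atTop atTop :=
      tendsto_atTop_add_const_right _ _ tendsto_id
    refine tendsto_atTop_mono' _ ?_ h1
    filter_upwards [eventually_ge_atTop 0] with t ht
    have h2 : |V * t| = t := by rw [abs_mul, hV1, one_mul, abs_of_nonneg ht]
    have h3 : X x₀ V 0 t = V * t - (-x₀) := by unfold X; ring
    rw [h3]
    have h4 := abs_sub_abs_le_abs_sub (V * t) (-x₀)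
    rw [abs_neg, h2] at h4
    exact h4
  · have hp' : 0 < |p| := abs_pos.2 hp
    have h1 : Tendsto (fun t : ℝ => |p| / 2 * t - |V|) atTop atTop :=
      tendsto_atTop_add_const_right _ _ (tendsto_id.const_mul_atTop (by positivity))
    have h2 : Tendsto (fun t : ℝ => t * (|p| / 2 * t - |V|) - |x₀|) atTop atTop :=
      tendsto_atTop_add_const_right _ _ (tendsto_id.atTop_mul_atTop₀ h1)
    refine tendsto_atTop_mono' _ ?_ h2
    filter_upwards [eventually_ge_atTop 0] with t ht
    have h3 : X x₀ V p t = p * t ^ 2 / 2 - (-(V * t) - x₀) := by unfold X; ring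
    have h4 := abs_sub_abs_le_abs_sub (p * t ^ 2 / 2) (-(V * t) - x₀)
    have h5 : |p * t ^ 2 / 2| = |p| * t ^ 2 / 2 := by
      rw [abs_div, abs_mul, abs_of_nonneg (sq_nonneg t), abs_of_pos (by norm_num : (0 : ℝ) < 2)]
    have h6 : |-(V * t) - x₀| ≤ |V| * t + |x₀| := by
      refine (abs_sub _ _).trans ?_
      rw [abs_neg, abs_mul, abs_of_nonneg ht]
    rw [h3]
    nlinarith

theorem X_neg (t : ℝ) : X x₀ V p (-t) = X x₀ (-V) p t := by unfold X; ring

theorem tendsto_abs_X' (hV : V ^ 2 = 1 - p ^ 2 + 2 * p * x₀) :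
    Tendsto (fun t => |X x₀ V p t|) atBot atTop := by
  have h1 : Tendsto (fun t => |X x₀ (-V) p t|) atTop atTop :=
    tendsto_abs_X (by rw [neg_sq]; exact hV)
  have h2 := h1.comp tendsto_neg_atBot_atTop
  refine h2.congr fun t => ?_
  rw [Function.comp_apply, ← X_neg, neg_neg]

theorem prim_surjective (hV : V ^ 2 = 1 - p ^ 2 + 2 * p * x₀) :
    Function.Surjective (prim (spd x₀ V p)) := by
  apply Continuous.surjective (contDiff_prim (contDiff_spd x₀ V p)).continuous
  · refine tendsto_atTop_mono' _ ?_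
      (tendsto_atTop_add_const_right _ (-|Real.arsinh x₀|) (tendsto_arsinh.comp (tendsto_abs_X hV)))
    filter_upwards [eventually_ge_atTop 0] with t ht
    have := prim_ge hV ht
    simp only [Function.comp_apply]
    linarith
  · refine tendsto_atBot_mono' _ ?_
      (tendsto_atBot_add_const_left _ (|Real.arsinh x₀|)
        (tendsto_neg_atTop_atBot.comp (tendsto_arsinh.comp (tendsto_abs_X' hV))))
    filter_upwards [eventually_le_atBot 0] with t ht
    have := prim_le hV ht
    simp only [Function.comp_apply]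
    linarith

theorem prim_strictMono (hV : V ^ 2 = 1 - p ^ 2 + 2 * p * x₀) :
    StrictMono (prim (spd x₀ V p)) := by
  apply strictMono_of_deriv_pos
  intro t
  rw [(hasDerivAt_prim (contDiff_spd x₀ V p).continuous t).deriv]
  exact spd_pos hV t

/-- the inverse of the arclength -/
theorem exists_inverse (hV : V ^ 2 = 1 - p ^ 2 + 2 * p * x₀) :
    ∃ T : ℝ → ℝ, ContDiff ℝ ∞ T ∧ T 0 = 0 ∧
      ∀ s, HasDerivAt T (spd x₀ V p (T s))⁻¹ s := by
  set f : ℝ ≃ₜ ℝ :=
    ((prim_strictMono hV).orderIsoOfSurjective _ (prim_surjective hV)).toHomeomorph with hf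
  have hfc : (f : ℝ → ℝ) = prim (spd x₀ V p) := rfl
  have hd : ∀ x, HasDerivAt f (spd x₀ V p x) x := fun x => by
    rw [hfc]; exact hasDerivAt_prim (contDiff_spd x₀ V p).continuous x
  refine ⟨f.symm, ?_, ?_, ?_⟩
  · exact f.contDiff_symm_deriv (fun x => (spd_pos hV x).ne') hd
      (by rw [hfc]; exact contDiff_prim (contDiff_spd x₀ V p))
  · rw [Homeomorph.symm_apply_eq, hfc, prim_zero]
  · intro s
    exact HasDerivAt.of_local_left_inverse f.symm.continuous.continuousAt (hd _)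
      (spd_pos hV _).ne' (Eventually.of_forall fun y => f.apply_symm_apply y)

end CylCurve

end Pool.Agent.Helper831
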