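import Mathlib
import Pool.Agent.Helper831.FinslerDef

open scoped Manifold ContDiff Topology

namespace Pool.Agent.Helper831

namespace FinslerMetric

variable {E : Type*} [NormedAddCommGroup E] [NormedSpace ℝ E]
  {M : Type*} [TopologicalSpace M] [ChartedSpace E M] (F : FinslerMetric E M)

/-- `F` is complete (forward and backward): every nonzero tangent vector is the initial velocity of
a geodesic of constant speed defined on all of `ℝ`. -/
def IsComplete : Prop :=
  ∀ (x : M) (v : TangentSpace 𝓘(ℝ, E) x), v ≠ 0 → ∃ γ : ℝ → M, F.IsGeodesicOn γ Set.univ ∧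
    (∀ t : ℝ, F.toFun (γ t) (velocity E γ t) = F.toFun x v) ∧
    (⟨γ 0, velocity E γ 0⟩ : TangentBundle 𝓘(ℝ, E) M) = ⟨x, v⟩

/-- `F` is irreversible: `F(-v) ≠ F(v)` for some tangent vector `v`. -/
def IsIrreversible : Prop :=
  ∃ (x : M) (v : TangentSpace 𝓘(ℝ, E) x), F.toFun x (-v) ≠ F.toFun x v

/-- `F` has a closed geodesic: a geodesic `γ : ℝ → M` (of nonvanishing velocity) which is
periodic. -/
def HasClosedGeodesic : Prop :=
  ∃ (γ : ℝ → M) (L : ℝ), 0 < L ∧ F.IsGeodesicOn γ Set.univ ∧ ∀ t : ℝ, γ (t + L) = γ t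

end FinslerMetric

section volume

variable {M : Type*} [TopologicalSpace M] [ChartedSpace (ℝ × ℝ) M]
  (F : FinslerMetric (ℝ × ℝ) M)

/-- The density of the Busemann-Hausdorff area of a surface in the chart `e` at the point with
coordinates `y`: the area `π` of the Euclidean unit disc divided by the Lebesgue measure of the
unit ball of `F`. -/
noncomputable def FinslerMetric.busemannDensity (e : OpenPartialHomeomorph M (ℝ × ℝ))
    (y : ℝ × ℝ) : ENNReal :=
  ENNReal.ofReal Real.pi / MeasureTheory.volume {u : ℝ × ℝ | F.lagrangian e y u < 1}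

/-- The surface has finite Busemann-Hausdorff area: it is the union of countably many pieces
`(e i).symm '' A i`, each contained in the domain of a chart, whose Busemann-Hausdorff areas
`∫_{A i} density` have a finite sum. -/
def FinslerMetric.HasFiniteArea : Prop :=
  ∃ (e : ℕ → OpenPartialHomeomorph M (ℝ × ℝ)) (A : ℕ → Set (ℝ × ℝ)),
    (∀ i, e i ∈ atlas (ℝ × ℝ) M ∧ MeasurableSet (A i) ∧ A i ⊆ (e i).target) ∧
    (⋃ i, (e i).symm '' A i) = Set.univ ∧
    ∑' i, ∫⁻ y in A i, F.busemannDensity (e i) y < ⊤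

end volume

end Pool.Agent.Helper831
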