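import Mathlib
import Pool.Agent.Helper831.FinslerDef
import Pool.Agent.Helper831.FinslerDef2
import Pool.Agent.Helper831.SemiLemmas
import Pool.Agent.Helper831.Quot2

set_option maxSynthPendingDepth 3
set_option linter.unusedSectionVars false

open scoped Manifold ContDiff Topology
open Set Filter

namespace Pool.Agent.Helper831

variable {E : Type*} [NormedAddCommGroup E] [NormedSpace ℝ E] [FiniteDimensional ℝ E]
  {M : Type*} [TopologicalSpace M] [ChartedSpace E M] [IsManifold 𝓘(ℝ, E) ∞ M]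

theorem coordVec_ne_zero' {e : OpenPartialHomeomorph M E} (he : e ∈ atlas E M) {y : E}
    (hy : y ∈ e.target) {u : E} (hu : u ≠ 0) : coordVec e y u ≠ 0 := by
  intro h
  apply hu
  have h1 := cvec_injective he hy
  apply h1
  unfold coordVec at h
  rw [h]

theorem velocity_coord {e : OpenPartialHomeomorph M E} (he : e ∈ atlas E M)
    {γ : ℝ → M} {t : ℝ} (hγ : MDifferentiableAt 𝓘(ℝ, ℝ) 𝓘(ℝ, E) γ t) (ht : γ t ∈ e.source) :
    (velocity E γ t : E) =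
      mfderiv 𝓘(ℝ, E) 𝓘(ℝ, E) e.symm (e (γ t)) (deriv (fun r => e (γ r)) t) :=
  congrArg (fun p : TangentBundle 𝓘(ℝ, E) M => (p.2 : E)) (velocity_eq_cvec he hγ ht)

theorem velocity_ne_iff {e : OpenPartialHomeomorph M E} (he : e ∈ atlas E M)
    {γ : ℝ → M} {t : ℝ} (hγ : MDifferentiableAt 𝓘(ℝ, ℝ) 𝓘(ℝ, E) γ t) (ht : γ t ∈ e.source) :
    velocity E γ t ≠ 0 ↔ deriv (fun r => e (γ r)) t ≠ 0 := by
  have h2 := velocity_coord he hγ ht
  constructor
  · intro h h3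
    apply h
    have h1 := velocity_eq_cvec he hγ ht
    rw [h3] at h1
    have h4 := congrArg (fun p : TangentBundle 𝓘(ℝ, E) M => (p.2 : E)) h1
    change (velocity E γ t : E) = mfderiv 𝓘(ℝ, E) 𝓘(ℝ, E) e.symm (e (γ t)) 0 at h4
    rw [h4]
    exact (mfderiv 𝓘(ℝ, E) 𝓘(ℝ, E) e.symm (e (γ t))).map_zero
  · intro h h3
    have h4 : coordVec e (e (γ t)) (deriv (fun r => e (γ r)) t) ≠ 0 :=
      coordVec_ne_zero' he (e.map_source ht) h
    apply h4
    have h5 : (velocity E γ t : E) = 0 := h3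
    rw [h5] at h2
    exact h2.symm

theorem speed_coord (F : FinslerMetric E M) {e : OpenPartialHomeomorph M E} (he : e ∈ atlas E M)
    {γ : ℝ → M} {t : ℝ} (hγ : MDifferentiableAt 𝓘(ℝ, ℝ) 𝓘(ℝ, E) γ t) (ht : γ t ∈ e.source) :
    F.toFun (γ t) (velocity E γ t) =
      F.lagrangian e (e (γ t)) (deriv (fun r => e (γ r)) t) :=
  congrArg (fun p : TangentBundle 𝓘(ℝ, E) M => F.toFun p.1 p.2) (velocity_eq_cvec he hγ ht)

theorem exists_coord (F : FinslerMetric E M) (x : M) (v : TangentSpace 𝓘(ℝ, E) x) (hv : v ≠ 0)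
    {e : OpenPartialHomeomorph M E} (he : e ∈ atlas E M) (hx : x ∈ e.source) :
    ∃ u : E, u ≠ 0 ∧ (⟨x, v⟩ : TangentBundle 𝓘(ℝ, E) M) = cvec e (e x) u ∧
      F.toFun x v = F.lagrangian e (e x) u := by
  have hq := totalSpace_eq_cvec he (⟨x, v⟩ : TangentBundle 𝓘(ℝ, E) M) hx
  refine ⟨mfderiv 𝓘(ℝ, E) 𝓘(ℝ, E) e x v, ?_, hq, ?_⟩
  · intro h
    apply hv
    have hq' : (⟨x, v⟩ : TangentBundle 𝓘(ℝ, E) M) = cvec e (e x) 0 := by
      rw [← h]; exact hq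
    have h2 := congrArg (fun p : TangentBundle 𝓘(ℝ, E) M => (p.2 : E)) hq'
    change (v : E) = mfderiv 𝓘(ℝ, E) 𝓘(ℝ, E) e.symm (e x) 0 at h2
    rw [h2]
    exact (mfderiv 𝓘(ℝ, E) 𝓘(ℝ, E) e.symm (e x)).map_zero
  · exact congrArg (fun p : TangentBundle 𝓘(ℝ, E) M => F.toFun p.1 p.2) hq

theorem isComplete_of (F : FinslerMetric E M)
    (h : ∀ (x : M) (e : OpenPartialHomeomorph M E), e ∈ atlas E M → x ∈ e.source →
      ∀ u : E, u ≠ 0 → ∃ γ : ℝ → M, ContMDiff 𝓘(ℝ, ℝ) 𝓘(ℝ, E) ∞ γ ∧ F.IsGeodesicOn γ univ ∧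
        (∀ t : ℝ, F.toFun (γ t) (velocity E γ t) = F.lagrangian e (e x) u) ∧ γ 0 = x ∧
        deriv (fun r => e (γ r)) 0 = u) : F.IsComplete := by
  intro x v hv
  have he := chart_mem_atlas E x
  have hx := mem_chart_source E x
  obtain ⟨u, hu, hq, hF⟩ := exists_coord F x v hv he hx
  obtain ⟨γ, hsm, hγ, hspd, h0, h1⟩ := h x _ he hx u hu
  refine ⟨γ, hγ, ?_, ?_⟩
  · intro t
    rw [hspd, hF]
  · have h2 := velocity_eq_cvec he ((hsm 0).mdifferentiableAt (by simp)) (by rw [h0]; exact hx)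
    rw [h2, h1, hq, h0]

end Pool.Agent.Helper831
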