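import Mathlib
import Pool.Agent.Helper831.CylCurve
import Pool.Agent.Helper831.FinslerDef2
import Pool.Agent.Helper831.FinslerAbs

set_option maxSynthPendingDepth 3
set_option linter.unusedSectionVars false

open scoped Manifold ContDiff Topology
open Set Filter

namespace Pool.Agent.Helper831

open CylCurve in
/-- the explicit geodesics on the universal covering -/
theorem exists_curve (y₀ u₀ : ℝ × ℝ) (hu : u₀ ≠ 0) : ∃ σ : ℝ → ℝ × ℝ, ContDiff ℝ ∞ σ ∧
    σ 0 = y₀ ∧ deriv σ 0 = u₀ ∧ (∀ t, deriv σ t ≠ 0) ∧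
    (∀ t, cylL (σ t) (deriv σ t) = cylL y₀ u₀) ∧
    ∀ t w, HasDerivAt (fun s => fderiv ℝ (fun u => cylL (σ s) u) (deriv σ s) w)
      (fderiv ℝ (fun y => cylL y (deriv σ t)) (σ t) w) t := by
  obtain ⟨x₀, θ₀⟩ := y₀
  obtain ⟨a, b⟩ := u₀
  set α := Real.sqrt (cylA (x₀, θ₀) (a, b)) with hα
  have hA : 0 < cylA (x₀, θ₀) (a, b) := cylA_pos _ hu
  have hα0 : 0 < α := Real.sqrt_pos.2 hA
  have hα2 : α ^ 2 = a ^ 2 + (1 + x₀ ^ 2) * b ^ 2 := Real.sq_sqrt hA.le
  set r := Real.sqrt (1 + x₀ ^ 2) with hr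
  have hr0 : 0 < r := Real.sqrt_pos.2 (by positivity)
  have hr2 : r ^ 2 = 1 + x₀ ^ 2 := Real.sq_sqrt (by positivity)
  set p := (1 + x₀ ^ 2) * b / α + x₀ with hp
  set V := r * a / α with hVdef
  set l := cylL (x₀, θ₀) (a, b) with hl
  have hl' : l = α + x₀ * b := rfl
  have hl0 : 0 < l := cylL_pos _ hu
  have hV : V ^ 2 = 1 - p ^ 2 + 2 * p * x₀ := by
    have h1 : p - x₀ = r ^ 2 * b / α := by rw [hp, hr2]; ring
    have h2 : 1 - p ^ 2 + 2 * p * x₀ = r ^ 2 - (p - x₀) ^ 2 := by rw [hr2]; ring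
    have h3 : a ^ 2 = α ^ 2 - r ^ 2 * b ^ 2 := by rw [hα2, hr2]; ring
    rw [h2, h1, hVdef, div_pow, mul_pow, h3]
    field_simp
  obtain ⟨T, hTs, hT0, hTd⟩ := exists_inverse hV
  set τ : ℝ → ℝ := fun s => T (l * s) with hτ
  have hτs : ContDiff ℝ ∞ τ := hTs.comp (contDiff_const.mul contDiff_id)
  set k : ℝ → ℝ := fun s => l / spd x₀ V p (τ s) with hk
  have hτd : ∀ s, HasDerivAt τ (k s) s := by
    intro s
    have h1 := HasDerivAt.comp (h := fun s => l * s) s (hTd (l * s))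
      ((hasDerivAt_id s).const_mul l)
    refine h1.congr_deriv ?_
    simp only [hk, hτ]
    rw [mul_one, div_eq_mul_inv, mul_comm]
  have hk0 : ∀ s, 0 < k s := fun s => div_pos hl0 (spd_pos hV _)
  have hτ0 : τ 0 = 0 := by simp [hτ, hT0]
  set σ : ℝ → ℝ × ℝ := fun s => (X x₀ V p (τ s), θ₀ + prim (ang x₀ V p) (τ s)) with hσ
  have hσd : ∀ s, HasDerivAt σ (k s * (V + p * τ s), k s * ang x₀ V p (τ s)) s := by
    intro s
    have h1 := HasDerivAt.comp (h := τ) s (hasDerivAt_X x₀ V p (τ s)) (hτd s)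
    have h2 := HasDerivAt.comp (h := τ) s
      (hasDerivAt_prim (contDiff_ang x₀ V p).continuous (τ s)) (hτd s)
    refine (h1.prodMk (h2.const_add θ₀)).congr_deriv ?_
    refine Prod.ext ?_ ?_
    · simp only; ring
    · simp only; ring
  have hσs : ContDiff ℝ ∞ σ :=
    ((contDiff_X x₀ V p).comp hτs).prodMk
      (contDiff_const.add ((contDiff_prim (contDiff_ang x₀ V p)).comp hτs))
  have hderiv : ∀ s, deriv σ s = (k s * (V + p * τ s), k s * ang x₀ V p (τ s)) :=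
    fun s => (hσd s).deriv
  have hcirc : ∀ s, (V + p * τ s) ^ 2 + (p - X x₀ V p (τ s)) ^ 2 = rho x₀ V p (τ s) ^ 2 := by
    intro s
    rw [sq_vel hV, rho_sq]
    ring
  have hang : ∀ s, rho x₀ V p (τ s) * ang x₀ V p (τ s) = p - X x₀ V p (τ s) := by
    intro s
    unfold ang
    have := (rho_pos x₀ V p (τ s)).ne'
    field_simp
  have hAσ : ∀ s, cylA (σ s) (deriv σ s) = (k s * rho x₀ V p (τ s)) ^ 2 := by
    intro s
    rw [hderiv]
    have h1 : cylA (σ s) (k s * (V + p * τ s), k s * ang x₀ V p (τ s)) =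
        (k s) ^ 2 * ((V + p * τ s) ^ 2 + (1 + X x₀ V p (τ s) ^ 2) * ang x₀ V p (τ s) ^ 2) := by
      simp only [cylA, hσ]; ring
    rw [h1, ← rho_sq, ← mul_pow, hang, hcirc]
    ring
  have hsqrt : ∀ s, Real.sqrt (cylA (σ s) (deriv σ s)) = k s * rho x₀ V p (τ s) := by
    intro s
    rw [hAσ, Real.sqrt_sq (mul_pos (hk0 s) (rho_pos _ _ _ _)).le]
  have hne : ∀ s, deriv σ s ≠ 0 := by
    intro s h
    have h1 := hAσ s
    rw [h] at h1
    have h2 : 0 < (k s * rho x₀ V p (τ s)) ^ 2 := by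
      have := hk0 s
      have := rho_pos x₀ V p (τ s)
      positivity
    rw [← h1] at h2
    simp [cylA] at h2
  refine ⟨σ, hσs, ?_, ?_, hne, ?_, ?_⟩
  · simp only [hσ, hτ0, prim_zero, add_zero]
    simp [X]
  · rw [hderiv, hτ0]
    have hX0 : X x₀ V p 0 = x₀ := by simp [X]
    have hrho0 : rho x₀ V p 0 = r := by simp only [rho, hX0]; rfl
    have hspd0 : spd x₀ V p 0 = r * l / α := by
      unfold spd
      rw [hX0, hrho0, hp, hl']
      field_simp
      rw [hr2]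
      ring
    have hk00 : k 0 = α / r := by
      simp only [hk]
      rw [hτ0, hspd0]
      field_simp
    rw [hk00]
    refine Prod.ext ?_ ?_
    · simp only [mul_zero, add_zero, hVdef]
      field_simp
    · simp only [ang]
      rw [hX0, hrho0, hp]
      field_simp
      rw [hr2]
      ring
  · intro s
    rw [cylL_def, hsqrt, hderiv]
    have h1 : (σ s).1 = X x₀ V p (τ s) := rfl
    rw [h1]
    have h2 : k s * spd x₀ V p (τ s) = l := by
      simp only [hk]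
      rw [div_mul_cancel₀ _ (spd_pos hV _).ne']
    rw [← h2]
    unfold spd ang
    have h3 := rho_pos x₀ V p (τ s)
    have h4 := rho_sq x₀ V p (τ s)
    field_simp
    rw [h4]
    ring
  · intro t w
    have h1 : (fun s => fderiv ℝ (fun u => cylL (σ s) u) (deriv σ s) w) = fun s =>
        (V + p * τ s) / rho x₀ V p (τ s) * w.1 + p * w.2 := by
      funext s
      rw [fderiv_cylL_snd _ (hne s), hsqrt, hderiv]
      have h3 := rho_pos x₀ V p (τ s)
      have h4 := rho_sq x₀ V p (τ s)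
      have h5 := hk0 s
      have h6 : (σ s).1 = X x₀ V p (τ s) := rfl
      rw [h6, ← h4]
      have h7 := hang s
      have h8 : k s * (V + p * τ s) / (k s * rho x₀ V p (τ s)) =
          (V + p * τ s) / rho x₀ V p (τ s) := by field_simp
      have h9 : rho x₀ V p (τ s) ^ 2 * (k s * ang x₀ V p (τ s)) / (k s * rho x₀ V p (τ s)) =
          rho x₀ V p (τ s) * ang x₀ V p (τ s) := by field_simp
      rw [h8, h9, h7]
      ring
    rw [h1, fderiv_cylL_fst _ (hne t), hsqrt, hderiv]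
    have h2 : HasDerivAt (fun s => V + p * τ s) (p * k t) t := ((hτd t).const_mul p).const_add V
    have h3 : HasDerivAt (fun s => rho x₀ V p (τ s))
        (X x₀ V p (τ t) * (V + p * τ t) / rho x₀ V p (τ t) * k t) t :=
      HasDerivAt.comp (h := τ) t (hasDerivAt_rho x₀ V p (τ t)) (hτd t)
    have h4 := ((h2.fun_div h3 (rho_pos _ _ _ _).ne').mul_const w.1).add_const (p * w.2)
    refine h4.congr_deriv ?_
    have h5 := rho_pos x₀ V p (τ t)
    have h6 := hk0 t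
    have h7 := hcirc t
    have h8 : (σ t).1 = X x₀ V p (τ t) := rfl
    rw [h8]
    unfold ang
    clear_value p V k τ
    field_simp
    linear_combination (-(X x₀ V p (τ t)) * w.1) * h7

/-! ### curves on the cylinder -/

theorem cyl_chart_curve {e : OpenPartialHomeomorph Cyl (ℝ × ℝ)} (he : e ∈ atlas (ℝ × ℝ) Cyl)
    {σ : ℝ → ℝ × ℝ} {t : ℝ} (hσ : ContinuousAt σ t) (ht : proj CylZ (σ t) ∈ e.source) :
    ∃ v : ℝ × ℝ, v.1 = 0 ∧ (∃ δ : CylZ, ∀ z : ℝ × ℝ, δ • z = z + v) ∧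
      ∀ᶠ s in 𝓝 t, e (proj CylZ (σ s)) = σ s + v := by
  obtain ⟨δ, hδ⟩ := chart_proj he ht
  refine ⟨(0, δ.k * (2 * Real.pi)), rfl, ⟨δ, fun z => CylZ.smul_eq_add δ z⟩, ?_⟩
  filter_upwards [hσ.eventually hδ] with s hs
  rw [hs, CylZ.smul_eq_add]

theorem cylL_add (y v u : ℝ × ℝ) (hv : v.1 = 0) : cylL (y + v) u = cylL y u := by
  unfold cylL
  rw [Prod.fst_add, hv, add_zero]

/-- the Euler-Lagrange equation for `cylL` at time `t` -/
def CylEL (σ : ℝ → ℝ × ℝ) (t : ℝ) : Prop :=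
  ∀ w : ℝ × ℝ, HasDerivAt (fun s => fderiv ℝ (fun u => cylL (σ s) u) (deriv σ s) w)
      (fderiv ℝ (fun y => cylL y (deriv σ t)) (σ t) w) t

theorem cylEL_iff {e : OpenPartialHomeomorph Cyl (ℝ × ℝ)} (he : e ∈ atlas (ℝ × ℝ) Cyl)
    {γ : ℝ → Cyl} {σ : ℝ → ℝ × ℝ} {t : ℝ} {v : ℝ × ℝ} (hv : v.1 = 0)
    (hev : ∀ᶠ s in 𝓝 t, e (γ s) = σ s + v) :
    (∀ w : ℝ × ℝ, HasDerivAt (fun s => fderiv ℝ (fun u => cylF.lagrangian e (e (γ s)) u)
        (deriv (fun r => e (γ r)) s) w)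
      (fderiv ℝ (fun y => cylF.lagrangian e y (deriv (fun r => e (γ r)) t)) (e (γ t)) w) t) ↔
    CylEL σ t := by
  unfold CylEL
  refine forall_congr' fun w => ?_
  have hlag : ∀ y u, cylF.lagrangian e y u = cylL y u := fun y u => cylF_lagrangian he y u
  simp only [hlag]
  have hev2 : ∀ᶠ s in 𝓝 t, deriv (fun r => e (γ r)) s = deriv σ s := by
    filter_upwards [hev.eventually_nhds] with s hs
    have h1 : (fun r => e (γ r)) =ᶠ[𝓝 s] fun r => σ r + v := hs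
    rw [h1.deriv_eq, deriv_add_const]
  have h1 : (fun s => fderiv ℝ (fun u => cylL (e (γ s)) u) (deriv (fun r => e (γ r)) s) w)
      =ᶠ[𝓝 t] fun s => fderiv ℝ (fun u => cylL (σ s) u) (deriv σ s) w := by
    filter_upwards [hev, hev2] with s h2 h3
    have h4 : (fun u => cylL (e (γ s)) u) = fun u => cylL (σ s) u := by
      funext u
      rw [h2, cylL_add _ _ _ hv]
    rw [h4, h3]
  have h5 : fderiv ℝ (fun y => cylL y (deriv (fun r => e (γ r)) t)) (e (γ t)) w =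
      fderiv ℝ (fun y => cylL y (deriv σ t)) (σ t) w := by
    rw [hev.self_of_nhds, hev2.self_of_nhds]
    have h6 : (fun y => cylL y (deriv σ t)) = fun y => cylL (y + v) (deriv σ t) := by
      funext y
      rw [cylL_add _ _ _ hv]
    have h7 := fderiv_comp_add_right (𝕜 := ℝ) (f := fun y => cylL y (deriv σ t)) (x := σ t) v
    rw [← h7, ← h6]
  rw [h5]
  exact h1.hasDerivAt_iff

theorem cyl_speed {σ : ℝ → ℝ × ℝ} (hσ : ContDiff ℝ ∞ σ) {γ : ℝ → Cyl}
    (hγ : ∀ s, γ s = proj CylZ (σ s)) (hsm : ContMDiff 𝓘(ℝ, ℝ) 𝓘(ℝ, ℝ × ℝ) ∞ γ) (t : ℝ) :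
    cylF.toFun (γ t) (velocity (ℝ × ℝ) γ t) = cylL (σ t) (deriv σ t) := by
  have he := chart_mem_atlas (ℝ × ℝ) (γ t)
  have ht := mem_chart_source (ℝ × ℝ) (γ t)
  obtain ⟨v, hv, -, hev⟩ := cyl_chart_curve he hσ.continuous.continuousAt (by rw [← hγ]; exact ht)
  have h3 : (fun r => chartAt (ℝ × ℝ) (γ t) (γ r)) =ᶠ[𝓝 t] fun r => σ r + v := by
    filter_upwards [hev] with r hr
    rw [← hr, hγ r]
  have h4 : chartAt (ℝ × ℝ) (γ t) (γ t) = σ t + v := h3.self_of_nhds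
  rw [speed_coord cylF he ((hsm t).mdifferentiableAt (by simp)) ht, cylF_lagrangian he,
    h3.deriv_eq, deriv_add_const, h4, cylL_add _ _ _ hv]

/-- projections of solutions are geodesics -/
theorem geodesic_of_lift {σ : ℝ → ℝ × ℝ} (hσ : ContDiff ℝ ∞ σ) (hne : ∀ t, deriv σ t ≠ 0)
    (hEL : ∀ t, CylEL σ t) : cylF.IsGeodesicOn (fun t => proj CylZ (σ t)) univ := by
  refine ⟨(contMDiff_proj_comp hσ).contMDiffOn, ?_, ?_⟩
  · intro t _
    have he := chart_mem_atlas (ℝ × ℝ) (proj CylZ (σ t))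
    have ht := mem_chart_source (ℝ × ℝ) (proj CylZ (σ t))
    rw [velocity_ne_iff he (((contMDiff_proj_comp hσ) t).mdifferentiableAt (by simp)) ht]
    obtain ⟨v, hv, -, hev⟩ := cyl_chart_curve he hσ.continuous.continuousAt ht
    have h3 : (fun r => chartAt (ℝ × ℝ) (proj CylZ (σ t)) (proj CylZ (σ r))) =ᶠ[𝓝 t]
      fun r => σ r + v := hev
    rw [h3.deriv_eq, deriv_add_const]
    exact hne t
  · intro e he t _ ht
    obtain ⟨v, hv, -, hev⟩ := cyl_chart_curve he hσ.continuous.continuousAt ht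
    exact (cylEL_iff he hv hev).2 (hEL t)

/-- geodesics lift to solutions -/
theorem lift_of_geodesic {γ : ℝ → Cyl} (hγ : cylF.IsGeodesicOn γ univ) :
    ∃ σ : ℝ → ℝ × ℝ, ContDiff ℝ ∞ σ ∧ (∀ t, proj CylZ (σ t) = γ t) ∧ (∀ t, deriv σ t ≠ 0) ∧
      ∀ t, CylEL σ t := by
  have hsm : ContMDiff 𝓘(ℝ, ℝ) 𝓘(ℝ, ℝ × ℝ) ∞ γ := contMDiffOn_univ.1 hγ.1
  obtain ⟨p0, hp0⟩ := proj_surjective (Γ := CylZ) (γ 0)
  obtain ⟨F, ⟨hF0, hF⟩, -⟩ := cyl_isCovering.existsUnique_continuousMap_lifts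
    (⟨γ, hsm.continuous⟩ : C(ℝ, Cyl)) 0 p0 hp0
  have hFγ : ∀ r, proj CylZ (F r) = γ r := fun r => congrFun hF r
  have hkey : ∀ t, ∃ v : ℝ × ℝ, v.1 = 0 ∧
      ∀ᶠ s in 𝓝 t, chartAt (ℝ × ℝ) (γ t) (γ s) = F s + v := by
    intro t
    obtain ⟨v, hv, -, hev⟩ := cyl_chart_curve (chart_mem_atlas (ℝ × ℝ) (γ t))
      (F.continuous.continuousAt (x := t)) (by rw [hFγ]; exact mem_chart_source _ _)
    refine ⟨v, hv, ?_⟩
    filter_upwards [hev] with s hs
    rw [← hs, hFγ]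
  refine ⟨F, ?_, hFγ, ?_, ?_⟩
  · rw [contDiff_iff_contDiffAt]
    intro t
    obtain ⟨v, hv, hev⟩ := hkey t
    have h1 := contDiffAt_coord (chart_mem_atlas (ℝ × ℝ) (γ t)) hsm (mem_chart_source _ (γ t))
    refine (h1.sub (contDiffAt_const (c := v))).congr_of_eventuallyEq ?_
    filter_upwards [hev] with s hs
    rw [hs, add_sub_cancel_right]
  · intro t
    obtain ⟨v, hv, hev⟩ := hkey t
    have h1 := (velocity_ne_iff (chart_mem_atlas (ℝ × ℝ) (γ t))
      ((hsm t).mdifferentiableAt (by simp)) (mem_chart_source _ (γ t))).1 (hγ.2.1 t (mem_univ t))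
    have h3 : (fun r => chartAt (ℝ × ℝ) (γ t) (γ r)) =ᶠ[𝓝 t] fun r => F r + v := hev
    rw [h3.deriv_eq, deriv_add_const] at h1
    exact h1
  · intro t
    obtain ⟨v, hv, hev⟩ := hkey t
    exact (cylEL_iff (chart_mem_atlas (ℝ × ℝ) (γ t)) hv hev).1
      (hγ.2.2 _ (chart_mem_atlas (ℝ × ℝ) (γ t)) t (mem_univ t) (mem_chart_source _ (γ t)))

end Pool.Agent.Helper831
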