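import Mathlib
import Pool.Agent.Helper831.CylGeo

set_option maxSynthPendingDepth 3
set_option linter.unusedSectionVars false

open scoped Manifold ContDiff Topology
open Set Filter MeasureTheory

namespace Pool.Agent.Helper831

theorem cyl_complete : cylF.IsComplete := by
  apply isComplete_of
  intro x e he hx u hu
  obtain ⟨σ, hσ, hσ0, hσ1, hne, hspd, hEL⟩ := exists_curve (e x) u hu
  have hsm : ContMDiff 𝓘(ℝ, ℝ) 𝓘(ℝ, ℝ × ℝ) ∞ (fun t => proj CylZ (σ t)) :=
    contMDiff_proj_comp hσ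
  have hγ0 : proj CylZ (σ 0) = x := by rw [hσ0, proj_chart he hx]
  refine ⟨fun t => proj CylZ (σ t), hsm, geodesic_of_lift hσ hne hEL, ?_, hγ0, ?_⟩
  · intro t
    rw [cylF_lagrangian he]
    exact (cyl_speed hσ (fun s => rfl) hsm t).trans (hspd t)
  · obtain ⟨w, hw, -, hev⟩ := cyl_chart_curve he hσ.continuous.continuousAt
      (by rw [hγ0]; exact hx)
    have h3 : (fun r => e (proj CylZ (σ r))) =ᶠ[𝓝 0] fun r => σ r + w := hev
    rw [h3.deriv_eq, deriv_add_const, hσ1]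

/-! ### no closed geodesics -/

theorem cyl_no_closed : ¬ cylF.HasClosedGeodesic := by
  rintro ⟨γ, L, hL, hγ, hper⟩
  obtain ⟨σ, hσ, hσγ, hne, hEL⟩ := lift_of_geodesic hγ
  have hσ1 : ∀ t, HasDerivAt σ (deriv σ t) t := fun t =>
    ((hσ.differentiable (by simp)) t).hasDerivAt
  -- the radial coordinate is periodic
  have hx : ∀ t, (σ (t + L)).1 = (σ t).1 := by
    intro t
    have h1 : proj CylZ (σ (t + L)) = proj CylZ (σ t) := by rw [hσγ, hσγ, hper]
    obtain ⟨δ, hδ⟩ := exists_of_proj_eq h1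
    rw [hδ, CylZ.smul_def]
  -- the Clairaut momentum
  set P : ℝ → ℝ := fun s => (1 + (σ s).1 ^ 2) * (deriv σ s).2 /
    Real.sqrt (cylA (σ s) (deriv σ s)) + (σ s).1 with hP
  have hPconst : ∀ s t, P s = P t := by
    have h1 : ∀ t, HasDerivAt P 0 t := by
      intro t
      have h2 := hEL t (0, 1)
      have h3 : (fun s => fderiv ℝ (fun u => cylL (σ s) u) (deriv σ s) (0, 1)) = P := by
        funext s
        rw [fderiv_cylL_snd _ (hne s)]
        simp [hP]
      rw [h3, fderiv_cylL_fst _ (hne t)] at h2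
      simpa using h2
    exact fun s t => is_const_of_deriv_eq_zero (fun t => (h1 t).differentiableAt)
      (fun t => (h1 t).deriv) s t
  -- values of the momentum at critical points of the radial coordinate
  set r : ℝ → ℝ := fun t => Real.sqrt (1 + (σ t).1 ^ 2) with hr
  have hr0 : ∀ t, 0 < r t := fun t => Real.sqrt_pos.2 (by positivity)
  have hr2 : ∀ t, r t ^ 2 = 1 + (σ t).1 ^ 2 := fun t => Real.sq_sqrt (by positivity)
  have hrx : ∀ t, |(σ t).1| < r t := by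
    intro t
    rw [← Real.sqrt_sq_eq_abs]
    exact Real.sqrt_lt_sqrt (sq_nonneg _) (by linarith)
  have hcrit : ∀ t, (deriv σ t).1 = 0 →
      (0 < P t ∧ P t = r t + (σ t).1) ∨ (P t < 0 ∧ P t = -(r t) + (σ t).1) := by
    intro t ht
    have h2 : (deriv σ t).2 ≠ 0 := fun h => hne t (Prod.ext ht h)
    have h3 : cylA (σ t) (deriv σ t) = (r t * |(deriv σ t).2|) ^ 2 := by
      unfold cylA
      rw [ht, mul_pow, sq_abs, hr2]
      ring
    have h4 : Real.sqrt (cylA (σ t) (deriv σ t)) = r t * |(deriv σ t).2| := by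
      rw [h3, Real.sqrt_sq (mul_nonneg (hr0 t).le (abs_nonneg _))]
    have h5 := hr0 t
    have h6 := abs_lt.1 (hrx t)
    have h7 : P t = r t * ((deriv σ t).2 / |(deriv σ t).2|) + (σ t).1 := by
      simp only [hP]
      rw [h4, ← hr2]
      have : |(deriv σ t).2| ≠ 0 := abs_ne_zero.2 h2
      field_simp
    rcases lt_or_gt_of_ne h2 with h | h
    · right
      rw [abs_of_neg h, div_neg, div_self h2] at h7
      rw [h7]
      constructor <;> linarith
    · left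
      rw [abs_of_pos h, div_self h2] at h7
      rw [h7]
      constructor <;> linarith
  -- extrema of the radial coordinate
  have hcont : Continuous (fun t => (σ t).1) := continuous_fst.comp hσ.continuous
  obtain ⟨t₁, -, ht₁⟩ := (isCompact_Icc (a := (0 : ℝ)) (b := L)).exists_isMaxOn
    ⟨0, left_mem_Icc.2 hL.le⟩ hcont.continuousOn
  obtain ⟨t₂, -, ht₂⟩ := (isCompact_Icc (a := (0 : ℝ)) (b := L)).exists_isMinOn
    ⟨0, left_mem_Icc.2 hL.le⟩ hcont.continuousOn
  have hperiodic : Function.Periodic (fun t => (σ t).1) L := hx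
  have hmax : ∀ t, (σ t).1 ≤ (σ t₁).1 := by
    intro t
    obtain ⟨s, hs, hs'⟩ := hperiodic.exists_mem_Ico₀ hL t
    rw [show (σ t).1 = (σ s).1 from hs']
    exact ht₁ (Ico_subset_Icc_self hs)
  have hmin : ∀ t, (σ t₂).1 ≤ (σ t).1 := by
    intro t
    obtain ⟨s, hs, hs'⟩ := hperiodic.exists_mem_Ico₀ hL t
    rw [show (σ t).1 = (σ s).1 from hs']
    exact ht₂ (Ico_subset_Icc_self hs)
  have hd1 : ∀ t, HasDerivAt (fun t => (σ t).1) (deriv σ t).1 t := fun t =>
    (ContinuousLinearMap.fst ℝ ℝ ℝ).hasFDerivAt.comp_hasDerivAt t (hσ1 t)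
  have hc1 : (deriv σ t₁).1 = 0 :=
    (IsLocalMax.hasDerivAt_eq_zero (Eventually.of_forall hmax) (hd1 t₁))
  have hc2 : (deriv σ t₂).1 = 0 :=
    (IsLocalMin.hasDerivAt_eq_zero (Eventually.of_forall hmin) (hd1 t₂))
  -- the radial coordinate is constant
  have heq : (σ t₁).1 = (σ t₂).1 := by
    have h12 := hPconst t₁ t₂
    have a1 := hr0 t₁
    have a2 := hr0 t₂
    have b1 := hr2 t₁
    have b2 := hr2 t₂
    rcases hcrit t₁ hc1 with ⟨h1, h2⟩ | ⟨h1, h2⟩ <;> rcases hcrit t₂ hc2 with ⟨h3, h4⟩ | ⟨h3, h4⟩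
    · have h5 : r t₁ + (σ t₁).1 = r t₂ + (σ t₂).1 := by rw [← h2, ← h4, h12]
      have h6 : 0 < r t₁ + (σ t₁).1 := by rw [← h2]; exact h1
      have h7 : (r t₁ + (σ t₁).1) * (r t₁ - (σ t₁).1) = 1 := by nlinarith
      have h8 : (r t₁ + (σ t₁).1) * (r t₂ - (σ t₂).1) = 1 := by rw [h5]; nlinarith
      have h9 : r t₁ - (σ t₁).1 = r t₂ - (σ t₂).1 := mul_left_cancel₀ h6.ne' (by rw [h7, h8])
      linarith
    · linarith
    · linarith
    · have h5 : -(r t₁) + (σ t₁).1 = -(r t₂) + (σ t₂).1 := by rw [← h2, ← h4, h12]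
      have h6 : 0 < r t₁ - (σ t₁).1 := by linarith
      have h7 : (r t₁ - (σ t₁).1) * (r t₁ + (σ t₁).1) = 1 := by nlinarith
      have h8 : (r t₁ - (σ t₁).1) * (r t₂ + (σ t₂).1) = 1 := by
        have : r t₁ - (σ t₁).1 = r t₂ - (σ t₂).1 := by linarith
        rw [this]; nlinarith
      have h9 : r t₁ + (σ t₁).1 = r t₂ + (σ t₂).1 := mul_left_cancel₀ h6.ne' (by rw [h7, h8])
      linarith
  have hxc : ∀ t, (σ t).1 = (σ t₁).1 := fun t =>
    le_antisymm (hmax t) (heq ▸ hmin t)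
  have hd0 : ∀ t, (deriv σ t).1 = 0 := by
    intro t
    have h1 : (fun t => (σ t).1) = fun _ => (σ t₁).1 := funext hxc
    have h2 := hd1 t
    rw [h1] at h2
    exact h2.unique (hasDerivAt_const _ _)
  -- contradiction with the radial equation
  have h1 := hEL 0 (1, 0)
  have h2 : (fun s => fderiv ℝ (fun u => cylL (σ s) u) (deriv σ s) (1, 0)) = fun _ => 0 := by
    funext s
    rw [fderiv_cylL_snd _ (hne s), hd0]
    simp
  rw [h2, fderiv_cylL_fst _ (hne 0)] at h1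
  have h3 := h1.unique (hasDerivAt_const _ _)
  have h4 : (deriv σ 0).2 ≠ 0 := fun h => hne 0 (Prod.ext (hd0 0) h)
  have h5 : Real.sqrt (cylA (σ 0) (deriv σ 0)) = r 0 * |(deriv σ 0).2| := by
    have h6 : cylA (σ 0) (deriv σ 0) = (r 0 * |(deriv σ 0).2|) ^ 2 := by
      unfold cylA
      rw [hd0, mul_pow, sq_abs, hr2]
      ring
    rw [h6, Real.sqrt_sq (mul_nonneg (hr0 0).le (abs_nonneg _))]
  rw [h5] at h3
  have h6 := abs_lt.1 (hrx 0)
  have h7 := hr0 0
  have h8 : 0 < |(deriv σ 0).2| := abs_pos.2 h4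
  simp only [mul_one] at h3
  have h9 : (σ 0).1 * (deriv σ 0).2 ^ 2 / (r 0 * |(deriv σ 0).2|) =
      (σ 0).1 / r 0 * |(deriv σ 0).2| := by
    rw [← sq_abs (deriv σ 0).2]
    field_simp
  rw [h9] at h3
  have h10 : (σ 0).1 / r 0 < 1 := by rw [div_lt_one h7]; exact h6.2
  have h11 : -1 < (σ 0).1 / r 0 := by rw [lt_div_iff₀ h7]; linarith [h6.1]
  rcases abs_cases (deriv σ 0).2 with ⟨h, _⟩ | ⟨h, _⟩
  · rw [h] at h3 h8
    nlinarith
  · rw [h] at h3 h8
    nlinarith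

theorem cyl_irreversible : cylF.IsIrreversible := by
  refine ⟨proj CylZ (1, 0), ?_⟩
  set x : Cyl := proj CylZ (1, 0) with hx
  have he := chart_mem_atlas (ℝ × ℝ) x
  have hs := mem_chart_source (ℝ × ℝ) x
  obtain ⟨δ, hδ⟩ := chart_proj he hs
  have h1 : (chartAt (ℝ × ℝ) x x).1 = 1 := by
    have h2 : chartAt (ℝ × ℝ) x (proj CylZ (1, 0)) = δ • (1, 0) := hδ.self_of_nhds
    change (chartAt (ℝ × ℝ) x (proj CylZ (1, 0))).1 = 1
    rw [h2, CylZ.smul_def]
  refine ⟨((0, 1) : ℝ × ℝ), ?_⟩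
  change cylL (chartAt (ℝ × ℝ) x x) (-(0, 1)) ≠ cylL (chartAt (ℝ × ℝ) x x) (0, 1)
  simp only [cylL, h1, Prod.fst_neg, Prod.snd_neg]
  norm_num

end Pool.Agent.Helper831
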