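import Mathlib
import Pool.Agent.Helper831.CylMain

set_option maxSynthPendingDepth 3
set_option linter.unusedSectionVars false

open scoped Manifold ContDiff Topology
open Set Filter MeasureTheory

namespace Pool.Agent.Helper831

theorem cyl_ball_eq (y : ℝ × ℝ) : {u : ℝ × ℝ | cylL y u < 1} =
    {u : ℝ × ℝ | u.1 ^ 2 + (u.2 + y.1) ^ 2 < 1 + y.1 ^ 2} := by
  ext u
  simp only [mem_setOf_eq, cylL]
  constructor
  · intro h
    have h1 : Real.sqrt (u.1 ^ 2 + (1 + y.1 ^ 2) * u.2 ^ 2) < 1 - y.1 * u.2 := by linarith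
    have h2 : 0 < 1 - y.1 * u.2 := (Real.sqrt_nonneg _).trans_lt h1
    have h3 := (Real.sqrt_lt' h2).1 h1
    nlinarith
  · intro h
    have h2 : 0 < 1 - y.1 * u.2 := by nlinarith [sq_nonneg u.1, sq_nonneg u.2]
    have h1 : Real.sqrt (u.1 ^ 2 + (1 + y.1 ^ 2) * u.2 ^ 2) < 1 - y.1 * u.2 :=
      (Real.sqrt_lt' h2).2 (by nlinarith)
    linarith

theorem volume_disc (c r : ℝ) (hr : 0 < r) :
    volume {u : ℝ × ℝ | u.1 ^ 2 + (u.2 + c) ^ 2 < r ^ 2} = ENNReal.ofReal (Real.pi * r ^ 2) := by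
  have h1 : (Complex.measurableEquivRealProd : ℂ → ℝ × ℝ) ⁻¹'
      {u : ℝ × ℝ | u.1 ^ 2 + (u.2 + c) ^ 2 < r ^ 2} = Metric.ball (⟨0, -c⟩ : ℂ) r := by
    ext z
    rw [mem_preimage, mem_setOf_eq, Metric.mem_ball, Complex.dist_eq,
      ← sq_lt_sq₀ (norm_nonneg _) hr.le, Complex.sq_norm, Complex.normSq_apply]
    simp only [Complex.measurableEquivRealProd_apply, Complex.sub_re, Complex.sub_im]
    constructor <;> intro h <;> nlinarith
  have h2 := Complex.volume_preserving_equiv_real_prod.measure_preimage_equiv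
    {u : ℝ × ℝ | u.1 ^ 2 + (u.2 + c) ^ 2 < r ^ 2}
  rw [← h2, h1, Complex.volume_ball, ENNReal.ofReal_mul Real.pi_pos.le,
    ENNReal.ofReal_pow hr.le, mul_comm]
  congr 1
  rw [ENNReal.ofReal, ← NNReal.coe_real_pi, Real.toNNReal_coe]

theorem cyl_density {e : OpenPartialHomeomorph Cyl (ℝ × ℝ)} (he : e ∈ atlas (ℝ × ℝ) Cyl)
    (y : ℝ × ℝ) : cylF.busemannDensity e y = ENNReal.ofReal ((1 + y.1 ^ 2)⁻¹) := by
  unfold FinslerMetric.busemannDensity
  simp only [cylF_lagrangian he]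
  rw [cyl_ball_eq]
  have h1 : 0 < Real.sqrt (1 + y.1 ^ 2) := Real.sqrt_pos.2 (by positivity)
  have h2 := volume_disc y.1 (Real.sqrt (1 + y.1 ^ 2)) h1
  rw [Real.sq_sqrt (by positivity)] at h2
  rw [h2, ← ENNReal.ofReal_div_of_pos (by positivity)]
  congr 1
  field_simp

/-- the density as a function of the position -/
noncomputable def dens (y : ℝ × ℝ) : ENNReal := ENNReal.ofReal ((1 + y.1 ^ 2)⁻¹)

theorem measurable_dens : Measurable dens := by
  unfold dens
  fun_prop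

theorem lintegral_dens : ∫⁻ y in (univ ×ˢ Ico (0 : ℝ) (2 * Real.pi)), dens y < ⊤ := by
  have h1 : (volume.restrict (univ ×ˢ Ico (0 : ℝ) (2 * Real.pi)) : Measure (ℝ × ℝ)) =
      (volume : Measure ℝ).prod (volume.restrict (Ico (0 : ℝ) (2 * Real.pi))) := by
    rw [Measure.volume_eq_prod, ← Measure.prod_restrict, Measure.restrict_univ]
  have h2 := lintegral_prod_mul (μ := (volume : Measure ℝ))
    (ν := volume.restrict (Ico (0 : ℝ) (2 * Real.pi)))
    (f := fun x : ℝ => ENNReal.ofReal ((1 + x ^ 2)⁻¹)) (g := fun _ => 1)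
    (by fun_prop) (by fun_prop)
  have h3 : ∫⁻ y, dens y ∂((volume : Measure ℝ).prod
      (volume.restrict (Ico (0 : ℝ) (2 * Real.pi)))) =
      (∫⁻ x : ℝ, ENNReal.ofReal ((1 + x ^ 2)⁻¹)) *
        ∫⁻ _ : ℝ in Ico (0 : ℝ) (2 * Real.pi), 1 := by
    rw [← h2]
    simp [dens]
  rw [h1, h3]
  apply ENNReal.mul_lt_top
  · exact integrable_inv_one_add_sq.lintegral_lt_top
  · simp
    exact ENNReal.mul_lt_top (by simp) ENNReal.ofReal_lt_top

theorem cyl_finite : cylF.HasFiniteArea := by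
  classical
  -- local description of the charts
  have hloc : ∀ q : ℝ × ℝ, ∃ (e : OpenPartialHomeomorph Cyl (ℝ × ℝ)) (v : ℝ × ℝ) (U : Set (ℝ × ℝ)),
      e ∈ atlas (ℝ × ℝ) Cyl ∧ v.1 = 0 ∧ (∃ δ : CylZ, ∀ z : ℝ × ℝ, δ • z = z + v) ∧ IsOpen U ∧
        q ∈ U ∧ ∀ z ∈ U, z + v ∈ e.target := by
    intro q
    have he := chart_mem_atlas (ℝ × ℝ) (proj CylZ q)
    have hs := mem_chart_source (ℝ × ℝ) (proj CylZ q)
    obtain ⟨δ, hδ⟩ := chart_proj he hs
    refine ⟨_, (0, δ.k * (2 * Real.pi)),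
      (fun z : ℝ × ℝ => z + (0, δ.k * (2 * Real.pi))) ⁻¹'
        (chartAt (ℝ × ℝ) (proj CylZ q)).target, he, rfl,
      ⟨δ, fun z => CylZ.smul_eq_add δ z⟩, ?_, ?_, fun z hz => hz⟩
    · exact (chartAt (ℝ × ℝ) (proj CylZ q)).open_target.preimage (by fun_prop)
    · have h1 : chartAt (ℝ × ℝ) (proj CylZ q) (proj CylZ q) = δ • q := hδ.self_of_nhds
      rw [mem_preimage, ← CylZ.smul_eq_add, ← h1]
      exact (chartAt (ℝ × ℝ) (proj CylZ q)).map_source hs
  choose e v U he hv hδ hU hqU hUt using hloc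
  obtain ⟨s, hs, hsU⟩ := TopologicalSpace.countable_cover_nhds (f := U)
    (fun q => (hU q).mem_nhds (hqU q))
  have hsne : s.Nonempty := by
    by_contra h
    rw [not_nonempty_iff_eq_empty] at h
    rw [h] at hsU
    simp at hsU
    exact (Set.empty_ne_univ hsU)
  obtain ⟨q, rfl⟩ := hs.exists_eq_range hsne
  rw [biUnion_range] at hsU
  set D : ℕ → Set (ℝ × ℝ) := fun i =>
    (univ ×ˢ Ico (0 : ℝ) (2 * Real.pi)) ∩ disjointed (fun i => U (q i)) i with hD
  have hDm : ∀ i, MeasurableSet (D i) := fun i =>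
    (MeasurableSet.univ.prod measurableSet_Ico).inter
      (MeasurableSet.disjointed (fun i => (hU (q i)).measurableSet) i)
  have hDd : Pairwise (Function.onFun Disjoint D) := by
    intro i j hij
    exact (disjoint_disjointed _ hij).mono inter_subset_right inter_subset_right
  have hDU : ∀ i, D i ⊆ U (q i) := fun i => inter_subset_right.trans (disjointed_subset _ i)
  have hDun : (⋃ i, D i) = univ ×ˢ Ico (0 : ℝ) (2 * Real.pi) := by
    simp only [hD]
    rw [← inter_iUnion, iUnion_disjointed, hsU, inter_univ]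
  refine ⟨fun i => e (q i), fun i => (fun z : ℝ × ℝ => z + -(v (q i))) ⁻¹' D i, ?_, ?_, ?_⟩
  · intro i
    refine ⟨he _, (hDm i).preimage (by fun_prop), ?_⟩
    intro z hz
    have h1 := hUt (q i) _ (hDU i hz)
    rwa [neg_add_cancel_right] at h1
  · rw [eq_univ_iff_forall]
    intro x
    obtain ⟨p, rfl⟩ := proj_surjective (Γ := CylZ) x
    -- translate into the fundamental domain
    set n : ℤ := ⌊p.2 / (2 * Real.pi)⌋ with hn
    set p' : ℝ × ℝ := (⟨-n⟩ : CylZ) • p with hp'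
    have hp'D : p' ∈ (univ ×ˢ Ico (0 : ℝ) (2 * Real.pi)) := by
      rw [hp', CylZ.smul_def]
      refine ⟨mem_univ _, ?_, ?_⟩
      · have h1 := Int.floor_le (p.2 / (2 * Real.pi))
        rw [le_div_iff₀ (by positivity)] at h1
        push_cast
        linarith
      · have h1 := Int.lt_floor_add_one (p.2 / (2 * Real.pi))
        rw [div_lt_iff₀ (by positivity)] at h1
        push_cast
        linarith
    rw [← hDun, mem_iUnion] at hp'D
    obtain ⟨i, hi⟩ := hp'D
    rw [mem_iUnion]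
    refine ⟨i, p' + v (q i), ?_, ?_⟩
    · rw [mem_preimage, add_neg_cancel_right]
      exact hi
    · rw [symm_eq_proj (he _)]
      obtain ⟨δ, hδ'⟩ := hδ (q i)
      rw [← hδ', proj_smul, hp', proj_smul]
  · have h1 : ∀ i, ∫⁻ y in (fun z : ℝ × ℝ => z + -(v (q i))) ⁻¹' D i,
        cylF.busemannDensity (e (q i)) y = ∫⁻ y in D i, dens y := by
      intro i
      have h2 := (measurePreserving_add_right (volume : Measure (ℝ × ℝ))
        (-(v (q i)))).setLIntegral_comp_preimage (hDm i) measurable_dens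
      rw [← h2]
      congr 1
      funext y
      rw [cyl_density (he _)]
      simp only [dens, Prod.fst_add, Prod.fst_neg, hv, neg_zero, add_zero]
    simp only [h1]
    rw [← lintegral_iUnion hDm hDd, hDun]
    exact lintegral_dens

end Pool.Agent.Helper831
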