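import Mathlib
import Pool.Agent.Helper831.Quot2

set_option maxSynthPendingDepth 3
set_option linter.unusedSectionVars false

open scoped Manifold ContDiff Topology
open Set Filter

namespace Pool.Agent.Helper831

/-- The discrete Heisenberg group. -/
@[ext] structure Nil where
  a : ℤ
  b : ℤ
  k : ℤ

namespace Nil

instance : Mul Nil := ⟨fun g h => ⟨g.a + h.a - g.k * h.b, g.b + h.b, g.k + h.k⟩⟩
instance : One Nil := ⟨⟨0, 0, 0⟩⟩
instance : Inv Nil := ⟨fun g => ⟨-g.a - g.k * g.b, -g.b, -g.k⟩⟩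

@[simp] theorem mul_a (g h : Nil) : (g * h).a = g.a + h.a - g.k * h.b := rfl
@[simp] theorem mul_b (g h : Nil) : (g * h).b = g.b + h.b := rfl
@[simp] theorem mul_k (g h : Nil) : (g * h).k = g.k + h.k := rfl
@[simp] theorem one_a : (1 : Nil).a = 0 := rfl
@[simp] theorem one_b : (1 : Nil).b = 0 := rfl
@[simp] theorem one_k : (1 : Nil).k = 0 := rfl
@[simp] theorem inv_a (g : Nil) : (g⁻¹).a = -g.a - g.k * g.b := rfl
@[simp] theorem inv_b (g : Nil) : (g⁻¹).b = -g.b := rfl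
@[simp] theorem inv_k (g : Nil) : (g⁻¹).k = -g.k := rfl

instance : Group Nil :=
  Group.ofLeftAxioms (by intro g h l; ext <;> simp <;> ring)
    (by intro g; ext <;> simp) (by intro g; ext <;> simp <;> ring)

/-- The isometric action of the Heisenberg group on Minkowski space `ℝ³`,
with metric `2 dx dz + dy²`. -/
noncomputable instance : MulAction Nil (ℝ × ℝ × ℝ) where
  smul g p := (p.1 - g.k * p.2.1 - (g.k : ℝ) ^ 2 * p.2.2 / 2 - (g.k : ℝ) ^ 3 / 6 + g.a,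
    p.2.1 + g.k * p.2.2 + (g.k : ℝ) ^ 2 / 2 + g.b, p.2.2 + g.k)
  one_smul p := by
    show ((p.1 - ((1 : Nil).k : ℝ) * p.2.1 - ((1 : Nil).k : ℝ) ^ 2 * p.2.2 / 2
      - ((1 : Nil).k : ℝ) ^ 3 / 6 + ((1 : Nil).a : ℝ),
      p.2.1 + ((1 : Nil).k : ℝ) * p.2.2 + ((1 : Nil).k : ℝ) ^ 2 / 2 + ((1 : Nil).b : ℝ),
      p.2.2 + ((1 : Nil).k : ℝ)) : ℝ × ℝ × ℝ) = p
    simp
  mul_smul g h p := by
    refine Prod.ext ?_ (Prod.ext ?_ ?_)
    · show (p.1 - ((g * h).k : ℝ) * p.2.1 - ((g * h).k : ℝ) ^ 2 * p.2.2 / 2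
        - ((g * h).k : ℝ) ^ 3 / 6 + ((g * h).a : ℝ) : ℝ) =
        (p.1 - h.k * p.2.1 - (h.k : ℝ) ^ 2 * p.2.2 / 2 - (h.k : ℝ) ^ 3 / 6 + h.a)
        - g.k * (p.2.1 + h.k * p.2.2 + (h.k : ℝ) ^ 2 / 2 + h.b)
        - (g.k : ℝ) ^ 2 * (p.2.2 + h.k) / 2 - (g.k : ℝ) ^ 3 / 6 + g.a
      rw [mul_k, mul_a]
      push_cast
      ring
    · show (p.2.1 + ((g * h).k : ℝ) * p.2.2 + ((g * h).k : ℝ) ^ 2 / 2 + ((g * h).b : ℝ) : ℝ) =
        (p.2.1 + h.k * p.2.2 + (h.k : ℝ) ^ 2 / 2 + h.b) + g.k * (p.2.2 + h.k)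
          + (g.k : ℝ) ^ 2 / 2 + g.b
      rw [mul_k, mul_b]
      push_cast
      ring
    · show (p.2.2 + ((g * h).k : ℝ) : ℝ) = (p.2.2 + h.k) + g.k
      rw [mul_k]
      push_cast
      ring

theorem smul_def (g : Nil) (p : ℝ × ℝ × ℝ) : g • p =
    (p.1 - g.k * p.2.1 - (g.k : ℝ) ^ 2 * p.2.2 / 2 - (g.k : ℝ) ^ 3 / 6 + g.a,
    p.2.1 + g.k * p.2.2 + (g.k : ℝ) ^ 2 / 2 + g.b, p.2.2 + g.k) := rfl

instance : SmoothConst Nil (ℝ × ℝ × ℝ) where
  smooth g := by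
    simp only [smul_def]
    fun_prop

instance : ContinuousConstSMul Nil (ℝ × ℝ × ℝ) where
  continuous_const_smul g := (SmoothConst.smooth (E := ℝ × ℝ × ℝ) g).continuous

instance : IsCancelSMul Nil (ℝ × ℝ × ℝ) where
  right_cancel' g h p hp := by
    rw [smul_def, smul_def, Prod.mk.injEq, Prod.mk.injEq] at hp
    obtain ⟨h1, h2, h3⟩ := hp
    have hk : g.k = h.k := by
      have : (g.k : ℝ) = h.k := by linarith
      exact_mod_cast this
    rw [hk] at h1 h2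
    have hb : g.b = h.b := by
      have : (g.b : ℝ) = h.b := by linarith
      exact_mod_cast this
    have ha : g.a = h.a := by
      have : (g.a : ℝ) = h.a := by linarith
      exact_mod_cast this
    exact Nil.ext ha hb hk

theorem finite_box (N : ℤ) : {g : Nil | |g.a| ≤ N ∧ |g.b| ≤ N ∧ |g.k| ≤ N}.Finite := by
  have h : ((Set.Icc (-N) N ×ˢ (Set.Icc (-N) N ×ˢ Set.Icc (-N) N)) : Set (ℤ × ℤ × ℤ)).Finite :=
    (Set.finite_Icc _ _).prod ((Set.finite_Icc _ _).prod (Set.finite_Icc _ _))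
  refine (h.image (fun q => (⟨q.1, q.2.1, q.2.2⟩ : Nil))).subset ?_
  rintro g ⟨h1, h2, h3⟩
  exact ⟨(g.a, g.b, g.k), ⟨abs_le.1 h1, abs_le.1 h2, abs_le.1 h3⟩, rfl⟩

theorem finite_of_bdd {s : Set Nil} (R : ℝ) (h : ∀ g ∈ s, |(g.a : ℝ)| ≤ R ∧ |(g.b : ℝ)| ≤ R ∧
    |(g.k : ℝ)| ≤ R) : s.Finite := by
  refine (finite_box ⌈R⌉).subset ?_
  intro g hg
  obtain ⟨h1, h2, h3⟩ := h g hg
  have hR := Int.le_ceil R
  refine ⟨?_, ?_, ?_⟩
  · have : ((|g.a| : ℤ) : ℝ) ≤ ⌈R⌉ := by rw [Int.cast_abs]; exact h1.trans hR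
    exact_mod_cast this
  · have : ((|g.b| : ℤ) : ℝ) ≤ ⌈R⌉ := by rw [Int.cast_abs]; exact h2.trans hR
    exact_mod_cast this
  · have : ((|g.k| : ℤ) : ℝ) ≤ ⌈R⌉ := by rw [Int.cast_abs]; exact h3.trans hR
    exact_mod_cast this

instance : ProperlyDiscontinuousSMul Nil (ℝ × ℝ × ℝ) where
  finite_disjoint_inter_image := by
    intro K L hK hL
    obtain ⟨R, hR⟩ := hK.isBounded.exists_norm_le
    obtain ⟨S, hS⟩ := hL.isBounded.exists_norm_le
    set T : ℝ := max (max R S) 1 with hT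
    have hT1 : 1 ≤ T := le_max_right _ _
    have hRT : R ≤ T := (le_max_left _ _).trans (le_max_left _ _)
    have hST : S ≤ T := (le_max_right _ _).trans (le_max_left _ _)
    apply finite_of_bdd (100 * T ^ 3)
    rintro g ⟨q, ⟨p, hp, rfl⟩, hq⟩
    have h1 := (hR p hp).trans hRT
    have h2 := (hS _ hq).trans hST
    simp only [smul_def, Prod.norm_def, Real.norm_eq_abs] at h1 h2
    rw [max_le_iff, max_le_iff] at h1 h2
    obtain ⟨h11, h12, h13⟩ := h1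
    obtain ⟨h21, h22, h23⟩ := h2
    rw [abs_le] at h11 h12 h13 h21 h22 h23
    set x := p.1
    set y := p.2.1
    set z := p.2.2
    set k : ℝ := (g.k : ℝ)
    have hk : |k| ≤ 2 * T := by
      rw [abs_le]; constructor <;> linarith
    have hT2 : 0 ≤ T := by linarith
    have hz : |z| ≤ T := abs_le.2 h13
    have hy : |y| ≤ T := abs_le.2 h12
    have hkz : |k * z| ≤ 2 * T * T := by
      rw [abs_mul]; exact mul_le_mul hk hz (abs_nonneg _) (by positivity)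
    have hk2 : |k ^ 2| ≤ 4 * T ^ 2 := by
      rw [abs_pow]
      calc |k| ^ 2 ≤ (2 * T) ^ 2 := by gcongr
        _ = 4 * T ^ 2 := by ring
    have hk3 : |k ^ 3| ≤ 8 * T ^ 3 := by
      rw [abs_pow]
      calc |k| ^ 3 ≤ (2 * T) ^ 3 := by gcongr
        _ = 8 * T ^ 3 := by ring
    have hky : |k * y| ≤ 2 * T * T := by
      rw [abs_mul]; exact mul_le_mul hk hy (abs_nonneg _) (by positivity)
    have hk2z : |k ^ 2 * z| ≤ 4 * T ^ 2 * T := by
      rw [abs_mul]; exact mul_le_mul hk2 hz (abs_nonneg _) (by positivity)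
    have hTT : T ≤ T ^ 3 := by nlinarith [mul_self_nonneg (T - 1)]
    have hTT2 : T ^ 2 ≤ T ^ 3 := by nlinarith [mul_self_nonneg (T - 1)]
    rw [abs_le] at hkz hk2 hk3 hky hk2z
    refine ⟨?_, ?_, ?_⟩
    · rw [abs_le]
      constructor <;> nlinarith
    · rw [abs_le]
      constructor <;> nlinarith
    · rw [abs_le] at hk ⊢
      constructor <;> nlinarith

/-- every point is equivalent to a point of the unit cube -/
theorem exists_cube (p : ℝ × ℝ × ℝ) : ∃ g : Nil, g • p ∈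
    (Set.Icc (0 : ℝ) 1 ×ˢ (Set.Icc (0 : ℝ) 1 ×ˢ Set.Icc (0 : ℝ) 1)) := by
  set k : ℤ := -⌊p.2.2⌋ with hk
  set y' : ℝ := p.2.1 + k * p.2.2 + (k : ℝ) ^ 2 / 2 with hy'
  set x' : ℝ := p.1 - k * p.2.1 - (k : ℝ) ^ 2 * p.2.2 / 2 - (k : ℝ) ^ 3 / 6 with hx'
  refine ⟨⟨-⌊x'⌋, -⌊y'⌋, k⟩, ?_⟩
  rw [smul_def]
  simp only [Set.mem_prod, Set.mem_Icc]
  rw [← hx', ← hy', hk]
  push_cast
  refine ⟨⟨?_, ?_⟩, ⟨?_, ?_⟩, ⟨?_, ?_⟩⟩
  · linarith [Int.floor_le x']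
  · linarith [Int.lt_floor_add_one x']
  · linarith [Int.floor_le y']
  · linarith [Int.lt_floor_add_one y']
  · linarith [Int.floor_le p.2.2]
  · linarith [Int.lt_floor_add_one p.2.2]

end Nil

/-- The Heisenberg nilmanifold `Nil \ ℝ³`. -/
abbrev NilMfd : Type := MulAction.orbitRel.Quotient Nil (ℝ × ℝ × ℝ)

theorem continuous_proj {E : Type*} [TopologicalSpace E] {Γ : Type*} [Group Γ] [MulAction Γ E] :
    Continuous (proj Γ : E → MulAction.orbitRel.Quotient Γ E) := continuous_quot_mk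

instance : CompactSpace NilMfd := by
  have hK : IsCompact (Set.Icc (0 : ℝ) 1 ×ˢ (Set.Icc (0 : ℝ) 1 ×ˢ Set.Icc (0 : ℝ) 1)) :=
    isCompact_Icc.prod (isCompact_Icc.prod isCompact_Icc)
  have h := hK.image (continuous_proj (E := ℝ × ℝ × ℝ) (Γ := Nil))
  have h2 : (proj Nil : ℝ × ℝ × ℝ → NilMfd) ''
      (Set.Icc (0 : ℝ) 1 ×ˢ (Set.Icc (0 : ℝ) 1 ×ˢ Set.Icc (0 : ℝ) 1)) = univ := by
    rw [eq_univ_iff_forall]
    intro x
    obtain ⟨p, rfl⟩ := proj_surjective x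
    obtain ⟨g, hg⟩ := Nil.exists_cube p
    exact ⟨g • p, hg, proj_smul g p⟩
  rw [h2] at h
  exact isCompact_univ_iff.1 h

instance : ConnectedSpace NilMfd := by
  have h : Function.Surjective (proj Nil : ℝ × ℝ × ℝ → NilMfd) := proj_surjective
  exact h.connectedSpace continuous_proj

end Pool.Agent.Helper831
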