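import Mathlib
import Pool.Agent.Helper831.Nil

set_option maxSynthPendingDepth 3
set_option linter.unusedSectionVars false

open scoped Manifold ContDiff Topology
open Set Filter

namespace Pool.Agent.Helper831

theorem hasDerivAt_fst' {E F : Type*} [NormedAddCommGroup E] [NormedSpace ℝ E]
    [NormedAddCommGroup F] [NormedSpace ℝ F] {f : ℝ → E × F} {f' : E × F} {t : ℝ}
    (h : HasDerivAt f f' t) : HasDerivAt (fun s => (f s).1) f'.1 t :=
  (ContinuousLinearMap.fst ℝ E F).hasFDerivAt.comp_hasDerivAt t h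

theorem hasDerivAt_snd' {E F : Type*} [NormedAddCommGroup E] [NormedSpace ℝ E]
    [NormedAddCommGroup F] [NormedSpace ℝ F] {f : ℝ → E × F} {f' : E × F} {t : ℝ}
    (h : HasDerivAt f f' t) : HasDerivAt (fun s => (f s).2) f'.2 t :=
  (ContinuousLinearMap.snd ℝ E F).hasFDerivAt.comp_hasDerivAt t h

/-- The Minkowski form `2 dx dz + dy²` on `ℝ³`. -/
noncomputable def mink : LinearMap.BilinForm ℝ (ℝ × ℝ × ℝ) :=
  LinearMap.mk₂ ℝ (fun u w => u.1 * w.2.2 + u.2.2 * w.1 + u.2.1 * w.2.1)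
    (by intro a b c; simp; ring) (by intro r a b; simp; ring)
    (by intro a b c; simp; ring) (by intro r a b; simp; ring)

@[simp] theorem mink_apply (u w : ℝ × ℝ × ℝ) :
    mink u w = u.1 * w.2.2 + u.2.2 * w.1 + u.2.1 * w.2.1 := rfl

theorem mink_symm (u w : ℝ × ℝ × ℝ) : mink u w = mink w u := by
  simp only [mink_apply]; ring

theorem mink_nondeg (u : ℝ × ℝ × ℝ) (h : ∀ w, mink u w = 0) : u = 0 := by
  have h1 := h (1, 0, 0)
  have h2 := h (0, 1, 0)
  have h3 := h (0, 0, 1)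
  simp only [mink_apply] at h1 h2 h3
  refine Prod.ext ?_ (Prod.ext ?_ ?_)
  · show u.1 = 0
    linarith
  · show u.2.1 = 0
    linarith
  · show u.2.2 = 0
    linarith

/-- derivative of the Heisenberg action -/
theorem Nil.fderiv_smul (g : Nil) (y u : ℝ × ℝ × ℝ) :
    fderiv ℝ (fun z : ℝ × ℝ × ℝ => g • z) y u
      = (u.1 - g.k * u.2.1 - (g.k : ℝ) ^ 2 * u.2.2 / 2, u.2.1 + g.k * u.2.2, u.2.2) := by
  set L : ℝ × ℝ × ℝ →ₗ[ℝ] ℝ × ℝ × ℝ :=
    { toFun := fun u => (u.1 - g.k * u.2.1 - (g.k : ℝ) ^ 2 * u.2.2 / 2, u.2.1 + g.k * u.2.2, u.2.2)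
      map_add' := by
        intro a b
        refine Prod.ext ?_ (Prod.ext ?_ ?_) <;> simp <;> ring
      map_smul' := by
        intro r a
        refine Prod.ext ?_ (Prod.ext ?_ ?_) <;> simp <;> ring } with hL
  set Lc : ℝ × ℝ × ℝ →L[ℝ] ℝ × ℝ × ℝ := LinearMap.toContinuousLinearMap L with hLc
  have h : (fun z : ℝ × ℝ × ℝ => g • z) = fun z => Lc z +
      (-((g.k : ℝ) ^ 3 / 6) + g.a, (g.k : ℝ) ^ 2 / 2 + g.b, (g.k : ℝ)) := by
    ext1 z
    rw [Nil.smul_def]
    refine Prod.ext ?_ (Prod.ext ?_ ?_)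
    · show _ = (z.1 - g.k * z.2.1 - (g.k : ℝ) ^ 2 * z.2.2 / 2) + (-((g.k : ℝ) ^ 3 / 6) + g.a)
      ring
    · show _ = (z.2.1 + g.k * z.2.2) + ((g.k : ℝ) ^ 2 / 2 + g.b)
      ring
    · rfl
  rw [h]
  have h2 : HasFDerivAt (fun z => Lc z +
      ((-((g.k : ℝ) ^ 3 / 6) + g.a, (g.k : ℝ) ^ 2 / 2 + g.b, (g.k : ℝ)) : ℝ × ℝ × ℝ)) Lc y :=
    Lc.hasFDerivAt.add_const _
  rw [h2.fderiv]
  rfl

/-- The flat Lorentzian metric on the Heisenberg nilmanifold. -/
noncomputable def nilMetric : SemiRiemannianMetric (ℝ × ℝ × ℝ) NilMfd :=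
  quotMetric (Γ := Nil) (fun _ => mink) (fun _ => mink_symm) (fun _ => mink_nondeg)
    (fun _ _ => contDiff_const)
    (by
      intro g y u w
      rw [Nil.fderiv_smul, Nil.fderiv_smul]
      simp only [mink_apply]
      ring)

theorem nilMetric_coeff {e : OpenPartialHomeomorph NilMfd (ℝ × ℝ × ℝ)}
    (he : e ∈ atlas (ℝ × ℝ × ℝ) NilMfd) (y u w : ℝ × ℝ × ℝ) :
    nilMetric.coeff e y u w = mink u w :=
  quotMetric_coeff _ _ _ _ _ he y u w

/-- the invariant 1-form `dz` -/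
noncomputable def zForm : ℝ × ℝ × ℝ →ₗ[ℝ] ℝ where
  toFun u := u.2.2
  map_add' a b := rfl
  map_smul' r a := rfl

/-- the invariant 1-form `dy - z dz` -/
noncomputable def yForm (p : ℝ × ℝ × ℝ) : ℝ × ℝ × ℝ →ₗ[ℝ] ℝ where
  toFun u := u.2.1 - p.2.2 * u.2.2
  map_add' a b := by simp; ring
  map_smul' r a := by simp; ring

@[simp] theorem zForm_apply (u : ℝ × ℝ × ℝ) : zForm u = u.2.2 := rfl
@[simp] theorem yForm_apply (p u : ℝ × ℝ × ℝ) : yForm p u = u.2.1 - p.2.2 * u.2.2 := rfl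

/-- The 1-form `dz` on the nilmanifold. -/
noncomputable def nilZ : OneForm (ℝ × ℝ × ℝ) NilMfd :=
  quotForm (Γ := Nil) (fun _ => zForm) (fun _ => contDiff_const)
    (by
      intro g y u
      rw [Nil.fderiv_smul]
      simp only [zForm_apply])

/-- The 1-form `dy - z dz` on the nilmanifold. -/
noncomputable def nilY : OneForm (ℝ × ℝ × ℝ) NilMfd :=
  quotForm (Γ := Nil) yForm
    (by
      intro u
      simp only [yForm_apply]
      fun_prop)
    (by
      intro g y u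
      rw [Nil.fderiv_smul, Nil.smul_def]
      simp only [yForm_apply]
      ring)

theorem nilZ_coeff {e : OpenPartialHomeomorph NilMfd (ℝ × ℝ × ℝ)}
    (he : e ∈ atlas (ℝ × ℝ × ℝ) NilMfd) (y u : ℝ × ℝ × ℝ) :
    nilZ.form (e.symm y) (coordVec e y u) = u.2.2 :=
  quotForm_coeff _ _ _ he y u

theorem nilY_coeff {e : OpenPartialHomeomorph NilMfd (ℝ × ℝ × ℝ)}
    (he : e ∈ atlas (ℝ × ℝ × ℝ) NilMfd) (y u : ℝ × ℝ × ℝ) :
    nilY.form (e.symm y) (coordVec e y u) = u.2.1 - y.2.2 * u.2.2 :=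
  quotForm_coeff _ _ _ he y u

theorem nilMetric_indefinite : nilMetric.IsIndefinite := by
  intro x
  constructor
  · refine ⟨((0, 1, 0) : ℝ × ℝ × ℝ), ?_⟩
    show (0 : ℝ) < mink (0, 1, 0) (0, 1, 0)
    simp
  · refine ⟨((1, 0, -1) : ℝ × ℝ × ℝ), ?_⟩
    show mink (1, 0, -1) (1, 0, -1) < (0 : ℝ)
    simp

/-- geodesics of the nilmanifold have no coordinate acceleration -/
theorem nil_geodesic_acc {γ : ℝ → NilMfd} (hγ : nilMetric.IsGeodesic γ)
    {e : OpenPartialHomeomorph NilMfd (ℝ × ℝ × ℝ)} (he : e ∈ atlas (ℝ × ℝ × ℝ) NilMfd) {t : ℝ}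
    (ht : γ t ∈ e.source) : HasDerivAt (deriv (fun r => e (γ r))) 0 t := by
  have h1 := hasDerivAt_deriv_coord he hγ.1 ht
  have h2 : ∀ w : ℝ × ℝ × ℝ, mink (deriv (deriv (fun r => e (γ r))) t) w = 0 := by
    intro w
    have h3 := hγ.2 e he t ht w
    simp only [nilMetric_coeff he] at h3
    have h4 : HasDerivAt (fun s => mink (deriv (fun r => e (γ r)) s) w)
        (mink (deriv (deriv (fun r => e (γ r))) t) w) t := by
      have h5 := hasDerivAt_fst' h1
      have h6 := hasDerivAt_fst' (hasDerivAt_snd' h1)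
      have h7 := hasDerivAt_snd' (hasDerivAt_snd' h1)
      simp only [mink_apply]
      exact ((h5.mul_const _).add (h7.mul_const _)).add (h6.mul_const _)
    have h8 := h3.unique h4
    rw [← h8]
    simp
  rw [mink_nondeg _ h2] at h1
  exact h1

theorem eval_velocity' {E : Type*} [NormedAddCommGroup E] [NormedSpace ℝ E]
    [FiniteDimensional ℝ E] {M : Type*} [TopologicalSpace M] [ChartedSpace E M]
    [IsManifold 𝓘(ℝ, E) ∞ M] (η : OneForm E M)
    {e : OpenPartialHomeomorph M E} (he : e ∈ atlas E M) {γ : ℝ → M} {t : ℝ}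
    (hγ : MDifferentiableAt 𝓘(ℝ, ℝ) 𝓘(ℝ, E) γ t) (ht : γ t ∈ e.source) :
    η.form (γ t) (velocity E γ t)
      = η.form (e.symm (e (γ t))) (coordVec e (e (γ t)) (deriv (fun r => e (γ r)) t)) := by
  have h := velocity_eq_cvec he hγ ht
  exact congrArg (fun p : TangentBundle 𝓘(ℝ, E) M => η.form p.1 p.2) h

theorem nilZ_deriv {γ : ℝ → NilMfd} (hγ : nilMetric.IsGeodesic γ) (t : ℝ) :
    HasDerivAt (fun s => nilZ.form (γ s) (velocity (ℝ × ℝ × ℝ) γ s)) 0 t := by
  set e := chartAt (ℝ × ℝ × ℝ) (γ t) with he'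
  have he := chart_mem_atlas (ℝ × ℝ × ℝ) (γ t)
  have ht : γ t ∈ e.source := mem_chart_source (ℝ × ℝ × ℝ) (γ t)
  have h1 := hasDerivAt_snd' (hasDerivAt_snd' (nil_geodesic_acc hγ he ht))
  refine h1.congr_of_eventuallyEq ?_
  have hcont : ContinuousAt γ t := (hγ.1 t).continuousAt
  filter_upwards [hcont.eventually_mem (e.open_source.mem_nhds ht)] with r hr
  rw [eval_velocity' nilZ he ((hγ.1 r).mdifferentiableAt (by simp)) hr, nilZ_coeff he]

theorem nilZ_const {γ : ℝ → NilMfd} (hγ : nilMetric.IsGeodesic γ) (t : ℝ) :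
    nilZ.form (γ t) (velocity (ℝ × ℝ × ℝ) γ t) = nilZ.form (γ 0) (velocity (ℝ × ℝ × ℝ) γ 0) :=
  is_const_of_deriv_eq_zero (fun t => (nilZ_deriv hγ t).differentiableAt)
    (fun t => (nilZ_deriv hγ t).deriv) t 0

theorem nilY_deriv {γ : ℝ → NilMfd} (hγ : nilMetric.IsGeodesic γ) (t : ℝ) :
    HasDerivAt (fun s => nilY.form (γ s) (velocity (ℝ × ℝ × ℝ) γ s))
      (-(nilZ.form (γ 0) (velocity (ℝ × ℝ × ℝ) γ 0)) ^ 2) t := by
  rw [← nilZ_const hγ t]
  set e := chartAt (ℝ × ℝ × ℝ) (γ t) with he'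
  have he := chart_mem_atlas (ℝ × ℝ × ℝ) (γ t)
  have ht : γ t ∈ e.source := mem_chart_source (ℝ × ℝ × ℝ) (γ t)
  have h0 := nil_geodesic_acc hγ he ht
  have hcd : HasDerivAt (fun r => e (γ r)) (deriv (fun r => e (γ r)) t) t :=
    ((contDiffAt_coord he hγ.1 ht).differentiableAt (by simp)).hasDerivAt
  have h1 := (hasDerivAt_fst' (hasDerivAt_snd' h0)).sub
    ((hasDerivAt_snd' (hasDerivAt_snd' hcd)).mul (hasDerivAt_snd' (hasDerivAt_snd' h0)))
  have h2 : nilZ.form (γ t) (velocity (ℝ × ℝ × ℝ) γ t) = (deriv (fun r => e (γ r)) t).2.2 := by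
    rw [eval_velocity' nilZ he ((hγ.1 t).mdifferentiableAt (by simp)) ht, nilZ_coeff he]
  rw [h2]
  have h3 := h1.congr_deriv (g' := -(deriv (fun r => e (γ r)) t).2.2 ^ 2) (by
    simp
    ring)
  refine h3.congr_of_eventuallyEq ?_
  have hcont : ContinuousAt γ t := (hγ.1 t).continuousAt
  filter_upwards [hcont.eventually_mem (e.open_source.mem_nhds ht)] with r hr
  rw [eval_velocity' nilY he ((hγ.1 r).mdifferentiableAt (by simp)) hr, nilY_coeff he]
  rfl

/-- along a geodesic, `(dy - z dz)(γ')` is affine with slope `-(dz(γ'))²` -/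
theorem nilY_affine {γ : ℝ → NilMfd} (hγ : nilMetric.IsGeodesic γ) (t : ℝ) :
    nilY.form (γ t) (velocity (ℝ × ℝ × ℝ) γ t)
      = -(nilZ.form (γ 0) (velocity (ℝ × ℝ × ℝ) γ 0)) ^ 2 * t
        + nilY.form (γ 0) (velocity (ℝ × ℝ × ℝ) γ 0) := by
  set a := nilZ.form (γ 0) (velocity (ℝ × ℝ × ℝ) γ 0) with ha
  have h : ∀ t, HasDerivAt (fun s => nilY.form (γ s) (velocity (ℝ × ℝ × ℝ) γ s) - (-a ^ 2 * s)) 0
      t := by
    intro t
    have h1 := (nilY_deriv hγ t).sub ((hasDerivAt_id t).const_mul (-a ^ 2))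
    refine h1.congr_deriv ?_
    simp [ha]
  have h2 := is_const_of_deriv_eq_zero (fun t => (h t).differentiableAt)
    (fun t => (h t).deriv) t 0
  simp only [mul_zero, sub_zero] at h2
  linarith

/-- straight lines project to geodesics -/
theorem nil_line_geodesic (p v : ℝ × ℝ × ℝ) :
    nilMetric.IsGeodesic (fun t : ℝ => proj Nil (p + t • v)) := by
  have hσ : ContDiff ℝ ∞ (fun t : ℝ => p + t • v) := by fun_prop
  refine ⟨contMDiff_proj_comp hσ, ?_⟩
  intro e he t ht w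
  obtain ⟨δ, hδ⟩ := chart_proj he ht
  have hcont : ContinuousAt (fun t : ℝ => p + t • v) t := hσ.continuous.continuousAt
  have hev : ∀ᶠ r in 𝓝 t, e (proj Nil (p + r • v)) = δ • (p + r • v) := hcont.eventually hδ
  have hd : ∀ r : ℝ, HasDerivAt (fun r : ℝ => δ • (p + r • v))
      (fderiv ℝ (fun z : ℝ × ℝ × ℝ => δ • z) (p + r • v) v) r := by
    intro r
    have h1 : HasFDerivAt (fun z : ℝ × ℝ × ℝ => δ • z)
        (fderiv ℝ (fun z : ℝ × ℝ × ℝ => δ • z) (p + r • v)) (p + r • v) :=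
      ((SmoothConst.smooth (E := ℝ × ℝ × ℝ) δ).differentiable (by simp) _).hasFDerivAt
    have h2 : HasDerivAt (fun r : ℝ => p + r • v) v r := by
      simpa using ((hasDerivAt_id r).smul_const v).const_add p
    exact h1.comp_hasDerivAt r h2
  set D : ℝ × ℝ × ℝ := (v.1 - δ.k * v.2.1 - (δ.k : ℝ) ^ 2 * v.2.2 / 2, v.2.1 + δ.k * v.2.2, v.2.2)
    with hD
  have hd' : ∀ r : ℝ, HasDerivAt (fun r : ℝ => δ • (p + r • v)) D r := by
    intro r
    have := hd r
    rw [Nil.fderiv_smul] at this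
    exact this
  have hev2 : ∀ᶠ r in 𝓝 t, deriv (fun r => e (proj Nil (p + r • v))) r = D := by
    filter_upwards [hev.eventually_nhds] with r hr
    have : deriv (fun r => e (proj Nil (p + r • v))) r = deriv (fun r : ℝ => δ • (p + r • v)) r :=
      Filter.EventuallyEq.deriv_eq hr
    rw [this, (hd' r).deriv]
  simp only [nilMetric_coeff he]
  have h3 : HasDerivAt (fun _ : ℝ => mink D w) 0 t := hasDerivAt_const _ _
  have h4 := h3.congr_of_eventuallyEq (f₁ := fun s => mink (deriv (fun r =>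
      e (proj Nil (p + r • v))) s) w) (by
    filter_upwards [hev2] with r hr
    rw [hr])
  refine h4.congr_deriv ?_
  simp

theorem nilMetric_complete : nilMetric.IsComplete := by
  intro x v
  set e := chartAt (ℝ × ℝ × ℝ) x with he'
  have he := chart_mem_atlas (ℝ × ℝ × ℝ) x
  have hx : x ∈ e.source := mem_chart_source (ℝ × ℝ × ℝ) x
  set p : ℝ × ℝ × ℝ := e x with hp
  obtain ⟨v', hv'⟩ : ∃ v' : ℝ × ℝ × ℝ, v' = v := ⟨v, rfl⟩
  have hg := nil_line_geodesic p v'
  have h0 : proj Nil p = x := proj_chart he hx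
  refine ⟨fun t : ℝ => proj Nil (p + t • v'), hg, ?_⟩
  -- the initial velocity
  have hb : proj Nil (p + (0 : ℝ) • v') = x := by simpa using h0
  have hs : (fun t : ℝ => proj Nil (p + t • v')) 0 ∈ e.source := by
    show proj Nil (p + (0 : ℝ) • v') ∈ e.source
    rw [hb]
    exact hx
  have h1 := velocity_eq_cvec he (γ := fun t : ℝ => proj Nil (p + t • v')) (t := 0)
    ((hg.1 0).mdifferentiableAt (by simp)) hs
  have h2 : (fun r : ℝ => e (proj Nil (p + r • v'))) =ᶠ[𝓝 0] fun r => p + r • v' := by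
    have hcont : ContinuousAt (fun t : ℝ => p + t • v') 0 := by fun_prop
    have : ∀ᶠ r : ℝ in 𝓝 0, p + r • v' ∈ e.target := by
      apply hcont.eventually_mem
      apply e.open_target.mem_nhds
      show p + (0 : ℝ) • v' ∈ e.target
      rw [zero_smul, add_zero]
      exact e.map_source hx
    filter_upwards [this] with r hr
    rw [← symm_eq_proj he, e.right_inv hr]
  have h3 : deriv (fun r : ℝ => e (proj Nil (p + r • v'))) 0 = v' := by
    rw [h2.deriv_eq]
    have h4 : HasDerivAt (fun r : ℝ => p + r • v') v' 0 := by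
      simpa using ((hasDerivAt_id (0 : ℝ)).smul_const v').const_add p
    exact h4.deriv
  have h5 : e (proj Nil (p + (0 : ℝ) • v')) = p := by rw [hb]
  refine h1.trans ?_
  have h6 : cvec e (e (proj Nil (p + (0 : ℝ) • v')))
      (deriv (fun r : ℝ => e (proj Nil (p + r • v'))) 0) = cvec e p v' := by
    rw [h5, h3]
  refine h6.trans ?_
  -- `coordVec e (e x) v' = v'` in the preferred chart at `x`
  have h7 : e.symm p = x := e.left_inv hx
  obtain ⟨δ, hδ1⟩ := chart_proj he (y := p) (by rw [h0]; exact hx)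
  have h8 : δ • p = p := by
    have := hδ1.self_of_nhds
    rw [h0] at this
    exact this.symm
  have h9 : δ = 1 := IsCancelSMul.right_cancel δ 1 p (by rw [h8, one_smul])
  have h10 : (coordVec e p v' : ℝ × ℝ × ℝ) = v' := by
    have hsymm : (e.symm : ℝ × ℝ × ℝ → NilMfd) = proj Nil := by
      ext1 z
      exact symm_eq_proj he z
    have hch : ∀ᶠ z in 𝓝 p, chartAt (ℝ × ℝ × ℝ) (proj Nil p) (proj Nil z) = (1 : Nil) • z := by
      rw [h0, ← h9]
      exact hδ1
    have h11 := mfderiv_proj hch v'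
    unfold coordVec
    rw [hsymm]
    refine h11.trans ?_
    simp
  exact Bundle.TotalSpace.ext h7 (heq_of_eq (h10.trans hv'))

end Pool.Agent.Helper831
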