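import Pool.Agent.Helper831.PMWeak

namespace Pool.Agent.Helper831.PM

open Real Set Filter Topology Metric

/-- A projective metric on an open convex set `M` of the plane (affine type): `d` is a complete
metric on `M`, continuous for the standard topology, whose geodesic segments are exactly the
affine segments, and all of whose discs are strictly convex. -/
structure AffineMetric (M : Set (ℝ × ℝ)) (d : ℝ × ℝ → ℝ × ℝ → ℝ) : Prop where
  isOpen : IsOpen M
  convex : Convex ℝ M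
  eq_zero : ∀ x ∈ M, ∀ y ∈ M, (d x y = 0 ↔ x = y)
  symm : ∀ x ∈ M, ∀ y ∈ M, d x y = d y x
  triangle : ∀ x ∈ M, ∀ y ∈ M, ∀ z ∈ M, d x z ≤ d x y + d y z
  cont : ContinuousOn (fun p : (ℝ × ℝ) × (ℝ × ℝ) => d p.1 p.2) (M ×ˢ M)
  complete : ∀ s : ℕ → ℝ × ℝ, (∀ n, s n ∈ M) →
    (∀ ε > 0, ∃ n₀, ∀ m ≥ n₀, ∀ n ≥ n₀, d (s m) (s n) < ε) →
    ∃ x ∈ M, ∀ ε > 0, ∃ n₀, ∀ n ≥ n₀, d (s n) x < ε
  geodesic : ∀ x ∈ M, ∀ y ∈ M, ∀ z ∈ M, (d x y + d y z = d x z ↔ y ∈ segment ℝ x z)
  disc : ∀ X ∈ M, ∀ r : ℝ, StrictConvex ℝ {P | P ∈ M ∧ d X P ≤ r}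

/-- `d` is the length metric of the Finsler function `F`: `F` is continuous, every `F x` is a
norm, and the distance is the infimum of the lengths of `C¹` curves. -/
structure FinslerOn (M : Set (ℝ × ℝ)) (F d : ℝ × ℝ → ℝ × ℝ → ℝ) : Prop where
  norm : ∀ x ∈ M, PNorm (F x)
  cont : ContinuousOn (fun p : (ℝ × ℝ) × (ℝ × ℝ) => F p.1 p.2) (M ×ˢ univ)
  length : ∀ x ∈ M, ∀ y ∈ M, IsGLB {l : ℝ | ∃ γ : ℝ → ℝ × ℝ, ContDiff ℝ 1 γ ∧
    (∀ t ∈ Icc (0 : ℝ) 1, γ t ∈ M) ∧ γ 0 = x ∧ γ 1 = y ∧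
      l = ∫ t in (0 : ℝ)..1, F (γ t) (deriv γ t)} (d x y)

lemma support_of_strictConvex {D : Set (ℝ × ℝ)} (hD : StrictConvex ℝ D) {o x : ℝ × ℝ}
    (ho : o ∈ D) (hx : x ∈ interior D) (hoi : o ∉ interior D) :
    ∃ v : ℝ × ℝ, v ≠ 0 ∧ ∀ t : ℝ, t ≠ 0 → o + t • v ∉ D := by
  obtain ⟨f, hf⟩ := geometric_hahn_banach_open_point hD.convex.interior isOpen_interior hoi
  have key : ∀ q ∈ D, q ≠ o → f q < f o := by
    intro q hq hne
    have h1 := hf _ (hD ho hq (Ne.symm hne) (a := 1 / 2) (b := 1 / 2) (by norm_num) (by norm_num)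
      (by norm_num))
    rw [map_add, map_smul, map_smul, smul_eq_mul, smul_eq_mul] at h1
    linarith
  have hdec : ∀ z : ℝ × ℝ, f z = z.1 * f (1, 0) + z.2 * f (0, 1) := by
    intro z
    have : z = z.1 • ((1, 0) : ℝ × ℝ) + z.2 • ((0, 1) : ℝ × ℝ) := by ext <;> simp
    conv_lhs => rw [this]
    rw [map_add, map_smul, map_smul, smul_eq_mul, smul_eq_mul]
  refine ⟨(- f (0, 1), f (1, 0)), ?_, fun t ht hmem => ?_⟩
  · intro h
    have h1 : f (0, 1) = 0 := by simpa using congrArg Prod.fst h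
    have h2 : f (1, 0) = 0 := congrArg Prod.snd h
    have := hf x hx
    rw [hdec x, hdec o, h1, h2] at this
    simp at this
  · have hv : ((- f (0, 1), f (1, 0)) : ℝ × ℝ) ≠ 0 := by
      intro h
      have h1 : f (0, 1) = 0 := by simpa using congrArg Prod.fst h
      have h2 : f (1, 0) = 0 := congrArg Prod.snd h
      have := hf x hx
      rw [hdec x, hdec o, h1, h2] at this
      simp at this
    have h1 := key _ hmem (by
      intro h
      have : t • ((- f (0, 1), f (1, 0)) : ℝ × ℝ) = 0 := by simpa using h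
      exact smul_ne_zero ht hv this)
    rw [map_add, map_smul, hdec (- f (0, 1), f (1, 0))] at h1
    simp only [smul_eq_mul] at h1
    nlinarith

namespace AffineMetric

variable {M : Set (ℝ × ℝ)} {F d : ℝ × ℝ → ℝ × ℝ → ℝ}

lemma self (A : AffineMetric M d) {x : ℝ × ℝ} (hx : x ∈ M) : d x x = 0 :=
  (A.eq_zero x hx x hx).2 rfl

lemma nonneg (A : AffineMetric M d) {x y : ℝ × ℝ} (hx : x ∈ M) (hy : y ∈ M) : 0 ≤ d x y := by
  have := A.triangle x hx y hy x hx
  rw [A.self hx, A.symm y hy x hx] at this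
  linarith

lemma pos (A : AffineMetric M d) {x y : ℝ × ℝ} (hx : x ∈ M) (hy : y ∈ M) (h : x ≠ y) :
    0 < d x y :=
  lt_of_le_of_ne (A.nonneg hx hy) fun e => h ((A.eq_zero x hx y hy).1 e.symm)

lemma beyond (A : AffineMetric M d) {X Q : ℝ × ℝ} (hX : X ∈ M) (hQ : Q ∈ M) (hne : X ≠ Q) :
    Q ∉ interior {P | P ∈ M ∧ d X P ≤ d X Q} := by
  intro hint
  have c : ContinuousAt (fun ε : ℝ => Q + ε • (Q - X)) 0 := by fun_prop
  have h0 : Q + (0 : ℝ) • (Q - X) = Q := by module
  have hint' : interior {P | P ∈ M ∧ d X P ≤ d X Q} ∈ 𝓝 (Q + (0 : ℝ) • (Q - X)) := by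
    rw [h0]; exact isOpen_interior.mem_nhds hint
  have ev := c.eventually hint'
  rw [Metric.eventually_nhds_iff] at ev
  obtain ⟨δ, hδ, hev⟩ := ev
  have h1 := interior_subset (@hev (δ / 2) (by
    rw [Real.dist_eq, sub_zero, abs_of_pos (by positivity)]; linarith))
  have hseg : Q ∈ segment ℝ X (Q + (δ / 2) • (Q - X)) := by
    rw [segment_eq_image']
    refine ⟨1 / (1 + δ / 2), ⟨by positivity, by
      rw [div_le_one (by positivity)]; linarith⟩, ?_⟩
    have e1 : Q + (δ / 2) • (Q - X) - X = (1 + δ / 2) • (Q - X) := by module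
    show X + (1 / (1 + δ / 2)) • (Q + (δ / 2) • (Q - X) - X) = Q
    rw [e1, smul_smul, one_div, inv_mul_cancel₀ (by positivity), one_smul]
    abel
  have h2 := (A.geodesic X hX Q hQ _ h1.1).2 hseg
  have hne2 : Q ≠ Q + (δ / 2) • (Q - X) := by
    intro h
    have : (δ / 2) • (Q - X) = 0 := by
      have := h.symm
      simpa using this
    rcases smul_eq_zero.1 this with h3 | h3
    · linarith
    · exact hne (sub_eq_zero.1 h3).symm
  have h3 := A.pos hQ h1.1 hne2
  have h4 := h1.2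
  linarith

lemma mem_int (A : AffineMetric M d) {X : ℝ × ℝ} (hX : X ∈ M) {r : ℝ} (hr : 0 < r) :
    X ∈ interior {P | P ∈ M ∧ d X P ≤ r} := by
  rw [mem_interior_iff_mem_nhds]
  have c : ContinuousAt (fun P => d X P) X := by
    have h1 : ContinuousAt (fun p : (ℝ × ℝ) × (ℝ × ℝ) => d p.1 p.2) (X, X) :=
      A.cont.continuousAt ((A.isOpen.prod A.isOpen).mem_nhds ⟨hX, hX⟩)
    have h2 : ContinuousAt (fun P : ℝ × ℝ => (X, P)) X := by fun_prop
    exact ContinuousAt.comp (f := fun P : ℝ × ℝ => (X, P)) (x := X) h1 h2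
  have h0 : d X X < r := by rw [A.self hX]; exact hr
  have ev : ∀ᶠ P in 𝓝 X, d X P < r := c.eventually (gt_mem_nhds h0)
  filter_upwards [ev, A.isOpen.mem_nhds hX] with P h1 h2
  exact ⟨h2, h1.le⟩

lemma support (A : AffineMetric M d) {X O : ℝ × ℝ} (hX : X ∈ M) (hO : O ∈ M) (hne : X ≠ O) :
    ∃ v : ℝ × ℝ, v ≠ 0 ∧ ∀ t : ℝ, O + t • v ∈ M → d X O ≤ d X (O + t • v) := by
  obtain ⟨v, hv, h⟩ := support_of_strictConvex (A.disc X hX (d X O)) (o := O) (x := X)
    ⟨hO, le_rfl⟩ (A.mem_int hX (A.pos hX hO hne)) (A.beyond hX hO hne)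
  refine ⟨v, hv, fun t ht => ?_⟩
  by_cases h0 : t = 0
  · rw [h0, zero_smul, add_zero]
  · by_contra hcon
    push Not at hcon
    exact h t h0 ⟨ht, hcon.le⟩

lemma foot_unique (A : AffineMetric M d) {X a b : ℝ × ℝ} (hX : X ∈ M) (ha : a ∈ M) (hb : b ∈ M)
    (hab : a ≠ b) (hf : ∀ t : ℝ, a + t • (b - a) ∈ M → d X a ≤ d X (a + t • (b - a))) :
    d X a < d X b := by
  by_contra hcon
  push Not at hcon
  have hXa : X ≠ a := by
    rintro rfl
    rw [A.self hX] at hcon
    exact absurd (A.pos hX hb hab) (not_lt.2 hcon)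
  have hr := A.pos hX ha hXa
  have hm := A.disc X hX (d X a) (show a ∈ {P | P ∈ M ∧ d X P ≤ d X a} from ⟨ha, le_rfl⟩)
    (show b ∈ {P | P ∈ M ∧ d X P ≤ d X a} from ⟨hb, hcon⟩) hab (a := 1 / 2) (b := 1 / 2)
    (by norm_num) (by norm_num) (by norm_num)
  have e : (1 / 2 : ℝ) • a + (1 / 2 : ℝ) • b = a + (1 / 2 : ℝ) • (b - a) := by module
  rw [e] at hm
  have hm' := interior_subset hm
  have h1 := hf _ hm'.1
  have h2 := le_antisymm hm'.2 h1
  have hXm : X ≠ a + (1 / 2 : ℝ) • (b - a) := by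
    intro h
    rw [← h, A.self hX] at h2
    linarith
  have := A.beyond hX hm'.1 hXm
  rw [h2] at this
  exact this hm

/-- the distance near a point, from the length structure -/
lemma near (A : AffineMetric M d) (hF : FinslerOn M F d) {x0 : ℝ × ℝ} (hx0 : x0 ∈ M) {ε : ℝ}
    (hε : 0 < ε) :
    ∃ δ > 0, ball x0 δ ⊆ M ∧ ∀ a ∈ ball x0 δ, ∀ b ∈ ball x0 δ,
      |d a b - F x0 (b - a)| ≤ ε * ‖b - a‖ := by
  refine near_of_piece A.isOpen hF.norm hF.cont hx0 ?_ ?_ hε
  · intro ρ hρ hρM a ha b hb e he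
    have ha' := hρM (ball_subset_closedBall ha)
    have hb' := hρM (ball_subset_closedBall hb)
    obtain ⟨l, ⟨γ, hγ, hγM, h0, h1, hl⟩, _, hlt⟩ :=
      (hF.length a ha' b hb').exists_between (lt_add_of_pos_right (d a b) he)
    have hγd : ∀ t, HasDerivAt γ (deriv γ t) t := fun t =>
      (hγ.differentiable one_ne_zero t).hasDerivAt
    have hγc : Continuous (deriv γ) := hγ.continuous_deriv le_rfl
    have hFc : ContinuousOn (fun t => F (γ t) (deriv γ t)) (Icc 0 1) := by
      have c : ContinuousOn (fun t => (γ t, deriv γ t)) (Icc 0 1) :=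
        (hγ.continuous.prodMk hγc).continuousOn
      exact ContinuousOn.comp (t := M ×ˢ univ)
        (g := fun p : (ℝ × ℝ) × (ℝ × ℝ) => F p.1 p.2) hF.cont c
        (fun t ht => ⟨hγM t ht, mem_univ _⟩)
    have hg : ContinuousOn (fun t => ‖γ t - x0‖ - ρ) (Icc 0 1) := by
      have := hγ.continuous
      fun_prop
    rcases first_exit hg (by
      rw [h0, sub_neg]; rwa [mem_ball, dist_eq_norm] at ha) with h | ⟨T, hT, hgT, hle⟩
    · refine ⟨1, γ, deriv γ, zero_le_one, h0, Or.inl h1, fun t _ => hγd t, hγc.continuousOn,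
        fun t ht => ?_, by rw [← hl]; exact hlt.le⟩
      rw [mem_closedBall, dist_eq_norm]
      have := h t ht
      linarith
    · refine ⟨T, γ, deriv γ, hT.1, h0, Or.inr (by linarith), fun t _ => hγd t, hγc.continuousOn,
        fun t ht => ?_, ?_⟩
      · rw [mem_closedBall, dist_eq_norm]
        have := hle t ht
        linarith
      · refine le_trans ?_ hlt.le
        rw [hl]
        have i1 : IntervalIntegrable (fun t => F (γ t) (deriv γ t)) MeasureTheory.volume 0 1 := by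
          rw [← uIcc_of_le (zero_le_one' ℝ)] at hFc
          exact hFc.intervalIntegrable
        refine intervalIntegral.integral_mono_interval le_rfl hT.1 hT.2 ?_ i1
        rw [Filter.EventuallyLE, MeasureTheory.ae_restrict_iff' measurableSet_Ioc]
        exact Filter.Eventually.of_forall fun t ht =>
          (hF.norm _ (hγM t ⟨ht.1.le, ht.2⟩)).nonneg _
  · intro a b hseg
    have ha : a ∈ M := hseg (left_mem_segment ℝ a b)
    have hb : b ∈ M := hseg (right_mem_segment ℝ a b)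
    refine (hF.length a ha b hb).1 ⟨fun t => a + t • (b - a), by fun_prop, ?_, by simp, by simp, ?_⟩
    · intro t ht
      apply hseg
      rw [segment_eq_image']
      exact ⟨t, ht, rfl⟩
    · refine intervalIntegral.integral_congr fun t _ => ?_
      have : HasDerivAt (fun t : ℝ => a + t • (b - a)) (b - a) t := by
        have h := ((hasDerivAt_id t).smul_const (b - a)).const_add a
        simpa using h
      show F (a + t • (b - a)) (b - a) = F (a + t • (b - a)) (deriv (fun t : ℝ => a + t • (b - a)) t)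
      rw [this.deriv]

lemma int_eq (A : AffineMetric M d) (hF : FinslerOn M F d) {y z : ℝ × ℝ} (hy : y ∈ M)
    (hz : z ∈ M) : d y z = ∫ t in (0 : ℝ)..1, F (y + t • (z - y)) (z - y) := by
  have hseg : segment ℝ y z ⊆ M := A.convex.segment_subset hy hz
  refine int_rep hF.norm hF.cont (fun x hx => A.self hx)
    (fun x hx ε hε => A.near hF hx hε) hseg fun s t hs hst ht => ?_
  have hmem : ∀ t ∈ Icc (0 : ℝ) 1, y + t • (z - y) ∈ M := by
    intro t ht
    apply hseg
    rw [segment_eq_image']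
    exact ⟨t, ht, rfl⟩
  have hps : y + s • (z - y) ∈ segment ℝ y (y + t • (z - y)) := by
    rw [segment_eq_image']
    rcases eq_or_lt_of_le (hs.trans hst) with h0 | h0
    · have h1 : s = 0 := le_antisymm (by rw [h0]; exact hst) hs
      exact ⟨0, ⟨le_rfl, zero_le_one⟩, by
        show y + (0 : ℝ) • (y + t • (z - y) - y) = y + s • (z - y)
        rw [h1, zero_smul, zero_smul]⟩
    · refine ⟨s / t, ⟨div_nonneg hs h0.le, (div_le_one h0).2 hst⟩, ?_⟩
      show y + (s / t) • (y + t • (z - y) - y) = y + s • (z - y)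
      rw [add_sub_cancel_left, smul_smul, div_mul_cancel₀ _ h0.ne']
  exact ((A.geodesic y hy _ (hmem s ⟨hs, hst.trans ht⟩) _ (hmem t ⟨hs.trans hst, ht⟩)).2
    hps).symm

theorem preCore (A : AffineMetric M d) (hF : FinslerOn M F d)
    (hs : ∀ O ∈ M, ∀ u v : ℝ × ℝ, u ≠ 0 → v ≠ 0 → Perp M d O u v → Perp M d O v u) :
    PreCore M F d where
  op := A.isOpen
  cv := A.convex
  Fn := hF.norm
  Fc := hF.cont
  dc := A.cont
  nn := fun _ hx _ hy => A.nonneg hx hy
  tri := A.triangle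
  loc := by
    intro x hx
    obtain ⟨r, hr, hsub⟩ := Metric.isOpen_iff.1 A.isOpen x hx
    refine ⟨r, hr, hsub, fun y hy z hz => A.int_eq hF (hsub hy) (hsub hz), ?_⟩
    intro p hp y hy z hz hOm
    refine lt_of_le_of_ne (A.triangle p (hsub hp) y (hsub hy) z (hsub hz)) fun he => ?_
    have := (A.geodesic p (hsub hp) y (hsub hy) z (hsub hz)).1 he.symm
    rw [segment_eq_image'] at this
    obtain ⟨t, _, ht⟩ := this
    apply hOm
    have e1 : y = p + t • (z - p) := ht.symm
    have e2 : y - p = t • (z - p) := by rw [e1]; abel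
    have e3 : z - y = (1 - t) • (z - p) := by rw [e1]; module
    rw [e2, e3, Om_smul_left, Om_smul_right, Om_self]
    ring
  sd := fun X hX O hO hne => A.support hX hO hne
  ap := by
    intro X hX O hO hne δ hδ
    refine ⟨min 1 (δ / 2), by positivity, ?_, ?_, ?_⟩
    · rw [abs_of_pos (by positivity)]
      exact (min_le_right _ _).trans_lt (by linarith)
    · have := A.convex.segment_subset hO hX
      apply this
      rw [segment_eq_image']
      exact ⟨min 1 (δ / 2), ⟨by positivity, min_le_left _ _⟩, rfl⟩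
    · have hm : O + min 1 (δ / 2) • (X - O) ∈ segment ℝ X O := by
        rw [segment_symm, segment_eq_image']
        exact ⟨min 1 (δ / 2), ⟨by positivity, min_le_left _ _⟩, rfl⟩
      exact ((A.geodesic X hX _ (A.convex.segment_subset hX hO hm) O hO).2 hm).symm
  sym := hs
  fu := by
    intro O _
    exact ⟨1, one_pos, fun X _ a _ b _ hab hX ha hb hf => A.foot_unique hX ha hb hab hf⟩

end AffineMetric

end Pool.Agent.Helper831.PM
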