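import Mathlib

namespace Pool.Agent.Helper831.PM

/-- positivity of the determinant -/
lemma det_pos {x1 x2 x3 y1 y2 y3 : ℝ} (hx1 : 0 ≤ x1) (hx2 : 0 ≤ x2) (hx3 : 0 ≤ x3)
    (hy1 : 0 ≤ y1) (hy2 : 0 ≤ y2) (hy3 : 0 ≤ y3) (h1 : x1 + y1 < 1) (h2 : x2 + y2 < 1)
    (h3 : x3 + y3 < 1) :
    0 < 1 - x1 * y1 - x2 * y2 - x3 * y3 - x1 * x2 * x3 - y1 * y2 * y3 := by
  have e1 : y1 < 1 - x1 := by linarith
  have e2 : y2 < 1 - x2 := by linarith
  have e3 : y3 < 1 - x3 := by linarith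
  have p : y1 * y2 * y3 < (1 - x1) * (1 - x2) * (1 - x3) := by
    have a : y1 * y2 ≤ (1 - x1) * (1 - x2) := mul_le_mul e1.le e2.le hy2 (by linarith)
    have b : 0 < (1 - x1) * (1 - x2) := mul_pos (by linarith) (by linarith)
    calc y1 * y2 * y3 ≤ (1 - x1) * (1 - x2) * y3 := mul_le_mul_of_nonneg_right a hy3
      _ < (1 - x1) * (1 - x2) * (1 - x3) := mul_lt_mul_of_pos_left e3 b
  have q1 : x1 * y1 ≤ x1 * (1 - x1) := mul_le_mul_of_nonneg_left e1.le hx1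
  have q2 : x2 * y2 ≤ x2 * (1 - x2) := mul_le_mul_of_nonneg_left e2.le hx2
  have q3 : x3 * y3 ≤ x3 * (1 - x3) := mul_le_mul_of_nonneg_left e3.le hx3
  nlinarith [sq_nonneg (x1 - x2), sq_nonneg (x2 - x3), sq_nonneg (x1 - x3)]

lemma cyc_contra {x1 x2 x3 y1 y2 y3 D1 D2 D3 : ℝ} (hx1 : 0 ≤ x1) (hx2 : 0 ≤ x2) (hx3 : 0 ≤ x3)
    (hy1 : 0 ≤ y1) (hy2 : 0 ≤ y2) (hy3 : 0 ≤ y3) (h1 : x1 + y1 < 1) (h2 : x2 + y2 < 1)
    (h3 : x3 + y3 < 1) (hD1 : 0 < D1)
    (a1 : D1 ≤ x3 * D2 + y2 * D3) (a2 : D2 ≤ x1 * D3 + y3 * D1) (a3 : D3 ≤ x2 * D1 + y1 * D2) :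
    False := by
  have hd := det_pos hx1 hx2 hx3 hy1 hy2 hy3 h1 h2 h3
  have id : (1 - x1 * y1) * (D1 - x3 * D2 - y2 * D3) + (x3 + y1 * y2) * (D2 - x1 * D3 - y3 * D1) +
      (x1 * x3 + y2) * (D3 - x2 * D1 - y1 * D2) =
      (1 - x1 * y1 - x2 * y2 - x3 * y3 - x1 * x2 * x3 - y1 * y2 * y3) * D1 := by ring
  have c1 : 0 ≤ 1 - x1 * y1 := by nlinarith
  have c2 : 0 ≤ x3 + y1 * y2 := by positivity
  have c3 : 0 ≤ x1 * x3 + y2 := by positivity
  have p := mul_pos hd hD1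
  have b1 : (1 - x1 * y1) * (D1 - x3 * D2 - y2 * D3) ≤ 0 :=
    mul_nonpos_of_nonneg_of_nonpos c1 (by linarith)
  have b2 : (x3 + y1 * y2) * (D2 - x1 * D3 - y3 * D1) ≤ 0 :=
    mul_nonpos_of_nonneg_of_nonpos c2 (by linarith)
  have b3 : (x1 * x3 + y2) * (D3 - x2 * D1 - y1 * D2) ≤ 0 :=
    mul_nonpos_of_nonneg_of_nonpos c3 (by linarith)
  linarith

lemma pp_sum {α β : ℝ} (hα : 0 < α) (hβ : 0 < β) (h : 4 / 3 < α + β) :
    max 0 ((1 - α) / β) + max 0 ((1 - β) / α) < 1 := by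
  rcases le_or_gt 1 α with h1 | h1
  · have e1 : (1 - α) / β ≤ 0 := div_nonpos_of_nonpos_of_nonneg (by linarith) hβ.le
    rw [max_eq_left e1, zero_add, max_lt_iff]
    refine ⟨one_pos, ?_⟩
    rw [div_lt_one hα]; linarith
  · rcases le_or_gt 1 β with h2 | h2
    · have e1 : (1 - β) / α ≤ 0 := div_nonpos_of_nonpos_of_nonneg (by linarith) hα.le
      rw [max_eq_left e1, add_zero, max_lt_iff]
      refine ⟨one_pos, ?_⟩
      rw [div_lt_one hβ]; linarith
    · have e1 : 0 ≤ (1 - α) / β := div_nonneg (by linarith) hβ.le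
      have e2 : 0 ≤ (1 - β) / α := div_nonneg (by linarith) hα.le
      rw [max_eq_right e1, max_eq_right e2, div_add_div _ _ hβ.ne' hα.ne', div_lt_one (by positivity)]
      nlinarith [sq_nonneg (α - β), mul_pos hα hβ]

lemma arcs_contra {α1 α2 α3 β1 β2 β3 D1 D2 D3 : ℝ} (hα1 : 0 < α1) (hα2 : 0 < α2) (hα3 : 0 < α3)
    (hβ1 : 0 < β1) (hβ2 : 0 < β2) (hβ3 : 0 < β3) (h1 : 4 / 3 < α1 + β1) (h2 : 4 / 3 < α2 + β2)
    (h3 : 4 / 3 < α3 + β3) (hD1 : 0 < D1) (hD2 : 0 < D2) (hD3 : 0 < D3)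
    (c1 : α1 * β2 * D3 ≤ α1 * (1 - α2) * D1 + (1 - β1) * β2 * D2)
    (c2 : α2 * β3 * D1 ≤ α2 * (1 - α3) * D2 + (1 - β2) * β3 * D3)
    (c3 : α3 * β1 * D2 ≤ α3 * (1 - α1) * D3 + (1 - β3) * β1 * D1) : False := by
  have key : ∀ {a a' b b' A B C : ℝ}, 0 < a → 0 < b' → 0 < A → 0 < B →
      a * b' * C ≤ a * (1 - a') * A + (1 - b) * b' * B →
      C ≤ max 0 ((1 - a') / b') * A + max 0 ((1 - b) / a) * B := by
    intro a a' b b' A B C ha hb' hA hB hc
    have e : C ≤ (1 - a') / b' * A + (1 - b) / a * B := by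
      have e2 : (1 - a') / b' * A + (1 - b) / a * B =
          (a * (1 - a') * A + (1 - b) * b' * B) / (a * b') := by
        field_simp
      rw [e2, le_div_iff₀ (by positivity)]
      linarith
    have f1 := mul_le_mul_of_nonneg_right (le_max_right 0 ((1 - a') / b')) hA.le
    have f2 := mul_le_mul_of_nonneg_right (le_max_right 0 ((1 - b) / a)) hB.le
    linarith
  have a3 := key hα1 hβ2 hD1 hD2 c1
  have a1 := key hα2 hβ3 hD2 hD3 c2
  have a2 := key hα3 hβ1 hD3 hD1 c3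
  exact cyc_contra (le_max_left _ _) (le_max_left _ _) (le_max_left _ _) (le_max_left _ _)
    (le_max_left _ _) (le_max_left _ _) (pp_sum hα1 hβ1 h1) (pp_sum hα2 hβ2 h2)
    (pp_sum hα3 hβ3 h3) hD1 a1 a2 a3

/-- A function whose increments are bounded by `K (s'-s) (T s' - T s)` does not increase. -/
lemma partition_le {Ψ T : ℝ → ℝ} {a b K : ℝ} (hab : a ≤ b)
    (H : ∀ s s', a ≤ s → s ≤ s' → s' ≤ b → Ψ s' - Ψ s ≤ K * (s' - s) * (T s' - T s)) :
    Ψ b ≤ Ψ a := by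
  have main : ∀ n : ℕ, 0 < n → Ψ b - Ψ a ≤ K * (b - a) * (T b - T a) / n := by
    intro n hn
    have hn' : (0 : ℝ) < n := Nat.cast_pos.2 hn
    set s : ℕ → ℝ := fun i => a + i * ((b - a) / n) with hs
    have s0 : s 0 = a := by simp [hs]
    have sn : s n = b := by simp only [hs]; field_simp; ring
    have step : ∀ i ∈ Finset.range n, Ψ (s (i + 1)) - Ψ (s i) ≤
        K * ((b - a) / n) * (T (s (i + 1)) - T (s i)) := by
      intro i hi
      have hi' : (i : ℝ) + 1 ≤ n := by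
        have := Finset.mem_range.1 hi
        exact_mod_cast this
      have hd : 0 ≤ (b - a) / n := div_nonneg (by linarith) hn'.le
      have e1 : s (i + 1) - s i = (b - a) / n := by
        simp only [hs]; push_cast; ring
      have l1 : a ≤ s i := by
        simp only [hs]
        have : 0 ≤ (i : ℝ) * ((b - a) / n) := by positivity
        linarith
      have l2 : s i ≤ s (i + 1) := by linarith
      have l3 : s (i + 1) ≤ b := by
        rw [← sn]
        simp only [hs]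
        have : ((i + 1 : ℕ) : ℝ) * ((b - a) / n) ≤ n * ((b - a) / n) := by
          apply mul_le_mul_of_nonneg_right _ hd
          push_cast; exact hi'
        linarith
      have := H _ _ l1 l2 l3
      rwa [e1] at this
    have := Finset.sum_le_sum step
    rw [Finset.sum_range_sub (fun i => Ψ (s i)), ← Finset.mul_sum,
      Finset.sum_range_sub (fun i => T (s i)), s0, sn] at this
    calc Ψ b - Ψ a ≤ K * ((b - a) / n) * (T b - T a) := this
      _ = _ := by ring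
  have lim : Filter.Tendsto (fun n : ℕ => K * (b - a) * (T b - T a) / n) Filter.atTop (nhds 0) :=
    tendsto_const_div_atTop_nhds_zero_nat _
  have : Ψ b - Ψ a ≤ 0 := ge_of_tendsto lim (by
    filter_upwards [Filter.eventually_gt_atTop 0] with n hn
    exact main n hn)
  linarith

end Pool.Agent.Helper831.PM
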