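import Pool.Agent.Helper831.PMRadon

namespace Pool.Agent.Helper831.PM

open Real Set Filter Topology

/-! ### Joint continuity of the derivative of a family of Radon norms -/

lemma RadonNorm.dN_le_quot {N : ℝ × ℝ → ℝ} (h : RadonNorm N) {u : ℝ × ℝ} (hu : u ≠ 0)
    (w : ℝ × ℝ) {t : ℝ} (ht : 0 < t) : dN N u w ≤ (N (u + t • w) - N u) / t := by
  rw [le_div_iff₀ ht]
  have h1 := h.dN_le hu (u + t • w)
  rw [map_add, map_smul, h.dN_self hu, smul_eq_mul] at h1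
  linarith

lemma RadonNorm.quot_lt {N : ℝ × ℝ → ℝ} (h : RadonNorm N) {u : ℝ × ℝ} (hu : u ≠ 0)
    (w : ℝ × ℝ) {ε : ℝ} (hε : 0 < ε) : ∃ t > 0, (N (u + t • w) - N u) / t < dN N u w + ε := by
  have h1 : HasDerivAt (fun t : ℝ => N (u + t • w)) (dN N u w) 0 := by
    have h2 : HasFDerivAt N (dN N u) (u + (0 : ℝ) • w) := by
      rw [zero_smul, add_zero]; exact h.hasFDerivAt hu
    have h3 : HasDerivAt (fun t : ℝ => u + t • w) w 0 := by
      have := ((hasDerivAt_id (0 : ℝ)).smul_const w).const_add u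
      simpa using this
    exact h2.comp_hasDerivAt 0 h3
  have h4 := h1.tendsto_slope_zero_right
  have h5 : ∀ᶠ t in 𝓝[>] (0 : ℝ), t⁻¹ • (N (u + (0 + t) • w) - N (u + (0 : ℝ) • w)) <
      dN N u w + ε := h4.eventually (gt_mem_nhds (by linarith))
  obtain ⟨t, ht, ht0⟩ := (h5.and self_mem_nhdsWithin).exists
  refine ⟨t, ht0, ?_⟩
  rw [zero_add, zero_smul, add_zero, smul_eq_mul] at ht
  rwa [div_eq_inv_mul]

lemma dN_continuousAt {F : ℝ × ℝ → ℝ × ℝ → ℝ} {x u : ℝ × ℝ} (hx : ∀ᶠ y in 𝓝 x, RadonNorm (F y))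
    (hF : ∀ v, ContinuousAt (fun p : (ℝ × ℝ) × (ℝ × ℝ) => F p.1 p.2) (x, v)) (hu : u ≠ 0)
    (w : ℝ × ℝ) : ContinuousAt (fun p : (ℝ × ℝ) × (ℝ × ℝ) => dN (F p.1) p.2 w) (x, u) := by
  have hR : RadonNorm (F x) := hx.self_of_nhds
  have hev : ∀ᶠ p : (ℝ × ℝ) × (ℝ × ℝ) in 𝓝 (x, u), RadonNorm (F p.1) ∧ p.2 ≠ 0 := by
    have h1 : ∀ᶠ p : (ℝ × ℝ) × (ℝ × ℝ) in 𝓝 (x, u), RadonNorm (F p.1) :=
      (continuous_fst.tendsto (x, u)).eventually hx
    have h2 : ∀ᶠ p : (ℝ × ℝ) × (ℝ × ℝ) in 𝓝 (x, u), p.2 ≠ 0 :=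
      (continuous_snd.tendsto (x, u)).eventually (isOpen_ne.mem_nhds hu)
    exact h1.and h2
  -- upper bound for each direction
  have key : ∀ w : ℝ × ℝ, ∀ ε > 0, ∀ᶠ p : (ℝ × ℝ) × (ℝ × ℝ) in 𝓝 (x, u),
      dN (F p.1) p.2 w < dN (F x) u w + ε := by
    intro w ε hε
    obtain ⟨t, ht, hlt⟩ := hR.quot_lt hu w hε
    have hc : ContinuousAt (fun p : (ℝ × ℝ) × (ℝ × ℝ) =>
        (F p.1 (p.2 + t • w) - F p.1 p.2) / t) (x, u) := by
      have c1 : ContinuousAt (fun p : (ℝ × ℝ) × (ℝ × ℝ) => F p.1 (p.2 + t • w)) (x, u) := by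
        have := hF (u + t • w)
        have g : ContinuousAt (fun p : (ℝ × ℝ) × (ℝ × ℝ) => (p.1, p.2 + t • w)) (x, u) := by
          fun_prop
        exact ContinuousAt.comp (f := fun p : (ℝ × ℝ) × (ℝ × ℝ) => (p.1, p.2 + t • w))
          (x := (x, u)) this g
      exact (c1.sub (hF u)).div_const t
    have := hc.eventually (gt_mem_nhds hlt)
    filter_upwards [this, hev] with p hp hp2
    exact lt_of_le_of_lt (hp2.1.dN_le_quot hp2.2 w ht) hp
  rw [ContinuousAt, Metric.tendsto_nhds]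
  intro ε hε
  filter_upwards [key w ε hε, key (-w) ε hε] with p h1 h2
  rw [map_neg, map_neg] at h2
  rw [Real.dist_eq, abs_lt]
  constructor <;> linarith

lemma RadonNorm.dN_continuousAt {N : ℝ × ℝ → ℝ} (h : RadonNorm N) {u : ℝ × ℝ} (hu : u ≠ 0)
    (w : ℝ × ℝ) : ContinuousAt (fun v => dN N v w) u := by
  have h1 := PM.dN_continuousAt (F := fun _ => N) (x := 0) (u := u) (Eventually.of_forall fun _ => h)
    (fun v => by
      have : Continuous (fun p : (ℝ × ℝ) × (ℝ × ℝ) => N p.2) := h.1.continuous.comp continuous_snd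
      exact this.continuousAt) hu w
  have g : ContinuousAt (fun v : ℝ × ℝ => ((0 : ℝ × ℝ), v)) u := by fun_prop
  exact ContinuousAt.comp (f := fun v : ℝ × ℝ => ((0 : ℝ × ℝ), v)) (x := u) h1 g

/-! ### Directions -/

noncomputable def dir (φ : ℝ) : ℝ × ℝ := (cos φ, sin φ)
noncomputable def nor (φ : ℝ) : ℝ × ℝ := (-sin φ, cos φ)

lemma hasDerivAt_dir (φ : ℝ) : HasDerivAt dir (nor φ) φ :=
  (hasDerivAt_cos φ).prodMk (hasDerivAt_sin φ)

lemma hasDerivAt_nor (φ : ℝ) : HasDerivAt nor (-dir φ) φ := by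
  have := (hasDerivAt_sin φ).neg.prodMk (hasDerivAt_cos φ)
  exact this

lemma continuous_dir : Continuous dir := by unfold dir; fun_prop
lemma continuous_nor : Continuous nor := by unfold nor; fun_prop

lemma Om_dir_nor (φ : ℝ) : Om (dir φ) (nor φ) = 1 := by
  simp only [Om, dir, nor]; nlinarith [sin_sq_add_cos_sq φ]

lemma dir_ne (φ : ℝ) : dir φ ≠ 0 := by
  intro h
  have := Om_dir_nor φ
  rw [h, Om_zero_left] at this
  exact zero_ne_one this

lemma dir_add_pi (φ : ℝ) : dir (φ + π) = - dir φ := by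
  simp [dir, cos_add_pi, sin_add_pi]

lemma nor_add_pi (φ : ℝ) : nor (φ + π) = - nor φ := by
  simp [nor, cos_add_pi, sin_add_pi]

lemma norm_dir_le (φ : ℝ) : ‖dir φ‖ ≤ 1 := by
  rw [Prod.norm_def, max_le_iff]
  exact ⟨abs_cos_le_one φ, abs_sin_le_one φ⟩

lemma norm_nor_le (φ : ℝ) : ‖nor φ‖ ≤ 1 := by
  rw [Prod.norm_def, max_le_iff]
  refine ⟨?_, abs_cos_le_one φ⟩
  simp only [nor, norm_neg]
  exact abs_sin_le_one φ

lemma half_le_norm_dir (φ : ℝ) : 1 / 2 ≤ ‖dir φ‖ := by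
  by_contra hc
  push Not at hc
  have := abs_Om_le (dir φ) (nor φ)
  rw [Om_dir_nor, abs_one] at this
  have h2 := norm_nor_le φ
  nlinarith [norm_nonneg (dir φ), norm_nonneg (nor φ)]

lemma dir_sub (φ ψ : ℝ) : dir φ = cos (φ - ψ) • dir ψ + sin (φ - ψ) • nor ψ := by
  have e : φ = (φ - ψ) + ψ := by ring
  have h1 : cos φ = cos (φ - ψ) * cos ψ - sin (φ - ψ) * sin ψ := by
    conv_lhs => rw [e]
    rw [cos_add]
  have h2 : sin φ = sin (φ - ψ) * cos ψ + cos (φ - ψ) * sin ψ := by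
    conv_lhs => rw [e]
    rw [sin_add]
  ext
  · simp [dir, nor]; rw [h1]; ring
  · simp [dir, nor]; rw [h2]; ring

lemma Om_dir_dir (φ ψ : ℝ) : Om (dir φ) (dir ψ) = sin (ψ - φ) := by
  simp only [Om, dir]
  rw [sin_sub]; ring

lemma exists_dir {u : ℝ × ℝ} (hu : u ≠ 0) : ∃ r : ℝ, 0 < r ∧ ∃ φ : ℝ, u = r • dir φ := by
  set z : ℂ := ⟨u.1, u.2⟩ with hz
  have hz0 : z ≠ 0 := by
    intro h0
    apply hu
    have h1 := congrArg Complex.re h0
    have h2 := congrArg Complex.im h0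
    exact Prod.ext h1 h2
  refine ⟨‖z‖, norm_pos_iff.2 hz0, Complex.arg z, ?_⟩
  have h1 := Complex.norm_mul_cos_arg z
  have h2 := Complex.norm_mul_sin_arg z
  ext
  · simp only [dir, Prod.smul_fst, smul_eq_mul]; exact h1.symm
  · simp only [dir, Prod.smul_snd, smul_eq_mul]; exact h2.symm

/-! ### Angular functions of a norm -/

/-- the norm as a function of the angle -/
noncomputable def hh (N : ℝ × ℝ → ℝ) (φ : ℝ) : ℝ := N (dir φ)
/-- its derivative -/
noncomputable def hp (N : ℝ × ℝ → ℝ) (φ : ℝ) : ℝ := dN N (dir φ) (nor φ)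

namespace RadonNorm

variable {N : ℝ × ℝ → ℝ}

lemma hh_pos (h : RadonNorm N) (φ : ℝ) : 0 < hh N φ := h.1.pos (dir_ne φ)

lemma hasDerivAt_hh (h : RadonNorm N) (φ : ℝ) : HasDerivAt (hh N) (hp N φ) φ :=
  (h.hasFDerivAt (dir_ne φ)).comp_hasDerivAt φ (hasDerivAt_dir φ)

lemma rr_dir (h : RadonNorm N) (φ : ℝ) : rr N (dir φ) = hh N φ • nor φ - hp N φ • dir φ := by
  have h1 : Om (dir φ) (rr N (dir φ)) = hh N φ := h.Om_rr (dir_ne φ)
  have h2 : Om (nor φ) (rr N (dir φ)) = hp N φ := by rw [← dN_eq_Om]; rfl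
  have hO : Om (dir φ) (nor φ) ≠ 0 := by rw [Om_dir_nor]; norm_num
  rw [Om_decomp hO (rr N (dir φ)), Om_dir_nor, div_one, div_one, h1, Om_swap _ (nor φ), h2,
    neg_smul]
  abel

lemma continuous_hh (h : RadonNorm N) : Continuous (hh N) := h.1.continuous.comp continuous_dir

lemma continuousAt_dN_comb (h : RadonNorm N) (φ : ℝ) :
    ContinuousAt (fun φ => dN N (dir φ) (nor φ)) φ := by
  have e : ∀ φ, dN N (dir φ) (nor φ) =
      (-sin φ) * dN N (dir φ) (1, 0) + cos φ * dN N (dir φ) (0, 1) := by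
    intro φ
    have e : nor φ = (-sin φ) • ((1, 0) : ℝ × ℝ) + cos φ • ((0, 1) : ℝ × ℝ) := by
      ext <;> simp [nor]
    conv_lhs => rw [e]
    rw [map_add, map_smul, map_smul, smul_eq_mul, smul_eq_mul]
  simp_rw [e]
  have c1 : ContinuousAt (fun φ => dN N (dir φ) (1, 0)) φ :=
    ContinuousAt.comp (f := dir) (x := φ) (h.dN_continuousAt (dir_ne φ) (1, 0))
      continuous_dir.continuousAt
  have c2 : ContinuousAt (fun φ => dN N (dir φ) (0, 1)) φ :=
    ContinuousAt.comp (f := dir) (x := φ) (h.dN_continuousAt (dir_ne φ) (0, 1))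
      continuous_dir.continuousAt
  exact ((continuous_sin.neg.continuousAt).mul c1).add (continuous_cos.continuousAt.mul c2)

lemma continuous_hp (h : RadonNorm N) : Continuous (hp N) :=
  continuous_iff_continuousAt.2 fun φ => h.continuousAt_dN_comb φ

lemma hh_add_pi (h : RadonNorm N) (φ : ℝ) : hh N (φ + π) = hh N φ := by
  rw [hh, dir_add_pi, h.1.neg]; rfl

lemma hp_add_pi (h : RadonNorm N) (φ : ℝ) : hp N (φ + π) = hp N φ := by
  rw [hp, dir_add_pi, nor_add_pi, h.dN_neg (dir_ne φ), neg_apply, map_neg, neg_neg]; rfl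

/-- the function `N (rr (dir φ))` -/
noncomputable def cc (N : ℝ × ℝ → ℝ) (φ : ℝ) : ℝ := N (rr N (dir φ))

lemma cc_pos (h : RadonNorm N) (φ : ℝ) : 0 < cc N φ := h.1.pos (h.rr_ne (dir_ne φ))

lemma cc_ineq (h : RadonNorm N) (φ ψ : ℝ) :
    cc N φ * (cos (φ - ψ) * hh N ψ + sin (φ - ψ) * hp N ψ) ≤ hh N φ * cc N ψ := by
  have h1 := h.polar (dir_ne φ) (rr N (dir ψ))
  rw [← dN_eq_Om] at h1
  have e : dN N (dir ψ) (dir φ) = cos (φ - ψ) * hh N ψ + sin (φ - ψ) * hp N ψ := by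
    conv_lhs => rw [dir_sub φ ψ]
    rw [map_add, map_smul, map_smul, smul_eq_mul, smul_eq_mul, h.dN_self (dir_ne ψ)]; rfl
  rw [e] at h1
  exact h1

lemma hasDerivAt_cc (h : RadonNorm N) (ψ : ℝ) : HasDerivAt (cc N) 0 ψ := by
  set B : ℝ → ℝ := fun φ => cc N ψ * (cos (ψ - φ) * hh N φ + sin (ψ - φ) * hp N φ) / hh N ψ with hB
  set A : ℝ → ℝ := fun φ => hh N φ * cc N ψ / (cos (φ - ψ) * hh N ψ + sin (φ - ψ) * hp N ψ)
    with hA
  have hψ := h.hh_pos ψ
  have hAψ : A ψ = cc N ψ := by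
    simp only [hA, sub_self, cos_zero, sin_zero, one_mul, zero_mul, add_zero]
    field_simp
  have hBψ : B ψ = cc N ψ := by
    simp only [hB, sub_self, cos_zero, sin_zero, one_mul, zero_mul, add_zero]
    field_simp
  have hA' : HasDerivAt A 0 ψ := by
    have d1 : HasDerivAt (fun φ => φ - ψ) 1 ψ := (hasDerivAt_id ψ).sub_const ψ
    have d2 : HasDerivAt (fun φ => cos (φ - ψ)) (-sin (ψ - ψ) * 1) ψ := d1.cos
    have d3 : HasDerivAt (fun φ => sin (φ - ψ)) (cos (ψ - ψ) * 1) ψ := d1.sin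
    have d4 := (d2.mul_const (hh N ψ)).add (d3.mul_const (hp N ψ))
    have d5 := ((h.hasDerivAt_hh ψ).mul_const (cc N ψ)).div d4 (by
      simp only [Pi.add_apply, sub_self, cos_zero, sin_zero, one_mul, zero_mul, add_zero]
      exact hψ.ne')
    refine d5.congr_deriv ?_
    simp only [Pi.add_apply, sub_self, cos_zero, sin_zero, one_mul, zero_mul, add_zero, neg_zero,
      zero_add]
    field_simp
    ring
  have hB' : HasDerivAt B 0 ψ := by
    have d1 : HasDerivAt (fun φ => ψ - φ) (-1) ψ := by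
      have := (hasDerivAt_id ψ).const_sub ψ
      exact this
    have d2 : HasDerivAt (fun φ => cos (ψ - φ)) (-sin (ψ - ψ) * -1) ψ := d1.cos
    have d3 : HasDerivAt (fun φ => sin (ψ - φ)) (cos (ψ - ψ) * -1) ψ := d1.sin
    have d4 : HasDerivAt (fun φ => sin (ψ - φ) * hp N φ) (- hp N ψ) ψ := by
      rw [hasDerivAt_iff_tendsto_slope]
      have s3 := d3.tendsto_slope
      have c := h.continuous_hp.tendsto ψ
      have := s3.mul (c.mono_left (nhdsWithin_le_nhds (s := {ψ}ᶜ)))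
      simp only [sub_self, cos_zero, one_mul] at this
      rw [neg_one_mul] at this
      refine this.congr fun φ => ?_
      simp only [slope, vsub_eq_sub, sub_self, sin_zero, sub_zero, smul_eq_mul, zero_mul]
      ring
    have d5 := (((d2.mul (h.hasDerivAt_hh ψ)).add d4).const_mul (cc N ψ)).div_const (hh N ψ)
    refine d5.congr_deriv ?_
    simp only [sub_self, cos_zero, sin_zero, one_mul, zero_mul, neg_zero, zero_add]
    simp
  have hpos : ∀ᶠ φ in 𝓝 ψ, 0 < cos (φ - ψ) * hh N ψ + sin (φ - ψ) * hp N ψ := by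
    have : Continuous fun φ => cos (φ - ψ) * hh N ψ + sin (φ - ψ) * hp N ψ := by fun_prop
    refine this.continuousAt.eventually (lt_mem_nhds ?_)
    simpa using hψ
  rw [hasDerivAt_iff_isLittleO] at hA' hB' ⊢
  simp only [smul_zero, sub_zero] at hA' hB' ⊢
  rw [Asymptotics.isLittleO_iff] at hA' hB' ⊢
  intro c hc
  filter_upwards [hA' hc, hB' hc, hpos] with φ h1 h2 h3
  rw [hAψ] at h1
  rw [hBψ] at h2
  have up : cc N φ ≤ A φ := by
    rw [hA]
    simp only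
    rw [le_div_iff₀ h3]
    exact h.cc_ineq φ ψ
  have lo : B φ ≤ cc N φ := by
    rw [hB]
    simp only
    rw [div_le_iff₀ hψ]
    have := h.cc_ineq ψ φ
    linarith
  rw [Real.norm_eq_abs, Real.norm_eq_abs] at h1 h2 ⊢
  rw [abs_le] at h1 h2 ⊢
  constructor <;> linarith [h1.1, h1.2, h2.1, h2.2]

/-- The Radon constant. -/
noncomputable def CC (N : ℝ × ℝ → ℝ) : ℝ := cc N 0

lemma cc_eq (h : RadonNorm N) (φ : ℝ) : cc N φ = CC N :=
  is_const_of_deriv_eq_zero (fun φ => (h.hasDerivAt_cc φ).differentiableAt)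
    (fun φ => (h.hasDerivAt_cc φ).deriv) φ 0

lemma CC_pos (h : RadonNorm N) : 0 < CC N := h.cc_pos 0

lemma N_rr (h : RadonNorm N) {u : ℝ × ℝ} (hu : u ≠ 0) : N (rr N u) = CC N := by
  obtain ⟨r, hr, φ, rfl⟩ := exists_dir hu
  rw [h.rr_smul (dir_ne φ) hr]
  exact h.cc_eq φ

lemma rr_rr' (h : RadonNorm N) {u : ℝ × ℝ} (hu : u ≠ 0) :
    rr N (rr N u) = (-(CC N / N u)) • u := by
  rw [h.rr_rr hu, h.N_rr hu]

lemma polar' (h : RadonNorm N) (u w : ℝ × ℝ) : CC N * Om u w ≤ N u * N w := by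
  by_cases hu : u = 0
  · rw [hu, Om_zero_left, h.1.zero]; simp
  · have := h.polar hu w
    rwa [h.N_rr hu] at this

end RadonNorm

end Pool.Agent.Helper831.PM
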