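import Pool.Agent.Helper831.PMOde

namespace Pool.Agent.Helper831.PM

open Real Set Filter Topology Metric MeasureTheory

/-- the function which is constant along lines -/
noncomputable def PP (F : ℝ × ℝ → ℝ × ℝ → ℝ) (y : ℝ × ℝ) (φ : ℝ) : ℝ :=
  HH F y φ - 2 / 3 * lC F y

/-- its clamped version -/
noncomputable def Pt (x0 : ℝ × ℝ) (R : ℝ) (F : ℝ × ℝ → ℝ × ℝ → ℝ) (φ : ℝ) (y : ℝ × ℝ) : ℝ :=
  Hcf x0 R F φ y - 2 / 3 * lCf x0 R F y

namespace Geo

variable {x0 : ℝ × ℝ} {R m Λ K : ℝ} {F : ℝ × ℝ → ℝ × ℝ → ℝ} {d : ℝ × ℝ → ℝ × ℝ → ℝ}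

lemma Pt_cont (G : Geo x0 R m Λ F d) (E : Est x0 R K F) (φ : ℝ) : Continuous (Pt x0 R F φ) :=
  (G.Hcf_cont φ).sub (continuous_const.mul (G.lCf_cont E))

lemma Pt_eq {y : ℝ × ℝ} (hy : y ∈ ball x0 (R / 2)) (φ : ℝ) : Pt x0 R F φ y = PP F y φ := by
  unfold Pt PP Hcf lCf; rw [cl_id hy]

lemma fE_tendsto (G : Geo x0 R m Λ F d) (E : Est x0 R K F) {y : ℝ × ℝ}
    (hy : y ∈ ball x0 (R / 4)) (φ : ℝ) :
    Tendsto (fun n : ℕ => fE x0 R F y (R / 32 / ((n : ℝ) + 1)) φ) atTop (𝓝 0) := by
  have hR := G.hR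
  have hy' : y ∈ ball x0 R := ball_subset_ball (by linarith) hy
  have hpos : ∀ n : ℕ, 0 < R / 32 / ((n : ℝ) + 1) := fun n => by positivity
  have hle : ∀ n : ℕ, R / 32 / ((n : ℝ) + 1) ≤ R / 32 := fun n =>
    div_le_self (by positivity) (by have : (0 : ℝ) ≤ n := Nat.cast_nonneg n; linarith)
  have hlim : Tendsto (fun n : ℕ => R / 32 / ((n : ℝ) + 1)) atTop (𝓝 0) := by
    have := tendsto_one_div_add_atTop_nhds_zero_nat (𝕜 := ℝ)
    have h2 := this.const_mul (R / 32)
    rw [mul_zero] at h2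
    refine h2.congr fun n => ?_
    ring
  refine (G.rad y hy').limit_zero (f := fun n => fE x0 R F y (R / 32 / ((n : ℝ) + 1)))
    (f' := fun n => fE' x0 R F y (R / 32 / ((n : ℝ) + 1)))
    (fun n φ => G.fE_bound E hy (hpos n) (hle n) φ) (fun n φ => G.fE_anti hy _ φ)
    (fun n φ => G.fE_deriv E hy (hpos n) (hle n) φ) ?_ φ
  intro η hη
  obtain ⟨ε0, hε0, _, h⟩ := G.ode_est E hy hη
  filter_upwards [hlim.eventually (gt_mem_nhds hε0)] with n hn φ
  exact h _ (hpos n) hn φ

lemma AA_Pt_tendsto (G : Geo x0 R m Λ F d) (E : Est x0 R K F) {y : ℝ × ℝ}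
    (hy : y ∈ ball x0 (R / 4)) (φ : ℝ) :
    Tendsto (fun n : ℕ => AA (R / 32 / ((n : ℝ) + 1)) y (dir φ) (Pt x0 R F φ)) atTop (𝓝 0) := by
  have hR := G.hR
  have hm := G.hm
  have hK := E.hK
  have hΛ := G.hΛ
  have hC := C0_nonneg
  have hy' : y ∈ ball x0 R := ball_subset_ball (by linarith) hy
  have hpos : ∀ n : ℕ, 0 < R / 32 / ((n : ℝ) + 1) := fun n => by positivity
  have hle : ∀ n : ℕ, R / 32 / ((n : ℝ) + 1) ≤ R / 32 := fun n =>
    div_le_self (by positivity) (by have : (0 : ℝ) ≤ n := Nat.cast_nonneg n; linarith)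
  have hlim : Tendsto (fun n : ℕ => R / 32 / ((n : ℝ) + 1)) atTop (𝓝 0) := by
    have := tendsto_one_div_add_atTop_nhds_zero_nat (𝕜 := ℝ)
    have h2 := this.const_mul (R / 32)
    rw [mul_zero] at h2
    refine h2.congr fun n => ?_
    ring
  set h := hh (F y) φ with hh'
  have hp : 0 < h := (G.rad y hy').hh_pos φ
  set C1 := C0 * 1 * (Λ * K ^ 2 / (m / 2) ^ 2) with hC1
  have L : Tendsto (fun n : ℕ => h * |fE x0 R F y (R / 32 / ((n : ℝ) + 1)) φ| +
      C1 / h * (R / 32 / ((n : ℝ) + 1))) atTop (𝓝 0) := by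
    have h1 := ((G.fE_tendsto E hy φ).abs).const_mul h
    have h2 := hlim.const_mul (C1 / h)
    have := h1.add h2
    simpa using this
  refine squeeze_zero_norm (fun n => ?_) L
  set ε := R / 32 / ((n : ℝ) + 1) with hε
  have h1 := G.AA_log E hy (hpos n) (hle n) φ (dir φ)
  rw [← hε, ← hh'] at h1
  have e1 : AA ε y (dir φ) (Pt x0 R F φ) = AA ε y (dir φ) (Hcf x0 R F φ) -
      2 / 3 * AA ε y (dir φ) (lCf x0 R F) := by
    have hc1 : Continuous fun y => (2 / 3 : ℝ) * lCf x0 R F y :=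
      continuous_const.mul (G.lCf_cont E)
    rw [← AA_mul_g, ← AA_sub_g (G.Hcf_cont φ) hc1]
    rfl
  have e2 : AA ε y (dir φ) (Pt x0 R F φ) = h * fE x0 R F y ε φ -
      (AA ε y (dir φ) (hcf x0 R F φ) - h * AA ε y (dir φ) (Hcf x0 R F φ)) / h := by
    rw [e1]
    unfold fE
    rw [← hh']
    field_simp
    ring
  rw [e2, Real.norm_eq_abs]
  refine (abs_sub _ _).trans ?_
  rw [abs_mul, abs_of_pos hp, abs_div, abs_of_pos hp]
  refine add_le_add le_rfl ?_
  have h2 : C0 * ‖dir φ‖ * (Λ * K ^ 2 / (m / 2) ^ 2 * ε) ≤ C1 * ε := by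
    have := norm_dir_le φ
    have hε0 := (hpos n).le
    rw [hC1]
    calc C0 * ‖dir φ‖ * (Λ * K ^ 2 / (m / 2) ^ 2 * ε) ≤
        C0 * 1 * (Λ * K ^ 2 / (m / 2) ^ 2 * ε) := by gcongr
      _ = _ := by ring
  calc |AA ε y (dir φ) (hcf x0 R F φ) - h * AA ε y (dir φ) (Hcf x0 R F φ)| / h ≤ C1 * ε / h := by
        gcongr
        exact h1.trans h2
    _ = _ := by ring

lemma Pt_lip (G : Geo x0 R m Λ F d) (E : Est x0 R K F) {x y : ℝ × ℝ}
    (hx : x ∈ ball x0 (R / 2)) (hy : y ∈ ball x0 (R / 2)) (φ : ℝ) :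
    |Pt x0 R F φ y - Pt x0 R F φ x| ≤ (2 * K / m + 4 * K / m) * ‖y - x‖ := by
  have hR := G.hR
  have hm := G.hm
  have hK := E.hK
  have hsub : ball x0 (R / 2) ⊆ ball x0 R := ball_subset_ball (by linarith)
  rw [Pt_eq hx, Pt_eq hy]
  have h1 := G.HH_lip E (hsub hx) (hsub hy) φ
  have h2 := G.lC_lip E (hsub hx) (hsub hy)
  have e : PP F y φ - PP F x φ = (HH F y φ - HH F x φ) - 2 / 3 * (lC F y - lC F x) := by
    unfold PP; ring
  rw [e]
  refine (abs_sub _ _).trans ?_
  rw [abs_mul]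
  have e3 : |(2 / 3 : ℝ)| = 2 / 3 := by norm_num
  rw [e3]
  have : 2 / 3 * |lC F y - lC F x| ≤ 4 * K / m * ‖y - x‖ := by
    have := abs_nonneg (lC F y - lC F x)
    linarith
  linarith

/-- **Key step**: `log F - (2/3) log C` is locally constant along lines. -/
lemma PP_const (G : Geo x0 R m Λ F d) (E : Est x0 R K F) {x : ℝ × ℝ} {t φ : ℝ} (ht : 0 ≤ t)
    (hx : x ∈ ball x0 (R / 4)) (hy : x + t • dir φ ∈ ball x0 (R / 4)) :
    PP F (x + t • dir φ) φ = PP F x φ := by
  have hR := G.hR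
  have hm := G.hm
  have hK := E.hK
  have hC := C0_nonneg
  set P := Pt x0 R F φ with hP
  have hPc : Continuous P := G.Pt_cont E φ
  have hpos : ∀ n : ℕ, 0 < R / 32 / ((n : ℝ) + 1) := fun n => by positivity
  have hle : ∀ n : ℕ, R / 32 / ((n : ℝ) + 1) ≤ R / 32 := fun n =>
    div_le_self (by positivity) (by have : (0 : ℝ) ≤ n := Nat.cast_nonneg n; linarith)
  have hlim : Tendsto (fun n : ℕ => R / 32 / ((n : ℝ) + 1)) atTop (𝓝 0) := by
    have := tendsto_one_div_add_atTop_nhds_zero_nat (𝕜 := ℝ)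
    have h2 := this.const_mul (R / 32)
    rw [mul_zero] at h2
    refine h2.congr fun n => ?_
    ring
  have hmem : ∀ s ∈ Icc 0 t, x + s • dir φ ∈ ball x0 (R / 4) := by
    intro s hs
    exact line_mem (s1 := 0) (s2 := t) (by rw [zero_smul, add_zero]; exact hx) hy hs.1 hs.2
  -- mollified function along the line
  set p : ℝ → ℝ → ℝ := fun ε s => ∫ z : ℝ × ℝ, P (x + s • dir φ + ε • z) * mol z with hp
  have hpd : ∀ ε : ℝ, 0 < ε → ∀ s : ℝ, HasDerivAt (p ε) (AA ε (x + s • dir φ) (dir φ) P) s := by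
    intro ε hε s
    have hcx : Continuous fun z : ℝ × ℝ => x + ε • z := by fun_prop
    have h1 := hasDerivAt_TR (g := fun z => P (x + ε • z)) (hPc.comp hcx) (dir φ) (s / ε)
    have l1 : HasDerivAt (fun s : ℝ => s / ε) ε⁻¹ s := by
      have := (hasDerivAt_id s).div_const ε
      simpa using this
    have h2 := HasDerivAt.comp (h₂ := fun t : ℝ => ∫ z, P (x + ε • (z + t • dir φ)) * mol z)
      (h := fun s : ℝ => s / ε) s h1 l1
    have e : ∀ (s : ℝ) (z : ℝ × ℝ), x + ε • (z + (s / ε) • dir φ) = x + s • dir φ + ε • z := by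
      intro s z
      rw [smul_add, smul_smul, mul_div_cancel₀ _ hε.ne']; abel
    have e1 : (fun t : ℝ => ∫ z, P (x + ε • (z + t • dir φ)) * mol z) ∘ (fun s : ℝ => s / ε) =
        p ε := by
      funext s
      simp only [Function.comp, hp, e]
    rw [e1] at h2
    refine h2.congr_deriv ?_
    unfold AA
    simp only [e]
    ring
  -- bound of P
  obtain ⟨M, hM0, hM⟩ := bound_on hPc (‖x0‖ + R)
  have hMg : ∀ y, |P y| ≤ M := by
    intro y
    have h1 : P y = P (cl x0 (R / 2) y) := by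
      have h2 : cl x0 (R / 2) (cl x0 (R / 2) y) = cl x0 (R / 2) y :=
        cl_eq (cl_mem x0 (by linarith) y)
      simp only [hP, Pt, Hcf, lCf, h2]
    rw [h1]
    apply hM
    have := G.cl_in y
    rw [mem_ball, dist_eq_norm] at this
    have h3 : cl x0 (R / 2) y = x0 + (cl x0 (R / 2) y - x0) := by abel
    rw [h3]
    linarith [norm_add_le x0 (cl x0 (R / 2) y - x0)]
  have hAc : ∀ ε : ℝ, 0 < ε → Continuous fun s : ℝ => AA ε (x + s • dir φ) (dir φ) P := by
    intro ε hε
    unfold AA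
    refine continuous_const.mul ?_
    have hI : Integrable fun z => ‖fderiv ℝ mol z‖ :=
      int_of_zero fderiv_mol_cont.norm (ρ := 1) fun z hz => by rw [fderiv_mol_zero hz, norm_zero]
    refine continuous_of_dominated (bound := fun z => M * ‖fderiv ℝ mol z‖) ?_ ?_ ?_ ?_
    · intro s
      refine (Continuous.mul ?_ (dm_cont (dir φ))).aestronglyMeasurable
      exact hPc.comp (by fun_prop)
    · intro s
      refine Eventually.of_forall fun z => ?_
      have h2 : |dm z (dir φ)| ≤ ‖fderiv ℝ mol z‖ := by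
        have := (fderiv ℝ mol z).le_opNorm (dir φ)
        rw [Real.norm_eq_abs] at this
        refine this.trans ?_
        have := norm_dir_le φ
        nlinarith [norm_nonneg (fderiv ℝ mol z)]
      rw [norm_mul, Real.norm_eq_abs, Real.norm_eq_abs]
      have := hMg (x + s • dir φ + ε • z)
      gcongr
    · exact hI.const_mul M
    · refine Eventually.of_forall fun z => ?_
      refine Continuous.mul ?_ continuous_const
      exact hPc.comp (by fun_prop)
  have hFTC : ∀ n : ℕ, p (R / 32 / ((n : ℝ) + 1)) t - p (R / 32 / ((n : ℝ) + 1)) 0 =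
      ∫ s in (0 : ℝ)..t, AA (R / 32 / ((n : ℝ) + 1)) (x + s • dir φ) (dir φ) P := by
    intro n
    refine (intervalIntegral.integral_eq_sub_of_hasDerivAt (fun s _ => hpd _ (hpos n) s) ?_).symm
    exact (hAc _ (hpos n)).intervalIntegrable _ _
  have hDC : Tendsto (fun n : ℕ => ∫ s in (0 : ℝ)..t,
      AA (R / 32 / ((n : ℝ) + 1)) (x + s • dir φ) (dir φ) P) atTop (𝓝 0) := by
    have key : Tendsto (fun n : ℕ => ∫ s in (0 : ℝ)..t,
        AA (R / 32 / ((n : ℝ) + 1)) (x + s • dir φ) (dir φ) P) atTop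
        (𝓝 (∫ _ in (0 : ℝ)..t, (0 : ℝ))) := by
      refine intervalIntegral.tendsto_integral_filter_of_dominated_convergence
        (fun _ => C0 * (2 * K / m + 4 * K / m)) ?_ ?_ ?_ ?_
      · exact Eventually.of_forall fun n => (hAc _ (hpos n)).aestronglyMeasurable
      · refine Eventually.of_forall fun n => Eventually.of_forall fun s hs => ?_
        rw [uIoc_of_le ht] at hs
        have hs' := hmem s ⟨hs.1.le, hs.2⟩
        have h1 := AA_bound hPc (ε := R / 32 / ((n : ℝ) + 1)) (L := 2 * K / m + 4 * K / m) (hpos n)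
          (x := x + s • dir φ) (dir φ) (fun y hy => by
            refine (G.Pt_lip E (ball_subset_ball (by linarith) hs') (near_mem hR hs' (hle n) hy)
              φ).trans ?_
            gcongr)
        rw [Real.norm_eq_abs]
        refine h1.trans ?_
        have := norm_dir_le φ
        have h3 : C0 * ‖dir φ‖ ≤ C0 * 1 := by gcongr
        rw [mul_one] at h3
        gcongr
      · exact _root_.intervalIntegrable_const
      · refine Eventually.of_forall fun s hs => ?_
        rw [uIoc_of_le ht] at hs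
        exact G.AA_Pt_tendsto E (hmem s ⟨hs.1.le, hs.2⟩) φ
    simpa using key
  have hpl : ∀ s ∈ Icc 0 t, Tendsto (fun n : ℕ => p (R / 32 / ((n : ℝ) + 1)) s) atTop
      (𝓝 (P (x + s • dir φ))) := by
    intro s hs
    have hs' := hmem s hs
    rw [tendsto_iff_norm_sub_tendsto_zero]
    have L : Tendsto (fun n : ℕ => (2 * K / m + 4 * K / m) * (R / 32 / ((n : ℝ) + 1))) atTop
        (𝓝 0) := by
      have := hlim.const_mul (2 * K / m + 4 * K / m)
      simpa using this
    refine squeeze_zero (fun n => norm_nonneg _) (fun n => ?_) L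
    set ε := R / 32 / ((n : ℝ) + 1) with hε
    have hint : Integrable fun z => P (x + s • dir φ + ε • z) * mol z :=
      int_of_zero (Continuous.mul (hPc.comp (by fun_prop)) mol_cont) (ρ := 1) fun z hz => by
        rw [mol_zero hz.le, mul_zero]
    have hint2 : Integrable mol := int_of_zero mol_cont (ρ := 1) fun z hz => mol_zero hz.le
    have e1 : p ε s - P (x + s • dir φ) =
        ∫ z, (P (x + s • dir φ + ε • z) - P (x + s • dir φ)) * mol z := by
      have h1 : P (x + s • dir φ) = ∫ z, P (x + s • dir φ) * mol z := by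
        rw [integral_const_mul, mol_integral, mul_one]
      have h2 : ∫ z, (P (x + s • dir φ + ε • z) - P (x + s • dir φ)) * mol z =
          (∫ z, P (x + s • dir φ + ε • z) * mol z) - ∫ z, P (x + s • dir φ) * mol z := by
        rw [← integral_sub hint (hint2.const_mul _)]
        congr 1
        ext z
        ring
      rw [h2, ← h1]
    rw [e1]
    have := norm_integral_le_of_norm_le (μ := (volume : Measure (ℝ × ℝ)))
      (f := fun z => (P (x + s • dir φ + ε • z) - P (x + s • dir φ)) * mol z)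
      (g := fun z => (2 * K / m + 4 * K / m) * ε * mol z) (hint2.const_mul _)
      (Eventually.of_forall fun z => by
        rw [norm_mul, Real.norm_eq_abs, Real.norm_eq_abs, abs_of_nonneg (mol_nonneg z)]
        by_cases hz : ‖z‖ ≤ 1
        · have hn : ‖x + s • dir φ + ε • z - (x + s • dir φ)‖ ≤ ε := by
            rw [add_sub_cancel_left, norm_smul, Real.norm_eq_abs, abs_of_pos (hpos n)]
            have := hpos n
            nlinarith
          have h1 := G.Pt_lip E (ball_subset_ball (by linarith) hs')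
            (near_mem hR hs' (hle n) hn) φ
          have h2 : (2 * K / m + 4 * K / m) * ‖x + s • dir φ + ε • z - (x + s • dir φ)‖ ≤
            (2 * K / m + 4 * K / m) * ε := by gcongr
          exact mul_le_mul_of_nonneg_right (h1.trans h2) (mol_nonneg z)
        · rw [mol_zero (not_le.1 hz).le]; simp)
    rw [integral_const_mul, mol_integral, mul_one] at this
    exact this
  have L1 := (hpl t ⟨ht, le_rfl⟩).sub (hpl 0 ⟨le_rfl, ht⟩)
  have L2 : Tendsto (fun n : ℕ => p (R / 32 / ((n : ℝ) + 1)) t - p (R / 32 / ((n : ℝ) + 1)) 0)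
      atTop (𝓝 0) := by
    refine hDC.congr fun n => (hFTC n).symm
  have := tendsto_nhds_unique L1 L2
  rw [zero_smul, add_zero] at this
  have h1 : P (x + t • dir φ) = PP F (x + t • dir φ) φ :=
    Pt_eq (ball_subset_ball (by linarith) hy) φ
  have h2 : P x = PP F x φ := Pt_eq (ball_subset_ball (by linarith) hx) φ
  rw [← h1, ← h2]
  linarith

end Geo

end Pool.Agent.Helper831.PM
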