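import Pool.Agent.Helper831.PMPole

namespace Pool.Agent.Helper831.PM

open Real Set Filter Topology Metric

/-! ### Euclidean criterion -/

/-- Euclidean norm: square root of a positive definite quadratic form. -/
def IsEuclid (N : ℝ × ℝ → ℝ) : Prop :=
  ∃ a b c : ℝ, 0 < a ∧ 0 < a * c - b ^ 2 ∧
    ∀ u, N u ^ 2 = a * u.1 ^ 2 + 2 * b * u.1 * u.2 + c * u.2 ^ 2

lemma RadonNorm.rr_ne_smul {N : ℝ × ℝ → ℝ} (h : RadonNorm N) {u : ℝ × ℝ} (hu : u ≠ 0) {c : ℝ}
    (hc : c ≠ 0) : ∃ d : ℝ, d ≠ 0 ∧ rr N (c • u) = d • rr N u := by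
  rcases lt_or_gt_of_ne hc with h1 | h1
  · refine ⟨-1, by norm_num, ?_⟩
    have e : c • u = (-c) • (-u) := by module
    rw [e, h.rr_smul (neg_ne_zero.2 hu) (by linarith), h.rr_neg hu]
    module
  · exact ⟨1, one_ne_zero, by rw [h.rr_smul hu h1, one_smul]⟩

lemma RadonNorm.rr_inj {N : ℝ × ℝ → ℝ} (h : RadonNorm N) {u v : ℝ × ℝ} (hu : u ≠ 0) (hv : v ≠ 0)
    (hO : Om (rr N u) (rr N v) = 0) : Om u v = 0 := by
  obtain ⟨c, hc⟩ := parallel_of_Om (h.rr_ne hu) hO
  have hc0 : c ≠ 0 := by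
    rintro rfl
    rw [zero_smul] at hc
    exact h.rr_ne hv hc
  obtain ⟨d, _, hd⟩ := h.rr_ne_smul (h.rr_ne hu) hc0
  have h1 := h.rr_rr' hv
  rw [hc, hd, h.rr_rr' hu, smul_smul] at h1
  have h2 := congrArg (Om u) h1
  rw [Om_smul_right, Om_smul_right, Om_self, mul_zero] at h2
  have h3 : -(CC N / N v) ≠ 0 := neg_ne_zero.2 (div_pos h.CC_pos (h.1.pos hv)).ne'
  rcases mul_eq_zero.1 h2.symm with h4 | h4
  · exact absurd h4 h3
  · exact h4

lemma euclid_of_linear {N : ℝ × ℝ → ℝ} (h : RadonNorm N) (L : (ℝ × ℝ) →L[ℝ] (ℝ × ℝ))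
    (hL0 : ∀ u, u ≠ 0 → L u ≠ 0) (hL : ∀ u, u ≠ 0 → Om (rr N u) (L u) = 0) : IsEuclid N := by
  -- proportionality
  have hm : ∀ u, u ≠ 0 → ∃ m : ℝ, rr N u = m • L u := by
    intro u hu
    exact parallel_of_Om (hL0 u hu) (by rw [Om_swap, hL u hu, neg_zero])
  choose! m hm using hm
  have hB : ∀ u, u ≠ 0 → m u * Om u (L u) = N u := by
    intro u hu
    have := h.Om_rr hu
    rwa [hm u hu, Om_smul_right] at this
  have hB0 : ∀ u, u ≠ 0 → Om u (L u) ≠ 0 := by
    intro u hu h0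
    have := hB u hu
    rw [h0, mul_zero] at this
    exact (h.1.pos hu).ne this
  have hm0 : ∀ u, u ≠ 0 → m u ≠ 0 := by
    intro u hu h0
    have := hB u hu
    rw [h0, zero_mul] at this
    exact (h.1.pos hu).ne this
  have hLe : ∀ u : ℝ × ℝ, L u = u.1 • L (1, 0) + u.2 • L (0, 1) := by
    intro u
    have e : u = u.1 • ((1, 0) : ℝ × ℝ) + u.2 • ((0, 1) : ℝ × ℝ) := by ext <;> simp
    conv_lhs => rw [e]
    rw [map_add, map_smul, map_smul]
  -- trace zero
  have htr : (L (1, 0)).1 + (L (0, 1)).2 = 0 := by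
    have h10 : ((1, 0) : ℝ × ℝ) ≠ 0 := by simp
    have h1 := h.rr_rr' h10
    obtain ⟨d, hd0, hd⟩ := h.rr_ne_smul (hL0 _ h10) (hm0 _ h10)
    rw [hm _ h10, hd, hm _ (hL0 _ h10), smul_smul] at h1
    have h2 := congrArg (Om (1, 0)) h1
    rw [Om_smul_right, Om_smul_right, Om_self, mul_zero] at h2
    have h3 : d * m (L (1, 0)) ≠ 0 := mul_ne_zero hd0 (hm0 _ (hL0 _ h10))
    have h4 : Om (1, 0) (L (L (1, 0))) = 0 := (mul_eq_zero.1 h2).resolve_left h3
    rw [hLe (L (1, 0))] at h4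
    have h5 : (L (1, 0)).2 ≠ 0 := by
      have := hB0 _ h10
      simpa [Om] using this
    have h6 : (L (1, 0)).2 * ((L (1, 0)).1 + (L (0, 1)).2) = 0 := by
      have e : Om (1, 0) ((L (1, 0)).1 • L (1, 0) + (L (1, 0)).2 • L (0, 1)) =
        (L (1, 0)).2 * ((L (1, 0)).1 + (L (0, 1)).2) := by
        simp only [Om, Prod.fst_add, Prod.snd_add, Prod.smul_fst, Prod.smul_snd, smul_eq_mul]
        ring
      rw [← e]; exact h4
    exact (mul_eq_zero.1 h6).resolve_left h5
  have hsym : ∀ u w : ℝ × ℝ, Om u (L w) = Om w (L u) := by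
    intro u w
    rw [hLe u, hLe w]
    simp only [Om, Prod.fst_add, Prod.snd_add, Prod.smul_fst, Prod.smul_snd, smul_eq_mul]
    have : (L (0, 1)).2 = - (L (1, 0)).1 := by linarith
    rw [this]; ring
  -- the quotient is constant
  have hquot : ∀ φ, HasDerivAt (fun φ => hh N φ ^ 2 / Om (dir φ) (L (dir φ))) 0 φ := by
    intro φ
    have hu := dir_ne φ
    have d1 := (h.hasDerivAt_hh φ).pow 2
    have dL : HasDerivAt (fun φ => L (dir φ)) (L (nor φ)) φ :=
      L.hasFDerivAt.comp_hasDerivAt φ (hasDerivAt_dir φ)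
    have d2 : HasDerivAt (fun φ => Om (dir φ) (L (dir φ))) (2 * Om (nor φ) (L (dir φ))) φ := by
      have a1 : HasDerivAt (fun φ => (dir φ).1) (nor φ).1 φ := (hasDerivAt_dir φ).fst
      have a2 : HasDerivAt (fun φ => (dir φ).2) (nor φ).2 φ := (hasDerivAt_dir φ).snd
      have a3 : HasDerivAt (fun φ => (L (dir φ)).1) (L (nor φ)).1 φ := dL.fst
      have a4 : HasDerivAt (fun φ => (L (dir φ)).2) (L (nor φ)).2 φ := dL.snd
      have := (a1.mul a4).sub (a2.mul a3)
      refine this.congr_deriv ?_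
      have e := hsym (dir φ) (nor φ)
      have e2 : (nor φ).1 * (L (dir φ)).2 + (dir φ).1 * (L (nor φ)).2 -
          ((nor φ).2 * (L (dir φ)).1 + (dir φ).2 * (L (nor φ)).1) =
          Om (nor φ) (L (dir φ)) + Om (dir φ) (L (nor φ)) := by unfold Om; ring
      rw [e2, e]; ring
    refine (d1.div d2 (hB0 _ hu)).congr_deriv ?_
    have e1 : hh N φ = m (dir φ) * Om (dir φ) (L (dir φ)) := (hB _ hu).symm
    have e2 : hp N φ = m (dir φ) * Om (nor φ) (L (dir φ)) := by
      unfold hp; rw [dN_eq_Om, hm _ hu, Om_smul_right]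
    simp only [Pi.pow_apply]
    rw [e1, e2, div_eq_zero_iff]
    left
    have e5 : (2 - 1 : ℕ) = 1 := rfl
    rw [e5, pow_one]
    push_cast
    ring
  have hconst : ∀ φ, hh N φ ^ 2 / Om (dir φ) (L (dir φ)) =
      hh N 0 ^ 2 / Om (dir 0) (L (dir 0)) := fun φ =>
    is_const_of_deriv_eq_zero (fun φ => (hquot φ).differentiableAt) (fun φ => (hquot φ).deriv) φ 0
  set k := hh N 0 ^ 2 / Om (dir 0) (L (dir 0)) with hk
  have hN : ∀ u, N u ^ 2 = k * Om u (L u) := by
    intro u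
    by_cases hu : u = 0
    · rw [hu, h.1.zero, Om_zero_left]; ring
    obtain ⟨r, hr, φ, rfl⟩ := exists_dir hu
    have h1 := hconst φ
    rw [div_eq_iff (hB0 _ (dir_ne φ))] at h1
    rw [h.1.smul, abs_of_pos hr, map_smul, Om_smul_left, Om_smul_right]
    have : N (dir φ) = hh N φ := rfl
    rw [this]
    linear_combination r ^ 2 * h1
  refine ⟨k * (L (1, 0)).2, k * (- (L (1, 0)).1), k * (- (L (0, 1)).1), ?_, ?_, fun u => ?_⟩
  · have h10 : ((1, 0) : ℝ × ℝ) ≠ 0 := by simp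
    have h1 := hN (1, 0)
    have h2 := h.1.pos h10
    have e : Om (1, 0) (L (1, 0)) = (L (1, 0)).2 := by simp [Om]
    rw [e] at h1
    rw [← h1]; positivity
  · -- discriminant
    have h22 : (L (0, 1)).2 = - (L (1, 0)).1 := by linarith
    set l11 := (L (1, 0)).1 with h11
    set l21 := (L (1, 0)).2 with h21
    set l12 := (L (0, 1)).1 with h12
    have ha : 0 < k * l21 := by
      have h10 : ((1, 0) : ℝ × ℝ) ≠ 0 := by simp
      have h1 := hN (1, 0)
      have h2 := h.1.pos h10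
      have e : Om (1, 0) (L (1, 0)) = l21 := by simp [Om, h21]
      rw [e] at h1
      rw [← h1]; positivity
    have hv : ((l11, l21) : ℝ × ℝ) ≠ 0 := by
      intro h0
      rw [Prod.mk_eq_zero] at h0
      rw [h0.2, mul_zero] at ha
      exact lt_irrefl _ ha
    have h1 := hN (l11, l21)
    have h2 := h.1.pos hv
    have e : Om (l11, l21) (L (l11, l21)) = -(l21) * (l11 ^ 2 + l12 * l21) := by
      rw [hLe (l11, l21)]
      simp only [Om, Prod.fst_add, Prod.snd_add, Prod.smul_fst, Prod.smul_snd, smul_eq_mul]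
      rw [h22, ← h11, ← h21, ← h12]; ring
    rw [e] at h1
    have h3 : 0 < k * (-(l21) * (l11 ^ 2 + l12 * l21)) := by rw [← h1]; positivity
    have h4 : 0 < -(k * l21 * (l11 ^ 2 + l12 * l21)) := by linarith
    have h5 : l11 ^ 2 + l12 * l21 < 0 := by
      by_contra hc
      push Not at hc
      have := mul_nonneg ha.le hc
      linarith
    have hk0 : k ≠ 0 := by
      intro h0; rw [h0, zero_mul] at ha; exact lt_irrefl _ ha
    have : k * l21 * (k * -l12) - (k * -l11) ^ 2 = k ^ 2 * (-(l11 ^ 2 + l12 * l21)) := by ring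
    rw [this]
    exact mul_pos (by positivity) (by linarith)
  · rw [hN, hLe u]
    have h22 : (L (0, 1)).2 = - (L (1, 0)).1 := by linarith
    simp only [Om, Prod.fst_add, Prod.snd_add, Prod.smul_fst, Prod.smul_snd, smul_eq_mul]
    rw [h22]; ring

/-! ### Three dimensional linear algebra -/

def det3 (A B C : (ℝ × ℝ) × ℝ) : ℝ := Om A.1 B.1 * C.2 + Om B.1 C.1 * A.2 + Om C.1 A.1 * B.2

noncomputable def pi3 (D : (ℝ × ℝ) →L[ℝ] ℝ) (s : ℝ) (z : ℝ × ℝ) (C : (ℝ × ℝ) × ℝ) : ℝ :=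
  D C.1 + (s - D z) * C.2

noncomputable def LL (D : (ℝ × ℝ) →L[ℝ] ℝ) (s : ℝ) (z q : ℝ × ℝ) : (ℝ × ℝ) × ℝ :=
  (q - (D q / s) • z, -(D q) / s)

lemma clm_coord (D : (ℝ × ℝ) →L[ℝ] ℝ) (u : ℝ × ℝ) : D u = u.1 * D (1, 0) + u.2 * D (0, 1) := by
  have e : u = u.1 • ((1, 0) : ℝ × ℝ) + u.2 • ((0, 1) : ℝ × ℝ) := by ext <;> simp
  conv_lhs => rw [e]
  rw [map_add, map_smul, map_smul, smul_eq_mul, smul_eq_mul]

lemma det3_LL (D : (ℝ × ℝ) →L[ℝ] ℝ) {s : ℝ} (hs : s ≠ 0) (z q1 q2 : ℝ × ℝ)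
    (C : (ℝ × ℝ) × ℝ) : det3 (LL D s z q1) (LL D s z q2) C = Om q1 q2 / s * pi3 D s z C := by
  unfold det3 LL pi3
  rw [clm_coord D q1, clm_coord D q2, clm_coord D z, clm_coord D C.1]
  simp only [Om, Prod.fst_sub, Prod.snd_sub, Prod.smul_fst, Prod.smul_snd, smul_eq_mul]
  field_simp
  ring

lemma LL_add (D : (ℝ × ℝ) →L[ℝ] ℝ) (s : ℝ) (z q1 q2 : ℝ × ℝ) (a b : ℝ) :
    LL D s z (a • q1 + b • q2) = a • LL D s z q1 + b • LL D s z q2 := by
  unfold LL
  rw [map_add, map_smul, map_smul, smul_eq_mul, smul_eq_mul]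
  ext
  · simp; ring
  · simp; ring
  · simp; ring

lemma coplanar (D : (ℝ × ℝ) →L[ℝ] ℝ) {s : ℝ} (hs : s ≠ 0) (z : ℝ × ℝ) {A B C : (ℝ × ℝ) × ℝ}
    (hA : pi3 D s z A = 0) (hB : pi3 D s z B = 0) (hC : pi3 D s z C = 0) : det3 A B C = 0 := by
  unfold pi3 at hA hB hC
  rw [clm_coord D A.1] at hA
  rw [clm_coord D B.1] at hB
  rw [clm_coord D C.1] at hC
  set d1 := D (1, 0) with hd1
  set d2 := D (0, 1) with hd2
  set k := s - D z with hk
  have e1 : d1 * det3 A B C = 0 := by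
    unfold det3 Om
    linear_combination (B.1.2 * C.2 - B.2 * C.1.2) * hA - (A.1.2 * C.2 - A.2 * C.1.2) * hB +
      (A.1.2 * B.2 - A.2 * B.1.2) * hC
  have e2 : d2 * det3 A B C = 0 := by
    unfold det3 Om
    linear_combination -(B.1.1 * C.2 - B.2 * C.1.1) * hA + (A.1.1 * C.2 - A.2 * C.1.1) * hB -
      (A.1.1 * B.2 - A.2 * B.1.1) * hC
  have e3 : k * det3 A B C = 0 := by
    unfold det3 Om
    linear_combination (B.1.1 * C.1.2 - B.1.2 * C.1.1) * hA - (A.1.1 * C.1.2 - A.1.2 * C.1.1) * hB +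
      (A.1.1 * B.1.2 - A.1.2 * B.1.1) * hC
  have e4 : s * det3 A B C = 0 := by
    have : s = k + (z.1 * d1 + z.2 * d2) := by rw [hk, clm_coord D z]; ring
    rw [this]
    linear_combination e3 + z.1 * e1 + z.2 * e2
  exact (mul_eq_zero.1 e4).resolve_left hs

lemma det3_expand (P A B C : (ℝ × ℝ) × ℝ) (α β α' β' α'' β'' : ℝ) :
    det3 (α • P + β • A) (α' • P + β' • B) (α'' • P + β'' • C) =
      β * β' * β'' * det3 A B C + α * β' * β'' * det3 P B C - β * α' * β'' * det3 P A C +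
      β * β' * α'' * det3 P A B := by
  unfold det3 Om
  simp only [Prod.fst_add, Prod.snd_add, Prod.smul_fst, Prod.smul_snd, smul_eq_mul]
  ring

lemma additive_linear {g : ℝ → ℝ} (hc : Continuous g) (ha : ∀ x y, g (x + y) = g x + g y)
    (y : ℝ) : g y = y * g 1 := by
  let f : ℝ →+ ℝ := AddMonoidHom.mk' g ha
  have h := map_real_smul f hc y 1
  simp only [smul_eq_mul, mul_one] at h
  exact h

namespace PG

variable {M : Set (ℝ × ℝ)} {G : ℝ × ℝ → ℝ × ℝ → ℝ}

/-- the pole of a line -/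
noncomputable def pole (G : ℝ × ℝ → ℝ × ℝ → ℝ) (x u : ℝ × ℝ) : (ℝ × ℝ) × ℝ :=
  (rr (G x) u + p0 G x u • x, p0 G x u)

lemma pole_eq (h : PG M G) {x u : ℝ × ℝ} (hx : x ∈ M) (hu : u ≠ 0) :
    pole G x u = LL (ds G x) (sg G x) x (rr (G x) u) := by
  have hs := (h.sg_pos hx).ne'
  unfold pole LL
  rw [h.ds_rr hx hu]
  have e1 : -(sg G x * p0 G x u) / sg G x = - p0 G x u := by field_simp
  have e2 : - -(sg G x * p0 G x u) / sg G x = p0 G x u := by field_simp
  rw [e1, e2, neg_smul, sub_neg_eq_add]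

lemma pole_line (h : PG M G) {x u : ℝ × ℝ} (hx : x ∈ M) (hu : u ≠ 0) {t : ℝ}
    (hy : x + t • u ∈ M) : pole G (x + t • u) u = pole G x u := by
  unfold pole
  rw [h.rr_line hx hu hy, h.p0_line hx hu hy]
  congr 1
  module

lemma pi3_pole (h : PG M G) {x u : ℝ × ℝ} (hx : x ∈ M) (hu : u ≠ 0) :
    pi3 (ds G x) (sg G x) x (pole G x u) = 0 := by
  unfold pi3 pole
  simp only
  rw [map_add, map_smul, smul_eq_mul, h.ds_rr hx hu]
  ring

lemma rr_line_cont (h : PG M G) {z e e1 : ℝ × ℝ} (hz : z ∈ M) (hne : ∀ t : ℝ, e1 + t • e ≠ 0) :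
    Continuous fun t : ℝ => rr (G z) (e1 + t • e) := by
  rw [continuous_iff_continuousAt]
  intro t
  have g : ContinuousAt (fun t : ℝ => (z, e1 + t • e)) t := by fun_prop
  exact ContinuousAt.comp (f := fun t : ℝ => (z, e1 + t • e)) (x := t)
    (h.rr_cont hz (hne t)) g

/-- Main geometric lemma: if the polars of two points differ, the norm is Euclidean. -/
lemma euclid_at (h : PG M G) {z z' : ℝ × ℝ} (hz : z ∈ M) (hz' : z' ∈ M) {q0 : ℝ × ℝ}
    (hpi : pi3 (ds G z) (sg G z) z (LL (ds G z') (sg G z') z' q0) ≠ 0) : IsEuclid (G z) := by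
  have rz := h.rad z hz
  have rz' := h.rad z' hz'
  have sz := h.sg_pos hz
  have sz' := h.sg_pos hz'
  obtain ⟨e, he⟩ : ∃ e, e = z' - z := ⟨_, rfl⟩
  have he0 : e ≠ 0 := by
    intro h0
    have hzz : z' = z := by rw [h0] at he; exact (sub_eq_zero.1 he.symm)
    apply hpi
    rw [hzz]
    unfold pi3 LL
    simp only
    rw [map_sub, map_smul, smul_eq_mul]
    field_simp
    ring
  set w := z + (1 / 2 : ℝ) • e with hw
  have hwM : w ∈ M := by
    have := h.cv hz hz' (by norm_num : (0 : ℝ) ≤ 1 / 2) (by norm_num : (0 : ℝ) ≤ 1 / 2)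
      (by norm_num)
    have e2 : w = (1 / 2 : ℝ) • z + (1 / 2 : ℝ) • z' := by rw [hw, he]; module
    rw [e2]; exact this
  have rw' := h.rad w hwM
  have sw := h.sg_pos hwM
  obtain ⟨e1, he1⟩ := exists_Om_one he0
  have hne : ∀ t : ℝ, e1 + t • e ≠ 0 := by
    intro t h0
    have := congrArg (Om e) h0
    rw [Om_add_right, Om_smul_right, Om_self, Om_zero_right, he1] at this
    norm_num at this
  -- bases
  obtain ⟨qe, hqe⟩ : ∃ q, q = rr (G z) e := ⟨_, rfl⟩
  obtain ⟨qe', hqe'⟩ : ∃ q, q = rr (G z') e := ⟨_, rfl⟩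
  obtain ⟨qw, hqw⟩ : ∃ q, q = rr (G w) e := ⟨_, rfl⟩
  have hqe0 : qe ≠ 0 := by rw [hqe]; exact rz.rr_ne he0
  have hqe'0 : qe' ≠ 0 := by rw [hqe']; exact rz'.rr_ne he0
  have hqw0 : qw ≠ 0 := by rw [hqw]; exact rw'.rr_ne he0
  obtain ⟨a, ha⟩ := exists_Om_one hqe0
  obtain ⟨a', ha'⟩ := exists_Om_one hqe'0
  obtain ⟨aw, haw⟩ := exists_Om_one hqw0
  set P := pole G z e with hP
  have hP' : P = pole G z' e := by
    have := h.pole_line hz he0 (t := 1) (by
      have : z + (1 : ℝ) • e = z' := by rw [he]; module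
      rw [this]; exact hz')
    have e2 : z + (1 : ℝ) • e = z' := by rw [he]; module
    rw [e2] at this
    rw [hP, this]
  have hPw : P = pole G w e := by
    have := h.pole_line hz he0 (t := 1 / 2) (by rw [← hw]; exact hwM)
    rw [← hw] at this
    rw [hP, this]
  set A := LL (ds G z) (sg G z) z a with hA
  set A' := LL (ds G z') (sg G z') z' a' with hA'
  set Aw := LL (ds G w) (sg G w) w aw with hAw
  have hPz : P = LL (ds G z) (sg G z) z qe := by rw [hP, h.pole_eq hz he0, hqe]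
  have hPz' : P = LL (ds G z') (sg G z') z' qe' := by rw [hP', h.pole_eq hz' he0, hqe']
  have hPzw : P = LL (ds G w) (sg G w) w qw := by rw [hPw, h.pole_eq hwM he0, hqw]
  -- general decomposition
  have dec : ∀ {y : ℝ × ℝ} (_ : y ∈ M) {q b B : ℝ × ℝ} (_ : True) {P' A0 : (ℝ × ℝ) × ℝ},
      Om q b = 1 → P' = LL (ds G y) (sg G y) y q → A0 = LL (ds G y) (sg G y) y b →
      LL (ds G y) (sg G y) y B = Om B b • P' + Om q B • A0 := by
    intro y _ q b B _ P' A0 h1 h2 h3
    have e2 := Om_decomp (u := q) (v := b) (by rw [h1]; norm_num) B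
    rw [h1, div_one, div_one] at e2
    conv_lhs => rw [e2]
    rw [LL_add, h2, h3]
  -- k3 is nonzero
  set k0 := det3 A A' Aw with hk0
  set k1 := det3 P A' Aw with hk1
  set k2 := det3 P A Aw with hk2
  set k3 := det3 P A A' with hk3
  have hk3ne : k3 ≠ 0 := by
    intro h0
    have h1 : pi3 (ds G z) (sg G z) z A' = 0 := by
      have := det3_LL (ds G z) sz.ne' z qe a A'
      rw [← hPz, ← hA, ← hk3, h0, ha] at this
      have h2 : (1 : ℝ) / sg G z ≠ 0 := by positivity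
      exact (mul_eq_zero.1 this.symm).resolve_left h2
    apply hpi
    rw [dec hz' (q := qe') (b := a') trivial (P' := P) (A0 := A') ha' hPz' rfl]
    have h2 : pi3 (ds G z) (sg G z) z P = 0 := by rw [hP]; exact h.pi3_pole hz he0
    unfold pi3 at h1 h2 ⊢
    simp only [Prod.fst_add, Prod.snd_add, Prod.smul_fst, Prod.smul_snd, smul_eq_mul, map_add,
      map_smul]
    linear_combination (Om q0 a') * h2 + (Om qe' q0) * h1
  -- non-vanishing of beta
  have hbeta : ∀ {y : ℝ × ℝ}, y ∈ M → ∀ t : ℝ, Om (rr (G y) e) (rr (G y) (e1 + t • e)) ≠ 0 := by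
    intro y hy t h0
    have := (h.rad y hy).rr_inj he0 (hne t) h0
    rw [Om_add_right, Om_smul_right, Om_self, he1] at this
    norm_num at this
  -- the three functions
  obtain ⟨f, hf⟩ : ∃ f : ℝ → ℝ, f = fun t => Om (rr (G z) (e1 + t • e)) a /
    Om qe (rr (G z) (e1 + t • e)) := ⟨_, rfl⟩
  obtain ⟨f', hf'⟩ : ∃ f : ℝ → ℝ, f = fun t => Om (rr (G z') (e1 + t • e)) a' /
    Om qe' (rr (G z') (e1 + t • e)) := ⟨_, rfl⟩
  obtain ⟨fw, hfw⟩ : ∃ f : ℝ → ℝ, f = fun t => Om (rr (G w) (e1 + t • e)) aw /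
    Om qw (rr (G w) (e1 + t • e)) := ⟨_, rfl⟩
  have star : ∀ t μ : ℝ, 0 < μ → z + (1 / μ) • (e1 + t • e) ∈ M →
      k0 + k1 * f t - k2 * f' (t - μ) + k3 * fw (t - 1 / 2 * μ) = 0 := by
    intro t μ hμ hy
    set y := z + (1 / μ) • (e1 + t • e) with hyd
    have y1 : y = z' + (1 / μ) • (e1 + (t - μ) • e) := by
      have : z' = z + e := by rw [he]; abel
      rw [this, hyd]
      have : (1 / μ) • (e1 + (t - μ) • e) = (1 / μ) • (e1 + t • e) - (1 / μ * μ) • e := by module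
      rw [this, one_div_mul_cancel hμ.ne', one_smul]; abel
    have y2 : y = w + (1 / μ) • (e1 + (t - 1 / 2 * μ) • e) := by
      rw [hw, hyd]
      have : (1 / μ) • (e1 + (t - 1 / 2 * μ) • e) =
        (1 / μ) • (e1 + t • e) - (1 / 2 * (1 / μ * μ)) • e := by module
      rw [this, one_div_mul_cancel hμ.ne', mul_one]; abel
    have c0 := h.pole_line hz (hne t) (t := 1 / μ) hy
    have c1 := h.pole_line hz' (hne (t - μ)) (t := 1 / μ) (by rw [← y1]; exact hy)
    have c2 := h.pole_line hwM (hne (t - 1 / 2 * μ)) (t := 1 / μ) (by rw [← y2]; exact hy)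
    rw [← hyd] at c0
    rw [← y1] at c1
    rw [← y2] at c2
    have g0 := h.pi3_pole hy (hne t)
    have g1 := h.pi3_pole hy (hne (t - μ))
    have g2 := h.pi3_pole hy (hne (t - 1 / 2 * μ))
    have D := coplanar (ds G y) (h.sg_pos hy).ne' y g0 g1 g2
    rw [c0, c1, c2, h.pole_eq hz (hne t), h.pole_eq hz' (hne _), h.pole_eq hwM (hne _),
      dec hz (q := qe) (b := a) trivial (P' := P) (A0 := A) ha hPz rfl,
      dec hz' (q := qe') (b := a') trivial (P' := P) (A0 := A') ha' hPz' rfl,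
      dec hwM (q := qw) (b := aw) trivial (P' := P) (A0 := Aw) haw hPzw rfl,
      det3_expand, ← hk0, ← hk1, ← hk2, ← hk3] at D
    have b0 := hbeta hz t
    have b1 := hbeta hz' (t - μ)
    have b2 := hbeta hwM (t - 1 / 2 * μ)
    rw [← hqe] at b0
    rw [← hqe'] at b1
    rw [← hqw] at b2
    have fin : ∀ A0 B0 A1 B1 A2 B2 : ℝ, B0 ≠ 0 → B1 ≠ 0 → B2 ≠ 0 →
        B0 * B1 * B2 * k0 + A0 * B1 * B2 * k1 - B0 * A1 * B2 * k2 + B0 * B1 * A2 * k3 = 0 →
        k0 + k1 * (A0 / B0) - k2 * (A1 / B1) + k3 * (A2 / B2) = 0 := by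
      intro A0 B0 A1 B1 A2 B2 h0 h1 h2 h3
      field_simp
      linear_combination h3
    simp only [hf, hf', hfw]
    exact fin _ _ _ _ _ _ b0 b1 b2 D
  -- existence of large parameters
  have large : ∀ t : ℝ, ∃ μ0 : ℝ, 0 < μ0 ∧ ∀ μ, μ0 ≤ μ → z + (1 / μ) • (e1 + t • e) ∈ M := by
    intro t
    have c : ContinuousAt (fun l : ℝ => z + l • (e1 + t • e)) 0 := by fun_prop
    have ev := c.eventually (h.op.mem_nhds (by simpa using hz))
    rw [Metric.eventually_nhds_iff] at ev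
    obtain ⟨ε, hε, hε'⟩ := ev
    refine ⟨2 / ε, by positivity, fun μ hμ => hε' ?_⟩
    have hμ0 : 0 < μ := lt_of_lt_of_le (by positivity) hμ
    rw [Real.dist_eq, sub_zero, abs_of_pos (by positivity), div_lt_iff₀ hμ0]
    rw [div_le_iff₀ hε] at hμ
    linarith
  -- relation of increments
  have rel : ∀ t t2 y : ℝ, ∃ s : ℝ, k1 * (f (t + y) - f t) + k3 * (fw (s + y / 2) - fw s) = 0 ∧
      k1 * (f (t2 + y) - f t2) + k3 * (fw (s + y / 2) - fw s) = 0 := by
    intro t t2 y
    obtain ⟨m1, m1p, hm1⟩ := large t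
    obtain ⟨m2, m2p, hm2⟩ := large (t + y)
    obtain ⟨m3, m3p, hm3⟩ := large t2
    obtain ⟨m4, m4p, hm4⟩ := large (t2 + y)
    set μ := m1 + m2 + m3 + m4 + |y| + 2 * |t2 - t| with hμ
    have a1 := neg_abs_le y
    have a2 := neg_abs_le (t2 - t)
    have a3 := abs_nonneg y
    have a4 := abs_nonneg (t2 - t)
    have E1 := star t μ (by positivity) (hm1 μ (by rw [hμ]; linarith))
    have E2 := star (t + y) (μ + y) (by rw [hμ]; linarith) (hm2 _ (by rw [hμ]; linarith))
    have E3 := star t2 (μ + 2 * (t2 - t)) (by rw [hμ]; linarith) (hm3 _ (by rw [hμ]; linarith))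
    have E4 := star (t2 + y) (μ + 2 * (t2 - t) + y) (by rw [hμ]; linarith)
      (hm4 _ (by rw [hμ]; linarith))
    refine ⟨t - 1 / 2 * μ, ?_, ?_⟩
    · have x1 : t + y - (μ + y) = t - μ := by ring
      have x2 : t + y - 1 / 2 * (μ + y) = t - 1 / 2 * μ + y / 2 := by ring
      rw [x1, x2] at E2
      linear_combination E2 - E1
    · have x1 : t2 + y - (μ + 2 * (t2 - t) + y) = t2 - (μ + 2 * (t2 - t)) := by ring
      have x2 : t2 + y - 1 / 2 * (μ + 2 * (t2 - t) + y) = t - 1 / 2 * μ + y / 2 := by ring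
      have x3 : t2 - 1 / 2 * (μ + 2 * (t2 - t)) = t - 1 / 2 * μ := by ring
      rw [x1, x2] at E4
      rw [x3] at E3
      linear_combination E4 - E3
  -- injectivity
  have inj : ∀ {y : ℝ × ℝ} (_ : y ∈ M) (b : ℝ × ℝ) (_ : Om (rr (G y) e) b = 1) (s t : ℝ),
      Om (rr (G y) (e1 + s • e)) b / Om (rr (G y) e) (rr (G y) (e1 + s • e)) =
      Om (rr (G y) (e1 + t • e)) b / Om (rr (G y) e) (rr (G y) (e1 + t • e)) → s = t := by
    intro y hy b hb s t hst
    have b1 := hbeta hy s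
    have b2 := hbeta hy t
    rw [div_eq_div_iff b1 b2] at hst
    set Q := rr (G y) e with hQ
    set Q1 := rr (G y) (e1 + s • e) with hQ1
    set Q2 := rr (G y) (e1 + t • e) with hQ2
    have i : Om Q1 Q2 * Om Q b = Om Q1 b * Om Q Q2 - Om Q2 b * Om Q Q1 := by unfold Om; ring
    have h0 : Om Q1 Q2 = 0 := by
      rw [hb, mul_one] at i
      rw [i]; linarith
    have h1 := (h.rad y hy).rr_inj (hne s) (hne t) h0
    have h2 : Om (e1 + s • e) (e1 + t • e) = (s - t) * Om e e1 := by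
      simp only [Om_add_left, Om_add_right, Om_smul_left, Om_smul_right, Om_self]
      rw [Om_swap e1 e]; ring
    rw [h2, he1, mul_one] at h1
    linarith
  have hk1ne : k1 ≠ 0 := by
    intro h0
    obtain ⟨s, hs, _⟩ := rel 0 0 1
    rw [h0, zero_mul, zero_add] at hs
    have h1 : fw (s + 1 / 2) = fw s := by
      have := (mul_eq_zero.1 hs).resolve_left hk3ne
      linarith
    simp only [hfw, hqw] at h1
    have := inj hwM aw (by rw [← hqw]; exact haw) _ _ h1
    linarith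
  have hadd : ∀ t t2 y : ℝ, f (t + y) - f t = f (t2 + y) - f t2 := by
    intro t t2 y
    obtain ⟨s, h1, h2⟩ := rel t t2 y
    have : k1 * ((f (t + y) - f t) - (f (t2 + y) - f t2)) = 0 := by linear_combination h1 - h2
    have := (mul_eq_zero.1 this).resolve_left hk1ne
    linarith
  have hfc : Continuous f := by
    have c1 := h.rr_line_cont hz hne
    have c2 : Continuous fun t => Om (rr (G z) (e1 + t • e)) a :=
      continuous_Om.comp (c1.prodMk continuous_const)
    have c3 : Continuous fun t => Om qe (rr (G z) (e1 + t • e)) :=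
      continuous_Om.comp (continuous_const.prodMk c1)
    rw [hf]
    exact c2.div c3 fun t => by rw [hqe]; exact hbeta hz t
  have hlin : ∀ y, f y = f 0 + y * (f 1 - f 0) := by
    intro y
    have := additive_linear (g := fun y => f y - f 0) (by fun_prop) (fun x y => by
      have := hadd x 0 y
      rw [zero_add] at this
      linarith) y
    linarith
  set c := f 1 - f 0 with hc
  have hc0 : c ≠ 0 := by
    intro h0
    have h1 : f 1 = f 0 := by linarith
    simp only [hf, hqe] at h1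
    have := inj hz a (by rw [← hqe]; exact ha) _ _ h1
    norm_num at this
  -- the linear map
  have hqform : ∀ t : ℝ, rr (G z) (e1 + t • e) =
      Om qe (rr (G z) (e1 + t • e)) • ((f 0 + t * c) • qe + a) := by
    intro t
    have e2 := Om_decomp (u := qe) (v := a) (by rw [ha]; norm_num) (rr (G z) (e1 + t • e))
    rw [ha, div_one, div_one] at e2
    have b0 := hbeta hz t
    rw [← hqe] at b0
    have e3 : Om (rr (G z) (e1 + t • e)) a = Om qe (rr (G z) (e1 + t • e)) * (f 0 + t * c) := by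
      rw [← hlin t]
      simp only [hf]
      field_simp
    conv_lhs => rw [e2]
    rw [e3, smul_add, smul_smul]
  let Lm : (ℝ × ℝ) →L[ℝ] (ℝ × ℝ) :=
    (OmL e).smulRight (f 0 • qe + a) + (OmR e1).smulRight (c • qe)
  have hLm : ∀ u, Lm u = Om e u • (f 0 • qe + a) + Om u e1 • (c • qe) := by
    intro u
    show (OmL e) u • (f 0 • qe + a) + (OmR e1) u • (c • qe) = _
    rw [OmL_apply, OmR_apply]
  have hudec : ∀ u : ℝ × ℝ, u = Om u e1 • e + Om e u • e1 := by
    intro u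
    have := Om_decomp (u := e) (v := e1) (by rw [he1]; norm_num) u
    rw [he1, div_one, div_one] at this
    exact this
  refine euclid_of_linear rz Lm ?_ ?_
  · intro u hu h0
    rw [hLm] at h0
    have h1 := congrArg (Om qe) h0
    simp only [Om_add_right, Om_smul_right, Om_self, Om_zero_right, ha] at h1
    have h2 : Om e u = 0 := by linarith
    rw [h2, zero_smul, zero_add, smul_smul] at h0
    rcases smul_eq_zero.1 h0 with h3 | h3
    · have h4 : Om u e1 = 0 := (mul_eq_zero.1 h3).resolve_right hc0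
      apply hu
      rw [hudec u, h2, h4]; simp
    · exact hqe0 h3
  · intro u hu
    rw [hLm]
    rcases eq_or_ne (Om e u) 0 with hX | hX
    · have hY : Om u e1 ≠ 0 := by
        intro hY
        apply hu
        rw [hudec u, hX, hY]; simp
      have hu' : u = Om u e1 • e := by
        have := hudec u
        rw [hX, zero_smul, add_zero] at this
        exact this
      obtain ⟨d, _, hd⟩ := rz.rr_ne_smul he0 hY
      rw [hX, zero_smul, zero_add]
      have : rr (G z) u = d • qe := by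
        conv_lhs => rw [hu']
        rw [hd, hqe]
      rw [this]
      simp only [Om_smul_left, Om_smul_right, Om_self, mul_zero]
    · set X := Om e u with hXd
      set Y := Om u e1 with hYd
      have hu' : u = X • (e1 + (Y / X) • e) := by
        have := hudec u
        rw [← hXd, ← hYd] at this
        rw [smul_add, smul_smul, mul_div_cancel₀ _ hX, add_comm]
        exact this
      obtain ⟨d, _, hd⟩ := rz.rr_ne_smul (hne (Y / X)) hX
      have h1 : rr (G z) u = (d * Om qe (rr (G z) (e1 + (Y / X) • e))) •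
          ((f 0 + Y / X * c) • qe + a) := by
        have h3 : rr (G z) u = d • rr (G z) (e1 + (Y / X) • e) := by
          conv_lhs => rw [hu']
          exact hd
        rw [h3, mul_smul]
        exact congrArg (fun v => d • v) (hqform (Y / X))
      have h2 : X • (f 0 • qe + a) + Y • (c • qe) = X • ((f 0 + Y / X * c) • qe + a) := by
        have : X • ((f 0 + Y / X * c) • qe + a) =
          X • (f 0 • qe + a) + (X * (Y / X) * c) • qe := by module
        rw [this, mul_div_cancel₀ _ hX, smul_smul]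
      rw [h1, h2]
      simp only [Om_smul_left, Om_smul_right, Om_self, mul_zero]

end PG

end Pool.Agent.Helper831.PM
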