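import Pool.Agent.Helper831.PMM4
import Pool.Agent.Helper831.PMPex
import Pool.Agent.Helper831.PMLine

namespace Pool.Agent.Helper831.PM

open Real Set Filter Topology Metric

/-! ### Scaling -/

namespace RadonNorm

variable {N : ℝ × ℝ → ℝ}

lemma scale_strict (h : StrictNorm N) {c : ℝ} (hc : 0 < c) : StrictNorm fun u => c * N u := by
  refine ⟨fun u hu => mul_pos hc (h.pos hu), fun a u => ?_, fun u v hO => ?_⟩
  · show c * N (a • u) = |a| * (c * N u)
    rw [h.smul]; ring
  · show c * N (u + v) < c * N u + c * N v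
    rw [← mul_add]
    exact mul_lt_mul_of_pos_left (h.2.2 u v hO) hc

lemma scale (h : RadonNorm N) {c : ℝ} (hc : 0 < c) : RadonNorm fun u => c * N u := by
  refine ⟨scale_strict h.1 hc, fun u v hb t => ?_⟩
  have h1 : Bk N u v := fun t => le_of_mul_le_mul_left (hb t) hc
  exact mul_le_mul_of_nonneg_left (h.2 u v h1 t) hc.le

lemma dN_scale (h : RadonNorm N) {c : ℝ} {u : ℝ × ℝ} (hu : u ≠ 0) :
    dN (fun u => c * N u) u = c • dN N u :=
  ((h.hasFDerivAt hu).const_mul c).fderiv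

lemma rr_scale (h : RadonNorm N) {c : ℝ} {u : ℝ × ℝ} (hu : u ≠ 0) :
    rr (fun u => c * N u) u = c • rr N u := by
  unfold rr
  rw [h.dN_scale hu]
  ext <;> simp

lemma CC_scale (h : RadonNorm N) {c : ℝ} (hc : 0 < c) :
    CC (fun u => c * N u) = c ^ 2 * CC N := by
  unfold CC cc
  rw [h.rr_scale (dir_ne 0)]
  show c * N (c • rr N (dir 0)) = _
  rw [h.1.smul, abs_of_pos hc]
  ring

end RadonNorm

/-! ### The dichotomy -/

namespace PG

variable {M : Set (ℝ × ℝ)} {G : ℝ × ℝ → ℝ × ℝ → ℝ}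

lemma prop_of (h : PG M G) {z z' : ℝ × ℝ} (hz : z ∈ M) (hz' : z' ∈ M)
    (h0 : ∀ q, pi3 (ds G z) (sg G z) z (LL (ds G z') (sg G z') z' q) = 0) :
    ∃ c : ℝ, c ≠ 0 ∧ (∀ q, ds G z q = c * ds G z' q) ∧
      sg G z - ds G z z = c * (sg G z' - ds G z' z') := by
  have s := h.sg_pos hz
  have s' := h.sg_pos hz'
  set c := (ds G z z' - ds G z z + sg G z) / sg G z' with hc
  have h1 : ∀ q, ds G z q = c * ds G z' q := by
    intro q
    have := h0 q
    unfold pi3 LL at this
    simp only [map_sub, map_smul, smul_eq_mul] at this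
    rw [hc]
    field_simp at this ⊢
    linear_combination this
  have h2 : sg G z - ds G z z = c * (sg G z' - ds G z' z') := by
    have e := h1 z'
    have : c * sg G z' = ds G z z' - ds G z z + sg G z := by rw [hc]; field_simp
    linear_combination this.symm - e
  refine ⟨c, ?_, h1, h2⟩
  intro h3
  rw [h3, zero_mul] at h2
  have := h1 z
  rw [h3, zero_mul] at this
  linarith

lemma pi3_prop {z z' : ℝ × ℝ} {c : ℝ} (h1 : ∀ q, ds G z q = c * ds G z' q)
    (h2 : sg G z - ds G z z = c * (sg G z' - ds G z' z')) (C : (ℝ × ℝ) × ℝ) :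
    pi3 (ds G z) (sg G z) z C = c * pi3 (ds G z') (sg G z') z' C := by
  unfold pi3
  rw [h1, h2]; ring

/-- Either all norms are Euclidean or the Radon constant is an affine function. -/
theorem dich (h : PG M G) : (∀ x ∈ M, IsEuclid (G x)) ∨
    ∃ (D : (ℝ × ℝ) →L[ℝ] ℝ) (b : ℝ), ∀ x ∈ M, sg G x = D x + b := by
  by_cases hex : ∃ z1 ∈ M, ∃ z2 ∈ M, ∃ q,
      pi3 (ds G z1) (sg G z1) z1 (LL (ds G z2) (sg G z2) z2 q) ≠ 0
  · left
    obtain ⟨z1, hz1, z2, hz2, q0, hq0⟩ := hex
    intro z hz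
    by_contra hE
    have key : ∀ z' ∈ M, ∀ q, pi3 (ds G z) (sg G z) z (LL (ds G z') (sg G z') z' q) = 0 := by
      intro z' hz' q
      by_contra hne
      exact hE (h.euclid_at hz hz' hne)
    obtain ⟨c, hc, h1, h2⟩ := h.prop_of hz hz1 (key z1 hz1)
    have h3 := key z2 hz2 q0
    rw [pi3_prop h1 h2] at h3
    rcases mul_eq_zero.1 h3 with h4 | h4
    · exact hc h4
    · exact hq0 h4
  · right
    push Not at hex
    rcases M.eq_empty_or_nonempty with he | ⟨x1, hx1⟩
    · exact ⟨0, 0, fun x hx => by rw [he] at hx; exact absurd hx (notMem_empty x)⟩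
    refine ⟨ds G x1, sg G x1 - ds G x1 x1, fun z hz => ?_⟩
    set τ : ℝ × ℝ → ℝ := fun z => ds G x1 z + (sg G x1 - ds G x1 x1) with hτ
    have hs1 := h.sg_pos hx1
    have facts : ∀ z ∈ M, ∃ c : ℝ, c ≠ 0 ∧ (∀ q, ds G z q = c * ds G x1 q) ∧
        sg G z = c * τ z := by
      intro z hz
      obtain ⟨c, hc, h1, h2⟩ := h.prop_of hz hx1 (hex z hz x1 hx1)
      refine ⟨c, hc, h1, ?_⟩
      have := h1 z
      simp only [hτ]
      linear_combination h2 + this
    have hτ0 : ∀ z ∈ M, τ z ≠ 0 := by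
      intro z hz h0
      obtain ⟨c, _, _, h2⟩ := facts z hz
      rw [h0, mul_zero] at h2
      exact (h.sg_pos hz).ne' h2
    have hd : ∀ z ∈ M, HasFDerivAt (fun z => sg G z / τ z) (0 : (ℝ × ℝ) →L[ℝ] ℝ) z := by
      intro z hz
      obtain ⟨c, hc, h1, h2⟩ := facts z hz
      have d1 := h.hasFDerivAt_ds hz
      have d2 : HasFDerivAt τ (ds G x1) z := (ds G x1).hasFDerivAt.add_const _
      have d3 := d1.mul ((hasDerivAt_inv (hτ0 z hz)).comp_hasFDerivAt z d2)
      have e : (fun z => sg G z / τ z) = fun z => sg G z * (τ z)⁻¹ := by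
        funext z; rw [div_eq_mul_inv]
      rw [e]
      refine d3.congr_fderiv ?_
      have ht := hτ0 z hz
      refine ContinuousLinearMap.ext fun w => ?_
      simp only [add_apply, smul_apply, smul_eq_mul, zero_apply, Function.comp_apply]
      rw [h1 w, h2]
      field_simp
      ring
    have hconst := h.op.is_const_of_fderiv_eq_zero h.cv.isPreconnected
      (fun z hz => (hd z hz).differentiableAt.differentiableWithinAt)
      (fun z hz => (hd z hz).fderiv) hz hx1
    have e1 : τ x1 = sg G x1 := by simp only [hτ]; ring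
    have hconst' : sg G z / τ z = sg G x1 / τ x1 := hconst
    rw [e1, div_self hs1.ne', div_eq_one_iff_eq (hτ0 z hz)] at hconst'
    exact hconst'

/-- constant Radon constant: the norms do not depend on the point -/
lemma const_of_sg (h : PG M G) {b : ℝ} (hb : ∀ x ∈ M, sg G x = b) {x y : ℝ × ℝ} (hx : x ∈ M)
    (hy : y ∈ M) (u : ℝ × ℝ) : G x u = G y u := by
  by_cases hu : u = 0
  · rw [hu, (h.rad x hx).1.zero, (h.rad y hy).1.zero]
  have hds : ∀ z ∈ M, ds G z = 0 := by
    intro z hz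
    have h1 : HasFDerivAt (sg G) (0 : (ℝ × ℝ) →L[ℝ] ℝ) z := by
      refine (hasFDerivAt_const b z).congr_of_eventuallyEq ?_
      filter_upwards [h.op.mem_nhds hz] with w hw
      exact hb w hw
    exact h1.fderiv
  have hp : ∀ z ∈ M, p0 G z u = 0 := by
    intro z hz
    have := h.ds_rr hz hu
    rw [hds z hz] at this
    simp only [zero_apply] at this
    have h2 : sg G z * p0 G z u = 0 := by linarith
    exact (mul_eq_zero.1 h2).resolve_left (h.sg_pos hz).ne'
  have hd : ∀ z ∈ M, HasFDerivAt (fun y => G y u) (0 : (ℝ × ℝ) →L[ℝ] ℝ) z := by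
    intro z hz
    have := h.hasFDerivAt_G hz hu
    rw [hp z hz, zero_smul] at this
    exact this
  exact h.op.is_const_of_fderiv_eq_zero h.cv.isPreconnected
      (fun z hz => (hd z hz).differentiableAt.differentiableWithinAt)
      (fun z hz => (hd z hz).fderiv) hx hy

end PG

/-! ### From the metric to the dichotomy -/

/-- the normalised norms -/
noncomputable def GG (F : ℝ × ℝ → ℝ × ℝ → ℝ) (x u : ℝ × ℝ) : ℝ :=
  exp (-(2 / 3) * lC F x) * F x u

namespace Core

variable {M : Set (ℝ × ℝ)} {F d : ℝ × ℝ → ℝ × ℝ → ℝ}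

lemma geo (C : Core M F d) {x0 : ℝ × ℝ} (hx0 : x0 ∈ M) :
    ∃ R m Λ : ℝ, Geo x0 R m Λ F d ∧ ball x0 R ⊆ M := by
  obtain ⟨r, hr, hrM, hint, hst⟩ := C.loc x0 hx0
  have hsub : closedBall x0 (r / 2) ⊆ ball x0 r := closedBall_subset_ball (by linarith)
  have hb : ball x0 (r / 2) ⊆ closedBall x0 (r / 2) := ball_subset_closedBall
  set K : Set ((ℝ × ℝ) × (ℝ × ℝ)) := closedBall x0 (r / 2) ×ˢ sphere (0 : ℝ × ℝ) 1 with hK
  have hKc : IsCompact K := (isCompact_closedBall _ _).prod (isCompact_sphere _ _)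
  have hKne : K.Nonempty := by
    refine ⟨(x0, (1, 0)), mem_closedBall_self (by positivity), ?_⟩
    simp [Prod.norm_def]
  have hKcont : ContinuousOn (fun p : (ℝ × ℝ) × (ℝ × ℝ) => F p.1 p.2) K :=
    C.Fc.mono fun p hp => ⟨hrM (hsub hp.1), mem_univ _⟩
  obtain ⟨a, ha, hmin⟩ := hKc.exists_isMinOn hKne hKcont
  obtain ⟨b, hbK, hmax⟩ := hKc.exists_isMaxOn hKne hKcont
  have norm_case : ∀ x ∈ closedBall x0 (r / 2), ∀ u : ℝ × ℝ,
      F a.1 a.2 * ‖u‖ ≤ F x u ∧ F x u ≤ F b.1 b.2 * ‖u‖ := by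
    intro x hx u
    have hN := C.Fs x (hrM (hsub hx))
    by_cases hu : u = 0
    · rw [hu, hN.zero, norm_zero, mul_zero, mul_zero]; exact ⟨le_rfl, le_rfl⟩
    have hn : 0 < ‖u‖ := norm_pos_iff.2 hu
    have hm : (x, ‖u‖⁻¹ • u) ∈ K := ⟨hx, by
      rw [mem_sphere_zero_iff_norm, norm_smul, norm_inv, norm_norm, inv_mul_cancel₀ hn.ne']⟩
    have h1 : F a.1 a.2 ≤ F x (‖u‖⁻¹ • u) := hmin hm
    have h2 : F x (‖u‖⁻¹ • u) ≤ F b.1 b.2 := hmax hm
    rw [hN.smul, abs_of_pos (inv_pos.2 hn)] at h1 h2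
    constructor
    · calc F a.1 a.2 * ‖u‖ ≤ ‖u‖⁻¹ * F x u * ‖u‖ := by gcongr
        _ = F x u := by field_simp
    · calc F x u = ‖u‖⁻¹ * F x u * ‖u‖ := by field_simp
        _ ≤ _ := by gcongr
  have ha0 : a.2 ≠ 0 := by
    intro h
    have := ha.2
    rw [h] at this
    simp at this
  refine ⟨r / 2, F a.1 a.2, F b.1 b.2, ?_, (hb.trans hsub).trans hrM⟩
  refine ⟨by positivity, (C.Fs _ (hrM (hsub ha.1))).pos ha0, hmin hbK, ?_, ?_, ?_, ?_, ?_, ?_, ?_, ?_⟩
  · intro x hx; exact C.radon (hrM (hsub (hb hx)))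
  · intro x hx u; exact (norm_case x (hb hx) u).1
  · intro x hx u; exact (norm_case x (hb hx) u).2
  · exact C.Fc.mono fun p hp => ⟨hrM (hsub (hb hp.1)), mem_univ _⟩
  · intro x hx y hy; exact hint x (hsub (hb hx)) y (hsub (hb hy))
  · intro x hx y hy z hz
    exact C.tri x (hrM (hsub (hb hx))) y (hrM (hsub (hb hy))) z (hrM (hsub (hb hz)))
  · intro x hx y hy z hz hO
    exact hst x (hsub (hb hx)) y (hsub (hb hy)) z (hsub (hb hz)) hO
  · intro x hx u hu s t h1 h2
    have hxM := hrM (hsub (hb hx))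
    have rx := C.radon hxM
    have hbk : Bk (F x) (rr (F x) u) u := rx.2 _ _ (rx.Bk_rr hu)
    exact C.perp_of_bk hxM (rx.rr_ne hu) hu hbk s t (hrM (hsub (hb h1))) (hrM (hsub (hb h2)))

lemma PP_loc (C : Core M F d) {x0 : ℝ × ℝ} (hx0 : x0 ∈ M) :
    ∃ δ > 0, ball x0 δ ⊆ M ∧ (∀ x ∈ ball x0 δ, ∀ t φ : ℝ, x + t • dir φ ∈ ball x0 δ →
      PP F (x + t • dir φ) φ = PP F x φ) ∧ ContinuousAt (lC F) x0 := by
  obtain ⟨R, m, Λ, G, hsub⟩ := C.geo hx0
  obtain ⟨K, E⟩ := G.est
  have hR := G.hR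
  have G' : Geo x0 (R / 8) m Λ F d := G.mono (by positivity) (ball_subset_ball (by linarith))
  refine ⟨R / 8 / 4, by positivity, (ball_subset_ball (by linarith)).trans hsub, ?_, ?_⟩
  · intro x hx t φ hy
    rcases le_total 0 t with ht | ht
    · exact G'.PP_const E ht hx hy
    · have e : x + t • dir φ + (-t) • dir φ = x := by module
      have := G'.PP_const E (x := x + t • dir φ) (t := -t) (φ := φ) (by linarith) hy
        (by rw [e]; exact hx)
      rw [e] at this
      exact this.symm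
  · have h1 : LipschitzOnWith (Real.toNNReal (4 * K / m)) (lC F) (ball x0 (R / 8)) := by
      have hK := E.hK
      have hm := G.hm
      refine LipschitzOnWith.of_dist_le_mul fun y hy x hx => ?_
      rw [Real.dist_eq, dist_eq_norm, Real.coe_toNNReal _ (by positivity)]
      exact G'.lC_lip E hx hy
    exact h1.continuousOn.continuousAt (ball_mem_nhds _ (by positivity))

lemma PP_glob (C : Core M F d) {x : ℝ × ℝ} (hx : x ∈ M) {t φ : ℝ}
    (hy : x + t • dir φ ∈ M) : PP F (x + t • dir φ) φ = PP F x φ := by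
  have key : ∀ (x : ℝ × ℝ) (_ : x ∈ M) (t : ℝ), 0 ≤ t → x + t • dir φ ∈ M →
      PP F (x + t • dir φ) φ = PP F x φ := by
    intro x hx t ht hy
    have hmem : ∀ s ∈ Icc 0 t, x + s • dir φ ∈ M := by
      intro s hs
      rcases eq_or_lt_of_le ht with e | e
      · have : s = 0 := le_antisymm (by rw [e]; exact hs.2) hs.1
        rw [this, zero_smul, add_zero]; exact hx
      · have := C.cv hx hy (a := 1 - s / t) (b := s / t)
          (by rw [sub_nonneg, div_le_one e]; exact hs.2) (div_nonneg hs.1 ht) (by ring)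
        have e2 : (1 - s / t) • x + (s / t) • (x + t • dir φ) = x + s • dir φ := by
          have : (s / t) • (x + t • dir φ) = (s / t) • x + (s / t * t) • dir φ := by module
          rw [this, div_mul_cancel₀ _ e.ne']
          module
        rwa [e2] at this
    have hd : ∀ s ∈ Icc 0 t, HasDerivAt (fun s : ℝ => PP F (x + s • dir φ) φ) 0 s := by
      intro s hs
      obtain ⟨δ, hδ, _, hloc, _⟩ := C.PP_loc (hmem s hs)
      refine (hasDerivAt_const s (PP F (x + s • dir φ) φ)).congr_of_eventuallyEq ?_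
      have c : ContinuousAt (fun r : ℝ => x + r • dir φ) s := by fun_prop
      filter_upwards [c.eventually (ball_mem_nhds _ hδ)] with r hr
      have e : x + s • dir φ + (r - s) • dir φ = x + r • dir φ := by module
      have := hloc _ (mem_ball_self hδ) (r - s) φ (by rw [e]; exact hr)
      rw [e] at this
      exact this
    have := mvt_abs_on (C := 0) ht hd (fun s _ => by rw [abs_zero])
    rw [zero_mul, zero_smul, add_zero] at this
    have := abs_nonpos_iff.1 this
    linarith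
  rcases le_total 0 t with ht | ht
  · exact key x hx t ht hy
  · have e : x + t • dir φ + (-t) • dir φ = x := by module
    have := key (x + t • dir φ) hy (-t) (by linarith) (by rw [e]; exact hx)
    rw [e] at this
    exact this.symm

lemma pg (C : Core M F d) : PG M (GG F) where
  op := C.op
  cv := C.cv
  rad := fun x hx => (C.radon hx).scale (exp_pos _)
  cont := by
    intro x hx v
    obtain ⟨_, _, _, _, hc⟩ := C.PP_loc hx
    have c1 : ContinuousAt (fun p : (ℝ × ℝ) × (ℝ × ℝ) => lC F p.1) (x, v) :=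
      ContinuousAt.comp (f := fun p : (ℝ × ℝ) × (ℝ × ℝ) => p.1) (x := (x, v)) hc continuousAt_fst
    unfold GG
    exact (Real.continuous_exp.continuousAt.comp (continuousAt_const.mul c1)).mul (C.contAt hx v)
  line := by
    intro x hx u t hy
    by_cases hu : u = 0
    · rw [hu, smul_zero, add_zero]
    obtain ⟨r, hr, φ, rfl⟩ := exists_dir hu
    rw [smul_smul] at hy ⊢
    have h1 := C.PP_glob hx hy
    have e : ∀ z ∈ M, GG F z (r • dir φ) = r * exp (PP F z φ) := by
      intro z hz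
      have rz := C.radon hz
      unfold GG PP HH
      rw [rz.1.smul, abs_of_pos hr, sub_eq_add_neg, exp_add, exp_log (rz.hh_pos φ)]
      have : -(2 / 3 * lC F z) = -(2 / 3) * lC F z := by ring
      rw [this]
      show _ * (r * hh (F z) φ) = _
      ring
    rw [e _ hy, e _ hx, h1]

lemma sg_GG (C : Core M F d) {x : ℝ × ℝ} (hx : x ∈ M) :
    PG.sg (GG F) x = exp (-(1 / 3) * lC F x) := by
  have r := C.radon hx
  have h1 : PG.sg (GG F) x = exp (-(2 / 3) * lC F x) ^ 2 * RadonNorm.CC (F x) :=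
    r.CC_scale (exp_pos _)
  have h2 : RadonNorm.CC (F x) = exp (lC F x) := by unfold lC; rw [exp_log r.CC_pos]
  rw [h1, h2, ← exp_nat_mul, ← exp_add]
  congr 1
  push_cast
  ring

lemma F_eq (C : Core M F d) {x : ℝ × ℝ} (hx : x ∈ M) (u : ℝ × ℝ) :
    F x u = GG F x u / PG.sg (GG F) x ^ 2 := by
  rw [C.sg_GG hx]
  unfold GG
  have : exp (-(1 / 3) * lC F x) ^ 2 = exp (-(2 / 3) * lC F x) := by
    rw [← exp_nat_mul]
    congr 1
    push_cast
    ring
  rw [this]
  have := (exp_pos (-(2 / 3) * lC F x)).ne'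
  field_simp

/-- **Core theorem.** -/
theorem main (C : Core M F d) : (∀ x ∈ M, IsEuclid (F x)) ∨
    ∃ (D : (ℝ × ℝ) →L[ℝ] ℝ) (b : ℝ), (∀ x ∈ M, 0 < D x + b) ∧
      (∀ x ∈ M, ∀ (u : ℝ × ℝ) (t : ℝ), x + t • u ∈ M →
        F (x + t • u) u * (D (x + t • u) + b) ^ 2 = F x u * (D x + b) ^ 2) ∧
      (D = 0 → ∀ x ∈ M, ∀ y ∈ M, ∀ u, F x u = F y u) := by
  have P := C.pg
  rcases P.dich with h | ⟨D, b, h⟩
  · left
    intro x hx
    obtain ⟨a, b, c, h1, h2, h3⟩ := h x hx
    have hs := P.sg_pos hx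
    set s := PG.sg (GG F) x with hsd
    refine ⟨a / s ^ 4, b / s ^ 4, c / s ^ 4, by positivity, ?_, fun u => ?_⟩
    · have : a / s ^ 4 * (c / s ^ 4) - (b / s ^ 4) ^ 2 = (a * c - b ^ 2) / s ^ 8 := by
        field_simp
      rw [this]; positivity
    · rw [C.F_eq hx, ← hsd, div_pow, h3]
      field_simp
  · right
    refine ⟨D, b, fun x hx => by rw [← h x hx]; exact P.sg_pos hx, ?_, ?_⟩
    · intro x hx u t hy
      rw [← h _ hy, ← h _ hx, C.F_eq hx, C.F_eq hy, P.line x hx u t hy]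
      have h1 := (P.sg_pos hx).ne'
      have h2 := (P.sg_pos hy).ne'
      field_simp
    · intro hD x hx y hy u
      have hb : ∀ x ∈ M, PG.sg (GG F) x = b := by
        intro x hx; rw [h x hx, hD]; simp
      rw [C.F_eq hx, C.F_eq hy, hb x hx, hb y hy, P.const_of_sg hb hx hy u]

end Core

end Pool.Agent.Helper831.PM
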