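import Pool.Agent.Helper831.PMLoc

namespace Pool.Agent.Helper831.PM

open Real Set Filter Topology Metric

lemma RadonNorm.diff_scaled {N : ℝ × ℝ → ℝ} (h : RadonNorm N) {u : ℝ × ℝ} {ε η : ℝ}
    (hη : ∀ w, ‖w‖ ≤ η → |N (u + w) - N u - dN N u w| ≤ ε * ‖w‖) {σ : ℝ} (hσ : 0 < σ)
    {w : ℝ × ℝ} (hw : ‖w‖ ≤ σ * η) : |N (σ • u + w) - σ * N u - dN N u w| ≤ ε * ‖w‖ := by
  have h1 := hη (σ⁻¹ • w) (by
    rw [norm_smul, norm_inv, Real.norm_eq_abs, abs_of_pos hσ, inv_mul_le_iff₀ hσ]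
    exact hw)
  have e1 : σ • u + w = σ • (u + σ⁻¹ • w) := by
    rw [smul_add, smul_smul, mul_inv_cancel₀ hσ.ne', one_smul]
  have e2 : dN N u w = σ * dN N u (σ⁻¹ • w) := by
    rw [map_smul, smul_eq_mul, ← mul_assoc, mul_inv_cancel₀ hσ.ne', one_mul]
  rw [e1, h.1.smul, abs_of_pos hσ, e2]
  have e3 : σ * N (u + σ⁻¹ • w) - σ * N u - σ * dN N u (σ⁻¹ • w) =
      σ * (N (u + σ⁻¹ • w) - N u - dN N u (σ⁻¹ • w)) := by ring
  rw [e3, abs_mul, abs_of_pos hσ]
  have e4 : ε * ‖w‖ = σ * (ε * ‖σ⁻¹ • w‖) := by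
    rw [norm_smul, norm_inv, Real.norm_eq_abs, abs_of_pos hσ]
    field_simp
  rw [e4]
  exact mul_le_mul_of_nonneg_left h1 hσ.le

namespace Geo

variable {x0 : ℝ × ℝ} {R m Λ : ℝ} {F : ℝ × ℝ → ℝ × ℝ → ℝ} {d : ℝ × ℝ → ℝ × ℝ → ℝ}

/-- the distance is differentiable off the diagonal -/
lemma hasFDerivAt_d (G : Geo x0 R m Λ F d) {x y : ℝ × ℝ} (hx : x ∈ ball x0 R)
    (hy : y ∈ ball x0 R) (hxy : x ≠ y) :
    HasFDerivAt (fun p : (ℝ × ℝ) × (ℝ × ℝ) => d p.1 p.2)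
      ((dN (F y) (y - x)).comp (ContinuousLinearMap.snd ℝ (ℝ × ℝ) (ℝ × ℝ)) -
        (dN (F x) (y - x)).comp (ContinuousLinearMap.fst ℝ (ℝ × ℝ) (ℝ × ℝ))) (x, y) := by
  rw [hasFDerivAt_iff_isLittleO_nhds_zero, Asymptotics.isLittleO_iff]
  intro c hc
  obtain ⟨u, hu⟩ : ∃ u, u = y - x := ⟨_, rfl⟩
  have hu0 : u ≠ 0 := by rw [hu, sub_ne_zero]; exact hxy.symm
  rw [← hu]
  have hyx : y = x + (1 : ℝ) • u := by rw [hu]; module
  obtain ⟨η1, hη1, est1⟩ := (G.rad x hx).diff_est hu0 (ε := c / 8) (by positivity)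
  obtain ⟨η2, hη2, est2⟩ := (G.rad y hy).diff_est hu0 (ε := c / 8) (by positivity)
  set η := min η1 η2 with hη
  have hη0 : 0 < η := lt_min hη1 hη2
  set ε := c / (4 * (4 * ‖u‖ / η + 2)) with hε
  have hε0 : 0 < ε := by positivity
  obtain ⟨δ1, hδ1, sub1, un1⟩ := G.unif hx hε0
  obtain ⟨δ2, hδ2, sub2, un2⟩ := G.unif hy hε0
  set δ := min δ1 δ2 with hδ
  have hδ0 : 0 < δ := lt_min hδ1 hδ2
  -- threshold
  set W0 := min (δ / 2) (min (η / 2) (η * δ / (2 * (‖u‖ + 1)))) with hW0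
  have hW0pos : 0 < W0 := by
    refine lt_min (by positivity) (lt_min (by positivity) (by positivity))
  have hev : ball (0 : (ℝ × ℝ) × (ℝ × ℝ)) W0 ∈ 𝓝 (0 : (ℝ × ℝ) × (ℝ × ℝ)) := ball_mem_nhds _ hW0pos
  filter_upwards [hev] with w hw
  rw [mem_ball_zero_iff] at hw
  obtain ⟨w1, w2⟩ := w
  set W := ‖(w1, w2)‖ with hW
  have hw1 : ‖w1‖ ≤ W := norm_fst_le (w1, w2)
  have hw2 : ‖w2‖ ≤ W := norm_snd_le (w1, w2)
  simp only [Prod.mk_add_mk, sub_apply, ContinuousLinearMap.comp_apply,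
    ContinuousLinearMap.coe_snd', ContinuousLinearMap.coe_fst']
  rcases eq_or_lt_of_le (norm_nonneg (w1, w2)) with hz | hz
  · have h0 : (w1, w2) = (0 : (ℝ × ℝ) × (ℝ × ℝ)) := norm_eq_zero.1 hz.symm
    rw [Prod.mk_eq_zero] at h0
    rw [h0.1, h0.2]
    simp only [add_zero, map_zero, sub_self, norm_zero]
    positivity
  rw [← hW] at hz
  set σ := W / η with hσ
  have hσ0 : 0 < σ := div_pos hz hη0
  have hση : σ * η = W := by rw [hσ]; field_simp
  have hWδ : W < δ / 2 := lt_of_lt_of_le hw (min_le_left _ _)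
  have hWη : W < η / 2 := lt_of_lt_of_le hw ((min_le_right _ _).trans (min_le_left _ _))
  have hWu : W < η * δ / (2 * (‖u‖ + 1)) :=
    lt_of_lt_of_le hw ((min_le_right _ _).trans (min_le_right _ _))
  have hσ1 : σ < 1 / 2 := by rw [hσ, div_lt_iff₀ hη0]; linarith
  have hσu : σ * ‖u‖ < δ / 2 := by
    rw [lt_div_iff₀ (by positivity)] at hWu
    have h1 : σ * η * (2 * (‖u‖ + 1)) < η * δ := by rw [hση]; exact hWu
    have h2 : σ * (2 * (‖u‖ + 1)) < δ := by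
      have : η * (σ * (2 * (‖u‖ + 1))) < η * δ := by linarith
      exact lt_of_mul_lt_mul_left this hη0.le
    nlinarith
  have nσu : ‖σ • u‖ = σ * ‖u‖ := by rw [norm_smul, Real.norm_eq_abs, abs_of_pos hσ0]
  -- membership
  have mx : ∀ z, ‖z‖ < δ → x + z ∈ ball x δ1 := fun z hz => by
    rw [mem_ball, dist_eq_norm, add_sub_cancel_left]; exact lt_of_lt_of_le hz (min_le_left _ _)
  have my : ∀ z, ‖z‖ < δ → y + z ∈ ball y δ2 := fun z hz => by
    rw [mem_ball, dist_eq_norm, add_sub_cancel_left]; exact lt_of_lt_of_le hz (min_le_right _ _)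
  have mx0 : x ∈ ball x δ1 := mem_ball_self hδ1
  have my0 : y ∈ ball y δ2 := mem_ball_self hδ2
  have nσ' : ‖-(σ • u)‖ = σ * ‖u‖ := by rw [norm_neg, nσu]
  have a1 := mx w1 (by linarith)
  have a2 := mx (σ • u) (by rw [nσu]; linarith)
  have a3 := mx (-(σ • u)) (by rw [nσ']; linarith)
  have b1 := my w2 (by linarith)
  have b2 := my (σ • u) (by rw [nσu]; linarith)
  have b3 := my (-(σ • u)) (by rw [nσ']; linarith)
  -- along the line
  have p0 : x = x + (0 : ℝ) • u := by module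
  have p1 : x + σ • u = x + σ • u := rfl
  have p2 : y + -(σ • u) = x + (1 - σ) • u := by rw [hyx]; module
  have p3 : y + σ • u = x + (1 + σ) • u := by rw [hyx]; module
  have p4 : x + -(σ • u) = x + (-σ) • u := by module
  have hyb : x + (1 : ℝ) • u ∈ ball x0 R := by rw [← hyx]; exact hy
  have hxb : x + (0 : ℝ) • u ∈ ball x0 R := by rw [← p0]; exact hx
  have D1 : d x y = d x (x + σ • u) + d (x + σ • u) (y + -(σ • u)) + d (y + -(σ • u)) y := by
    have e1 := G.d_add (x := x) (u := u) (s1 := 0) (s2 := σ) (s3 := 1) hσ0.le (by linarith) hxb hyb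
    have e2 := G.d_add (x := x) (u := u) (s1 := σ) (s2 := 1 - σ) (s3 := 1) (by linarith)
      (by linarith) (sub1 a2) hyb
    rw [p2]
    rw [← p0, ← hyx] at e1
    rw [← hyx] at e2
    linarith
  have D2 : d (x + -(σ • u)) (y + σ • u) = d (x + -(σ • u)) x + d x y + d y (y + σ • u) := by
    have m3 := sub2 b2
    have m4 := sub1 a3
    rw [p3] at m3
    rw [p4] at m4
    have e1 := G.d_add (x := x) (u := u) (s1 := -σ) (s2 := 0) (s3 := 1 + σ) (by linarith)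
      (by linarith) m4 m3
    have e2 := G.d_add (x := x) (u := u) (s1 := 0) (s2 := 1) (s3 := 1 + σ) (by linarith)
      (by linarith) hxb m3
    rw [p4, p3]
    rw [← p0] at e1 e2
    rw [← hyx] at e2
    linarith
  have N1 := (G.rad x hx).1
  have N2 := (G.rad y hy).1
  -- estimates of the short pieces
  have nsum : ∀ a b : ℝ × ℝ, ‖a‖ ≤ σ * ‖u‖ → ‖b‖ ≤ W → ‖a + b‖ ≤ σ * ‖u‖ + W := fun a b ha hb =>
    (norm_add_le a b).trans (add_le_add ha hb)
  have E1 : d (x + w1) (x + σ • u) ≤ σ * F x u - dN (F x) u w1 + c / 8 * W +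
      ε * (σ * ‖u‖ + W) := by
    have h1 := G.d_est sub1 un1 a1 a2
    have e : x + σ • u - (x + w1) = σ • u + -w1 := by abel
    rw [e] at h1
    have h2 := (G.rad x hx).diff_scaled (fun w hw => est1 w (hw.trans (min_le_left _ _))) hσ0
      (w := -w1) (by rw [norm_neg, hση]; exact hw1)
    rw [map_neg, norm_neg] at h2
    have h3 := nsum (σ • u) (-w1) nσu.le (by rw [norm_neg]; exact hw1)
    have h4 := (abs_le.1 h1).2
    have h5 := (abs_le.1 h2).2
    have h6 : ε * ‖σ • u + -w1‖ ≤ ε * (σ * ‖u‖ + W) := mul_le_mul_of_nonneg_left h3 hε0.le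
    have h7 : c / 8 * ‖w1‖ ≤ c / 8 * W := mul_le_mul_of_nonneg_left hw1 (by positivity)
    linarith
  have E2 : d (y + -(σ • u)) (y + w2) ≤ σ * F y u + dN (F y) u w2 + c / 8 * W +
      ε * (σ * ‖u‖ + W) := by
    have h1 := G.d_est sub2 un2 b3 b1
    have e : y + w2 - (y + -(σ • u)) = σ • u + w2 := by abel
    rw [e] at h1
    have h2 := (G.rad y hy).diff_scaled (fun w hw => est2 w (hw.trans (min_le_right _ _))) hσ0
      (w := w2) (by rw [hση]; exact hw2)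
    have h3 := nsum (σ • u) w2 nσu.le hw2
    have h4 := (abs_le.1 h1).2
    have h5 := (abs_le.1 h2).2
    have h6 : ε * ‖σ • u + w2‖ ≤ ε * (σ * ‖u‖ + W) := mul_le_mul_of_nonneg_left h3 hε0.le
    have h7 : c / 8 * ‖w2‖ ≤ c / 8 * W := mul_le_mul_of_nonneg_left hw2 (by positivity)
    linarith
  have E3 : d (x + -(σ • u)) (x + w1) ≤ σ * F x u + dN (F x) u w1 + c / 8 * W +
      ε * (σ * ‖u‖ + W) := by
    have h1 := G.d_est sub1 un1 a3 a1
    have e : x + w1 - (x + -(σ • u)) = σ • u + w1 := by abel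
    rw [e] at h1
    have h2 := (G.rad x hx).diff_scaled (fun w hw => est1 w (hw.trans (min_le_left _ _))) hσ0
      (w := w1) (by rw [hση]; exact hw1)
    have h3 := nsum (σ • u) w1 nσu.le hw1
    have h4 := (abs_le.1 h1).2
    have h5 := (abs_le.1 h2).2
    have h6 : ε * ‖σ • u + w1‖ ≤ ε * (σ * ‖u‖ + W) := mul_le_mul_of_nonneg_left h3 hε0.le
    have h7 : c / 8 * ‖w1‖ ≤ c / 8 * W := mul_le_mul_of_nonneg_left hw1 (by positivity)
    linarith
  have E4 : d (y + w2) (y + σ • u) ≤ σ * F y u - dN (F y) u w2 + c / 8 * W +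
      ε * (σ * ‖u‖ + W) := by
    have h1 := G.d_est sub2 un2 b1 b2
    have e : y + σ • u - (y + w2) = σ • u + -w2 := by abel
    rw [e] at h1
    have h2 := (G.rad y hy).diff_scaled (fun w hw => est2 w (hw.trans (min_le_right _ _))) hσ0
      (w := -w2) (by rw [norm_neg, hση]; exact hw2)
    rw [map_neg, norm_neg] at h2
    have h3 := nsum (σ • u) (-w2) nσu.le (by rw [norm_neg]; exact hw2)
    have h4 := (abs_le.1 h1).2
    have h5 := (abs_le.1 h2).2
    have h6 : ε * ‖σ • u + -w2‖ ≤ ε * (σ * ‖u‖ + W) := mul_le_mul_of_nonneg_left h3 hε0.le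
    have h7 : c / 8 * ‖w2‖ ≤ c / 8 * W := mul_le_mul_of_nonneg_left hw2 (by positivity)
    linarith
  have E5 : σ * F x u - ε * (σ * ‖u‖) ≤ d x (x + σ • u) := by
    have h1 := G.d_est sub1 un1 mx0 a2
    rw [add_sub_cancel_left, N1.smul, abs_of_pos hσ0, nσu] at h1
    linarith [(abs_le.1 h1).1]
  have E6 : σ * F x u - ε * (σ * ‖u‖) ≤ d (x + -(σ • u)) x := by
    have h1 := G.d_est sub1 un1 a3 mx0
    have e : x - (x + -(σ • u)) = σ • u := by abel
    rw [e, N1.smul, abs_of_pos hσ0, nσu] at h1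
    linarith [(abs_le.1 h1).1]
  have E7 : σ * F y u - ε * (σ * ‖u‖) ≤ d y (y + σ • u) := by
    have h1 := G.d_est sub2 un2 my0 b2
    rw [add_sub_cancel_left, N2.smul, abs_of_pos hσ0, nσu] at h1
    linarith [(abs_le.1 h1).1]
  have E8 : σ * F y u - ε * (σ * ‖u‖) ≤ d (y + -(σ • u)) y := by
    have h1 := G.d_est sub2 un2 b3 my0
    have e : y - (y + -(σ • u)) = σ • u := by abel
    rw [e, N2.smul, abs_of_pos hσ0, nσu] at h1
    linarith [(abs_le.1 h1).1]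
  have T1 : d (x + w1) (y + w2) ≤ d (x + w1) (x + σ • u) + d (x + σ • u) (y + -(σ • u)) +
      d (y + -(σ • u)) (y + w2) := by
    have h1 := G.tri _ (sub1 a1) _ (sub1 a2) _ (sub2 b1)
    have h2 := G.tri _ (sub1 a2) _ (sub2 b3) _ (sub2 b1)
    linarith
  have T2 : d (x + -(σ • u)) (y + σ • u) ≤ d (x + -(σ • u)) (x + w1) + d (x + w1) (y + w2) +
      d (y + w2) (y + σ • u) := by
    have h1 := G.tri _ (sub1 a3) _ (sub1 a1) _ (sub2 b2)
    have h2 := G.tri _ (sub1 a1) _ (sub2 b1) _ (sub2 b2)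
    linarith
  have key : ε * (4 * (σ * ‖u‖) + 2 * W) = c / 4 * W := by
    rw [hε, hσ]
    have : 4 * (4 * ‖u‖ / η + 2) ≠ 0 := by positivity
    field_simp
  rw [Real.norm_eq_abs, abs_le]
  constructor
  · nlinarith
  · nlinarith

end Geo

end Pool.Agent.Helper831.PM
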