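import Pool.Agent.Helper831.PMAff

namespace Pool.Agent.Helper831.PM

open Real Set Filter Topology Metric

namespace AffineMetric

variable {M : Set (ℝ × ℝ)} {F d : ℝ × ℝ → ℝ × ℝ → ℝ}

lemma far (A : AffineMetric M d) {y : ℝ × ℝ} (hy : y ∈ M) {ρ : ℝ} (hρ : 0 < ρ) :
    ∃ c > 0, ∀ z ∈ M, d y z < c → z ∈ ball y ρ := by
  obtain ⟨r1, hr1, hsub⟩ := Metric.isOpen_iff.1 A.isOpen y hy
  set r := min ρ (r1 / 2) with hr
  have hr0 : 0 < r := by positivity
  have hcb : closedBall y r ⊆ M := by
    refine (closedBall_subset_ball ?_).trans hsub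
    exact (min_le_right _ _).trans_lt (by linarith)
  have hcomp : IsCompact (sphere y r) := isCompact_sphere _ _
  have hne : (sphere y r).Nonempty := by
    refine ⟨y + r • (1, 0), ?_⟩
    rw [mem_sphere, dist_eq_norm, add_sub_cancel_left, norm_smul, Real.norm_eq_abs,
      abs_of_pos hr0]
    simp [Prod.norm_def]
  have hcont : ContinuousOn (fun w => d y w) (sphere y r) := by
    have c : ContinuousOn (fun w : ℝ × ℝ => (y, w)) (sphere y r) := by fun_prop
    exact ContinuousOn.comp (t := M ×ˢ M)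
      (g := fun p : (ℝ × ℝ) × (ℝ × ℝ) => d p.1 p.2) A.cont c
      (fun w hw => ⟨hy, hcb (sphere_subset_closedBall hw)⟩)
  obtain ⟨w0, hw0, hmin⟩ := hcomp.exists_isMinOn hne hcont
  have hw0M : w0 ∈ M := hcb (sphere_subset_closedBall hw0)
  refine ⟨d y w0, A.pos hy hw0M ?_, fun z hz hlt => ?_⟩
  · intro h
    rw [← h, mem_sphere, dist_self] at hw0
    linarith
  by_contra hcon
  rw [mem_ball, dist_eq_norm] at hcon
  push Not at hcon
  have hn : r ≤ ‖z - y‖ := (min_le_left _ _).trans hcon
  have hn0 : 0 < ‖z - y‖ := lt_of_lt_of_le hr0 hn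
  have hw : y + (r / ‖z - y‖) • (z - y) ∈ sphere y r := by
    rw [mem_sphere, dist_eq_norm, add_sub_cancel_left, norm_smul, Real.norm_eq_abs,
      abs_of_pos (by positivity), div_mul_cancel₀ _ hn0.ne']
  have hws : y + (r / ‖z - y‖) • (z - y) ∈ segment ℝ y z := by
    rw [segment_eq_image']
    exact ⟨r / ‖z - y‖, ⟨by positivity, (div_le_one hn0).2 hn⟩, rfl⟩
  have hwM := hcb (sphere_subset_closedBall hw)
  have h1 := (A.geodesic y hy _ hwM z hz).2 hws
  have h2 := hmin hw
  have h2' : d y w0 ≤ d y (y + (r / ‖z - y‖) • (z - y)) := h2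
  have h3 := A.nonneg hwM hz
  linarith

lemma add_ray (A : AffineMetric M d) {x u : ℝ × ℝ} (hx : x ∈ M) {s t : ℝ} (hs : 0 ≤ s)
    (hst : s ≤ t) (h1 : x + s • u ∈ M) (h2 : x + t • u ∈ M) :
    d x (x + t • u) = d x (x + s • u) + d (x + s • u) (x + t • u) := by
  refine ((A.geodesic x hx _ h1 _ h2).2 ?_).symm
  rw [segment_eq_image']
  rcases eq_or_lt_of_le (hs.trans hst) with h0 | h0
  · have h1 : s = 0 := le_antisymm (by rw [h0]; exact hst) hs
    exact ⟨0, ⟨le_rfl, zero_le_one⟩, by
      show x + (0 : ℝ) • (x + t • u - x) = x + s • u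
      rw [h1, zero_smul, zero_smul]⟩
  · refine ⟨s / t, ⟨div_nonneg hs h0.le, (div_le_one h0).2 hst⟩, ?_⟩
    show x + (s / t) • (x + t • u - x) = x + s • u
    rw [add_sub_cancel_left, smul_smul, div_mul_cancel₀ _ h0.ne']

/-- completeness: rays have infinite length -/
lemma ray_unbounded (A : AffineMetric M d) {x u : ℝ × ℝ} (hx : x ∈ M) (hu : u ≠ 0) (K : ℝ)
    (hK : ∀ t : ℝ, 0 ≤ t → x + t • u ∈ M → d x (x + t • u) ≤ K) : False := by
  set S : Set ℝ := {g | ∃ t : ℝ, 0 ≤ t ∧ x + t • u ∈ M ∧ g = d x (x + t • u)} with hS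
  have hne : S.Nonempty := ⟨d x x, 0, le_rfl, by simpa using hx, by simp⟩
  have hbdd : BddAbove S := ⟨K, by rintro _ ⟨t, ht, hm, rfl⟩; exact hK t ht hm⟩
  set G := sSup S with hG
  have hle : ∀ t : ℝ, 0 ≤ t → x + t • u ∈ M → d x (x + t • u) ≤ G := fun t ht hm =>
    le_csSup hbdd ⟨t, ht, hm, rfl⟩
  have hex : ∀ n : ℕ, ∃ t : ℝ, 0 ≤ t ∧ x + t • u ∈ M ∧ G - 1 / ((n : ℝ) + 1) < d x (x + t • u) := by
    intro n
    have hpos : (0 : ℝ) < 1 / ((n : ℝ) + 1) := by positivity
    obtain ⟨_, ⟨t, ht, hm, rfl⟩, hlt⟩ := exists_lt_of_lt_csSup hne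
      (show G - 1 / ((n : ℝ) + 1) < sSup S by linarith)
    exact ⟨t, ht, hm, hlt⟩
  choose t ht hm hlt using hex
  have hdist : ∀ m n, d (x + t m • u) (x + t n • u) < max (1 / ((m : ℝ) + 1)) (1 / ((n : ℝ) + 1)) := by
    intro m n
    rcases le_total (t m) (t n) with h | h
    · have h1 := A.add_ray hx (ht m) h (hm m) (hm n)
      have h2 := hle _ (ht n) (hm n)
      have h3 := hlt m
      exact lt_of_lt_of_le (by linarith) (le_max_left _ _)
    · have h1 := A.add_ray hx (ht n) h (hm n) (hm m)
      have h2 := hle _ (ht m) (hm m)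
      have h3 := hlt n
      rw [A.symm _ (hm m) _ (hm n)]
      exact lt_of_lt_of_le (by linarith) (le_max_right _ _)
  obtain ⟨y, hy, hlim⟩ := A.complete (fun n => x + t n • u) hm (by
    intro ε hε
    obtain ⟨n0, hn0⟩ := exists_nat_one_div_lt hε
    refine ⟨n0, fun m hm' n hn' => (hdist m n).trans (max_lt ?_ ?_)⟩
    · refine lt_of_le_of_lt ?_ hn0
      apply one_div_le_one_div_of_le (by positivity)
      have : (n0 : ℝ) ≤ m := by exact_mod_cast hm'
      linarith
    · refine lt_of_le_of_lt ?_ hn0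
      apply one_div_le_one_div_of_le (by positivity)
      have : (n0 : ℝ) ≤ n := by exact_mod_cast hn'
      linarith)
  have htend : Tendsto (fun n => x + t n • u) atTop (𝓝 y) := by
    rw [Metric.tendsto_atTop]
    intro ρ hρ
    obtain ⟨c, hc, hfar⟩ := A.far hy hρ
    obtain ⟨n0, hn0⟩ := hlim c hc
    refine ⟨n0, fun n hn => hfar _ (hm n) ?_⟩
    rw [A.symm y hy _ (hm n)]
    exact hn0 n hn
  obtain ⟨T, hT⟩ : ∃ T, Tendsto t atTop (𝓝 T) := by
    have h1 : u.1 ≠ 0 ∨ u.2 ≠ 0 := by
      by_contra hc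
      push Not at hc
      exact hu (Prod.ext hc.1 hc.2)
    rcases h1 with h1 | h1
    · refine ⟨(y.1 - x.1) / u.1, ?_⟩
      have c1 := (continuous_fst.tendsto y).comp htend
      have c2 := (c1.sub_const x.1).div_const u.1
      refine c2.congr fun n => ?_
      show ((x + t n • u).1 - x.1) / u.1 = t n
      simp only [Prod.fst_add, Prod.smul_fst, smul_eq_mul]
      field_simp; ring
    · refine ⟨(y.2 - x.2) / u.2, ?_⟩
      have c1 := (continuous_snd.tendsto y).comp htend
      have c2 := (c1.sub_const x.2).div_const u.2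
      refine c2.congr fun n => ?_
      show ((x + t n • u).2 - x.2) / u.2 = t n
      simp only [Prod.snd_add, Prod.smul_snd, smul_eq_mul]
      field_simp; ring
  have hyT : y = x + T • u :=
    tendsto_nhds_unique htend ((hT.smul_const u).const_add x)
  have hT0 : 0 ≤ T := ge_of_tendsto' hT ht
  have hcd : ContinuousAt (fun w => d x w) y := by
    have h1 : ContinuousAt (fun p : (ℝ × ℝ) × (ℝ × ℝ) => d p.1 p.2) (x, y) :=
      A.cont.continuousAt ((A.isOpen.prod A.isOpen).mem_nhds ⟨hx, hy⟩)
    have h2 : ContinuousAt (fun P : ℝ × ℝ => (x, P)) y := by fun_prop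
    exact ContinuousAt.comp (f := fun P : ℝ × ℝ => (x, P)) (x := y) h1 h2
  have hgT : G ≤ d x y := by
    have l1 : Tendsto (fun n : ℕ => G - 1 / ((n : ℝ) + 1)) atTop (𝓝 (G - 0)) :=
      tendsto_one_div_add_atTop_nhds_zero_nat.const_sub G
    have l2 : Tendsto (fun n => d x (x + t n • u)) atTop (𝓝 (d x y)) := hcd.tendsto.comp htend
    rw [sub_zero] at l1
    exact le_of_tendsto_of_tendsto' l1 l2 fun n => (hlt n).le
  -- beyond the limit point
  have c : ContinuousAt (fun ε : ℝ => x + (T + ε) • u) 0 := by fun_prop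
  have hM' : M ∈ 𝓝 (x + (T + (0 : ℝ)) • u) := by
    rw [add_zero, ← hyT]; exact A.isOpen.mem_nhds hy
  have ev := c.eventually hM'
  rw [Metric.eventually_nhds_iff] at ev
  obtain ⟨δ, hδ, hev⟩ := ev
  have h1 := @hev (δ / 2) (by
    rw [Real.dist_eq, sub_zero, abs_of_pos (by positivity)]; linarith)
  have hyM : x + T • u ∈ M := by rw [← hyT]; exact hy
  have h2 := A.add_ray hx hT0 (by linarith : T ≤ T + δ / 2) hyM h1
  have h3 := hle _ (by linarith) h1
  have hne' : x + T • u ≠ x + (T + δ / 2) • u := by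
    intro h
    have h4 : (δ / 2) • u = 0 := by
      have : x + (T + δ / 2) • u = x + T • u + (δ / 2) • u := by module
      rw [this] at h
      have := h.symm
      simpa using this
    exact smul_ne_zero (by positivity) hu h4
  have h5 := A.pos hyM h1 hne'
  rw [← hyT] at h2 h5
  linarith

/-- **Affine type.** -/
theorem main (A : AffineMetric M d) (hF : FinslerOn M F d)
    (hs : ∀ O ∈ M, ∀ u v : ℝ × ℝ, u ≠ 0 → v ≠ 0 → Perp M d O u v → Perp M d O v u) :
    (∀ x ∈ M, IsEuclid (F x)) ∨
      (M = univ ∧ ∃ N, RadonNorm N ∧ (∀ x y, d x y = N (y - x)) ∧ ∀ x u, F x u = N u) := by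
  have C := (A.preCore hF hs).core
  rcases C.main with h | ⟨D, b, hpos, hrel, hconst⟩
  · exact Or.inl h
  rcases M.eq_empty_or_nonempty with he | ⟨x, hx⟩
  · left; intro x hx; rw [he] at hx; exact absurd hx (notMem_empty x)
  right
  have hD : D = 0 := by
    by_contra hD
    obtain ⟨u, hu⟩ : ∃ u, 0 < D u := by
      obtain ⟨w, hw⟩ : ∃ w, D w ≠ 0 := by
        by_contra hcon
        push Not at hcon
        exact hD (ContinuousLinearMap.ext hcon)
      rcases lt_or_gt_of_ne hw with h | h
      · exact ⟨-w, by rw [map_neg]; linarith⟩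
      · exact ⟨w, h⟩
    have hu0 : u ≠ 0 := by rintro rfl; rw [map_zero] at hu; exact lt_irrefl _ hu
    set σ := D x + b with hσ
    have hσ0 : 0 < σ := hpos x hx
    have hFx := (hF.norm x hx).pos hu0
    refine A.ray_unbounded hx hu0 (F x u * σ / D u) fun t ht hm => ?_
    rw [A.int_eq hF hx hm]
    have e0 : x + t • u - x = t • u := by abel
    rw [e0]
    have hden : ∀ r ∈ Icc (0 : ℝ) 1, 0 < σ + r * t * D u := by
      intro r hr
      have := mul_nonneg (mul_nonneg hr.1 ht) hu.le
      linarith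
    have hder : ∀ r ∈ uIcc (0 : ℝ) 1, HasDerivAt
        (fun r : ℝ => F x u * σ * (t * r / (σ + r * t * D u)))
        (F (x + r • (t • u)) (t • u)) r := by
      intro r hr
      rw [uIcc_of_le zero_le_one] at hr
      have hd := hden r hr
      have hmr : x + (r * t) • u ∈ M := by
        have hseg := A.convex.segment_subset hx hm
        apply hseg
        rw [segment_eq_image']
        exact ⟨r, hr, by
          show x + r • (x + t • u - x) = x + (r * t) • u
          rw [e0, smul_smul]⟩
      have h1 := hrel x hx u (r * t) hmr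
      have e1 : D (x + (r * t) • u) + b = σ + r * t * D u := by
        rw [map_add, map_smul, smul_eq_mul, hσ]; ring
      rw [e1, ← hσ] at h1
      have e2 : F (x + r • (t • u)) (t • u) = t * (F x u * σ ^ 2 / (σ + r * t * D u) ^ 2) := by
        rw [smul_smul, (hF.norm _ hmr).smul, abs_of_nonneg ht]
        congr 1
        rw [eq_div_iff (by positivity)]
        exact h1
      rw [e2]
      have d1 : HasDerivAt (fun r : ℝ => t * r) t r := by
        simpa using (hasDerivAt_id r).const_mul t
      have d2 : HasDerivAt (fun r : ℝ => σ + r * t * D u) (t * D u) r := by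
        have := (((hasDerivAt_id r).mul_const t).mul_const (D u)).const_add σ
        simpa using this
      have d3 := ((d1.div d2 hd.ne').const_mul (F x u * σ))
      refine d3.congr_deriv ?_
      field_simp
      ring
    have hcont : ContinuousOn (fun r : ℝ => F (x + r • (t • u)) (t • u)) (uIcc 0 1) := by
      rw [uIcc_of_le zero_le_one]
      have c : ContinuousOn (fun r : ℝ => (x + r • (t • u), t • u)) (Icc 0 1) := by fun_prop
      refine ContinuousOn.comp (t := M ×ˢ univ)
        (g := fun p : (ℝ × ℝ) × (ℝ × ℝ) => F p.1 p.2) hF.cont c (fun r hr => ⟨?_, mem_univ _⟩)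
      have hseg := A.convex.segment_subset hx hm
      apply hseg
      rw [segment_eq_image']
      exact ⟨r, hr, by show x + r • (x + t • u - x) = x + r • (t • u); rw [e0]⟩
    rw [intervalIntegral.integral_eq_sub_of_hasDerivAt hder hcont.intervalIntegrable]
    simp only [mul_zero, zero_div, mul_one, one_mul, sub_zero]
    have h1 : 0 < σ + t * D u := by nlinarith [mul_nonneg ht hu.le]
    rw [mul_div_assoc' (F x u * σ), div_le_div_iff₀ h1 hu]
    have := mul_pos hFx hσ0
    nlinarith
  have hc := hconst hD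
  set N := F x with hN
  have hR : RadonNorm N := C.radon hx
  have hdN : ∀ y ∈ M, ∀ z ∈ M, d y z = N (z - y) := by
    intro y hy z hz
    rw [A.int_eq hF hy hz]
    have : ∀ t ∈ uIcc (0 : ℝ) 1, F (y + t • (z - y)) (z - y) = N (z - y) := by
      intro t ht
      rw [uIcc_of_le zero_le_one] at ht
      have hm : y + t • (z - y) ∈ M := by
        apply A.convex.segment_subset hy hz
        rw [segment_eq_image']
        exact ⟨t, ht, rfl⟩
      exact hc _ hm x hx _
    rw [intervalIntegral.integral_congr this]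
    simp
  have hM : M = univ := by
    rw [eq_univ_iff_forall]
    intro z
    by_contra hz
    have hu : z - x ≠ 0 := by
      intro h
      rw [sub_eq_zero] at h
      rw [h] at hz
      exact hz hx
    refine A.ray_unbounded hx hu (N (z - x)) fun t ht hm => ?_
    rw [hdN x hx _ hm]
    have e0 : x + t • (z - x) - x = t • (z - x) := by abel
    rw [e0, hR.1.smul, abs_of_nonneg ht]
    have ht1 : t < 1 := by
      by_contra hcon
      push Not at hcon
      apply hz
      apply A.convex.segment_subset hx hm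
      rw [segment_eq_image']
      refine ⟨1 / t, ⟨by positivity, by rw [div_le_one (by linarith)]; exact hcon⟩, ?_⟩
      show x + (1 / t) • (x + t • (z - x) - x) = z
      rw [e0, smul_smul, one_div, inv_mul_cancel₀ (by linarith), one_smul]
      abel
    nlinarith [hR.1.nonneg (z - x)]
  refine ⟨hM, N, hR, fun y z => hdN y (by rw [hM]; trivial) z (by rw [hM]; trivial),
    fun y u => hc y (by rw [hM]; trivial) x hx u⟩

end AffineMetric

end Pool.Agent.Helper831.PM
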