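import Pool.Agent.Helper831.PMOne

namespace Pool.Agent.Helper831.PM

open Real Set Filter Topology

lemma mvt_le {f f' : ℝ → ℝ} {a b C : ℝ} (hab : a ≤ b) (hf : ∀ x ∈ Icc a b, HasDerivAt f (f' x) x)
    (hC : ∀ x ∈ Icc a b, f' x ≤ C) : f b - f a ≤ C * (b - a) := by
  refine (convex_Icc a b).image_sub_le_mul_sub_of_deriv_le
    (fun x hx => (hf x hx).continuousAt.continuousWithinAt) ?_ ?_ a (left_mem_Icc.2 hab) b
    (right_mem_Icc.2 hab) hab
  · intro x hx
    exact (hf x (interior_subset hx)).differentiableAt.differentiableWithinAt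
  · intro x hx
    rw [(hf x (interior_subset hx)).deriv]
    exact hC x (interior_subset hx)

lemma mvt_abs {f f' : ℝ → ℝ} {a b C : ℝ} (hf : ∀ x, HasDerivAt f (f' x) x)
    (hC : ∀ x, |f' x| ≤ C) : |f b - f a| ≤ C * |b - a| := by
  have : ∀ a b, a ≤ b → |f b - f a| ≤ C * |b - a| := by
    intro a b hab
    rw [abs_of_nonneg (by linarith : 0 ≤ b - a), abs_le]
    constructor
    · have := mvt_le (f := fun x => - f x) (f' := fun x => - f' x) (C := C) hab
        (fun x _ => (hf x).neg) (fun x _ => by linarith [(abs_le.1 (hC x)).1])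
      linarith
    · exact mvt_le hab (fun x _ => hf x) (fun x _ => (abs_le.1 (hC x)).2)
  rcases le_total a b with h | h
  · exact this a b h
  · rw [abs_sub_comm, abs_sub_comm b a]; exact this b a h

lemma bdd_of_anti {f : ℝ → ℝ} (hc : Continuous f) (ha : ∀ φ, f (φ + π) = - f φ) :
    ∃ A > 0, ∀ φ, |f φ| ≤ A := by
  have hp : Function.Periodic (fun φ => |f φ|) π := fun φ => by
    show |f (φ + π)| = |f φ|
    rw [ha, abs_neg]
  have hb := hp.isBounded_of_continuous pi_pos.ne' hc.abs
  obtain ⟨A, hA⟩ := hb.exists_norm_le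
  refine ⟨|A| + 1, by positivity, fun φ => ?_⟩
  have := hA _ (mem_range_self φ)
  rw [Real.norm_eq_abs, abs_abs] at this
  linarith [le_abs_self A]

/-- `Om p` as a continuous linear map -/
noncomputable def OmL (p : ℝ × ℝ) : (ℝ × ℝ) →L[ℝ] ℝ :=
  p.1 • ContinuousLinearMap.snd ℝ ℝ ℝ - p.2 • ContinuousLinearMap.fst ℝ ℝ ℝ

lemma OmL_apply (p z : ℝ × ℝ) : OmL p z = Om p z := by
  simp only [OmL, Om, smul_apply, sub_apply, ContinuousLinearMap.coe_fst',
    ContinuousLinearMap.coe_snd', smul_eq_mul]

namespace RadonNorm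

variable {N : ℝ × ℝ → ℝ}

lemma ww_pos (h : RadonNorm N) (φ : ℝ) : 0 < ww N φ :=
  div_pos h.CC_pos (pow_pos (h.hh_pos φ) 2)

lemma continuous_ww (h : RadonNorm N) : Continuous (ww N) := by
  unfold ww
  exact continuous_const.div (h.continuous_hh.pow 2) fun φ => (pow_pos (h.hh_pos φ) 2).ne'

lemma ww_add_pi (h : RadonNorm N) (φ : ℝ) : ww N (φ + π) = ww N φ := by
  unfold ww; rw [h.hh_add_pi]

lemma ww_bounds (h : RadonNorm N) : ∃ w0 > 0, ∃ W > 0, ∀ φ, w0 ≤ ww N φ ∧ ww N φ ≤ W := by
  have hp : Function.Periodic (ww N) π := h.ww_add_pi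
  have hc : IsCompact (Icc (0 : ℝ) π) := isCompact_Icc
  have hne : (Icc (0 : ℝ) π).Nonempty := ⟨0, by simp [pi_pos.le]⟩
  obtain ⟨a, ha, hmin⟩ := hc.exists_isMinOn hne h.continuous_ww.continuousOn
  obtain ⟨b, hb, hmax⟩ := hc.exists_isMaxOn hne h.continuous_ww.continuousOn
  refine ⟨ww N a, h.ww_pos a, ww N b, h.ww_pos b, fun φ => ?_⟩
  obtain ⟨y, hy, e⟩ := hp.exists_mem_Ico₀ pi_pos φ
  rw [e]
  exact ⟨hmin (Ico_subset_Icc_self hy), hmax (Ico_subset_Icc_self hy)⟩

lemma hasDerivAt_Om_uu (h : RadonNorm N) (p : ℝ × ℝ) (φ : ℝ) :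
    HasDerivAt (fun φ => Om p (uu N φ)) (ww N φ * Om p (uu N (th N φ))) φ := by
  have := (OmL p).hasFDerivAt.comp_hasDerivAt φ (h.hasDerivAt_uu φ)
  refine (this.congr_deriv ?_).congr_of_eventuallyEq (Eventually.of_forall fun φ => ?_)
  · rw [map_smul, OmL_apply, smul_eq_mul]
  · show Om p (uu N φ) = OmL p (uu N φ)
    rw [OmL_apply]

lemma gap (h : RadonNorm N) {f : ℝ → ℝ}
    (hf : ∀ φ, HasDerivAt f (-2 * ww N φ * f (th N φ)) φ) (ha : ∀ φ, f (φ + π) = - f φ)
    {s1 s2 : ℝ} (h12 : s1 < s2) (h2 : s2 < s1 + π) (f1 : f s1 = 0) (f2 : f s2 = 0)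
    (hpos : ∀ t ∈ Ioo s1 s2, 0 < f t) :
    ∃ t ∈ Ioo s1 s2, 4 / 3 * Om (uu N s1) (uu N s2) < Om (uu N s1 - uu N s2) (uu N t) := by
  by_contra hcon
  push Not at hcon
  set p := uu N s1 - uu N s2 with hp
  set D := Om (uu N s1) (uu N s2) with hD
  have hD0 : 0 < D := h.Om_uu_uu_pos h12 h2
  obtain ⟨g, hg⟩ : ∃ g : ℝ → ℝ, g = fun φ => Om p (uu N φ) := ⟨_, rfl⟩
  have hg' : ∀ φ, HasDerivAt g (ww N φ * g (th N φ)) φ := by
    intro φ; rw [hg]; exact h.hasDerivAt_Om_uu p φ
  have hga : ∀ φ, g (φ + π) = - g φ := by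
    intro φ; simp only [hg]; rw [h.uu_add_pi, Om_neg_right]
  have g1 : g s1 = D := by
    simp only [hg, hp]; rw [Om_sub_left, Om_self, zero_sub, ← Om_swap]
  have g2 : g s2 = D := by
    simp only [hg, hp]; rw [Om_sub_left, Om_self, sub_zero]
  have fc : Continuous f := continuous_iff_continuousAt.2 fun φ => (hf φ).continuousAt
  have gc : Continuous g := continuous_iff_continuousAt.2 fun φ => (hg' φ).continuousAt
  obtain ⟨A1, hA1, bf⟩ := bdd_of_anti fc ha
  obtain ⟨A2, hA2, bg⟩ := bdd_of_anti gc hga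
  obtain ⟨w0, hw0, W, hW, hw⟩ := h.ww_bounds
  set A := max A1 A2 with hA
  have hApos : 0 < A := lt_max_of_lt_left hA1
  have bf' : ∀ φ, |f φ| ≤ A := fun φ => (bf φ).trans (le_max_left _ _)
  have bg' : ∀ φ, |g φ| ≤ A := fun φ => (bg φ).trans (le_max_right _ _)
  have bD : D ≤ A := by
    have := bg' s1; rw [g1] at this; exact (le_abs_self D).trans this
  set L := 2 * W * A with hL
  have hLpos : 0 < L := by positivity
  have lf : ∀ a b, |f b - f a| ≤ L * |b - a| := by
    intro a b
    refine mvt_abs hf fun x => ?_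
    rw [abs_mul, abs_mul]
    have h1 := bf' (th N x)
    have h2 := (hw x).2
    have h3 := h.ww_pos x
    rw [abs_of_pos h3]
    have : |(-2 : ℝ)| = 2 := by norm_num
    rw [this, hL]
    gcongr
  have lg : ∀ a b, |g b - g a| ≤ L * |b - a| := by
    intro a b
    refine mvt_abs hg' fun x => ?_
    rw [abs_mul]
    have h1 := bg' (th N x)
    have h2 := (hw x).2
    have h3 := h.ww_pos x
    rw [abs_of_pos h3, hL]
    have : ww N x * |g (th N x)| ≤ W * A := by gcongr
    nlinarith [mul_pos hW hApos]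
  obtain ⟨Ψ, hΨ⟩ : ∃ Ψ : ℝ → ℝ, Ψ = fun s => 2 * f (th N s) * g s + f s * g (th N s) -
    2 * D * f (th N s) := ⟨_, rfl⟩
  have Ψ1 : Ψ s1 = 0 := by simp only [hΨ]; rw [g1, f1]; ring
  have Ψ2 : Ψ s2 = 0 := by simp only [hΨ]; rw [g2, f2]; ring
  have mono := h.strictMono_th
  have inc : ∀ s s' c, s ≤ s' → 0 ≤ c → f s' * (3 * g s' - 4 * D) ≤ -c →
      Ψ s' - Ψ s ≤ (13 * W * A * L) * (s' - s) * (th N s' - th N s) -
        w0 * c * (th N s' - th N s) := by
    intro s s' c hss hc hfc
    set t := th N s with ht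
    set t' := th N s' with ht'
    have htt : t ≤ t' := mono.monotone hss
    -- variation in s
    have B2 : (2 * f t * g s' + f s' * g t - 2 * D * f t) - (2 * f t * g s + f s * g t -
        2 * D * f t) ≤ (4 * W * A * L * (t' - t)) * (s' - s) := by
      have := mvt_le (f := fun σ => 2 * f t * g σ + f σ * g t - 2 * D * f t)
        (f' := fun σ => 2 * f t * (ww N σ * g (th N σ)) + (-2 * ww N σ * f (th N σ)) * g t)
        (C := 4 * W * A * L * (t' - t)) hss
        (fun x _ => (((hg' x).const_mul (2 * f t)).add ((hf x).mul_const (g t))).sub_const _)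
        (fun x hx => by
          have e : 2 * f t * (ww N x * g (th N x)) + (-2 * ww N x * f (th N x)) * g t =
            2 * ww N x * (f t * (g (th N x) - g t) - (f (th N x) - f t) * g t) := by ring
          rw [e]
          have m1 : t ≤ th N x := mono.monotone hx.1
          have m2 : th N x ≤ t' := mono.monotone hx.2
          have q1 := lg t (th N x)
          have q2 := lf t (th N x)
          rw [abs_of_nonneg (by linarith : 0 ≤ th N x - t)] at q1 q2
          have q3 : L * (th N x - t) ≤ L * (t' - t) :=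
            mul_le_mul_of_nonneg_left (by linarith) hLpos.le
          have q4 : |f t * (g (th N x) - g t) - (f (th N x) - f t) * g t| ≤
              2 * A * (L * (t' - t)) := by
            refine (abs_sub _ _).trans ?_
            rw [abs_mul, abs_mul]
            have r1 : |f t| * |g (th N x) - g t| ≤ A * (L * (t' - t)) :=
              mul_le_mul (bf' t) (q1.trans q3) (abs_nonneg _) hApos.le
            have r2 : |f (th N x) - f t| * |g t| ≤ (L * (t' - t)) * A :=
              mul_le_mul (q2.trans q3) (bg' t) (abs_nonneg _)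
                (mul_nonneg hLpos.le (by linarith))
            linarith
          have q5 := (hw x).2
          have q6 := h.ww_pos x
          have q7 : 0 ≤ L * (t' - t) := mul_nonneg hLpos.le (by linarith)
          calc 2 * ww N x * (f t * (g (th N x) - g t) - (f (th N x) - f t) * g t)
              ≤ 2 * ww N x * |f t * (g (th N x) - g t) - (f (th N x) - f t) * g t| :=
                mul_le_mul_of_nonneg_left (le_abs_self _) (by positivity)
            _ ≤ 2 * W * (2 * A * (L * (t' - t))) := by gcongr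
            _ = 4 * W * A * L * (t' - t) := by ring)
      exact this
    -- variation in t
    have B1 : (2 * f t' * g s' + f s' * g t' - 2 * D * f t') - (2 * f t * g s' + f s' * g t -
        2 * D * f t) ≤ (9 * W * A * L * (s' - s) - w0 * c) * (t' - t) := by
      have := mvt_le (f := fun τ => 2 * f τ * g s' + f s' * g τ - 2 * D * f τ)
        (f' := fun τ => 2 * (-2 * ww N τ * f (th N τ)) * g s' + f s' * (ww N τ * g (th N τ)) -
          2 * D * (-2 * ww N τ * f (th N τ)))
        (C := 9 * W * A * L * (s' - s) - w0 * c) htt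
        (fun x _ => ((((hf x).const_mul 2).mul_const (g s')).add
          ((hg' x).const_mul (f s'))).sub ((hf x).const_mul (2 * D)))
        (fun τ hτ => by
          have m1 : s + π ≤ th N τ := by rw [← h.th_th s]; exact mono.monotone hτ.1
          have m2 : th N τ ≤ s' + π := by rw [← h.th_th s']; exact mono.monotone hτ.2
          set σ := th N τ - π with hσ
          have e0 : th N τ = σ + π := by rw [hσ]; ring
          have ef : f (th N τ) = - f σ := by rw [e0, ha]
          have eg : g (th N τ) = - g σ := by rw [e0, hga]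
          rw [ef, eg]
          have e : 2 * (-2 * ww N τ * -f σ) * g s' + f s' * (ww N τ * -g σ) -
            2 * D * (-2 * ww N τ * -f σ) = ww N τ * (f s' * (3 * g s' - 4 * D)) +
            ww N τ * (4 * (g s' - D) * (f σ - f s') - f s' * (g σ - g s')) := by ring
          rw [e]
          have q1 := lg s' σ
          have q2 := lf s' σ
          have q3 : |σ - s'| ≤ s' - s := by
            rw [abs_le]; constructor <;> linarith
          have q4 : L * |σ - s'| ≤ L * (s' - s) := mul_le_mul_of_nonneg_left q3 hLpos.le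
          have q5 : |g s' - D| ≤ 2 * A := by
            refine (abs_sub _ _).trans ?_
            rw [abs_of_pos hD0]; linarith [bg' s']
          have q6 : |4 * (g s' - D) * (f σ - f s') - f s' * (g σ - g s')| ≤
              9 * A * (L * (s' - s)) := by
            refine (abs_sub _ _).trans ?_
            rw [abs_mul, abs_mul, abs_mul]
            have e4 : |(4 : ℝ)| = 4 := by norm_num
            rw [e4]
            have r0 : 0 ≤ L * (s' - s) := mul_nonneg hLpos.le (by linarith)
            have r1 : |g s' - D| * |f σ - f s'| ≤ (2 * A) * (L * (s' - s)) :=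
              mul_le_mul q5 (q2.trans q4) (abs_nonneg _) (by positivity)
            have r2 : |f s'| * |g σ - g s'| ≤ A * (L * (s' - s)) :=
              mul_le_mul (bf' s') (q1.trans q4) (abs_nonneg _) hApos.le
            nlinarith
          have q7 := (hw τ).2
          have q8 := h.ww_pos τ
          have q9 := (hw τ).1
          have r0 : 0 ≤ L * (s' - s) := mul_nonneg hLpos.le (by linarith)
          have z1 : ww N τ * (f s' * (3 * g s' - 4 * D)) ≤ - (w0 * c) := by
            have : ww N τ * (f s' * (3 * g s' - 4 * D)) ≤ ww N τ * (-c) :=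
              mul_le_mul_of_nonneg_left hfc q8.le
            have : w0 * c ≤ ww N τ * c := mul_le_mul_of_nonneg_right q9 hc
            linarith
          have z2 : ww N τ * (4 * (g s' - D) * (f σ - f s') - f s' * (g σ - g s')) ≤
              9 * W * A * L * (s' - s) := by
            calc ww N τ * (4 * (g s' - D) * (f σ - f s') - f s' * (g σ - g s'))
                ≤ ww N τ * |4 * (g s' - D) * (f σ - f s') - f s' * (g σ - g s')| :=
                  mul_le_mul_of_nonneg_left (le_abs_self _) q8.le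
              _ ≤ W * (9 * A * (L * (s' - s))) := by gcongr
              _ = _ := by ring
          linarith)
      exact this
    have : Ψ s' - Ψ s = ((2 * f t' * g s' + f s' * g t' - 2 * D * f t') -
      (2 * f t * g s' + f s' * g t - 2 * D * f t)) +
      ((2 * f t * g s' + f s' * g t - 2 * D * f t) - (2 * f t * g s + f s * g t -
        2 * D * f t)) := by
      simp only [hΨ]; rw [← ht, ← ht']; ring
    rw [this]
    nlinarith
  have hle : ∀ s, s1 ≤ s → s ≤ s2 → f s * (3 * g s - 4 * D) ≤ 0 := by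
    intro s hs1 hs2
    rcases eq_or_lt_of_le hs1 with e | e
    · rw [← e, f1, zero_mul]
    rcases eq_or_lt_of_le hs2 with e' | e'
    · rw [e', f2, zero_mul]
    have a1 := hcon s ⟨e, e'⟩
    have a2 : g s = Om p (uu N s) := by rw [hg]
    rw [← a2] at a1
    exact mul_nonpos_of_nonneg_of_nonpos (hpos s ⟨e, e'⟩).le (by linarith)
  have weak : ∀ a b, s1 ≤ a → a ≤ b → b ≤ s2 → Ψ b ≤ Ψ a := by
    intro a b h1 h2 h3
    refine partition_le (T := th N) (K := 13 * W * A * L) h2 fun s s' k1 k2 k3 => ?_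
    have := inc s s' 0 k2 le_rfl (by
      have := hle s' (by linarith) (by linarith)
      linarith)
    simpa using this
  -- strict decrease somewhere
  obtain ⟨s0, hs0, hs0'⟩ : ∃ s0 ∈ Ioo s1 s2, g s0 < 4 / 3 * D := by
    have e1 : ∀ᶠ s in 𝓝[>] s1, g s < 4 / 3 * D :=
      (gc.continuousAt.mono_left nhdsWithin_le_nhds).eventually
        (gt_mem_nhds (by rw [g1]; linarith))
    have e2 : Ioo s1 s2 ∈ 𝓝[>] s1 := Ioo_mem_nhdsGT h12
    obtain ⟨s, hs, hs'⟩ := (e1.and e2).exists
    exact ⟨s, hs', hs⟩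
  set v := f s0 * (3 * g s0 - 4 * D) with hv
  have hv0 : v < 0 := mul_neg_of_pos_of_neg (hpos s0 hs0) (by linarith)
  obtain ⟨η, hη, hη2, hη3⟩ : ∃ η > 0, s0 + η < s2 ∧
      ∀ s ∈ Icc s0 (s0 + η), f s * (3 * g s - 4 * D) ≤ v / 2 := by
    have c1 : Continuous fun s => f s * (3 * g s - 4 * D) := by fun_prop
    have e1 : ∀ᶠ s in 𝓝 s0, f s * (3 * g s - 4 * D) < v / 2 :=
      c1.continuousAt.eventually (gt_mem_nhds (by
        show f s0 * (3 * g s0 - 4 * D) < v / 2
        rw [← hv]; linarith))
    rw [Metric.eventually_nhds_iff] at e1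
    obtain ⟨r, hr, hr'⟩ := e1
    refine ⟨min (r / 2) ((s2 - s0) / 2), by
      have := hs0.2
      exact lt_min (by linarith) (by linarith), ?_, ?_⟩
    · have := min_le_right (r / 2) ((s2 - s0) / 2)
      have := hs0.2
      linarith
    · intro s hs
      refine (hr' ?_).le
      have := min_le_left (r / 2) ((s2 - s0) / 2)
      rw [Real.dist_eq, abs_of_nonneg (by linarith [hs.1])]
      linarith [hs.2]
  have strict : Ψ (s0 + η) < Ψ s0 := by
    have := partition_le (Ψ := fun s => Ψ s + w0 * (-(v / 2)) * th N s) (T := th N)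
      (K := 13 * W * A * L) (a := s0) (b := s0 + η) (by linarith) (fun s s' k1 k2 k3 => by
        have := inc s s' (-(v / 2)) k2 (by linarith) (by
          have := hη3 s' ⟨by linarith, k3⟩
          linarith)
        have e : Ψ s' + w0 * (-(v / 2)) * th N s' - (Ψ s + w0 * (-(v / 2)) * th N s) =
          Ψ s' - Ψ s + w0 * (-(v / 2)) * (th N s' - th N s) := by ring
        rw [e]
        linarith)
    have m : th N s0 < th N (s0 + η) := mono (by linarith)
    have : 0 < w0 * (-(v / 2)) * (th N (s0 + η) - th N s0) :=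
      mul_pos (mul_pos hw0 (by linarith)) (by linarith)
    linarith
  have a1 := weak s1 s0 le_rfl hs0.1.le hs0.2.le
  have a2 := weak (s0 + η) s2 (by linarith [hs0.1]) hη2.le le_rfl
  rw [Ψ1] at a1
  rw [Ψ2] at a2
  linarith

end RadonNorm

end Pool.Agent.Helper831.PM
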