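import Mathlib

namespace Pool.Agent.Helper831.PM

open Real Set Filter Topology Metric MeasureTheory

noncomputable def bump0 : ContDiffBump (0 : ℝ × ℝ) := ⟨1 / 2, 1, by norm_num, by norm_num⟩
/-- the mollifier -/
noncomputable def mol (z : ℝ × ℝ) : ℝ := bump0.normed volume z
/-- its derivative -/
noncomputable def dm (z b : ℝ × ℝ) : ℝ := fderiv ℝ mol z b

lemma mol_contDiff : ContDiff ℝ 1 mol := by
  have := bump0.contDiff_normed (μ := volume) (n := 1)
  exact this

lemma mol_cont : Continuous mol := mol_contDiff.continuous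

lemma mol_zero {z : ℝ × ℝ} (hz : 1 ≤ ‖z‖) : mol z = 0 := by
  have h : z ∉ Function.support (bump0.normed volume) := by
    rw [bump0.support_normed_eq, mem_ball_zero_iff]
    exact not_lt.2 hz
  exact Function.notMem_support.1 h

lemma mol_integral : ∫ z, mol z = 1 := bump0.integral_normed

lemma mol_nonneg (z : ℝ × ℝ) : 0 ≤ mol z := bump0.nonneg_normed z

lemma mol_hasFDerivAt (z : ℝ × ℝ) : HasFDerivAt mol (fderiv ℝ mol z) z :=
  (mol_contDiff.differentiable (by norm_num) z).hasFDerivAt

lemma fderiv_mol_cont : Continuous (fderiv ℝ mol) := mol_contDiff.continuous_fderiv (by norm_num)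

lemma fderiv_mol_zero {z : ℝ × ℝ} (hz : 1 < ‖z‖) : fderiv ℝ mol z = 0 := by
  have h : z ∉ Function.support (fderiv ℝ mol) := by
    intro h
    have h1 := support_fderiv_subset ℝ h
    have h2 : tsupport mol = closedBall 0 1 := bump0.tsupport_normed_eq
    rw [h2, mem_closedBall_zero_iff] at h1
    linarith
  exact Function.notMem_support.1 h

lemma dm_zero {z : ℝ × ℝ} (hz : 1 < ‖z‖) (b : ℝ × ℝ) : dm z b = 0 := by
  unfold dm; rw [fderiv_mol_zero hz]; rfl

lemma dm_cont (b : ℝ × ℝ) : Continuous fun z => dm z b :=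
  fderiv_mol_cont.clm_apply continuous_const

lemma exists_dm_bound : ∃ B, 0 ≤ B ∧ ∀ z, ‖fderiv ℝ mol z‖ ≤ B := by
  have hc : HasCompactSupport (fderiv ℝ mol) := by
    refine HasCompactSupport.intro (isCompact_closedBall 0 1) fun z hz => ?_
    rw [mem_closedBall_zero_iff, not_le] at hz
    exact fderiv_mol_zero hz
  obtain ⟨B, hB⟩ := fderiv_mol_cont.bounded_above_of_compact_support hc
  exact ⟨B, (norm_nonneg _).trans (hB 0), hB⟩

lemma dm_le {B : ℝ} (hB : ∀ z, ‖fderiv ℝ mol z‖ ≤ B) (z b : ℝ × ℝ) : |dm z b| ≤ B * ‖b‖ := by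
  have := (fderiv ℝ mol z).le_opNorm b
  rw [Real.norm_eq_abs] at this
  exact this.trans (mul_le_mul_of_nonneg_right (hB z) (norm_nonneg _))

/-- continuous functions times a compactly supported one are integrable -/
lemma int_of_zero {f : ℝ × ℝ → ℝ} (hf : Continuous f) {ρ : ℝ} (h : ∀ z, ρ < ‖z‖ → f z = 0) :
    Integrable f := by
  refine hf.integrable_of_hasCompactSupport ?_
  refine HasCompactSupport.intro (isCompact_closedBall 0 ρ) fun z hz => ?_
  rw [mem_closedBall_zero_iff, not_le] at hz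
  exact h z hz

lemma bound_on {g : ℝ × ℝ → ℝ} (hg : Continuous g) (ρ : ℝ) :
    ∃ M, 0 ≤ M ∧ ∀ z, ‖z‖ ≤ ρ → |g z| ≤ M := by
  obtain ⟨M, hM⟩ := (isCompact_closedBall (0 : ℝ × ℝ) ρ).exists_bound_of_continuousOn
    hg.continuousOn
  refine ⟨max M 0, le_max_right _ _, fun z hz => ?_⟩
  have := hM z (by rw [mem_closedBall_zero_iff]; exact hz)
  exact this.trans (le_max_left _ _)

lemma integrable_ind (ρ c : ℝ) :
    Integrable ((closedBall (0 : ℝ × ℝ) ρ).indicator fun _ => c) := by
  rw [integrable_indicator_iff measurableSet_closedBall]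
  exact integrableOn_const (isCompact_closedBall _ _).measure_lt_top.ne

/-- derivative of a mollified translate -/
lemma hasDerivAt_TR {g : ℝ × ℝ → ℝ} (hg : Continuous g) (v : ℝ × ℝ) (t0 : ℝ) :
    HasDerivAt (fun t : ℝ => ∫ z, g (z + t • v) * mol z) (-∫ z, g (z + t0 • v) * dm z v) t0 := by
  obtain ⟨B, hB0, hB⟩ := exists_dm_bound
  have e1 : ∀ t : ℝ, ∫ z, g (z + t • v) * mol z = ∫ z, g z * mol (z - t • v) := by
    intro t
    have := integral_add_right_eq_self (μ := (volume : Measure (ℝ × ℝ)))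
      (fun z => g z * mol (z - t • v)) (t • v)
    simpa using this
  have e2 : ∫ z, g (z + t0 • v) * dm z v = ∫ z, g z * dm (z - t0 • v) v := by
    have := integral_add_right_eq_self (μ := (volume : Measure (ℝ × ℝ)))
      (fun z => g z * dm (z - t0 • v) v) (t0 • v)
    simpa using this
  simp_rw [e1]
  rw [e2]
  set ρ := 1 + (|t0| + 1) * ‖v‖ with hρ
  obtain ⟨M, hM0, hM⟩ := bound_on hg ρ
  have far : ∀ t ∈ ball t0 1, ∀ z : ℝ × ℝ, ρ < ‖z‖ → 1 < ‖z - t • v‖ := by
    intro t ht z hz
    have h1 : |t| < |t0| + 1 := by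
      rw [mem_ball, Real.dist_eq] at ht
      have := abs_sub_abs_le_abs_sub t t0
      linarith
    have h2 : ‖t • v‖ ≤ (|t0| + 1) * ‖v‖ := by
      rw [norm_smul, Real.norm_eq_abs]
      exact mul_le_mul_of_nonneg_right h1.le (norm_nonneg _)
    have h3 := norm_sub_norm_le z (t • v)
    linarith
  have cm : ∀ t : ℝ, Continuous fun z => mol (z - t • v) := fun t =>
    mol_cont.comp (continuous_id.sub continuous_const)
  have cd : ∀ t : ℝ, Continuous fun z => dm (z - t • v) v := fun t =>
    (dm_cont v).comp (continuous_id.sub continuous_const)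
  have main := hasDerivAt_integral_of_dominated_loc_of_deriv_le (μ := (volume : Measure (ℝ × ℝ)))
    (F := fun t z => g z * mol (z - t • v)) (F' := fun t z => g z * (-dm (z - t • v) v))
    (x₀ := t0) (s := ball t0 1) (bound := (closedBall (0 : ℝ × ℝ) ρ).indicator
      fun _ => M * (B * ‖v‖)) (ball_mem_nhds _ one_pos)
    (Eventually.of_forall fun t => (hg.mul (cm t)).aestronglyMeasurable)
    (int_of_zero (hg.mul (cm t0)) (ρ := ρ) fun z hz => by
      rw [mol_zero (far t0 (mem_ball_self one_pos) z hz).le, mul_zero])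
    (hg.mul (cd t0).neg).aestronglyMeasurable
    (Eventually.of_forall fun z t ht => by
      by_cases hz : ‖z‖ ≤ ρ
      · rw [indicator_of_mem (by rw [mem_closedBall_zero_iff]; exact hz), norm_mul, norm_neg,
          Real.norm_eq_abs, Real.norm_eq_abs]
        exact mul_le_mul (hM z hz) (dm_le hB _ _) (abs_nonneg _) hM0
      · rw [indicator_of_notMem (by rw [mem_closedBall_zero_iff]; exact hz),
          dm_zero (far t ht z (not_le.1 hz))]
        simp)
    (integrable_ind _ _)
    (Eventually.of_forall fun z t ht => by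
      have h1 : HasDerivAt (fun t : ℝ => z - t • v) (-v) t := by
        have := ((hasDerivAt_id t).smul_const v).const_sub z
        simpa using this
      have h2 := (mol_hasFDerivAt (z - t • v)).comp_hasDerivAt t h1
      have h3 := h2.const_mul (g z)
      refine h3.congr_deriv ?_
      unfold dm
      rw [map_neg])
  refine main.2.congr_deriv ?_
  rw [← integral_neg]
  congr 1
  ext z
  ring

/-- integration by parts against the mollifier -/
lemma ibp {g Dg : ℝ × ℝ → ℝ} (hg : Continuous g) (hDg : Continuous Dg) (v : ℝ × ℝ)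
    (hd : ∀ z, ‖z‖ < 2 → HasDerivAt (fun t : ℝ => g (z + t • v)) (Dg z) 0) :
    ∫ z, Dg z * mol z = -∫ z, g z * dm z v := by
  have h1 := hasDerivAt_TR hg v 0
  simp only [zero_smul, add_zero] at h1
  obtain ⟨M, hM0, hM⟩ := bound_on hDg 2
  set η := 1 / (‖v‖ + 1) with hη
  have hη0 : 0 < η := by positivity
  have near : ∀ t ∈ ball (0 : ℝ) η, ∀ z : ℝ × ℝ, ‖z‖ ≤ 1 → ‖z + t • v‖ < 2 := by
    intro t ht z hz
    rw [mem_ball_zero_iff, Real.norm_eq_abs] at ht
    have h2 : ‖t • v‖ < 1 := by
      rw [norm_smul, Real.norm_eq_abs]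
      have : |t| * (‖v‖ + 1) < 1 := by
        rw [hη, lt_div_iff₀ (by positivity)] at ht
        exact ht
      nlinarith [abs_nonneg t, norm_nonneg v]
    linarith [norm_add_le z (t • v)]
  have cg : ∀ t : ℝ, Continuous fun z => g (z + t • v) := fun t =>
    hg.comp (continuous_id.add continuous_const)
  have main := hasDerivAt_integral_of_dominated_loc_of_deriv_le (μ := (volume : Measure (ℝ × ℝ)))
    (F := fun t z => g (z + t • v) * mol z) (F' := fun t z => Dg (z + t • v) * mol z)
    (x₀ := (0 : ℝ)) (s := ball 0 η) (bound := fun z => M * mol z) (ball_mem_nhds _ hη0)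
    (Eventually.of_forall fun t => ((cg t).mul mol_cont).aestronglyMeasurable)
    (int_of_zero ((cg 0).mul mol_cont) (ρ := 1) fun z hz => by
      rw [mol_zero hz.le, mul_zero])
    ((hDg.comp (continuous_id.add continuous_const)).mul mol_cont).aestronglyMeasurable
    (Eventually.of_forall fun z t ht => by
      by_cases hz : ‖z‖ ≤ 1
      · rw [norm_mul, Real.norm_eq_abs, Real.norm_eq_abs, abs_of_nonneg (mol_nonneg z)]
        exact mul_le_mul_of_nonneg_right (hM _ (near t ht z hz).le) (mol_nonneg z)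
      · rw [mol_zero (not_le.1 hz).le]; simp)
    ((int_of_zero mol_cont (ρ := 1) fun z hz => mol_zero hz.le).const_mul M)
    (Eventually.of_forall fun z t ht => by
      by_cases hz : ‖z‖ ≤ 1
      · have h2 := hd (z + t • v) (near t ht z hz)
        have h3 : HasDerivAt (fun s : ℝ => s - t) 1 t := (hasDerivAt_id t).sub_const t
        have h4 : HasDerivAt (fun s : ℝ => g (z + t • v + (s - t) • v)) (Dg (z + t • v)) t := by
          have h2' : HasDerivAt (fun s : ℝ => g (z + t • v + s • v)) (Dg (z + t • v)) (t - t) := by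
            rw [sub_self]; exact h2
          have := HasDerivAt.comp (h₂ := fun s : ℝ => g (z + t • v + s • v))
            (h := fun s : ℝ => s - t) t h2' h3
          rw [mul_one] at this
          exact this
        have h5 : (fun s : ℝ => g (z + t • v + (s - t) • v)) = fun s : ℝ => g (z + s • v) := by
          funext s
          congr 1
          module
        rw [h5] at h4
        exact h4.mul_const _
      · simp only [mol_zero (not_le.1 hz).le, mul_zero]
        exact hasDerivAt_const t (0 : ℝ))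
  have h2 := main.2
  simp only [zero_smul, add_zero] at h2
  exact h2.unique h1

lemma dm_integral (b : ℝ × ℝ) : ∫ z, dm z b = 0 := by
  have := ibp (g := fun _ => 1) (Dg := fun _ => 0) continuous_const continuous_const b
    (fun z _ => by simpa using hasDerivAt_const (0 : ℝ) (1 : ℝ))
  simp only [zero_mul, integral_zero, one_mul] at this
  linarith

/-- total variation constant of the mollifier -/
noncomputable def C0 : ℝ := ∫ z, ‖fderiv ℝ mol z‖

lemma C0_nonneg : 0 ≤ C0 := integral_nonneg fun _ => norm_nonneg _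

/-- the mollified directional derivative at scale `ε` -/
noncomputable def AA (ε : ℝ) (x b : ℝ × ℝ) (g : ℝ × ℝ → ℝ) : ℝ :=
  -ε⁻¹ * ∫ z, g (x + ε • z) * dm z b

lemma AA_int {g : ℝ × ℝ → ℝ} (hg : Continuous g) (ε : ℝ) (x b : ℝ × ℝ) :
    Integrable fun z => g (x + ε • z) * dm z b := by
  refine int_of_zero (Continuous.mul ?_ (dm_cont b)) (ρ := 1) fun z hz => by
    rw [dm_zero hz, mul_zero]
  exact hg.comp (continuous_const.add (continuous_id.const_smul ε))

lemma AA_add {g : ℝ × ℝ → ℝ} (hg : Continuous g) (ε : ℝ) (x b c : ℝ × ℝ) :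
    AA ε x (b + c) g = AA ε x b g + AA ε x c g := by
  unfold AA
  rw [← mul_add, ← integral_add (AA_int hg ε x b) (AA_int hg ε x c)]
  congr 2
  ext z
  unfold dm
  rw [map_add]; ring

lemma AA_smul (ε : ℝ) (x b : ℝ × ℝ) (c : ℝ) (g : ℝ × ℝ → ℝ) :
    AA ε x (c • b) g = c * AA ε x b g := by
  unfold AA
  have : ∫ z, g (x + ε • z) * dm z (c • b) = c * ∫ z, g (x + ε • z) * dm z b := by
    rw [← integral_const_mul]
    congr 1
    ext z
    unfold dm
    rw [map_smul, smul_eq_mul]; ring
  rw [this]; ring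

lemma AA_sub_g {g1 g2 : ℝ × ℝ → ℝ} (h1 : Continuous g1) (h2 : Continuous g2) (ε : ℝ)
    (x b : ℝ × ℝ) : AA ε x b (fun y => g1 y - g2 y) = AA ε x b g1 - AA ε x b g2 := by
  unfold AA
  rw [← mul_sub, ← integral_sub (AA_int h1 ε x b) (AA_int h2 ε x b)]
  congr 2
  ext z
  ring

lemma AA_add_g {g1 g2 : ℝ × ℝ → ℝ} (h1 : Continuous g1) (h2 : Continuous g2) (ε : ℝ)
    (x b : ℝ × ℝ) : AA ε x b (fun y => g1 y + g2 y) = AA ε x b g1 + AA ε x b g2 := by
  unfold AA
  rw [← mul_add, ← integral_add (AA_int h1 ε x b) (AA_int h2 ε x b)]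
  congr 2
  ext z
  ring

lemma AA_mul_g (ε : ℝ) (x b : ℝ × ℝ) (c : ℝ) (g : ℝ × ℝ → ℝ) :
    AA ε x b (fun y => c * g y) = c * AA ε x b g := by
  unfold AA
  have : ∫ z, c * g (x + ε • z) * dm z b = c * ∫ z, g (x + ε • z) * dm z b := by
    rw [← integral_const_mul]
    congr 1
    ext z
    ring
  rw [this]; ring

lemma AA_bound {g : ℝ × ℝ → ℝ} (hg : Continuous g) {ε L : ℝ} (hε : 0 < ε) {x : ℝ × ℝ}
    (b : ℝ × ℝ) (h : ∀ y, ‖y - x‖ ≤ ε → |g y - g x| ≤ L * ε) : |AA ε x b g| ≤ C0 * ‖b‖ * L := by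
  have e1 : ∫ z, g (x + ε • z) * dm z b = ∫ z, (g (x + ε • z) - g x) * dm z b := by
    have h0 : ∫ z, g x * dm z b = 0 := by rw [integral_const_mul, dm_integral, mul_zero]
    have h2 : Integrable fun z => g x * dm z b :=
      (int_of_zero (dm_cont b) (ρ := 1) fun z hz => dm_zero hz b).const_mul _
    have : ∫ z, (g (x + ε • z) - g x) * dm z b =
        (∫ z, g (x + ε • z) * dm z b) - ∫ z, g x * dm z b := by
      rw [← integral_sub (AA_int hg ε x b) h2]
      congr 1
      ext z
      ring
    rw [this, h0, sub_zero]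
  have hI : Integrable fun z => ‖fderiv ℝ mol z‖ :=
    int_of_zero fderiv_mol_cont.norm (ρ := 1) fun z hz => by rw [fderiv_mol_zero hz, norm_zero]
  have e2 : |∫ z, (g (x + ε • z) - g x) * dm z b| ≤ L * ε * ‖b‖ * C0 := by
    have := norm_integral_le_of_norm_le (μ := (volume : Measure (ℝ × ℝ)))
      (f := fun z => (g (x + ε • z) - g x) * dm z b)
      (g := fun z => L * ε * ‖b‖ * ‖fderiv ℝ mol z‖) (hI.const_mul _)
      (Eventually.of_forall fun z => by
        rw [norm_mul, Real.norm_eq_abs, Real.norm_eq_abs]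
        by_cases hz : ‖z‖ ≤ 1
        · have h1 : |g (x + ε • z) - g x| ≤ L * ε := by
            apply h
            rw [add_sub_cancel_left, norm_smul, Real.norm_eq_abs, abs_of_pos hε]
            nlinarith
          have h2 : |dm z b| ≤ ‖fderiv ℝ mol z‖ * ‖b‖ := by
            have := (fderiv ℝ mol z).le_opNorm b
            rwa [Real.norm_eq_abs] at this
          calc |g (x + ε • z) - g x| * |dm z b| ≤ (L * ε) * (‖fderiv ℝ mol z‖ * ‖b‖) := by
                gcongr
                exact (abs_nonneg _).trans h1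
            _ = _ := by ring
        · rw [dm_zero (not_le.1 hz), fderiv_mol_zero (not_le.1 hz)]
          simp)
    rw [integral_const_mul, Real.norm_eq_abs] at this
    exact this
  unfold AA
  rw [abs_mul, abs_neg, abs_of_pos (inv_pos.2 hε), e1]
  calc ε⁻¹ * |∫ z, (g (x + ε • z) - g x) * dm z b| ≤ ε⁻¹ * (L * ε * ‖b‖ * C0) := by gcongr
    _ = _ := by field_simp

end Pool.Agent.Helper831.PM
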