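import Pool.Agent.Helper831.PMLin3
import Pool.Agent.Helper831.PMMol

namespace Pool.Agent.Helper831.PM

open Real Set Filter Topology Metric MeasureTheory

/-- coordinatewise clamping to a closed square -/
noncomputable def cl (c : ℝ × ℝ) (ρ : ℝ) (y : ℝ × ℝ) : ℝ × ℝ :=
  (max (c.1 - ρ) (min (c.1 + ρ) y.1), max (c.2 - ρ) (min (c.2 + ρ) y.2))

lemma cl_cont (c : ℝ × ℝ) (ρ : ℝ) : Continuous (cl c ρ) := by
  unfold cl; fun_prop

lemma cl_mem (c : ℝ × ℝ) {ρ : ℝ} (hρ : 0 ≤ ρ) (y : ℝ × ℝ) : cl c ρ y ∈ closedBall c ρ := by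
  have key : ∀ a b : ℝ, |max (a - ρ) (min (a + ρ) b) - a| ≤ ρ := by
    intro a b
    rw [abs_le]
    constructor
    · have := le_max_left (a - ρ) (min (a + ρ) b); linarith
    · have h1 : max (a - ρ) (min (a + ρ) b) ≤ a + ρ :=
        max_le (by linarith) (min_le_left _ _)
      linarith
  rw [mem_closedBall, dist_eq_norm, Prod.norm_def, max_le_iff]
  exact ⟨key _ _, key _ _⟩

lemma cl_eq {c : ℝ × ℝ} {ρ : ℝ} {y : ℝ × ℝ} (hy : y ∈ closedBall c ρ) : cl c ρ y = y := by
  rw [mem_closedBall, dist_eq_norm, Prod.norm_def, max_le_iff] at hy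
  have h1 := abs_le.1 (show |y.1 - c.1| ≤ ρ from hy.1)
  have h2 := abs_le.1 (show |y.2 - c.2| ≤ ρ from hy.2)
  unfold cl
  rw [min_eq_right (by linarith [h1.2]), min_eq_right (by linarith [h2.2]),
    max_eq_right (by linarith [h1.1]), max_eq_right (by linarith [h2.1])]

namespace Geo

variable {x0 : ℝ × ℝ} {R m Λ K : ℝ} {F : ℝ × ℝ → ℝ × ℝ → ℝ} {d : ℝ × ℝ → ℝ × ℝ → ℝ}

lemma cl_in (G : Geo x0 R m Λ F d) (y : ℝ × ℝ) : cl x0 (R / 2) y ∈ ball x0 R :=
  closedBall_subset_ball (by linarith [G.hR]) (cl_mem x0 (by linarith [G.hR]) y)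

lemma cl_id {y : ℝ × ℝ} (hy : y ∈ ball x0 (R / 2)) : cl x0 (R / 2) y = y :=
  cl_eq (ball_subset_closedBall hy)

lemma Fc_cont (G : Geo x0 R m Λ F d) :
    Continuous fun p : (ℝ × ℝ) × (ℝ × ℝ) => F (cl x0 (R / 2) p.1) p.2 := by
  rw [continuous_iff_continuousAt]
  rintro ⟨y, u⟩
  have g : ContinuousAt (fun p : (ℝ × ℝ) × (ℝ × ℝ) => (cl x0 (R / 2) p.1, p.2)) (y, u) := by
    have := cl_cont x0 (R / 2)
    fun_prop
  exact ContinuousAt.comp (f := fun p : (ℝ × ℝ) × (ℝ × ℝ) => (cl x0 (R / 2) p.1, p.2))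
    (x := (y, u)) (G.contAt (G.cl_in y) u) g

lemma Hc_cont (G : Geo x0 R m Λ F d) {u : ℝ × ℝ} (hu : u ≠ 0) (b : ℝ × ℝ) :
    Continuous fun y => dN (F (cl x0 (R / 2) y)) u b := by
  rw [continuous_iff_continuousAt]
  intro y
  have g : ContinuousAt (fun y : ℝ × ℝ => (cl x0 (R / 2) y, u)) y := by
    have := cl_cont x0 (R / 2)
    fun_prop
  exact ContinuousAt.comp (f := fun y : ℝ × ℝ => (cl x0 (R / 2) y, u)) (x := y)
    (G.dN_contAt (G.cl_in y) hu b) g

lemma Fu_cont (G : Geo x0 R m Λ F d) (u : ℝ × ℝ) :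
    Continuous fun y => F (cl x0 (R / 2) y) u :=
  G.Fc_cont.comp (continuous_id.prodMk continuous_const)

/-- weak form of Hamel's equation -/
lemma weak_hamel (G : Geo x0 R m Λ F d) {x : ℝ × ℝ} (hx : x ∈ ball x0 (R / 4)) {ε : ℝ}
    (hε : 0 < ε) (hεR : ε ≤ R / 32) {u : ℝ × ℝ} (hu : u ≠ 0) (hun : ‖u‖ ≤ 1) (b : ℝ × ℝ) :
    AA ε x u (fun y => dN (F (cl x0 (R / 2) y)) u b) =
      AA ε x b (fun y => F (cl x0 (R / 2) y) u) := by
  have hR := G.hR
  have hΛ := G.hΛ
  set Hc : ℝ × ℝ → ℝ := fun y => dN (F (cl x0 (R / 2) y)) u b with hHc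
  have hHcc : Continuous Hc := G.Hc_cont hu b
  set Fu : ℝ × ℝ → ℝ := fun y => F (cl x0 (R / 2) y) u with hFu
  have hFuc : Continuous Fu := G.Fu_cont u
  set ga : ℝ → ℝ × ℝ → ℝ := fun α y => ∫ s in (0 : ℝ)..α, Fu (y + s • u) with hga
  have hgac : ∀ α, Continuous (ga α) := by
    intro α
    have : Continuous (Function.uncurry fun (y : ℝ × ℝ) (s : ℝ) => Fu (y + s • u)) := by
      refine hFuc.comp ?_
      fun_prop
    exact intervalIntegral.continuous_parametric_intervalIntegral_of_continuous' this 0 α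
  have mem1 : ∀ z : ℝ × ℝ, ‖z‖ < 2 → x + ε • z ∈ ball x0 (R / 4 + R / 16) := by
    intro z hz
    refine mem_add hx ?_
    rw [norm_smul, Real.norm_eq_abs, abs_of_pos hε]
    nlinarith [norm_nonneg z]
  have mem2 : ∀ z : ℝ × ℝ, ‖z‖ < 2 → ∀ s : ℝ, |s| ≤ R / 32 → x + ε • z + s • u ∈ ball x0 (R / 2) := by
    intro z hz s hs
    have h1 := mem_add (mem1 z hz) (w := s • u) (s := R / 32) (by
      rw [norm_smul, Real.norm_eq_abs]
      nlinarith [norm_nonneg u, abs_nonneg s])
    exact ball_subset_ball (by linarith) h1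
  -- integration by parts for each small α
  have P1 : ∀ α, 0 < α → α ≤ R / 32 → ε * ((∫ z, Hc (x + ε • (z + (α / ε) • u)) * mol z) -
      ∫ z, Hc (x + ε • z) * mol z) = -∫ z, ga α (x + ε • z) * dm z b := by
    intro α hα hαR
    have hcx : Continuous fun z : ℝ × ℝ => x + ε • z := by fun_prop
    have h1 := ibp (g := fun z => ga α (x + ε • z))
      (Dg := fun z => ε * (Hc (x + ε • z + α • u) - Hc (x + ε • z)))
      ((hgac α).comp hcx)
      (continuous_const.mul ((hHcc.comp (hcx.add continuous_const)).sub (hHcc.comp hcx))) b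
      (by
        intro z hz
        set y := x + ε • z with hy
        have hyb : y ∈ ball x0 (R / 2) := by
          have := mem2 z hz 0 (by rw [abs_zero]; positivity)
          rwa [zero_smul, add_zero] at this
        have hyb' : y + α • u ∈ ball x0 (R / 2) := mem2 z hz α (by rw [abs_of_pos hα]; exact hαR)
        have hsub : ball x0 (R / 2) ⊆ ball x0 R := ball_subset_ball (by linarith)
        have hau : α • u ≠ 0 := smul_ne_zero hα.ne' hu
        have hne : y ≠ y + α • u := by intro h; exact hau (by simpa using h.symm)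
        have d1 := G.hasFDerivAt_d (hsub hyb) (hsub hyb') hne
        have l1 : HasDerivAt (fun t : ℝ => y + t • (ε • b)) (ε • b) 0 := by
          have := ((hasDerivAt_id (0 : ℝ)).smul_const (ε • b)).const_add y
          simpa using this
        have l2 : HasDerivAt (fun t : ℝ => (y + t • (ε • b), y + t • (ε • b) + α • u))
            (ε • b, ε • b) 0 := l1.prodMk (l1.add_const _)
        have d1' : HasFDerivAt (fun p : (ℝ × ℝ) × (ℝ × ℝ) => d p.1 p.2)
            ((dN (F (y + α • u)) (y + α • u - y)).comp (ContinuousLinearMap.snd ℝ (ℝ × ℝ) (ℝ × ℝ)) -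
            (dN (F y) (y + α • u - y)).comp (ContinuousLinearMap.fst ℝ (ℝ × ℝ) (ℝ × ℝ)))
            (y + (0 : ℝ) • (ε • b), y + (0 : ℝ) • (ε • b) + α • u) := by
          rw [zero_smul, add_zero]; exact d1
        have d2 := d1'.comp_hasDerivAt (0 : ℝ) l2
        have hval : HasDerivAt (fun t : ℝ => d (y + t • (ε • b)) (y + t • (ε • b) + α • u))
            (ε * (Hc (y + α • u) - Hc y)) 0 := by
          refine d2.congr_deriv ?_
          simp only [sub_apply, ContinuousLinearMap.comp_apply, ContinuousLinearMap.coe_snd',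
            ContinuousLinearMap.coe_fst', add_sub_cancel_left]
          rw [(G.rad _ (hsub hyb')).dN_smul hu hα, (G.rad _ (hsub hyb)).dN_smul hu hα, map_smul,
            map_smul, smul_eq_mul, smul_eq_mul]
          simp only [hHc]
          rw [cl_id hyb, cl_id hyb']
          ring
        refine hval.congr_of_eventuallyEq ?_
        have ev1 : ∀ᶠ t : ℝ in 𝓝 0, y + t • (ε • b) ∈ ball x0 (R / 2) := by
          have hc : ContinuousAt (fun t : ℝ => y + t • (ε • b)) 0 := by fun_prop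
          exact hc.eventually (isOpen_ball.mem_nhds (by simpa using hyb))
        have ev2 : ∀ᶠ t : ℝ in 𝓝 0, y + t • (ε • b) + α • u ∈ ball x0 (R / 2) := by
          have hc : ContinuousAt (fun t : ℝ => y + t • (ε • b) + α • u) 0 := by fun_prop
          exact hc.eventually (isOpen_ball.mem_nhds (by simpa using hyb'))
        filter_upwards [ev1, ev2] with t ht1 ht2
        have e0 : x + ε • (z + t • b) = y + t • (ε • b) := by rw [hy]; module
        show ga α (x + ε • (z + t • b)) = _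
        rw [e0]
        have e1 := G.d_line (x := y + t • (ε • b)) (u := u) (s1 := 0) (s2 := α) hα.le
          (by rw [zero_smul, add_zero]; exact hsub ht1) (hsub ht2)
        rw [zero_smul, add_zero] at e1
        rw [e1]
        simp only [hga]
        refine intervalIntegral.integral_congr fun s hs => ?_
        rw [uIcc_of_le hα.le] at hs
        have hm : y + t • (ε • b) + s • u ∈ ball x0 (R / 2) :=
          line_mem (s1 := 0) (s2 := α) (by rw [zero_smul, add_zero]; exact ht1) ht2 hs.1 hs.2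
        simp only [hFu]
        rw [cl_id hm])
    have h2 : ∫ z, ε * (Hc (x + ε • z + α • u) - Hc (x + ε • z)) * mol z =
        ε * ((∫ z, Hc (x + ε • (z + (α / ε) • u)) * mol z) - ∫ z, Hc (x + ε • z) * mol z) := by
      rw [← integral_sub, ← integral_const_mul]
      · congr 1
        ext z
        have e : x + ε • (z + (α / ε) • u) = x + ε • z + α • u := by
          rw [smul_add, smul_smul, mul_div_cancel₀ _ hε.ne']; abel
        rw [e]; ring
      · refine int_of_zero (Continuous.mul ?_ mol_cont) (ρ := 1) fun z hz => by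
          rw [mol_zero hz.le, mul_zero]
        refine hHcc.comp ?_
        fun_prop
      · exact int_of_zero ((hHcc.comp hcx).mul mol_cont) (ρ := 1) fun z hz => by
          rw [mol_zero hz.le, mul_zero]
    rw [← h2]; exact h1
  -- derivative of the left side
  have hcx : Continuous fun z : ℝ × ℝ => x + ε • z := by fun_prop
  have R1 := hasDerivAt_TR (g := fun z => Hc (x + ε • z)) (hHcc.comp hcx) u 0
  simp only [zero_smul, add_zero] at R1
  -- derivative of the right side
  have S1 : HasDerivAt (fun α => ∫ z, ga α (x + ε • z) * dm z b)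
      (∫ z, Fu (x + ε • z) * dm z b) 0 := by
    have hFb : ∀ y, |Fu y| ≤ Λ := by
      intro y
      have h1 := G.up _ (G.cl_in y) u
      have h2 := (G.rad _ (G.cl_in y)).1.nonneg u
      rw [abs_of_nonneg h2]
      nlinarith [norm_nonneg u]
    have hI : Integrable fun z => ‖fderiv ℝ mol z‖ :=
      int_of_zero fderiv_mol_cont.norm (ρ := 1) fun z hz => by rw [fderiv_mol_zero hz, norm_zero]
    have main := hasDerivAt_integral_of_dominated_loc_of_deriv_le
      (μ := (volume : Measure (ℝ × ℝ)))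
      (F := fun α z => ga α (x + ε • z) * dm z b)
      (F' := fun α z => Fu (x + ε • z + α • u) * dm z b)
      (x₀ := (0 : ℝ)) (s := ball 0 1) (bound := fun z => Λ * ‖b‖ * ‖fderiv ℝ mol z‖)
      (ball_mem_nhds _ one_pos)
      (Eventually.of_forall fun α => (((hgac α).comp hcx).mul (dm_cont b)).aestronglyMeasurable)
      (int_of_zero (((hgac 0).comp hcx).mul (dm_cont b)) (ρ := 1) fun z hz => by
        rw [dm_zero hz, mul_zero])
      ((hFuc.comp (hcx.add continuous_const)).mul (dm_cont b)).aestronglyMeasurable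
      (Eventually.of_forall fun z α _ => by
        have h2 : |dm z b| ≤ ‖fderiv ℝ mol z‖ * ‖b‖ := by
          have := (fderiv ℝ mol z).le_opNorm b
          rwa [Real.norm_eq_abs] at this
        rw [norm_mul, Real.norm_eq_abs, Real.norm_eq_abs]
        calc |Fu (x + ε • z + α • u)| * |dm z b| ≤ Λ * (‖fderiv ℝ mol z‖ * ‖b‖) := by
              gcongr
              exact hFb _
          _ = _ := by ring)
      (hI.const_mul _)
      (Eventually.of_forall fun z α _ => by
        have hc : Continuous fun s : ℝ => Fu (x + ε • z + s • u) := by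
          refine hFuc.comp ?_
          fun_prop
        have := (hc.integral_hasStrictDerivAt 0 α).hasDerivAt
        exact this.mul_const _)
    have := main.2
    simpa using this
  have hZ : HasDerivAt (fun α : ℝ => ε * ((∫ z, Hc (x + ε • (z + (α / ε) • u)) * mol z) -
      ∫ z, Hc (x + ε • z) * mol z) + ∫ z, ga α (x + ε • z) * dm z b)
      (ε * ((-∫ z, Hc (x + ε • z) * dm z u) * ε⁻¹) + ∫ z, Fu (x + ε • z) * dm z b) 0 := by
    have l1 : HasDerivAt (fun α : ℝ => α / ε) ε⁻¹ 0 := by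
      have := (hasDerivAt_id (0 : ℝ)).div_const ε
      simpa using this
    have R1' : HasDerivAt (fun t : ℝ => ∫ z, Hc (x + ε • (z + t • u)) * mol z)
        (-∫ z, Hc (x + ε • z) * dm z u) (0 / ε) := by
      rw [zero_div]; exact R1
    have R2 := HasDerivAt.comp (h₂ := fun t : ℝ => ∫ z, Hc (x + ε • (z + t • u)) * mol z)
      (h := fun α : ℝ => α / ε) 0 R1' l1
    exact ((R2.sub_const _).const_mul ε).add S1
  have hZ0 : HasDerivWithinAt (fun α : ℝ => ε * ((∫ z, Hc (x + ε • (z + (α / ε) • u)) * mol z) -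
      ∫ z, Hc (x + ε • z) * mol z) + ∫ z, ga α (x + ε • z) * dm z b) 0 (Ici 0) 0 := by
    refine (hasDerivWithinAt_const (0 : ℝ) (Ici 0) (0 : ℝ)).congr_of_eventuallyEq ?_ ?_
    · have : Iio (R / 32) ∈ 𝓝[Ici 0] (0 : ℝ) :=
        mem_nhdsWithin_of_mem_nhds (Iio_mem_nhds (by positivity))
      filter_upwards [this, self_mem_nhdsWithin] with α h1 h2
      rcases eq_or_lt_of_le (show (0 : ℝ) ≤ α from h2) with e | e
      · rw [← e]
        simp [hga]
      · rw [P1 α e (le_of_lt h1)]; ring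
    · simp [hga]
  have key := (uniqueDiffWithinAt_Ici (0 : ℝ)).eq_deriv _ hZ.hasDerivWithinAt hZ0
  have key2 : ∫ z, Hc (x + ε • z) * dm z u = ∫ z, Fu (x + ε • z) * dm z b := by
    have e : ε * ((-∫ z, Hc (x + ε • z) * dm z u) * ε⁻¹) = -∫ z, Hc (x + ε • z) * dm z u := by
      field_simp
    rw [e] at key
    linarith
  unfold AA
  rw [key2]

lemma hc_cont (G : Geo x0 R m Λ F d) (φ : ℝ) : Continuous fun y => hh (F (cl x0 (R / 2) y)) φ :=
  G.Fu_cont (dir φ)

lemma hpc_cont (G : Geo x0 R m Λ F d) (φ : ℝ) : Continuous fun y => hp (F (cl x0 (R / 2) y)) φ :=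
  G.Hc_cont (dir_ne φ) (nor φ)

/-- derivative in the angle of the mollified own derivative -/
lemma Q_deriv (G : Geo x0 R m Λ F d) {x : ℝ × ℝ} (hx : x ∈ ball x0 (R / 4)) {ε : ℝ}
    (hε : 0 < ε) (hεR : ε ≤ R / 32) (φ : ℝ) :
    HasDerivAt (fun φ => AA ε x (dir φ) (fun y => hh (F (cl x0 (R / 2) y)) φ))
      (2 * AA ε x (nor φ) (fun y => hh (F (cl x0 (R / 2) y)) φ)) φ := by
  have hΛ := G.hΛ
  have hcx : Continuous fun z : ℝ × ℝ => x + ε • z := by fun_prop
  have hI : Integrable fun z => ‖fderiv ℝ mol z‖ :=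
    int_of_zero fderiv_mol_cont.norm (ρ := 1) fun z hz => by rw [fderiv_mol_zero hz, norm_zero]
  have hdm : ∀ z b : ℝ × ℝ, ‖b‖ ≤ 1 → |dm z b| ≤ ‖fderiv ℝ mol z‖ := by
    intro z b hb
    have := (fderiv ℝ mol z).le_opNorm b
    rw [Real.norm_eq_abs] at this
    refine this.trans ?_
    nlinarith [norm_nonneg (fderiv ℝ mol z)]
  have c1 : ∀ φ, Continuous fun z : ℝ × ℝ => hh (F (cl x0 (R / 2) (x + ε • z))) φ := fun φ =>
    (G.hc_cont φ).comp hcx
  have c2 : ∀ φ, Continuous fun z : ℝ × ℝ => hp (F (cl x0 (R / 2) (x + ε • z))) φ := fun φ =>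
    (G.hpc_cont φ).comp hcx
  have main := hasDerivAt_integral_of_dominated_loc_of_deriv_le
      (μ := (volume : Measure (ℝ × ℝ)))
      (F := fun φ z => hh (F (cl x0 (R / 2) (x + ε • z))) φ * dm z (dir φ))
      (F' := fun φ z => hp (F (cl x0 (R / 2) (x + ε • z))) φ * dm z (dir φ) +
        hh (F (cl x0 (R / 2) (x + ε • z))) φ * dm z (nor φ))
      (x₀ := φ) (s := univ) (bound := fun z => 2 * Λ * ‖fderiv ℝ mol z‖) univ_mem
      (Eventually.of_forall fun φ => ((c1 φ).mul (dm_cont (dir φ))).aestronglyMeasurable)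
      (int_of_zero ((c1 φ).mul (dm_cont (dir φ))) (ρ := 1) fun z hz => by
        rw [dm_zero hz, mul_zero])
      (((c2 φ).mul (dm_cont (dir φ))).add ((c1 φ).mul (dm_cont (nor φ)))).aestronglyMeasurable
      (Eventually.of_forall fun z φ _ => by
        have h1 := hdm z (dir φ) (norm_dir_le φ)
        have h2 := hdm z (nor φ) (norm_nor_le φ)
        have h3 := G.abs_hp_le (G.cl_in (x + ε • z)) φ
        have h4 := G.hh_hi (G.cl_in (x + ε • z)) φ
        have h5 := (G.rad _ (G.cl_in (x + ε • z))).hh_pos φ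
        rw [Real.norm_eq_abs]
        refine (abs_add_le _ _).trans ?_
        rw [abs_mul, abs_mul, abs_of_pos h5]
        have q1 : |hp (F (cl x0 (R / 2) (x + ε • z))) φ| * |dm z (dir φ)| ≤
          Λ * ‖fderiv ℝ mol z‖ := by gcongr
        have q2 : hh (F (cl x0 (R / 2) (x + ε • z))) φ * |dm z (nor φ)| ≤
          Λ * ‖fderiv ℝ mol z‖ := by gcongr
        linarith)
      (hI.const_mul _)
      (Eventually.of_forall fun z φ _ => by
        have h1 := (G.rad _ (G.cl_in (x + ε • z))).hasDerivAt_hh φ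
        have h2 : HasDerivAt (fun φ => dm z (dir φ)) (dm z (nor φ)) φ :=
          (fderiv ℝ mol z).hasFDerivAt.comp_hasDerivAt φ (hasDerivAt_dir φ)
        exact h1.mul h2)
  have h1 := (main.2).const_mul (-ε⁻¹)
  have W := G.weak_hamel hx hε hεR (dir_ne φ) (norm_dir_le φ) (nor φ)
  refine h1.congr_deriv ?_
  rw [integral_add]
  · have e1 : -ε⁻¹ * ∫ z, hp (F (cl x0 (R / 2) (x + ε • z))) φ * dm z (dir φ) =
        AA ε x (dir φ) (fun y => dN (F (cl x0 (R / 2) y)) (dir φ) (nor φ)) := rfl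
    have e2 : -ε⁻¹ * ∫ z, hh (F (cl x0 (R / 2) (x + ε • z))) φ * dm z (nor φ) =
        AA ε x (nor φ) (fun y => hh (F (cl x0 (R / 2) y)) φ) := rfl
    rw [mul_add, e1, e2, W]
    have e3 : AA ε x (nor φ) (fun y => F (cl x0 (R / 2) y) (dir φ)) =
      AA ε x (nor φ) (fun y => hh (F (cl x0 (R / 2) y)) φ) := rfl
    rw [e3]; ring
  · exact int_of_zero ((c2 φ).mul (dm_cont (dir φ))) (ρ := 1) fun z hz => by
        rw [dm_zero hz, mul_zero]
  · exact int_of_zero ((c1 φ).mul (dm_cont (nor φ))) (ρ := 1) fun z hz => by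
        rw [dm_zero hz, mul_zero]

end Geo

end Pool.Agent.Helper831.PM
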