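import Pool.Agent.Helper831.PMGap

namespace Pool.Agent.Helper831.PM

open Real Set Filter Topology

lemma last_zero {f : ℝ → ℝ} (hc : Continuous f) {p a : ℝ} (hpa : p ≤ a) (hp : 0 ≤ f p)
    (ha : f a < 0) : ∃ s ∈ Ico p a, f s = 0 ∧ ∀ t ∈ Ioc s a, f t < 0 := by
  have hcomp : IsCompact (Icc p a ∩ {t | 0 ≤ f t}) :=
    isCompact_Icc.inter_right (isClosed_le continuous_const hc)
  obtain ⟨s, hs, hmax⟩ := hcomp.exists_isGreatest ⟨p, ⟨le_rfl, hpa⟩, hp⟩
  have hsa : s < a := lt_of_le_of_ne hs.1.2 (by rintro rfl; exact absurd hs.2 (not_le.2 ha))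
  have hlt : ∀ t ∈ Ioc s a, f t < 0 := by
    intro t ht
    by_contra hcon
    push Not at hcon
    have := hmax ⟨⟨hs.1.1.trans ht.1.le, ht.2⟩, hcon⟩
    exact absurd this (not_le.2 ht.1)
  refine ⟨s, ⟨hs.1.1, hsa⟩, le_antisymm ?_ hs.2, hlt⟩
  have h1 : Tendsto f (𝓝[>] s) (𝓝 (f s)) := hc.continuousAt.mono_left nhdsWithin_le_nhds
  refine le_of_tendsto h1 ?_
  filter_upwards [Ioc_mem_nhdsGT hsa] with t ht
  exact (hlt t ht).le

lemma first_zero {f : ℝ → ℝ} (hc : Continuous f) {a q : ℝ} (haq : a ≤ q) (hq : 0 ≤ f q)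
    (ha : f a < 0) : ∃ s ∈ Ioc a q, f s = 0 ∧ ∀ t ∈ Ico a s, f t < 0 := by
  obtain ⟨s, hs, hs0, hlt⟩ := last_zero (f := fun t => f (-t)) (by fun_prop) (p := -q) (a := -a)
    (by linarith) (by simpa using hq) (by simpa using ha)
  refine ⟨-s, ⟨by linarith [hs.2], by linarith [hs.1]⟩, hs0, fun t ht => ?_⟩
  have := hlt (-t) ⟨by linarith [ht.2], by linarith [ht.1]⟩
  simpa using this

namespace RadonNorm

variable {N : ℝ × ℝ → ℝ}

/-- **Lemma U.** -/
lemma lemmaU (h : RadonNorm N) {f : ℝ → ℝ}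
    (hf : ∀ φ, HasDerivAt f (-2 * ww N φ * f (th N φ)) φ) (ha : ∀ φ, f (φ + π) = - f φ) (φ : ℝ) :
    f φ = 0 := by
  by_contra hne
  have fc : Continuous f := continuous_iff_continuousAt.2 fun φ => (hf φ).continuousAt
  have hf' : ∀ φ, HasDerivAt (fun t => - f t) (-2 * ww N φ * (- f (th N φ))) φ := by
    intro φ
    refine (hf φ).neg.congr_deriv (by ring)
  have ha' : ∀ φ, (fun t => - f t) (φ + π) = - (fun t => - f t) φ := fun φ => by
    simp only [ha]
  -- maximum point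
  obtain ⟨φ0, hmax⟩ : ∃ φ0, ∀ ψ, f ψ ≤ f φ0 := by
    have hp : Function.Periodic f (2 * π) := fun ψ => by
      have : ψ + 2 * π = (ψ + π) + π := by ring
      rw [this, ha, ha, neg_neg]
    have hc : IsCompact (Icc (0 : ℝ) (2 * π)) := isCompact_Icc
    obtain ⟨b, hb, hmax⟩ := hc.exists_isMaxOn ⟨0, by simp [pi_pos.le]⟩ fc.continuousOn
    refine ⟨b, fun ψ => ?_⟩
    obtain ⟨y, hy, e⟩ := hp.exists_mem_Ico₀ (by positivity) ψ
    rw [e]
    exact hmax (Ico_subset_Icc_self hy)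
  have h0 : 0 < f φ0 := by
    rcases lt_or_gt_of_ne hne with h1 | h1
    · have := hmax (φ + π)
      rw [ha] at this
      linarith
    · exact lt_of_lt_of_le h1 (hmax φ)
  set s2 := th N φ0 with hs2
  have l1 : φ0 < s2 := th_lo N φ0
  have l2 : s2 < φ0 + π := th_hi N φ0
  have f2 : f s2 = 0 := by
    have hloc : IsLocalMax f φ0 := Eventually.of_forall hmax
    have := hloc.hasDerivAt_eq_zero (hf φ0)
    have hw := h.ww_pos φ0
    rcases mul_eq_zero.1 this with h1 | h1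
    · exfalso; linarith
    · exact h1
  have hd2 : HasDerivAt f (2 * ww N s2 * f φ0) s2 := by
    refine (hf s2).congr_deriv ?_
    rw [hs2, h.th_th, ha]; ring
  have hd2pos : 0 < 2 * ww N s2 * f φ0 := by
    have := h.ww_pos s2
    positivity
  -- signs near s2
  obtain ⟨δ, hδ, hδl, hδr⟩ : ∃ δ > 0, (∀ t, s2 - δ ≤ t → t < s2 → f t < 0) ∧
      (∀ t, s2 < t → t ≤ s2 + δ → 0 < f t) := by
    have hsl := hd2.tendsto_slope
    have h3 : ∀ᶠ t in 𝓝[≠] s2, 0 < slope f s2 t := hsl.eventually (lt_mem_nhds hd2pos)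
    rw [eventually_nhdsWithin_iff, Metric.eventually_nhds_iff] at h3
    obtain ⟨r, hr, hr'⟩ := h3
    refine ⟨r / 2, by positivity, fun t h1 h2 => ?_, fun t h1 h2 => ?_⟩
    · have := hr' (y := t) (by rw [Real.dist_eq, abs_lt]; constructor <;> linarith) h2.ne
      rw [slope_def_field, f2, sub_zero] at this
      by_contra hcon
      push Not at hcon
      have : f t / (t - s2) ≤ 0 := div_nonpos_of_nonneg_of_nonpos hcon (by linarith)
      linarith
    · have := hr' (y := t) (by rw [Real.dist_eq, abs_lt]; constructor <;> linarith) h1.ne'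
      rw [slope_def_field, f2, sub_zero] at this
      by_contra hcon
      push Not at hcon
      have : f t / (t - s2) ≤ 0 := div_nonpos_of_nonpos_of_nonneg hcon (by linarith)
      linarith
  -- arc 1
  obtain ⟨s1, hs1, f1, g1⟩ : ∃ s1 ∈ Ioo φ0 s2, f s1 = 0 ∧ ∀ t ∈ Ioo s1 s2, f t < 0 := by
    set a := max ((φ0 + s2) / 2) (s2 - δ) with ha0
    have a1 : φ0 < a := lt_of_lt_of_le (by linarith) (le_max_left _ _)
    have a2 : a < s2 := max_lt (by linarith) (by linarith)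
    have a3 : s2 - δ ≤ a := le_max_right _ _
    obtain ⟨s, hs, hs0, hs'⟩ := last_zero fc a1.le h0.le (hδl a a3 a2)
    refine ⟨s, ⟨lt_of_le_of_ne hs.1 ?_, hs.2.trans a2⟩, hs0, fun t ht => ?_⟩
    · rintro rfl; rw [hs0] at h0; exact lt_irrefl _ h0
    · rcases le_or_gt t a with hta | hta
      · exact hs' t ⟨ht.1, hta⟩
      · exact hδl t (a3.trans hta.le) ht.2
  have hneg : f (φ0 + π) < 0 := by rw [ha]; linarith
  -- arc 2
  obtain ⟨s3, hs3, f3, g3⟩ : ∃ s3 ∈ Ioo s2 (φ0 + π), f s3 = 0 ∧ ∀ t ∈ Ioo s2 s3, 0 < f t := by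
    set b := min ((φ0 + π + s2) / 2) (s2 + δ) with hb0
    have b1 : s2 < b := lt_min (by linarith) (by linarith)
    have b2 : b < φ0 + π := lt_of_le_of_lt (min_le_left _ _) (by linarith)
    have b3 : b ≤ s2 + δ := min_le_right _ _
    obtain ⟨s, hs, hs0, hs'⟩ := first_zero (f := fun t => - f t) fc.neg b2.le (by
      show 0 ≤ - f (φ0 + π); linarith) (by
      show - f b < 0
      have := hδr b b1 b3
      linarith)
    have hs0' : f s = 0 := by
      have : - f s = 0 := hs0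
      linarith
    refine ⟨s, ⟨b1.trans hs.1, lt_of_le_of_ne hs.2 ?_⟩, hs0', fun t ht => ?_⟩
    · rintro rfl; rw [hs0'] at hneg; exact lt_irrefl _ hneg
    · rcases lt_or_ge t b with htb | htb
      · exact hδr t ht.1 (htb.le.trans b3)
      · have : - f t < 0 := hs' t ⟨htb, ht.2⟩
        linarith
  set s4 := s1 + π with hs4
  have f4 : f s4 = 0 := by rw [hs4, ha, f1, neg_zero]
  have l3 : φ0 + π < s4 := by rw [hs4]; linarith [hs1.1]
  -- arc 3, sub-gap
  obtain ⟨a, haI, fa, ga⟩ := last_zero fc hs3.2.le f3.ge hneg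
  obtain ⟨b, hbI, fb, gb⟩ := first_zero fc l3.le f4.ge hneg
  have gab : ∀ t ∈ Ioo a b, f t < 0 := by
    intro t ht
    rcases le_or_gt t (φ0 + π) with h1 | h1
    · exact ga t ⟨ht.1, h1⟩
    · exact gb t ⟨h1.le, ht.2⟩
  have hs13 : s1 < s3 := hs1.2.trans hs3.1
  have hs34 : s3 < s4 := hs3.2.trans l3
  have hab : a < b := haI.2.trans hbI.1
  have hba : b < a + π := by
    have := hbI.2
    have := haI.1
    rw [hs4] at *
    linarith
  obtain ⟨t1, ht1, p1⟩ := h.gap hf' ha' hs1.2 (by linarith [hs1.1]) (by simp [f1]) (by simp [f2])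
    (fun t ht => by have := g1 t ht; show 0 < - f t; linarith)
  obtain ⟨t2, ht2, p2⟩ := h.gap hf ha hs3.1 (by linarith [hs3.2]) f2 f3 g3
  obtain ⟨t3, ht3, p3⟩ := h.gap hf' ha' hab hba (by simp [fa]) (by simp [fb])
    (fun t ht => by have := gab t ht; show 0 < - f t; linarith)
  have u4 : uu N s4 = - uu N s1 := h.uu_add_pi s1
  have hD1 : 0 < Om (uu N s1) (uu N s2) := h.Om_uu_uu_pos hs1.2 (by linarith [hs1.1])
  have hD2 : 0 < Om (uu N s2) (uu N s3) := h.Om_uu_uu_pos hs3.1 (by linarith [hs3.2])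
  have hD3 : 0 < Om (uu N s3) (uu N s4) := h.Om_uu_uu_pos hs34 (by linarith)
  -- enlarge arc 3
  have p3' : 4 / 3 * Om (uu N s3) (uu N s4) < Om (uu N s3 - uu N s4) (uu N t3) := by
    have Ga : Om (uu N s3) (uu N s4) ≤ Om (uu N s3 - uu N s4) (uu N a) := by
      rw [Om_sub_left]
      rcases eq_or_lt_of_le haI.1 with e | e
      · rw [← e, Om_self, Om_swap (uu N s4)]; linarith
      · have := h.ordered e (haI.2.trans l3) (by linarith)
        rw [Om_swap (uu N s4)]; linarith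
    have Gb : Om (uu N s3) (uu N s4) ≤ Om (uu N s3 - uu N s4) (uu N b) := by
      rw [Om_sub_left]
      rcases eq_or_lt_of_le hbI.2 with e | e
      · rw [e, Om_self]; linarith
      · have := h.ordered (hs3.2.trans hbI.1) e (by linarith)
        rw [Om_swap (uu N s4)]; linarith
    have hDab : 0 < Om (uu N a) (uu N b) := h.Om_uu_uu_pos hab hba
    have q1 : 0 < Om (uu N a) (uu N t3) := h.Om_uu_uu_pos ht3.1 (by linarith [ht3.2])
    have q2 : 0 < Om (uu N t3) (uu N b) := h.Om_uu_uu_pos ht3.2 (by linarith [ht3.1])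
    have e := Om_decomp hDab.ne' (uu N t3)
    have e2 : Om (uu N s3 - uu N s4) (uu N t3) =
        Om (uu N t3) (uu N b) / Om (uu N a) (uu N b) * Om (uu N s3 - uu N s4) (uu N a) +
        Om (uu N a) (uu N t3) / Om (uu N a) (uu N b) * Om (uu N s3 - uu N s4) (uu N b) := by
      conv_lhs => rw [e]
      rw [Om_add_right, Om_smul_right, Om_smul_right]
    rw [e2]
    have r1 : 0 < Om (uu N t3) (uu N b) / Om (uu N a) (uu N b) := div_pos q2 hDab
    have r2 : 0 < Om (uu N a) (uu N t3) / Om (uu N a) (uu N b) := div_pos q1 hDab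
    have r3 : 4 / 3 < Om (uu N t3) (uu N b) / Om (uu N a) (uu N b) +
        Om (uu N a) (uu N t3) / Om (uu N a) (uu N b) := by
      rw [← add_div, lt_div_iff₀ hDab]
      rw [Om_sub_left, Om_swap (uu N b) (uu N t3)] at p3
      linarith
    have r4 := mul_le_mul_of_nonneg_left Ga r1.le
    have r5 := mul_le_mul_of_nonneg_left Gb r2.le
    have r6 := mul_lt_mul_of_pos_right r3 hD3
    linarith
  have ht3' : s3 < t3 := lt_of_le_of_lt haI.1 ht3.1
  have ht3'' : t3 < s4 := lt_of_lt_of_le ht3.2 hbI.2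
  -- coefficients
  obtain ⟨D1, eD1⟩ : ∃ D, D = Om (uu N s1) (uu N s2) := ⟨_, rfl⟩
  obtain ⟨D2, eD2⟩ : ∃ D, D = Om (uu N s2) (uu N s3) := ⟨_, rfl⟩
  obtain ⟨D3, eD3⟩ : ∃ D, D = Om (uu N s3) (uu N s4) := ⟨_, rfl⟩
  have d13 : Om (uu N s1) (uu N s3) = D3 := by
    rw [eD3, u4, Om_neg_right, Om_swap]
  have d24 : Om (uu N s2) (uu N s4) = D1 := by
    rw [eD1, u4, Om_neg_right, Om_swap]; ring
  have coef : ∀ {s t r : ℝ}, s < t → t < r → r < s + π →
      4 / 3 * Om (uu N s) (uu N r) < Om (uu N s - uu N r) (uu N t) →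
      ∃ α β : ℝ, 0 < α ∧ 0 < β ∧ 4 / 3 < α + β ∧ uu N t = α • uu N s + β • uu N r := by
    intro s t r k1 k2 k3 k4
    have hD : 0 < Om (uu N s) (uu N r) := h.Om_uu_uu_pos (k1.trans k2) k3
    have q1 : 0 < Om (uu N s) (uu N t) := h.Om_uu_uu_pos k1 (by linarith)
    have q2 : 0 < Om (uu N t) (uu N r) := h.Om_uu_uu_pos k2 (by linarith)
    refine ⟨_, _, div_pos q2 hD, div_pos q1 hD, ?_, Om_decomp hD.ne' (uu N t)⟩
    rw [← add_div, lt_div_iff₀ hD]
    rw [Om_sub_left, Om_swap (uu N r) (uu N t)] at k4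
    linarith
  obtain ⟨α1, β1, hα1, hβ1, hs1', eP1⟩ := coef ht1.1 ht1.2 (by linarith [hs1.1]) p1
  obtain ⟨α2, β2, hα2, hβ2, hs2', eP2⟩ := coef ht2.1 ht2.2 (by linarith [hs3.2]) p2
  obtain ⟨α3, β3, hα3, hβ3, hs3', eP3⟩ := coef ht3' ht3'' (by linarith) p3'
  have o1 := h.ordered ht1.2 ht2.1 (by linarith [ht1.1, ht2.2])
  have o2 := h.ordered ht2.2 ht3' (by linarith [ht2.1, hs1.2])
  have o3 := h.ordered (r := t1 + π) ht3'' (by linarith [ht1.1]) (by linarith [ht1.2, hs3.1])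
  rw [h.uu_add_pi t1] at o3
  have i1 : Om (uu N t1) (uu N t2) = α1 * α2 * D1 + α1 * β2 * D3 + β1 * β2 * D2 := by
    rw [eP1, eP2]
    simp only [Om_add_left, Om_add_right, Om_smul_left, Om_smul_right, Om_self, ← eD1, ← eD2, d13]
    ring
  have i2 : Om (uu N t1) (uu N s2) = α1 * D1 := by
    rw [eP1]
    simp only [Om_add_left, Om_smul_left, Om_self, ← eD1]
    ring
  have i3 : Om (uu N s2) (uu N t2) = β2 * D2 := by
    rw [eP2]
    simp only [Om_add_right, Om_smul_right, Om_self, ← eD2]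
    ring
  have i4 : Om (uu N t2) (uu N t3) = α2 * α3 * D2 + α2 * β3 * D1 + β2 * β3 * D3 := by
    rw [eP2, eP3]
    simp only [Om_add_left, Om_add_right, Om_smul_left, Om_smul_right, Om_self, ← eD2, ← eD3, d24]
    ring
  have i5 : Om (uu N t2) (uu N s3) = α2 * D2 := by
    rw [eP2]
    simp only [Om_add_left, Om_smul_left, Om_self, ← eD2]
    ring
  have i6 : Om (uu N s3) (uu N t3) = β3 * D3 := by
    rw [eP3]
    simp only [Om_add_right, Om_smul_right, Om_self, ← eD3]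
    ring
  have d32 : Om (uu N s3) (uu N s2) = - D2 := by rw [eD2, Om_swap]
  have d31 : Om (uu N s3) (uu N s1) = - D3 := by rw [← d13, Om_swap]
  have i7 : Om (uu N t3) (-uu N t1) = α3 * α1 * D3 + α3 * β1 * D2 + β3 * β1 * D1 := by
    rw [eP3, eP1, u4]
    simp only [Om_add_left, Om_add_right, Om_smul_left, Om_smul_right, Om_self, Om_neg_left,
      Om_neg_right, ← eD1, d31, d32]
    ring
  have i8 : Om (uu N t3) (uu N s4) = α3 * D3 := by
    rw [eP3]
    simp only [Om_add_left, Om_smul_left, Om_self, ← eD3]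
    ring
  have i9 : Om (uu N s4) (-uu N t1) = β1 * D1 := by
    rw [eP1, u4]
    simp only [Om_add_right, Om_smul_right, Om_self, Om_neg_left, Om_neg_right, ← eD1]
    ring
  rw [i1, i2, i3] at o1
  rw [i4, i5, i6] at o2
  rw [i7, i8, i9] at o3
  rw [← eD1] at hD1
  rw [← eD2] at hD2
  rw [← eD3] at hD3
  exact arcs_contra hα1 hα2 hα3 hβ1 hβ2 hβ3 hs1' hs2' hs3' hD1 hD2 hD3 (by linarith)
    (by linarith) (by linarith)

end RadonNorm

end Pool.Agent.Helper831.PM
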