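import Mathlib

namespace Pool.Agent.Helper831.PM

open Real Set Filter Topology Metric

/-- A norm on the plane, given as a function. -/
def PNorm (N : ℝ × ℝ → ℝ) : Prop :=
  (∀ u, u ≠ 0 → 0 < N u) ∧ (∀ (c : ℝ) (u : ℝ × ℝ), N (c • u) = |c| * N u) ∧
    ∀ u v, N (u + v) ≤ N u + N v

namespace PNorm

variable {N : ℝ × ℝ → ℝ}

lemma pos (h : PNorm N) {u : ℝ × ℝ} (hu : u ≠ 0) : 0 < N u := h.1 u hu
lemma smul (h : PNorm N) (c : ℝ) (u : ℝ × ℝ) : N (c • u) = |c| * N u := h.2.1 c u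
lemma tri (h : PNorm N) (u v : ℝ × ℝ) : N (u + v) ≤ N u + N v := h.2.2 u v
lemma zero (h : PNorm N) : N 0 = 0 := by
  have := h.smul 0 0
  simpa using this
lemma nonneg (h : PNorm N) (u : ℝ × ℝ) : 0 ≤ N u := by
  by_cases hu : u = 0
  · rw [hu, h.zero]
  · exact (h.pos hu).le
lemma neg (h : PNorm N) (u : ℝ × ℝ) : N (-u) = N u := by
  have := h.smul (-1) u
  simpa using this

lemma sub_le (h : PNorm N) (u v : ℝ × ℝ) : |N u - N v| ≤ N (u - v) := by
  have h1 := h.tri (u - v) v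
  have h2 := h.tri (v - u) u
  have h3 := h.neg (u - v)
  rw [neg_sub] at h3
  rw [sub_add_cancel] at h1 h2
  rw [abs_le]; constructor <;> linarith

lemma exists_up (h : PNorm N) : ∃ K > 0, ∀ u, N u ≤ K * ‖u‖ := by
  refine ⟨N (1, 0) + N (0, 1), ?_, fun u => ?_⟩
  · have h1 : ((1, 0) : ℝ × ℝ) ≠ 0 := by simp
    have h2 : ((0, 1) : ℝ × ℝ) ≠ 0 := by simp
    linarith [h.pos h1, h.pos h2]
  · have e : u = u.1 • ((1, 0) : ℝ × ℝ) + u.2 • ((0, 1) : ℝ × ℝ) := by
      ext <;> simp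
    have h1 := h.tri (u.1 • ((1, 0) : ℝ × ℝ)) (u.2 • ((0, 1) : ℝ × ℝ))
    rw [← e, h.smul, h.smul] at h1
    have a1 : |u.1| ≤ ‖u‖ := norm_fst_le u
    have a2 : |u.2| ≤ ‖u‖ := norm_snd_le u
    have p1 := h.nonneg (1, 0)
    have p2 := h.nonneg (0, 1)
    nlinarith

lemma continuous (h : PNorm N) : Continuous N := by
  obtain ⟨K, hK, hb⟩ := h.exists_up
  have : LipschitzWith (Real.toNNReal K) N := by
    apply LipschitzWith.of_dist_le_mul
    intro u v
    rw [Real.dist_eq, dist_eq_norm, Real.coe_toNNReal _ hK.le]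
    exact (h.sub_le u v).trans (hb _)
  exact this.continuous

lemma exists_low (h : PNorm N) : ∃ m > 0, ∀ u, m * ‖u‖ ≤ N u := by
  have hc : IsCompact (sphere (0 : ℝ × ℝ) 1) := isCompact_sphere _ _
  have hne : (sphere (0 : ℝ × ℝ) 1).Nonempty := by
    refine ⟨(1, 0), ?_⟩
    simp [Prod.norm_def]
  obtain ⟨z, hz, hmin⟩ := hc.exists_isMinOn hne h.continuous.continuousOn
  have hz0 : z ≠ 0 := by
    rintro rfl
    simp at hz
  refine ⟨N z, h.pos hz0, fun u => ?_⟩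
  by_cases hu : u = 0
  · rw [hu, h.zero]; simp
  · have hn : 0 < ‖u‖ := norm_pos_iff.2 hu
    have hmem : (‖u‖⁻¹ • u) ∈ sphere (0 : ℝ × ℝ) 1 := by
      rw [mem_sphere_zero_iff_norm, norm_smul, norm_inv, norm_norm, inv_mul_cancel₀ hn.ne']
    have h1' : N z ≤ N (‖u‖⁻¹ • u) := hmin hmem
    rw [h.smul, abs_of_pos (inv_pos.2 hn)] at h1'
    calc N z * ‖u‖ ≤ (‖u‖⁻¹ * N u) * ‖u‖ := by gcongr
      _ = N u := by field_simp

/-- supporting functionals -/
lemma exists_support (h : PNorm N) (w : ℝ × ℝ) :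
    ∃ f : (ℝ × ℝ) →L[ℝ] ℝ, f w = N w ∧ ∀ z, f z ≤ N z := by
  by_cases hw : w = 0
  · exact ⟨0, by rw [hw, h.zero]; simp, fun z => by simpa using h.nonneg z⟩
  obtain ⟨g, hg1, hg2⟩ := exists_extension_of_le_sublinear
    (LinearPMap.mkSpanSingleton w (N w) hw) N
    (fun c hc x => by rw [h.smul, abs_of_pos hc]) h.tri (by
      rintro ⟨x, hx⟩
      obtain ⟨c, rfl⟩ := Submodule.mem_span_singleton.1 hx
      rw [LinearPMap.mkSpanSingleton'_apply]
      show c * N w ≤ N (c • w)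
      rw [h.smul]
      exact mul_le_mul_of_nonneg_right (le_abs_self c) (h.nonneg w))
  refine ⟨LinearMap.toContinuousLinearMap g, ?_, fun z => hg2 z⟩
  have := hg1 ⟨w, Submodule.mem_span_singleton_self w⟩
  show g w = N w
  exact this.trans (LinearPMap.mkSpanSingleton'_apply_self _ _ _ _)

/-- the norm of a displacement is at most the length -/
lemma int_ge (h : PNorm N) {γ γ' : ℝ → ℝ × ℝ} {T : ℝ} (hT : 0 ≤ T)
    (hd : ∀ t ∈ Icc 0 T, HasDerivAt γ (γ' t) t) (hc : ContinuousOn γ' (Icc 0 T)) :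
    N (γ T - γ 0) ≤ ∫ t in (0 : ℝ)..T, N (γ' t) := by
  obtain ⟨f, hf1, hf2⟩ := h.exists_support (γ T - γ 0)
  have hc' : ContinuousOn γ' (uIcc 0 T) := by rwa [uIcc_of_le hT]
  have e1 : ∫ t in (0 : ℝ)..T, f (γ' t) = f (γ T) - f (γ 0) :=
    intervalIntegral.integral_eq_sub_of_hasDerivAt
      (fun t ht => f.hasFDerivAt.comp_hasDerivAt t (hd t (by rwa [uIcc_of_le hT] at ht)))
      (f.continuous.comp_continuousOn hc').intervalIntegrable
  rw [← hf1, map_sub, ← e1]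
  exact intervalIntegral.integral_mono_on hT
    (f.continuous.comp_continuousOn hc').intervalIntegrable
    (h.continuous.comp_continuousOn hc').intervalIntegrable (fun t _ => hf2 _)

end PNorm

lemma first_exit {g : ℝ → ℝ} (hg : ContinuousOn g (Icc 0 1)) (h0 : g 0 < 0) :
    (∀ t ∈ Icc (0 : ℝ) 1, g t < 0) ∨
      ∃ T ∈ Icc (0 : ℝ) 1, g T = 0 ∧ ∀ t ∈ Icc 0 T, g t ≤ 0 := by
  by_cases h : ∀ t ∈ Icc (0 : ℝ) 1, g t < 0
  · exact Or.inl h
  right
  push Not at h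
  obtain ⟨t1, ht1, hg1⟩ := h
  set S := Icc (0 : ℝ) 1 ∩ g ⁻¹' Ici 0 with hS
  have hSc : IsCompact S := by
    have : IsClosed S := hg.preimage_isClosed_of_isClosed isClosed_Icc isClosed_Ici
    exact isCompact_Icc.of_isClosed_subset this inter_subset_left
  have hne : S.Nonempty := ⟨t1, ht1, hg1⟩
  have hT := hSc.sInf_mem hne
  set T := sInf S with hTd
  have hlt : ∀ t ∈ Icc 0 1, t < T → g t < 0 := by
    intro t ht htT
    by_contra hcon
    push Not at hcon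
    have : T ≤ t := csInf_le hSc.bddBelow ⟨ht, hcon⟩
    linarith
  have hT0 : g T = 0 := by
    have hsub : Icc 0 T ⊆ Icc (0 : ℝ) 1 := Icc_subset_Icc_right hT.1.2
    have := intermediate_value_Icc hT.1.1 (hg.mono hsub)
    obtain ⟨s, hs, hs0⟩ := this ⟨h0.le, hT.2⟩
    have h1 : T ≤ s := csInf_le hSc.bddBelow ⟨hsub hs, by rw [mem_preimage, hs0]; simp⟩
    have h2 : s = T := le_antisymm hs.2 h1
    rw [← h2]; exact hs0
  refine ⟨T, hT.1, hT0, fun t ht => ?_⟩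
  rcases eq_or_lt_of_le ht.2 with e | e
  · rw [e, hT0]
  · exact (hlt t ⟨ht.1, ht.2.trans hT.1.2⟩ e).le

/-- `l` dominates the length of a curve from `a` which stays in the closed ball and either ends
at `b` or on the sphere. -/
def Piece (F : ℝ × ℝ → ℝ × ℝ → ℝ) (x0 : ℝ × ℝ) (ρ : ℝ) (a b : ℝ × ℝ) (l : ℝ) : Prop :=
  ∃ (T : ℝ) (γ γ' : ℝ → ℝ × ℝ), 0 ≤ T ∧ γ 0 = a ∧ (γ T = b ∨ ρ ≤ ‖γ T - x0‖) ∧
    (∀ t ∈ Icc 0 T, HasDerivAt γ (γ' t) t) ∧ ContinuousOn γ' (Icc 0 T) ∧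
    (∀ t ∈ Icc 0 T, γ t ∈ closedBall x0 ρ) ∧ ∫ t in (0 : ℝ)..T, F (γ t) (γ' t) ≤ l

section

variable {M : Set (ℝ × ℝ)} {F d : ℝ × ℝ → ℝ × ℝ → ℝ}

lemma two_sided (op : IsOpen M) (Fn : ∀ x ∈ M, PNorm (F x))
    (Fc : ContinuousOn (fun p : (ℝ × ℝ) × (ℝ × ℝ) => F p.1 p.2) (M ×ˢ univ))
    {x : ℝ × ℝ} (hx : x ∈ M) {η : ℝ} (hη : 0 < η) :
    ∃ ρ > 0, closedBall x ρ ⊆ M ∧ ∀ z ∈ closedBall x ρ, ∀ v,
      (1 - η) * F x v ≤ F z v ∧ F z v ≤ (1 + η) * F x v := by
  obtain ⟨m, hm, hlow⟩ := (Fn x hx).exists_low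
  have hK : IsCompact (sphere (0 : ℝ × ℝ) 1) := isCompact_sphere _ _
  have hε : 0 < η * m := by positivity
  have h1 : ∀ᶠ z in 𝓝 x, ∀ v ∈ sphere (0 : ℝ × ℝ) 1, |F z v - F x v| < η * m := by
    refine hK.eventually_forall_of_forall_eventually fun v _ => ?_
    have c1 : ContinuousAt (fun p : (ℝ × ℝ) × (ℝ × ℝ) => F p.1 p.2) (x, v) :=
      Fc.continuousAt ((op.prod isOpen_univ).mem_nhds ⟨hx, mem_univ _⟩)
    have c2 : ContinuousAt (fun p : (ℝ × ℝ) × (ℝ × ℝ) => F x p.2) (x, v) := by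
      have : ContinuousAt (fun p : (ℝ × ℝ) × (ℝ × ℝ) => (x, p.2)) (x, v) := by fun_prop
      exact ContinuousAt.comp (f := fun p : (ℝ × ℝ) × (ℝ × ℝ) => (x, p.2)) (x := (x, v)) c1 this
    have c3 : ContinuousAt (fun p : (ℝ × ℝ) × (ℝ × ℝ) => |F p.1 p.2 - F x p.2|) (x, v) :=
      (c1.sub c2).abs
    refine c3.eventually (gt_mem_nhds ?_)
    simpa using hε
  have h2 : ∀ᶠ z in 𝓝 x, z ∈ M := op.mem_nhds hx
  have h3 := h1.and h2
  rw [Metric.eventually_nhds_iff] at h3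
  obtain ⟨δ, hδ, hδ'⟩ := h3
  refine ⟨δ / 2, by positivity, fun z hz => (hδ' (by
    rw [mem_closedBall] at hz; linarith)).2, fun z hz v => ?_⟩
  have hzd : dist z x < δ := by rw [mem_closedBall] at hz; linarith
  have key : |F z v - F x v| ≤ η * F x v := by
    by_cases hv : v = 0
    · rw [hv, (Fn z (hδ' hzd).2).zero, (Fn x hx).zero]; simp
    · have hn : 0 < ‖v‖ := norm_pos_iff.2 hv
      have h4 := (hδ' hzd).1 (‖v‖⁻¹ • v) (by
        rw [mem_sphere_zero_iff_norm, norm_smul, norm_inv, norm_norm, inv_mul_cancel₀ hn.ne'])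
      rw [(Fn z (hδ' hzd).2).smul, (Fn x hx).smul, ← mul_sub, abs_mul, abs_abs,
        abs_of_pos (inv_pos.2 hn)] at h4
      calc |F z v - F x v| = ‖v‖ * (‖v‖⁻¹ * |F z v - F x v|) := by field_simp
        _ ≤ ‖v‖ * (η * m) := mul_le_mul_of_nonneg_left h4.le hn.le
        _ = η * (m * ‖v‖) := by ring
        _ ≤ η * F x v := mul_le_mul_of_nonneg_left (hlow v) hη.le
  rw [abs_le] at key
  constructor <;> linarith [key.1, key.2]

/-- first order behaviour of the distance -/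
lemma near_of_piece (op : IsOpen M) (Fn : ∀ x ∈ M, PNorm (F x))
    (Fc : ContinuousOn (fun p : (ℝ × ℝ) × (ℝ × ℝ) => F p.1 p.2) (M ×ˢ univ))
    {x0 : ℝ × ℝ} (hx0 : x0 ∈ M)
    (hlow : ∀ ρ > 0, closedBall x0 ρ ⊆ M → ∀ a ∈ ball x0 ρ, ∀ b ∈ ball x0 ρ, ∀ ε > 0,
      Piece F x0 ρ a b (d a b + ε))
    (hup : ∀ a b : ℝ × ℝ, segment ℝ a b ⊆ M → d a b ≤ ∫ t in (0 : ℝ)..1,
      F (a + t • (b - a)) (b - a))
    {ε : ℝ} (hε : 0 < ε) :
    ∃ δ > 0, ball x0 δ ⊆ M ∧ ∀ a ∈ ball x0 δ, ∀ b ∈ ball x0 δ,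
      |d a b - F x0 (b - a)| ≤ ε * ‖b - a‖ := by
  have hN := Fn x0 hx0
  obtain ⟨m, hm, hmN⟩ := hN.exists_low
  obtain ⟨Λ, hΛ, hΛN⟩ := hN.exists_up
  obtain ⟨η, hη0, hη1, hη2⟩ : ∃ η > 0, η ≤ 1 / 2 ∧ η * Λ ≤ ε := by
    refine ⟨min (1 / 2) (ε / Λ), by positivity, min_le_left _ _, ?_⟩
    calc min (1 / 2) (ε / Λ) * Λ ≤ ε / Λ * Λ := by gcongr; exact min_le_right _ _
      _ = ε := by field_simp
  obtain ⟨ρ, hρ, hρM, hts⟩ := two_sided op Fn Fc hx0 hη0
  obtain ⟨δ, hδ, hδρ, hδ2⟩ : ∃ δ > 0, δ < ρ ∧ 2 * Λ * δ ≤ m / 2 * (ρ - δ) := by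
    refine ⟨m * ρ / (4 * Λ + m), by positivity, ?_, ?_⟩
    · rw [div_lt_iff₀ (by positivity)]; nlinarith
    · have : m * ρ / (4 * Λ + m) * (4 * Λ + m) = m * ρ := by field_simp
      nlinarith
  have hsub : ball x0 δ ⊆ ball x0 ρ := ball_subset_ball hδρ.le
  refine ⟨δ, hδ, hsub.trans (ball_subset_closedBall.trans hρM), fun a ha b hb => ?_⟩
  have hηN : η * F x0 (b - a) ≤ ε * ‖b - a‖ := by
    calc η * F x0 (b - a) ≤ η * (Λ * ‖b - a‖) := mul_le_mul_of_nonneg_left (hΛN _) hη0.le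
      _ = (η * Λ) * ‖b - a‖ := by ring
      _ ≤ _ := mul_le_mul_of_nonneg_right hη2 (norm_nonneg _)
  have ha' : ‖a - x0‖ < δ := by rwa [mem_ball, dist_eq_norm] at ha
  have hb' : ‖b - x0‖ < δ := by rwa [mem_ball, dist_eq_norm] at hb
  rw [abs_le]
  constructor
  · -- lower bound
    have hl : (1 - η) * F x0 (b - a) ≤ d a b := by
      refine le_of_forall_pos_le_add fun e he => ?_
      obtain ⟨T, γ, γ', hT, hγ0, hγT, hd, hc, hin, hle⟩ := hlow ρ hρ hρM a (hsub ha) b (hsub hb) e he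
      have hc' : ContinuousOn γ' (uIcc 0 T) := by rwa [uIcc_of_le hT]
      have hcγ : ContinuousOn γ (uIcc 0 T) := by
        rw [uIcc_of_le hT]
        exact fun t ht => (hd t ht).continuousAt.continuousWithinAt
      have hcF : ContinuousOn (fun t => F (γ t) (γ' t)) (uIcc 0 T) := by
        have : ContinuousOn (fun t => (γ t, γ' t)) (uIcc 0 T) := hcγ.prodMk hc'
        refine ContinuousOn.comp (t := M ×ˢ univ)
          (g := fun p : (ℝ × ℝ) × (ℝ × ℝ) => F p.1 p.2) Fc this fun t ht => ?_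
        rw [uIcc_of_le hT] at ht
        exact ⟨hρM (hin t ht), mem_univ _⟩
      have i1 : ∫ t in (0 : ℝ)..T, (1 - η) * F x0 (γ' t) ≤ ∫ t in (0 : ℝ)..T, F (γ t) (γ' t) :=
        intervalIntegral.integral_mono_on hT
          (continuousOn_const.mul (hN.continuous.comp_continuousOn hc')).intervalIntegrable
          hcF.intervalIntegrable (fun t ht => (hts _ (hin t ht) _).1)
      rw [intervalIntegral.integral_const_mul] at i1
      have i2 := hN.int_ge hT hd hc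
      rw [hγ0] at i2
      have i3 : (1 - η) * F x0 (γ T - a) ≤ d a b + e :=
        (mul_le_mul_of_nonneg_left i2 (by linarith)).trans (i1.trans hle)
      rcases hγT with h | h
      · rwa [h] at i3
      · have h1 : ρ - δ ≤ ‖γ T - a‖ := by
          have : ‖γ T - x0‖ ≤ ‖γ T - a‖ + ‖a - x0‖ := by
            have e1 : γ T - x0 = (γ T - a) + (a - x0) := by abel
            rw [e1]; exact norm_add_le _ _
          linarith
        have h2 : m * ‖γ T - a‖ ≤ F x0 (γ T - a) := hmN _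
        have h3 : ‖b - a‖ ≤ 2 * δ := by
          have : ‖b - a‖ ≤ ‖b - x0‖ + ‖a - x0‖ := by
            have e1 : b - a = (b - x0) - (a - x0) := by abel
            rw [e1]; exact norm_sub_le _ _
          linarith
        have h4 := hΛN (b - a)
        have h5 : m * (ρ - δ) ≤ F x0 (γ T - a) :=
          (mul_le_mul_of_nonneg_left h1 hm.le).trans h2
        have h6 : F x0 (b - a) ≤ 2 * Λ * δ := by nlinarith
        have h7 : 1 / 2 * (m * (ρ - δ)) ≤ (1 - η) * F x0 (γ T - a) := by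
          have hp : 0 ≤ m * (ρ - δ) := mul_nonneg hm.le (by linarith)
          nlinarith
        have h8 := hN.nonneg (b - a)
        nlinarith
    nlinarith
  · -- upper bound
    have hseg : segment ℝ a b ⊆ closedBall x0 ρ := by
      refine (convex_closedBall x0 ρ).segment_subset ?_ ?_
      · exact ball_subset_closedBall (hsub ha)
      · exact ball_subset_closedBall (hsub hb)
    have h1 := hup a b (hseg.trans hρM)
    have hmem : ∀ t ∈ Icc (0 : ℝ) 1, a + t • (b - a) ∈ closedBall x0 ρ := by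
      intro t ht
      apply hseg
      rw [segment_eq_image']
      exact ⟨t, ht, rfl⟩
    have hcont : ContinuousOn (fun t : ℝ => F (a + t • (b - a)) (b - a)) (uIcc 0 1) := by
      rw [uIcc_of_le zero_le_one]
      have c : ContinuousOn (fun t : ℝ => (a + t • (b - a), b - a)) (Icc 0 1) := by fun_prop
      exact ContinuousOn.comp (t := M ×ˢ univ)
          (g := fun p : (ℝ × ℝ) × (ℝ × ℝ) => F p.1 p.2) Fc c
          (fun t ht => ⟨hρM (hmem t ht), mem_univ _⟩)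
    have h2 : ∫ t in (0 : ℝ)..1, F (a + t • (b - a)) (b - a) ≤
        ∫ _t in (0 : ℝ)..1, (1 + η) * F x0 (b - a) :=
      intervalIntegral.integral_mono_on zero_le_one hcont.intervalIntegrable
        (_root_.intervalIntegrable_const) (fun t ht => (hts _ (hmem t ht) _).2)
    simp at h2
    nlinarith

/-- the distance as an integral along a segment on which it is additive -/
lemma int_rep (Fn : ∀ x ∈ M, PNorm (F x))
    (Fc : ContinuousOn (fun p : (ℝ × ℝ) × (ℝ × ℝ) => F p.1 p.2) (M ×ˢ univ))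
    (hself : ∀ x ∈ M, d x x = 0)
    (hnear : ∀ x0 ∈ M, ∀ ε > 0, ∃ δ > 0, ball x0 δ ⊆ M ∧ ∀ a ∈ ball x0 δ, ∀ b ∈ ball x0 δ,
      |d a b - F x0 (b - a)| ≤ ε * ‖b - a‖)
    {y z : ℝ × ℝ} (hseg : segment ℝ y z ⊆ M)
    (hadd : ∀ s t : ℝ, 0 ≤ s → s ≤ t → t ≤ 1 →
      d y (y + t • (z - y)) = d y (y + s • (z - y)) + d (y + s • (z - y)) (y + t • (z - y))) :
    d y z = ∫ t in (0 : ℝ)..1, F (y + t • (z - y)) (z - y) := by
  have hmem : ∀ t ∈ Icc (0 : ℝ) 1, y + t • (z - y) ∈ M := by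
    intro t ht
    apply hseg
    rw [segment_eq_image']
    exact ⟨t, ht, rfl⟩
  obtain ⟨w, hw⟩ : ∃ w, w = z - y := ⟨_, rfl⟩
  rw [← hw] at hadd hmem ⊢
  have key : ∀ t0 ∈ Icc (0 : ℝ) 1, ∀ ε > 0, ∃ δ > 0, ∀ t ∈ Icc (0 : ℝ) 1, |t - t0| < δ →
      |d y (y + t • w) - d y (y + t0 • w) - (t - t0) * F (y + t0 • w) w| ≤ ε * |t - t0| := by
    intro t0 ht0 ε hε
    obtain ⟨δ, hδ, _, hb⟩ := hnear _ (hmem t0 ht0) (ε / (‖w‖ + 1)) (by positivity)
    refine ⟨δ / (‖w‖ + 1), by positivity, fun t ht htd => ?_⟩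
    have hin : y + t • w ∈ ball (y + t0 • w) δ := by
      rw [mem_ball, dist_eq_norm]
      have e : y + t • w - (y + t0 • w) = (t - t0) • w := by module
      rw [e, norm_smul, Real.norm_eq_abs]
      rw [lt_div_iff₀ (by positivity)] at htd
      nlinarith [abs_nonneg (t - t0)]
    have hε2 : ε / (‖w‖ + 1) * (|t - t0| * ‖w‖) ≤ ε * |t - t0| := by
      rw [div_mul_eq_mul_div, div_le_iff₀ (by positivity)]
      nlinarith [abs_nonneg (t - t0), mul_nonneg hε.le (abs_nonneg (t - t0))]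
    have hN := Fn _ (hmem t0 ht0)
    rcases le_total t0 t with h | h
    · have h1 := hadd t0 t ht0.1 h ht.2
      have h2 := hb _ (mem_ball_self hδ) _ hin
      have e : y + t • w - (y + t0 • w) = (t - t0) • w := by module
      rw [e, hN.smul, norm_smul, Real.norm_eq_abs, abs_of_nonneg (sub_nonneg.2 h)] at h2
      rw [abs_of_nonneg (sub_nonneg.2 h)] at hε2 ⊢
      have e2 : d y (y + t • w) - d y (y + t0 • w) - (t - t0) * F (y + t0 • w) w =
        d (y + t0 • w) (y + t • w) - (t - t0) * F (y + t0 • w) w := by rw [h1]; ring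
      rw [e2]
      exact h2.trans hε2
    · have h1 := hadd t t0 ht.1 h ht0.2
      have h2 := hb _ hin _ (mem_ball_self hδ)
      have e : y + t0 • w - (y + t • w) = (t0 - t) • w := by module
      rw [e, hN.smul, norm_smul, Real.norm_eq_abs, abs_of_nonneg (sub_nonneg.2 h)] at h2
      rw [abs_sub_comm t t0, abs_of_nonneg (sub_nonneg.2 h)] at hε2 ⊢
      have e2 : d y (y + t • w) - d y (y + t0 • w) - (t - t0) * F (y + t0 • w) w =
        -(d (y + t • w) (y + t0 • w) - (t0 - t) * F (y + t0 • w) w) := by rw [h1]; ring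
      rw [e2, abs_neg]
      exact h2.trans hε2
  have hcont : ContinuousOn (fun t : ℝ => d y (y + t • w)) (Icc 0 1) := by
    intro t0 ht0
    obtain ⟨δ, hδ, hk⟩ := key t0 ht0 1 one_pos
    rw [Metric.continuousWithinAt_iff]
    intro e he
    set K := |F (y + t0 • w) w| + 1 with hK
    have hKp : 0 < K := by positivity
    refine ⟨min δ (e / K), by positivity, fun t ht htd => ?_⟩
    rw [Real.dist_eq] at htd ⊢
    have h1 := hk t ht (htd.trans_le (min_le_left _ _))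
    have h2 := htd.trans_le (min_le_right _ _)
    rw [lt_div_iff₀ hKp] at h2
    have h3 : |d y (y + t • w) - d y (y + t0 • w)| ≤ |t - t0| * K := by
      have : d y (y + t • w) - d y (y + t0 • w) =
        (d y (y + t • w) - d y (y + t0 • w) - (t - t0) * F (y + t0 • w) w) +
          (t - t0) * F (y + t0 • w) w := by ring
      rw [this]
      refine (abs_add_le _ _).trans ?_
      rw [abs_mul, hK]
      linarith
    linarith
  have hder : ∀ t ∈ Ioo (0 : ℝ) 1, HasDerivAt (fun t : ℝ => d y (y + t • w)) (F (y + t • w) w) t := by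
    intro t0 ht0
    rw [hasDerivAt_iff_isLittleO]
    rw [Asymptotics.isLittleO_iff]
    intro c hc
    obtain ⟨δ, hδ, hk⟩ := key t0 ⟨ht0.1.le, ht0.2.le⟩ c hc
    filter_upwards [Ioo_mem_nhds ht0.1 ht0.2, Metric.ball_mem_nhds t0 hδ] with t h1 h2
    rw [mem_ball, Real.dist_eq] at h2
    have := hk t ⟨h1.1.le, h1.2.le⟩ h2
    simpa [Real.norm_eq_abs, smul_eq_mul] using this
  have hFc : ContinuousOn (fun t : ℝ => F (y + t • w) w) (Icc 0 1) := by
    have c : ContinuousOn (fun t : ℝ => (y + t • w, w)) (Icc 0 1) := by fun_prop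
    exact ContinuousOn.comp (t := M ×ˢ univ)
          (g := fun p : (ℝ × ℝ) × (ℝ × ℝ) => F p.1 p.2) Fc c
          (fun t ht => ⟨hmem t ht, mem_univ _⟩)
  have := intervalIntegral.integral_eq_sub_of_hasDerivAt_of_le zero_le_one hcont hder
    (by rw [← uIcc_of_le (zero_le_one' ℝ)] at hFc; exact hFc.intervalIntegrable)
  rw [this]
  have hy : y ∈ M := by simpa using hmem 0 (by simp)
  have e1 : y + (1 : ℝ) • w = z := by rw [hw]; module
  rw [e1, zero_smul, add_zero, hself y hy, sub_zero]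

end

end Pool.Agent.Helper831.PM
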