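import Pool.Agent.Helper831.PMLemU

namespace Pool.Agent.Helper831.PM

open Real Set Filter Topology

lemma mvt_sub {f f' : ℝ → ℝ} {a b c ε : ℝ} (hf : ∀ x, HasDerivAt f (f' x) x)
    (hC : ∀ x ∈ uIcc a b, |f' x - c| ≤ ε) : |f b - f a - c * (b - a)| ≤ ε * |b - a| := by
  have key : ∀ a b, a ≤ b → (∀ x ∈ uIcc a b, |f' x - c| ≤ ε) →
      |f b - f a - c * (b - a)| ≤ ε * |b - a| := by
    intro a b hab h
    rw [uIcc_of_le hab] at h
    rw [abs_of_nonneg (by linarith : 0 ≤ b - a), abs_le]
    have h1 := mvt_le (f := fun x => f x - c * x) (f' := fun x => f' x - c) (C := ε) hab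
      (fun x _ => by
        have := (hf x).sub ((hasDerivAt_id x).const_mul c)
        rw [mul_one] at this
        exact this) (fun x hx => (abs_le.1 (h x hx)).2)
    have h2 := mvt_le (f := fun x => c * x - f x) (f' := fun x => c - f' x) (C := ε) hab
      (fun x _ => by
        have := ((hasDerivAt_id x).const_mul c).sub (hf x)
        rw [mul_one] at this
        exact this) (fun x hx => by linarith [(abs_le.1 (h x hx)).1])
    constructor <;> linarith
  rcases le_total a b with h | h
  · exact key a b h hC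
  · have := key b a h (by rw [uIcc_comm]; exact hC)
    have e : f b - f a - c * (b - a) = -(f a - f b - c * (a - b)) := by ring
    rw [e, abs_neg, abs_sub_comm b a]
    exact this

namespace RadonNorm

variable {N : ℝ × ℝ → ℝ}

/-- approximate solutions of the functional differential equation tend to zero -/
lemma limit_zero (h : RadonNorm N) {f f' : ℕ → ℝ → ℝ} {C : ℝ} (hb : ∀ n φ, |f n φ| ≤ C)
    (ha : ∀ n φ, f n (φ + π) = - f n φ) (hd : ∀ n φ, HasDerivAt (f n) (f' n φ) φ)
    (he : ∀ η > 0, ∀ᶠ n in atTop, ∀ φ, |f' n φ + 2 * ww N φ * f n (th N φ)| ≤ η) (φ : ℝ) :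
    Tendsto (fun n => f n φ) atTop (𝓝 0) := by
  have hC0 : 0 ≤ C := (abs_nonneg _).trans (hb 0 0)
  rw [tendsto_iff_ultrafilter]
  intro 𝒰 h𝒰
  have hlim : ∀ ψ, ∃ l, Tendsto (fun n => f n ψ) 𝒰 (𝓝 l) := by
    intro ψ
    have hc : IsCompact (Icc (-C) C) := isCompact_Icc
    have hmem : Icc (-C) C ∈ (𝒰.map fun n => f n ψ : Ultrafilter ℝ) := by
      rw [Ultrafilter.mem_map]
      filter_upwards with n
      exact abs_le.1 (hb n ψ)
    obtain ⟨l, _, hl⟩ := hc.ultrafilter_le_nhds' _ hmem
    exact ⟨l, hl⟩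
  choose g hg using hlim
  have hga : ∀ ψ, g (ψ + π) = - g ψ := by
    intro ψ
    have h1 := hg (ψ + π)
    have h2 := (hg ψ).neg
    have h3 : Tendsto (fun n => f n (ψ + π)) 𝒰 (𝓝 (- g ψ)) := by
      refine h2.congr fun n => ?_
      rw [ha]
    exact tendsto_nhds_unique h1 h3
  obtain ⟨w0, hw0, W, hW, hw⟩ := h.ww_bounds
  set C' := 1 + 2 * W * C with hC'
  have hC'0 : 0 < C' := by positivity
  have hgd : ∀ ψ, HasDerivAt g (-2 * ww N ψ * g (th N ψ)) ψ := by
    intro φ1
    rw [hasDerivAt_iff_isLittleO, Asymptotics.isLittleO_iff]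
    intro ε hε
    have c1 : ∀ᶠ σ in 𝓝 φ1, 2 * C * |ww N σ - ww N φ1| < ε / 4 := by
      have : Continuous fun σ => 2 * C * |ww N σ - ww N φ1| := by
        have := h.continuous_ww
        fun_prop
      exact this.continuousAt.eventually (gt_mem_nhds (by
        simp only [sub_self, abs_zero, mul_zero]; positivity))
    have c2 : ∀ᶠ σ in 𝓝 φ1, 2 * W * C' * |th N σ - th N φ1| < ε / 4 := by
      have : Continuous fun σ => 2 * W * C' * |th N σ - th N φ1| := by
        have := h.continuous_th
        fun_prop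
      exact this.continuousAt.eventually (gt_mem_nhds (by
        simp only [sub_self, abs_zero, mul_zero]; positivity))
    have c3 := c1.and c2
    rw [Metric.eventually_nhds_iff] at c3
    obtain ⟨δ, hδ, hδ'⟩ := c3
    filter_upwards [Metric.ball_mem_nhds φ1 hδ] with ψ hψ
    rw [Metric.mem_ball, Real.dist_eq] at hψ
    -- the estimate for large n
    have ev : ∀ᶠ n in atTop, |f n ψ - f n φ1 - (-2 * ww N φ1 * f n (th N φ1)) * (ψ - φ1)| ≤
        ε * |ψ - φ1| := by
      filter_upwards [he 1 one_pos, he (ε / 4) (by positivity)] with n h1 h2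
      have hfb : ∀ σ, |f' n σ| ≤ C' := by
        intro σ
        have e : f' n σ = (f' n σ + 2 * ww N σ * f n (th N σ)) - 2 * ww N σ * f n (th N σ) := by
          ring
        rw [e]
        refine (abs_sub _ _).trans ?_
        have q : |2 * ww N σ * f n (th N σ)| ≤ 2 * W * C := by
          rw [abs_mul, abs_mul, abs_of_pos (h.ww_pos σ)]
          have := hb n (th N σ)
          have := (hw σ).2
          have e2 : |(2 : ℝ)| = 2 := by norm_num
          rw [e2]
          gcongr
        exact add_le_add (h1 σ) q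
      have hlip : ∀ a b, |f n b - f n a| ≤ C' * |b - a| := fun a b => mvt_abs (hd n) hfb
      refine mvt_sub (hd n) fun σ hσ => ?_
      have hσδ : dist σ φ1 < δ := by
        rw [Real.dist_eq]
        have := abs_sub_left_of_mem_uIcc hσ
        exact lt_of_le_of_lt this hψ
      have h3 := hδ' hσδ
      have e : f' n σ - -2 * ww N φ1 * f n (th N φ1) =
          (f' n σ + 2 * ww N σ * f n (th N σ)) - 2 * (ww N σ - ww N φ1) * f n (th N φ1) -
          2 * ww N σ * (f n (th N σ) - f n (th N φ1)) := by ring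
      rw [e]
      have q1 : |2 * (ww N σ - ww N φ1) * f n (th N φ1)| ≤ ε / 4 := by
        rw [abs_mul, abs_mul]
        have e2 : |(2 : ℝ)| = 2 := by norm_num
        rw [e2]
        have := hb n (th N φ1)
        calc 2 * |ww N σ - ww N φ1| * |f n (th N φ1)| ≤ 2 * |ww N σ - ww N φ1| * C := by gcongr
          _ = 2 * C * |ww N σ - ww N φ1| := by ring
          _ ≤ ε / 4 := h3.1.le
      have q2 : |2 * ww N σ * (f n (th N σ) - f n (th N φ1))| ≤ ε / 4 := by
        rw [abs_mul, abs_mul, abs_of_pos (h.ww_pos σ)]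
        have e2 : |(2 : ℝ)| = 2 := by norm_num
        rw [e2]
        have h4 := hlip (th N φ1) (th N σ)
        have h5 := (hw σ).2
        calc 2 * ww N σ * |f n (th N σ) - f n (th N φ1)| ≤
            2 * W * (C' * |th N σ - th N φ1|) := by gcongr
          _ = 2 * W * C' * |th N σ - th N φ1| := by ring
          _ ≤ ε / 4 := h3.2.le
      have q0 := h2 σ
      rw [abs_le] at q0 q1 q2 ⊢
      constructor <;> linarith [q0.1, q0.2, q1.1, q1.2, q2.1, q2.2]
    have lim : Tendsto (fun n => |f n ψ - f n φ1 - (-2 * ww N φ1 * f n (th N φ1)) * (ψ - φ1)|) 𝒰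
        (𝓝 |g ψ - g φ1 - (-2 * ww N φ1 * g (th N φ1)) * (ψ - φ1)|) := by
      refine Tendsto.abs ?_
      exact ((hg ψ).sub (hg φ1)).sub (((hg (th N φ1)).const_mul _).mul_const _)
    have := le_of_tendsto lim (h𝒰 ev)
    rw [Real.norm_eq_abs, Real.norm_eq_abs, smul_eq_mul, mul_comm (ψ - φ1)]
    exact this
  have g0 : g φ = 0 := h.lemmaU hgd hga φ
  rw [← g0]
  exact hg φ

end RadonNorm

end Pool.Agent.Helper831.PM
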