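import Pool.Agent.Helper831.PMLip2

namespace Pool.Agent.Helper831.PM

open Real Set Filter Topology Metric

noncomputable def HH (F : ℝ × ℝ → ℝ × ℝ → ℝ) (x : ℝ × ℝ) (φ : ℝ) : ℝ := log (hh (F x) φ)
noncomputable def qq (F : ℝ × ℝ → ℝ × ℝ → ℝ) (x : ℝ × ℝ) (φ : ℝ) : ℝ := hp (F x) φ / hh (F x) φ
noncomputable def lC (F : ℝ × ℝ → ℝ × ℝ → ℝ) (x : ℝ × ℝ) : ℝ := log (RadonNorm.CC (F x))
noncomputable def kap (F : ℝ × ℝ → ℝ × ℝ → ℝ) (x : ℝ × ℝ) (φ β : ℝ) : ℝ :=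
  hh (F (x + β • dir φ)) φ - hh (F x) φ

lemma log_sub_le {a b c : ℝ} (hc : 0 < c) (ha : c ≤ a) (hb : c ≤ b) :
    |log a - log b| ≤ |a - b| / c := by
  have key : ∀ a b : ℝ, c ≤ a → c ≤ b → log a - log b ≤ |a - b| / c := by
    intro a b ha hb
    have ha0 : 0 < a := lt_of_lt_of_le hc ha
    have hb0 : 0 < b := lt_of_lt_of_le hc hb
    rw [← log_div ha0.ne' hb0.ne']
    refine (log_le_sub_one_of_pos (div_pos ha0 hb0)).trans ?_
    have e : a / b - 1 = (a - b) / b := by field_simp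
    rw [e]
    calc (a - b) / b ≤ |a - b| / b := by gcongr; exact le_abs_self _
      _ ≤ |a - b| / c := by gcongr
  rw [abs_le]
  constructor
  · have := key b a hb ha
    rw [abs_sub_comm] at this
    linarith
  · exact key a b ha hb

lemma log_sub_sub_le {a b c : ℝ} (hc : 0 < c) (ha : c ≤ a) (hb : c ≤ b) :
    |log a - log b - (a - b) / b| ≤ |a - b| ^ 2 / c ^ 2 := by
  have ha0 : 0 < a := lt_of_lt_of_le hc ha
  have hb0 : 0 < b := lt_of_lt_of_le hc hb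
  have h1 : log a - log b ≤ (a - b) / b := by
    rw [← log_div ha0.ne' hb0.ne']
    refine (log_le_sub_one_of_pos (div_pos ha0 hb0)).trans (le_of_eq ?_)
    field_simp
  have h2 : (a - b) / a ≤ log a - log b := by
    have := log_le_sub_one_of_pos (div_pos hb0 ha0)
    rw [log_div hb0.ne' ha0.ne'] at this
    have e : b / a - 1 = - ((a - b) / a) := by field_simp; ring
    rw [e] at this
    linarith
  have h3 : (a - b) / b - (a - b) / a = (a - b) ^ 2 / (a * b) := by field_simp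
  have h4 : (a - b) ^ 2 / (a * b) ≤ |a - b| ^ 2 / c ^ 2 := by
    rw [sq_abs, sq c]
    gcongr
  rw [abs_le]
  constructor <;> nlinarith [sq_nonneg (a - b)]

/-- uniform continuity in the angle for periodic functions -/
lemma unif_per {q : ℝ × ℝ → ℝ → ℝ} {x : ℝ × ℝ}
    (hc : ∀ φ, ContinuousAt (fun p : (ℝ × ℝ) × ℝ => q p.1 p.2) (x, φ))
    (hper : ∀ᶠ z in 𝓝 x, ∀ φ, q z (φ + π) = q z φ) {ε : ℝ} (hε : 0 < ε) :
    ∃ δ > 0, ∀ z ∈ ball x δ, ∀ φ ψ, |ψ - φ| < δ → |q z ψ - q x φ| < ε := by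
  have hK : IsCompact (Icc (0 : ℝ) π) := isCompact_Icc
  have h1 : ∀ᶠ p : (ℝ × ℝ) × ℝ in 𝓝 (x, 0), ∀ φ ∈ Icc (0 : ℝ) π,
      |q p.1 (φ + p.2) - q x φ| < ε := by
    refine hK.eventually_forall_of_forall_eventually fun φ _ => ?_
    have c1 : ContinuousAt (fun p : ((ℝ × ℝ) × ℝ) × ℝ => q p.1.1 (p.2 + p.1.2)) ((x, 0), φ) := by
      have g : ContinuousAt (fun p : ((ℝ × ℝ) × ℝ) × ℝ => (p.1.1, p.2 + p.1.2)) ((x, 0), φ) := by
        fun_prop
      have h := hc (φ + 0)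
      exact ContinuousAt.comp (f := fun p : ((ℝ × ℝ) × ℝ) × ℝ => (p.1.1, p.2 + p.1.2))
        (x := ((x, 0), φ)) h g
    have c2 : ContinuousAt (fun p : ((ℝ × ℝ) × ℝ) × ℝ => q x p.2) ((x, 0), φ) := by
      have g : ContinuousAt (fun p : ((ℝ × ℝ) × ℝ) × ℝ => (x, p.2)) ((x, 0), φ) := by
        fun_prop
      exact ContinuousAt.comp (f := fun p : ((ℝ × ℝ) × ℝ) × ℝ => (x, p.2))
        (x := ((x, 0), φ)) (hc φ) g
    have c3 : ContinuousAt (fun p : ((ℝ × ℝ) × ℝ) × ℝ => |q p.1.1 (p.2 + p.1.2) - q x p.2|)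
      ((x, 0), φ) := (c1.sub c2).abs
    refine c3.eventually (gt_mem_nhds ?_)
    simpa using hε
  have h2 : ∀ᶠ p : (ℝ × ℝ) × ℝ in 𝓝 (x, 0), ∀ φ, q p.1 (φ + π) = q p.1 φ := by
    have := (continuous_fst.tendsto (x, (0 : ℝ))).eventually (p := fun z => ∀ φ, q z (φ + π) = q z φ)
      hper
    exact this
  have h3 := h1.and h2
  rw [Metric.eventually_nhds_iff] at h3
  obtain ⟨δ, hδ, hδ'⟩ := h3
  have hx := (hδ' (y := (x, 0)) (by rw [dist_self]; exact hδ)).2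
  refine ⟨δ, hδ, fun z hz φ ψ hψ => ?_⟩
  have hd : dist (z, ψ - φ) (x, (0 : ℝ)) < δ := by
    rw [Prod.dist_eq, max_lt_iff]
    refine ⟨hz, ?_⟩
    simpa [Real.dist_eq] using hψ
  have h4 := hδ' hd
  -- reduce φ modulo π
  have p1 : Function.Periodic (q x) π := hx
  have p2 : Function.Periodic (q z) π := h4.2
  obtain ⟨n, hn⟩ : ∃ n : ℤ, φ - n * π ∈ Ico (0 : ℝ) π := by
    refine ⟨⌊φ / π⌋, ?_, ?_⟩
    · have := Int.floor_le (φ / π)
      rw [le_div_iff₀ pi_pos] at this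
      linarith
    · have := Int.lt_floor_add_one (φ / π)
      rw [div_lt_iff₀ pi_pos] at this
      linarith
  have h5 := h4.1 (φ - n * π) ⟨hn.1, hn.2.le⟩
  have e1 : φ - n * π + (ψ - φ) = ψ - n * π := by ring
  simp only at h5
  rw [e1, p2.sub_int_mul_eq n, p1.sub_int_mul_eq n] at h5
  exact h5

namespace Geo

variable {x0 : ℝ × ℝ} {R m Λ K : ℝ} {F : ℝ × ℝ → ℝ × ℝ → ℝ} {d : ℝ × ℝ → ℝ × ℝ → ℝ}

lemma hh_contAt (G : Geo x0 R m Λ F d) {x : ℝ × ℝ} (hx : x ∈ ball x0 R) (φ : ℝ) :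
    ContinuousAt (fun p : (ℝ × ℝ) × ℝ => hh (F p.1) p.2) (x, φ) := by
  have g : ContinuousAt (fun p : (ℝ × ℝ) × ℝ => (p.1, dir p.2)) (x, φ) := by
    have := continuous_dir
    fun_prop
  exact ContinuousAt.comp (f := fun p : (ℝ × ℝ) × ℝ => (p.1, dir p.2)) (x := (x, φ))
    (G.contAt hx (dir φ)) g

lemma dN_contAt (G : Geo x0 R m Λ F d) {x : ℝ × ℝ} (hx : x ∈ ball x0 R) {u : ℝ × ℝ} (hu : u ≠ 0)
    (w : ℝ × ℝ) : ContinuousAt (fun p : (ℝ × ℝ) × (ℝ × ℝ) => dN (F p.1) p.2 w) (x, u) :=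
  dN_continuousAt (by
    filter_upwards [isOpen_ball.mem_nhds hx] with y hy
    exact G.rad y hy) (fun v => G.contAt hx v) hu w

lemma hp_contAt (G : Geo x0 R m Λ F d) {x : ℝ × ℝ} (hx : x ∈ ball x0 R) (φ : ℝ) :
    ContinuousAt (fun p : (ℝ × ℝ) × ℝ => hp (F p.1) p.2) (x, φ) := by
  have e : ∀ p : (ℝ × ℝ) × ℝ, hp (F p.1) p.2 =
      (-sin p.2) * dN (F p.1) (dir p.2) (1, 0) + cos p.2 * dN (F p.1) (dir p.2) (0, 1) := by
    intro p
    have e : nor p.2 = (-sin p.2) • ((1, 0) : ℝ × ℝ) + cos p.2 • ((0, 1) : ℝ × ℝ) := by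
      ext <;> simp [nor]
    unfold hp
    conv_lhs => rw [e]
    rw [map_add, map_smul, map_smul, smul_eq_mul, smul_eq_mul]
  simp_rw [e]
  have g : ContinuousAt (fun p : (ℝ × ℝ) × ℝ => (p.1, dir p.2)) (x, φ) := by
    have := continuous_dir
    fun_prop
  have c1 : ContinuousAt (fun p : (ℝ × ℝ) × ℝ => dN (F p.1) (dir p.2) (1, 0)) (x, φ) :=
    ContinuousAt.comp (f := fun p : (ℝ × ℝ) × ℝ => (p.1, dir p.2)) (x := (x, φ))
      (G.dN_contAt hx (dir_ne φ) (1, 0)) g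
  have c2 : ContinuousAt (fun p : (ℝ × ℝ) × ℝ => dN (F p.1) (dir p.2) (0, 1)) (x, φ) :=
    ContinuousAt.comp (f := fun p : (ℝ × ℝ) × ℝ => (p.1, dir p.2)) (x := (x, φ))
      (G.dN_contAt hx (dir_ne φ) (0, 1)) g
  have s1 : ContinuousAt (fun p : (ℝ × ℝ) × ℝ => -sin p.2) (x, φ) := by fun_prop
  have s2 : ContinuousAt (fun p : (ℝ × ℝ) × ℝ => cos p.2) (x, φ) := by fun_prop
  exact (s1.mul c1).add (s2.mul c2)

lemma qq_contAt (G : Geo x0 R m Λ F d) {x : ℝ × ℝ} (hx : x ∈ ball x0 R) (φ : ℝ) :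
    ContinuousAt (fun p : (ℝ × ℝ) × ℝ => qq F p.1 p.2) (x, φ) :=
  (G.hp_contAt hx φ).div (G.hh_contAt hx φ) ((G.rad x hx).hh_pos φ).ne'

lemma qq_unif (G : Geo x0 R m Λ F d) {x : ℝ × ℝ} (hx : x ∈ ball x0 R) {ε : ℝ} (hε : 0 < ε) :
    ∃ δ > 0, ball x δ ⊆ ball x0 R ∧
      ∀ z ∈ ball x δ, ∀ φ ψ, |ψ - φ| < δ → |qq F z ψ - qq F x φ| < ε := by
  obtain ⟨δ, hδ, h⟩ := unif_per (q := qq F) (x := x) (fun φ => G.qq_contAt hx φ) (by
    filter_upwards [isOpen_ball.mem_nhds hx] with z hz φ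
    unfold qq
    rw [(G.rad z hz).hh_add_pi, (G.rad z hz).hp_add_pi]) hε
  obtain ⟨δ', hδ', h'⟩ := Metric.isOpen_iff.1 isOpen_ball x hx
  refine ⟨min δ δ', lt_min hδ hδ', (ball_subset_ball (min_le_right _ _)).trans h',
    fun z hz φ ψ hψ => ?_⟩
  exact h z (ball_subset_ball (min_le_left _ _) hz) φ ψ (lt_of_lt_of_le hψ (min_le_left _ _))

lemma th_eq (F : ℝ × ℝ → ℝ × ℝ → ℝ) (x : ℝ × ℝ) (φ : ℝ) :
    th (F x) φ = φ + π / 2 + arctan (qq F x φ) := rfl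

lemma arctan_lip (a b : ℝ) : |arctan a - arctan b| ≤ |a - b| := by
  have := mvt_abs (f := arctan) (f' := fun x => 1 / (1 + x ^ 2)) (a := b) (b := a) (C := 1)
    (fun x => hasDerivAt_arctan x) (fun x => by
      rw [abs_of_pos (by positivity), div_le_one (by positivity)]
      nlinarith [sq_nonneg x])
  simpa using this

lemma HH_deriv (G : Geo x0 R m Λ F d) {x : ℝ × ℝ} (hx : x ∈ ball x0 R) (φ : ℝ) :
    HasDerivAt (HH F x) (qq F x φ) φ :=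
  ((G.rad x hx).hasDerivAt_hh φ).log ((G.rad x hx).hh_pos φ).ne'

lemma norm_dir_smul_le (β φ : ℝ) : ‖β • dir φ‖ ≤ |β| := by
  rw [norm_smul, Real.norm_eq_abs]
  have := norm_dir_le φ
  nlinarith [abs_nonneg β]

lemma norm_dir_sub_le (φ ψ : ℝ) : ‖dir φ - dir ψ‖ ≤ |φ - ψ| := by
  rw [Prod.norm_def, max_le_iff]
  constructor
  · simp only [dir, Prod.fst_sub]
    rw [Real.norm_eq_abs]
    have := mvt_abs (f := cos) (f' := fun x => -sin x) (a := ψ) (b := φ) (C := 1)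
      (fun x => hasDerivAt_cos x) (fun x => by rw [abs_neg]; exact abs_sin_le_one x)
    simpa using this
  · simp only [dir, Prod.snd_sub]
    rw [Real.norm_eq_abs]
    have := mvt_abs (f := sin) (f' := fun x => cos x) (a := ψ) (b := φ) (C := 1)
      (fun x => hasDerivAt_sin x) (fun x => abs_cos_le_one x)
    simpa using this

lemma hh_lip (E : Est x0 R K F) {x y : ℝ × ℝ} (hx : x ∈ ball x0 R)
    (hy : y ∈ ball x0 R) (φ : ℝ) : |hh (F y) φ - hh (F x) φ| ≤ K * ‖y - x‖ := by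
  have h1 := E.FL x hx y hy (dir φ)
  have h2 := norm_dir_le φ
  have h3 := E.hK
  refine h1.trans ?_
  calc K * ‖y - x‖ * ‖dir φ‖ ≤ K * ‖y - x‖ * 1 := by gcongr
    _ = _ := mul_one _

lemma HH_lip (G : Geo x0 R m Λ F d) (E : Est x0 R K F) {x y : ℝ × ℝ} (hx : x ∈ ball x0 R)
    (hy : y ∈ ball x0 R) (φ : ℝ) : |HH F y φ - HH F x φ| ≤ 2 * K / m * ‖y - x‖ := by
  have hm := G.hm
  refine (log_sub_le (c := m / 2) (by positivity) (G.hh_lo hy φ) (G.hh_lo hx φ)).trans ?_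
  have := hh_lip E hx hy φ
  calc |hh (F y) φ - hh (F x) φ| / (m / 2) ≤ K * ‖y - x‖ / (m / 2) := by gcongr
    _ = _ := by field_simp

lemma own_hp (G : Geo x0 R m Λ F d) (E : Est x0 R K F) {x : ℝ × ℝ} {β φ : ℝ}
    (hx : x ∈ ball x0 R) (hy : x + β • dir φ ∈ ball x0 R) :
    |hp (F (x + β • dir φ)) φ - hp (F x) φ| ≤ 2 * K * |β| := by
  rcases eq_or_ne β 0 with h0 | h0
  · rw [h0]; simp
  have hv : β • dir φ ≠ 0 := smul_ne_zero h0 (dir_ne φ)
  have hne : x ≠ x + β • dir φ := by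
    intro h; exact hv (by simpa using h.symm)
  have h1 := E.rrL x hx _ hy hne
  rw [add_sub_cancel_left] at h1
  have h2 : ‖rr (F (x + β • dir φ)) (dir φ) - rr (F x) (dir φ)‖ ≤ K * |β| := by
    have h3 : ‖rr (F (x + β • dir φ)) (dir φ) - rr (F x) (dir φ)‖ ≤ K * ‖β • dir φ‖ := by
      rcases lt_or_gt_of_ne h0 with hb | hb
      · have e : β • dir φ = (-β) • (- dir φ) := by module
        have hnd : - dir φ ≠ 0 := neg_ne_zero.2 (dir_ne φ)
        have e1 : rr (F (x + β • dir φ)) (β • dir φ) = - rr (F (x + β • dir φ)) (dir φ) := by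
          rw [show rr (F (x + β • dir φ)) (β • dir φ) = rr (F (x + β • dir φ)) ((-β) • (- dir φ))
            by rw [← e]]
          rw [(G.rad _ hy).rr_smul hnd (by linarith), (G.rad _ hy).rr_neg (dir_ne φ)]
        have e2 : rr (F x) (β • dir φ) = - rr (F x) (dir φ) := by
          rw [e, (G.rad _ hx).rr_smul hnd (by linarith), (G.rad _ hx).rr_neg (dir_ne φ)]
        rw [e1, e2, neg_sub_neg, norm_sub_rev] at h1
        exact h1
      · rw [(G.rad _ hy).rr_smul (dir_ne φ) hb, (G.rad _ hx).rr_smul (dir_ne φ) hb] at h1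
        exact h1
    refine h3.trans (mul_le_mul_of_nonneg_left (norm_dir_smul_le β φ) E.hK.le)
  have e : hp (F (x + β • dir φ)) φ - hp (F x) φ =
      Om (nor φ) (rr (F (x + β • dir φ)) (dir φ) - rr (F x) (dir φ)) := by
    unfold hp
    rw [dN_eq_Om, dN_eq_Om, Om_sub_right]
  rw [e]
  refine (abs_Om_le _ _).trans ?_
  have h4 := norm_nor_le φ
  have h5 := E.hK
  calc 2 * ‖nor φ‖ * ‖rr (F (x + β • dir φ)) (dir φ) - rr (F x) (dir φ)‖ ≤ 2 * 1 * (K * |β|) := by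
        gcongr
    _ = _ := by ring

end Geo

end Pool.Agent.Helper831.PM
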