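import Pool.Agent.Helper831.PMLin

namespace Pool.Agent.Helper831.PM

open Real Set Filter Topology Metric

namespace Geo

variable {x0 : ℝ × ℝ} {R m Λ K : ℝ} {F : ℝ × ℝ → ℝ × ℝ → ℝ} {d : ℝ × ℝ → ℝ × ℝ → ℝ}

lemma mem_half {x : ℝ × ℝ} (hx : x ∈ ball x0 (R / 2)) {s : ℝ} (hs : |s| ≤ R / 2) (φ : ℝ) :
    x + s • dir φ ∈ ball x0 R := by
  have := mem_add hx ((norm_dir_smul_le s φ).trans hs)
  have e : R / 2 + R / 2 = R := by ring
  rwa [e] at this

lemma g_lip (G : Geo x0 R m Λ F d) (E : Est x0 R K F) {x : ℝ × ℝ} (hx : x ∈ ball x0 (R / 2))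
    {s : ℝ} (hs : 0 < s) (hsR : s ≤ R / 2) (φ ψ : ℝ) :
    |(d x (x + s • dir φ) - s * hh (F x) φ) - (d x (x + s • dir ψ) - s * hh (F x) ψ)| ≤
      2 * K * s ^ 2 * |φ - ψ| := by
  have hR := G.hR
  have hx' : x ∈ ball x0 R := ball_subset_ball (by linarith) hx
  have hmem : ∀ φ, x + s • dir φ ∈ ball x0 R := fun φ => mem_half hx (by rw [abs_of_pos hs]; exact hsR) φ
  refine mvt_abs (f := fun φ => d x (x + s • dir φ) - s * hh (F x) φ)
    (f' := fun φ => s * (hp (F (x + s • dir φ)) φ - hp (F x) φ)) ?_ ?_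
  · intro φ
    have hv0 : s • dir φ ≠ 0 := smul_ne_zero hs.ne' (dir_ne φ)
    have hne : x ≠ x + s • dir φ := by
      intro h; exact hv0 (by simpa using h.symm)
    have h1 := G.hasFDerivAt_d hx' (hmem φ) hne
    have h2 : HasDerivAt (fun φ => x + s • dir φ) (s • nor φ) φ :=
      ((hasDerivAt_dir φ).const_smul s).const_add x
    have h3 : HasDerivAt (fun φ => (x, x + s • dir φ)) ((0 : ℝ × ℝ), s • nor φ) φ :=
      (hasDerivAt_const φ x).prodMk h2
    have h4 := (h1.comp_hasDerivAt φ h3).sub (((G.rad x hx').hasDerivAt_hh φ).const_mul s)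
    refine h4.congr_deriv ?_
    simp only [sub_apply, ContinuousLinearMap.comp_apply, ContinuousLinearMap.coe_snd',
      ContinuousLinearMap.coe_fst', map_zero, sub_zero]
    rw [add_sub_cancel_left, (G.rad _ (hmem φ)).dN_smul (dir_ne φ) hs, map_smul, smul_eq_mul]
    unfold hp
    ring
  · intro φ
    have := G.own_hp E hx' (hmem φ)
    rw [abs_mul, abs_of_pos hs]
    rw [abs_of_pos hs] at this
    calc s * |hp (F (x + s • dir φ)) φ - hp (F x) φ| ≤ s * (2 * K * s) := by gcongr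
      _ = _ := by ring

lemma OD_pos (G : Geo x0 R m Λ F d) (E : Est x0 R K F) {x : ℝ × ℝ} (hx : x ∈ ball x0 (R / 2))
    {β l : ℝ} (hβ : 0 < β) (hβR : 2 * β ≤ R / 2) (hl : 0 < l) (hl1 : l ≤ 1) (φ ψ : ℝ) :
    |kap F x φ β - kap F x ψ β| ≤ (10 * K * |φ - ψ| / l + 2 * K * l) * β := by
  have hR := G.hR
  have hK := E.hK
  have hx' : x ∈ ball x0 R := ball_subset_ball (by linarith) hx
  set β' := (1 + l) * β with hβ'
  have hb1 : β ≤ β' := by rw [hβ']; nlinarith
  have hb2 : β' ≤ 2 * β := by rw [hβ']; nlinarith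
  have hmem : ∀ s, 0 ≤ s → s ≤ β' → ∀ φ, x + s • dir φ ∈ ball x0 R := fun s h1 h2 φ =>
    mem_half hx (by rw [abs_of_nonneg h1]; linarith) φ
  have g1 := G.g_lip E hx hβ (by linarith) φ ψ
  have g2 := G.g_lip E hx (s := β') (by linarith) (by linarith) φ ψ
  have hd : ∀ φ, d x (x + β' • dir φ) = d x (x + β • dir φ) +
      ∫ s in β..β', F (x + s • dir φ) (dir φ) := by
    intro φ
    have h1 := G.d_add (x := x) (u := dir φ) (s1 := 0) (s2 := β) (s3 := β') hβ.le hb1
      (by simpa using hx') (hmem β' (by linarith) le_rfl φ)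
    have h2 := G.d_line (x := x) (u := dir φ) hb1 (hmem β hβ.le hb1 φ)
      (hmem β' (by linarith) le_rfl φ)
    simp only [zero_smul, add_zero] at h1
    rw [h1, h2]
  have hint : ∀ φ, IntervalIntegrable (fun s => F (x + s • dir φ) (dir φ)) MeasureTheory.volume
      β β' := fun φ => G.intervalIntegrable_line (hmem β hβ.le hb1 φ)
        (hmem β' (by linarith) le_rfl φ) _
  set I := ∫ s in β..β', ((F (x + s • dir φ) (dir φ) - F (x + s • dir ψ) (dir ψ)) -
    (hh (F x) φ - hh (F x) ψ)) with hI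
  have hI1 : I = ((d x (x + β' • dir φ) - β' * hh (F x) φ) - (d x (x + β' • dir ψ) -
      β' * hh (F x) ψ)) - ((d x (x + β • dir φ) - β * hh (F x) φ) - (d x (x + β • dir ψ) -
      β * hh (F x) ψ)) := by
    rw [hI, intervalIntegral.integral_sub ((hint φ).sub (hint ψ)) (_root_.intervalIntegrable_const),
      intervalIntegral.integral_sub (hint φ) (hint ψ), hd φ, hd ψ]
    simp only [intervalIntegral.integral_const, smul_eq_mul]
    ring
  have hI2 : |I| ≤ 10 * K * β ^ 2 * |φ - ψ| := by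
    rw [hI1]
    refine (abs_sub _ _).trans ?_
    have : β' ^ 2 ≤ 4 * β ^ 2 := by nlinarith
    have : 2 * K * β' ^ 2 * |φ - ψ| ≤ 2 * K * (4 * β ^ 2) * |φ - ψ| := by gcongr
    linarith
  have hI3 : |I - (β' - β) * (kap F x φ β - kap F x ψ β)| ≤ 2 * K * (l * β) * (l * β) := by
    have e : I - (β' - β) * (kap F x φ β - kap F x ψ β) =
        ∫ s in β..β', (((F (x + s • dir φ) (dir φ) - F (x + s • dir ψ) (dir ψ)) -
          (hh (F x) φ - hh (F x) ψ)) - (kap F x φ β - kap F x ψ β)) := by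
      rw [hI, intervalIntegral.integral_sub (((hint φ).sub (hint ψ)).sub
        (_root_.intervalIntegrable_const)) (_root_.intervalIntegrable_const)
        (g := fun _ => kap F x φ β - kap F x ψ β)]
      simp only [intervalIntegral.integral_const, smul_eq_mul]
    rw [e]
    have hbb : β' - β = l * β := by rw [hβ']; ring
    have := intervalIntegral.norm_integral_le_of_norm_le_const (a := β) (b := β')
      (f := fun s => (((F (x + s • dir φ) (dir φ) - F (x + s • dir ψ) (dir ψ)) -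
          (hh (F x) φ - hh (F x) ψ)) - (kap F x φ β - kap F x ψ β))) (C := 2 * K * (l * β))
      (fun s hs => by
        rw [uIoc_of_le hb1] at hs
        have one : ∀ φ, |F (x + s • dir φ) (dir φ) - hh (F (x + β • dir φ)) φ| ≤ K * (l * β) := by
          intro φ
          have h1 := hh_lip E (hmem β hβ.le hb1 φ) (hmem s (by linarith [hs.1]) hs.2 φ) φ
          have h2 : ‖x + s • dir φ - (x + β • dir φ)‖ ≤ l * β := by
            have : x + s • dir φ - (x + β • dir φ) = (s - β) • dir φ := by module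
            rw [this]
            refine (norm_dir_smul_le _ _).trans ?_
            rw [abs_of_nonneg (by linarith [hs.1]), ← hbb]
            linarith [hs.2]
          exact h1.trans (mul_le_mul_of_nonneg_left h2 hK.le)
        have h1 := one φ
        have h2 := one ψ
        have e : ((F (x + s • dir φ) (dir φ) - F (x + s • dir ψ) (dir ψ)) -
          (hh (F x) φ - hh (F x) ψ)) - (kap F x φ β - kap F x ψ β) =
          (F (x + s • dir φ) (dir φ) - hh (F (x + β • dir φ)) φ) -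
          (F (x + s • dir ψ) (dir ψ) - hh (F (x + β • dir ψ)) ψ) := by
          unfold kap; ring
        rw [e, Real.norm_eq_abs]
        refine (abs_sub _ _).trans ?_
        linarith)
    rw [hbb, abs_of_pos (mul_pos hl hβ)] at this
    exact this
  have hbb : β' - β = l * β := by rw [hβ']; ring
  rw [hbb] at hI3
  have h5 : |l * β * (kap F x φ β - kap F x ψ β)| ≤ 10 * K * β ^ 2 * |φ - ψ| +
      2 * K * (l * β) * (l * β) := by
    rw [abs_le] at hI2 hI3 ⊢
    constructor <;> linarith [hI2.1, hI2.2, hI3.1, hI3.2]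
  rw [abs_mul, abs_of_pos (mul_pos hl hβ)] at h5
  have h6 : l * β * |kap F x φ β - kap F x ψ β| ≤
      l * β * ((10 * K * |φ - ψ| / l + 2 * K * l) * β) := by
    refine h5.trans (le_of_eq ?_)
    field_simp
  exact le_of_mul_le_mul_left h6 (mul_pos hl hβ)

lemma kap_neg (G : Geo x0 R m Λ F d) {x : ℝ × ℝ} {φ β : ℝ} (hx : x ∈ ball x0 R)
    (hy : x + β • dir φ ∈ ball x0 R) : kap F x φ β = kap F x (φ + π) (-β) := by
  unfold kap
  have e : x + (-β) • dir (φ + π) = x + β • dir φ := by rw [dir_add_pi]; module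
  rw [e, (G.rad _ hy).hh_add_pi, (G.rad _ hx).hh_add_pi]

lemma OD (G : Geo x0 R m Λ F d) (E : Est x0 R K F) {x : ℝ × ℝ} (hx : x ∈ ball x0 (R / 2))
    {β l : ℝ} (hβR : 2 * |β| ≤ R / 2) (hl : 0 < l) (hl1 : l ≤ 1) (φ ψ : ℝ) :
    |kap F x φ β - kap F x ψ β| ≤ (10 * K * |φ - ψ| / l + 2 * K * l) * |β| := by
  have hR := G.hR
  have hx' : x ∈ ball x0 R := ball_subset_ball (by linarith) hx
  rcases lt_trichotomy β 0 with h | h | h
  · have hm : ∀ φ, x + β • dir φ ∈ ball x0 R := fun φ => mem_half hx (by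
      linarith [abs_nonneg β]) φ
    rw [G.kap_neg hx' (hm φ), G.kap_neg hx' (hm ψ)]
    have := G.OD_pos E hx (β := -β) (by linarith) (by rw [abs_of_neg h] at hβR; exact hβR) hl hl1
      (φ + π) (ψ + π)
    rw [abs_of_neg h]
    have e : φ + π - (ψ + π) = φ - ψ := by ring
    rwa [e] at this
  · rw [h]; simp [kap]
  · rw [abs_of_pos h]
    exact G.OD_pos E hx h (by rw [abs_of_pos h] at hβR; exact hβR) hl hl1 φ ψ

lemma hh_lip_angle (G : Geo x0 R m Λ F d) {x : ℝ × ℝ} (hx : x ∈ ball x0 R) (φ ψ : ℝ) :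
    |hh (F x) φ - hh (F x) ψ| ≤ Λ * |φ - ψ| := by
  have h1 := (G.rad x hx).1.sub_le (dir φ) (dir ψ)
  have h2 := G.up x hx (dir φ - dir ψ)
  have h3 := norm_dir_sub_le φ ψ
  have := G.hΛ
  exact (h1.trans h2).trans (by gcongr)

/-- own logarithmic differences are equicontinuous -/
lemma OD' (G : Geo x0 R m Λ F d) (E : Est x0 R K F) {ε : ℝ} (hε : 0 < ε) :
    ∃ δ > 0, ∀ x ∈ ball x0 (R / 2), ∀ β, |β| < δ → ∀ φ ψ, |φ - ψ| < δ →
      |HH F (x + β • dir φ) φ - HH F x φ - (HH F (x + β • dir ψ) ψ - HH F x ψ)| ≤ ε * |β| := by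
  have hR := G.hR
  have hK := E.hK
  have hm := G.hm
  have hΛ := G.hΛ
  set c := m / 2 with hc
  have hc0 : 0 < c := by positivity
  set l := min 1 (ε * c / (8 * K)) with hl
  have hl0 : 0 < l := lt_min one_pos (by positivity)
  have hl1 : l ≤ 1 := min_le_left _ _
  have hl2 : 2 * K * l / c ≤ ε / 4 := by
    have : l ≤ ε * c / (8 * K) := min_le_right _ _
    rw [le_div_iff₀ (by positivity)] at this
    rw [div_le_iff₀ hc0]
    linarith
  set δ := min (R / 4) (min (ε * l * c / (40 * K)) (min (ε * c ^ 2 / (4 * K * Λ))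
    (ε * c ^ 2 / (8 * K ^ 2)))) with hδ
  have hδ0 : 0 < δ := lt_min (by positivity) (lt_min (by positivity)
    (lt_min (by positivity) (by positivity)))
  have d1 : δ ≤ R / 4 := min_le_left _ _
  have d2 : δ ≤ ε * l * c / (40 * K) := (min_le_right _ _).trans (min_le_left _ _)
  have d3 : δ ≤ ε * c ^ 2 / (4 * K * Λ) :=
    (min_le_right _ _).trans ((min_le_right _ _).trans (min_le_left _ _))
  have d4 : δ ≤ ε * c ^ 2 / (8 * K ^ 2) :=
    (min_le_right _ _).trans ((min_le_right _ _).trans (min_le_right _ _))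
  refine ⟨δ, hδ0, fun x hx β hβ φ ψ hφ => ?_⟩
  have hx' : x ∈ ball x0 R := ball_subset_ball (by linarith) hx
  have hmem : ∀ φ, x + β • dir φ ∈ ball x0 R := fun φ => mem_half hx (by linarith) φ
  have hkap : ∀ φ, |kap F x φ β| ≤ K * |β| := by
    intro φ
    refine (hh_lip E hx' (hmem φ) φ).trans ?_
    rw [add_sub_cancel_left]
    exact mul_le_mul_of_nonneg_left (norm_dir_smul_le β φ) hK.le
  have hlog : ∀ φ, |HH F (x + β • dir φ) φ - HH F x φ - kap F x φ β / hh (F x) φ| ≤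
      K ^ 2 / c ^ 2 * |β| ^ 2 := by
    intro φ
    refine (log_sub_sub_le hc0 (G.hh_lo (hmem φ) φ) (G.hh_lo hx' φ)).trans ?_
    have := hkap φ
    unfold kap at this
    calc |hh (F (x + β • dir φ)) φ - hh (F x) φ| ^ 2 / c ^ 2 ≤ (K * |β|) ^ 2 / c ^ 2 := by gcongr
      _ = _ := by ring
  have hod := G.OD E hx (β := β) (by linarith) hl0 hl1 φ ψ
  have hq : |kap F x φ β / hh (F x) φ - kap F x ψ β / hh (F x) ψ| ≤
      ((10 * K * |φ - ψ| / l + 2 * K * l) * |β|) / c + K * |β| * (Λ * |φ - ψ|) / c ^ 2 := by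
    have h1 := G.hh_lo hx' φ
    have h2 := G.hh_lo hx' ψ
    have p1 : 0 < hh (F x) φ := lt_of_lt_of_le hc0 h1
    have p2 : 0 < hh (F x) ψ := lt_of_lt_of_le hc0 h2
    have e : kap F x φ β / hh (F x) φ - kap F x ψ β / hh (F x) ψ =
        (kap F x φ β - kap F x ψ β) / hh (F x) φ -
        kap F x ψ β * (hh (F x) φ - hh (F x) ψ) / (hh (F x) φ * hh (F x) ψ) := by
      field_simp; ring
    rw [e]
    refine (abs_sub _ _).trans (add_le_add ?_ ?_)
    · rw [abs_div, abs_of_pos p1]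
      calc |kap F x φ β - kap F x ψ β| / hh (F x) φ ≤ |kap F x φ β - kap F x ψ β| / c := by gcongr
        _ ≤ _ := by gcongr
    · rw [abs_div, abs_mul, abs_of_pos (mul_pos p1 p2), sq c]
      have h3 := G.hh_lip_angle hx' φ ψ
      have h4 := hkap ψ
      gcongr
  have hb0 := abs_nonneg β
  have hp0 := abs_nonneg (φ - ψ)
  have t1 : (10 * K * |φ - ψ| / l) * |β| / c ≤ ε / 4 * |β| := by
    have : 10 * K * |φ - ψ| / l / c ≤ ε / 4 := by
      rw [div_div, div_le_iff₀ (by positivity)]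
      have : |φ - ψ| ≤ ε * l * c / (40 * K) := hφ.le.trans d2
      rw [le_div_iff₀ (by positivity)] at this
      linarith
    calc (10 * K * |φ - ψ| / l) * |β| / c = 10 * K * |φ - ψ| / l / c * |β| := by ring
      _ ≤ _ := by gcongr
  have t2 : 2 * K * l * |β| / c ≤ ε / 4 * |β| := by
    calc 2 * K * l * |β| / c = 2 * K * l / c * |β| := by ring
      _ ≤ _ := by gcongr
  have t3 : K * |β| * (Λ * |φ - ψ|) / c ^ 2 ≤ ε / 4 * |β| := by
    have : K * Λ * |φ - ψ| / c ^ 2 ≤ ε / 4 := by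
      rw [div_le_iff₀ (by positivity)]
      have : |φ - ψ| ≤ ε * c ^ 2 / (4 * K * Λ) := hφ.le.trans d3
      rw [le_div_iff₀ (by positivity)] at this
      linarith
    calc K * |β| * (Λ * |φ - ψ|) / c ^ 2 = K * Λ * |φ - ψ| / c ^ 2 * |β| := by ring
      _ ≤ _ := by gcongr
  have t4 : 2 * (K ^ 2 / c ^ 2 * |β| ^ 2) ≤ ε / 4 * |β| := by
    have : 2 * K ^ 2 / c ^ 2 * |β| ≤ ε / 4 := by
      have : |β| ≤ ε * c ^ 2 / (8 * K ^ 2) := hβ.le.trans d4
      rw [le_div_iff₀ (by positivity)] at this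
      have e : 2 * K ^ 2 / c ^ 2 * |β| = 2 * K ^ 2 * |β| / c ^ 2 := by ring
      rw [e, div_le_iff₀ (by positivity)]
      linarith
    calc 2 * (K ^ 2 / c ^ 2 * |β| ^ 2) = 2 * K ^ 2 / c ^ 2 * |β| * |β| := by ring
      _ ≤ _ := by gcongr
  have t5 : (10 * K * |φ - ψ| / l + 2 * K * l) * |β| / c =
    (10 * K * |φ - ψ| / l) * |β| / c + 2 * K * l * |β| / c := by ring
  rw [t5] at hq
  have a1 := hlog φ
  have a2 := hlog ψ
  rw [abs_le] at a1 a2 hq ⊢
  constructor <;> linarith [a1.1, a1.2, a2.1, a2.2, hq.1, hq.2]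

lemma CC_Om (N : ℝ × ℝ → ℝ) (h : RadonNorm N) (φ : ℝ) :
    RadonNorm.CC N * Om (dir φ) (dir (th N φ)) = hh N φ * hh N (th N φ) := by
  have h1 := h.Om_rr (dir_ne φ)
  rw [h.rr_dir_th, Om_smul_right] at h1
  have h2 := (h.hh_pos (th N φ)).ne'
  have : N (dir φ) = hh N φ := rfl
  rw [this] at h1
  field_simp at h1
  linarith

lemma Om_th_pos (N : ℝ × ℝ → ℝ) (φ : ℝ) : 0 < Om (dir φ) (dir (th N φ)) := by
  rw [Om_dir_dir]
  have h1 := RadonNorm.th_lo N φ
  have h2 := RadonNorm.th_hi N φ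
  exact sin_pos_of_pos_of_lt_pi (by linarith) (by linarith)

lemma lC_le (G : Geo x0 R m Λ F d) {y z : ℝ × ℝ} (hy : y ∈ ball x0 R) (hz : z ∈ ball x0 R)
    (φ : ℝ) : lC F y - lC F z ≤
      (HH F y φ - HH F z φ) + (HH F y (th (F z) φ) - HH F z (th (F z) φ)) := by
  have ry := G.rad y hy
  have rz := G.rad z hz
  have hO := Om_th_pos (F z) φ
  have h1 := CC_Om (F z) rz φ
  have h2 : RadonNorm.CC (F y) * Om (dir φ) (dir (th (F z) φ)) ≤
      hh (F y) φ * hh (F y) (th (F z) φ) := ry.polar' _ _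
  have l1 := congrArg log h1
  have l2 := log_le_log (mul_pos ry.CC_pos hO) h2
  rw [log_mul rz.CC_pos.ne' hO.ne', log_mul (rz.hh_pos _).ne' (rz.hh_pos _).ne'] at l1
  rw [log_mul ry.CC_pos.ne' hO.ne', log_mul (ry.hh_pos _).ne' (ry.hh_pos _).ne'] at l2
  unfold lC HH
  linarith

lemma lC_lip (G : Geo x0 R m Λ F d) (E : Est x0 R K F) {x y : ℝ × ℝ} (hx : x ∈ ball x0 R)
    (hy : y ∈ ball x0 R) : |lC F y - lC F x| ≤ 4 * K / m * ‖y - x‖ := by
  have key : ∀ {x y : ℝ × ℝ}, x ∈ ball x0 R → y ∈ ball x0 R →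
      lC F y - lC F x ≤ 4 * K / m * ‖y - x‖ := by
    intro x y hx hy
    refine (G.lC_le hy hx 0).trans ?_
    have h1 := G.HH_lip E hx hy 0
    have h2 := G.HH_lip E hx hy (th (F x) 0)
    have h3 := (abs_le.1 h1).2
    have h4 := (abs_le.1 h2).2
    have e : 4 * K / m * ‖y - x‖ = 2 * K / m * ‖y - x‖ + 2 * K / m * ‖y - x‖ := by ring
    rw [e]
    linarith
  rw [abs_le]
  constructor
  · have := key hy hx
    rw [norm_sub_rev] at this
    linarith
  · exact key hx hy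

lemma abs_hp_le (G : Geo x0 R m Λ F d) {x : ℝ × ℝ} (hx : x ∈ ball x0 R) (φ : ℝ) :
    |hp (F x) φ| ≤ Λ := by
  have h1 := (G.rad x hx).abs_dN_le (dir_ne φ) (nor φ)
  have h2 := G.up x hx (nor φ)
  have h3 := norm_nor_le φ
  have h4 := G.hΛ
  refine (h1.trans h2).trans ?_
  nlinarith

lemma own_th (G : Geo x0 R m Λ F d) (E : Est x0 R K F) {x : ℝ × ℝ} {β φ : ℝ}
    (hx : x ∈ ball x0 R) (hy : x + β • dir φ ∈ ball x0 R) :
    |th (F (x + β • dir φ)) φ - th (F x) φ| ≤ (2 * K / (m / 2) + Λ * K / (m / 2) ^ 2) * |β| := by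
  have hK := E.hK
  have hm := G.hm
  have hΛ := G.hΛ
  set y := x + β • dir φ with hyd
  set c := m / 2 with hc
  have hc0 : 0 < c := by positivity
  have e : th (F y) φ - th (F x) φ = arctan (qq F y φ) - arctan (qq F x φ) := by
    rw [th_eq, th_eq]; ring
  rw [e]
  refine (arctan_lip _ _).trans ?_
  have h1 := G.hh_lo hy φ
  have h2 := G.hh_lo hx φ
  have p1 : 0 < hh (F y) φ := lt_of_lt_of_le hc0 h1
  have p2 : 0 < hh (F x) φ := lt_of_lt_of_le hc0 h2
  have e2 : qq F y φ - qq F x φ = (hp (F y) φ - hp (F x) φ) / hh (F y) φ -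
      hp (F x) φ * (hh (F y) φ - hh (F x) φ) / (hh (F y) φ * hh (F x) φ) := by
    unfold qq; field_simp; ring
  rw [e2]
  have h3 := G.own_hp E hx hy
  rw [← hyd] at h3
  have h4 : |hh (F y) φ - hh (F x) φ| ≤ K * |β| := by
    refine (hh_lip E hx hy φ).trans ?_
    rw [hyd, add_sub_cancel_left]
    exact mul_le_mul_of_nonneg_left (norm_dir_smul_le β φ) hK.le
  have h5 := G.abs_hp_le hx φ
  have t1 : |(hp (F y) φ - hp (F x) φ) / hh (F y) φ| ≤ 2 * K * |β| / c := by
    rw [abs_div, abs_of_pos p1]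
    gcongr
  have t2 : |hp (F x) φ * (hh (F y) φ - hh (F x) φ) / (hh (F y) φ * hh (F x) φ)| ≤
      Λ * (K * |β|) / c ^ 2 := by
    rw [abs_div, abs_mul, abs_of_pos (mul_pos p1 p2), sq c]
    gcongr
  refine (abs_sub _ _).trans ((add_le_add t1 t2).trans (le_of_eq ?_))
  ring

end Geo

end Pool.Agent.Helper831.PM
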