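import Pool.Agent.Helper831.PMLin2

namespace Pool.Agent.Helper831.PM

open Real Set Filter Topology Metric

namespace Geo

variable {x0 : ℝ × ℝ} {R m Λ K : ℝ} {F : ℝ × ℝ → ℝ × ℝ → ℝ} {d : ℝ × ℝ → ℝ × ℝ → ℝ}

lemma step_a (G : Geo x0 R m Λ F d) (E : Est x0 R K F) {x : ℝ × ℝ} (hx : x ∈ ball x0 R)
    {ε : ℝ} (hε : 0 < ε) : ∃ δ > 0, ball x δ ⊆ ball x0 R ∧ ∀ z ∈ ball x δ, ∀ β φ,
      z + β • dir φ ∈ ball x δ →
      |(HH F (z + β • dir φ) (th (F z) φ) - HH F z (th (F z) φ)) +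
        (HH F (z + β • dir φ) φ - HH F z φ) - (lC F (z + β • dir φ) - lC F z)| ≤ ε * |β| := by
  have hK := E.hK
  have hm := G.hm
  have hΛ := G.hΛ
  set K' := 2 * K / (m / 2) + Λ * K / (m / 2) ^ 2 with hK'
  have hK'0 : 0 < K' := by positivity
  obtain ⟨δ, hδ, hsub, hq⟩ := G.qq_unif hx (ε := ε / (2 * K')) (by positivity)
  refine ⟨δ, hδ, hsub, fun z hz β φ hy => ?_⟩
  set y := z + β • dir φ with hyd
  have hz' := hsub hz
  have hy' := hsub hy
  have l1 := G.lC_le hy' hz' φ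
  have l2 := G.lC_le hz' hy' φ
  have hth := G.own_th E hz' hy'
  rw [← hyd] at hth
  have hD := mvt_abs (f := fun ψ => HH F y ψ - HH F z ψ) (f' := fun ψ => qq F y ψ - qq F z ψ)
    (a := th (F y) φ) (b := th (F z) φ) (C := ε / K')
    (fun ψ => (G.HH_deriv hy' ψ).sub (G.HH_deriv hz' ψ)) (fun ψ => by
      have h1 := hq y hy ψ ψ (by simpa using hδ)
      have h2 := hq z hz ψ ψ (by simpa using hδ)
      have e : ε / K' = ε / (2 * K') + ε / (2 * K') := by field_simp; ring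
      rw [e]
      rw [abs_lt] at h1 h2
      rw [abs_le]
      constructor <;> linarith [h1.1, h1.2, h2.1, h2.2])
  have h3 : ε / K' * |th (F z) φ - th (F y) φ| ≤ ε * |β| := by
    rw [abs_sub_comm]
    calc ε / K' * |th (F y) φ - th (F z) φ| ≤ ε / K' * (K' * |β|) := by gcongr
      _ = _ := by field_simp
  have h4 := hD.trans h3
  rw [abs_le] at h4 ⊢
  have hb : 0 ≤ ε * |β| := by positivity
  constructor <;> linarith [h4.1, h4.2]

lemma step_L (G : Geo x0 R m Λ F d) (E : Est x0 R K F) {x : ℝ × ℝ} (hx : x ∈ ball x0 (R / 2))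
    {ε : ℝ} (hε : 0 < ε) : ∃ δ > 0, ball x (2 * δ) ⊆ ball x0 R ∧ ∀ z ∈ ball x δ, ∀ β φ ψ, |β| < δ →
      |ψ - th (F z) φ| < δ →
      |(HH F (z + β • dir φ) ψ - HH F z ψ) +
        (HH F (z + β • dir φ) φ - HH F z φ) - (lC F (z + β • dir φ) - lC F z)| ≤ ε * |β| := by
  have hR := G.hR
  have hK := E.hK
  have hm := G.hm
  have hx' : x ∈ ball x0 R := ball_subset_ball (by linarith) hx
  obtain ⟨δa, hδa, suba, ha⟩ := G.step_a E hx' (ε := ε / 4) (by positivity)
  obtain ⟨δo, hδo, ho⟩ := G.OD' E (ε := ε / 4) (by positivity)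
  set ε3 := min (δo / 2) (ε * m / (12 * K)) with hε3
  have hε30 : 0 < ε3 := lt_min (by positivity) (by positivity)
  obtain ⟨δq, hδq, subq, hq⟩ := G.qq_unif hx' (ε := ε3 / 4) (by positivity)
  obtain ⟨δh, hδh, subh⟩ := Metric.isOpen_iff.1 isOpen_ball x hx
  set δ := min (min (δa / 2) δo) (min (min δq (ε3 / 2)) δh) with hδ
  have hδ0 : 0 < δ := lt_min (lt_min (by positivity) hδo) (lt_min (lt_min hδq (by positivity)) hδh)
  have d1 : δ ≤ δa / 2 := (min_le_left _ _).trans (min_le_left _ _)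
  have d2 : δ ≤ δo := (min_le_left _ _).trans (min_le_right _ _)
  have d3 : δ ≤ δq := (min_le_right _ _).trans ((min_le_left _ _).trans (min_le_left _ _))
  have d4 : δ ≤ ε3 / 2 := (min_le_right _ _).trans ((min_le_left _ _).trans (min_le_right _ _))
  have d5 : δ ≤ δh := (min_le_right _ _).trans (min_le_right _ _)
  refine ⟨δ, hδ0, (ball_subset_ball (by linarith)).trans suba, fun z hz β φ ψ hβ hψ => ?_⟩
  have hza : z ∈ ball x δa := ball_subset_ball (by linarith) hz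
  have hz' := suba hza
  have hz2 : z ∈ ball x0 (R / 2) := subh (ball_subset_ball d5 hz)
  have rz := G.rad z hz'
  have hyall : ∀ θ, z + β • dir θ ∈ ball x δa := by
    intro θ
    have h1 := mem_add hz (norm_dir_smul_le β θ)
    exact ball_subset_ball (by linarith) h1
  set φ' := th (F z) ψ - π with hφ'
  have hthφ' : th (F z) φ' = ψ := by
    have h1 := rz.th_add_pi φ'
    have e : φ' + π = th (F z) ψ := by rw [hφ']; ring
    rw [e, rz.th_th] at h1
    linarith
  have hφφ : |φ - φ'| < ε3 := by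
    have e0 : φ = th (F z) (th (F z) φ) - π := by rw [rz.th_th]; ring
    have e1 : φ - φ' = th (F z) (th (F z) φ) - th (F z) ψ := by rw [hφ']; linarith
    rw [e1, th_eq F z (th (F z) φ), th_eq F z ψ]
    set ψ0 := th (F z) φ with hψ0
    have h1 := hq z (ball_subset_ball d3 hz) ψ0 ψ (lt_of_lt_of_le hψ d3)
    have h2 := hq z (ball_subset_ball d3 hz) ψ0 ψ0 (by simpa using hδq)
    have h3 := arctan_lip (qq F z ψ0) (qq F z ψ)
    have h4 : |qq F z ψ0 - qq F z ψ| < ε3 / 2 := by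
      rw [abs_lt] at h1 h2 ⊢
      constructor <;> linarith [h1.1, h1.2, h2.1, h2.2]
    have h5 : |arctan (qq F z ψ0) - arctan (qq F z ψ)| < ε3 / 2 := lt_of_le_of_lt h3 h4
    have h6 : |ψ - ψ0| < ε3 / 2 := lt_of_lt_of_le hψ d4
    rw [abs_lt] at h5 h6 ⊢
    constructor <;> linarith [h5.1, h5.2, h6.1, h6.2]
  have A := ha z hza β φ' (hyall φ')
  rw [hthφ'] at A
  have O := ho z hz2 β (lt_of_lt_of_le hβ d2) φ φ'
    (lt_of_lt_of_le hφφ ((min_le_left _ _).trans (by linarith)))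
  have hyy : ‖z + β • dir φ - (z + β • dir φ')‖ ≤ |β| * ε3 := by
    have e : z + β • dir φ - (z + β • dir φ') = β • (dir φ - dir φ') := by module
    rw [e, norm_smul, Real.norm_eq_abs]
    exact mul_le_mul_of_nonneg_left ((norm_dir_sub_le _ _).trans hφφ.le) (abs_nonneg _)
  have H1 := G.HH_lip E (suba (hyall φ')) (suba (hyall φ)) ψ
  have H2 := G.lC_lip E (suba (hyall φ')) (suba (hyall φ))
  have H1' : 2 * K / m * ‖z + β • dir φ - (z + β • dir φ')‖ ≤ ε / 6 * |β| := by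
    have : 2 * K / m * ε3 ≤ ε / 6 := by
      have : ε3 ≤ ε * m / (12 * K) := min_le_right _ _
      calc 2 * K / m * ε3 ≤ 2 * K / m * (ε * m / (12 * K)) := by gcongr
        _ = ε / 6 := by field_simp; ring
    calc 2 * K / m * ‖z + β • dir φ - (z + β • dir φ')‖ ≤ 2 * K / m * (|β| * ε3) := by gcongr
      _ = (2 * K / m * ε3) * |β| := by ring
      _ ≤ _ := by gcongr
  have H2' : 4 * K / m * ‖z + β • dir φ - (z + β • dir φ')‖ ≤ ε / 3 * |β| := by
    have e : 4 * K / m * ‖z + β • dir φ - (z + β • dir φ')‖ =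
      2 * (2 * K / m * ‖z + β • dir φ - (z + β • dir φ')‖) := by ring
    rw [e]; linarith
  have H1'' := H1.trans H1'
  have H2'' := H2.trans H2'
  have hb : 0 ≤ ε * |β| := by positivity
  rw [abs_le] at A O H1'' H2'' ⊢
  constructor <;> linarith [A.1, A.2, O.1, O.2, H1''.1, H1''.2, H2''.1, H2''.2]

/-- linearised Radon identity, uniformly in the direction -/
lemma step_T (G : Geo x0 R m Λ F d) (E : Est x0 R K F) {x : ℝ × ℝ} (hx : x ∈ ball x0 (R / 2))
    {ε : ℝ} (hε : 0 < ε) : ∃ δ > 0, ball x δ ⊆ ball x0 R ∧ ∀ y ∈ ball x δ, ∀ φ,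
      |(HH F y φ - HH F x φ) + (HH F y (th (F x) φ) - HH F x (th (F x) φ)) -
        (lC F y - lC F x)| ≤ ε * ‖y - x‖ := by
  have hR := G.hR
  have hK := E.hK
  have hm := G.hm
  have hx' : x ∈ ball x0 R := ball_subset_ball (by linarith) hx
  have rx := G.rad x hx'
  set c := (m / 2) ^ 2 / RadonNorm.CC (F x) with hc
  have hc0 : 0 < c := div_pos (by positivity) rx.CC_pos
  have hOm : ∀ φ, c ≤ Om (dir φ) (dir (th (F x) φ)) := by
    intro φ
    have h1 := CC_Om (F x) rx φ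
    have h2 := G.hh_lo hx' φ
    have h3 := G.hh_lo hx' (th (F x) φ)
    rw [hc, div_le_iff₀ rx.CC_pos, mul_comm _ (RadonNorm.CC (F x)), h1, sq]
    exact mul_le_mul h2 h3 (by positivity) (rx.hh_pos φ).le
  obtain ⟨δL, hδL, subL, hL⟩ := G.step_L E hx (ε := ε * c / 4) (by positivity)
  obtain ⟨δq, hδq, subq, hq⟩ := G.qq_unif hx' (ε := δL) hδL
  set ρ := min (δL / 2) δq with hρ
  have hρ0 : 0 < ρ := lt_min (by positivity) hδq
  set δ := min δL (ρ * c / 4) with hδ
  have hδ0 : 0 < δ := lt_min hδL (by positivity)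
  refine ⟨δ, hδ0, (ball_subset_ball ((min_le_left _ _).trans (by linarith))).trans subL,
    fun y hy φ => ?_⟩
  obtain ⟨w, hw⟩ : ∃ w, w = y - x := ⟨_, rfl⟩
  rw [← hw]
  set ψ := th (F x) φ with hψ
  have hO := hOm φ
  rw [← hψ] at hO
  have hOpos : 0 < Om (dir φ) (dir ψ) := lt_of_lt_of_le hc0 hO
  have e := Om_decomp hOpos.ne' w
  set β := Om w (dir ψ) / Om (dir φ) (dir ψ) with hβ
  set α := Om (dir φ) w / Om (dir φ) (dir ψ) with hα
  have hwn : ‖w‖ < ρ * c / 4 := by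
    have : dist y x < δ := hy
    rw [dist_eq_norm, ← hw] at this
    exact lt_of_lt_of_le this (min_le_right _ _)
  have hβn : |β| ≤ 2 / c * ‖w‖ := by
    rw [hβ, abs_div, abs_of_pos hOpos]
    have h1 := abs_Om_le w (dir ψ)
    have h2 := norm_dir_le ψ
    calc |Om w (dir ψ)| / Om (dir φ) (dir ψ) ≤ (2 * ‖w‖ * 1) / c := by
          gcongr
          exact h1.trans (by gcongr)
      _ = _ := by ring
  have hαn : |α| ≤ 2 / c * ‖w‖ := by
    rw [hα, abs_div, abs_of_pos hOpos]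
    have h1 := abs_Om_le (dir φ) w
    have h2 := norm_dir_le φ
    calc |Om (dir φ) w| / Om (dir φ) (dir ψ) ≤ (2 * 1 * ‖w‖) / c := by
          gcongr
          exact h1.trans (by gcongr)
      _ = _ := by ring
  have h2w : 2 / c * ‖w‖ < ρ := by
    calc 2 / c * ‖w‖ < 2 / c * (ρ * c / 4) := by gcongr
      _ = ρ / 2 := by field_simp; norm_num
      _ < ρ := by linarith
  have hρL : ρ ≤ δL / 2 := min_le_left _ _
  have hρq : ρ ≤ δq := min_le_right _ _
  set x1 := x + α • dir ψ with hx1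
  have hyx : y = x1 + β • dir φ := by
    have : y = x + w := by rw [hw]; abel
    rw [this, hx1]
    conv_lhs => rw [e]
    abel
  have mx1 : x1 ∈ ball x ρ := by
    rw [mem_ball, dist_eq_norm, hx1, add_sub_cancel_left]
    exact lt_of_le_of_lt (norm_dir_smul_le α ψ) (lt_of_le_of_lt hαn h2w)
  have mx0 : x ∈ ball x δL := mem_ball_self hδL
  have S1 := hL x mx0 α ψ (φ + π) (by linarith) (by
    rw [hψ, rx.th_th, sub_self, abs_zero]; exact hδL)
  have S2 := hL x1 (ball_subset_ball (by linarith) mx1) β φ ψ (by linarith) (by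
    rw [hψ, th_eq F x φ, th_eq F x1 φ]
    have h1 := hq x1 (ball_subset_ball hρq mx1) φ φ (by simpa using hδq)
    have h2 := arctan_lip (qq F x φ) (qq F x1 φ)
    rw [abs_sub_comm] at h1
    have e3 : φ + π / 2 + arctan (qq F x φ) - (φ + π / 2 + arctan (qq F x1 φ)) =
      arctan (qq F x φ) - arctan (qq F x1 φ) := by ring
    rw [e3]
    exact lt_of_le_of_lt h2 h1)
  rw [← hx1] at S1
  rw [← hyx] at S2
  have mx1' : x1 ∈ ball x0 R := subL (ball_subset_ball (by linarith) mx1)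
  have p1 : HH F x1 (φ + π) = HH F x1 φ := by unfold HH; rw [(G.rad x1 mx1').hh_add_pi]
  have p2 : HH F x (φ + π) = HH F x φ := by unfold HH; rw [rx.hh_add_pi]
  rw [p1, p2] at S1
  have hfin : ε * c / 4 * |α| + ε * c / 4 * |β| ≤ ε * ‖w‖ := by
    calc ε * c / 4 * |α| + ε * c / 4 * |β| ≤ ε * c / 4 * (2 / c * ‖w‖) +
        ε * c / 4 * (2 / c * ‖w‖) := by gcongr
      _ = ε * ‖w‖ := by field_simp; ring
  rw [abs_le] at S1 S2 ⊢
  constructor <;> linarith [S1.1, S1.2, S2.1, S2.2]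

end Geo

end Pool.Agent.Helper831.PM
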