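import Pool.Agent.Helper831.PMDiff
import Pool.Agent.Helper831.PMGap

namespace Pool.Agent.Helper831.PM

open Real Set Filter Topology Metric

lemma mvt_abs_on {f f' : ℝ → ℝ} {a b C : ℝ} (hab : a ≤ b)
    (hf : ∀ x ∈ Icc a b, HasDerivAt f (f' x) x)
    (hC : ∀ x ∈ Icc a b, |f' x| ≤ C) : |f b - f a| ≤ C * (b - a) := by
  rw [abs_le]
  constructor
  · have := mvt_le (f := fun x => - f x) (f' := fun x => - f' x) (C := C) hab
      (fun x hx => (hf x hx).neg) (fun x hx => by linarith [(abs_le.1 (hC x hx)).1])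
    linarith
  · exact mvt_le hab hf (fun x hx => (abs_le.1 (hC x hx)).2)

namespace Geo

variable {x0 : ℝ × ℝ} {R m Λ : ℝ} {F : ℝ × ℝ → ℝ × ℝ → ℝ} {d : ℝ × ℝ → ℝ × ℝ → ℝ}

lemma norm_rr_le (G : Geo x0 R m Λ F d) {x : ℝ × ℝ} (hx : x ∈ ball x0 R) {u : ℝ × ℝ} (hu : u ≠ 0) :
    ‖rr (F x) u‖ ≤ Λ := by
  have h1 := (G.rad x hx).abs_dN_le hu (0, 1)
  have h2 := (G.rad x hx).abs_dN_le hu (1, 0)
  have h3 := G.up x hx (0, 1)
  have h4 := G.up x hx (1, 0)
  have e1 : ‖((0, 1) : ℝ × ℝ)‖ = 1 := by simp [Prod.norm_def]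
  have e2 : ‖((1, 0) : ℝ × ℝ)‖ = 1 := by simp [Prod.norm_def]
  rw [e1, mul_one] at h3
  rw [e2, mul_one] at h4
  rw [Prod.norm_def, max_le_iff]
  constructor
  · show ‖-dN (F x) u (0, 1)‖ ≤ Λ
    rw [norm_neg, Real.norm_eq_abs]; exact h1.trans h3
  · show ‖dN (F x) u (1, 0)‖ ≤ Λ
    rw [Real.norm_eq_abs]; exact h2.trans h4

/-- perpendiculars to a line do not meet: quantitative form -/
lemma noncross (G : Geo x0 R m Λ F d) {x y : ℝ × ℝ} (hx : x ∈ ball x0 (R / 2))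
    (hy : y ∈ ball x0 (R / 2)) (hxy : x ≠ y) :
    |Om (rr (F x) (y - x)) (rr (F y) (y - x))| ≤ 4 * Λ ^ 2 / R * ‖y - x‖ := by
  by_contra hcon
  push Not at hcon
  have hR := G.hR
  have hΛ := G.hΛ
  obtain ⟨v, hv⟩ : ∃ v, v = y - x := ⟨_, rfl⟩
  rw [← hv] at hcon
  have hv0 : v ≠ 0 := by rw [hv, sub_ne_zero]; exact hxy.symm
  have hvn : 0 < ‖v‖ := norm_pos_iff.2 hv0
  have hsub : ball x0 (R / 2) ⊆ ball x0 R := ball_subset_ball (by linarith)
  have hx' := hsub hx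
  have hy' := hsub hy
  obtain ⟨a, ha⟩ : ∃ a, a = rr (F x) v := ⟨_, rfl⟩
  obtain ⟨b, hb⟩ : ∃ b, b = rr (F y) v := ⟨_, rfl⟩
  rw [← ha, ← hb] at hcon
  set D := Om a b with hD
  have hDabs : 0 < |D| := lt_of_le_of_lt (by positivity) hcon
  have hD0 : D ≠ 0 := abs_pos.1 hDabs
  have hva : Om v a = F x v := by rw [ha]; exact (G.rad x hx').Om_rr hv0
  have hvb : Om v b = F y v := by rw [hb]; exact (G.rad y hy').Om_rr hv0
  set s := F y v / D with hs
  set t := F x v / D with ht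
  have hFx := (G.rad x hx').1.pos hv0
  have hFy := (G.rad y hy').1.pos hv0
  have hs0 : s ≠ 0 := div_ne_zero hFy.ne' hD0
  have ht0 : t ≠ 0 := div_ne_zero hFx.ne' hD0
  -- the meeting point
  have hmeet : x + s • a = y + t • b := by
    have e := Om_decomp (u := a) (v := b) hD0 v
    rw [← hD, hvb, Om_swap a v, hva] at e
    have e2 : y = x + v := by rw [hv]; abel
    have e3 : v = s • a - t • b := by
      rw [hs, ht]
      rw [neg_div, neg_smul] at e
      rw [sub_eq_add_neg]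
      exact e
    rw [e2]
    conv_rhs => rw [e3]
    abel
  have hsa : ‖s • a‖ ≤ R / 4 := by
    rw [norm_smul, Real.norm_eq_abs, hs, abs_div, abs_of_pos hFy]
    have h1 : ‖a‖ ≤ Λ := by rw [ha]; exact G.norm_rr_le hx' hv0
    have h2 : F y v / |D| ≤ R / (4 * Λ) := by
      rw [div_le_div_iff₀ hDabs (by positivity)]
      have h3 := G.up y hy' v
      have h4 : 4 * Λ ^ 2 * ‖v‖ ≤ R * |D| := by
        have : 4 * Λ ^ 2 / R * ‖v‖ * R ≤ |D| * R := mul_le_mul_of_nonneg_right hcon.le hR.le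
        have e : 4 * Λ ^ 2 / R * ‖v‖ * R = 4 * Λ ^ 2 * ‖v‖ := by field_simp
        rw [e] at this
        linarith
      nlinarith
    calc F y v / |D| * ‖a‖ ≤ R / (4 * Λ) * Λ := by gcongr
      _ = R / 4 := by field_simp
  have hn2 : ‖(2 * s) • a‖ ≤ R / 2 := by
    have : (2 * s) • a = (2 : ℝ) • (s • a) := by module
    rw [this, norm_smul]
    have : ‖(2 : ℝ)‖ = 2 := by norm_num
    rw [this]; linarith
  have dx : dist x x0 < R / 2 := hx
  have hX : x + s • a ∈ ball x0 R := by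
    rw [mem_ball, dist_eq_norm]
    have : x + s • a - x0 = (x - x0) + s • a := by abel
    rw [this]
    rw [dist_eq_norm] at dx
    linarith [norm_add_le (x - x0) (s • a)]
  have hXX : x + (2 * s) • a ∈ ball x0 R := by
    rw [mem_ball, dist_eq_norm]
    have : x + (2 * s) • a - x0 = (x - x0) + (2 * s) • a := by abel
    rw [this]
    rw [dist_eq_norm] at dx
    linarith [norm_add_le (x - x0) ((2 * s) • a)]
  have hyv : x + (1 : ℝ) • v = y := by rw [hv]; module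
  have hxv : y + (-1 : ℝ) • v = x := by rw [hv]; module
  -- inequalities
  have i1 : d (x + (2 * s) • a) x ≤ d (x + (2 * s) • a) y := by
    have := G.perp x hx' v hv0 (2 * s) 1 (by rw [← ha]; exact hXX) (by rw [hyv]; exact hy')
    rwa [hyv, ← ha] at this
  have i2 : d (x + s • a) y ≤ d (x + s • a) x := by
    have := G.perp y hy' v hv0 t (-1) (by rw [← hb, ← hmeet]; exact hX) (by rw [hxv]; exact hx')
    rwa [hxv, ← hb, ← hmeet] at this
  have i3 : d (x + (2 * s) • a) y < d (x + (2 * s) • a) (x + s • a) + d (x + s • a) y := by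
    refine G.strict _ hXX _ hX _ hy' ?_
    have e1 : x + s • a - (x + (2 * s) • a) = (-s) • a := by module
    have e2 : y - (x + s • a) = (-t) • b := by rw [hmeet]; module
    rw [e1, e2, Om_smul_left, Om_smul_right]
    exact mul_ne_zero (neg_ne_zero.2 hs0) (mul_ne_zero (neg_ne_zero.2 ht0) hD0)
  have i4 : d (x + (2 * s) • a) x = d (x + (2 * s) • a) (x + s • a) + d (x + s • a) x := by
    have h0 : x + (0 : ℝ) • (s • a) = x := by module
    have h1 : x + (1 : ℝ) • (s • a) = x + s • a := by module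
    have h2 : x + (2 : ℝ) • (s • a) = x + (2 * s) • a := by module
    have := G.d_add (x := x) (u := s • a) (s1 := 0) (s2 := 1) (s3 := 2) (by norm_num)
      (by norm_num) (by rw [h0]; exact hx') (by rw [h2]; exact hXX)
    rw [h0, h1, h2] at this
    rw [G.d_symm hXX hx', G.d_symm hXX hX, G.d_symm hX hx', this]
    ring
  linarith

lemma mem_add {x0 x w : ℝ × ℝ} {r s : ℝ} (hx : x ∈ ball x0 r) (hw : ‖w‖ ≤ s) :
    x + w ∈ ball x0 (r + s) := by
  rw [mem_ball, dist_eq_norm] at *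
  have : x + w - x0 = (x - x0) + w := by abel
  rw [this]
  linarith [norm_add_le (x - x0) w]

lemma hh_lo (G : Geo x0 R m Λ F d) {x : ℝ × ℝ} (hx : x ∈ ball x0 R) (φ : ℝ) :
    m / 2 ≤ hh (F x) φ := by
  have h1 := G.low x hx (dir φ)
  have h2 := half_le_norm_dir φ
  have h3 := G.hm
  unfold hh
  nlinarith

lemma hh_hi (G : Geo x0 R m Λ F d) {x : ℝ × ℝ} (hx : x ∈ ball x0 R) (φ : ℝ) :
    hh (F x) φ ≤ Λ := by
  have h1 := G.up x hx (dir φ)
  have h2 := norm_dir_le φ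
  have h3 := G.hΛ
  unfold hh
  nlinarith

lemma d_line_deriv (G : Geo x0 R m Λ F d) {x : ℝ × ℝ} (hx : x ∈ ball x0 R) {ν : ℝ} (hν : 0 < ν)
    {φ : ℝ} (hy : x + ν • uu (F x) φ ∈ ball x0 R) :
    HasDerivAt (fun φ => d x (x + ν • uu (F x) φ))
      (ν / hh (F x) φ ^ 2 * Om (rr (F x) (ν • uu (F x) φ))
        (rr (F (x + ν • uu (F x) φ)) (ν • uu (F x) φ))) φ := by
  have hr := G.rad x hx
  have hu0 : uu (F x) φ ≠ 0 := hr.uu_ne φ
  have hv0 : ν • uu (F x) φ ≠ 0 := smul_ne_zero hν.ne' hu0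
  have hne : x ≠ x + ν • uu (F x) φ := by
    intro h
    exact hv0 (by simpa using h.symm)
  have h1 := G.hasFDerivAt_d hx hy hne
  have h2 : HasDerivAt (fun φ => x + ν • uu (F x) φ)
      (ν • (ww (F x) φ • uu (F x) (th (F x) φ))) φ :=
    ((hr.hasDerivAt_uu φ).const_smul ν).const_add x
  have h3 : HasDerivAt (fun φ => (x, x + ν • uu (F x) φ))
      ((0 : ℝ × ℝ), ν • (ww (F x) φ • uu (F x) (th (F x) φ))) φ :=
    (hasDerivAt_const φ x).prodMk h2
  have h4 := h1.comp_hasDerivAt φ h3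
  refine h4.congr_deriv ?_
  simp only [sub_apply, ContinuousLinearMap.comp_apply, ContinuousLinearMap.coe_snd',
    ContinuousLinearMap.coe_fst', map_zero, sub_zero]
  have e0 : x + ν • uu (F x) φ - x = ν • uu (F x) φ := by abel
  rw [e0, dN_eq_Om]
  have hc : 0 < ν * (hh (F x) φ)⁻¹ := mul_pos hν (inv_pos.2 (hr.hh_pos φ))
  have e1 : rr (F x) (ν • uu (F x) φ) = RadonNorm.CC (F x) • uu (F x) (th (F x) φ) := by
    rw [uu, smul_smul, hr.rr_smul (dir_ne φ) hc, hr.rr_dir_th']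
  rw [e1, Om_smul_left, Om_smul_left, Om_smul_left]
  unfold ww
  ring

lemma flip (G : Geo x0 R m Λ F d) {x v : ℝ × ℝ} (hx : x ∈ ball x0 (R / 4))
    (hv : Λ * ‖v‖ ≤ m * R / 8) :
    |d x (x - v) - d x (x + v)| ≤ (π * 32 * Λ ^ 4 / (R * m ^ 3)) * ‖v‖ ^ 2 := by
  have hR := G.hR
  have hΛ := G.hΛ
  have hm := G.hm
  by_cases hv0 : v = 0
  · simp [hv0]
  have hx4 : x ∈ ball x0 R := ball_subset_ball (by linarith) hx
  have hx2 : x ∈ ball x0 (R / 2) := ball_subset_ball (by linarith) hx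
  have hr := G.rad x hx4
  obtain ⟨r, hr0, φ0, hφ⟩ := exists_dir hv0
  set ν := F x v with hν
  have hν0 : 0 < ν := hr.1.pos hv0
  have hvu : v = ν • uu (F x) φ0 := by
    rw [hν, hφ, hr.1.smul, abs_of_pos hr0, uu, smul_smul]
    have := (hr.hh_pos φ0).ne'
    have e : r * F x (dir φ0) * (hh (F x) φ0)⁻¹ = r := by
      show r * hh (F x) φ0 * (hh (F x) φ0)⁻¹ = r
      field_simp
    rw [e]
  have hνv : ν ≤ Λ * ‖v‖ := G.up x hx4 v
  have hun : ∀ φ, ‖uu (F x) φ‖ ≤ 2 / m := by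
    intro φ
    have h1 := G.hh_lo hx4 φ
    have h2 := norm_dir_le φ
    rw [uu, norm_smul, norm_inv, Real.norm_eq_abs, abs_of_pos (hr.hh_pos φ)]
    have h3 : (hh (F x) φ)⁻¹ ≤ (m / 2)⁻¹ := inv_anti₀ (by positivity) h1
    calc (hh (F x) φ)⁻¹ * ‖dir φ‖ ≤ (m / 2)⁻¹ * 1 := by gcongr
      _ = 2 / m := by rw [mul_one, inv_div]
  have hνn : ∀ φ, ‖ν • uu (F x) φ‖ ≤ 2 / m * ν := by
    intro φ
    rw [norm_smul, Real.norm_eq_abs, abs_of_pos hν0, mul_comm]
    exact mul_le_mul_of_nonneg_right (hun φ) hν0.le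
  have hνR : 2 / m * ν ≤ R / 4 := by
    have : 2 / m * ν ≤ 2 / m * (m * R / 8) := by gcongr; exact hνv.trans hv
    have e : 2 / m * (m * R / 8) = R / 4 := by field_simp; ring
    rw [e] at this
    exact this
  have hmem : ∀ φ, x + ν • uu (F x) φ ∈ ball x0 (R / 2) := by
    intro φ
    have := mem_add hx ((hνn φ).trans hνR)
    have e : R / 4 + R / 4 = R / 2 := by ring
    rwa [e] at this
  have hmem' : ∀ φ, x + ν • uu (F x) φ ∈ ball x0 R := fun φ =>
    ball_subset_ball (by linarith) (hmem φ)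
  have hder : ∀ φ, |ν / hh (F x) φ ^ 2 * Om (rr (F x) (ν • uu (F x) φ))
        (rr (F (x + ν • uu (F x) φ)) (ν • uu (F x) φ))| ≤ 32 * Λ ^ 2 / (R * m ^ 3) * ν ^ 2 := by
    intro φ
    have hv0' : ν • uu (F x) φ ≠ 0 := smul_ne_zero hν0.ne' (hr.uu_ne φ)
    have hne : x ≠ x + ν • uu (F x) φ := by
      intro h
      exact hv0' (by simpa using h.symm)
    have h1 := G.noncross hx2 (hmem φ) hne
    have e0 : x + ν • uu (F x) φ - x = ν • uu (F x) φ := by abel
    rw [e0] at h1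
    have h2 : ν / hh (F x) φ ^ 2 ≤ ν / (m / 2) ^ 2 := by
      have := G.hh_lo hx4 φ
      gcongr
    rw [abs_mul, abs_of_pos (div_pos hν0 (pow_pos (hr.hh_pos φ) 2))]
    refine (mul_le_mul h2 (h1.trans (mul_le_mul_of_nonneg_left (hνn φ) (by positivity)))
      (abs_nonneg _) (by positivity)).trans (le_of_eq ?_)
    field_simp
    ring
  have hmv := mvt_abs_on (a := φ0) (b := φ0 + π) (by linarith [pi_pos])
    (fun φ _ => G.d_line_deriv hx4 hν0 (hmem' φ)) (fun φ _ => hder φ)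
  have e1 : x + ν • uu (F x) (φ0 + π) = x - v := by
    rw [hr.uu_add_pi, smul_neg, ← hvu]; abel
  have e2 : φ0 + π - φ0 = π := by ring
  rw [e1, ← hvu, e2] at hmv
  refine hmv.trans ?_
  have : ν ^ 2 ≤ (Λ * ‖v‖) ^ 2 := pow_le_pow_left₀ hν0.le hνv 2
  calc 32 * Λ ^ 2 / (R * m ^ 3) * ν ^ 2 * π ≤ 32 * Λ ^ 2 / (R * m ^ 3) * (Λ * ‖v‖) ^ 2 * π := by
        gcongr
    _ = _ := by ring

end Geo

end Pool.Agent.Helper831.PM
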