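import Pool.Agent.Helper831.PMLip

namespace Pool.Agent.Helper831.PM

open Real Set Filter Topology Metric

/-- Lipschitz estimates on a ball. -/
structure Est (x0 : ℝ × ℝ) (r K : ℝ) (F : ℝ × ℝ → ℝ × ℝ → ℝ) : Prop where
  hK : 0 < K
  rrL : ∀ x ∈ ball x0 r, ∀ y ∈ ball x0 r, x ≠ y →
    ‖rr (F y) (y - x) - rr (F x) (y - x)‖ ≤ K * ‖y - x‖
  FL : ∀ x ∈ ball x0 r, ∀ y ∈ ball x0 r, ∀ u, |F y u - F x u| ≤ K * ‖y - x‖ * ‖u‖

namespace Geo

variable {x0 : ℝ × ℝ} {R m Λ : ℝ} {F : ℝ × ℝ → ℝ × ℝ → ℝ} {d : ℝ × ℝ → ℝ × ℝ → ℝ}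

lemma mono (G : Geo x0 R m Λ F d) {x1 : ℝ × ℝ} {r : ℝ} (hr : 0 < r)
    (hsub : ball x1 r ⊆ ball x0 R) : Geo x1 r m Λ F d where
  hR := hr
  hm := G.hm
  hmΛ := G.hmΛ
  rad := fun x hx => G.rad x (hsub hx)
  low := fun x hx => G.low x (hsub hx)
  up := fun x hx => G.up x (hsub hx)
  cont := G.cont.mono (prod_mono hsub subset_rfl)
  int := fun x hx y hy => G.int x (hsub hx) y (hsub hy)
  tri := fun x hx y hy z hz => G.tri x (hsub hx) y (hsub hy) z (hsub hz)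
  strict := fun x hx y hy z hz => G.strict x (hsub hx) y (hsub hy) z (hsub hz)
  perp := fun x hx u hu s t h1 h2 => G.perp x (hsub hx) u hu s t (hsub h1) (hsub h2)

/-- Lipschitz along the own direction -/
lemma own_lip (G : Geo x0 R m Λ F d) {x y : ℝ × ℝ} (hx : x ∈ ball x0 (R / 4))
    (hy : y ∈ ball x0 (R / 4)) :
    |F y (y - x) - F x (y - x)| ≤ (π * 32 * Λ ^ 4 / (R * m ^ 3)) * ‖y - x‖ ^ 2 := by
  have hR := G.hR
  have hΛ := G.hΛ
  have hm := G.hm
  set K2 := π * 32 * Λ ^ 4 / (R * m ^ 3) with hK2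
  have hK2pos : 0 < K2 := by positivity
  obtain ⟨v, hv⟩ : ∃ v, v = y - x := ⟨_, rfl⟩
  rw [← hv]
  have hsub : ball x0 (R / 4) ⊆ ball x0 R := ball_subset_ball (by linarith)
  have hyv : y = x + v := by rw [hv]; abel
  refine le_of_forall_pos_le_add fun ε' hε' => ?_
  set ε := ε' / (2 * (‖v‖ + 1)) with hε
  have hε0 : 0 < ε := by positivity
  obtain ⟨δ1, hδ1, sub1, un1⟩ := G.unif (hsub hx) hε0
  obtain ⟨δ2, hδ2, sub2, un2⟩ := G.unif (hsub hy) hε0
  obtain ⟨n, hn⟩ := exists_nat_gt (max (‖v‖ / δ1) (max (‖v‖ / δ2) (Λ * ‖v‖ / (m * R / 8))) + 1)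
  have n1 : ‖v‖ / δ1 < n := by
    have := le_max_left (‖v‖ / δ1) (max (‖v‖ / δ2) (Λ * ‖v‖ / (m * R / 8))); linarith
  have n2 : ‖v‖ / δ2 < n := by
    have := le_max_right (‖v‖ / δ1) (max (‖v‖ / δ2) (Λ * ‖v‖ / (m * R / 8)))
    have := le_max_left (‖v‖ / δ2) (Λ * ‖v‖ / (m * R / 8)); linarith
  have n3 : Λ * ‖v‖ / (m * R / 8) < n := by
    have := le_max_right (‖v‖ / δ1) (max (‖v‖ / δ2) (Λ * ‖v‖ / (m * R / 8)))
    have := le_max_right (‖v‖ / δ2) (Λ * ‖v‖ / (m * R / 8)); linarith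
  have hn0 : (0 : ℝ) < n := lt_of_le_of_lt (by positivity) n1
  set w := (n : ℝ)⁻¹ • v with hw
  have hwn : ‖w‖ = ‖v‖ / n := by
    rw [hw, norm_smul, norm_inv, Real.norm_eq_abs, abs_of_pos hn0, inv_mul_eq_div]
  have w1 : ‖w‖ < δ1 := by rw [hwn, div_lt_iff₀ hn0]; rw [div_lt_iff₀ hδ1] at n1; linarith
  have w2 : ‖w‖ < δ2 := by rw [hwn, div_lt_iff₀ hn0]; rw [div_lt_iff₀ hδ2] at n2; linarith
  have w3 : Λ * ‖w‖ ≤ m * R / 8 := by
    rw [hwn, ← mul_div_assoc, div_le_iff₀ hn0]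
    rw [div_lt_iff₀ (by positivity)] at n3
    linarith
  set p : ℕ → ℝ × ℝ := fun j => x + (j : ℝ) • w with hp
  have p0 : p 0 = x := by simp [hp]
  have pn : p n = y := by
    simp only [hp, hw, hyv, smul_smul]
    rw [mul_inv_cancel₀ hn0.ne', one_smul]
  have pmem : ∀ j : ℕ, j ≤ n → p j ∈ ball x0 (R / 4) := by
    intro j hj
    have hj' : (j : ℝ) ≤ n := by exact_mod_cast hj
    have := seg_mem hx hy (t := (j : ℝ) / n) (by positivity) (by rw [div_le_one hn0]; exact hj')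
    have e : x + ((j : ℝ) / n) • (y - x) = p j := by
      simp only [hp, hw, ← hv, smul_smul]; rfl
    rwa [e] at this
  have psucc : ∀ j, p (j + 1) = p j + w := by
    intro j; simp only [hp]; push_cast; module
  have step : ∀ j : ℕ, j < n → |d (p (j + 1)) (p (j + 2)) - d (p j) (p (j + 1))| ≤ K2 * ‖w‖ ^ 2 := by
    intro j hj
    have h1 := G.flip (pmem (j + 1) hj) w3
    have e1 : p (j + 1) - w = p j := by rw [psucc]; abel
    have e2 : p (j + 1) + w = p (j + 2) := (psucc (j + 1)).symm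
    rw [e1, e2] at h1
    rw [G.d_symm (hsub (pmem (j + 1) hj)) (hsub (pmem j hj.le)), abs_sub_comm] at h1
    exact h1
  have tele : ∀ j : ℕ, j ≤ n → |d (p j) (p (j + 1)) - d (p 0) (p 1)| ≤ j * (K2 * ‖w‖ ^ 2) := by
    intro j
    induction j with
    | zero => intro _; simp
    | succ j ih =>
      intro hj
      have h1 := ih (by omega)
      have h2 := step j hj
      have h3 := abs_sub_le (d (p (j + 1)) (p (j + 2))) (d (p j) (p (j + 1))) (d (p 0) (p 1))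
      push_cast
      have : ((j : ℝ) + 1) * (K2 * ‖w‖ ^ 2) = K2 * ‖w‖ ^ 2 + j * (K2 * ‖w‖ ^ 2) := by ring
      rw [this]
      exact h3.trans (add_le_add h2 h1)
  have T := tele n le_rfl
  rw [psucc n, pn, psucc 0, p0] at T
  have mx : x ∈ ball x δ1 := mem_ball_self hδ1
  have my : y ∈ ball y δ2 := mem_ball_self hδ2
  have mx' : x + w ∈ ball x δ1 := by rw [mem_ball, dist_eq_norm, add_sub_cancel_left]; exact w1
  have my' : y + w ∈ ball y δ2 := by rw [mem_ball, dist_eq_norm, add_sub_cancel_left]; exact w2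
  have h1 := G.d_est sub1 un1 mx mx'
  have h2 := G.d_est sub2 un2 my my'
  rw [add_sub_cancel_left, hw, (G.rad x (hsub hx)).1.smul, ← hw,
    abs_of_pos (inv_pos.2 hn0)] at h1
  rw [add_sub_cancel_left, hw, (G.rad y (hsub hy)).1.smul, ← hw,
    abs_of_pos (inv_pos.2 hn0)] at h2
  have key : |(n : ℝ)⁻¹ * F y v - (n : ℝ)⁻¹ * F x v| ≤ n * (K2 * ‖w‖ ^ 2) + 2 * (ε * ‖w‖) := by
    rw [abs_le] at T h1 h2 ⊢
    constructor <;> linarith [T.1, T.2, h1.1, h1.2, h2.1, h2.2]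
  rw [← mul_sub, abs_mul, abs_of_pos (inv_pos.2 hn0), inv_mul_le_iff₀ hn0] at key
  refine key.trans ?_
  rw [hwn]
  have e1 : (n : ℝ) * (n * (K2 * (‖v‖ / n) ^ 2) + 2 * (ε * (‖v‖ / n))) =
      K2 * ‖v‖ ^ 2 + 2 * ε * ‖v‖ := by field_simp
  rw [e1]
  have e2 : 2 * ε * ‖v‖ ≤ ε' := by
    have : 2 * ε * (‖v‖ + 1) = ε' := by rw [hε]; field_simp
    nlinarith
  linarith

lemma rr_lip (G : Geo x0 R m Λ F d) {x y : ℝ × ℝ} (hx : x ∈ ball x0 (R / 4))
    (hy : y ∈ ball x0 (R / 4)) (hxy : x ≠ y) :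
    ‖rr (F y) (y - x) - rr (F x) (y - x)‖ ≤
      ((4 * Λ ^ 2 / R + π * 32 * Λ ^ 4 / (R * m ^ 3) * Λ) / m) * ‖y - x‖ := by
  have hR := G.hR
  have hΛ := G.hΛ
  have hm := G.hm
  have h0 := G.noncross (ball_subset_ball (by linarith) hx) (ball_subset_ball (by linarith) hy) hxy
  have h3 := G.own_lip hx hy
  set K2 := π * 32 * Λ ^ 4 / (R * m ^ 3) with hK2
  set K0 := 4 * Λ ^ 2 / R with hK0
  obtain ⟨v, hv⟩ : ∃ v, v = y - x := ⟨_, rfl⟩
  rw [← hv] at h0 h3 ⊢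
  have hv0 : v ≠ 0 := by rw [hv, sub_ne_zero]; exact hxy.symm
  have hvn : 0 < ‖v‖ := norm_pos_iff.2 hv0
  have hx' : x ∈ ball x0 R := ball_subset_ball (by linarith) hx
  have hy' : y ∈ ball x0 R := ball_subset_ball (by linarith) hy
  set a := rr (F x) v with ha
  set b := rr (F y) v with hb
  have hva : Om v a = F x v := (G.rad x hx').Om_rr hv0
  have hvb : Om v b = F y v := (G.rad y hy').Om_rr hv0
  have hFx := (G.rad x hx').1.pos hv0
  have e := Om_decomp (u := v) (v := a) (by rw [hva]; exact hFx.ne') (b - a)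
  have c1 : Om (b - a) a = - Om a b := by rw [Om_sub_left, Om_self, sub_zero, Om_swap]
  have c2 : Om v (b - a) = F y v - F x v := by rw [Om_sub_right, hva, hvb]
  rw [c1, c2, hva] at e
  have na : ‖a‖ ≤ Λ := G.norm_rr_le hx' hv0
  have lowF := G.low x hx' v
  have t1 : ‖(-Om a b / F x v) • v‖ ≤ K0 / m * ‖v‖ := by
    rw [norm_smul, Real.norm_eq_abs, abs_div, abs_neg, abs_of_pos hFx]
    apply mul_le_mul_of_nonneg_right _ hvn.le
    rw [div_le_div_iff₀ hFx hm]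
    have : K0 * ‖v‖ * m ≤ K0 * F x v := by
      have : 0 < K0 := by positivity
      nlinarith
    nlinarith
  have t2 : ‖((F y v - F x v) / F x v) • a‖ ≤ K2 * Λ / m * ‖v‖ := by
    rw [norm_smul, Real.norm_eq_abs, abs_div, abs_of_pos hFx]
    have q : |F y v - F x v| / F x v ≤ K2 / m * ‖v‖ := by
      rw [div_le_iff₀ hFx]
      have : 0 < K2 := by positivity
      have e2 : K2 / m * ‖v‖ * F x v ≥ K2 / m * ‖v‖ * (m * ‖v‖) := by gcongr
      have e3 : K2 / m * ‖v‖ * (m * ‖v‖) = K2 * ‖v‖ ^ 2 := by field_simp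
      linarith
    calc |F y v - F x v| / F x v * ‖a‖ ≤ K2 / m * ‖v‖ * Λ := by gcongr
      _ = _ := by ring
  rw [e]
  refine (norm_add_le _ _).trans ((add_le_add t1 t2).trans (le_of_eq ?_))
  ring

lemma F_lip (G : Geo x0 R m Λ F d) {x y : ℝ × ℝ} (hx : x ∈ ball x0 (R / 8))
    (hy : y ∈ ball x0 (R / 8)) (u : ℝ × ℝ) :
    |F y u - F x u| ≤ 2 * ((4 * Λ ^ 2 / R + π * 32 * Λ ^ 4 / (R * m ^ 3) * Λ) / m) *
      ‖y - x‖ * ‖u‖ := by
  have hR := G.hR
  have hΛ := G.hΛ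
  have hm := G.hm
  set K3 := (4 * Λ ^ 2 / R + π * 32 * Λ ^ 4 / (R * m ^ 3) * Λ) / m with hK3
  have hK3pos : 0 < K3 := by positivity
  have hsub : ball x0 (R / 8) ⊆ ball x0 R := ball_subset_ball (by linarith)
  by_cases hu : u = 0
  · rw [hu, (G.rad x (hsub hx)).1.zero, (G.rad y (hsub hy)).1.zero]; simp
  have hun : 0 < ‖u‖ := norm_pos_iff.2 hu
  obtain ⟨w, hw⟩ : ∃ w, w = y - x := ⟨_, rfl⟩
  rw [← hw]
  refine le_of_forall_pos_le_add fun ε' hε' => ?_
  set ε := ε' / (2 * ‖u‖) with hε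
  have hε0 : 0 < ε := by positivity
  obtain ⟨δ1, hδ1, sub1, un1⟩ := G.unif (hsub hx) hε0
  obtain ⟨δ2, hδ2, sub2, un2⟩ := G.unif (hsub hy) hε0
  set α := min (R / 8) (min (δ1 / 2) (δ2 / 2)) / ‖u‖ with hα
  have hα0 : 0 < α := by
    apply div_pos _ hun
    exact lt_min (by positivity) (lt_min (by positivity) (by positivity))
  have nα : ‖α • u‖ = min (R / 8) (min (δ1 / 2) (δ2 / 2)) := by
    rw [norm_smul, Real.norm_eq_abs, abs_of_pos hα0, hα]; field_simp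
  have nα1 : ‖α • u‖ ≤ R / 8 := by rw [nα]; exact min_le_left _ _
  have nα2 : ‖α • u‖ < δ1 := by
    rw [nα]; exact lt_of_le_of_lt ((min_le_right _ _).trans (min_le_left _ _)) (by linarith)
  have nα3 : ‖α • u‖ < δ2 := by
    rw [nα]; exact lt_of_le_of_lt ((min_le_right _ _).trans (min_le_right _ _)) (by linarith)
  have hau : α • u ≠ 0 := smul_ne_zero hα0.ne' hu
  have hp : ∀ t ∈ Icc (0 : ℝ) 1, x + t • w ∈ ball x0 (R / 8) := by
    intro t ht
    rw [hw]; exact seg_mem hx hy ht.1 ht.2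
  have hq : ∀ t ∈ Icc (0 : ℝ) 1, x + t • w + α • u ∈ ball x0 (R / 4) := by
    intro t ht
    have := mem_add (hp t ht) nα1
    have e : R / 8 + R / 8 = R / 4 := by ring
    rwa [e] at this
  have hder : ∀ t ∈ Icc (0 : ℝ) 1, HasDerivAt (fun t : ℝ => d (x + t • w) (x + t • w + α • u))
      (Om w (rr (F (x + t • w + α • u)) (α • u) - rr (F (x + t • w)) (α • u))) t := by
    intro t ht
    have hne : x + t • w ≠ x + t • w + α • u := by
      intro h; exact hau (by simpa using h.symm)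
    have h1 := G.hasFDerivAt_d (hsub (hp t ht))
      (ball_subset_ball (by linarith) (hq t ht)) hne
    have h2 : HasDerivAt (fun t : ℝ => x + t • w) w t := by
      have := ((hasDerivAt_id t).smul_const w).const_add x
      simpa using this
    have h3 : HasDerivAt (fun t : ℝ => (x + t • w, x + t • w + α • u)) (w, w) t :=
      h2.prodMk (h2.add_const _)
    have h4 := h1.comp_hasDerivAt t h3
    refine h4.congr_deriv ?_
    simp only [sub_apply, ContinuousLinearMap.comp_apply, ContinuousLinearMap.coe_snd',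
      ContinuousLinearMap.coe_fst', add_sub_cancel_left]
    rw [dN_eq_Om, dN_eq_Om, Om_sub_right]
  have hbd : ∀ t ∈ Icc (0 : ℝ) 1,
      |Om w (rr (F (x + t • w + α • u)) (α • u) - rr (F (x + t • w)) (α • u))| ≤
      2 * ‖w‖ * (K3 * ‖α • u‖) := by
    intro t ht
    have hne : x + t • w ≠ x + t • w + α • u := by
      intro h; exact hau (by simpa using h.symm)
    have h1 := G.rr_lip (ball_subset_ball (by linarith) (hp t ht)) (hq t ht) hne
    rw [add_sub_cancel_left] at h1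
    exact (abs_Om_le _ _).trans (mul_le_mul_of_nonneg_left h1 (by positivity))
  have hmv := mvt_abs_on zero_le_one hder hbd
  have e1 : x + (1 : ℝ) • w = y := by rw [hw]; module
  have e0 : x + (0 : ℝ) • w = x := by module
  rw [e1, e0, sub_zero, mul_one] at hmv
  have mx : x ∈ ball x δ1 := mem_ball_self hδ1
  have my : y ∈ ball y δ2 := mem_ball_self hδ2
  have mx' : x + α • u ∈ ball x δ1 := by
    rw [mem_ball, dist_eq_norm, add_sub_cancel_left]; exact nα2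
  have my' : y + α • u ∈ ball y δ2 := by
    rw [mem_ball, dist_eq_norm, add_sub_cancel_left]; exact nα3
  have h1 := G.d_est sub1 un1 mx mx'
  have h2 := G.d_est sub2 un2 my my'
  rw [add_sub_cancel_left, (G.rad x (hsub hx)).1.smul, abs_of_pos hα0] at h1
  rw [add_sub_cancel_left, (G.rad y (hsub hy)).1.smul, abs_of_pos hα0] at h2
  have nau : ‖α • u‖ = α * ‖u‖ := by rw [norm_smul, Real.norm_eq_abs, abs_of_pos hα0]
  rw [nau] at h1 h2 hmv
  have key : |α * F y u - α * F x u| ≤ 2 * ‖w‖ * (K3 * (α * ‖u‖)) + 2 * (ε * (α * ‖u‖)) := by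
    rw [abs_le] at hmv h1 h2 ⊢
    constructor <;> linarith [hmv.1, hmv.2, h1.1, h1.2, h2.1, h2.2]
  rw [← mul_sub, abs_mul, abs_of_pos hα0] at key
  have key2 : α * |F y u - F x u| ≤ α * (2 * K3 * ‖w‖ * ‖u‖ + 2 * ε * ‖u‖) := by
    refine key.trans (le_of_eq ?_)
    ring
  have key3 := le_of_mul_le_mul_left key2 hα0
  refine key3.trans (le_of_eq ?_)
  rw [hε]; field_simp

lemma est (G : Geo x0 R m Λ F d) : ∃ K, Est x0 (R / 8) K F := by
  have hR := G.hR
  have hΛ := G.hΛ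
  have hm := G.hm
  set K3 := (4 * Λ ^ 2 / R + π * 32 * Λ ^ 4 / (R * m ^ 3) * Λ) / m with hK3
  have hK3pos : 0 < K3 := by positivity
  refine ⟨2 * K3, by positivity, fun x hx y hy hxy => ?_, fun x hx y hy u => G.F_lip hx hy u⟩
  have := G.rr_lip (ball_subset_ball (by linarith) hx) (ball_subset_ball (by linarith) hy) hxy
  refine this.trans ?_
  nlinarith [norm_nonneg (y - x)]

end Geo

end Pool.Agent.Helper831.PM
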