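import Pool.Agent.Helper831.PMAng

namespace Pool.Agent.Helper831.PM

open Real Set Filter Topology Metric

/-- Local data: a continuous family of Radon norms on a ball which generates the metric. -/
structure Geo (x0 : ℝ × ℝ) (R m Λ : ℝ) (F : ℝ × ℝ → ℝ × ℝ → ℝ) (d : ℝ × ℝ → ℝ × ℝ → ℝ) :
    Prop where
  hR : 0 < R
  hm : 0 < m
  hmΛ : m ≤ Λ
  rad : ∀ x ∈ ball x0 R, RadonNorm (F x)
  low : ∀ x ∈ ball x0 R, ∀ u, m * ‖u‖ ≤ F x u
  up : ∀ x ∈ ball x0 R, ∀ u, F x u ≤ Λ * ‖u‖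
  cont : ContinuousOn (fun p : (ℝ × ℝ) × (ℝ × ℝ) => F p.1 p.2) (ball x0 R ×ˢ univ)
  int : ∀ x ∈ ball x0 R, ∀ y ∈ ball x0 R, d x y = ∫ t in (0 : ℝ)..1, F (x + t • (y - x)) (y - x)
  tri : ∀ x ∈ ball x0 R, ∀ y ∈ ball x0 R, ∀ z ∈ ball x0 R, d x z ≤ d x y + d y z
  strict : ∀ x ∈ ball x0 R, ∀ y ∈ ball x0 R, ∀ z ∈ ball x0 R, Om (y - x) (z - y) ≠ 0 →
    d x z < d x y + d y z
  perp : ∀ x ∈ ball x0 R, ∀ u, u ≠ 0 → ∀ s t : ℝ, x + s • rr (F x) u ∈ ball x0 R →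
    x + t • u ∈ ball x0 R → d (x + s • rr (F x) u) x ≤ d (x + s • rr (F x) u) (x + t • u)

/-- one-norm differentiability estimate -/
lemma RadonNorm.diff_est {N : ℝ × ℝ → ℝ} (h : RadonNorm N) {u : ℝ × ℝ} (hu : u ≠ 0) {ε : ℝ}
    (hε : 0 < ε) : ∃ η > 0, ∀ w, ‖w‖ ≤ η → |N (u + w) - N u - dN N u w| ≤ ε * ‖w‖ := by
  have h1 := h.hasFDerivAt hu
  rw [hasFDerivAt_iff_isLittleO_nhds_zero, Asymptotics.isLittleO_iff] at h1
  have h2 := h1 hε
  rw [Metric.eventually_nhds_iff] at h2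
  obtain ⟨r, hr, hr'⟩ := h2
  refine ⟨r / 2, by positivity, fun w hw => ?_⟩
  have := hr' (y := w) (by rw [dist_zero_right]; linarith)
  simpa using this

namespace Geo

variable {x0 : ℝ × ℝ} {R m Λ : ℝ} {F : ℝ × ℝ → ℝ × ℝ → ℝ} {d : ℝ × ℝ → ℝ × ℝ → ℝ}

lemma hΛ (G : Geo x0 R m Λ F d) : 0 < Λ := lt_of_lt_of_le G.hm G.hmΛ

lemma contAt (G : Geo x0 R m Λ F d) {x : ℝ × ℝ} (hx : x ∈ ball x0 R) (v : ℝ × ℝ) :
    ContinuousAt (fun p : (ℝ × ℝ) × (ℝ × ℝ) => F p.1 p.2) (x, v) :=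
  G.cont.continuousAt ((isOpen_ball.prod isOpen_univ).mem_nhds ⟨hx, mem_univ _⟩)

lemma unif (G : Geo x0 R m Λ F d) {x : ℝ × ℝ} (hx : x ∈ ball x0 R) {ε : ℝ} (hε : 0 < ε) :
    ∃ δ > 0, ball x δ ⊆ ball x0 R ∧ ∀ z ∈ ball x δ, ∀ v, |F z v - F x v| ≤ ε * ‖v‖ := by
  have hK : IsCompact (sphere (0 : ℝ × ℝ) 1) := isCompact_sphere _ _
  have h1 : ∀ᶠ z in 𝓝 x, ∀ v ∈ sphere (0 : ℝ × ℝ) 1, |F z v - F x v| < ε := by
    refine hK.eventually_forall_of_forall_eventually fun v _ => ?_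
    have c1 := G.contAt hx v
    have c2 : ContinuousAt (fun p : (ℝ × ℝ) × (ℝ × ℝ) => F x p.2) (x, v) := by
      have : ContinuousAt (fun p : (ℝ × ℝ) × (ℝ × ℝ) => (x, p.2)) (x, v) := by fun_prop
      exact ContinuousAt.comp (f := fun p : (ℝ × ℝ) × (ℝ × ℝ) => (x, p.2)) (x := (x, v)) c1 this
    have c3 : ContinuousAt (fun p : (ℝ × ℝ) × (ℝ × ℝ) => |F p.1 p.2 - F x p.2|) (x, v) :=
      (c1.sub c2).abs
    refine c3.eventually (gt_mem_nhds ?_)
    simpa using hε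
  have h2 : ∀ᶠ z in 𝓝 x, z ∈ ball x0 R := isOpen_ball.mem_nhds hx
  have h3 := h1.and h2
  rw [Metric.eventually_nhds_iff] at h3
  obtain ⟨δ, hδ, hδ'⟩ := h3
  refine ⟨δ, hδ, fun z hz => (hδ' hz).2, fun z hz v => ?_⟩
  by_cases hv : v = 0
  · rw [hv, (G.rad z (hδ' hz).2).1.zero, (G.rad x hx).1.zero]; simp
  · have hn : 0 < ‖v‖ := norm_pos_iff.2 hv
    have h4 := (hδ' hz).1 (‖v‖⁻¹ • v) (by
      rw [mem_sphere_zero_iff_norm, norm_smul, norm_inv, norm_norm, inv_mul_cancel₀ hn.ne'])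
    rw [(G.rad z (hδ' hz).2).1.smul, (G.rad x hx).1.smul, ← mul_sub, abs_mul, abs_abs,
      abs_of_pos (inv_pos.2 hn)] at h4
    calc |F z v - F x v| = ‖v‖ * (‖v‖⁻¹ * |F z v - F x v|) := by field_simp
      _ ≤ ‖v‖ * ε := mul_le_mul_of_nonneg_left h4.le hn.le
      _ = _ := by ring

lemma seg_mem {x0 x y : ℝ × ℝ} {R : ℝ} (hx : x ∈ ball x0 R) (hy : y ∈ ball x0 R) {t : ℝ}
    (h0 : 0 ≤ t) (h1 : t ≤ 1) : x + t • (y - x) ∈ ball x0 R := by
  have := (convex_ball x0 R) hx hy (by linarith : 0 ≤ 1 - t) h0 (by ring)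
  have e : x + t • (y - x) = (1 - t) • x + t • y := by module
  rw [e]; exact this

lemma line_mem {x0 x u : ℝ × ℝ} {R s1 s2 s : ℝ} (h1 : x + s1 • u ∈ ball x0 R)
    (h2 : x + s2 • u ∈ ball x0 R) (hs1 : s1 ≤ s) (hs2 : s ≤ s2) : x + s • u ∈ ball x0 R := by
  rcases eq_or_lt_of_le (hs1.trans hs2) with e | e
  · have : s = s1 := le_antisymm (by linarith) hs1
    rw [this]; exact h1
  have hd : 0 < s2 - s1 := by linarith
  have := seg_mem h1 h2 (t := (s - s1) / (s2 - s1)) (div_nonneg (by linarith) hd.le)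
    (by rw [div_le_one hd]; linarith)
  have e2 : x + s1 • u + ((s - s1) / (s2 - s1)) • (x + s2 • u - (x + s1 • u)) = x + s • u := by
    have : x + s2 • u - (x + s1 • u) = (s2 - s1) • u := by module
    rw [this, smul_smul, div_mul_cancel₀ _ hd.ne']
    module
  rwa [e2] at this

lemma contLine (G : Geo x0 R m Λ F d) (x u v : ℝ × ℝ) {s : ℝ} (hs : x + s • u ∈ ball x0 R) :
    ContinuousAt (fun s : ℝ => F (x + s • u) v) s := by
  have c1 := G.contAt hs v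
  have c2 : ContinuousAt (fun s : ℝ => (x + s • u, v)) s := by fun_prop
  exact ContinuousAt.comp (f := fun s : ℝ => (x + s • u, v)) (x := s) c1 c2

lemma d_line (G : Geo x0 R m Λ F d) {x u : ℝ × ℝ} {s1 s2 : ℝ} (h12 : s1 ≤ s2)
    (h1 : x + s1 • u ∈ ball x0 R) (h2 : x + s2 • u ∈ ball x0 R) :
    d (x + s1 • u) (x + s2 • u) = ∫ s in s1..s2, F (x + s • u) u := by
  rw [G.int _ h1 _ h2]
  have e0 : x + s2 • u - (x + s1 • u) = (s2 - s1) • u := by module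
  rw [e0]
  have e1 : ∫ t in (0 : ℝ)..1, F (x + s1 • u + t • (s2 - s1) • u) ((s2 - s1) • u) =
      ∫ t in (0 : ℝ)..1, (s2 - s1) * F (x + (s1 + (s2 - s1) * t) • u) u := by
    refine intervalIntegral.integral_congr fun t ht => ?_
    rw [uIcc_of_le zero_le_one] at ht
    have hmem : x + s1 • u + t • (s2 - s1) • u ∈ ball x0 R := by
      have := seg_mem h1 h2 ht.1 ht.2
      rwa [e0] at this
    show F (x + s1 • u + t • (s2 - s1) • u) ((s2 - s1) • u) =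
      (s2 - s1) * F (x + (s1 + (s2 - s1) * t) • u) u
    rw [(G.rad _ hmem).1.smul, abs_of_nonneg (by linarith)]
    congr 2
    module
  rw [e1, intervalIntegral.integral_const_mul]
  have := intervalIntegral.smul_integral_comp_add_mul (a := 0) (b := 1)
    (f := fun s => F (x + s • u) u) (s2 - s1) s1
  rw [smul_eq_mul] at this
  rw [this]
  congr 1 <;> ring

lemma intervalIntegrable_line (G : Geo x0 R m Λ F d) {x u : ℝ × ℝ} {s1 s2 : ℝ}
    (h1 : x + s1 • u ∈ ball x0 R) (h2 : x + s2 • u ∈ ball x0 R) (v : ℝ × ℝ) :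
    IntervalIntegrable (fun s => F (x + s • u) v) MeasureTheory.volume s1 s2 := by
  apply ContinuousOn.intervalIntegrable
  intro s hs
  apply ContinuousAt.continuousWithinAt
  apply G.contLine
  rcases le_total s1 s2 with h | h
  · rw [uIcc_of_le h] at hs; exact line_mem h1 h2 hs.1 hs.2
  · rw [uIcc_of_ge h] at hs; exact line_mem h2 h1 hs.1 hs.2

lemma d_add (G : Geo x0 R m Λ F d) {x u : ℝ × ℝ} {s1 s2 s3 : ℝ} (h12 : s1 ≤ s2) (h23 : s2 ≤ s3)
    (h1 : x + s1 • u ∈ ball x0 R) (h3 : x + s3 • u ∈ ball x0 R) :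
    d (x + s1 • u) (x + s3 • u) = d (x + s1 • u) (x + s2 • u) + d (x + s2 • u) (x + s3 • u) := by
  have h2 := line_mem h1 h3 h12 h23
  rw [G.d_line h12 h1 h2, G.d_line h23 h2 h3, G.d_line (h12.trans h23) h1 h3,
    intervalIntegral.integral_add_adjacent_intervals (G.intervalIntegrable_line h1 h2 _)
      (G.intervalIntegrable_line h2 h3 _)]

lemma d_est (G : Geo x0 R m Λ F d) {z : ℝ × ℝ} {ε δ : ℝ} (hsub : ball z δ ⊆ ball x0 R)
    (hu : ∀ y ∈ ball z δ, ∀ v, |F y v - F z v| ≤ ε * ‖v‖) {a b : ℝ × ℝ} (ha : a ∈ ball z δ)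
    (hb : b ∈ ball z δ) : |d a b - F z (b - a)| ≤ ε * ‖b - a‖ := by
  rw [G.int a (hsub ha) b (hsub hb)]
  have e : (∫ t in (0 : ℝ)..1, F (a + t • (b - a)) (b - a)) - F z (b - a) =
      ∫ t in (0 : ℝ)..1, (F (a + t • (b - a)) (b - a) - F z (b - a)) := by
    rw [intervalIntegral.integral_sub]
    · simp
    · have := G.intervalIntegrable_line (x := a) (u := b - a) (s1 := 0) (s2 := 1)
        (by simpa using hsub ha) (by simpa using hsub hb) (b - a)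
      exact this
    · exact _root_.intervalIntegrable_const
  rw [e]
  have := intervalIntegral.norm_integral_le_of_norm_le_const (a := 0) (b := 1)
    (f := fun t : ℝ => F (a + t • (b - a)) (b - a) - F z (b - a)) (C := ε * ‖b - a‖)
    (fun t ht => by
      rw [uIoc_of_le zero_le_one] at ht
      exact hu _ (seg_mem ha hb ht.1.le ht.2) _)
  simpa using this

lemma d_symm (G : Geo x0 R m Λ F d) {x y : ℝ × ℝ} (hx : x ∈ ball x0 R) (hy : y ∈ ball x0 R) :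
    d x y = d y x := by
  rw [G.int x hx y hy, G.int y hy x hx]
  have h1 := intervalIntegral.integral_comp_sub_left (a := 0) (b := 1)
    (fun t : ℝ => F (x + t • (y - x)) (y - x)) 1
  simp only [sub_self, sub_zero] at h1
  rw [← h1]
  refine intervalIntegral.integral_congr fun t ht => ?_
  rw [uIcc_of_le zero_le_one] at ht
  show F (x + (1 - t) • (y - x)) (y - x) = F (y + t • (x - y)) (x - y)
  have e1 : x + (1 - t) • (y - x) = y + t • (x - y) := by module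
  have hm := seg_mem hy hx ht.1 ht.2
  rw [e1, ← neg_sub x y, (G.rad _ hm).1.neg]

lemma d_lo (G : Geo x0 R m Λ F d) {x y : ℝ × ℝ} (hx : x ∈ ball x0 R) (hy : y ∈ ball x0 R) :
    m * ‖y - x‖ ≤ d x y := by
  rw [G.int x hx y hy]
  have : ∫ t in (0 : ℝ)..1, m * ‖y - x‖ = m * ‖y - x‖ := by simp
  rw [← this]
  refine intervalIntegral.integral_mono_on zero_le_one (_root_.intervalIntegrable_const) ?_ ?_
  · exact G.intervalIntegrable_line (x := x) (u := y - x) (s1 := 0) (s2 := 1)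
        (by simpa using hx) (by simpa using hy) (y - x)
  · intro t ht
    exact G.low _ (seg_mem hx hy ht.1 ht.2) _

lemma d_hi (G : Geo x0 R m Λ F d) {x y : ℝ × ℝ} (hx : x ∈ ball x0 R) (hy : y ∈ ball x0 R) :
    d x y ≤ Λ * ‖y - x‖ := by
  rw [G.int x hx y hy]
  have : ∫ t in (0 : ℝ)..1, Λ * ‖y - x‖ = Λ * ‖y - x‖ := by simp
  rw [← this]
  refine intervalIntegral.integral_mono_on zero_le_one ?_ (_root_.intervalIntegrable_const) ?_
  · exact G.intervalIntegrable_line (x := x) (u := y - x) (s1 := 0) (s2 := 1)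
        (by simpa using hx) (by simpa using hy) (y - x)
  · intro t ht
    exact G.up _ (seg_mem hx hy ht.1 ht.2) _

end Geo

end Pool.Agent.Helper831.PM
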