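import Pool.Agent.Helper831.PMLoc

namespace Pool.Agent.Helper831.PM

open Real Set Filter Topology Metric

/-- the line `O + ℝ v` is `d`-perpendicular to... : `O` is a foot on `O + ℝ v` of all points of
`O + ℝ u` -/
def Perp (M : Set (ℝ × ℝ)) (d : ℝ × ℝ → ℝ × ℝ → ℝ) (O u v : ℝ × ℝ) : Prop :=
  ∀ s t : ℝ, O + s • u ∈ M → O + t • v ∈ M → d (O + s • u) O ≤ d (O + s • u) (O + t • v)

/-- The hypotheses used in the core of the argument. -/
structure Core (M : Set (ℝ × ℝ)) (F d : ℝ × ℝ → ℝ × ℝ → ℝ) : Prop where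
  op : IsOpen M
  cv : Convex ℝ M
  Fs : ∀ x ∈ M, StrictNorm (F x)
  Fc : ContinuousOn (fun p : (ℝ × ℝ) × (ℝ × ℝ) => F p.1 p.2) (M ×ˢ univ)
  dc : ContinuousOn (fun p : (ℝ × ℝ) × (ℝ × ℝ) => d p.1 p.2) (M ×ˢ M)
  nn : ∀ x ∈ M, ∀ y ∈ M, 0 ≤ d x y
  tri : ∀ x ∈ M, ∀ y ∈ M, ∀ z ∈ M, d x z ≤ d x y + d y z
  loc : ∀ x ∈ M, ∃ r > 0, ball x r ⊆ M ∧
    (∀ y ∈ ball x r, ∀ z ∈ ball x r, d y z = ∫ t in (0 : ℝ)..1, F (y + t • (z - y)) (z - y)) ∧
    ∀ p ∈ ball x r, ∀ y ∈ ball x r, ∀ z ∈ ball x r, Om (y - p) (z - y) ≠ 0 → d p z < d p y + d y z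
  sd : ∀ X ∈ M, ∀ O ∈ M, X ≠ O →
    ∃ v : ℝ × ℝ, v ≠ 0 ∧ ∀ t : ℝ, O + t • v ∈ M → d X O ≤ d X (O + t • v)
  ap : ∀ X ∈ M, ∀ O ∈ M, X ≠ O → ∀ δ > 0, ∃ t : ℝ, t ≠ 0 ∧ |t| < δ ∧ O + t • (X - O) ∈ M ∧
    d X O = d X (O + t • (X - O)) + d (O + t • (X - O)) O
  sym : ∀ O ∈ M, ∀ u v : ℝ × ℝ, u ≠ 0 → v ≠ 0 → Perp M d O u v → Perp M d O v u

namespace Core

variable {M : Set (ℝ × ℝ)} {F d : ℝ × ℝ → ℝ × ℝ → ℝ}

lemma contAt (C : Core M F d) {x : ℝ × ℝ} (hx : x ∈ M) (v : ℝ × ℝ) :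
    ContinuousAt (fun p : (ℝ × ℝ) × (ℝ × ℝ) => F p.1 p.2) (x, v) :=
  C.Fc.continuousAt ((C.op.prod isOpen_univ).mem_nhds ⟨hx, mem_univ _⟩)

lemma unif (C : Core M F d) {x : ℝ × ℝ} (hx : x ∈ M) {ε : ℝ} (hε : 0 < ε) :
    ∃ δ > 0, ball x δ ⊆ M ∧ ∀ z ∈ ball x δ, ∀ v, |F z v - F x v| ≤ ε * ‖v‖ := by
  have hK : IsCompact (sphere (0 : ℝ × ℝ) 1) := isCompact_sphere _ _
  have h1 : ∀ᶠ z in 𝓝 x, ∀ v ∈ sphere (0 : ℝ × ℝ) 1, |F z v - F x v| < ε := by
    refine hK.eventually_forall_of_forall_eventually fun v _ => ?_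
    have c1 := C.contAt hx v
    have c2 : ContinuousAt (fun p : (ℝ × ℝ) × (ℝ × ℝ) => F x p.2) (x, v) := by
      have : ContinuousAt (fun p : (ℝ × ℝ) × (ℝ × ℝ) => (x, p.2)) (x, v) := by fun_prop
      exact ContinuousAt.comp (f := fun p : (ℝ × ℝ) × (ℝ × ℝ) => (x, p.2)) (x := (x, v)) c1 this
    have c3 : ContinuousAt (fun p : (ℝ × ℝ) × (ℝ × ℝ) => |F p.1 p.2 - F x p.2|) (x, v) :=
      (c1.sub c2).abs
    refine c3.eventually (gt_mem_nhds ?_)
    simpa using hε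
  have h2 : ∀ᶠ z in 𝓝 x, z ∈ M := C.op.mem_nhds hx
  have h3 := h1.and h2
  rw [Metric.eventually_nhds_iff] at h3
  obtain ⟨δ, hδ, hδ'⟩ := h3
  refine ⟨δ, hδ, fun z hz => (hδ' hz).2, fun z hz v => ?_⟩
  by_cases hv : v = 0
  · rw [hv, (C.Fs z (hδ' hz).2).zero, (C.Fs x hx).zero]; simp
  · have hn : 0 < ‖v‖ := norm_pos_iff.2 hv
    have h4 := (hδ' hz).1 (‖v‖⁻¹ • v) (by
      rw [mem_sphere_zero_iff_norm, norm_smul, norm_inv, norm_norm, inv_mul_cancel₀ hn.ne'])
    rw [(C.Fs z (hδ' hz).2).smul, (C.Fs x hx).smul, ← mul_sub, abs_mul, abs_abs,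
      abs_of_pos (inv_pos.2 hn)] at h4
    calc |F z v - F x v| = ‖v‖ * (‖v‖⁻¹ * |F z v - F x v|) := by field_simp
      _ ≤ ‖v‖ * ε := mul_le_mul_of_nonneg_left h4.le hn.le
      _ = _ := by ring

/-- first order behaviour of the distance -/
lemma near (C : Core M F d) {x : ℝ × ℝ} (hx : x ∈ M) {ε : ℝ} (hε : 0 < ε) :
    ∃ δ > 0, ball x δ ⊆ M ∧ ∀ a ∈ ball x δ, ∀ b ∈ ball x δ,
      |d a b - F x (b - a)| ≤ ε * ‖b - a‖ := by
  obtain ⟨δ1, hδ1, sub1, un⟩ := C.unif hx hε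
  obtain ⟨r, hr, subr, hint, _⟩ := C.loc x hx
  refine ⟨min δ1 r, lt_min hδ1 hr, (ball_subset_ball (min_le_left _ _)).trans sub1,
    fun a ha b hb => ?_⟩
  have ha1 := ball_subset_ball (min_le_left δ1 r) ha
  have hb1 := ball_subset_ball (min_le_left δ1 r) hb
  have ha2 := ball_subset_ball (min_le_right δ1 r) ha
  have hb2 := ball_subset_ball (min_le_right δ1 r) hb
  rw [hint a ha2 b hb2]
  have hcont : ContinuousOn (fun t : ℝ => F (a + t • (b - a)) (b - a)) (uIcc 0 1) := by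
    intro t ht
    rw [uIcc_of_le zero_le_one] at ht
    have hm := sub1 (Geo.seg_mem ha1 hb1 ht.1 ht.2)
    have c2 : ContinuousAt (fun t : ℝ => (a + t • (b - a), b - a)) t := by fun_prop
    exact (ContinuousAt.comp (f := fun t : ℝ => (a + t • (b - a), b - a)) (x := t)
      (C.contAt hm (b - a)) c2).continuousWithinAt
  have e : (∫ t in (0 : ℝ)..1, F (a + t • (b - a)) (b - a)) - F x (b - a) =
      ∫ t in (0 : ℝ)..1, (F (a + t • (b - a)) (b - a) - F x (b - a)) := by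
    rw [intervalIntegral.integral_sub hcont.intervalIntegrable (_root_.intervalIntegrable_const)]
    simp
  rw [e]
  have := intervalIntegral.norm_integral_le_of_norm_le_const (a := 0) (b := 1)
    (f := fun t : ℝ => F (a + t • (b - a)) (b - a) - F x (b - a)) (C := ε * ‖b - a‖)
    (fun t ht => by
      rw [uIoc_of_le zero_le_one] at ht
      exact un _ (Geo.seg_mem ha1 hb1 ht.1.le ht.2) _)
  simpa using this

/-- a foot gives a Birkhoff orthogonal pair in the tangent plane -/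
lemma foot_bk (C : Core M F d) {X O v : ℝ × ℝ} (hX : X ∈ M) (hO : O ∈ M) (hne : X ≠ O)
    (hf : ∀ t : ℝ, O + t • v ∈ M → d X O ≤ d X (O + t • v)) : Bk (F O) (X - O) v := by
  intro s
  by_contra hcon
  push Not at hcon
  obtain ⟨u, hu⟩ : ∃ u, u = X - O := ⟨_, rfl⟩
  rw [← hu] at hcon
  have hN := C.Fs O hO
  set g := F O u - F O (u + s • v) with hg
  have hg0 : 0 < g := by rw [hg]; linarith
  set ε := g / (2 * (‖u‖ + ‖u + s • v‖ + 1)) with hε
  have hε0 : 0 < ε := by positivity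
  obtain ⟨δ, hδ, sub, est⟩ := C.near hO hε0
  obtain ⟨t, ht0, htδ, htM, heq⟩ := C.ap X hX O hO hne (δ / (‖u‖ + ‖s • v‖ + 1)) (by positivity)
  rw [← hu] at htM heq
  have ht1 : |t| * (‖u‖ + ‖s • v‖ + 1) < δ := by
    rwa [lt_div_iff₀ (by positivity)] at htδ
  have b1 : O + t • u ∈ ball O δ := by
    rw [mem_ball, dist_eq_norm, add_sub_cancel_left, norm_smul, Real.norm_eq_abs]
    nlinarith [abs_nonneg t, norm_nonneg (s • v)]
  have b2 : O + (-(t * s)) • v ∈ ball O δ := by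
    rw [mem_ball, dist_eq_norm, add_sub_cancel_left]
    have : (-(t * s)) • v = (-t) • (s • v) := by module
    rw [this, norm_smul, Real.norm_eq_abs, abs_neg]
    nlinarith [abs_nonneg t, norm_nonneg u]
  have b0 : O ∈ ball O δ := mem_ball_self hδ
  have h1 := hf (-(t * s)) (sub b2)
  have h2 := C.tri X hX _ htM _ (sub b2)
  have h3 : d (O + t • u) O ≤ d (O + t • u) (O + (-(t * s)) • v) := by linarith
  have e1 := est _ b1 _ b0
  have e2 := est _ b1 _ b2
  have r1 : O - (O + t • u) = (-t) • u := by module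
  have r2 : O + (-(t * s)) • v - (O + t • u) = (-t) • (u + s • v) := by module
  rw [r1, hN.smul, norm_smul, Real.norm_eq_abs, abs_neg] at e1
  rw [r2, hN.smul, norm_smul, Real.norm_eq_abs, abs_neg] at e2
  have tp : 0 < |t| := abs_pos.2 ht0
  have h4 : |t| * g ≤ |t| * (ε * (‖u‖ + ‖u + s • v‖)) := by
    rw [hg]
    linarith [(abs_le.1 e1).1, (abs_le.1 e2).2]
  have h5 := le_of_mul_le_mul_left h4 tp
  have h6 : ε * (‖u‖ + ‖u + s • v‖ + 1) = g / 2 := by rw [hε]; field_simp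
  nlinarith

lemma bk_slope {N : ℝ × ℝ → ℝ} (hN : StrictNorm N) {u w : ℝ × ℝ} {s : ℝ}
    (hb : Bk N u (w - s • u)) (t : ℝ) : s * t * N u ≤ N (u + t • w) - N u := by
  rcases le_or_gt (1 + t * s) 0 with h | h
  · have h1 := hN.nonneg (u + t • w)
    have h2 := hN.nonneg u
    nlinarith
  · have h1 := hb (t / (1 + t * s))
    have e : u + t • w = (1 + t * s) • (u + (t / (1 + t * s)) • (w - s • u)) := by
      rw [smul_add, smul_smul, mul_div_cancel₀ _ h.ne']
      module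
    rw [e, hN.smul, abs_of_pos h]
    nlinarith

lemma bk_normal {N : ℝ × ℝ → ℝ} (hN : StrictNorm N) {u w v : ℝ × ℝ} (hu : u ≠ 0)
    (huw : Om u w ≠ 0) (hv : v ≠ 0) (hb : Bk N u v) :
    ∃ k s : ℝ, k ≠ 0 ∧ v = k • (w - s • u) := by
  have hOm := Bk_Om_ne hN hu hv hb
  have hdec := Om_decomp (u := u) (v := w) huw v
  have hk : Om u v / Om u w ≠ 0 := div_ne_zero hOm huw
  refine ⟨Om u v / Om u w, -(Om v w / Om u w) / (Om u v / Om u w), hk, ?_⟩
  rw [smul_sub, smul_smul, mul_div_cancel₀ _ hk]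
  conv_lhs => rw [hdec]
  module

lemma exists_support (C : Core M F d) {O u w : ℝ × ℝ} (hO : O ∈ M) (hu : u ≠ 0)
    (huw : Om u w ≠ 0) {τ : ℝ} (hτ : τ ≠ 0) (hX : O + τ • u ∈ M) :
    ∃ s : ℝ, (∀ t : ℝ, O + t • (w - s • u) ∈ M →
      d (O + τ • u) O ≤ d (O + τ • u) (O + t • (w - s • u))) ∧
      ∀ t : ℝ, s * t * F O u ≤ F O (u + t • w) - F O u := by
  have hne : O + τ • u ≠ O := by
    intro h
    have : τ • u = 0 := by simpa using h
    exact smul_ne_zero hτ hu this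
  obtain ⟨v, hv, hf⟩ := C.sd _ hX O hO hne
  have hN := C.Fs O hO
  have hb := C.foot_bk hX hO hne hf
  have e0 : O + τ • u - O = τ • u := by abel
  rw [e0] at hb
  have hb' : Bk (F O) u v := by
    intro t
    have h1 := hb (τ * t)
    have e : τ • u + (τ * t) • v = τ • (u + t • v) := by module
    rw [e, hN.smul, hN.smul] at h1
    exact le_of_mul_le_mul_left h1 (abs_pos.2 hτ)
  obtain ⟨k, s, hOm, hvk⟩ := bk_normal hN hu huw hv hb'
  refine ⟨s, ?_, ?_⟩
  · intro t ht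
    have e : O + t • (w - s • u) = O + (t / k) • v := by
      conv_rhs => rw [hvk]
      rw [smul_smul, div_mul_cancel₀ _ hOm]
    rw [e] at ht ⊢
    exact hf _ ht
  · refine bk_slope hN ?_
    intro t
    have h1 := hb' (t / k)
    have e : (t / k) • v = t • (w - s • u) := by
      conv_lhs => rw [hvk]
      rw [smul_smul, div_mul_cancel₀ _ hOm]
    rwa [e] at h1

/-- right slope of the norm -/
noncomputable def rho (N : ℝ × ℝ → ℝ) (u w : ℝ × ℝ) : ℝ :=
  sInf ((fun t : ℝ => (N (u + t • w) - N u) / t) '' Ioi 0)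

lemma rho_bdd {N : ℝ × ℝ → ℝ} (hN : StrictNorm N) (u w : ℝ × ℝ) :
    BddBelow ((fun t : ℝ => (N (u + t • w) - N u) / t) '' Ioi 0) := by
  refine ⟨-N w, ?_⟩
  rintro _ ⟨t, ht, rfl⟩
  have ht' : 0 < t := ht
  show -N w ≤ (N (u + t • w) - N u) / t
  rw [le_div_iff₀ ht']
  have h1 := hN.tri (u + t • w) ((-t) • w)
  have e : u + t • w + (-t) • w = u := by module
  rw [e, hN.smul, abs_neg, abs_of_pos ht'] at h1
  linarith

lemma rho_le {N : ℝ × ℝ → ℝ} (hN : StrictNorm N) (u w : ℝ × ℝ) {t : ℝ} (ht : 0 < t) :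
    rho N u w ≤ (N (u + t • w) - N u) / t :=
  csInf_le (rho_bdd hN u w) ⟨t, ht, rfl⟩

lemma le_rho {N : ℝ × ℝ → ℝ} {u w : ℝ × ℝ} {a : ℝ}
    (h : ∀ t : ℝ, 0 < t → a ≤ (N (u + t • w) - N u) / t) : a ≤ rho N u w := by
  refine le_csInf ⟨(N (u + (1 : ℝ) • w) - N u) / 1, 1, by simp, rfl⟩ ?_
  rintro _ ⟨t, ht, rfl⟩
  exact h t ht

lemma exists_rho_lt {N : ℝ × ℝ → ℝ} {u w : ℝ × ℝ} {a : ℝ} (h : rho N u w < a) :
    ∃ t : ℝ, 0 < t ∧ (N (u + t • w) - N u) / t < a := by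
  have hne : ((fun t : ℝ => (N (u + t • w) - N u) / t) '' Ioi 0).Nonempty :=
    ⟨_, 1, by simp, rfl⟩
  obtain ⟨_, ⟨t, ht, rfl⟩, hlt⟩ := exists_lt_of_csInf_lt hne h
  exact ⟨t, ht, hlt⟩

/-- extreme supporting directions are `d`-perpendicular -/
lemma perp_ext (C : Core M F d) {O u w : ℝ × ℝ} (hO : O ∈ M) (hu : u ≠ 0) (huw : Om u w ≠ 0) :
    Perp M d O u (w - (rho (F O) u w / F O u) • u) := by
  have hN := C.Fs O hO
  set N := F O with hNd
  set s0 := rho N u w / N u with hs0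
  have hNu := hN.pos hu
  intro τ t hX hP
  rcases eq_or_ne τ 0 with h0 | h0
  · rw [h0, zero_smul, add_zero]
    obtain ⟨r, hr, _, hint, _⟩ := C.loc O hO
    have h1 := hint O (mem_ball_self hr) O (mem_ball_self hr)
    have h2 : d O O = 0 := by
      rw [h1]
      simp [hN.zero, ← hNd]
    rw [h2]
    exact C.nn _ hO _ hP
  -- the perturbed directions
  set uk : ℝ → ℝ × ℝ := fun ε => u + ε • w with huk
  have hOmk : ∀ ε, Om (uk ε) w ≠ 0 := by
    intro ε; simp only [huk]; rw [Om_add_left, Om_smul_left, Om_self]; simpa using huw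
  have huk0 : ∀ ε, uk ε ≠ 0 := by
    intro ε h
    have := hOmk ε
    rw [h, Om_zero_left] at this
    exact this rfl
  have hkM : ∀ᶠ ε in 𝓝[>] (0 : ℝ), O + τ • uk ε ∈ M := by
    have c : ContinuousAt (fun ε : ℝ => O + τ • uk ε) 0 := by simp only [huk]; fun_prop
    have := c.eventually (C.op.mem_nhds (by simpa [huk] using hX))
    exact this.filter_mono nhdsWithin_le_nhds
  have hex : ∀ ε : ℝ, ∃ s : ℝ, O + τ • uk ε ∈ M → ((∀ t : ℝ, O + t • (w - s • uk ε) ∈ M →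
      d (O + τ • uk ε) O ≤ d (O + τ • uk ε) (O + t • (w - s • uk ε))) ∧
      ∀ t : ℝ, s * t * N (uk ε) ≤ N (uk ε + t • w) - N (uk ε)) := by
    intro ε
    by_cases h : O + τ • uk ε ∈ M
    · obtain ⟨s, hs⟩ := C.exists_support hO (huk0 ε) (hOmk ε) h0 h
      exact ⟨s, fun _ => hs⟩
    · exact ⟨0, fun h' => absurd h' h⟩
  choose S hS using hex
  have hNc := hN.continuous
  have hlim : Tendsto S (𝓝[>] 0) (𝓝 s0) := by
    rw [tendsto_order]
    constructor
    · intro a ha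
      -- lower bound: S ε ≥ rho / N (uk ε)
      have c : Tendsto (fun ε : ℝ => rho N u w / N (uk ε)) (𝓝[>] 0) (𝓝 s0) := by
        have c1 : ContinuousAt (fun ε : ℝ => rho N u w / N (uk ε)) 0 := by
          refine ContinuousAt.div continuousAt_const ?_ (by simpa [huk] using hNu.ne')
          refine hNc.continuousAt.comp ?_
          simp only [huk]; fun_prop
        have := c1.tendsto
        simp only [huk, zero_smul, add_zero] at this
        exact this.mono_left nhdsWithin_le_nhds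
      filter_upwards [c.eventually (lt_mem_nhds ha), hkM, self_mem_nhdsWithin] with ε h1 h2 h3
      have hε : 0 < ε := h3
      refine lt_of_lt_of_le h1 ?_
      have h4 := (hS ε h2).2 (-ε)
      have e : uk ε + (-ε) • w = u := by simp only [huk]; module
      rw [e] at h4
      have h5 := rho_le hN u w hε
      have hk := hN.pos (huk0 ε)
      rw [div_le_iff₀ hk]
      rw [le_div_iff₀ hε] at h5
      have h6 : rho N u w * ε ≤ S ε * N (uk ε) * ε := by
        have : N (u + ε • w) = N (uk ε) := rfl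
        rw [this] at h5
        linarith
      exact le_of_mul_le_mul_right h6 hε
    · intro a ha
      -- upper bound
      have h1 : rho N u w < a * N u := by
        have ha' : s0 < a := ha
        rwa [hs0, div_lt_iff₀ hNu] at ha'
      obtain ⟨t1, ht1, hlt⟩ := exists_rho_lt h1
      have c1 : ContinuousAt (fun ε : ℝ => (N (uk ε + t1 • w) - N (uk ε)) / t1 - a * N (uk ε)) 0 := by
        have cu : ContinuousAt uk 0 := by simp only [huk]; fun_prop
        have c2 : ContinuousAt (fun ε : ℝ => N (uk ε)) 0 := hNc.continuousAt.comp cu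
        have c3 : ContinuousAt (fun ε : ℝ => N (uk ε + t1 • w)) 0 :=
          hNc.continuousAt.comp (cu.add continuousAt_const)
        exact ((c3.sub c2).div_const t1).sub (continuousAt_const.mul c2)
      have ev : ∀ᶠ ε in 𝓝 (0 : ℝ), (N (uk ε + t1 • w) - N (uk ε)) / t1 - a * N (uk ε) < 0 :=
        c1.eventually (gt_mem_nhds (by
          simp only [huk, zero_smul, add_zero]; linarith [hlt]))
      filter_upwards [ev.filter_mono nhdsWithin_le_nhds, hkM] with ε h2 h3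
      have h4 := (hS ε h3).2 t1
      have hk := hN.pos (huk0 ε)
      have h5 : S ε * N (uk ε) ≤ (N (uk ε + t1 • w) - N (uk ε)) / t1 := by
        rw [le_div_iff₀ ht1]; linarith
      have h6 : S ε * N (uk ε) < a * N (uk ε) := by linarith
      exact lt_of_mul_lt_mul_right h6 hk.le
  -- pass to the limit
  have hPk : Tendsto (fun ε => O + t • (w - S ε • uk ε)) (𝓝[>] 0)
      (𝓝 (O + t • (w - s0 • u))) := by
    have c1 : Tendsto uk (𝓝[>] 0) (𝓝 u) := by
      have : ContinuousAt uk 0 := by simp only [huk]; fun_prop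
      have h2 := this.tendsto
      simp only [huk, zero_smul, add_zero] at h2
      exact h2.mono_left nhdsWithin_le_nhds
    exact ((tendsto_const_nhds.sub (hlim.smul c1)).const_smul t).const_add O
  have hXk : Tendsto (fun ε => O + τ • uk ε) (𝓝[>] 0) (𝓝 (O + τ • u)) := by
    have : ContinuousAt (fun ε : ℝ => O + τ • uk ε) 0 := by simp only [huk]; fun_prop
    have h2 := this.tendsto
    simp only [huk, zero_smul, add_zero] at h2
    exact h2.mono_left nhdsWithin_le_nhds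
  have dcont : ∀ a ∈ M, ∀ b ∈ M, ContinuousAt (fun p : (ℝ × ℝ) × (ℝ × ℝ) => d p.1 p.2) (a, b) :=
    fun a ha b hb => C.dc.continuousAt ((C.op.prod C.op).mem_nhds ⟨ha, hb⟩)
  have L1 : Tendsto (fun ε => d (O + τ • uk ε) O) (𝓝[>] 0) (𝓝 (d (O + τ • u) O)) := by
    have h1 := (dcont _ hX _ hO).tendsto
    exact h1.comp (hXk.prodMk_nhds tendsto_const_nhds)
  have L2 : Tendsto (fun ε => d (O + τ • uk ε) (O + t • (w - S ε • uk ε))) (𝓝[>] 0)
      (𝓝 (d (O + τ • u) (O + t • (w - s0 • u)))) := by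
    have h1 := (dcont _ hX _ hP).tendsto
    exact h1.comp (hXk.prodMk_nhds hPk)
  refine le_of_tendsto_of_tendsto L1 L2 ?_
  filter_upwards [hkM, hPk.eventually (C.op.mem_nhds hP)] with ε h1 h2
  exact (hS ε h1).1 t h2

lemma perp_bk (C : Core M F d) {O u v : ℝ × ℝ} (hO : O ∈ M) (hu : u ≠ 0)
    (hp : Perp M d O u v) : Bk (F O) u v := by
  have c : ContinuousAt (fun s : ℝ => O + s • u) 0 := by fun_prop
  have ev := c.eventually (C.op.mem_nhds (by simpa using hO))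
  rw [Metric.eventually_nhds_iff] at ev
  obtain ⟨ε, hε, hε'⟩ := ev
  have hs : 0 < ε / 2 := by positivity
  have hX : O + (ε / 2) • u ∈ M := hε' (by
    rw [Real.dist_eq, sub_zero, abs_of_pos hs]; linarith)
  have hne : O + (ε / 2) • u ≠ O := by
    intro h
    have : (ε / 2) • u = 0 := by simpa using h
    exact smul_ne_zero hs.ne' hu this
  have hb := C.foot_bk hX hO hne (fun t ht => hp _ t hX ht)
  have hN := C.Fs O hO
  have e0 : O + (ε / 2) • u - O = (ε / 2) • u := by abel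
  rw [e0] at hb
  intro t
  have h1 := hb ((ε / 2) * t)
  have e : (ε / 2) • u + ((ε / 2) * t) • v = (ε / 2) • (u + t • v) := by module
  rw [e, hN.smul, hN.smul] at h1
  exact le_of_mul_le_mul_left h1 (abs_pos.2 hs.ne')

/-- structure of supporting directions -/
lemma unique_support (C : Core M F d) {O u : ℝ × ℝ} (hO : O ∈ M) (hu : u ≠ 0) :
    ∃ v0 : ℝ × ℝ, v0 ≠ 0 ∧ Perp M d O u v0 ∧ Bk (F O) v0 u ∧
      ∀ v, v ≠ 0 → Bk (F O) u v → ∃ k : ℝ, k ≠ 0 ∧ v = k • v0 := by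
  have hN := C.Fs O hO
  set N := F O with hNd
  have hNu := hN.pos hu
  obtain ⟨w, hw⟩ := exists_Om_one hu
  obtain ⟨α, hα⟩ : ∃ α, α = rho N u w / N u := ⟨_, rfl⟩
  obtain ⟨α', hα'⟩ : ∃ α, α = rho N u (-w) / N u := ⟨_, rfl⟩
  obtain ⟨v0, hv0⟩ : ∃ v, v = w - α • u := ⟨_, rfl⟩
  obtain ⟨v1, hv1⟩ : ∃ v, v = -w - α' • u := ⟨_, rfl⟩
  have P0 : Perp M d O u v0 := by
    rw [hv0, hα]; exact C.perp_ext hO hu (by rw [hw]; norm_num)
  have P1 : Perp M d O u v1 := by
    rw [hv1, hα']; exact C.perp_ext hO hu (by rw [Om_neg_right, hw]; norm_num)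
  have hv00 : v0 ≠ 0 := by
    intro h
    have : Om u v0 = 1 := by rw [hv0, Om_sub_right, Om_smul_right, Om_self, hw]; ring
    rw [h, Om_zero_right] at this
    norm_num at this
  have hv10 : v1 ≠ 0 := by
    intro h
    have : Om u v1 = -1 := by
      rw [hv1, Om_sub_right, Om_smul_right, Om_self, Om_neg_right, hw]; ring
    rw [h, Om_zero_right] at this
    norm_num at this
  have B0 : Bk N v0 u := C.perp_bk hO hv00 (C.sym O hO u v0 hu hv00 P0)
  have B1 : Bk N v1 u := C.perp_bk hO hv10 (C.sym O hO u v1 hu hv10 P1)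
  have hO0 := Bk_unique_left hN hu hv00 hv10 B0 B1
  have hsum : α + α' = 0 := by
    have e : Om v0 v1 = (α + α') * Om u w := by
      rw [hv0, hv1]
      simp only [Om_sub_left, Om_sub_right, Om_smul_left, Om_smul_right, Om_self, Om_neg_right]
      rw [Om_swap w u]; ring
    rw [e, hw, mul_one] at hO0
    exact hO0
  refine ⟨v0, hv00, P0, B0, fun v hv hb => ?_⟩
  obtain ⟨k, s, hk, hvk⟩ := bk_normal hN hu (w := w) (by rw [hw]; norm_num) hv hb
  have hb' : Bk N u (w - s • u) := by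
    intro t
    have h1 := hb (t / k)
    have e : (t / k) • v = t • (w - s • u) := by
      conv_lhs => rw [hvk]
      rw [smul_smul, div_mul_cancel₀ _ hk]
    rwa [e] at h1
  have sl := bk_slope hN hb'
  have s1 : s ≤ α := by
    rw [hα, le_div_iff₀ hNu]
    refine le_rho fun t ht => ?_
    rw [le_div_iff₀ ht]
    have := sl t
    linarith
  have s2 : -s ≤ α' := by
    rw [hα', le_div_iff₀ hNu]
    refine le_rho fun t ht => ?_
    rw [le_div_iff₀ ht]
    have := sl (-t)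
    have e : u + t • (-w) = u + (-t) • w := by module
    rw [e]
    linarith
  have hsα : s = α := by linarith
  exact ⟨k, hk, by rw [hv0, ← hsα]; exact hvk⟩

lemma radon (C : Core M F d) {O : ℝ × ℝ} (hO : O ∈ M) : RadonNorm (F O) := by
  have hN := C.Fs O hO
  refine ⟨hN, fun u v hb => ?_⟩
  by_cases hu : u = 0
  · intro t; rw [hu, smul_zero, add_zero]
  by_cases hv : v = 0
  · intro t; rw [hv, zero_add, hN.zero]; exact hN.nonneg _
  obtain ⟨v0, _, _, hB, huniq⟩ := C.unique_support hO hu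
  obtain ⟨k, hk, rfl⟩ := huniq v hv hb
  exact Bk_smul_left hN hk hB

lemma perp_of_bk (C : Core M F d) {O u v : ℝ × ℝ} (hO : O ∈ M) (hu : u ≠ 0) (hv : v ≠ 0)
    (hb : Bk (F O) u v) : Perp M d O u v := by
  obtain ⟨v0, _, hP, _, huniq⟩ := C.unique_support hO hu
  obtain ⟨k, hk, rfl⟩ := huniq v hv hb
  intro s t h1 h2
  rw [smul_smul] at h2 ⊢
  exact hP s (t * k) h1 h2

end Core

end Pool.Agent.Helper831.PM
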