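import Mathlib

namespace Pool.Agent.Helper831.PM

open Real Set Filter Topology

/-- The standard area form of the plane. -/
def Om (u v : ℝ × ℝ) : ℝ := u.1 * v.2 - u.2 * v.1

/-- A norm on the plane with strictly convex unit ball. -/
def StrictNorm (N : ℝ × ℝ → ℝ) : Prop :=
  (∀ u, u ≠ 0 → 0 < N u) ∧ (∀ (c : ℝ) (u : ℝ × ℝ), N (c • u) = |c| * N u) ∧
    ∀ u v, Om u v ≠ 0 → N (u + v) < N u + N v

/-- Birkhoff orthogonality. -/
def Bk (N : ℝ × ℝ → ℝ) (u v : ℝ × ℝ) : Prop := ∀ t : ℝ, N u ≤ N (u + t • v)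

/-- Symmetry of Birkhoff orthogonality. -/
def SymB (N : ℝ × ℝ → ℝ) : Prop := ∀ u v, Bk N u v → Bk N v u

lemma Om_self (u : ℝ × ℝ) : Om u u = 0 := by unfold Om; ring
lemma Om_swap (u v : ℝ × ℝ) : Om u v = - Om v u := by unfold Om; ring
lemma Om_add_left (u v w : ℝ × ℝ) : Om (u + v) w = Om u w + Om v w := by
  simp only [Om, Prod.fst_add, Prod.snd_add]; ring
lemma Om_add_right (u v w : ℝ × ℝ) : Om w (u + v) = Om w u + Om w v := by
  simp only [Om, Prod.fst_add, Prod.snd_add]; ring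
lemma Om_sub_left (u v w : ℝ × ℝ) : Om (u - v) w = Om u w - Om v w := by
  simp only [Om, Prod.fst_sub, Prod.snd_sub]; ring
lemma Om_sub_right (u v w : ℝ × ℝ) : Om w (u - v) = Om w u - Om w v := by
  simp only [Om, Prod.fst_sub, Prod.snd_sub]; ring
lemma Om_smul_left (c : ℝ) (u w : ℝ × ℝ) : Om (c • u) w = c * Om u w := by
  simp only [Om, Prod.smul_fst, Prod.smul_snd, smul_eq_mul]; ring
lemma Om_smul_right (c : ℝ) (u w : ℝ × ℝ) : Om w (c • u) = c * Om w u := by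
  simp only [Om, Prod.smul_fst, Prod.smul_snd, smul_eq_mul]; ring
lemma Om_neg_left (u w : ℝ × ℝ) : Om (-u) w = - Om u w := by
  simp only [Om, Prod.fst_neg, Prod.snd_neg]; ring
lemma Om_neg_right (u w : ℝ × ℝ) : Om w (-u) = - Om w u := by
  simp only [Om, Prod.fst_neg, Prod.snd_neg]; ring
lemma Om_zero_left (w : ℝ × ℝ) : Om 0 w = 0 := by simp [Om]
lemma Om_zero_right (w : ℝ × ℝ) : Om w 0 = 0 := by simp [Om]

lemma Om_decomp {u v : ℝ × ℝ} (h : Om u v ≠ 0) (z : ℝ × ℝ) :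
    z = (Om z v / Om u v) • u + (Om u z / Om u v) • v := by
  obtain ⟨D, hD⟩ : ∃ D, D = Om u v := ⟨_, rfl⟩
  rw [← hD] at h ⊢
  have hD' : D = u.1 * v.2 - u.2 * v.1 := hD
  ext
  · simp only [Om, Prod.fst_add, Prod.smul_fst, smul_eq_mul]
    field_simp
    rw [hD']; ring
  · simp only [Om, Prod.snd_add, Prod.smul_snd, smul_eq_mul]
    field_simp
    rw [hD']; ring

lemma parallel_of_Om {u v : ℝ × ℝ} (hu : u ≠ 0) (h : Om u v = 0) : ∃ c : ℝ, v = c • u := by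
  have h' : u.1 * v.2 - u.2 * v.1 = 0 := h
  have h1 : u.1 ≠ 0 ∨ u.2 ≠ 0 := by
    by_contra hc
    push Not at hc
    exact hu (Prod.ext hc.1 hc.2)
  rcases h1 with h1 | h1
  · refine ⟨v.1 / u.1, ?_⟩
    ext
    · simp only [Prod.smul_fst, smul_eq_mul]; field_simp
    · simp only [Prod.smul_snd, smul_eq_mul]; field_simp; linarith
  · refine ⟨v.2 / u.2, ?_⟩
    ext
    · simp only [Prod.smul_fst, smul_eq_mul]; field_simp; linarith
    · simp only [Prod.smul_snd, smul_eq_mul]; field_simp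

lemma exists_Om_one {u : ℝ × ℝ} (hu : u ≠ 0) : ∃ w, Om u w = 1 := by
  have h1 : 0 < u.1 ^ 2 + u.2 ^ 2 := by
    by_contra hc
    push Not at hc
    have a : u.1 = 0 := by nlinarith [sq_nonneg u.1, sq_nonneg u.2]
    have b : u.2 = 0 := by nlinarith [sq_nonneg u.1, sq_nonneg u.2]
    exact hu (Prod.ext a b)
  refine ⟨(- u.2 / (u.1 ^ 2 + u.2 ^ 2), u.1 / (u.1 ^ 2 + u.2 ^ 2)), ?_⟩
  simp only [Om]
  field_simp; ring

lemma abs_Om_le (u v : ℝ × ℝ) : |Om u v| ≤ 2 * ‖u‖ * ‖v‖ := by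
  have a1 : |u.1| ≤ ‖u‖ := norm_fst_le u
  have a2 : |u.2| ≤ ‖u‖ := norm_snd_le u
  have b1 : |v.1| ≤ ‖v‖ := norm_fst_le v
  have b2 : |v.2| ≤ ‖v‖ := norm_snd_le v
  unfold Om
  calc |u.1 * v.2 - u.2 * v.1| ≤ |u.1 * v.2| + |u.2 * v.1| := abs_sub _ _
    _ = |u.1| * |v.2| + |u.2| * |v.1| := by rw [abs_mul, abs_mul]
    _ ≤ ‖u‖ * ‖v‖ + ‖u‖ * ‖v‖ := by gcongr
    _ = _ := by ring

lemma continuous_Om : Continuous fun p : (ℝ × ℝ) × (ℝ × ℝ) => Om p.1 p.2 := by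
  unfold Om; fun_prop

namespace StrictNorm

variable {N : ℝ × ℝ → ℝ}

lemma pos (h : StrictNorm N) {u : ℝ × ℝ} (hu : u ≠ 0) : 0 < N u := h.1 u hu
lemma smul (h : StrictNorm N) (c : ℝ) (u : ℝ × ℝ) : N (c • u) = |c| * N u := h.2.1 c u
lemma zero (h : StrictNorm N) : N 0 = 0 := by
  have := h.smul 0 0
  simpa using this
lemma nonneg (h : StrictNorm N) (u : ℝ × ℝ) : 0 ≤ N u := by
  by_cases hu : u = 0
  · rw [hu, h.zero]
  · exact (h.pos hu).le
lemma neg (h : StrictNorm N) (u : ℝ × ℝ) : N (-u) = N u := by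
  have := h.smul (-1) u
  simpa using this

lemma tri (h : StrictNorm N) (u v : ℝ × ℝ) : N (u + v) ≤ N u + N v := by
  by_cases hO : Om u v = 0
  · by_cases hu : u = 0
    · rw [hu, h.zero]; simp
    · obtain ⟨c, rfl⟩ := parallel_of_Om hu hO
      have e : u + c • u = (1 + c) • u := by rw [add_smul, one_smul]
      rw [e, h.smul, h.smul]
      have := abs_add_le 1 c
      rw [abs_one] at this
      nlinarith [h.nonneg u]
  · exact (h.2.2 u v hO).le

lemma sub_le (h : StrictNorm N) (u v : ℝ × ℝ) : |N u - N v| ≤ N (u - v) := by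
  have h1 := h.tri (u - v) v
  have h2 := h.tri (v - u) u
  have h3 := h.neg (u - v)
  rw [neg_sub] at h3
  rw [sub_add_cancel] at h1 h2
  rw [abs_le]; constructor <;> linarith

/-- upper constant -/
def up (N : ℝ × ℝ → ℝ) : ℝ := N (1, 0) + N (0, 1)

lemma up_pos (h : StrictNorm N) : 0 < up N := by
  unfold up
  have h1 : ((1, 0) : ℝ × ℝ) ≠ 0 := by simp
  have h2 : ((0, 1) : ℝ × ℝ) ≠ 0 := by simp
  linarith [h.pos h1, h.pos h2]

lemma le_up (h : StrictNorm N) (u : ℝ × ℝ) : N u ≤ up N * ‖u‖ := by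
  have e : u = u.1 • ((1, 0) : ℝ × ℝ) + u.2 • ((0, 1) : ℝ × ℝ) := by
    ext <;> simp
  have h1 := h.tri (u.1 • ((1, 0) : ℝ × ℝ)) (u.2 • ((0, 1) : ℝ × ℝ))
  rw [← e, h.smul, h.smul] at h1
  have a1 : |u.1| ≤ ‖u‖ := norm_fst_le u
  have a2 : |u.2| ≤ ‖u‖ := norm_snd_le u
  have p1 := h.nonneg (1, 0)
  have p2 := h.nonneg (0, 1)
  unfold up
  nlinarith

lemma lip (h : StrictNorm N) (u v : ℝ × ℝ) : |N u - N v| ≤ up N * ‖u - v‖ :=
  (h.sub_le u v).trans (h.le_up _)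

lemma continuous (h : StrictNorm N) : Continuous N := by
  have : LipschitzWith (Real.toNNReal (up N)) N := by
    apply LipschitzWith.of_dist_le_mul
    intro u v
    rw [Real.dist_eq, dist_eq_norm, Real.coe_toNNReal _ h.up_pos.le]
    exact h.lip u v
  exact this.continuous

lemma exists_low (h : StrictNorm N) : ∃ m > 0, ∀ u, m * ‖u‖ ≤ N u := by
  have hc : IsCompact (Metric.sphere (0 : ℝ × ℝ) 1) := isCompact_sphere _ _
  have hne : (Metric.sphere (0 : ℝ × ℝ) 1).Nonempty := by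
    refine ⟨(1, 0), ?_⟩
    simp [Prod.norm_def]
  obtain ⟨z, hz, hmin⟩ := hc.exists_isMinOn hne h.continuous.continuousOn
  have hz0 : z ≠ 0 := by
    rintro rfl
    simp at hz
  refine ⟨N z, h.pos hz0, fun u => ?_⟩
  by_cases hu : u = 0
  · rw [hu, h.zero]; simp
  · have hn : 0 < ‖u‖ := norm_pos_iff.2 hu
    have hmem : (‖u‖⁻¹ • u) ∈ Metric.sphere (0 : ℝ × ℝ) 1 := by
      rw [mem_sphere_zero_iff_norm, norm_smul, norm_inv, norm_norm, inv_mul_cancel₀ hn.ne']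
    have h1 := hmin hmem
    have h1' : N z ≤ N (‖u‖⁻¹ • u) := h1
    rw [h.smul, abs_of_pos (inv_pos.2 hn)] at h1'
    calc N z * ‖u‖ ≤ (‖u‖⁻¹ * N u) * ‖u‖ := by gcongr
      _ = N u := by field_simp

end StrictNorm

/-- The functional with value `N u` at `u` and kernel spanned by `v`. -/
noncomputable def pf (N : ℝ × ℝ → ℝ) (u v : ℝ × ℝ) : (ℝ × ℝ) →L[ℝ] ℝ :=
  (N u / Om u v) • (v.2 • ContinuousLinearMap.fst ℝ ℝ ℝ - v.1 • ContinuousLinearMap.snd ℝ ℝ ℝ)

lemma pf_apply (N : ℝ × ℝ → ℝ) (u v z : ℝ × ℝ) : pf N u v z = N u / Om u v * Om z v := by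
  simp only [pf, smul_apply, sub_apply,
    ContinuousLinearMap.coe_fst', ContinuousLinearMap.coe_snd', smul_eq_mul, Om]
  ring

lemma pf_le {N : ℝ × ℝ → ℝ} (h : StrictNorm N) {u v : ℝ × ℝ} (hb : Bk N u v) (hO : Om u v ≠ 0)
    (z : ℝ × ℝ) : pf N u v z ≤ N z := by
  rw [pf_apply]
  set α := Om z v / Om u v with hα
  have e := Om_decomp hO z
  have e1 : N u / Om u v * Om z v = α * N u := by rw [hα]; ring
  rw [e1]
  by_cases h0 : α = 0
  · rw [h0, zero_mul]; exact h.nonneg _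
  · have e2 : z = α • (u + ((Om u z / Om u v) / α) • v) := by
      rw [smul_add, smul_smul, mul_div_cancel₀ _ h0]
      exact e
    have h2 := hb ((Om u z / Om u v) / α)
    calc α * N u ≤ |α| * N u := mul_le_mul_of_nonneg_right (le_abs_self α) (h.nonneg u)
      _ ≤ |α| * N (u + ((Om u z / Om u v) / α) • v) :=
        mul_le_mul_of_nonneg_left h2 (abs_nonneg _)
      _ = N z := by rw [← h.smul, ← e2]

lemma Bk_Om_ne {N : ℝ × ℝ → ℝ} (h : StrictNorm N) {u v : ℝ × ℝ} (hu : u ≠ 0) (hv : v ≠ 0)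
    (hb : Bk N u v) : Om u v ≠ 0 := by
  intro hO
  rw [Om_swap, neg_eq_zero] at hO
  obtain ⟨c, rfl⟩ := parallel_of_Om hv hO
  have := hb (-c)
  rw [neg_smul, add_neg_cancel, h.zero] at this
  exact absurd (h.pos hu) (not_lt.2 this)

/-- strict convexity: perpendiculars are unique -/
lemma Bk_unique_left {N : ℝ × ℝ → ℝ} (h : StrictNorm N) {u v v' : ℝ × ℝ} (hu : u ≠ 0)
    (hv : v ≠ 0) (hv' : v' ≠ 0) (hb : Bk N v u) (hb' : Bk N v' u) : Om v v' = 0 := by
  by_contra hO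
  have h1 := Bk_Om_ne h hv hu hb
  have h2 := Bk_Om_ne h hv' hu hb'
  -- normalise v' so that v'' - v is a multiple of u
  set c := Om v u / Om v' u with hc
  have hc0 : c ≠ 0 := div_ne_zero h1 h2
  have h3 : Om (c • v' - v) u = 0 := by
    rw [Om_sub_left, Om_smul_left, hc]; field_simp; ring
  rw [Om_swap, neg_eq_zero] at h3
  obtain ⟨s, hs⟩ := parallel_of_Om hu h3
  have hs0 : s ≠ 0 := by
    rintro rfl
    rw [zero_smul, sub_eq_zero] at hs
    apply hO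
    rw [← hs, Om_smul_left, Om_self, mul_zero]
  have e1 : c • v' = v + s • u := by rw [← hs]; abel
  have hbc : Bk N (c • v') u := by
    intro t
    have := hb' (t / c)
    have e : c • v' + t • u = c • (v' + (t / c) • u) := by
      rw [smul_add, smul_smul, mul_div_cancel₀ _ hc0]
    rw [e, h.smul, h.smul]
    exact mul_le_mul_of_nonneg_left this (abs_nonneg _)
  have l1 : N v ≤ N (c • v') := by rw [e1]; exact hb s
  have l2 : N (c • v') ≤ N v := by
    have := hbc (-s)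
    rw [e1] at this
    have e : v + s • u + (-s) • u = v := by rw [neg_smul]; abel
    rw [e] at this
    rw [e1]; exact this
  have hstr := h.2.2 v (c • v') (by
    rw [Om_smul_right]; exact mul_ne_zero hc0 hO)
  have e3 : v + c • v' = (2 : ℝ) • (v + (s / 2) • u) := by
    rw [e1, smul_add, smul_smul, two_smul]
    have : (2 : ℝ) * (s / 2) = s := by ring
    rw [this]; abel
  rw [e3, h.smul] at hstr
  have := hb (s / 2)
  rw [abs_of_pos (by norm_num : (0 : ℝ) < 2)] at hstr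
  linarith

/-- with symmetry, supporting directions are unique -/
lemma Bk_unique_right {N : ℝ × ℝ → ℝ} (h : StrictNorm N) (hs : SymB N) {u v v' : ℝ × ℝ}
    (hu : u ≠ 0) (hv : v ≠ 0) (hv' : v' ≠ 0) (hb : Bk N u v) (hb' : Bk N u v') : Om v v' = 0 :=
  Bk_unique_left h hu hv hv' (hs _ _ hb) (hs _ _ hb')

end Pool.Agent.Helper831.PM
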