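import Pool.Agent.Helper831.PMHam
import Pool.Agent.Helper831.PMLimit

namespace Pool.Agent.Helper831.PM

open Real Set Filter Topology Metric MeasureTheory

/-- clamped functions -/
noncomputable def hcf (x0 : ℝ × ℝ) (R : ℝ) (F : ℝ × ℝ → ℝ × ℝ → ℝ) (φ : ℝ) (y : ℝ × ℝ) : ℝ :=
  hh (F (cl x0 (R / 2) y)) φ
noncomputable def Hcf (x0 : ℝ × ℝ) (R : ℝ) (F : ℝ × ℝ → ℝ × ℝ → ℝ) (φ : ℝ) (y : ℝ × ℝ) : ℝ :=
  HH F (cl x0 (R / 2) y) φ
noncomputable def lCf (x0 : ℝ × ℝ) (R : ℝ) (F : ℝ × ℝ → ℝ × ℝ → ℝ) (y : ℝ × ℝ) : ℝ :=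
  lC F (cl x0 (R / 2) y)

/-- the approximate solution -/
noncomputable def fE (x0 : ℝ × ℝ) (R : ℝ) (F : ℝ × ℝ → ℝ × ℝ → ℝ) (x : ℝ × ℝ) (ε φ : ℝ) : ℝ :=
  AA ε x (dir φ) (hcf x0 R F φ) / hh (F x) φ ^ 2 -
    2 / 3 * (AA ε x (dir φ) (lCf x0 R F) / hh (F x) φ)

noncomputable def fE' (x0 : ℝ × ℝ) (R : ℝ) (F : ℝ × ℝ → ℝ × ℝ → ℝ) (x : ℝ × ℝ) (ε φ : ℝ) : ℝ :=
  (2 * AA ε x (nor φ) (hcf x0 R F φ) * hh (F x) φ ^ 2 -
    AA ε x (dir φ) (hcf x0 R F φ) * (2 * hh (F x) φ * hp (F x) φ)) / (hh (F x) φ ^ 2) ^ 2 -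
    2 / 3 * ((AA ε x (nor φ) (lCf x0 R F) * hh (F x) φ -
      AA ε x (dir φ) (lCf x0 R F) * hp (F x) φ) / hh (F x) φ ^ 2)

lemma AA_dir_deriv {g : ℝ × ℝ → ℝ} (hg : Continuous g) (ε : ℝ) (x : ℝ × ℝ) (φ : ℝ) :
    HasDerivAt (fun φ => AA ε x (dir φ) g) (AA ε x (nor φ) g) φ := by
  have e : ∀ a b : ℝ, AA ε x (a, b) g = a * AA ε x (1, 0) g + b * AA ε x (0, 1) g := by
    intro a b
    have : ((a, b) : ℝ × ℝ) = a • ((1, 0) : ℝ × ℝ) + b • ((0, 1) : ℝ × ℝ) := by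
      ext <;> simp
    rw [this, AA_add hg, AA_smul, AA_smul]
  have h1 : (fun φ => AA ε x (dir φ) g) =
      fun φ => cos φ * AA ε x (1, 0) g + sin φ * AA ε x (0, 1) g := by
    funext φ; exact e _ _
  rw [h1, show AA ε x (nor φ) g = -sin φ * AA ε x (1, 0) g + cos φ * AA ε x (0, 1) g from e _ _]
  exact ((hasDerivAt_cos φ).mul_const _).add ((hasDerivAt_sin φ).mul_const _)

namespace Geo

variable {x0 : ℝ × ℝ} {R m Λ K : ℝ} {F : ℝ × ℝ → ℝ × ℝ → ℝ} {d : ℝ × ℝ → ℝ × ℝ → ℝ}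

lemma hcf_cont (G : Geo x0 R m Λ F d) (φ : ℝ) : Continuous (hcf x0 R F φ) := G.hc_cont φ

lemma Hcf_cont (G : Geo x0 R m Λ F d) (φ : ℝ) : Continuous (Hcf x0 R F φ) :=
  (G.hc_cont φ).log fun y => ((G.rad _ (G.cl_in y)).hh_pos φ).ne'

lemma lCf_cont (G : Geo x0 R m Λ F d) (E : Est x0 R K F) : Continuous (lCf x0 R F) := by
  have hK := E.hK
  have hm := G.hm
  have h1 : ContinuousOn (lC F) (ball x0 R) := by
    have : LipschitzOnWith (Real.toNNReal (4 * K / m)) (lC F) (ball x0 R) := by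
      refine LipschitzOnWith.of_dist_le_mul fun y hy x hx => ?_
      rw [Real.dist_eq, dist_eq_norm, Real.coe_toNNReal _ (by positivity)]
      exact G.lC_lip E hx hy
    exact this.continuousOn
  exact h1.comp_continuous (cl_cont x0 (R / 2)) G.cl_in

lemma near_mem {x : ℝ × ℝ} (hR : 0 < R) (hx : x ∈ ball x0 (R / 4)) {y : ℝ × ℝ} {ε : ℝ}
    (hεR : ε ≤ R / 32) (hy : ‖y - x‖ ≤ ε) : y ∈ ball x0 (R / 2) := by
  have := mem_add hx (hy.trans hεR)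
  have e : x + (y - x) = y := by abel
  rw [e] at this
  exact ball_subset_ball (by linarith) this

/-- comparison of `h` and `log h` -/
lemma AA_log (G : Geo x0 R m Λ F d) (E : Est x0 R K F) {x : ℝ × ℝ} (hx : x ∈ ball x0 (R / 4))
    {ε : ℝ} (hε : 0 < ε) (hεR : ε ≤ R / 32) (φ : ℝ) (b : ℝ × ℝ) :
    |AA ε x b (hcf x0 R F φ) - hh (F x) φ * AA ε x b (Hcf x0 R F φ)| ≤
      C0 * ‖b‖ * (Λ * K ^ 2 / (m / 2) ^ 2 * ε) := by
  have hR := G.hR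
  have hm := G.hm
  have hK := E.hK
  have hx2 : x ∈ ball x0 (R / 2) := ball_subset_ball (by linarith) hx
  have hx' : x ∈ ball x0 R := ball_subset_ball (by linarith) hx
  have hΛ := G.hΛ
  have hc1 : Continuous fun y => hh (F x) φ * Hcf x0 R F φ y :=
    continuous_const.mul (G.Hcf_cont φ)
  have hc2 : Continuous fun y => hcf x0 R F φ y - hh (F x) φ * Hcf x0 R F φ y :=
    (G.hcf_cont φ).sub hc1
  rw [← AA_mul_g, ← AA_sub_g (G.hcf_cont φ) hc1]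
  refine AA_bound hc2 hε b ?_
  intro y hy
  show |(hcf x0 R F φ y - hh (F x) φ * Hcf x0 R F φ y) -
    (hcf x0 R F φ x - hh (F x) φ * Hcf x0 R F φ x)| ≤ _
  have hy2 := near_mem hR hx hεR hy
  have hy' : y ∈ ball x0 R := ball_subset_ball (by linarith) hy2
  unfold hcf Hcf HH
  rw [cl_id hy2, cl_id hx2]
  have h1 := G.hh_lo hy' φ
  have h2 := G.hh_lo hx' φ
  have h3 := log_sub_sub_le (c := m / 2) (by positivity) h1 h2
  have p := (G.rad x hx').hh_pos φ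
  have h4 := hh_lip E hx' hy' φ
  have h5 := G.hh_hi hx' φ
  have e : hh (F y) φ - hh (F x) φ * log (hh (F y) φ) - (hh (F x) φ - hh (F x) φ *
      log (hh (F x) φ)) = -(hh (F x) φ * (log (hh (F y) φ) - log (hh (F x) φ) -
      (hh (F y) φ - hh (F x) φ) / hh (F x) φ)) := by
    field_simp; ring
  rw [e, abs_neg, abs_mul, abs_of_pos p]
  have h6 : |hh (F y) φ - hh (F x) φ| ≤ K * ε :=
    h4.trans (mul_le_mul_of_nonneg_left hy hK.le)
  calc hh (F x) φ * |log (hh (F y) φ) - log (hh (F x) φ) -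
      (hh (F y) φ - hh (F x) φ) / hh (F x) φ| ≤ Λ * (|hh (F y) φ - hh (F x) φ| ^ 2 / (m / 2) ^ 2) := by
        gcongr
    _ ≤ Λ * ((K * ε) ^ 2 / (m / 2) ^ 2) := by
        have := G.hΛ
        gcongr
    _ = _ := by ring

lemma AA_h_bound (G : Geo x0 R m Λ F d) (E : Est x0 R K F) {x : ℝ × ℝ} (hx : x ∈ ball x0 (R / 4))
    {ε : ℝ} (hε : 0 < ε) (hεR : ε ≤ R / 32) (φ : ℝ) (b : ℝ × ℝ) :
    |AA ε x b (hcf x0 R F φ)| ≤ C0 * ‖b‖ * K := by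
  have hR := G.hR
  have hK := E.hK
  have hx2 : x ∈ ball x0 (R / 2) := ball_subset_ball (by linarith) hx
  have hx' : x ∈ ball x0 R := ball_subset_ball (by linarith) hx
  refine AA_bound (G.hcf_cont φ) hε b fun y hy => ?_
  have hy2 := near_mem hR hx hεR hy
  have hy' : y ∈ ball x0 R := ball_subset_ball (by linarith) hy2
  unfold hcf
  rw [cl_id hy2, cl_id hx2]
  exact (hh_lip E hx' hy' φ).trans (mul_le_mul_of_nonneg_left hy hK.le)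

lemma AA_lC_bound (G : Geo x0 R m Λ F d) (E : Est x0 R K F) {x : ℝ × ℝ}
    (hx : x ∈ ball x0 (R / 4)) {ε : ℝ} (hε : 0 < ε) (hεR : ε ≤ R / 32) (b : ℝ × ℝ) :
    |AA ε x b (lCf x0 R F)| ≤ C0 * ‖b‖ * (4 * K / m) := by
  have hR := G.hR
  have hm := G.hm
  have hK := E.hK
  have hx2 : x ∈ ball x0 (R / 2) := ball_subset_ball (by linarith) hx
  have hx' : x ∈ ball x0 R := ball_subset_ball (by linarith) hx
  refine AA_bound (G.lCf_cont E) hε b fun y hy => ?_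
  have hy2 := near_mem hR hx hεR hy
  have hy' : y ∈ ball x0 R := ball_subset_ball (by linarith) hy2
  unfold lCf
  rw [cl_id hy2, cl_id hx2]
  exact (G.lC_lip E hx' hy').trans (mul_le_mul_of_nonneg_left hy (by positivity))

lemma fE_deriv (G : Geo x0 R m Λ F d) (E : Est x0 R K F) {x : ℝ × ℝ}
    (hx : x ∈ ball x0 (R / 4)) {ε : ℝ} (hε : 0 < ε) (hεR : ε ≤ R / 32) (φ : ℝ) :
    HasDerivAt (fE x0 R F x ε) (fE' x0 R F x ε φ) φ := by
  have hR := G.hR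
  have hx' : x ∈ ball x0 R := ball_subset_ball (by linarith) hx
  have r := G.rad x hx'
  have hh0 := (r.hh_pos φ).ne'
  have h1 := G.Q_deriv hx hε hεR φ
  have h2 := r.hasDerivAt_hh φ
  have h3 := AA_dir_deriv (G.lCf_cont E) ε x φ
  have h4 : HasDerivAt (fun φ => hh (F x) φ ^ 2) (2 * hh (F x) φ * hp (F x) φ) φ := by
    refine (h2.pow 2).congr_deriv ?_
    norm_num
  exact (h1.div h4 (pow_ne_zero 2 hh0)).sub ((h3.div h2 hh0).const_mul (2 / 3))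

lemma fE_anti (G : Geo x0 R m Λ F d) {x : ℝ × ℝ} (hx : x ∈ ball x0 (R / 4)) (ε φ : ℝ) :
    fE x0 R F x ε (φ + π) = - fE x0 R F x ε φ := by
  have hR := G.hR
  have hx' : x ∈ ball x0 R := ball_subset_ball (by linarith) hx
  have e1 : hcf x0 R F (φ + π) = hcf x0 R F φ := by
    funext y; unfold hcf; rw [(G.rad _ (G.cl_in y)).hh_add_pi]
  have e2 : ∀ g, AA ε x (dir (φ + π)) g = - AA ε x (dir φ) g := by
    intro g
    have : dir (φ + π) = (-1 : ℝ) • dir φ := by rw [dir_add_pi]; simp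
    rw [this, AA_smul]; ring
  unfold fE
  rw [e1, e2, e2, (G.rad x hx').hh_add_pi]
  ring

lemma fE_bound (G : Geo x0 R m Λ F d) (E : Est x0 R K F) {x : ℝ × ℝ}
    (hx : x ∈ ball x0 (R / 4)) {ε : ℝ} (hε : 0 < ε) (hεR : ε ≤ R / 32) (φ : ℝ) :
    |fE x0 R F x ε φ| ≤ C0 * K / (m / 2) ^ 2 + C0 * (4 * K / m) / (m / 2) := by
  have hR := G.hR
  have hm := G.hm
  have hK := E.hK
  have hC := C0_nonneg
  have hx' : x ∈ ball x0 R := ball_subset_ball (by linarith) hx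
  have h1 := G.AA_h_bound E hx hε hεR φ (dir φ)
  have h2 := G.AA_lC_bound E hx hε hεR (dir φ)
  have h3 := G.hh_lo hx' φ
  have p := (G.rad x hx').hh_pos φ
  have h4 := norm_dir_le φ
  have h1' : |AA ε x (dir φ) (hcf x0 R F φ)| ≤ C0 * K := by
    refine h1.trans ?_
    calc C0 * ‖dir φ‖ * K ≤ C0 * 1 * K := by gcongr
      _ = _ := by ring
  have h2' : |AA ε x (dir φ) (lCf x0 R F)| ≤ C0 * (4 * K / m) := by
    refine h2.trans ?_
    calc C0 * ‖dir φ‖ * (4 * K / m) ≤ C0 * 1 * (4 * K / m) := by gcongr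
      _ = _ := by ring
  unfold fE
  refine (abs_sub _ _).trans (add_le_add ?_ ?_)
  · rw [abs_div, abs_of_pos (pow_pos p 2)]
    gcongr
  · rw [abs_mul, abs_div (AA ε x (dir φ) (lCf x0 R F)), abs_of_pos p]
    have e : |(2 / 3 : ℝ)| = 2 / 3 := by norm_num
    rw [e]
    have q : |AA ε x (dir φ) (lCf x0 R F)| / hh (F x) φ ≤ C0 * (4 * K / m) / (m / 2) := by
      gcongr
    have q0 : 0 ≤ |AA ε x (dir φ) (lCf x0 R F)| / hh (F x) φ := by positivity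
    linarith

lemma ode_est (G : Geo x0 R m Λ F d) (E : Est x0 R K F) {x : ℝ × ℝ}
    (hx : x ∈ ball x0 (R / 4)) {η : ℝ} (hη : 0 < η) : ∃ ε0 > 0, ε0 ≤ R / 32 ∧
      ∀ ε, 0 < ε → ε < ε0 → ∀ φ,
        |fE' x0 R F x ε φ + 2 * ww (F x) φ * fE x0 R F x ε (th (F x) φ)| ≤ η := by
  have hR := G.hR
  have hm := G.hm
  have hK := E.hK
  have hΛ := G.hΛ
  have hC := C0_nonneg
  have hx2 : x ∈ ball x0 (R / 2) := ball_subset_ball (by linarith) hx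
  have hx' : x ∈ ball x0 R := ball_subset_ball (by linarith) hx
  have r := G.rad x hx'
  set N := F x with hN
  have hCC := r.CC_pos
  set c := m / 2 with hc
  have hc0 : 0 < c := by positivity
  set T1 := 2 / c ^ 2 * C0 * (Λ / c + RadonNorm.CC N / c ^ 2) * (Λ * K ^ 2 / c ^ 2) with hT1
  set T2 := 2 / c ^ 2 * C0 * Λ with hT2
  have hT1' : 0 ≤ T1 := by positivity
  have hT2' : 0 ≤ T2 := by positivity
  obtain ⟨δ, hδ, subδ, hstep⟩ := G.step_T E hx2 (ε := η / (2 * (T2 + 1))) (by positivity)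
  refine ⟨min (R / 32) (min δ (η / (2 * (T1 + 1)))), lt_min (by positivity)
    (lt_min hδ (by positivity)), min_le_left _ _, fun ε hε hε1 φ => ?_⟩
  have hεR : ε ≤ R / 32 := hε1.le.trans (min_le_left _ _)
  have hεδ : ε < δ := lt_of_lt_of_le hε1 ((min_le_right _ _).trans (min_le_left _ _))
  have hεη : ε ≤ η / (2 * (T1 + 1)) := hε1.le.trans ((min_le_right _ _).trans (min_le_right _ _))
  set ψ := th N φ with hψ
  have rdir : rr N (dir φ) = hh N φ • nor φ - hp N φ • dir φ := r.rr_dir φ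
  have rth : rr N (dir φ) = (RadonNorm.CC N / hh N ψ) • dir ψ := r.rr_dir_th φ
  have nr : ‖rr N (dir φ)‖ ≤ Λ := G.norm_rr_le hx' (dir_ne φ)
  have hφ := r.hh_pos φ
  have hψp := r.hh_pos ψ
  have hloφ := G.hh_lo hx' φ
  have hloψ := G.hh_lo hx' ψ
  -- the error terms
  have X1 := G.AA_log E hx hε hεR φ (rr N (dir φ))
  have X2 := G.AA_log E hx hε hεR ψ (dir ψ)
  have X3 : |AA ε x (rr N (dir φ)) (fun y => Hcf x0 R F φ y + Hcf x0 R F ψ y - lCf x0 R F y)| ≤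
      C0 * ‖rr N (dir φ)‖ * (η / (2 * (T2 + 1))) := by
    have hc3 : Continuous fun y => Hcf x0 R F φ y + Hcf x0 R F ψ y - lCf x0 R F y :=
      ((G.Hcf_cont φ).add (G.Hcf_cont ψ)).sub (G.lCf_cont E)
    refine AA_bound hc3 hε _ fun y hy => ?_
    show |(Hcf x0 R F φ y + Hcf x0 R F ψ y - lCf x0 R F y) -
      (Hcf x0 R F φ x + Hcf x0 R F ψ x - lCf x0 R F x)| ≤ _
    have hy2 := near_mem hR hx hεR hy
    have := hstep y (by rw [mem_ball, dist_eq_norm]; linarith) φ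
    rw [← hN, ← hψ] at this
    unfold Hcf lCf
    rw [cl_id hy2, cl_id hx2]
    have e : HH F y φ + HH F y ψ - lC F y - (HH F x φ + HH F x ψ - lC F x) =
      (HH F y φ - HH F x φ) + (HH F y ψ - HH F x ψ) - (lC F y - lC F x) := by ring
    rw [e]
    exact this.trans (mul_le_mul_of_nonneg_left hy (by positivity))
  -- expansions
  obtain ⟨a1, ha1⟩ : ∃ a, a = AA ε x (nor φ) (hcf x0 R F φ) := ⟨_, rfl⟩
  obtain ⟨a2, ha2⟩ : ∃ a, a = AA ε x (dir φ) (hcf x0 R F φ) := ⟨_, rfl⟩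
  obtain ⟨b1, hb1⟩ : ∃ a, a = AA ε x (nor φ) (lCf x0 R F) := ⟨_, rfl⟩
  obtain ⟨b2, hb2⟩ : ∃ a, a = AA ε x (dir φ) (lCf x0 R F) := ⟨_, rfl⟩
  obtain ⟨c2, hc2⟩ : ∃ a, a = AA ε x (dir ψ) (hcf x0 R F ψ) := ⟨_, rfl⟩
  obtain ⟨d2, hd2⟩ : ∃ a, a = AA ε x (dir ψ) (lCf x0 R F) := ⟨_, rfl⟩
  obtain ⟨z1, hz1⟩ : ∃ a, a = AA ε x (rr N (dir φ)) (Hcf x0 R F φ) := ⟨_, rfl⟩
  obtain ⟨z2, hz2⟩ : ∃ a, a = AA ε x (dir ψ) (Hcf x0 R F ψ) := ⟨_, rfl⟩
  have e1 : AA ε x (rr N (dir φ)) (hcf x0 R F φ) = hh N φ * a1 - hp N φ * a2 := by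
    have : rr N (dir φ) = hh N φ • nor φ + (-hp N φ) • dir φ := by rw [rdir]; module
    rw [this, AA_add (G.hcf_cont φ), AA_smul, AA_smul, ← ha1, ← ha2]; ring
  have e2 : AA ε x (rr N (dir φ)) (lCf x0 R F) = hh N φ * b1 - hp N φ * b2 := by
    have : rr N (dir φ) = hh N φ • nor φ + (-hp N φ) • dir φ := by rw [rdir]; module
    rw [this, AA_add (G.lCf_cont E), AA_smul, AA_smul, ← hb1, ← hb2]; ring
  have e3 : AA ε x (rr N (dir φ)) (lCf x0 R F) = RadonNorm.CC N / hh N ψ * d2 := by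
    rw [rth, AA_smul, ← hd2]
  have e4 : AA ε x (rr N (dir φ)) (Hcf x0 R F ψ) = RadonNorm.CC N / hh N ψ * z2 := by
    rw [rth, AA_smul, ← hz2]
  have e5 : AA ε x (rr N (dir φ)) (fun y => Hcf x0 R F φ y + Hcf x0 R F ψ y - lCf x0 R F y) =
      z1 + RadonNorm.CC N / hh N ψ * z2 - (hh N φ * b1 - hp N φ * b2) := by
    rw [AA_sub_g (g1 := fun y => Hcf x0 R F φ y + Hcf x0 R F ψ y)
      ((G.Hcf_cont φ).add (G.Hcf_cont ψ)) (G.lCf_cont E),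
      AA_add_g (G.Hcf_cont φ) (G.Hcf_cont ψ), e4, e2, ← hz1]
  rw [e1, ← hz1] at X1
  rw [← hc2, ← hz2] at X2
  rw [e5] at X3
  have hBk : RadonNorm.CC N / hh N ψ * d2 = hh N φ * b1 - hp N φ * b2 := by rw [← e3, e2]
  have hmain : fE' x0 R F x ε φ + 2 * ww N φ * fE x0 R F x ε ψ =
      2 / hh N φ ^ 2 * ((hh N φ * a1 - hp N φ * a2 - hh N φ * z1) / hh N φ +
        RadonNorm.CC N / hh N ψ ^ 2 * (c2 - hh N ψ * z2) +
        (z1 + RadonNorm.CC N / hh N ψ * z2 - (hh N φ * b1 - hp N φ * b2))) := by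
    have hd2' : RadonNorm.CC N * d2 = (hh N φ * b1 - hp N φ * b2) * hh N ψ := by
      rw [← hBk]; field_simp
    unfold fE' fE ww
    rw [← hN, ← ha1, ← ha2, ← hb1, ← hb2, ← hc2, ← hd2]
    have e6 : 2 * (RadonNorm.CC N / hh N φ ^ 2) * (c2 / hh N ψ ^ 2 - 2 / 3 * (d2 / hh N ψ)) =
      2 / hh N φ ^ 2 * (RadonNorm.CC N * c2 / hh N ψ ^ 2 - 2 / 3 * (RadonNorm.CC N * d2) / hh N ψ) := by
      ring
    rw [e6, hd2']
    field_simp
    ring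
  rw [hmain]
  have q1 : |(hh N φ * a1 - hp N φ * a2 - hh N φ * z1) / hh N φ| ≤
      C0 * Λ * (Λ * K ^ 2 / c ^ 2 * ε) / c := by
    rw [abs_div, abs_of_pos hφ]
    have : C0 * ‖rr N (dir φ)‖ * (Λ * K ^ 2 / c ^ 2 * ε) ≤ C0 * Λ * (Λ * K ^ 2 / c ^ 2 * ε) := by
      gcongr
    have h1 := X1.trans this
    gcongr
  have q2 : |RadonNorm.CC N / hh N ψ ^ 2 * (c2 - hh N ψ * z2)| ≤
      RadonNorm.CC N / c ^ 2 * (C0 * 1 * (Λ * K ^ 2 / c ^ 2 * ε)) := by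
    rw [abs_mul, abs_of_pos (div_pos hCC (pow_pos hψp 2))]
    have : C0 * ‖dir ψ‖ * (Λ * K ^ 2 / c ^ 2 * ε) ≤ C0 * 1 * (Λ * K ^ 2 / c ^ 2 * ε) := by
      have := norm_dir_le ψ
      gcongr
    have h1 := X2.trans this
    gcongr
  have q3 : |z1 + RadonNorm.CC N / hh N ψ * z2 - (hh N φ * b1 - hp N φ * b2)| ≤
      C0 * Λ * (η / (2 * (T2 + 1))) := by
    refine X3.trans ?_
    gcongr
  rw [abs_mul, abs_of_pos (div_pos two_pos (pow_pos hφ 2))]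
  have q4 : 2 / hh N φ ^ 2 ≤ 2 / c ^ 2 := by gcongr
  have hsum : |(hh N φ * a1 - hp N φ * a2 - hh N φ * z1) / hh N φ +
        RadonNorm.CC N / hh N ψ ^ 2 * (c2 - hh N ψ * z2) +
        (z1 + RadonNorm.CC N / hh N ψ * z2 - (hh N φ * b1 - hp N φ * b2))| ≤
      C0 * Λ * (Λ * K ^ 2 / c ^ 2 * ε) / c + RadonNorm.CC N / c ^ 2 *
        (C0 * 1 * (Λ * K ^ 2 / c ^ 2 * ε)) + C0 * Λ * (η / (2 * (T2 + 1))) :=
    (abs_add_three _ _ _).trans (add_le_add (add_le_add q1 q2) q3)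
  have hfin : 2 / c ^ 2 * (C0 * Λ * (Λ * K ^ 2 / c ^ 2 * ε) / c + RadonNorm.CC N / c ^ 2 *
        (C0 * 1 * (Λ * K ^ 2 / c ^ 2 * ε)) + C0 * Λ * (η / (2 * (T2 + 1)))) =
      T1 * ε + T2 * (η / (2 * (T2 + 1))) := by
    rw [hT1, hT2]; ring
  have t1 : T1 * ε ≤ η / 2 := by
    calc T1 * ε ≤ (T1 + 1) * (η / (2 * (T1 + 1))) := by gcongr; linarith
      _ = η / 2 := by field_simp
  have t2 : T2 * (η / (2 * (T2 + 1))) ≤ η / 2 := by
    calc T2 * (η / (2 * (T2 + 1))) ≤ (T2 + 1) * (η / (2 * (T2 + 1))) := by gcongr; linarith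
      _ = η / 2 := by field_simp
  refine (mul_le_mul q4 hsum (abs_nonneg _) (by positivity)).trans ?_
  rw [hfin]
  linarith

end Geo

end Pool.Agent.Helper831.PM
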