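import Pool.Agent.Helper831.PMAng
import Pool.Agent.Helper831.PMAlg

namespace Pool.Agent.Helper831.PM

open Real Set Filter Topology

variable {N : ℝ × ℝ → ℝ}

/-- angle of the perpendicular direction -/
noncomputable def th (N : ℝ × ℝ → ℝ) (φ : ℝ) : ℝ := φ + π / 2 + arctan (hp N φ / hh N φ)
/-- point of the unit circle with angle `φ` -/
noncomputable def uu (N : ℝ × ℝ → ℝ) (φ : ℝ) : ℝ × ℝ := (hh N φ)⁻¹ • dir φ
/-- weight -/
noncomputable def ww (N : ℝ × ℝ → ℝ) (φ : ℝ) : ℝ := RadonNorm.CC N / hh N φ ^ 2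

namespace RadonNorm

lemma th_lo (N : ℝ × ℝ → ℝ) (φ : ℝ) : φ < th N φ := by
  have := neg_pi_div_two_lt_arctan (hp N φ / hh N φ)
  unfold th; linarith

lemma th_hi (N : ℝ × ℝ → ℝ) (φ : ℝ) : th N φ < φ + π := by
  have := arctan_lt_pi_div_two (hp N φ / hh N φ)
  unfold th; linarith

lemma continuous_th (h : RadonNorm N) : Continuous (th N) := by
  unfold th
  have : Continuous fun φ => hp N φ / hh N φ :=
    h.continuous_hp.div h.continuous_hh fun φ => (h.hh_pos φ).ne'
  fun_prop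

lemma th_add_pi (h : RadonNorm N) (φ : ℝ) : th N (φ + π) = th N φ + π := by
  unfold th; rw [h.hh_add_pi, h.hp_add_pi]; ring

lemma rr_dir_th (h : RadonNorm N) (φ : ℝ) :
    rr N (dir φ) = (CC N / hh N (th N φ)) • dir (th N φ) := by
  set a := arctan (hp N φ / hh N φ) with ha
  have hc : 0 < cos a := cos_arctan_pos _
  have hhp := h.hh_pos φ
  have hs : sin a = hp N φ / hh N φ * cos a := by
    have := tan_arctan (hp N φ / hh N φ)
    rw [← ha, tan_eq_sin_div_cos, div_eq_iff hc.ne'] at this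
    exact this
  have e1 : dir (th N φ) = (cos a / hh N φ) • rr N (dir φ) := by
    rw [h.rr_dir]
    have e0 : th N φ = (φ + a) + π / 2 := by unfold th; ring
    rw [e0]
    have c1 : cos (φ + a + π / 2) = - sin (φ + a) := cos_add_pi_div_two _
    have c2 : sin (φ + a + π / 2) = cos (φ + a) := sin_add_pi_div_two _
    ext
    · simp only [dir, nor, Prod.smul_fst, Prod.fst_sub, smul_eq_mul, c1, sin_add, hs]
      field_simp
      ring
    · simp only [dir, nor, Prod.smul_snd, Prod.snd_sub, smul_eq_mul, c2, cos_add, hs]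
      field_simp
  have e2 : hh N (th N φ) = cos a / hh N φ * CC N := by
    rw [hh, e1, h.1.smul, h.N_rr (dir_ne φ), abs_of_pos (div_pos hc hhp)]
  have hC := h.CC_pos
  rw [e1, e2, smul_smul]
  have : CC N / (cos a / hh N φ * CC N) * (cos a / hh N φ) = 1 := by field_simp
  rw [this, one_smul]

lemma rr_dir_th' (h : RadonNorm N) (φ : ℝ) : rr N (dir φ) = CC N • uu N (th N φ) := by
  rw [h.rr_dir_th, uu, smul_smul]; rfl

lemma uu_ne (h : RadonNorm N) (φ : ℝ) : uu N φ ≠ 0 :=
  smul_ne_zero (inv_ne_zero (h.hh_pos φ).ne') (dir_ne φ)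

lemma hasDerivAt_uu (h : RadonNorm N) (φ : ℝ) :
    HasDerivAt (uu N) (ww N φ • uu N (th N φ)) φ := by
  have hhp := h.hh_pos φ
  have d1 : HasDerivAt (fun φ => (hh N φ)⁻¹) (-hp N φ / hh N φ ^ 2) φ :=
    (h.hasDerivAt_hh φ).inv hhp.ne'
  have d2 := d1.smul (hasDerivAt_dir φ)
  refine d2.congr_deriv ?_
  have e : ww N φ • uu N (th N φ) = (1 / hh N φ ^ 2) • rr N (dir φ) := by
    rw [h.rr_dir_th', smul_smul]
    congr 1
    unfold ww; ring
  rw [e, h.rr_dir, smul_sub, smul_smul, smul_smul]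
  have e1 : (hh N φ)⁻¹ = 1 / hh N φ ^ 2 * hh N φ := by field_simp
  rw [e1]
  have e2 : -hp N φ / hh N φ ^ 2 = -(1 / hh N φ ^ 2 * hp N φ) := by ring
  rw [e2, neg_smul]
  abel

lemma th_th (h : RadonNorm N) (φ : ℝ) : th N (th N φ) = φ + π := by
  have hC := h.CC_pos
  have h1 : rr N (rr N (dir φ)) = (-(CC N / hh N φ)) • dir φ := h.rr_rr' (dir_ne φ)
  rw [h.rr_dir_th φ, h.rr_smul (dir_ne _) (div_pos hC (h.hh_pos _)), h.rr_dir_th] at h1
  set ψ := th N (th N φ) with hψ
  have hk : 0 < CC N / hh N ψ := div_pos hC (h.hh_pos _)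
  have hk' : 0 < CC N / hh N φ := div_pos hC (h.hh_pos _)
  have h2 : (CC N / hh N ψ) • dir ψ = (CC N / hh N φ) • dir (φ + π) := by
    rw [h1, dir_add_pi, smul_neg, neg_smul]
  have h3 : sin (ψ - (φ + π)) = 0 := by
    have := congrArg (Om (dir (φ + π))) h2
    rw [Om_smul_right, Om_smul_right, Om_self, mul_zero, Om_dir_dir] at this
    exact (mul_eq_zero.1 this).resolve_left hk.ne'
  have l1 := th_lo N φ
  have l2 := th_hi N φ
  have l3 := th_lo N (th N φ)
  have l4 := th_hi N (th N φ)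
  have : ψ - (φ + π) = 0 := (sin_eq_zero_iff_of_lt_of_lt (by linarith) (by linarith)).1 h3
  linarith

lemma strictMono_th (h : RadonNorm N) : StrictMono (th N) := by
  have hinj : Function.Injective (th N) := by
    intro a b hab
    have := congrArg (th N) hab
    rw [h.th_th, h.th_th] at this
    linarith
  rcases h.continuous_th.strictMono_of_inj hinj with h1 | h1
  · exact h1
  · exfalso
    have := h1 (show (0 : ℝ) < 0 + π by linarith [pi_pos])
    rw [h.th_add_pi] at this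
    linarith [pi_pos]

lemma uu_add_pi (h : RadonNorm N) (φ : ℝ) : uu N (φ + π) = - uu N φ := by
  unfold uu; rw [h.hh_add_pi, dir_add_pi, smul_neg]

lemma Om_uu_uu_pos (h : RadonNorm N) {s t : ℝ} (h1 : s < t) (h2 : t < s + π) :
    0 < Om (uu N s) (uu N t) := by
  unfold uu
  rw [Om_smul_left, Om_smul_right, Om_dir_dir]
  have := sin_pos_of_pos_of_lt_pi (x := t - s) (by linarith) (by linarith)
  have a := h.hh_pos s
  have b := h.hh_pos t
  positivity

lemma N_uu (h : RadonNorm N) (φ : ℝ) : N (uu N φ) = 1 := by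
  have := h.hh_pos φ
  unfold uu
  rw [h.1.smul, abs_of_pos (inv_pos.2 this)]
  exact inv_mul_cancel₀ this.ne'

lemma continuous_uu (h : RadonNorm N) : Continuous (uu N) :=
  continuous_iff_continuousAt.2 fun φ => (h.hasDerivAt_uu φ).continuousAt

/-- convexity of the unit circle, in ordered form -/
lemma ordered (h : RadonNorm N) {s t r : ℝ} (h1 : s < t) (h2 : t < r) (h3 : r < s + π) :
    Om (uu N s) (uu N r) ≤ Om (uu N s) (uu N t) + Om (uu N t) (uu N r) := by
  have p1 := h.Om_uu_uu_pos h1 (by linarith)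
  have p2 := h.Om_uu_uu_pos h2 (by linarith)
  have p3 := h.Om_uu_uu_pos (h1.trans h2) h3
  have e := Om_decomp p3.ne' (uu N t)
  have h4 : N (uu N t) ≤ |Om (uu N t) (uu N r) / Om (uu N s) (uu N r)| * N (uu N s) +
      |Om (uu N s) (uu N t) / Om (uu N s) (uu N r)| * N (uu N r) := by
    rw [← h.1.smul, ← h.1.smul]
    conv_lhs => rw [e]
    exact h.1.tri _ _
  rw [h.N_uu, h.N_uu, h.N_uu, abs_of_pos (div_pos p2 p3), abs_of_pos (div_pos p1 p3), mul_one,
    mul_one, ← add_div, le_div_iff₀ p3] at h4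
  linarith

end RadonNorm

end Pool.Agent.Helper831.PM
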