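import Pool.Agent.Helper831.PMGap

namespace Pool.Agent.Helper831.PM

open Real Set Filter Topology Metric

/-- A continuous family of Radon norms which is constant along lines in their own direction. -/
structure PG (M : Set (ℝ × ℝ)) (G : ℝ × ℝ → ℝ × ℝ → ℝ) : Prop where
  op : IsOpen M
  cv : Convex ℝ M
  rad : ∀ x ∈ M, RadonNorm (G x)
  cont : ∀ x ∈ M, ∀ v, ContinuousAt (fun p : (ℝ × ℝ) × (ℝ × ℝ) => G p.1 p.2) (x, v)
  line : ∀ x ∈ M, ∀ u : ℝ × ℝ, ∀ t : ℝ, x + t • u ∈ M → G (x + t • u) u = G x u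

lemma RadonNorm.incr_lo {N : ℝ × ℝ → ℝ} (h : RadonNorm N) {v : ℝ × ℝ} (hv : v ≠ 0) (w : ℝ × ℝ) :
    Om w (rr N v) ≤ N (v + w) - N v := by
  have := h.dN_le hv (v + w)
  rw [map_add, h.dN_self hv, dN_eq_Om] at this
  linarith

lemma RadonNorm.incr_hi {N : ℝ × ℝ → ℝ} (h : RadonNorm N) {v w : ℝ × ℝ} (hv : v + w ≠ 0) :
    N (v + w) - N v ≤ Om w (rr N (v + w)) := by
  have := h.dN_le hv v
  have e : v = (v + w) - w := by abel
  rw [show dN N (v + w) v = dN N (v + w) (v + w) - dN N (v + w) w by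
    rw [← map_sub, ← e], h.dN_self hv, dN_eq_Om] at this
  linarith

/-- `w ↦ Om w u` -/
noncomputable def OmR (u : ℝ × ℝ) : (ℝ × ℝ) →L[ℝ] ℝ := - OmL u

lemma OmR_apply (u w : ℝ × ℝ) : OmR u w = Om w u := by
  rw [OmR, neg_apply, OmL_apply, Om_swap]; ring

namespace PG

variable {M : Set (ℝ × ℝ)} {G : ℝ × ℝ → ℝ × ℝ → ℝ}

lemma rr_cont (h : PG M G) {x u : ℝ × ℝ} (hx : x ∈ M) (hu : u ≠ 0) :
    ContinuousAt (fun p : (ℝ × ℝ) × (ℝ × ℝ) => rr (G p.1) p.2) (x, u) := by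
  have hev : ∀ᶠ y in 𝓝 x, RadonNorm (G y) := by
    filter_upwards [h.op.mem_nhds hx] with y hy using h.rad y hy
  have c1 := dN_continuousAt hev (h.cont x hx) hu (0, 1)
  have c2 := dN_continuousAt hev (h.cont x hx) hu (1, 0)
  unfold rr
  exact c1.neg.prodMk c2

lemma bracket (h : PG M G) {x u : ℝ × ℝ} (hx : x ∈ M) (hu : u ≠ 0) {c : ℝ} (hc : 0 < c) :
    ∀ᶠ p : ((ℝ × ℝ) × (ℝ × ℝ)) × (ℝ × ℝ) in 𝓝 ((x, u), 0),
      |G p.1.1 (p.1.2 + p.2) - G p.1.1 p.1.2 - Om p.2 (rr (G x) u)| ≤ c * ‖p.2‖ := by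
  have c1 : ContinuousAt (fun p : ((ℝ × ℝ) × (ℝ × ℝ)) × (ℝ × ℝ) => rr (G p.1.1) p.1.2)
      ((x, u), 0) :=
    ContinuousAt.comp (f := fun p : ((ℝ × ℝ) × (ℝ × ℝ)) × (ℝ × ℝ) => p.1) (x := ((x, u), 0))
      (h.rr_cont hx hu) continuousAt_fst
  have c2 : ContinuousAt (fun p : ((ℝ × ℝ) × (ℝ × ℝ)) × (ℝ × ℝ) => rr (G p.1.1) (p.1.2 + p.2))
      ((x, u), 0) := by
    have g : ContinuousAt (fun p : ((ℝ × ℝ) × (ℝ × ℝ)) × (ℝ × ℝ) => (p.1.1, p.1.2 + p.2))
      ((x, u), 0) := by fun_prop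
    have h1 := h.rr_cont hx hu
    have h1' : ContinuousAt (fun p : (ℝ × ℝ) × (ℝ × ℝ) => rr (G p.1) p.2)
      ((fun p : ((ℝ × ℝ) × (ℝ × ℝ)) × (ℝ × ℝ) => (p.1.1, p.1.2 + p.2)) ((x, u), 0)) := by
      simpa using h1
    exact ContinuousAt.comp
      (f := fun p : ((ℝ × ℝ) × (ℝ × ℝ)) × (ℝ × ℝ) => (p.1.1, p.1.2 + p.2)) (x := ((x, u), 0)) h1' g
  have v1 := c1.tendsto
  have v2 := c2.tendsto
  simp only [add_zero] at v1 v2
  rw [Metric.tendsto_nhds] at v1 v2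
  have e1 : ∀ᶠ p : ((ℝ × ℝ) × (ℝ × ℝ)) × (ℝ × ℝ) in 𝓝 ((x, u), 0), p.1.1 ∈ M := by
    have : ContinuousAt (fun p : ((ℝ × ℝ) × (ℝ × ℝ)) × (ℝ × ℝ) => p.1.1) ((x, u), 0) := by
      fun_prop
    exact this.eventually (h.op.mem_nhds hx)
  have e2 : ∀ᶠ p : ((ℝ × ℝ) × (ℝ × ℝ)) × (ℝ × ℝ) in 𝓝 ((x, u), 0), p.1.2 ≠ 0 := by
    have : ContinuousAt (fun p : ((ℝ × ℝ) × (ℝ × ℝ)) × (ℝ × ℝ) => p.1.2) ((x, u), 0) := by
      fun_prop
    exact this.eventually (isOpen_ne.mem_nhds hu)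
  have e3 : ∀ᶠ p : ((ℝ × ℝ) × (ℝ × ℝ)) × (ℝ × ℝ) in 𝓝 ((x, u), 0), p.1.2 + p.2 ≠ 0 := by
    have : ContinuousAt (fun p : ((ℝ × ℝ) × (ℝ × ℝ)) × (ℝ × ℝ) => p.1.2 + p.2) ((x, u), 0) := by
      fun_prop
    exact this.eventually (isOpen_ne.mem_nhds (by simpa using hu))
  filter_upwards [v1 (c / 2) (by positivity), v2 (c / 2) (by positivity), e1, e2, e3]
    with p h1 h2 h3 h4 h5
  rw [dist_eq_norm] at h1 h2
  have r := h.rad _ h3
  have lo := r.incr_lo h4 p.2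
  have hi := r.incr_hi h5
  have b1 : |Om p.2 (rr (G p.1.1) p.1.2 - rr (G x) u)| ≤ c * ‖p.2‖ := by
    refine (abs_Om_le _ _).trans ?_
    have := mul_le_mul_of_nonneg_left h1.le (norm_nonneg p.2)
    linarith
  have b2 : |Om p.2 (rr (G p.1.1) (p.1.2 + p.2) - rr (G x) u)| ≤ c * ‖p.2‖ := by
    refine (abs_Om_le _ _).trans ?_
    have := mul_le_mul_of_nonneg_left h2.le (norm_nonneg p.2)
    linarith
  rw [Om_sub_right] at b1 b2
  rw [abs_le] at b1 b2 ⊢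
  constructor <;> linarith [b1.1, b1.2, b2.1, b2.2]

lemma joint (h : PG M G) {x u : ℝ × ℝ} (hx : x ∈ M) (hu : u ≠ 0) {s : ℝ} (hs : 0 < s)
    (hz : x - s • u ∈ M) {c : ℝ} (hc : 0 < c) :
    ∀ᶠ p : (ℝ × ℝ) × (ℝ × ℝ) in 𝓝 (0, u),
      |s * (G (x + p.1) p.2 - G x p.2) - Om p.1 (rr (G (x - s • u)) u - rr (G x) u)| ≤
        c * ‖p.1‖ := by
  have hsu : s • u ≠ 0 := smul_ne_zero hs.ne' hu
  have B1 := h.bracket hz hsu (c := c / 2) (by positivity)
  have B2 := h.bracket hx hsu (c := c / 2) (by positivity)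
  have t1 : Tendsto (fun p : (ℝ × ℝ) × (ℝ × ℝ) => (((x - s • p.2, s • p.2), p.1) :
      ((ℝ × ℝ) × (ℝ × ℝ)) × (ℝ × ℝ))) (𝓝 (0, u)) (𝓝 ((x - s • u, s • u), 0)) := by
    have : ContinuousAt (fun p : (ℝ × ℝ) × (ℝ × ℝ) => (((x - s • p.2, s • p.2), p.1) :
      ((ℝ × ℝ) × (ℝ × ℝ)) × (ℝ × ℝ))) (0, u) := by fun_prop
    exact this
  have t2 : Tendsto (fun p : (ℝ × ℝ) × (ℝ × ℝ) => (((x + p.1, s • p.2), p.1) :
      ((ℝ × ℝ) × (ℝ × ℝ)) × (ℝ × ℝ))) (𝓝 (0, u)) (𝓝 ((x, s • u), 0)) := by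
    have : ContinuousAt (fun p : (ℝ × ℝ) × (ℝ × ℝ) => (((x + p.1, s • p.2), p.1) :
      ((ℝ × ℝ) × (ℝ × ℝ)) × (ℝ × ℝ))) (0, u) := by fun_prop
    have h2 := this.tendsto
    simpa using h2
  have e1 : ∀ᶠ p : (ℝ × ℝ) × (ℝ × ℝ) in 𝓝 (0, u), x - s • p.2 ∈ M := by
    have : ContinuousAt (fun p : (ℝ × ℝ) × (ℝ × ℝ) => x - s • p.2) (0, u) := by fun_prop
    exact this.eventually (h.op.mem_nhds hz)
  have e2 : ∀ᶠ p : (ℝ × ℝ) × (ℝ × ℝ) in 𝓝 (0, u), x + p.1 ∈ M := by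
    have : ContinuousAt (fun p : (ℝ × ℝ) × (ℝ × ℝ) => x + p.1) (0, u) := by fun_prop
    exact this.eventually (h.op.mem_nhds (by simpa using hx))
  filter_upwards [t1.eventually B1, t2.eventually B2, e1, e2] with p h1 h2 h3 h4
  obtain ⟨w, v⟩ := p
  simp only at h1 h2 h3 h4 ⊢
  set z := x - s • v with hzd
  have l1 : G (x + w) (s • v + w) = G z (s • v + w) := by
    have := h.line z h3 (s • v + w) 1 (by
      have e : z + (1 : ℝ) • (s • v + w) = x + w := by rw [hzd]; module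
      rw [e]; exact h4)
    have e : z + (1 : ℝ) • (s • v + w) = x + w := by rw [hzd]; module
    rwa [e] at this
  have l2 : G x (s • v) = G z (s • v) := by
    have := h.line z h3 (s • v) 1 (by
      have e : z + (1 : ℝ) • (s • v) = x := by rw [hzd]; module
      rw [e]; exact hx)
    have e : z + (1 : ℝ) • (s • v) = x := by rw [hzd]; module
    rwa [e] at this
  have m1 : s * G (x + w) v = G (x + w) (s • v) := by
    rw [(h.rad _ h4).1.smul, abs_of_pos hs]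
  have m2 : s * G x v = G x (s • v) := by
    rw [(h.rad _ hx).1.smul, abs_of_pos hs]
  have r1 : rr (G (x - s • u)) (s • u) = rr (G (x - s • u)) u := (h.rad _ hz).rr_smul hu hs
  have r2 : rr (G x) (s • u) = rr (G x) u := (h.rad _ hx).rr_smul hu hs
  rw [r1] at h1
  rw [r2] at h2
  have e : s * (G (x + w) v - G x v) - Om w (rr (G (x - s • u)) u - rr (G x) u) =
      (G z (s • v + w) - G z (s • v) - Om w (rr (G (x - s • u)) u)) -
      (G (x + w) (s • v + w) - G (x + w) (s • v) - Om w (rr (G x) u)) := by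
    rw [mul_sub, m1, m2, l2, l1, Om_sub_right]; ring
  rw [e]
  refine (abs_sub _ _).trans ?_
  linarith

/-- the coefficient of the `x`-derivative of `G` -/
noncomputable def p0 (G : ℝ × ℝ → ℝ × ℝ → ℝ) (x u : ℝ × ℝ) : ℝ :=
  fderiv ℝ (fun y => G y u) x (u.2, -u.1) / (u.1 ^ 2 + u.2 ^ 2)

lemma sq_pos {u : ℝ × ℝ} (hu : u ≠ 0) : 0 < u.1 ^ 2 + u.2 ^ 2 := by
  by_contra hc
  push Not at hc
  have a : u.1 = 0 := by nlinarith [sq_nonneg u.1, sq_nonneg u.2]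
  have b : u.2 = 0 := by nlinarith [sq_nonneg u.1, sq_nonneg u.2]
  exact hu (Prod.ext a b)

lemma exists_back (h : PG M G) {x : ℝ × ℝ} (hx : x ∈ M) (u : ℝ × ℝ) :
    ∃ s : ℝ, 0 < s ∧ x - s • u ∈ M := by
  have : ContinuousAt (fun s : ℝ => x - s • u) 0 := by fun_prop
  have ev := this.eventually (h.op.mem_nhds (by simpa using hx))
  rw [Metric.eventually_nhds_iff] at ev
  obtain ⟨ε, hε, hε'⟩ := ev
  refine ⟨ε / 2, by positivity, hε' ?_⟩
  rw [Real.dist_eq, sub_zero, abs_of_pos (by positivity)]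
  linarith

lemma back (h : PG M G) {x u : ℝ × ℝ} (hx : x ∈ M) (hu : u ≠ 0) {s : ℝ} (hs : 0 < s)
    (hz : x - s • u ∈ M) :
    (∀ c > 0, ∀ᶠ p : (ℝ × ℝ) × (ℝ × ℝ) in 𝓝 (0, u),
      |G (x + p.1) p.2 - G x p.2 - p0 G x u * Om p.1 u| ≤ c * ‖p.1‖) ∧
    HasFDerivAt (fun y => G y u) (p0 G x u • OmR u) x ∧
    rr (G (x - s • u)) u = rr (G x) u + (s * p0 G x u) • u := by
  have hO : Om u (rr (G (x - s • u)) u - rr (G x) u) = 0 := by
    rw [Om_sub_right, (h.rad _ hz).Om_rr hu, (h.rad _ hx).Om_rr hu]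
    have := h.line x hx u (-s) (by rw [neg_smul, ← sub_eq_add_neg]; exact hz)
    rw [neg_smul, ← sub_eq_add_neg] at this
    linarith
  obtain ⟨κ, hκ⟩ := parallel_of_Om hu hO
  have J : ∀ c > 0, ∀ᶠ p : (ℝ × ℝ) × (ℝ × ℝ) in 𝓝 (0, u),
      |G (x + p.1) p.2 - G x p.2 - κ / s * Om p.1 u| ≤ c * ‖p.1‖ := by
    intro c hc
    filter_upwards [h.joint hx hu hs hz (c := s * c) (by positivity)] with p hp
    rw [hκ, Om_smul_right] at hp
    have e : s * (G (x + p.1) p.2 - G x p.2) - κ * Om p.1 u =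
        s * (G (x + p.1) p.2 - G x p.2 - κ / s * Om p.1 u) := by field_simp
    rw [e, abs_mul, abs_of_pos hs, mul_assoc] at hp
    exact le_of_mul_le_mul_left hp hs
  have hd : HasFDerivAt (fun y => G y u) ((κ / s) • OmR u) x := by
    rw [hasFDerivAt_iff_isLittleO_nhds_zero, Asymptotics.isLittleO_iff]
    intro c hc
    have t : Tendsto (fun w : ℝ × ℝ => (w, u)) (𝓝 0) (𝓝 (0, u)) := by
      have : ContinuousAt (fun w : ℝ × ℝ => (w, u)) 0 := by fun_prop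
      exact this
    filter_upwards [t.eventually (J c hc)] with w hw
    simp only [smul_apply, OmR_apply, smul_eq_mul]
    exact hw
  have hp0 : p0 G x u = κ / s := by
    unfold p0
    rw [hd.fderiv, smul_apply, OmR_apply, smul_eq_mul]
    have : Om (u.2, -u.1) u = u.1 ^ 2 + u.2 ^ 2 := by unfold Om; ring
    rw [this]
    have := (sq_pos hu).ne'
    field_simp
  rw [hp0]
  refine ⟨J, hd, ?_⟩
  have : s * (κ / s) = κ := by field_simp
  rw [this, ← hκ]; abel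

lemma jointP (h : PG M G) {x u : ℝ × ℝ} (hx : x ∈ M) (hu : u ≠ 0) :
    ∀ c > 0, ∀ᶠ p : (ℝ × ℝ) × (ℝ × ℝ) in 𝓝 (0, u),
      |G (x + p.1) p.2 - G x p.2 - p0 G x u * Om p.1 u| ≤ c * ‖p.1‖ := by
  obtain ⟨s, hs, hz⟩ := h.exists_back hx u
  exact (h.back hx hu hs hz).1

lemma hasFDerivAt_G (h : PG M G) {x u : ℝ × ℝ} (hx : x ∈ M) (hu : u ≠ 0) :
    HasFDerivAt (fun y => G y u) (p0 G x u • OmR u) x := by
  obtain ⟨s, hs, hz⟩ := h.exists_back hx u
  exact (h.back hx hu hs hz).2.1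

lemma p0_neg (h : PG M G) {x : ℝ × ℝ} (hx : x ∈ M) (u : ℝ × ℝ) : p0 G x (-u) = - p0 G x u := by
  have e : fderiv ℝ (fun y => G y (-u)) x = fderiv ℝ (fun y => G y u) x := by
    apply Filter.EventuallyEq.fderiv_eq
    filter_upwards [h.op.mem_nhds hx] with y hy
    exact (h.rad y hy).1.neg u
  unfold p0
  rw [e]
  have e2 : ((-u).2, -(-u).1) = (-1 : ℝ) • (u.2, -u.1) := by ext <;> simp
  rw [e2, map_smul, smul_eq_mul]
  simp only [Prod.fst_neg, Prod.snd_neg]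
  ring

lemma p0_smul (h : PG M G) {x : ℝ × ℝ} (hx : x ∈ M) {u : ℝ × ℝ} (hu : u ≠ 0) {c : ℝ}
    (hc : 0 < c) : p0 G x (c • u) = p0 G x u := by
  have hcu : c • u ≠ 0 := smul_ne_zero hc.ne' hu
  have h1 := h.hasFDerivAt_G hx hcu
  have h2 := (h.hasFDerivAt_G hx hu).const_mul c
  have h3 : HasFDerivAt (fun y => G y (c • u)) (c • (p0 G x u • OmR u)) x := by
    refine h2.congr_of_eventuallyEq ?_
    filter_upwards [h.op.mem_nhds hx] with y hy
    rw [(h.rad y hy).1.smul, abs_of_pos hc]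
  have h4 := h1.unique h3
  have h5 := congrArg (fun L : (ℝ × ℝ) →L[ℝ] ℝ => L (u.2, -u.1)) h4
  simp only [smul_apply, OmR_apply, smul_eq_mul, Om_smul_right] at h5
  have e : Om (u.2, -u.1) u = u.1 ^ 2 + u.2 ^ 2 := by unfold Om; ring
  rw [e] at h5
  have := (sq_pos hu).ne'
  have h6 : (p0 G x (c • u) - p0 G x u) * (c * (u.1 ^ 2 + u.2 ^ 2)) = 0 := by linarith
  rcases mul_eq_zero.1 h6 with h7 | h7
  · linarith
  · exfalso; exact (mul_ne_zero hc.ne' this) h7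

/-- the perpendicular direction varies affinely along a line -/
lemma rr_line (h : PG M G) {x u : ℝ × ℝ} (hx : x ∈ M) (hu : u ≠ 0) {t : ℝ}
    (hy : x + t • u ∈ M) : rr (G (x + t • u)) u = rr (G x) u - (t * p0 G x u) • u := by
  rcases lt_trichotomy t 0 with ht | ht | ht
  · have e : x + t • u = x - (-t) • u := by module
    rw [e] at hy ⊢
    rw [(h.back hx hu (by linarith) hy).2.2]
    module
  · rw [ht]; simp
  · have e : x + t • u = x - t • (-u) := by module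
    have hy' := hy
    rw [e] at hy'
    have h1 := (h.back hx (neg_ne_zero.2 hu) ht hy').2.2
    rw [← e, (h.rad _ hy).rr_neg hu, (h.rad _ hx).rr_neg hu, h.p0_neg hx] at h1
    have h2 := congrArg Neg.neg h1
    rw [neg_neg] at h2
    rw [h2]
    module

lemma p0_line (h : PG M G) {x u : ℝ × ℝ} (hx : x ∈ M) (hu : u ≠ 0) {t : ℝ}
    (hy : x + t • u ∈ M) : p0 G (x + t • u) u = p0 G x u := by
  rcases eq_or_ne t 0 with ht | ht
  · rw [ht, zero_smul, add_zero]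
  have h1 := h.rr_line hx hu hy
  have hx' : x + t • u + (-t) • u ∈ M := by
    have : x + t • u + (-t) • u = x := by module
    rw [this]; exact hx
  have h2 := h.rr_line hy hu hx'
  have e : x + t • u + (-t) • u = x := by module
  rw [e, h1] at h2
  have h3 : (t * (p0 G (x + t • u) u - p0 G x u)) • u = 0 := by
    have h4 : rr (G x) u - (rr (G x) u - (t * p0 G x u) • u - (-t * p0 G (x + t • u) u) • u) = 0 :=
      sub_eq_zero.2 h2
    have h5 : rr (G x) u - (rr (G x) u - (t * p0 G x u) • u - (-t * p0 G (x + t • u) u) • u) =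
      -(t * (p0 G (x + t • u) u - p0 G x u)) • u := by module
    rw [h5, neg_smul, neg_eq_zero] at h4
    exact h4
  rcases smul_eq_zero.1 h3 with h4 | h4
  · rcases mul_eq_zero.1 h4 with h5 | h5
    · exact absurd h5 ht
    · linarith
  · exact absurd h4 hu

/-- the Radon constant -/
noncomputable def sg (G : ℝ × ℝ → ℝ × ℝ → ℝ) (x : ℝ × ℝ) : ℝ := RadonNorm.CC (G x)

lemma sg_pos (h : PG M G) {x : ℝ × ℝ} (hx : x ∈ M) : 0 < sg G x := (h.rad x hx).CC_pos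

lemma hasFDerivAt_sg (h : PG M G) {x u : ℝ × ℝ} (hx : x ∈ M) (hu : u ≠ 0) :
    HasFDerivAt (sg G) ((sg G x * p0 G x u / G x u) • OmR u +
      p0 G x (rr (G x) u) • OmR (rr (G x) u)) x := by
  have r := h.rad x hx
  set q := rr (G x) u with hq
  have hq0 : q ≠ 0 := r.rr_ne hu
  have hG := r.1.pos hu
  have hOm : Om u q = G x u := r.Om_rr hu
  have hGq : G x q = sg G x := r.N_rr hu
  have dA := h.hasFDerivAt_G hx hu
  have dB := h.hasFDerivAt_G hx hq0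
  -- upper function
  have dU : HasFDerivAt (fun y => G y u * G y q * (G x u)⁻¹)
      ((sg G x * p0 G x u / G x u) • OmR u + p0 G x q • OmR q) x := by
    refine ((dA.mul dB).mul_const (G x u)⁻¹).congr_fderiv ?_
    rw [hGq]
    ext <;> simp <;> field_simp <;> ring
  have dV : HasFDerivAt (fun y => sg G x * (G x u)⁻¹ * G y u)
      ((sg G x * p0 G x u / G x u) • OmR u) x := by
    refine (dA.const_mul (sg G x * (G x u)⁻¹)).congr_fderiv ?_
    rw [smul_smul]; congr 1; ring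
  rw [hasFDerivAt_iff_isLittleO_nhds_zero, Asymptotics.isLittleO_iff] at dU dV ⊢
  intro c hc
  have J := h.jointP hx hq0 (c / 2) (by positivity)
  have t : Tendsto (fun w : ℝ × ℝ => (w, rr (G (x + w)) u)) (𝓝 0) (𝓝 (0, q)) := by
    have c1 : ContinuousAt (fun w : ℝ × ℝ => rr (G (x + w)) u) 0 := by
      have g : ContinuousAt (fun w : ℝ × ℝ => (x + w, u)) 0 := by fun_prop
      have h1 : ContinuousAt (fun p : (ℝ × ℝ) × (ℝ × ℝ) => rr (G p.1) p.2)
        ((fun w : ℝ × ℝ => (x + w, u)) 0) := by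
        simpa using h.rr_cont hx hu
      exact ContinuousAt.comp (f := fun w : ℝ × ℝ => (x + w, u)) (x := 0) h1 g
    have h2 : Tendsto (fun w : ℝ × ℝ => rr (G (x + w)) u) (𝓝 0) (𝓝 q) := by
      have := c1.tendsto
      simpa using this
    exact tendsto_id.prodMk_nhds h2
  have e2 : ∀ᶠ w : ℝ × ℝ in 𝓝 0, x + w ∈ M := by
    have : ContinuousAt (fun w : ℝ × ℝ => x + w) 0 := by fun_prop
    exact this.eventually (h.op.mem_nhds (by simpa using hx))
  filter_upwards [dU hc, dV (half_pos hc), t.eventually J, e2] with w h1 h2 h3 hw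
  have rw' := h.rad _ hw
  simp only [smul_apply, OmR_apply, smul_eq_mul, add_apply] at h1 h2 h3 ⊢
  rw [Real.norm_eq_abs] at h1 h2 ⊢
  set qw := rr (G (x + w)) u with hqw
  -- upper bound
  have U1 : sg G (x + w) ≤ G (x + w) u * G (x + w) q * (G x u)⁻¹ := by
    have := rw'.polar' u q
    rw [hOm] at this
    rw [← div_eq_mul_inv, le_div_iff₀ hG]
    exact this
  have U0 : G x u * G x q * (G x u)⁻¹ = sg G x := by rw [hGq]; field_simp
  -- lower bound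
  have L1 : sg G x * (G x u)⁻¹ * G (x + w) u + (G (x + w) qw - G x qw) ≤ sg G (x + w) := by
    have e1 : G (x + w) qw = sg G (x + w) := rw'.N_rr hu
    have e3 : Om u qw = G (x + w) u := rw'.Om_rr hu
    have := r.polar' u qw
    rw [e3] at this
    have e4 : sg G x * (G x u)⁻¹ * G (x + w) u ≤ G x qw := by
      have e5 : sg G x * (G x u)⁻¹ * G (x + w) u = sg G x * G (x + w) u / G x u := by
        field_simp
      rw [e5, div_le_iff₀ hG]
      have h7 : RadonNorm.CC (G x) = sg G x := rfl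
      rw [h7] at this
      linarith
    linarith
  have L0 : sg G x * (G x u)⁻¹ * G x u = sg G x := by field_simp
  rw [U0] at h1
  rw [L0] at h2
  rw [abs_le] at h1 h2 h3 ⊢
  constructor <;> linarith [h1.1, h1.2, h2.1, h2.2, h3.1, h3.2]

/-- the derivative of `sg` -/
noncomputable def ds (G : ℝ × ℝ → ℝ × ℝ → ℝ) (x : ℝ × ℝ) : (ℝ × ℝ) →L[ℝ] ℝ := fderiv ℝ (sg G) x

lemma hasFDerivAt_ds (h : PG M G) {x : ℝ × ℝ} (hx : x ∈ M) : HasFDerivAt (sg G) (ds G x) x := by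
  have hu : ((1, 0) : ℝ × ℝ) ≠ 0 := by simp
  have := h.hasFDerivAt_sg hx hu
  rw [ds, this.fderiv]
  exact this

lemma ds_rr (h : PG M G) {x u : ℝ × ℝ} (hx : x ∈ M) (hu : u ≠ 0) :
    ds G x (rr (G x) u) = - (sg G x * p0 G x u) := by
  have r := h.rad x hx
  have hG := r.1.pos hu
  rw [ds, (h.hasFDerivAt_sg hx hu).fderiv]
  simp only [smul_apply, OmR_apply, smul_eq_mul, add_apply, Om_self]
  rw [Om_swap, r.Om_rr hu]
  field_simp
  ring

end PG

end Pool.Agent.Helper831.PM
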