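import Pool.Agent.Helper831.PMAff

namespace Pool.Agent.Helper831.PM

open Real Set Filter Topology Metric

/-- the model three-dimensional space -/
abbrev W3 := (ℝ × ℝ) × ℝ

/-- linear independence of two vectors -/
def Ind {V : Type*} [AddCommGroup V] [Module ℝ V] (x u : V) : Prop :=
  ∀ a b : ℝ, a • x + b • u = 0 → a = 0 ∧ b = 0

/-- perpendicularity of two projective lines meeting at `o` -/
def PerpV {V : Type*} [AddCommGroup V] [Module ℝ V] (D : V → V → ℝ) (o u v : V) : Prop :=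
  ∀ a b a' b' : ℝ, a • o + b • u ≠ 0 → a' • o + b' • v ≠ 0 →
    D (a • o + b • u) o ≤ D (a • o + b • u) (a' • o + b' • v)

/-- Finslerian projective-metric planes of elliptic type, in homogeneous coordinates. -/
structure PV {V : Type*} [NormedAddCommGroup V] [NormedSpace ℝ V] (D Φ : V → V → ℝ) (L : ℝ) :
    Prop where
  hL : 0 < L
  inv : ∀ x y : V, x ≠ 0 → y ≠ 0 → ∀ a b : ℝ, a ≠ 0 → b ≠ 0 → D (a • x) (b • y) = D x y
  zero_iff : ∀ x y : V, x ≠ 0 → y ≠ 0 → (D x y = 0 ↔ ∃ a : ℝ, y = a • x)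
  symm : ∀ x y : V, x ≠ 0 → y ≠ 0 → D x y = D y x
  tri : ∀ x y z : V, x ≠ 0 → y ≠ 0 → z ≠ 0 → D x z ≤ D x y + D y z
  cont : ContinuousOn (fun p : V × V => D p.1 p.2) {p | p.1 ≠ 0 ∧ p.2 ≠ 0}
  circ : ∀ x u : V, Ind x u → ∃ c : ℝ → V,
    (∀ s, c s ≠ 0 ∧ ∃ a b : ℝ, c s = a • x + b • u) ∧
    (∀ a b : ℝ, a • x + b • u ≠ 0 → ∀ s0, ∃ s ∈ Ico s0 (s0 + L), ∃ α : ℝ, α ≠ 0 ∧
      a • x + b • u = α • c s) ∧
    (∀ s t, |s - t| ≤ L / 2 → D (c s) (c t) = |s - t|) ∧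
    (∀ s, c (s + L) = c s)
  strict : ∀ x y z : V, (∀ a b c : ℝ, a • x + b • y + c • z = 0 → a = 0 ∧ b = 0 ∧ c = 0) →
    D x z < D x y + D y z
  disc : ∀ x : V, x ≠ 0 → ∀ r < L / 2, ∃ B : W3 ≃ₗ[ℝ] V,
    (∀ y, y ≠ 0 → D x y ≤ r → (B.symm y).2 ≠ 0) ∧
      StrictConvex ℝ {p : ℝ × ℝ | D x (B (p, 1)) ≤ r}
  Fscale : ∀ x v : V, x ≠ 0 → ∀ a b : ℝ, a ≠ 0 → Φ (a • x) (a • v + b • x) = Φ x v
  Fpos : ∀ x v : V, x ≠ 0 → (¬ ∃ a : ℝ, v = a • x) → 0 < Φ x v
  Fhom : ∀ x v : V, x ≠ 0 → ∀ c : ℝ, Φ x (c • v) = |c| * Φ x v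
  Ftri : ∀ x v w : V, x ≠ 0 → Φ x (v + w) ≤ Φ x v + Φ x w
  Fcont : ContinuousOn (fun p : V × V => Φ p.1 p.2) ({x | x ≠ 0} ×ˢ univ)
  len : ∀ x y : V, x ≠ 0 → y ≠ 0 → IsGLB {l : ℝ | ∃ γ : ℝ → V, ContDiff ℝ 1 γ ∧
    (∀ t ∈ Icc (0 : ℝ) 1, γ t ≠ 0) ∧ (∃ a : ℝ, a ≠ 0 ∧ γ 0 = a • x) ∧
      (∃ b : ℝ, b ≠ 0 ∧ γ 1 = b • y) ∧ l = ∫ t in (0 : ℝ)..1, Φ (γ t) (deriv γ t)} (D x y)
  perp : ∀ o u v : V, Ind o u → Ind o v → PerpV D o u v → PerpV D o v u

section charts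

variable {V : Type*} [NormedAddCommGroup V] [NormedSpace ℝ V]

lemma pt_ne (A : W3 ≃ₗ[ℝ] V) (p : ℝ × ℝ) : A (p, 1) ≠ 0 := by
  intro h
  have := (LinearEquiv.map_eq_zero_iff A).1 h
  have h2 : (1 : ℝ) = 0 := congrArg Prod.snd this
  norm_num at h2

lemma comb (A : W3 ≃ₗ[ℝ] V) (p u : ℝ × ℝ) (a b : ℝ) :
    a • A (p, 1) + b • A (u, 0) = A (a • p + b • u, a) := by
  rw [← map_smul, ← map_smul, ← map_add]
  congr 1
  ext <;> simp

lemma comb' (A : W3 ≃ₗ[ℝ] V) (p u : ℝ × ℝ) {a : ℝ} (b : ℝ) (ha : a ≠ 0) :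
    a • A (p, 1) + b • A (u, 0) = a • A (p + (b / a) • u, 1) := by
  rw [comb, ← map_smul]
  congr 1
  ext
  · simp only [Prod.smul_mk, smul_add, smul_smul, mul_div_cancel₀ _ ha]
  · simp only [Prod.smul_mk, smul_add, smul_smul, mul_div_cancel₀ _ ha]
  · simp

lemma chart_add (A : W3 ≃ₗ[ℝ] V) (p u : ℝ × ℝ) (t : ℝ) :
    A (p + t • u, 1) = A (p, 1) + t • A (u, 0) := by
  rw [← map_smul, ← map_add]
  congr 1
  ext <;> simp

lemma chart_sub (A : W3 ≃ₗ[ℝ] V) (p q : ℝ × ℝ) :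
    A (q - p, 0) = A (q, 1) - A (p, 1) := by
  rw [← map_sub]
  congr 1
  ext <;> simp

lemma chart_ind (A : W3 ≃ₗ[ℝ] V) (p : ℝ × ℝ) {u : ℝ × ℝ} (hu : u ≠ 0) :
    Ind (A (p, 1)) (A (u, 0)) := by
  intro a b h
  rw [comb, LinearEquiv.map_eq_zero_iff] at h
  have h1 : a = 0 := congrArg Prod.snd h
  have h2 : a • p + b • u = 0 := congrArg Prod.fst h
  rw [h1, zero_smul, zero_add, smul_eq_zero] at h2
  exact ⟨h1, h2.resolve_right hu⟩

/-- uniqueness of the chart coordinate -/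
lemma chart_uniq (A : W3 ≃ₗ[ℝ] V) {p q : ℝ × ℝ} {α β : ℝ} (hα : α ≠ 0)
    (h : α • A (p, 1) = β • A (q, 1)) : p = q := by
  rw [← map_smul, ← map_smul] at h
  have h' := A.injective h
  have h1 : α * 1 = β * 1 := congrArg Prod.snd h'
  have h2 : α • p = β • q := congrArg Prod.fst h'
  have h3 : α = β := by linarith
  rw [← h3] at h2
  exact smul_right_injective _ hα h2

lemma line_uniq (A : W3 ≃ₗ[ℝ] V) {y u : ℝ × ℝ} (hu : u ≠ 0) {τ τ' α β : ℝ} (hα : α ≠ 0)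
    (h : α • A (y + τ • u, 1) = β • A (y + τ' • u, 1)) : τ = τ' := by
  have := chart_uniq A hα h
  have h2 : (τ - τ') • u = 0 := by
    have h3 : τ • u = τ' • u := add_left_cancel this
    rw [sub_smul, h3, sub_self]
  exact sub_eq_zero.1 ((smul_eq_zero.1 h2).resolve_right hu)

end charts

namespace PV

variable {V : Type*} [NormedAddCommGroup V] [NormedSpace ℝ V] [FiniteDimensional ℝ V]
variable {D Φ : V → V → ℝ} {L : ℝ}

lemma self (P : PV D Φ L) {x : V} (hx : x ≠ 0) : D x x = 0 :=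
  (P.zero_iff x x hx hx).2 ⟨1, (one_smul _ _).symm⟩

lemma inv_right (P : PV D Φ L) {x y : V} (hx : x ≠ 0) (hy : y ≠ 0) {a : ℝ} (ha : a ≠ 0) :
    D x (a • y) = D x y := by
  have := P.inv x y hx hy 1 a one_ne_zero ha
  rwa [one_smul] at this

lemma inv_left (P : PV D Φ L) {x y : V} (hx : x ≠ 0) (hy : y ≠ 0) {a : ℝ} (ha : a ≠ 0) :
    D (a • x) y = D x y := by
  have := P.inv x y hx hy a 1 ha one_ne_zero
  rwa [one_smul] at this

lemma nonneg (P : PV D Φ L) {x y : V} (hx : x ≠ 0) (hy : y ≠ 0) : 0 ≤ D x y := by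
  have := P.tri x y x hx hy hx
  rw [P.self hx, P.symm y x hy hx] at this
  linarith

/-- `D` is continuous in its second variable -/
lemma cont_right (P : PV D Φ L) {x : V} (hx : x ≠ 0) : ContinuousOn (D x) {y | y ≠ 0} := by
  have c : ContinuousOn (fun y : V => (x, y)) {y | y ≠ 0} := by fun_prop
  exact ContinuousOn.comp (t := {p : V × V | p.1 ≠ 0 ∧ p.2 ≠ 0})
    (g := fun p : V × V => D p.1 p.2) P.cont c (fun y hy => ⟨hx, hy⟩)

lemma cont_dA (P : PV D Φ L) (A : W3 ≃ₗ[ℝ] V) :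
    Continuous fun p : (ℝ × ℝ) × (ℝ × ℝ) => D (A (p.1, 1)) (A (p.2, 1)) := by
  have hA : Continuous A := LinearMap.continuous_of_finiteDimensional A.toLinearMap
  rw [← continuousOn_univ]
  have c : ContinuousOn (fun p : (ℝ × ℝ) × (ℝ × ℝ) => (A (p.1, 1), A (p.2, 1))) univ := by
    refine Continuous.continuousOn ?_
    exact (hA.comp (by fun_prop)).prodMk (hA.comp (by fun_prop))
  exact ContinuousOn.comp (t := {p : V × V | p.1 ≠ 0 ∧ p.2 ≠ 0})
    (g := fun p : V × V => D p.1 p.2) P.cont c (fun p _ => ⟨pt_ne A _, pt_ne A _⟩)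

/-- points which are `D`-close to a point of the chart lie in the chart, close to it -/
lemma inv_chart (P : PV D Φ L) (A : W3 ≃ₗ[ℝ] V) (p : ℝ × ℝ) {ρ : ℝ} (hρ : 0 < ρ) :
    ∃ κ > 0, ∀ y : V, y ≠ 0 → D (A (p, 1)) y < κ →
      ∃ q ∈ ball p ρ, ∃ α : ℝ, α ≠ 0 ∧ y = α • A (q, 1) := by
  have hAs : Continuous A.symm := LinearMap.continuous_of_finiteDimensional A.symm.toLinearMap
  set K : Set V := sphere 0 1 ∩ {y | ρ * |(A.symm y).2| ≤ ‖(A.symm y).1 - (A.symm y).2 • p‖}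
    with hK
  have hKcl : IsClosed {y : V | ρ * |(A.symm y).2| ≤ ‖(A.symm y).1 - (A.symm y).2 • p‖} := by
    refine isClosed_le ?_ ?_
    · fun_prop
    · fun_prop
  have hKc : IsCompact K := (isCompact_sphere _ _).inter_right hKcl
  have hK0 : ∀ y ∈ K, y ≠ 0 := by
    rintro y hy rfl
    have := hy.1
    simp at this
  have out : ∀ y : V, y ≠ 0 → ‖y‖⁻¹ • y ∉ K →
      ∃ q ∈ ball p ρ, ∃ α : ℝ, α ≠ 0 ∧ y = α • A (q, 1) := by
    intro y hy hnot
    have hn : 0 < ‖y‖ := norm_pos_iff.2 hy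
    have h1 : ‖(A.symm y).1 - (A.symm y).2 • p‖ < ρ * |(A.symm y).2| := by
      by_contra hcon
      push Not at hcon
      apply hnot
      refine ⟨?_, ?_⟩
      · rw [mem_sphere_zero_iff_norm, norm_smul, norm_inv, norm_norm, inv_mul_cancel₀ hn.ne']
      · show ρ * |(A.symm (‖y‖⁻¹ • y)).2| ≤
          ‖(A.symm (‖y‖⁻¹ • y)).1 - (A.symm (‖y‖⁻¹ • y)).2 • p‖
        rw [map_smul, Prod.smul_fst, Prod.smul_snd, smul_assoc, ← smul_sub, norm_smul,
          smul_eq_mul, abs_mul, Real.norm_eq_abs, abs_of_pos (inv_pos.2 hn)]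
        have := mul_le_mul_of_nonneg_left hcon (inv_pos.2 hn).le
        linarith
    have hs : (A.symm y).2 ≠ 0 := by
      intro h0
      rw [h0, abs_zero, mul_zero] at h1
      exact absurd h1 (not_lt.2 (norm_nonneg _))
    refine ⟨((A.symm y).2)⁻¹ • (A.symm y).1, ?_, (A.symm y).2, hs, ?_⟩
    · rw [mem_ball, dist_eq_norm]
      have e : ((A.symm y).2)⁻¹ • (A.symm y).1 - p =
          ((A.symm y).2)⁻¹ • ((A.symm y).1 - (A.symm y).2 • p) := by
        rw [smul_sub, smul_smul, inv_mul_cancel₀ hs, one_smul]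
      rw [e, norm_smul, norm_inv, Real.norm_eq_abs, inv_mul_lt_iff₀ (abs_pos.2 hs)]
      linarith
    · rw [← map_smul]
      have : (A.symm y).2 • ((((A.symm y).2)⁻¹ • (A.symm y).1, 1) : W3) = A.symm y := by
        ext
        · simp [hs]
        · simp [hs]
        · simp
      rw [this, A.apply_symm_apply]
  rcases K.eq_empty_or_nonempty with he | hne
  · exact ⟨1, one_pos, fun y hy _ => out y hy (by rw [he]; exact notMem_empty _)⟩
  obtain ⟨y0, hy0, hmin⟩ := hKc.exists_isMinOn hne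
    ((P.cont_right (pt_ne A p)).mono fun y hy => hK0 y hy)
  refine ⟨D (A (p, 1)) y0, ?_, fun y hy hlt => out y hy fun hmem => ?_⟩
  · refine lt_of_le_of_ne (P.nonneg (pt_ne A p) (hK0 _ hy0)) fun h0 => ?_
    obtain ⟨a, ha⟩ := (P.zero_iff _ _ (pt_ne A p) (hK0 _ hy0)).1 h0.symm
    have h1 : A.symm y0 = a • ((p, 1) : W3) := by
      rw [ha, map_smul, A.symm_apply_apply]
    have h2 := hy0.2
    have h3 : ρ * |(A.symm y0).2| ≤ ‖(A.symm y0).1 - (A.symm y0).2 • p‖ := h2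
    rw [h1] at h3
    simp only [Prod.smul_mk, smul_eq_mul, mul_one, sub_self, norm_zero] at h3
    have h4 : |a| = 0 := by
      have := abs_nonneg a
      by_contra hne
      have : 0 < |a| := lt_of_le_of_ne this (Ne.symm hne)
      have := mul_pos hρ this
      linarith
    rw [abs_eq_zero] at h4
    rw [h4, zero_smul] at ha
    exact hK0 _ hy0 ha
  · have hn : 0 < ‖y‖ := norm_pos_iff.2 hy
    have h1 := hmin hmem
    have h2 : D (A (p, 1)) y0 ≤ D (A (p, 1)) (‖y‖⁻¹ • y) := h1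
    rw [P.inv_right (pt_ne A p) hy (inv_pos.2 hn).ne'] at h2
    linarith

/-- the same along a line -/
lemma line_cont (P : PV D Φ L) (A : W3 ≃ₗ[ℝ] V) (y u : ℝ × ℝ) (hu : u ≠ 0) (τ0 : ℝ) {ε : ℝ}
    (hε : 0 < ε) : ∃ κ > 0, ∀ a b : ℝ, a • A (y, 1) + b • A (u, 0) ≠ 0 →
      D (A (y + τ0 • u, 1)) (a • A (y, 1) + b • A (u, 0)) < κ →
      a ≠ 0 ∧ |b / a - τ0| < ε := by
  have hnu : 0 < ‖u‖ := norm_pos_iff.2 hu
  obtain ⟨κ, hκ, h⟩ := P.inv_chart A (y + τ0 • u) (ρ := ε * ‖u‖) (by positivity)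
  refine ⟨κ, hκ, fun a b hne hlt => ?_⟩
  obtain ⟨q, hq, α, hα, he⟩ := h _ hne hlt
  have ha : a = α := by
    rw [comb, ← map_smul] at he
    have := congrArg Prod.snd (A.injective he)
    simpa using this
  have ha0 : a ≠ 0 := by rw [ha]; exact hα
  refine ⟨ha0, ?_⟩
  rw [comb' A y u b ha0] at he
  have := chart_uniq A ha0 he
  rw [← this, mem_ball, dist_eq_norm] at hq
  have e : y + (b / a) • u - (y + τ0 • u) = (b / a - τ0) • u := by module
  rw [e, norm_smul, Real.norm_eq_abs] at hq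
  exact lt_of_mul_lt_mul_right hq hnu.le

/-- two independent points joined by a short arc -/
lemma arc (P : PV D Φ L) {x y : V} (h : Ind x y) : ∃ (c : ℝ → V) (s0 a α β : ℝ),
    a ≠ 0 ∧ |a| ≤ L / 2 ∧ α ≠ 0 ∧ β ≠ 0 ∧ x = α • c s0 ∧ y = β • c (s0 + a) ∧
    (∀ s, c s ≠ 0 ∧ ∃ a b : ℝ, c s = a • x + b • y) ∧
    (∀ s t, |s - t| ≤ L / 2 → D (c s) (c t) = |s - t|) ∧ D x y = |a| := by
  obtain ⟨c, h1, h2, h3, h4⟩ := P.circ x y h
  have hL := P.hL
  have hx : x ≠ 0 := by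
    rintro rfl
    have := h 1 0 (by simp)
    exact one_ne_zero this.1
  have hy : y ≠ 0 := by
    rintro rfl
    have := h 0 1 (by simp)
    exact one_ne_zero this.2
  obtain ⟨s0, _, α, hα, e1⟩ := h2 1 0 (by simpa using hx) 0
  obtain ⟨s, hs, β, hβ, e2⟩ := h2 0 1 (by simpa using hy) (s0 - L / 2)
  rw [one_smul, zero_smul, add_zero] at e1
  rw [one_smul, zero_smul, zero_add] at e2
  have e3 : s0 + (s - s0) = s := by ring
  have ha : |s - s0| ≤ L / 2 := by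
    rw [abs_le]; constructor <;> linarith [hs.1, hs.2]
  refine ⟨c, s0, s - s0, α, β, ?_, ha, hα, hβ, e1, by rw [e3]; exact e2, h1, h3, ?_⟩
  · intro h0
    have h5 : s = s0 := by linarith
    rw [h5] at e2
    have h6 : β • x + (-α) • y = 0 := by
      rw [e1, e2, smul_smul, smul_smul, ← add_smul]
      have : β * α + -α * β = 0 := by ring
      rw [this, zero_smul]
    exact hβ (h _ _ h6).1
  · have h5 := P.inv (c s0) (c s) (h1 _).1 (h1 _).1 α β hα hβ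
    rw [← e1, ← e2] at h5
    rw [h5, h3 s0 s (by rw [abs_sub_comm]; exact ha), abs_sub_comm]

lemma chart_ind2 (A : W3 ≃ₗ[ℝ] V) {p q : ℝ × ℝ} (h : p ≠ q) : Ind (A (p, 1)) (A (q, 1)) := by
  intro a b hab
  have e : A (q, 1) = A (p, 1) + (1 : ℝ) • A (q - p, 0) := by
    rw [chart_sub, one_smul]; abel
  have h1 : (a + b) • A (p, 1) + b • A (q - p, 0) = 0 := by
    rw [← hab, e]; module
  have := chart_ind A p (sub_ne_zero.2 h.symm) _ _ h1
  exact ⟨by linarith [this.1, this.2], this.2⟩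

/-- additivity along short segments of the chart -/
lemma seg_add (P : PV D Φ L) (A : W3 ≃ₗ[ℝ] V) (x0 : ℝ × ℝ) : ∃ r > 0, ∀ y ∈ ball x0 r,
    ∀ z ∈ ball x0 r, ∀ θ ∈ Icc (0 : ℝ) 1,
      D (A (y, 1)) (A (z, 1)) = D (A (y, 1)) (A (y + θ • (z - y), 1)) +
        D (A (y + θ • (z - y), 1)) (A (z, 1)) := by
  obtain ⟨κ, hκ, hinv⟩ := P.inv_chart A x0 one_pos
  have hc : ContinuousAt (fun q : ℝ × ℝ => D (A (x0, 1)) (A (q, 1))) x0 := by
    have h2 : ContinuousAt (fun P : ℝ × ℝ => (x0, P)) x0 := by fun_prop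
    exact ContinuousAt.comp (f := fun P : ℝ × ℝ => (x0, P)) (x := x0)
      (P.cont_dA A).continuousAt h2
  have h0 : D (A (x0, 1)) (A (x0, 1)) < κ / 3 := by rw [P.self (pt_ne A _)]; positivity
  have hev : ∀ᶠ q in 𝓝 x0, D (A (x0, 1)) (A (q, 1)) < κ / 3 := hc.eventually (gt_mem_nhds h0)
  rw [Metric.eventually_nhds_iff] at hev
  obtain ⟨r, hr, hev⟩ := hev
  refine ⟨r, hr, fun y hy z hz θ hθ => ?_⟩
  by_cases hyz : y = z
  · rw [hyz, sub_self, smul_zero, add_zero, P.self (pt_ne A _)]; ring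
  have hu : z - y ≠ 0 := sub_ne_zero.2 (Ne.symm hyz)
  obtain ⟨u, hud⟩ : ∃ u, u = z - y := ⟨_, rfl⟩
  rw [← hud] at hu ⊢
  have hy' := hev hy
  have hz' := hev hz
  obtain ⟨c, s0, a, α, β, ha, haL, hα, hβ, e1, e2, h1, h3, hD⟩ := P.arc (chart_ind2 A hyz)
  have hd : D (A (y, 1)) (A (z, 1)) < 2 * κ / 3 := by
    have := P.tri _ _ _ (pt_ne A y) (pt_ne A x0) (pt_ne A z)
    rw [P.symm _ _ (pt_ne A y) (pt_ne A x0)] at this
    linarith
  have hac : ∀ η ∈ Icc (0 : ℝ) 1, D (A (y, 1)) (c (s0 + η * a)) = η * |a| := by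
    intro η hη
    rw [e1, P.inv_left (h1 _).1 (h1 _).1 hα, h3 _ _ (by
      have : s0 - (s0 + η * a) = -(η * a) := by ring
      rw [this, abs_neg, abs_mul, abs_of_nonneg hη.1]
      nlinarith [hη.2, abs_nonneg a])]
    have : s0 - (s0 + η * a) = -(η * a) := by ring
    rw [this, abs_neg, abs_mul, abs_of_nonneg hη.1]
  have hac2 : ∀ η ∈ Icc (0 : ℝ) 1, D (c (s0 + η * a)) (A (z, 1)) = (1 - η) * |a| := by
    intro η hη
    rw [e2, P.inv_right (h1 _).1 (h1 _).1 hβ, h3 _ _ (by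
      have : s0 + η * a - (s0 + a) = -((1 - η) * a) := by ring
      rw [this, abs_neg, abs_mul, abs_of_nonneg (sub_nonneg.2 hη.2)]
      nlinarith [hη.1, abs_nonneg a])]
    have : s0 + η * a - (s0 + a) = -((1 - η) * a) := by ring
    rw [this, abs_neg, abs_mul, abs_of_nonneg (sub_nonneg.2 hη.2)]
  -- coordinates of the arc
  have hco : ∀ η : ℝ, ∃ τ γ : ℝ, η ∈ Icc (0 : ℝ) 1 →
      γ ≠ 0 ∧ c (s0 + η * a) = γ • A (y + τ • u, 1) := by
    intro η
    by_cases hη : η ∈ Icc (0 : ℝ) 1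
    · obtain ⟨hne, a', b', hab⟩ := h1 (s0 + η * a)
      have hlt : D (A (x0, 1)) (c (s0 + η * a)) < κ := by
        have t1 := P.tri _ _ _ (pt_ne A x0) (pt_ne A y) hne
        rw [hac η hη] at t1
        have : η * |a| ≤ |a| := by nlinarith [hη.2, abs_nonneg a]
        linarith
      obtain ⟨q, _, γ, hγ, he⟩ := hinv _ hne hlt
      have e3 : a' • A (y, 1) + b' • A (z, 1) = (a' + b') • A (y, 1) + b' • A (u, 0) := by
        rw [hud, chart_sub]; module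
      have hsum : a' + b' ≠ 0 := by
        intro h0
        rw [hab, e3, comb, ← map_smul] at he
        have h5 := congrArg Prod.snd (A.injective he)
        simp only [Prod.smul_mk, smul_eq_mul, mul_one] at h5
        rw [h0] at h5
        exact hγ h5.symm
      refine ⟨b' / (a' + b'), a' + b', fun _ => ⟨hsum, ?_⟩⟩
      rw [hab, e3, comb' A y u b' hsum]
    · exact ⟨0, 0, fun h => absurd h hη⟩
  choose τ γ hτ using hco
  have hu' := hu
  have hτ0 : τ 0 = 0 := by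
    obtain ⟨g1, g2⟩ := hτ 0 (by simp)
    rw [zero_mul, add_zero] at g2
    have g3 : α • (γ 0 • A (y + τ 0 • u, 1)) = (1 : ℝ) • A (y + (0 : ℝ) • u, 1) := by
      rw [← g2, ← e1]; simp
    rw [smul_smul] at g3
    exact line_uniq A hu' (mul_ne_zero hα g1) g3
  have hτ1 : τ 1 = 1 := by
    obtain ⟨g1, g2⟩ := hτ 1 (by simp)
    rw [one_mul] at g2
    have g3 : β • (γ 1 • A (y + τ 1 • u, 1)) = (1 : ℝ) • A (y + (1 : ℝ) • u, 1) := by
      rw [← g2, ← e2, one_smul, one_smul, hud]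
      congr 2
      abel
    rw [smul_smul] at g3
    exact line_uniq A hu' (mul_ne_zero hβ g1) g3
  have hτc : ContinuousOn τ (Icc 0 1) := by
    intro η0 hη0
    rw [Metric.continuousWithinAt_iff]
    intro ε hε
    obtain ⟨κ', hκ', hl⟩ := P.line_cont A y u hu' (τ η0) hε
    refine ⟨min (κ' / |a|) 1, by have := abs_pos.2 ha; positivity, fun η hη hdist => ?_⟩
    obtain ⟨g1, g2⟩ := hτ η0 hη0
    obtain ⟨g3, g4⟩ := hτ η hη
    rw [Real.dist_eq] at hdist ⊢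
    have hap := abs_pos.2 ha
    have d1 : D (c (s0 + η0 * a)) (c (s0 + η * a)) = |η - η0| * |a| := by
      have e4 : s0 + η0 * a - (s0 + η * a) = -((η - η0) * a) := by ring
      have e5 : |s0 + η0 * a - (s0 + η * a)| = |η - η0| * |a| := by
        rw [e4, abs_neg, abs_mul]
      have e6 : |η - η0| ≤ 1 := (hdist.trans_le (min_le_right _ _)).le
      rw [h3 _ _ (by rw [e5]; nlinarith), e5]
    rw [g2, g4, P.inv _ _ (pt_ne A _) (pt_ne A _) _ _ g1 g3] at d1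
    have e7 : A (y + τ η • u, 1) = (1 : ℝ) • A (y, 1) + τ η • A (u, 0) := by
      rw [chart_add, one_smul]
    have := hl 1 (τ η) (by rw [← e7]; exact pt_ne A _) (by
      rw [← e7, d1]
      have := hdist.trans_le (min_le_left _ _)
      rwa [lt_div_iff₀ hap] at this)
    simpa using this.2
  obtain ⟨η, hη, hηθ⟩ := intermediate_value_Icc zero_le_one hτc
    (show θ ∈ Icc (τ 0) (τ 1) by rw [hτ0, hτ1]; exact hθ)
  obtain ⟨g1, g2⟩ := hτ η hη
  have k1 := hac η hη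
  have k2 := hac2 η hη
  rw [g2, hηθ] at k1 k2
  rw [P.inv_right (pt_ne A _) (pt_ne A _) g1] at k1
  rw [P.inv_left (pt_ne A _) (pt_ne A _) g1] at k2
  rw [k1, k2, hD]
  ring

end PV

end Pool.Agent.Helper831.PM
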