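import Pool.Agent.Helper831.PMProj1

namespace Pool.Agent.Helper831.PM

open Real Set Filter Topology Metric

namespace PV

variable {V : Type*} [NormedAddCommGroup V] [NormedSpace ℝ V] [FiniteDimensional ℝ V]
variable {D Φ : V → V → ℝ} {L : ℝ}

/-- the distance in a chart -/
def dA (D : V → V → ℝ) (A : W3 ≃ₗ[ℝ] V) (p q : ℝ × ℝ) : ℝ := D (A (p, 1)) (A (q, 1))

/-- the Finsler function in a chart -/
def FA (Φ : V → V → ℝ) (A : W3 ≃ₗ[ℝ] V) (p u : ℝ × ℝ) : ℝ := Φ (A (p, 1)) (A (u, 0))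

lemma Φ_zero (P : PV D Φ L) {x : V} (hx : x ≠ 0) (b : ℝ) : Φ x (b • x) = 0 := by
  have h1 := P.Fscale x 0 hx 1 b one_ne_zero
  have h2 := P.Fhom x 0 hx 0
  rw [zero_smul, abs_zero, zero_mul] at h2
  rw [one_smul, one_smul, zero_add, h2] at h1
  exact h1

lemma Φ_nonneg (P : PV D Φ L) {x : V} (hx : x ≠ 0) (v : V) : 0 ≤ Φ x v := by
  by_cases h : ∃ a : ℝ, v = a • x
  · obtain ⟨a, rfl⟩ := h
    rw [P.Φ_zero hx]
  · exact (P.Fpos x v hx h).le

lemma FA_norm (P : PV D Φ L) (A : W3 ≃ₗ[ℝ] V) (p : ℝ × ℝ) : PNorm (FA Φ A p) := by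
  refine ⟨fun u hu => P.Fpos _ _ (pt_ne A p) ?_, fun c u => ?_, fun u v => ?_⟩
  · rintro ⟨a, ha⟩
    have h1 : (-a) • A (p, 1) + (1 : ℝ) • A (u, 0) = 0 := by rw [ha]; module
    exact one_ne_zero (chart_ind A p hu _ _ h1).2
  · show Φ (A (p, 1)) (A (c • u, 0)) = |c| * Φ (A (p, 1)) (A (u, 0))
    rw [← P.Fhom _ _ (pt_ne A p), ← map_smul]
    congr 2
    ext <;> simp
  · show Φ (A (p, 1)) (A (u + v, 0)) ≤ Φ (A (p, 1)) (A (u, 0)) + Φ (A (p, 1)) (A (v, 0))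
    refine le_trans (le_of_eq ?_) (P.Ftri _ _ _ (pt_ne A p))
    rw [← map_add]
    congr 2
    ext <;> simp

lemma FA_cont (P : PV D Φ L) (A : W3 ≃ₗ[ℝ] V) :
    ContinuousOn (fun p : (ℝ × ℝ) × (ℝ × ℝ) => FA Φ A p.1 p.2) (univ ×ˢ univ) := by
  have hA : Continuous A := LinearMap.continuous_of_finiteDimensional A.toLinearMap
  have c : ContinuousOn (fun p : (ℝ × ℝ) × (ℝ × ℝ) => (A (p.1, 1), A (p.2, 0)))
      (univ ×ˢ univ) := by
    refine Continuous.continuousOn ?_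
    exact (hA.comp (by fun_prop)).prodMk (hA.comp (by fun_prop))
  exact ContinuousOn.comp (t := {x : V | x ≠ 0} ×ˢ univ)
    (g := fun p : V × V => Φ p.1 p.2) P.Fcont c (fun p _ => ⟨pt_ne A _, mem_univ _⟩)

lemma hup (P : PV D Φ L) (A : W3 ≃ₗ[ℝ] V) (a b : ℝ × ℝ) :
    dA D A a b ≤ ∫ t in (0 : ℝ)..1, FA Φ A (a + t • (b - a)) (b - a) := by
  have hder : ∀ t : ℝ, HasDerivAt (fun t : ℝ => A (a, 1) + t • A (b - a, 0)) (A (b - a, 0)) t := by
    intro t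
    have h := ((hasDerivAt_id t).smul_const (A (b - a, 0))).const_add (A (a, 1))
    simpa using h
  refine (P.len _ _ (pt_ne A a) (pt_ne A b)).1
    ⟨fun t => A (a, 1) + t • A (b - a, 0), by fun_prop, ?_, ⟨1, one_ne_zero, by simp⟩,
      ⟨1, one_ne_zero, ?_⟩, ?_⟩
  · intro t _
    show A (a, 1) + t • A (b - a, 0) ≠ 0
    rw [← chart_add]; exact pt_ne A _
  · show A (a, 1) + (1 : ℝ) • A (b - a, 0) = (1 : ℝ) • A (b, 1)
    rw [← chart_add, one_smul, one_smul]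
    congr 2
    abel
  · refine intervalIntegral.integral_congr fun t _ => ?_
    show FA Φ A (a + t • (b - a)) (b - a) =
      Φ (A (a, 1) + t • A (b - a, 0)) (deriv (fun t : ℝ => A (a, 1) + t • A (b - a, 0)) t)
    rw [(hder t).deriv, ← chart_add]
    rfl

lemma hlow (P : PV D Φ L) (A : W3 ≃ₗ[ℝ] V) (x0 : ℝ × ℝ) {ρ : ℝ} (hρ : 0 < ρ) {a b : ℝ × ℝ}
    (ha : a ∈ ball x0 ρ) (hb : b ∈ ball x0 ρ) {ε : ℝ} (hε : 0 < ε) :
    Piece (FA Φ A) x0 ρ a b (dA D A a b + ε) := by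
  obtain ⟨l, ⟨Γ, hΓ, hΓ0, ⟨α, hα, e0⟩, ⟨β, hβ, e1⟩, hl⟩, _, hlt⟩ :=
    (P.len _ _ (pt_ne A a) (pt_ne A b)).exists_between
      (lt_add_of_pos_right (D (A (a, 1)) (A (b, 1))) hε)
  set B : V →L[ℝ] W3 := LinearMap.toContinuousLinearMap A.symm.toLinearMap with hB
  have hBA : ∀ y, B y = A.symm y := fun y => rfl
  have hΓd : ∀ t, HasDerivAt Γ (deriv Γ t) t := fun t =>
    (hΓ.differentiable one_ne_zero t).hasDerivAt
  have hΓc : Continuous Γ := hΓ.continuous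
  have hΓc' : Continuous (deriv Γ) := hΓ.continuous_deriv le_rfl
  set G : ℝ → W3 := fun t => B (Γ t) with hG
  set G' : ℝ → W3 := fun t => B (deriv Γ t) with hG'
  have hGc : Continuous G := B.continuous.comp hΓc
  have hGc' : Continuous G' := B.continuous.comp hΓc'
  have hGd : ∀ t, HasDerivAt G (G' t) t := fun t => B.hasFDerivAt.comp_hasDerivAt t (hΓd t)
  have hwd : ∀ t, HasDerivAt (fun t => (G t).1) (G' t).1 t := fun t =>
    (hasFDerivAt_fst (𝕜 := ℝ) (E := ℝ × ℝ) (F := ℝ) (p := G t)).comp_hasDerivAt t (hGd t)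
  have hsd : ∀ t, HasDerivAt (fun t => (G t).2) (G' t).2 t := fun t =>
    (hasFDerivAt_snd (𝕜 := ℝ) (E := ℝ × ℝ) (F := ℝ) (p := G t)).comp_hasDerivAt t (hGd t)
  have hΓG : ∀ t, Γ t = A (G t) := fun t => by
    show Γ t = A (A.symm (Γ t)); rw [A.apply_symm_apply]
  have hΓG' : ∀ t, deriv Γ t = A (G' t) := fun t => by
    show deriv Γ t = A (A.symm (deriv Γ t)); rw [A.apply_symm_apply]
  have hG0 : G 0 = (α • a, α) := by
    show A.symm (Γ 0) = _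
    rw [e0, map_smul, A.symm_apply_apply]
    ext <;> simp
  have hG1 : G 1 = (β • b, β) := by
    show A.symm (Γ 1) = _
    rw [e1, map_smul, A.symm_apply_apply]
    ext <;> simp
  set g : ℝ → ℝ := fun t => ‖(G t).1 - (G t).2 • x0‖ - ρ * |(G t).2| with hg
  have hgc : ContinuousOn g (Icc 0 1) := by
    refine Continuous.continuousOn ?_
    simp only [hg]; fun_prop
  have hg0 : g 0 < 0 := by
    simp only [hg]
    rw [hG0]
    show ‖α • a - α • x0‖ - ρ * |α| < 0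
    rw [← smul_sub, norm_smul, Real.norm_eq_abs]
    rw [mem_ball, dist_eq_norm] at ha
    have := abs_pos.2 hα
    nlinarith
  -- nonvanishing of the last coordinate
  have hs : ∀ t ∈ Icc (0 : ℝ) 1, g t ≤ 0 → (G t).2 ≠ 0 := by
    intro t ht hgt h0
    have h1 : ‖(G t).1 - (G t).2 • x0‖ - ρ * |(G t).2| ≤ 0 := hgt
    rw [h0, zero_smul, sub_zero, abs_zero, mul_zero, sub_zero] at h1
    have h2 : (G t).1 = 0 := norm_le_zero_iff.1 h1
    have h3 : G t = 0 := Prod.ext h2 h0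
    apply hΓ0 t ht
    rw [hΓG, h3, map_zero]
  have hin : ∀ t ∈ Icc (0 : ℝ) 1, g t ≤ 0 → ((G t).2)⁻¹ • (G t).1 ∈ closedBall x0 ρ := by
    intro t ht hgt
    have hs0 := hs t ht hgt
    rw [mem_closedBall, dist_eq_norm]
    have e : ((G t).2)⁻¹ • (G t).1 - x0 = ((G t).2)⁻¹ • ((G t).1 - (G t).2 • x0) := by
      rw [smul_sub, smul_smul, inv_mul_cancel₀ hs0, one_smul]
    have h1 : ‖(G t).1 - (G t).2 • x0‖ - ρ * |(G t).2| ≤ 0 := hgt
    rw [e, norm_smul, norm_inv, Real.norm_eq_abs, inv_mul_le_iff₀ (abs_pos.2 hs0)]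
    linarith
  set γ : ℝ → ℝ × ℝ := fun t => ((G t).2)⁻¹ • (G t).1 with hγ
  set γ' : ℝ → ℝ × ℝ := fun t =>
    ((G t).2)⁻¹ • (G' t).1 + (-(G' t).2 / (G t).2 ^ 2) • (G t).1 with hγ'
  have hγd : ∀ t ∈ Icc (0 : ℝ) 1, g t ≤ 0 → HasDerivAt γ (γ' t) t := by
    intro t ht hgt
    exact ((hsd t).inv (hs t ht hgt)).smul (hwd t)
  have hFeq : ∀ t ∈ Icc (0 : ℝ) 1, g t ≤ 0 → FA Φ A (γ t) (γ' t) = Φ (Γ t) (deriv Γ t) := by
    intro t ht hgt
    have hs0 := hs t ht hgt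
    have h1 := P.Fscale (A (γ t, 1)) (A (γ' t, 0)) (pt_ne A _) (G t).2 (G' t).2 hs0
    have e2 : Γ t = (G t).2 • A (γ t, 1) := by
      rw [hΓG, ← map_smul]
      congr 1
      ext
      · simp [hγ, hs0]
      · simp [hγ, hs0]
      · simp
    have e3 : deriv Γ t = (G t).2 • A (γ' t, 0) + (G' t).2 • A (γ t, 1) := by
      rw [hΓG', ← map_smul, ← map_smul, ← map_add]
      congr 1
      refine Prod.ext ?_ ?_
      · show (G' t).1 = (G t).2 • γ' t + (G' t).2 • γ t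
        simp only [hγ, hγ']
        rw [smul_add, smul_smul, smul_smul, smul_smul, mul_inv_cancel₀ hs0, one_smul, add_assoc,
          ← add_smul]
        have : (G t).2 * (-(G' t).2 / (G t).2 ^ 2) + (G' t).2 * ((G t).2)⁻¹ = 0 := by
          field_simp; ring
        rw [this, zero_smul, add_zero]
      · show (G' t).2 = (G t).2 * 0 + (G' t).2 * 1
        ring
    rw [e2, e3, h1]
    rfl
  have hint : ∀ T ∈ Icc (0 : ℝ) 1, (∀ t ∈ Icc 0 T, g t ≤ 0) →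
      ∫ t in (0 : ℝ)..T, FA Φ A (γ t) (γ' t) ≤ D (A (a, 1)) (A (b, 1)) + ε := by
    intro T hT hgT
    have e4 : ∫ t in (0 : ℝ)..T, FA Φ A (γ t) (γ' t) = ∫ t in (0 : ℝ)..T, Φ (Γ t) (deriv Γ t) := by
      refine intervalIntegral.integral_congr fun t ht => ?_
      rw [uIcc_of_le hT.1] at ht
      exact hFeq t ⟨ht.1, ht.2.trans hT.2⟩ (hgT t ht)
    rw [e4]
    refine le_trans ?_ hlt.le
    rw [hl]
    have hFc : ContinuousOn (fun t => Φ (Γ t) (deriv Γ t)) (Icc 0 1) := by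
      have c : ContinuousOn (fun t => (Γ t, deriv Γ t)) (Icc 0 1) :=
        (hΓc.prodMk hΓc').continuousOn
      exact ContinuousOn.comp (t := {x : V | x ≠ 0} ×ˢ univ)
        (g := fun p : V × V => Φ p.1 p.2) P.Fcont c (fun t ht => ⟨hΓ0 t ht, mem_univ _⟩)
    have i1 : IntervalIntegrable (fun t => Φ (Γ t) (deriv Γ t)) MeasureTheory.volume 0 1 := by
      rw [← uIcc_of_le (zero_le_one' ℝ)] at hFc
      exact hFc.intervalIntegrable
    refine intervalIntegral.integral_mono_interval le_rfl hT.1 hT.2 ?_ i1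
    rw [Filter.EventuallyLE, MeasureTheory.ae_restrict_iff' measurableSet_Ioc]
    exact Filter.Eventually.of_forall fun t ht =>
      P.Φ_nonneg (hΓ0 t ⟨ht.1.le, ht.2⟩) _
  have hcγ' : ∀ T ∈ Icc (0 : ℝ) 1, (∀ t ∈ Icc 0 T, g t ≤ 0) → ContinuousOn γ' (Icc 0 T) := by
    intro T hT hgT t ht
    have hs0 := hs t ⟨ht.1, ht.2.trans hT.2⟩ (hgT t ht)
    have c1 : ContinuousAt (fun t => (G t).2) t := (continuous_snd.comp hGc).continuousAt
    have c2 : ContinuousAt (fun t => (G t).1) t := (continuous_fst.comp hGc).continuousAt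
    have c3 : ContinuousAt (fun t => (G' t).2) t := (continuous_snd.comp hGc').continuousAt
    have c4 : ContinuousAt (fun t => (G' t).1) t := (continuous_fst.comp hGc').continuousAt
    exact (((c1.inv₀ hs0).smul c4).add
      ((c3.neg.div (c1.pow 2) (pow_ne_zero 2 hs0)).smul c2)).continuousWithinAt
  have hγ0 : γ 0 = a := by
    show ((G 0).2)⁻¹ • (G 0).1 = a
    rw [hG0]
    show α⁻¹ • (α • a) = a
    rw [smul_smul, inv_mul_cancel₀ hα, one_smul]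
  rcases first_exit hgc hg0 with h | ⟨T, hT, hgT, hle⟩
  · refine ⟨1, γ, γ', zero_le_one, hγ0, Or.inl ?_, fun t ht => hγd t ht (h t ht).le,
      hcγ' 1 (by simp) (fun t ht => (h t ht).le), fun t ht => hin t ht (h t ht).le,
      hint 1 (by simp) (fun t ht => (h t ht).le)⟩
    show ((G 1).2)⁻¹ • (G 1).1 = b
    rw [hG1]
    show β⁻¹ • (β • b) = b
    rw [smul_smul, inv_mul_cancel₀ hβ, one_smul]
  · have hsub : ∀ t ∈ Icc 0 T, t ∈ Icc (0 : ℝ) 1 := fun t ht => ⟨ht.1, ht.2.trans hT.2⟩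
    refine ⟨T, γ, γ', hT.1, hγ0, Or.inr ?_, fun t ht => hγd t (hsub t ht) (hle t ht),
      hcγ' T hT hle, fun t ht => hin t (hsub t ht) (hle t ht), hint T hT hle⟩
    have hs0 := hs T hT hgT.le
    have h1 : ‖(G T).1 - (G T).2 • x0‖ - ρ * |(G T).2| = 0 := hgT
    show ρ ≤ ‖((G T).2)⁻¹ • (G T).1 - x0‖
    have e : ((G T).2)⁻¹ • (G T).1 - x0 = ((G T).2)⁻¹ • ((G T).1 - (G T).2 • x0) := by
      rw [smul_sub, smul_smul, inv_mul_cancel₀ hs0, one_smul]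
    rw [e, norm_smul, norm_inv, Real.norm_eq_abs, le_inv_mul_iff₀ (abs_pos.2 hs0)]
    linarith

lemma nearA (P : PV D Φ L) (A : W3 ≃ₗ[ℝ] V) (x0 : ℝ × ℝ) {ε : ℝ} (hε : 0 < ε) :
    ∃ δ > 0, ball x0 δ ⊆ univ ∧ ∀ a ∈ ball x0 δ, ∀ b ∈ ball x0 δ,
      |dA D A a b - FA Φ A x0 (b - a)| ≤ ε * ‖b - a‖ :=
  near_of_piece isOpen_univ (fun x _ => P.FA_norm A x) (P.FA_cont A) (mem_univ x0)
    (fun _ hρ _ _ ha _ hb _ he => P.hlow A x0 hρ ha hb he) (fun a b _ => P.hup A a b) hε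

lemma intA (P : PV D Φ L) (A : W3 ≃ₗ[ℝ] V) (x0 : ℝ × ℝ) : ∃ r > 0, ∀ y ∈ ball x0 r,
    ∀ z ∈ ball x0 r, dA D A y z = ∫ t in (0 : ℝ)..1, FA Φ A (y + t • (z - y)) (z - y) := by
  obtain ⟨r, hr, hadd⟩ := P.seg_add A x0
  refine ⟨r, hr, fun y hy z hz => ?_⟩
  refine int_rep (M := univ) (fun x _ => P.FA_norm A x) (P.FA_cont A)
    (fun x _ => P.self (pt_ne A x)) (fun x _ ε hε => P.nearA A x hε) (subset_univ _)
    fun s t hs hst ht => ?_
  rcases eq_or_lt_of_le (hs.trans hst) with h0 | h0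
  · have h1 : s = 0 := le_antisymm (by rw [h0]; exact hst) hs
    rw [h1, ← h0, zero_smul, add_zero]
    have : dA D A y y = 0 := P.self (pt_ne A y)
    rw [this, add_zero]
  · have hm : y + t • (z - y) ∈ ball x0 r := Geo.seg_mem hy hz h0.le ht
    have := hadd y hy _ hm (s / t) ⟨div_nonneg hs h0.le, (div_le_one h0).2 hst⟩
    rw [add_sub_cancel_left, smul_smul, div_mul_cancel₀ _ h0.ne'] at this
    exact this

end PV

end Pool.Agent.Helper831.PM
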