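import Pool.Agent.Helper831.PMProj2

namespace Pool.Agent.Helper831.PM

open Real Set Filter Topology Metric

namespace PV

variable {V : Type*} [NormedAddCommGroup V] [NormedSpace ℝ V] [FiniteDimensional ℝ V]
variable {D Φ : V → V → ℝ} {L : ℝ}

lemma ind_of_ne (P : PV D Φ L) {x y : V} (hx : x ≠ 0) (hy : y ≠ 0) (h : D x y ≠ 0) :
    Ind x y := by
  intro a b hab
  have hb : b = 0 := by
    by_contra hb
    apply h
    rw [P.zero_iff x y hx hy]
    refine ⟨-(a / b), ?_⟩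
    have : b • y = b • (-(a / b) • x) := by
      rw [smul_smul, mul_neg, mul_div_cancel₀ _ hb]
      have := eq_neg_of_add_eq_zero_right hab
      rw [this, neg_smul]
    exact smul_right_injective _ hb this
  rw [hb, zero_smul, add_zero, smul_eq_zero] at hab
  exact ⟨hab.resolve_right hx, hb⟩

/-- points on the circle are not interior points of the disc -/
lemma beyondV (P : PV D Φ L) (B : W3 ≃ₗ[ℝ] V) {x : V} (hx : x ≠ 0) {r : ℝ} (hr : 0 < r)
    (hrL : r < L / 2) {p0 : ℝ × ℝ} (hp : D x (B (p0, 1)) = r) :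
    p0 ∉ interior {p : ℝ × ℝ | D x (B (p, 1)) ≤ r} := by
  intro hint
  rw [mem_interior_iff_mem_nhds, Metric.mem_nhds_iff] at hint
  obtain ⟨ρ, hρ, hsub⟩ := hint
  obtain ⟨κ, hκ, hinv⟩ := P.inv_chart B p0 hρ
  obtain ⟨c, s0, a, α, β, ha, haL, hα, hβ, e1, e2, h1, h3, hD⟩ :=
    P.arc (P.ind_of_ne hx (pt_ne B p0) (by rw [hp]; exact hr.ne'))
  have har : |a| = r := by rw [← hD, hp]
  obtain ⟨ε, hε, hε1, hε2⟩ : ∃ ε > 0, ε * r < κ ∧ r * (1 + ε) ≤ L / 2 := by
    refine ⟨min (κ / (2 * r)) ((L / 2 - r) / r), ?_, ?_, ?_⟩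
    · have : 0 < L / 2 - r := by linarith
      positivity
    · calc min (κ / (2 * r)) ((L / 2 - r) / r) * r ≤ κ / (2 * r) * r := by
            gcongr; exact min_le_left _ _
        _ = κ / 2 := by field_simp
        _ < κ := by linarith
    · have : r * min (κ / (2 * r)) ((L / 2 - r) / r) ≤ r * ((L / 2 - r) / r) := by
        gcongr; exact min_le_right _ _
      have e : r * ((L / 2 - r) / r) = L / 2 - r := by field_simp
      rw [e] at this
      linarith
  set y := c (s0 + a * (1 + ε)) with hy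
  have hy0 : y ≠ 0 := (h1 _).1
  have d1 : D x y = r * (1 + ε) := by
    have e3 : |s0 - (s0 + a * (1 + ε))| = r * (1 + ε) := by
      have : s0 - (s0 + a * (1 + ε)) = -(a * (1 + ε)) := by ring
      rw [this, abs_neg, abs_mul, har, abs_of_pos (by linarith)]
    rw [e1, P.inv_left (h1 _).1 hy0 hα, hy, h3 _ _ (by rw [e3]; exact hε2), e3]
  have d2 : D (B (p0, 1)) y = ε * r := by
    have e3 : |s0 + a - (s0 + a * (1 + ε))| = ε * r := by
      have : s0 + a - (s0 + a * (1 + ε)) = -(ε * a) := by ring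
      rw [this, abs_neg, abs_mul, har, abs_of_pos hε]
    rw [e2, P.inv_left (h1 _).1 hy0 hβ, hy, h3 _ _ (by rw [e3]; nlinarith), e3]
  obtain ⟨q, hq, γ, hγ, hyq⟩ := hinv y hy0 (by rw [d2]; exact hε1)
  have h5 : D x (B (q, 1)) ≤ r := hsub hq
  rw [hyq, P.inv_right hx (pt_ne B q) hγ] at d1
  nlinarith

lemma chart_coord (B : W3 ≃ₗ[ℝ] V) {y : V} (h : (B.symm y).2 ≠ 0) :
    y = (B.symm y).2 • B (((B.symm y).2)⁻¹ • (B.symm y).1, 1) := by
  rw [← map_smul]
  have : (B.symm y).2 • ((((B.symm y).2)⁻¹ • (B.symm y).1, 1) : W3) = B.symm y := by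
    ext
    · simp [h]
    · simp [h]
    · simp
  rw [this, B.apply_symm_apply]

/-- supporting lines of circles -/
lemma supportV (P : PV D Φ L) {x o : V} (hx : x ≠ 0) (ho : o ≠ 0) (hpos : 0 < D x o)
    (hlt : D x o < L / 2) :
    ∃ v : V, Ind o v ∧ ∀ a b : ℝ, a • o + b • v ≠ 0 → D x (a • o + b • v) ≤ D x o → b = 0 := by
  obtain ⟨B, hB1, hB2⟩ := P.disc x hx (D x o) hlt
  have hβ := hB1 o ho le_rfl
  have hβ' := hB1 x hx (by rw [P.self hx]; exact hpos.le)
  have eo := chart_coord B hβ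
  have ex := chart_coord B hβ'
  set β := (B.symm o).2 with hβd
  set p0 := β⁻¹ • (B.symm o).1 with hp0
  set β' := (B.symm x).2 with hβ'd
  set x0 := β'⁻¹ • (B.symm x).1 with hx0
  have hDp : D x (B (p0, 1)) = D x o := by
    conv_rhs => rw [eo]
    rw [P.inv_right hx (pt_ne B p0) hβ]
  have hDx : D x (B (x0, 1)) = 0 := by
    have := P.self hx
    conv_lhs at this => rw [ex]
    rw [P.inv (B (x0, 1)) (B (x0, 1)) (pt_ne B _) (pt_ne B _) β' β' hβ' hβ'] at this
    rw [ex, P.inv_left (pt_ne B _) (pt_ne B _) hβ']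
    exact this
  have hcont : Continuous fun p : ℝ × ℝ => D x (B (p, 1)) := by
    have hBc : Continuous B := LinearMap.continuous_of_finiteDimensional B.toLinearMap
    rw [← continuousOn_univ]
    exact ContinuousOn.comp (t := {y : V | y ≠ 0}) (P.cont_right hx)
      (hBc.comp (by fun_prop : Continuous fun p : ℝ × ℝ => ((p, 1) : W3))).continuousOn
      (fun p _ => pt_ne B p)
  have hxi : x0 ∈ interior {p : ℝ × ℝ | D x (B (p, 1)) ≤ D x o} := by
    rw [mem_interior]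
    refine ⟨{p : ℝ × ℝ | D x (B (p, 1)) < D x o}, fun p hp => ?_,
      isOpen_lt hcont continuous_const, ?_⟩
    · have hp' : D x (B (p, 1)) < D x o := hp
      exact hp'.le
    · show D x (B (x0, 1)) < D x o
      rw [hDx]; exact hpos
  obtain ⟨v2, hv2, hsup⟩ := support_of_strictConvex hB2 (o := p0) (x := x0) hDp.le hxi
    (P.beyondV B hx hpos hlt hDp)
  have hcomb : ∀ a b : ℝ, a • o + b • B (v2, 0) = (a * β) • B (p0, 1) + b • B (v2, 0) := by
    intro a b
    conv_lhs => rw [eo]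
    rw [smul_smul]
  refine ⟨B (v2, 0), ?_, ?_⟩
  · intro a b hab
    rw [hcomb] at hab
    have := chart_ind B p0 hv2 _ _ hab
    exact ⟨(mul_eq_zero.1 this.1).resolve_right hβ, this.2⟩
  · intro a b hne hle
    by_contra hb
    have h1 := hB1 _ hne hle
    rw [hcomb, comb, B.symm_apply_apply] at h1
    have h1' : a * β ≠ 0 := h1
    rw [hcomb, comb' B p0 v2 b h1', P.inv_right hx (pt_ne B _) h1'] at hle
    exact hsup (b / (a * β)) (div_ne_zero hb h1') hle

lemma dA_cont (P : PV D Φ L) (A : W3 ≃ₗ[ℝ] V) :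
    Continuous fun p : (ℝ × ℝ) × (ℝ × ℝ) => dA D A p.1 p.2 := P.cont_dA A

lemma dA_le (P : PV D Φ L) (A : W3 ≃ₗ[ℝ] V) (X O : ℝ × ℝ) : dA D A X O ≤ L / 2 := by
  have hL := P.hL
  by_cases h : X = O
  · rw [h]
    have : dA D A O O = 0 := P.self (pt_ne A O)
    rw [this]; positivity
  · obtain ⟨c, s0, a, α, β, ha, haL, hα, hβ, e1, e2, h1, h3, hD⟩ := P.arc (chart_ind2 A h)
    show D (A (X, 1)) (A (O, 1)) ≤ L / 2
    rw [hD]; exact haL

lemma dA_pos (P : PV D Φ L) (A : W3 ≃ₗ[ℝ] V) {X O : ℝ × ℝ} (h : X ≠ O) : 0 < dA D A X O := by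
  obtain ⟨c, s0, a, α, β, ha, haL, hα, hβ, e1, e2, h1, h3, hD⟩ := P.arc (chart_ind2 A h)
  show 0 < D (A (X, 1)) (A (O, 1))
  rw [hD]; exact abs_pos.2 ha

lemma sd_lt (P : PV D Φ L) (A : W3 ≃ₗ[ℝ] V) {X O : ℝ × ℝ} (hpos : 0 < dA D A X O)
    (hlt : dA D A X O < L / 2) :
    ∃ u : ℝ × ℝ, ‖u‖ = 1 ∧ ∀ t : ℝ, dA D A X O ≤ dA D A X (O + t • u) := by
  obtain ⟨v, hv, hsup⟩ := P.supportV (pt_ne A X) (pt_ne A O) hpos hlt
  obtain ⟨v2, s, hvs⟩ : ∃ v2 s, A.symm v = (v2, s) := ⟨_, _, rfl⟩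
  have ev : v = A (v2, s) := by rw [← hvs, A.apply_symm_apply]
  set w := v2 - s • O with hw
  have ew : A (w, 0) = v - s • A (O, 1) := by
    rw [ev, ← map_smul, ← map_sub]
    congr 1
    ext <;> simp [hw]
  have hw0 : w ≠ 0 := by
    intro h
    rw [h] at ew
    have e0 : A ((0 : ℝ × ℝ), (0 : ℝ)) = 0 := map_zero A
    rw [e0] at ew
    have h1 : (-s) • A (O, 1) + (1 : ℝ) • v = 0 := by
      have : v = s • A (O, 1) := (sub_eq_zero.1 ew.symm)
      rw [this]; module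
    exact one_ne_zero (hv _ _ h1).2
  have hn : 0 < ‖w‖ := norm_pos_iff.2 hw0
  refine ⟨‖w‖⁻¹ • w, by rw [norm_smul, norm_inv, norm_norm, inv_mul_cancel₀ hn.ne'], fun t => ?_⟩
  by_contra hcon
  push Not at hcon
  rw [smul_smul] at hcon
  set t' := t * ‖w‖⁻¹ with ht'
  have e : A (O + t' • w, 1) = (1 - t' * s) • A (O, 1) + t' • v := by
    rw [chart_add, ew]; module
  have hcon' : D (A (X, 1)) (A (O + t' • w, 1)) < D (A (X, 1)) (A (O, 1)) := hcon
  have hne : (1 - t' * s) • A (O, 1) + t' • v ≠ 0 := by rw [← e]; exact pt_ne A _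
  rw [e] at hcon'
  have h0 := hsup _ _ hne hcon'.le
  rw [h0] at hcon'
  simp only [zero_mul, sub_zero, one_smul, zero_smul, add_zero] at hcon'
  exact lt_irrefl _ hcon'

lemma sd (P : PV D Φ L) (A : W3 ≃ₗ[ℝ] V) {X O : ℝ × ℝ} (hne : X ≠ O) :
    ∃ u : ℝ × ℝ, u ≠ 0 ∧ ∀ t : ℝ, dA D A X O ≤ dA D A X (O + t • u) := by
  have hpos := P.dA_pos A hne
  have hL := P.hL
  rcases lt_or_eq_of_le (P.dA_le A X O) with hlt | heq
  · obtain ⟨u, hu, h⟩ := P.sd_lt A hpos hlt
    refine ⟨u, ?_, h⟩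
    rintro rfl
    rw [norm_zero] at hu
    norm_num at hu
  -- the limiting case
  have hnear : ∀ n : ℕ, ∃ q ∈ ball O (1 / ((n : ℝ) + 1)), 0 < dA D A X q ∧ dA D A X q < L / 2 := by
    intro n
    obtain ⟨κ, hκ, hinv⟩ := P.inv_chart A O (ρ := 1 / ((n : ℝ) + 1)) (by positivity)
    obtain ⟨c, s0, a, α, β, ha, haL, hα, hβ, e1, e2, h1, h3, hD⟩ := P.arc (chart_ind2 A hne)
    have har : |a| = L / 2 := by rw [← hD]; exact heq
    obtain ⟨ε, hε, hε1, hε2⟩ : ∃ ε > 0, ε * |a| < κ ∧ ε < 1 := by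
      refine ⟨min (κ / (2 * |a|)) (1 / 2), ?_, ?_, ?_⟩
      · have := abs_pos.2 ha; positivity
      · have hap := abs_pos.2 ha
        calc min (κ / (2 * |a|)) (1 / 2) * |a| ≤ κ / (2 * |a|) * |a| := by
              gcongr; exact min_le_left _ _
          _ = κ / 2 := by field_simp
          _ < κ := by linarith
      · exact (min_le_right _ _).trans_lt (by norm_num)
    set y := c (s0 + a * (1 - ε)) with hy
    have hy0 : y ≠ 0 := (h1 _).1
    have d1 : D (A (X, 1)) y = |a| * (1 - ε) := by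
      have e3 : |s0 - (s0 + a * (1 - ε))| = |a| * (1 - ε) := by
        have : s0 - (s0 + a * (1 - ε)) = -(a * (1 - ε)) := by ring
        rw [this, abs_neg, abs_mul, abs_of_pos (by linarith : 0 < 1 - ε)]
      rw [e1, P.inv_left (h1 _).1 hy0 hα, hy, h3 _ _ (by
        rw [e3]; nlinarith [abs_nonneg a]), e3]
    have d2 : D (A (O, 1)) y = ε * |a| := by
      have e3 : |s0 + a - (s0 + a * (1 - ε))| = ε * |a| := by
        have : s0 + a - (s0 + a * (1 - ε)) = ε * a := by ring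
        rw [this, abs_mul, abs_of_pos hε]
      rw [e2, P.inv_left (h1 _).1 hy0 hβ, hy, h3 _ _ (by
        rw [e3]; nlinarith [abs_nonneg a]), e3]
    obtain ⟨q, hq, γ, hγ, hyq⟩ := hinv y hy0 (by rw [d2]; exact hε1)
    refine ⟨q, hq, ?_, ?_⟩
    · show 0 < D (A (X, 1)) (A (q, 1))
      rw [hyq, P.inv_right (pt_ne A X) (pt_ne A q) hγ] at d1
      rw [d1]
      exact mul_pos (abs_pos.2 ha) (by linarith)
    · show D (A (X, 1)) (A (q, 1)) < L / 2
      rw [hyq, P.inv_right (pt_ne A X) (pt_ne A q) hγ] at d1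
      rw [d1, har]
      nlinarith
  choose q hq hq1 hq2 using hnear
  have hex : ∀ n, ∃ u : ℝ × ℝ, ‖u‖ = 1 ∧ ∀ t : ℝ, dA D A X (q n) ≤ dA D A X (q n + t • u) :=
    fun n => P.sd_lt A (hq1 n) (hq2 n)
  choose u hu1 hu2 using hex
  obtain ⟨u0, hu0, φ, hφ, hlim⟩ := (isCompact_sphere (0 : ℝ × ℝ) 1).tendsto_subseq
    (x := u) (fun n => by rw [mem_sphere_zero_iff_norm]; exact hu1 n)
  have hqlim : Tendsto q atTop (𝓝 O) := by
    rw [tendsto_iff_dist_tendsto_zero]
    refine squeeze_zero (fun _ => dist_nonneg) (fun n => (mem_ball.1 (hq n)).le) ?_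
    exact tendsto_one_div_add_atTop_nhds_zero_nat
  have hqφ : Tendsto (fun n => q (φ n)) atTop (𝓝 O) := hqlim.comp hφ.tendsto_atTop
  refine ⟨u0, ?_, fun t => ?_⟩
  · rintro rfl
    simp at hu0
  · have c := P.dA_cont A
    have l1 : Tendsto (fun n => dA D A X (q (φ n))) atTop (𝓝 (dA D A X O)) := by
      have := (c.tendsto (X, O)).comp (tendsto_const_nhds.prodMk_nhds hqφ)
      exact this
    have l2 : Tendsto (fun n => dA D A X (q (φ n) + t • u (φ n))) atTop
        (𝓝 (dA D A X (O + t • u0))) := by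
      have h2 : Tendsto (fun n => q (φ n) + t • u (φ n)) atTop (𝓝 (O + t • u0)) :=
        hqφ.add (hlim.const_smul t)
      have := (c.tendsto (X, O + t • u0)).comp (tendsto_const_nhds.prodMk_nhds h2)
      exact this
    exact le_of_tendsto_of_tendsto' l1 l2 fun n => hu2 (φ n) t

lemma ap (P : PV D Φ L) (A : W3 ≃ₗ[ℝ] V) {X O : ℝ × ℝ} (hne : X ≠ O) {δ : ℝ} (hδ : 0 < δ) :
    ∃ t : ℝ, t ≠ 0 ∧ |t| < δ ∧
      dA D A X O = dA D A X (O + t • (X - O)) + dA D A (O + t • (X - O)) O := by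
  have hu : X - O ≠ 0 := sub_ne_zero.2 hne
  obtain ⟨κ, hκ, hl⟩ := P.line_cont A O (X - O) hu 0 hδ
  obtain ⟨c, s0, a, α, β, ha, haL, hα, hβ, e1, e2, h1, h3, hD⟩ := P.arc (chart_ind2 A hne)
  have hap := abs_pos.2 ha
  obtain ⟨ε, hε, hε1, hε2⟩ : ∃ ε > 0, ε * |a| < κ ∧ ε < 1 := by
    refine ⟨min (κ / (2 * |a|)) (1 / 2), by positivity, ?_, ?_⟩
    · calc min (κ / (2 * |a|)) (1 / 2) * |a| ≤ κ / (2 * |a|) * |a| := by
            gcongr; exact min_le_left _ _
        _ = κ / 2 := by field_simp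
        _ < κ := by linarith
    · exact (min_le_right _ _).trans_lt (by norm_num)
  obtain ⟨y, hy⟩ : ∃ y, y = c (s0 + a * (1 - ε)) := ⟨_, rfl⟩
  have hy0 : y ≠ 0 := by rw [hy]; exact (h1 _).1
  have d1 : D (A (X, 1)) y = |a| * (1 - ε) := by
    have e3 : |s0 - (s0 + a * (1 - ε))| = |a| * (1 - ε) := by
      have : s0 - (s0 + a * (1 - ε)) = -(a * (1 - ε)) := by ring
      rw [this, abs_neg, abs_mul, abs_of_pos (by linarith : 0 < 1 - ε)]
    rw [e1, P.inv_left (h1 _).1 hy0 hα, hy, h3 _ _ (by rw [e3]; nlinarith), e3]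
  have d2 : D (A (O, 1)) y = ε * |a| := by
    have e3 : |s0 + a - (s0 + a * (1 - ε))| = ε * |a| := by
      have : s0 + a - (s0 + a * (1 - ε)) = ε * a := by ring
      rw [this, abs_mul, abs_of_pos hε]
    rw [e2, P.inv_left (h1 _).1 hy0 hβ, hy, h3 _ _ (by rw [e3]; nlinarith), e3]
  obtain ⟨_, a', b', hab⟩ := h1 (s0 + a * (1 - ε))
  rw [← hy] at hab
  have e4 : a' • A (X, 1) + b' • A (O, 1) = (a' + b') • A (O, 1) + a' • A (X - O, 0) := by
    rw [chart_sub]; module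
  rw [e4] at hab
  have h5 := hl (a' + b') a' (by rw [← hab]; exact hy0) (by
    rw [zero_smul, add_zero, ← hab, d2]; exact hε1)
  obtain ⟨h6, h7⟩ := h5
  rw [sub_zero] at h7
  rw [comb' A O (X - O) a' h6] at hab
  set t := a' / (a' + b') with ht
  refine ⟨t, ?_, h7, ?_⟩
  · intro h0
    rw [h0, zero_smul, add_zero] at hab
    rw [hab, P.inv_right (pt_ne A O) (pt_ne A O) h6, P.self (pt_ne A O)] at d2
    have := mul_pos hε hap
    linarith
  · show D (A (X, 1)) (A (O, 1)) = D (A (X, 1)) (A (O + t • (X - O), 1)) +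
      D (A (O + t • (X - O), 1)) (A (O, 1))
    rw [hab, P.inv_right (pt_ne A X) (pt_ne A _) h6] at d1
    rw [hab, P.inv_right (pt_ne A O) (pt_ne A _) h6] at d2
    rw [d1, P.symm (A (O + t • (X - O), 1)) (A (O, 1)) (pt_ne A _) (pt_ne A O), d2, hD]
    ring

/-- extension of an inequality to the point at infinity of a line -/
lemma closure_line (A : W3 ≃ₗ[ℝ] V) {O u : ℝ × ℝ} {f : V → ℝ}
    (hf : ContinuousOn f {y | y ≠ 0}) (hinv : ∀ y, y ≠ 0 → ∀ α : ℝ, α ≠ 0 → f (α • y) = f y)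
    {k : ℝ} (h : ∀ t : ℝ, k ≤ f (A (O + t • u, 1))) (a b : ℝ)
    (hne : a • A (O, 1) + b • A (u, 0) ≠ 0) : k ≤ f (a • A (O, 1) + b • A (u, 0)) := by
  by_cases ha : a = 0
  · rw [ha, zero_smul, zero_add] at hne ⊢
    have c1 : ContinuousAt (fun ε : ℝ => ε • A (O, 1) + b • A (u, 0)) 0 := by fun_prop
    have c2 : ContinuousAt f (b • A (u, 0)) :=
      hf.continuousAt (isOpen_ne.mem_nhds hne)
    have e0 : (0 : ℝ) • A (O, 1) + b • A (u, 0) = b • A (u, 0) := by rw [zero_smul, zero_add]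
    have lim : Tendsto (fun ε : ℝ => f (ε • A (O, 1) + b • A (u, 0))) (𝓝[≠] 0)
        (𝓝 (f (b • A (u, 0)))) := by
      have c3 : Tendsto (fun ε : ℝ => ε • A (O, 1) + b • A (u, 0)) (𝓝 0)
          (𝓝 (b • A (u, 0))) := by
        have := c1.tendsto
        rwa [e0] at this
      exact (c2.tendsto.comp c3).mono_left nhdsWithin_le_nhds
    refine ge_of_tendsto lim ?_
    filter_upwards [self_mem_nhdsWithin] with ε hε
    have hε' : ε ≠ 0 := hε
    rw [comb' A O u b hε', hinv _ (pt_ne A _) _ hε']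
    exact h _
  · rw [comb' A O u b ha, hinv _ (pt_ne A _) _ ha]
    exact h _

lemma fu (P : PV D Φ L) (A : W3 ≃ₗ[ℝ] V) (O : ℝ × ℝ) : ∃ r > 0, ∀ X ∈ ball O r,
    ∀ a ∈ ball O r, ∀ b ∈ ball O r, a ≠ b →
      (∀ t : ℝ, dA D A X a ≤ dA D A X (a + t • (b - a))) → dA D A X a < dA D A X b := by
  have hL := P.hL
  have c := (P.dA_cont A).tendsto (O, O)
  have h0 : dA D A O O < L / 2 := by
    have : dA D A O O = 0 := P.self (pt_ne A O)
    rw [this]; positivity
  have ev : ∀ᶠ p in 𝓝 (O, O), dA D A p.1 p.2 < L / 2 := c.eventually (gt_mem_nhds h0)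
  rw [Metric.eventually_nhds_iff] at ev
  obtain ⟨r, hr, ev⟩ := ev
  refine ⟨r, hr, fun X hX a ha b _ hab hf => ?_⟩
  by_contra hcon
  push Not at hcon
  have hlt : dA D A X a < L / 2 := ev (y := (X, a)) (by
    rw [Prod.dist_eq]; exact max_lt hX ha)
  have hpos : 0 < dA D A X a := by
    refine lt_of_le_of_ne (P.nonneg (pt_ne A X) (pt_ne A a)) fun h => ?_
    have h1 : X = a := by
      by_contra hne
      exact (P.dA_pos A hne).ne h
    have h2 : X = b := by
      by_contra hne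
      have := P.dA_pos A hne
      rw [← h] at hcon
      linarith
    exact hab (h1.symm.trans h2)
  obtain ⟨B, hB1, hB2⟩ := P.disc (A (X, 1)) (pt_ne A X) (dA D A X a) hlt
  have hβ1 := hB1 (A (a, 1)) (pt_ne A a) le_rfl
  have hβ2 := hB1 (A (b, 1)) (pt_ne A b) hcon
  have ea := chart_coord B hβ1
  have eb := chart_coord B hβ2
  set β1 := (B.symm (A (a, 1))).2 with hβ1d
  set a' := β1⁻¹ • (B.symm (A (a, 1))).1 with ha'
  set β2 := (B.symm (A (b, 1))).2 with hβ2d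
  set b' := β2⁻¹ • (B.symm (A (b, 1))).1 with hb'
  have hab' : a' ≠ b' := by
    intro h
    apply hab
    have h1 : β2 • A (a, 1) = β1 • A (b, 1) := by
      rw [ea, eb, h, smul_smul, smul_smul, mul_comm]
    exact chart_uniq A hβ2 h1
  have hma : a' ∈ {p : ℝ × ℝ | D (A (X, 1)) (B (p, 1)) ≤ dA D A X a} := by
    show D (A (X, 1)) (B (a', 1)) ≤ D (A (X, 1)) (A (a, 1))
    conv_rhs => rw [ea]
    rw [P.inv_right (pt_ne A X) (pt_ne B a') hβ1]
  have hmb : b' ∈ {p : ℝ × ℝ | D (A (X, 1)) (B (p, 1)) ≤ dA D A X a} := by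
    have h1 : D (A (X, 1)) (A (b, 1)) ≤ dA D A X a := hcon
    show D (A (X, 1)) (B (b', 1)) ≤ dA D A X a
    rw [eb, P.inv_right (pt_ne A X) (pt_ne B b') hβ2] at h1
    exact h1
  have hm := hB2 hma hmb hab' (a := 1 / 2) (b := 1 / 2) (by norm_num) (by norm_num) (by norm_num)
  have hm1 := interior_subset hm
  have hm1' : D (A (X, 1)) (B ((1 / 2 : ℝ) • a' + (1 / 2 : ℝ) • b', 1)) ≤ dA D A X a := hm1
  -- the midpoint lies on the line
  have ia : B (a', 1) = β1⁻¹ • A (a, 1) := by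
    rw [ea, smul_smul, inv_mul_cancel₀ hβ1, one_smul]
  have ib : B (b', 1) = β2⁻¹ • A (b, 1) := by
    rw [eb, smul_smul, inv_mul_cancel₀ hβ2, one_smul]
  have emid : B ((1 / 2 : ℝ) • a' + (1 / 2 : ℝ) • b', 1) =
      (1 / 2 * (β1⁻¹ + β2⁻¹)) • A (a, 1) + (1 / 2 * β2⁻¹) • A (b - a, 0) := by
    have h1 : B ((1 / 2 : ℝ) • a' + (1 / 2 : ℝ) • b', 1) =
        (1 / 2 : ℝ) • B (a', 1) + (1 / 2 : ℝ) • B (b', 1) := by
      rw [← map_smul, ← map_smul, ← map_add]
      congr 1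
      refine Prod.ext rfl ?_
      show (1 : ℝ) = 1 / 2 * 1 + 1 / 2 * 1
      norm_num
    rw [h1, ia, ib, chart_sub]
    module
  have hge : dA D A X a ≤ D (A (X, 1)) (B ((1 / 2 : ℝ) • a' + (1 / 2 : ℝ) • b', 1)) := by
    have hne := pt_ne B ((1 / 2 : ℝ) • a' + (1 / 2 : ℝ) • b')
    rw [emid] at hne ⊢
    exact closure_line A (f := D (A (X, 1))) (P.cont_right (pt_ne A X))
      (fun y hy α hα => P.inv_right (pt_ne A X) hy hα) hf _ _ hne
  exact P.beyondV B (pt_ne A X) hpos hlt (le_antisymm hm1' hge) hm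

lemma perp_fwd (P : PV D Φ L) (A : W3 ≃ₗ[ℝ] V) {O u v : ℝ × ℝ} (h : Perp univ (dA D A) O u v) :
    PerpV D (A (O, 1)) (A (u, 0)) (A (v, 0)) := by
  have step1 : ∀ s a' b' : ℝ, a' • A (O, 1) + b' • A (v, 0) ≠ 0 →
      D (A (O + s • u, 1)) (A (O, 1)) ≤ D (A (O + s • u, 1)) (a' • A (O, 1) + b' • A (v, 0)) := by
    intro s a' b' hne
    exact closure_line A (f := D (A (O + s • u, 1))) (P.cont_right (pt_ne A _))
      (fun y hy α hα => P.inv_right (pt_ne A _) hy hα)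
      (fun t => h s t (mem_univ _) (mem_univ _)) a' b' hne
  intro a b a' b' hne hne'
  have cl : ∀ y : V, y ≠ 0 → ContinuousOn (fun x => D x y) {x | x ≠ 0} := by
    intro y hy
    refine (P.cont_right hy).congr fun x hx => P.symm _ _ hx hy
  have := closure_line A (O := O) (u := u)
    (f := fun x => D x (a' • A (O, 1) + b' • A (v, 0)) - D x (A (O, 1)))
    ((cl _ hne').sub (cl _ (pt_ne A O)))
    (fun y hy α hα => by
      show D (α • y) _ - D (α • y) _ = _
      rw [P.inv_left hy hne' hα, P.inv_left hy (pt_ne A O) hα])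
    (k := 0) (fun t => sub_nonneg.2 (step1 t a' b' hne')) a b hne
  linarith

theorem preCore (P : PV D Φ L) (A : W3 ≃ₗ[ℝ] V) : PreCore univ (FA Φ A) (dA D A) where
  op := isOpen_univ
  cv := convex_univ
  Fn := fun x _ => P.FA_norm A x
  Fc := P.FA_cont A
  dc := (P.dA_cont A).continuousOn
  nn := fun _ _ _ _ => P.nonneg (pt_ne A _) (pt_ne A _)
  tri := fun _ _ _ _ _ _ => P.tri _ _ _ (pt_ne A _) (pt_ne A _) (pt_ne A _)
  loc := by
    intro x _
    obtain ⟨r, hr, h⟩ := P.intA A x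
    refine ⟨r, hr, subset_univ _, h, ?_⟩
    intro p _ y _ z _ hOm
    refine P.strict _ _ _ fun a b c habc => ?_
    rw [← map_smul, ← map_smul, ← map_smul, ← map_add, ← map_add,
      LinearEquiv.map_eq_zero_iff] at habc
    have h1 : a * 1 + b * 1 + c * 1 = 0 := congrArg Prod.snd habc
    have h2 : a • p + b • y + c • z = 0 := congrArg Prod.fst habc
    have h3 : (b + c) • (y - p) + c • (z - y) = 0 := by
      have : (b + c) • (y - p) + c • (z - y) = (a • p + b • y + c • z) - (a * 1 + b * 1 + c * 1) • p := by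
        module
      rw [this, h2, h1, zero_smul, sub_zero]
    have h4 : Om (y - p) ((b + c) • (y - p) + c • (z - y)) = 0 := by rw [h3, Om_zero_right]
    rw [Om_add_right, Om_smul_right, Om_smul_right, Om_self, mul_zero, zero_add] at h4
    have hc : c = 0 := (mul_eq_zero.1 h4).resolve_right hOm
    rw [hc, add_zero, zero_smul, add_zero, smul_eq_zero] at h3
    have hb : b = 0 := by
      rcases h3 with h3 | h3
      · exact h3
      · rw [h3, Om_zero_left] at hOm; exact absurd rfl hOm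
    refine ⟨?_, hb, hc⟩
    rw [hb, hc] at h1
    linarith
  sd := by
    intro X _ O _ hne
    obtain ⟨u, hu, h⟩ := P.sd A hne
    exact ⟨u, hu, fun t _ => h t⟩
  ap := by
    intro X _ O _ hne δ hδ
    obtain ⟨t, h1, h2, h3⟩ := P.ap A hne hδ
    exact ⟨t, h1, h2, mem_univ _, h3⟩
  sym := by
    intro O _ u v hu hv h
    have := P.perp _ _ _ (chart_ind A O hu) (chart_ind A O hv) (P.perp_fwd A h)
    intro s t _ _
    have h1 := this 1 s 1 t
    rw [one_smul, ← chart_add, ← chart_add] at h1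
    exact h1 (pt_ne A _) (pt_ne A _)
  fu := by
    intro O _
    obtain ⟨r, hr, h⟩ := P.fu A O
    exact ⟨r, hr, fun X hX a ha b hb hab _ _ _ hf => h X hX a ha b hb hab fun t =>
      hf t (mem_univ _)⟩

end PV

end Pool.Agent.Helper831.PM
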