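import Pool.Agent.Helper831.PMProj3

namespace Pool.Agent.Helper831.PM

open Real Set Filter Topology Metric

lemma lip_of_local {h : ℝ → ℝ} {a b K : ℝ} (hab : a ≤ b)
    (hloc : ∀ s ∈ Icc a b, ∃ δ > 0, ∀ s' ∈ Icc a b, |s' - s| < δ → |h s' - h s| ≤ K * |s' - s|) :
    |h b - h a| ≤ K * (b - a) := by
  have hcont : ContinuousOn (fun s => h s - h a) (Icc a b) := by
    intro s hs
    obtain ⟨δ, hδ, hl⟩ := hloc s hs
    rw [Metric.continuousWithinAt_iff]
    intro ε hε
    refine ⟨min δ (ε / (|K| + 1)), by positivity, fun s' hs' hd => ?_⟩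
    rw [Real.dist_eq] at hd ⊢
    have h1 := hl s' hs' (hd.trans_le (min_le_left _ _))
    have h2 := hd.trans_le (min_le_right _ _)
    rw [lt_div_iff₀ (by positivity)] at h2
    have e : h s' - h a - (h s - h a) = h s' - h s := by ring
    rw [e]
    have h3 : K * |s' - s| ≤ |K| * |s' - s| :=
      mul_le_mul_of_nonneg_right (le_abs_self K) (abs_nonneg _)
    nlinarith [abs_nonneg (s' - s)]
  have key : ∀ ε > 0, |h b - h a| ≤ (K + ε) * (b - a) := by
    intro ε hε
    have := image_norm_le_of_liminf_right_slope_norm_lt_deriv_boundary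
      (f := fun s => h s - h a) (f' := fun _ => K) (a := a) (b := b)
      (B := fun s => (K + ε) * (s - a)) (B' := fun _ => K + ε) hcont
      (by
        intro x hx r hr
        obtain ⟨δ, hδ, hl⟩ := hloc x ⟨hx.1, hx.2.le⟩
        have h1 : Ioo x (min (x + δ) b) ∈ 𝓝[>] x :=
          Ioo_mem_nhdsGT (lt_min (by linarith) hx.2)
        refine Filter.Eventually.frequently ?_
        filter_upwards [h1] with z hz
        have hz1 : 0 < z - x := sub_pos.2 hz.1
        have hz2 : z < x + δ := hz.2.trans_le (min_le_left _ _)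
        have hz3 : z < b := hz.2.trans_le (min_le_right _ _)
        have h2 := hl z ⟨hx.1.trans hz.1.le, hz3.le⟩ (by rw [abs_of_pos hz1]; linarith)
        rw [abs_of_pos hz1] at h2
        rw [slope_def_field, div_lt_iff₀ hz1]
        simp only [Function.comp_apply, Real.norm_eq_abs]
        have h3 : |h z - h a| - |h x - h a| ≤ |h z - h x| := by
          have := abs_sub_abs_le_abs_sub (h z - h a) (h x - h a)
          have e : h z - h a - (h x - h a) = h z - h x := by ring
          rwa [e] at this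
        nlinarith)
      (by simp) (by fun_prop)
      (by
        intro x _
        have := (((hasDerivAt_id x).sub_const a).const_mul (K + ε)).hasDerivWithinAt (s := Ici x)
        simpa using this)
      (by intro x _ _; linarith)
      (x := b) ⟨hab, le_rfl⟩
    simpa using this
  refine le_of_forall_pos_le_add fun e he => ?_
  have h1 := key (e / (b - a + 1)) (by have : 0 ≤ b - a := sub_nonneg.2 hab; positivity)
  have h2 : e / (b - a + 1) * (b - a) ≤ e := by
    have : 0 ≤ b - a := sub_nonneg.2 hab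
    rw [div_mul_eq_mul_div, div_le_iff₀ (by positivity)]
    nlinarith
  nlinarith

namespace PV

variable {V : Type*} [NormedAddCommGroup V] [NormedSpace ℝ V] [FiniteDimensional ℝ V]
variable {D Φ : V → V → ℝ} {L : ℝ}

/-- a chart with constant norms would have lines of infinite length -/
lemma no_const (P : PV D Φ L) (A : W3 ≃ₗ[ℝ] V)
    (hc : ∀ x y u : ℝ × ℝ, FA Φ A x u = FA Φ A y u) : False := by
  have hL := P.hL
  obtain ⟨u, hu⟩ : ∃ u : ℝ × ℝ, u = (1, 0) := ⟨_, rfl⟩
  have hu0 : u ≠ 0 := by rw [hu]; simp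
  set N := FA Φ A 0 with hN
  have hNn : PNorm N := P.FA_norm A 0
  have hNu := hNn.pos hu0
  have hnu : 0 < ‖u‖ := norm_pos_iff.2 hu0
  have hloc : ∀ t0 : ℝ, ∃ δ > 0, ∀ t : ℝ, |t - t0| < δ →
      dA D A (0 + t0 • u) (0 + t • u) = |t - t0| * N u := by
    intro t0
    obtain ⟨r, hr, h⟩ := P.intA A (0 + t0 • u)
    refine ⟨r / ‖u‖, by positivity, fun t ht => ?_⟩
    have hm : (0 : ℝ × ℝ) + t • u ∈ ball (0 + t0 • u) r := by
      rw [mem_ball, dist_eq_norm]
      have e : (0 : ℝ × ℝ) + t • u - (0 + t0 • u) = (t - t0) • u := by module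
      rw [e, norm_smul, Real.norm_eq_abs]
      rwa [lt_div_iff₀ hnu] at ht
    rw [h _ (mem_ball_self hr) _ hm]
    have e : (0 : ℝ × ℝ) + t • u - (0 + t0 • u) = (t - t0) • u := by module
    have e2 : ∀ s ∈ uIcc (0 : ℝ) 1, FA Φ A ((0 : ℝ × ℝ) + t0 • u + s • (0 + t • u - (0 + t0 • u)))
        (0 + t • u - (0 + t0 • u)) = |t - t0| * N u := by
      intro s _
      rw [hc _ 0, ← hN, e, hNn.smul]
    rw [intervalIntegral.integral_congr e2]
    simp
  obtain ⟨c, c1, c2, c3, c4⟩ := P.circ _ _ (chart_ind A 0 hu0)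
  have hinf : (0 : ℝ) • A (0, 1) + (1 : ℝ) • A (u, 0) ≠ 0 := by
    intro h
    exact one_ne_zero (chart_ind A 0 hu0 _ _ h).2
  obtain ⟨si, _, αi, hαi, ei⟩ := c2 0 1 hinf 0
  rw [zero_smul, one_smul, zero_add] at ei
  have hfin : ∀ s ∈ Ioo si (si + L), ∃ a b : ℝ, a ≠ 0 ∧ c s = a • A (0, 1) + b • A (u, 0) := by
    intro s hs
    obtain ⟨hne, a, b, hab⟩ := c1 s
    refine ⟨a, b, ?_, hab⟩
    intro ha
    rw [ha, zero_smul, zero_add] at hab
    have h1 : D (c s) (c si) = 0 := by
      rw [P.zero_iff _ _ hne (c1 si).1]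
      have hb : b ≠ 0 := by rintro rfl; rw [zero_smul] at hab; exact hne hab
      refine ⟨αi⁻¹ * b⁻¹, ?_⟩
      rw [hab, ei, smul_smul, smul_smul]
      have : αi⁻¹ * b⁻¹ * b * αi = 1 := by field_simp
      rw [this, one_smul]
    rcases le_total (s - si) (L / 2) with h | h
    · have h2 := c3 s si (by rw [abs_of_pos (sub_pos.2 hs.1)]; exact h)
      rw [h1, abs_of_pos (sub_pos.2 hs.1)] at h2
      linarith [hs.1]
    · have h3 : |s - (si + L)| = si + L - s := by
        rw [abs_sub_comm, abs_of_pos (by linarith [hs.2])]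
      have h2 := c3 s (si + L) (by rw [h3]; linarith)
      rw [c4, h1, h3] at h2
      linarith [hs.2]
  have hex : ∀ s : ℝ, ∃ t γ : ℝ, s ∈ Ioo si (si + L) → γ ≠ 0 ∧ c s = γ • A (0 + t • u, 1) := by
    intro s
    by_cases hs : s ∈ Ioo si (si + L)
    · obtain ⟨a, b, ha, hab⟩ := hfin s hs
      exact ⟨b / a, a, fun _ => ⟨ha, by rw [hab, comb' A 0 u b ha]⟩⟩
    · exact ⟨0, 0, fun h => absurd h hs⟩
  choose h γ hh using hex
  have hlocal : ∀ s ∈ Ioo si (si + L), ∃ δ > 0, ∀ s' ∈ Ioo si (si + L), |s' - s| < δ →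
      |h s' - h s| ≤ 1 / N u * |s' - s| := by
    intro s hs
    obtain ⟨g1, g2⟩ := hh s hs
    obtain ⟨δ, hδ, hd⟩ := hloc (h s)
    obtain ⟨κ, hκ, hl⟩ := P.line_cont A 0 u hu0 (h s) hδ
    refine ⟨min κ (L / 2), by positivity, fun s' hs' hlt => ?_⟩
    obtain ⟨g3, g4⟩ := hh s' hs'
    have d1 := c3 s s' (by rw [abs_sub_comm]; exact (hlt.trans_le (min_le_right _ _)).le)
    rw [g2, g4, P.inv _ _ (pt_ne A _) (pt_ne A _) _ _ g1 g3] at d1
    have e7 : A (0 + h s' • u, 1) = (1 : ℝ) • A (0, 1) + h s' • A (u, 0) := by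
      rw [chart_add, one_smul]
    have h1 := hl 1 (h s') (by rw [← e7]; exact pt_ne A _) (by
      rw [← e7, d1, abs_sub_comm]
      exact hlt.trans_le (min_le_left _ _))
    have h2 := hd (h s') (by simpa using h1.2)
    have h3 : dA D A (0 + h s • u) (0 + h s' • u) = |s - s'| := d1
    rw [h3] at h2
    rw [abs_sub_comm s' s, h2]
    rw [one_div, mul_comm (|h s' - h s|), inv_mul_cancel_left₀ hNu.ne']
  set m := si + L / 2 with hm
  have hmI : m ∈ Ioo si (si + L) := ⟨by linarith, by linarith⟩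
  have hKpos : 0 < 1 / N u := by positivity
  have hbound : ∀ s ∈ Ioo si (si + L), |h s - h m| ≤ 1 / N u * L := by
    intro s hs
    rcases le_total m s with hms | hms
    · have := lip_of_local (h := h) (K := 1 / N u) hms (by
        intro x hx
        have hxI : x ∈ Ioo si (si + L) := ⟨hmI.1.trans_le hx.1, hx.2.trans_lt hs.2⟩
        obtain ⟨δ, hδ, hl⟩ := hlocal x hxI
        exact ⟨δ, hδ, fun s' hs' => hl s' ⟨hmI.1.trans_le hs'.1, hs'.2.trans_lt hs.2⟩⟩)
      refine this.trans (mul_le_mul_of_nonneg_left ?_ hKpos.le)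
      linarith [hs.2]
    · have := lip_of_local (h := h) (K := 1 / N u) hms (by
        intro x hx
        have hxI : x ∈ Ioo si (si + L) := ⟨hs.1.trans_le hx.1, hx.2.trans_lt hmI.2⟩
        obtain ⟨δ, hδ, hl⟩ := hlocal x hxI
        exact ⟨δ, hδ, fun s' hs' => hl s' ⟨hs.1.trans_le hs'.1, hs'.2.trans_lt hmI.2⟩⟩)
      rw [abs_sub_comm] at this
      refine this.trans (mul_le_mul_of_nonneg_left ?_ hKpos.le)
      linarith [hs.1]
  -- a point of the line which is too far
  set t1 := h m + 1 / N u * L + 1 with ht1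
  have e8 : A (0 + t1 • u, 1) = (1 : ℝ) • A (0, 1) + t1 • A (u, 0) := by
    rw [chart_add, one_smul]
  obtain ⟨s, hs, β, hβ, hsβ⟩ := c2 1 t1 (by rw [← e8]; exact pt_ne A _) si
  have hsI : s ∈ Ioo si (si + L) := by
    refine ⟨lt_of_le_of_ne hs.1 fun heq => ?_, hs.2⟩
    rw [← heq] at hsβ
    have h1 : αi • ((1 : ℝ) • A (0, 1) + t1 • A (u, 0)) = β • A (u, 0) := by
      rw [hsβ, ei, smul_smul, smul_smul, mul_comm]
    have h2 : αi • A (0, 1) + (αi * t1 - β) • A (u, 0) = 0 := by
      have : αi • A (0, 1) + (αi * t1 - β) • A (u, 0) =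
        αi • ((1 : ℝ) • A (0, 1) + t1 • A (u, 0)) - β • A (u, 0) := by module
      rw [this, h1, sub_self]
    exact hαi (chart_ind A 0 hu0 _ _ h2).1
  obtain ⟨g1, g2⟩ := hh s hsI
  have h3 : h s = t1 := by
    rw [← e8, g2, smul_smul] at hsβ
    have h4 : (β * γ s) • A (0 + h s • u, 1) = (1 : ℝ) • A (0 + t1 • u, 1) := by
      rw [← hsβ, one_smul]
    exact line_uniq A hu0 (mul_ne_zero hβ g1) h4
  have h5 := hbound s hsI
  rw [h3, ht1] at h5
  have h6 : h m + 1 / N u * L + 1 - h m = 1 / N u * L + 1 := by ring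
  rw [h6, abs_of_pos (by positivity)] at h5
  linarith

theorem euclid (P : PV D Φ L) (A : W3 ≃ₗ[ℝ] V) (p : ℝ × ℝ) : IsEuclid (FA Φ A p) := by
  rcases (P.preCore A).core.main with h | ⟨D0, b, hpos, _, hconst⟩
  · exact h p (mem_univ _)
  exfalso
  have hD : D0 = 0 := by
    by_contra hD
    obtain ⟨w, hw⟩ : ∃ w, D0 w ≠ 0 := by
      by_contra hcon
      push Not at hcon
      exact hD (ContinuousLinearMap.ext hcon)
    have := hpos ((-(b + 1) / D0 w) • w) (mem_univ _)
    rw [map_smul, smul_eq_mul, div_mul_cancel₀ _ hw] at this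
    linarith
  exact P.no_const A fun x y u => hconst hD x (mem_univ _) y (mem_univ _) u

end PV

end Pool.Agent.Helper831.PM
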