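import Pool.Agent.Helper831.PMNorm

namespace Pool.Agent.Helper831.PM

open Real Set Filter Topology

variable {N : ℝ × ℝ → ℝ}

lemma exists_Bk (h : StrictNorm N) (u : ℝ × ℝ) : ∃ v, v ≠ 0 ∧ Bk N u v := by
  by_cases hu : u = 0
  · refine ⟨(1, 0), by simp, fun t => ?_⟩
    rw [hu, h.zero]; exact h.nonneg _
  have hcv : Convex ℝ {z | N z < N u} := by
    intro x hx y hy a b ha hb hab
    have hx' : N x < N u := hx
    have hy' : N y < N u := hy
    show N (a • x + b • y) < N u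
    have h1 := h.tri (a • x) (b • y)
    rw [h.smul, h.smul, abs_of_nonneg ha, abs_of_nonneg hb] at h1
    rcases eq_or_lt_of_le ha with ha0 | ha0
    · have : b = 1 := by linarith
      rw [← ha0, this] at h1 ⊢
      linarith
    · have l1 := mul_lt_mul_of_pos_left hx' ha0
      have l2 := mul_le_mul_of_nonneg_left hy'.le hb
      have e : a * N u + b * N u = N u := by rw [← add_mul, hab, one_mul]
      linarith
  have hop : IsOpen {z | N z < N u} := isOpen_lt h.continuous continuous_const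
  obtain ⟨f, hf⟩ := geometric_hahn_banach_open_point hcv hop (x := u) (by simp)
  have f0 : 0 < f u := by
    have := hf 0 (by show N 0 < N u; rw [h.zero]; exact h.pos hu)
    simpa using this
  have hfe : ∀ z : ℝ × ℝ, f z = z.1 * f (1, 0) + z.2 * f (0, 1) := by
    intro z
    have e : z = z.1 • ((1, 0) : ℝ × ℝ) + z.2 • ((0, 1) : ℝ × ℝ) := by ext <;> simp
    conv_lhs => rw [e]
    rw [map_add, map_smul, map_smul, smul_eq_mul, smul_eq_mul]
  refine ⟨(- f (0, 1), f (1, 0)), ?_, ?_⟩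
  · intro h0
    rw [Prod.mk_eq_zero] at h0
    rw [hfe u, h0.2, neg_eq_zero.1 h0.1] at f0
    simp at f0
  · intro t
    by_contra hc
    push Not at hc
    have := hf _ hc
    rw [map_add, map_smul, hfe (- f (0, 1), f (1, 0))] at this
    simp only [smul_eq_mul] at this
    nlinarith

lemma Bk_neg_right {u v : ℝ × ℝ} (hb : Bk N u v) : Bk N u (-v) := by
  intro t
  have := hb (-t)
  rwa [neg_smul, ← smul_neg] at this

lemma Bk_smul_right {u v : ℝ × ℝ} (c : ℝ) (hb : Bk N u v) : Bk N u (c • v) := by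
  intro t
  have := hb (t * c)
  rwa [mul_smul] at this

lemma Bk_smul_left (h : StrictNorm N) {u v : ℝ × ℝ} {c : ℝ} (hc : c ≠ 0) (hb : Bk N u v) :
    Bk N (c • u) v := by
  intro t
  have := hb (t / c)
  have e : c • u + t • v = c • (u + (t / c) • v) := by
    rw [smul_add, smul_smul, mul_div_cancel₀ _ hc]
  rw [e, h.smul, h.smul]
  exact mul_le_mul_of_nonneg_left this (abs_nonneg _)

/-- one sided smallness of the increment in a supporting direction -/
lemma incr_small (h : StrictNorm N) (hs : SymB N) {u v : ℝ × ℝ} (hu : u ≠ 0) (hv : v ≠ 0)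
    (hb : Bk N u v) {ε : ℝ} (hε : 0 < ε) : ∃ t > 0, N (u + t • v) ≤ N u + ε * t := by
  by_contra hc
  push Not at hc
  have hN := h.pos hu
  set e := ε / N u with he
  have he0 : 0 < e := div_pos hε hN
  have heN : e * N u = ε := by rw [he]; field_simp
  have hO := Bk_Om_ne h hu hv hb
  have hb' : Bk N u (v - e • u) := by
    intro t
    rcases le_or_gt t 0 with ht | ht
    · have h1 : 0 < 1 - t * e := by nlinarith
      have e1 : u + t • (v - e • u) = (1 - t * e) • (u + (t / (1 - t * e)) • v) := by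
        rw [smul_add, smul_smul, mul_div_cancel₀ _ h1.ne']
        module
      rw [e1, h.smul, abs_of_pos h1]
      have := hb (t / (1 - t * e))
      nlinarith
    · rcases lt_trichotomy (1 - t * e) 0 with h1 | h1 | h1
      · have e1 : u + t • (v - e • u) = (1 - t * e) • (u + (t / (1 - t * e)) • v) := by
          rw [smul_add, smul_smul, mul_div_cancel₀ _ h1.ne]
          module
        have h2 := hc t ht
        -- use triangle inequality  N(u+t v) ≤ N(u + t(v - e u)) + t e N u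
        have h3 := h.tri (u + t • (v - e • u)) ((t * e) • u)
        have e2 : u + t • (v - e • u) + (t * e) • u = u + t • v := by module
        rw [e2, h.smul, abs_of_pos (mul_pos ht he0)] at h3
        nlinarith
      · have h2 := hc t ht
        have h3 := h.tri (u + t • (v - e • u)) ((t * e) • u)
        have e2 : u + t • (v - e • u) + (t * e) • u = u + t • v := by module
        rw [e2, h.smul, abs_of_pos (mul_pos ht he0)] at h3
        nlinarith
      · have h2 := hc t ht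
        have h3 := h.tri (u + t • (v - e • u)) ((t * e) • u)
        have e2 : u + t • (v - e • u) + (t * e) • u = u + t • v := by module
        rw [e2, h.smul, abs_of_pos (mul_pos ht he0)] at h3
        nlinarith
  have hne : v - e • u ≠ 0 := by
    intro h0
    rw [sub_eq_zero] at h0
    rw [h0, Om_smul_right, Om_self, mul_zero] at hO
    exact hO rfl
  have := Bk_unique_right h hs hu hv hne hb hb'
  rw [Om_sub_right, Om_self, Om_smul_right, zero_sub, neg_eq_zero, Om_swap] at this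
  rcases mul_eq_zero.1 this with h1 | h1
  · exact he0.ne' h1
  · exact hO (neg_eq_zero.1 h1)

lemma conv_line (h : StrictNorm N) (u v : ℝ × ℝ) {l : ℝ} (h0 : 0 ≤ l) (h1 : l ≤ 1) (t : ℝ) :
    N (u + (l * t) • v) ≤ (1 - l) * N u + l * N (u + t • v) := by
  have e : u + (l * t) • v = (1 - l) • u + l • (u + t • v) := by module
  rw [e]
  have := h.tri ((1 - l) • u) (l • (u + t • v))
  rw [h.smul, h.smul, abs_of_nonneg h0, abs_of_nonneg (by linarith : (0 : ℝ) ≤ 1 - l)] at this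
  exact this

lemma incr_small_all (h : StrictNorm N) (hs : SymB N) {u v : ℝ × ℝ} (hu : u ≠ 0) (hv : v ≠ 0)
    (hb : Bk N u v) {ε : ℝ} (hε : 0 < ε) :
    ∃ t₀ > 0, ∀ t, 0 ≤ t → t ≤ t₀ → N (u + t • v) ≤ N u + ε * t := by
  obtain ⟨t₀, h0, h1⟩ := incr_small h hs hu hv hb hε
  refine ⟨t₀, h0, fun t ht ht' => ?_⟩
  have := conv_line h u v (div_nonneg ht h0.le) (div_le_one_of_le₀ ht' h0.le) t₀
  have e : t / t₀ * t₀ = t := by field_simp
  rw [e] at this
  have h2 : t / t₀ * N (u + t₀ • v) ≤ t / t₀ * (N u + ε * t₀) :=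
    mul_le_mul_of_nonneg_left h1 (div_nonneg ht h0.le)
  have e2 : t / t₀ * (N u + ε * t₀) = t / t₀ * N u + ε * t := by field_simp
  rw [e2] at h2
  linarith

lemma hasDerivAt_line (h : StrictNorm N) (hs : SymB N) {u v : ℝ × ℝ} (hu : u ≠ 0) (hv : v ≠ 0)
    (hb : Bk N u v) : HasDerivAt (fun t : ℝ => N (u + t • v)) 0 0 := by
  rw [hasDerivAt_iff_isLittleO]
  rw [Asymptotics.isLittleO_iff]
  intro ε hε
  obtain ⟨t₁, h1, h1'⟩ := incr_small_all h hs hu hv hb hε
  obtain ⟨t₂, h2, h2'⟩ := incr_small_all h hs hu (neg_ne_zero.2 hv) (Bk_neg_right hb) hε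
  have : Ioo (-min t₁ t₂) (min t₁ t₂) ∈ 𝓝 (0 : ℝ) :=
    Ioo_mem_nhds (by have := lt_min h1 h2; linarith) (lt_min h1 h2)
  filter_upwards [this] with t ht
  simp only [smul_zero, sub_zero, zero_smul, add_zero]
  rw [Real.norm_eq_abs, Real.norm_eq_abs]
  have hlow := hb t
  rw [abs_of_nonneg (by linarith)]
  rcases le_total 0 t with h0 | h0
  · have := h1' t h0 (ht.2.le.trans (min_le_left _ _))
    rw [abs_of_nonneg h0]; linarith
  · have := h2' (-t) (by linarith) (by
      have := ht.1.le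
      have := min_le_right t₁ t₂
      linarith)
    have e : (-t) • (-v) = t • v := by rw [neg_smul, smul_neg, neg_neg]
    rw [e] at this
    rw [abs_of_nonpos h0]; linarith

/-- A strictly convex norm with symmetric orthogonality is differentiable off the origin. -/
lemma hasFDerivAt_norm (h : StrictNorm N) (hs : SymB N) {u v : ℝ × ℝ} (hu : u ≠ 0) (hv : v ≠ 0)
    (hb : Bk N u v) : HasFDerivAt N (pf N u v) u := by
  have hO := Bk_Om_ne h hu hv hb
  set g : ℝ → ℝ := fun t => N (u + t • v) with hg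
  have hg' : HasDerivAt g 0 0 := hasDerivAt_line h hs hu hv hb
  set A : (ℝ × ℝ) →L[ℝ] ℝ := (1 / Om u v) •
    (v.2 • ContinuousLinearMap.fst ℝ ℝ ℝ - v.1 • ContinuousLinearMap.snd ℝ ℝ ℝ) with hA
  set B : (ℝ × ℝ) →L[ℝ] ℝ := (1 / Om u v) •
    (u.1 • ContinuousLinearMap.snd ℝ ℝ ℝ - u.2 • ContinuousLinearMap.fst ℝ ℝ ℝ) with hB
  have hAz : ∀ z, A z = Om z v / Om u v := by
    intro z
    simp only [hA, smul_apply, sub_apply,
      ContinuousLinearMap.coe_fst', ContinuousLinearMap.coe_snd', smul_eq_mul]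
    unfold Om; ring
  have hBz : ∀ z, B z = Om u z / Om u v := by
    intro z
    simp only [hB, smul_apply, sub_apply,
      ContinuousLinearMap.coe_fst', ContinuousLinearMap.coe_snd', smul_eq_mul]
    unfold Om; ring
  have hAu : A u = 1 := by rw [hAz]; exact div_self hO
  have hBu : B u = 0 := by rw [hBz, Om_self, zero_div]
  have hA' : HasFDerivAt (fun z => A z) A u := A.hasFDerivAt
  have hB' : HasFDerivAt (fun z => B z) B u := B.hasFDerivAt
  have hq : HasFDerivAt (fun z => B z / A z) ((A u)⁻¹ • B + B u • (-(A u ^ 2)⁻¹ • A)) u := by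
    have hinv : HasFDerivAt (fun z => (A z)⁻¹) (-(A u ^ 2)⁻¹ • A) u :=
      (hasDerivAt_inv (by rw [hAu]; norm_num)).comp_hasFDerivAt u hA'
    have := hB'.mul hinv
    refine (this.congr_fderiv ?_).congr_of_eventuallyEq ?_
    · rw [add_comm]
    · filter_upwards with z
      rw [div_eq_mul_inv]; rfl
  have hcomp : HasFDerivAt (fun z => g (B z / A z)) ((0 : ℝ) •
      ((A u)⁻¹ • B + B u • (-(A u ^ 2)⁻¹ • A))) u := by
    have hg'' : HasDerivAt g 0 (B u / A u) := by rw [hBu, zero_div]; exact hg'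
    exact hg''.comp_hasFDerivAt u hq
  have hprod := hA'.mul hcomp
  have hfin : HasFDerivAt N (A u • ((0 : ℝ) • ((A u)⁻¹ • B + B u • (-(A u ^ 2)⁻¹ • A))) +
      g (B u / A u) • A) u := by
    refine hprod.congr_of_eventuallyEq ?_
    have hpos : ∀ᶠ z in 𝓝 u, 0 < A z := by
      have : ContinuousAt (fun z => A z) u := A.continuous.continuousAt
      exact this.eventually (lt_mem_nhds (by show 0 < A u; rw [hAu]; norm_num))
    filter_upwards [hpos] with z hz
    have e := Om_decomp hO z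
    have e2 : z = A z • (u + (B z / A z) • v) := by
      rw [smul_add, smul_smul, mul_div_cancel₀ _ hz.ne', hAz, hBz]
      exact e
    show N z = A z * N (u + (B z / A z) • v)
    conv_lhs => rw [e2]
    rw [h.smul, abs_of_pos hz]
  refine hfin.congr_fderiv ?_
  ext <;>
  simp [hBu, hg, pf, hA] <;> ring

/-- derivative functional -/
noncomputable def dN (N : ℝ × ℝ → ℝ) (u : ℝ × ℝ) : (ℝ × ℝ) →L[ℝ] ℝ := fderiv ℝ N u

/-- rotated gradient -/
noncomputable def rr (N : ℝ × ℝ → ℝ) (u : ℝ × ℝ) : ℝ × ℝ := (- dN N u (0, 1), dN N u (1, 0))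

lemma dN_eq_Om (N : ℝ × ℝ → ℝ) (u w : ℝ × ℝ) : dN N u w = Om w (rr N u) := by
  have e : w = w.1 • ((1, 0) : ℝ × ℝ) + w.2 • ((0, 1) : ℝ × ℝ) := by ext <;> simp
  conv_lhs => rw [e]
  rw [map_add, map_smul, map_smul, smul_eq_mul, smul_eq_mul]
  simp only [Om, rr]; ring

/-- A Radon norm: strictly convex, Birkhoff orthogonality symmetric. -/
def RadonNorm (N : ℝ × ℝ → ℝ) : Prop := StrictNorm N ∧ SymB N

namespace RadonNorm

lemma hasFDerivAt (h : RadonNorm N) {u : ℝ × ℝ} (hu : u ≠ 0) : HasFDerivAt N (dN N u) u := by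
  obtain ⟨v, hv, hb⟩ := exists_Bk h.1 u
  have := hasFDerivAt_norm h.1 h.2 hu hv hb
  rw [dN, this.fderiv]; exact this

lemma dN_eq_pf (h : RadonNorm N) {u v : ℝ × ℝ} (hu : u ≠ 0) (hv : v ≠ 0) (hb : Bk N u v) :
    dN N u = pf N u v := (hasFDerivAt_norm h.1 h.2 hu hv hb).fderiv

lemma dN_self (h : RadonNorm N) {u : ℝ × ℝ} (hu : u ≠ 0) : dN N u u = N u := by
  obtain ⟨v, hv, hb⟩ := exists_Bk h.1 u
  have hO := Bk_Om_ne h.1 hu hv hb
  rw [h.dN_eq_pf hu hv hb, pf_apply]; field_simp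

lemma dN_le (h : RadonNorm N) {u : ℝ × ℝ} (hu : u ≠ 0) (w : ℝ × ℝ) : dN N u w ≤ N w := by
  obtain ⟨v, hv, hb⟩ := exists_Bk h.1 u
  rw [h.dN_eq_pf hu hv hb]
  exact pf_le h.1 hb (Bk_Om_ne h.1 hu hv hb) w

lemma abs_dN_le (h : RadonNorm N) {u : ℝ × ℝ} (hu : u ≠ 0) (w : ℝ × ℝ) : |dN N u w| ≤ N w := by
  rw [abs_le]
  refine ⟨?_, h.dN_le hu w⟩
  have := h.dN_le hu (-w)
  rw [map_neg, h.1.neg] at this
  linarith

lemma Om_rr (h : RadonNorm N) {u : ℝ × ℝ} (hu : u ≠ 0) : Om u (rr N u) = N u := by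
  rw [← dN_eq_Om, h.dN_self hu]

lemma rr_ne (h : RadonNorm N) {u : ℝ × ℝ} (hu : u ≠ 0) : rr N u ≠ 0 := by
  intro h0
  have := h.Om_rr hu
  rw [h0, Om_zero_right] at this
  exact (h.1.pos hu).ne this

lemma Bk_rr (h : RadonNorm N) {u : ℝ × ℝ} (hu : u ≠ 0) : Bk N u (rr N u) := by
  intro t
  have := h.dN_le hu (u + t • rr N u)
  rw [map_add, map_smul, dN_eq_Om N u (rr N u), Om_self, h.dN_self hu, smul_zero, add_zero] at this
  exact this

lemma Bk_iff (h : RadonNorm N) {u v : ℝ × ℝ} (hu : u ≠ 0) (hv : v ≠ 0) :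
    Bk N u v ↔ Om v (rr N u) = 0 := by
  constructor
  · intro hb
    exact Bk_unique_right h.1 h.2 hu hv (h.rr_ne hu) hb (h.Bk_rr hu)
  · intro hO
    rw [Om_swap, neg_eq_zero] at hO
    obtain ⟨c, rfl⟩ := parallel_of_Om (h.rr_ne hu) hO
    exact Bk_smul_right c (h.Bk_rr hu)

lemma dN_smul (h : RadonNorm N) {u : ℝ × ℝ} (hu : u ≠ 0) {c : ℝ} (hc : 0 < c) :
    dN N (c • u) = dN N u := by
  obtain ⟨v, hv, hb⟩ := exists_Bk h.1 u
  have hcu : c • u ≠ 0 := smul_ne_zero hc.ne' hu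
  rw [h.dN_eq_pf hu hv hb, h.dN_eq_pf hcu hv (Bk_smul_left h.1 hc.ne' hb)]
  have hO := Bk_Om_ne h.1 hu hv hb
  have e : N (c • u) / Om (c • u) v = N u / Om u v := by
    rw [Om_smul_left, h.1.smul, abs_of_pos hc]
    field_simp
  unfold pf
  rw [e]

lemma dN_neg (h : RadonNorm N) {u : ℝ × ℝ} (hu : u ≠ 0) : dN N (-u) = - dN N u := by
  obtain ⟨v, hv, hb⟩ := exists_Bk h.1 u
  have hcu : -u ≠ 0 := neg_ne_zero.2 hu
  have hb' : Bk N (-u) v := by
    have := Bk_smul_left h.1 (c := -1) (by norm_num) hb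
    rwa [neg_one_smul] at this
  rw [h.dN_eq_pf hu hv hb, h.dN_eq_pf hcu hv hb']
  have e : N (-u) / Om (-u) v = - (N u / Om u v) := by
    rw [Om_neg_left, h.1.neg, div_neg]
  refine ContinuousLinearMap.ext fun z => ?_
  rw [neg_apply, pf_apply, pf_apply, e]
  ring

lemma rr_smul (h : RadonNorm N) {u : ℝ × ℝ} (hu : u ≠ 0) {c : ℝ} (hc : 0 < c) :
    rr N (c • u) = rr N u := by
  unfold rr; rw [h.dN_smul hu hc]

lemma rr_neg (h : RadonNorm N) {u : ℝ × ℝ} (hu : u ≠ 0) : rr N (-u) = - rr N u := by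
  unfold rr; rw [h.dN_neg hu]; ext <;> simp

lemma rr_rr (h : RadonNorm N) {u : ℝ × ℝ} (hu : u ≠ 0) :
    rr N (rr N u) = (-(N (rr N u) / N u)) • u := by
  have hr := h.rr_ne hu
  have hb : Bk N (rr N u) u := h.2 _ _ (h.Bk_rr hu)
  have h1 := (h.Bk_iff hr hu).1 hb
  obtain ⟨c, hc⟩ := parallel_of_Om hu h1
  have h2 := h.Om_rr hr
  rw [hc, Om_smul_right, Om_swap, h.Om_rr hu] at h2
  rw [hc]
  congr 1
  have := (h.1.pos hu).ne'
  field_simp
  linarith

/-- the polar inequality -/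
lemma polar (h : RadonNorm N) {u : ℝ × ℝ} (hu : u ≠ 0) (w : ℝ × ℝ) :
    N (rr N u) * Om u w ≤ N u * N w := by
  have hr := h.rr_ne hu
  have h1 := h.dN_le hr w
  rw [dN_eq_Om, h.rr_rr hu, Om_smul_right, Om_swap w u] at h1
  have := h.1.pos hu
  have e : -(N (rr N u) / N u) * -Om u w = N (rr N u) * Om u w / N u := by ring
  rw [e, div_le_iff₀ this] at h1
  linarith

end RadonNorm

end Pool.Agent.Helper831.PM
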