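import Pool.Agent.Helper831.PMCore
import Pool.Agent.Helper831.PMLen

namespace Pool.Agent.Helper831.PM

open Real Set Filter Topology Metric

/-- The hypotheses used in the core of the argument, without strict convexity of the norms. -/
structure PreCore (M : Set (ℝ × ℝ)) (F d : ℝ × ℝ → ℝ × ℝ → ℝ) : Prop where
  op : IsOpen M
  cv : Convex ℝ M
  Fn : ∀ x ∈ M, PNorm (F x)
  Fc : ContinuousOn (fun p : (ℝ × ℝ) × (ℝ × ℝ) => F p.1 p.2) (M ×ˢ univ)
  dc : ContinuousOn (fun p : (ℝ × ℝ) × (ℝ × ℝ) => d p.1 p.2) (M ×ˢ M)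
  nn : ∀ x ∈ M, ∀ y ∈ M, 0 ≤ d x y
  tri : ∀ x ∈ M, ∀ y ∈ M, ∀ z ∈ M, d x z ≤ d x y + d y z
  loc : ∀ x ∈ M, ∃ r > 0, ball x r ⊆ M ∧
    (∀ y ∈ ball x r, ∀ z ∈ ball x r, d y z = ∫ t in (0 : ℝ)..1, F (y + t • (z - y)) (z - y)) ∧
    ∀ p ∈ ball x r, ∀ y ∈ ball x r, ∀ z ∈ ball x r, Om (y - p) (z - y) ≠ 0 → d p z < d p y + d y z
  sd : ∀ X ∈ M, ∀ O ∈ M, X ≠ O →
    ∃ v : ℝ × ℝ, v ≠ 0 ∧ ∀ t : ℝ, O + t • v ∈ M → d X O ≤ d X (O + t • v)
  ap : ∀ X ∈ M, ∀ O ∈ M, X ≠ O → ∀ δ > 0, ∃ t : ℝ, t ≠ 0 ∧ |t| < δ ∧ O + t • (X - O) ∈ M ∧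
    d X O = d X (O + t • (X - O)) + d (O + t • (X - O)) O
  sym : ∀ O ∈ M, ∀ u v : ℝ × ℝ, u ≠ 0 → v ≠ 0 → Perp M d O u v → Perp M d O v u
  fu : ∀ O ∈ M, ∃ r > 0, ∀ X ∈ ball O r, ∀ A ∈ ball O r, ∀ B ∈ ball O r, A ≠ B →
    X ∈ M → A ∈ M → B ∈ M →
    (∀ t : ℝ, A + t • (B - A) ∈ M → d X A ≤ d X (A + t • (B - A))) → d X A < d X B

lemma PNorm.Bk_Om_ne {N : ℝ × ℝ → ℝ} (h : PNorm N) {u v : ℝ × ℝ} (hu : u ≠ 0) (hv : v ≠ 0)
    (hb : Bk N u v) : Om u v ≠ 0 := by
  intro hO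
  rw [Om_swap, neg_eq_zero] at hO
  obtain ⟨c, rfl⟩ := parallel_of_Om hv hO
  have := hb (-c)
  rw [neg_smul, add_neg_cancel, h.zero] at this
  exact absurd (h.pos hu) (not_lt.2 this)

namespace PreCore

variable {M : Set (ℝ × ℝ)} {F d : ℝ × ℝ → ℝ × ℝ → ℝ}

lemma contAt (C : PreCore M F d) {x : ℝ × ℝ} (hx : x ∈ M) (v : ℝ × ℝ) :
    ContinuousAt (fun p : (ℝ × ℝ) × (ℝ × ℝ) => F p.1 p.2) (x, v) :=
  C.Fc.continuousAt ((C.op.prod isOpen_univ).mem_nhds ⟨hx, mem_univ _⟩)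

lemma unif (C : PreCore M F d) {x : ℝ × ℝ} (hx : x ∈ M) {ε : ℝ} (hε : 0 < ε) :
    ∃ δ > 0, ball x δ ⊆ M ∧ ∀ z ∈ ball x δ, ∀ v, |F z v - F x v| ≤ ε * ‖v‖ := by
  have hK : IsCompact (sphere (0 : ℝ × ℝ) 1) := isCompact_sphere _ _
  have h1 : ∀ᶠ z in 𝓝 x, ∀ v ∈ sphere (0 : ℝ × ℝ) 1, |F z v - F x v| < ε := by
    refine hK.eventually_forall_of_forall_eventually fun v _ => ?_
    have c1 := C.contAt hx v
    have c2 : ContinuousAt (fun p : (ℝ × ℝ) × (ℝ × ℝ) => F x p.2) (x, v) := by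
      have : ContinuousAt (fun p : (ℝ × ℝ) × (ℝ × ℝ) => (x, p.2)) (x, v) := by fun_prop
      exact ContinuousAt.comp (f := fun p : (ℝ × ℝ) × (ℝ × ℝ) => (x, p.2)) (x := (x, v)) c1 this
    have c3 : ContinuousAt (fun p : (ℝ × ℝ) × (ℝ × ℝ) => |F p.1 p.2 - F x p.2|) (x, v) :=
      (c1.sub c2).abs
    refine c3.eventually (gt_mem_nhds ?_)
    simpa using hε
  have h2 : ∀ᶠ z in 𝓝 x, z ∈ M := C.op.mem_nhds hx
  have h3 := h1.and h2
  rw [Metric.eventually_nhds_iff] at h3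
  obtain ⟨δ, hδ, hδ'⟩ := h3
  refine ⟨δ, hδ, fun z hz => (hδ' hz).2, fun z hz v => ?_⟩
  by_cases hv : v = 0
  · rw [hv, (C.Fn z (hδ' hz).2).zero, (C.Fn x hx).zero]; simp
  · have hn : 0 < ‖v‖ := norm_pos_iff.2 hv
    have h4 := (hδ' hz).1 (‖v‖⁻¹ • v) (by
      rw [mem_sphere_zero_iff_norm, norm_smul, norm_inv, norm_norm, inv_mul_cancel₀ hn.ne'])
    rw [(C.Fn z (hδ' hz).2).smul, (C.Fn x hx).smul, ← mul_sub, abs_mul, abs_abs,
      abs_of_pos (inv_pos.2 hn)] at h4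
    calc |F z v - F x v| = ‖v‖ * (‖v‖⁻¹ * |F z v - F x v|) := by field_simp
      _ ≤ ‖v‖ * ε := mul_le_mul_of_nonneg_left h4.le hn.le
      _ = _ := by ring

/-- first order behaviour of the distance -/
lemma near (C : PreCore M F d) {x : ℝ × ℝ} (hx : x ∈ M) {ε : ℝ} (hε : 0 < ε) :
    ∃ δ > 0, ball x δ ⊆ M ∧ ∀ a ∈ ball x δ, ∀ b ∈ ball x δ,
      |d a b - F x (b - a)| ≤ ε * ‖b - a‖ := by
  obtain ⟨δ1, hδ1, sub1, un⟩ := C.unif hx hε
  obtain ⟨r, hr, subr, hint, _⟩ := C.loc x hx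
  refine ⟨min δ1 r, lt_min hδ1 hr, (ball_subset_ball (min_le_left _ _)).trans sub1,
    fun a ha b hb => ?_⟩
  have ha1 := ball_subset_ball (min_le_left δ1 r) ha
  have hb1 := ball_subset_ball (min_le_left δ1 r) hb
  have ha2 := ball_subset_ball (min_le_right δ1 r) ha
  have hb2 := ball_subset_ball (min_le_right δ1 r) hb
  rw [hint a ha2 b hb2]
  have hcont : ContinuousOn (fun t : ℝ => F (a + t • (b - a)) (b - a)) (uIcc 0 1) := by
    intro t ht
    rw [uIcc_of_le zero_le_one] at ht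
    have hm := sub1 (Geo.seg_mem ha1 hb1 ht.1 ht.2)
    have c2 : ContinuousAt (fun t : ℝ => (a + t • (b - a), b - a)) t := by fun_prop
    exact (ContinuousAt.comp (f := fun t : ℝ => (a + t • (b - a), b - a)) (x := t)
      (C.contAt hm (b - a)) c2).continuousWithinAt
  have e : (∫ t in (0 : ℝ)..1, F (a + t • (b - a)) (b - a)) - F x (b - a) =
      ∫ t in (0 : ℝ)..1, (F (a + t • (b - a)) (b - a) - F x (b - a)) := by
    rw [intervalIntegral.integral_sub hcont.intervalIntegrable (_root_.intervalIntegrable_const)]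
    simp
  rw [e]
  have := intervalIntegral.norm_integral_le_of_norm_le_const (a := 0) (b := 1)
    (f := fun t : ℝ => F (a + t • (b - a)) (b - a) - F x (b - a)) (C := ε * ‖b - a‖)
    (fun t ht => by
      rw [uIoc_of_le zero_le_one] at ht
      exact un _ (Geo.seg_mem ha1 hb1 ht.1.le ht.2) _)
  simpa using this

/-- a foot gives a Birkhoff orthogonal pair in the tangent plane -/
lemma foot_bk (C : PreCore M F d) {X O v : ℝ × ℝ} (hX : X ∈ M) (hO : O ∈ M) (hne : X ≠ O)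
    (hf : ∀ t : ℝ, O + t • v ∈ M → d X O ≤ d X (O + t • v)) : Bk (F O) (X - O) v := by
  intro s
  by_contra hcon
  push Not at hcon
  obtain ⟨u, hu⟩ : ∃ u, u = X - O := ⟨_, rfl⟩
  rw [← hu] at hcon
  have hN := C.Fn O hO
  set g := F O u - F O (u + s • v) with hg
  have hg0 : 0 < g := by rw [hg]; linarith
  set ε := g / (2 * (‖u‖ + ‖u + s • v‖ + 1)) with hε
  have hε0 : 0 < ε := by positivity
  obtain ⟨δ, hδ, sub, est⟩ := C.near hO hε0
  obtain ⟨t, ht0, htδ, htM, heq⟩ := C.ap X hX O hO hne (δ / (‖u‖ + ‖s • v‖ + 1)) (by positivity)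
  rw [← hu] at htM heq
  have ht1 : |t| * (‖u‖ + ‖s • v‖ + 1) < δ := by
    rwa [lt_div_iff₀ (by positivity)] at htδ
  have b1 : O + t • u ∈ ball O δ := by
    rw [mem_ball, dist_eq_norm, add_sub_cancel_left, norm_smul, Real.norm_eq_abs]
    nlinarith [abs_nonneg t, norm_nonneg (s • v)]
  have b2 : O + (-(t * s)) • v ∈ ball O δ := by
    rw [mem_ball, dist_eq_norm, add_sub_cancel_left]
    have : (-(t * s)) • v = (-t) • (s • v) := by module
    rw [this, norm_smul, Real.norm_eq_abs, abs_neg]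
    nlinarith [abs_nonneg t, norm_nonneg u]
  have b0 : O ∈ ball O δ := mem_ball_self hδ
  have h1 := hf (-(t * s)) (sub b2)
  have h2 := C.tri X hX _ htM _ (sub b2)
  have h3 : d (O + t • u) O ≤ d (O + t • u) (O + (-(t * s)) • v) := by linarith
  have e1 := est _ b1 _ b0
  have e2 := est _ b1 _ b2
  have r1 : O - (O + t • u) = (-t) • u := by module
  have r2 : O + (-(t * s)) • v - (O + t • u) = (-t) • (u + s • v) := by module
  rw [r1, hN.smul, norm_smul, Real.norm_eq_abs, abs_neg] at e1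
  rw [r2, hN.smul, norm_smul, Real.norm_eq_abs, abs_neg] at e2
  have tp : 0 < |t| := abs_pos.2 ht0
  have h4 : |t| * g ≤ |t| * (ε * (‖u‖ + ‖u + s • v‖)) := by
    rw [hg]
    linarith [(abs_le.1 e1).1, (abs_le.1 e2).2]
  have h5 := le_of_mul_le_mul_left h4 tp
  have h6 : ε * (‖u‖ + ‖u + s • v‖ + 1) = g / 2 := by rw [hε]; field_simp
  nlinarith

lemma bk_slope {N : ℝ × ℝ → ℝ} (hN : PNorm N) {u w : ℝ × ℝ} {s : ℝ}
    (hb : Bk N u (w - s • u)) (t : ℝ) : s * t * N u ≤ N (u + t • w) - N u := by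
  rcases le_or_gt (1 + t * s) 0 with h | h
  · have h1 := hN.nonneg (u + t • w)
    have h2 := hN.nonneg u
    nlinarith
  · have h1 := hb (t / (1 + t * s))
    have e : u + t • w = (1 + t * s) • (u + (t / (1 + t * s)) • (w - s • u)) := by
      rw [smul_add, smul_smul, mul_div_cancel₀ _ h.ne']
      module
    rw [e, hN.smul, abs_of_pos h]
    nlinarith

lemma bk_normal {N : ℝ × ℝ → ℝ} (hN : PNorm N) {u w v : ℝ × ℝ} (hu : u ≠ 0)
    (huw : Om u w ≠ 0) (hv : v ≠ 0) (hb : Bk N u v) :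
    ∃ k s : ℝ, k ≠ 0 ∧ v = k • (w - s • u) := by
  have hOm := hN.Bk_Om_ne hu hv hb
  have hdec := Om_decomp (u := u) (v := w) huw v
  have hk : Om u v / Om u w ≠ 0 := div_ne_zero hOm huw
  refine ⟨Om u v / Om u w, -(Om v w / Om u w) / (Om u v / Om u w), hk, ?_⟩
  rw [smul_sub, smul_smul, mul_div_cancel₀ _ hk]
  conv_lhs => rw [hdec]
  module

lemma exists_support (C : PreCore M F d) {O u w : ℝ × ℝ} (hO : O ∈ M) (hu : u ≠ 0)
    (huw : Om u w ≠ 0) {τ : ℝ} (hτ : τ ≠ 0) (hX : O + τ • u ∈ M) :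
    ∃ s : ℝ, (∀ t : ℝ, O + t • (w - s • u) ∈ M →
      d (O + τ • u) O ≤ d (O + τ • u) (O + t • (w - s • u))) ∧
      ∀ t : ℝ, s * t * F O u ≤ F O (u + t • w) - F O u := by
  have hne : O + τ • u ≠ O := by
    intro h
    have : τ • u = 0 := by simpa using h
    exact smul_ne_zero hτ hu this
  obtain ⟨v, hv, hf⟩ := C.sd _ hX O hO hne
  have hN := C.Fn O hO
  have hb := C.foot_bk hX hO hne hf
  have e0 : O + τ • u - O = τ • u := by abel
  rw [e0] at hb
  have hb' : Bk (F O) u v := by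
    intro t
    have h1 := hb (τ * t)
    have e : τ • u + (τ * t) • v = τ • (u + t • v) := by module
    rw [e, hN.smul, hN.smul] at h1
    exact le_of_mul_le_mul_left h1 (abs_pos.2 hτ)
  obtain ⟨k, s, hOm, hvk⟩ := bk_normal hN hu huw hv hb'
  refine ⟨s, ?_, ?_⟩
  · intro t ht
    have e : O + t • (w - s • u) = O + (t / k) • v := by
      conv_rhs => rw [hvk]
      rw [smul_smul, div_mul_cancel₀ _ hOm]
    rw [e] at ht ⊢
    exact hf _ ht
  · refine bk_slope hN ?_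
    intro t
    have h1 := hb' (t / k)
    have e : (t / k) • v = t • (w - s • u) := by
      conv_lhs => rw [hvk]
      rw [smul_smul, div_mul_cancel₀ _ hOm]
    rwa [e] at h1

/-- right slope of the norm -/
noncomputable def rho (N : ℝ × ℝ → ℝ) (u w : ℝ × ℝ) : ℝ :=
  sInf ((fun t : ℝ => (N (u + t • w) - N u) / t) '' Ioi 0)

lemma rho_bdd {N : ℝ × ℝ → ℝ} (hN : PNorm N) (u w : ℝ × ℝ) :
    BddBelow ((fun t : ℝ => (N (u + t • w) - N u) / t) '' Ioi 0) := by
  refine ⟨-N w, ?_⟩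
  rintro _ ⟨t, ht, rfl⟩
  have ht' : 0 < t := ht
  show -N w ≤ (N (u + t • w) - N u) / t
  rw [le_div_iff₀ ht']
  have h1 := hN.tri (u + t • w) ((-t) • w)
  have e : u + t • w + (-t) • w = u := by module
  rw [e, hN.smul, abs_neg, abs_of_pos ht'] at h1
  linarith

lemma rho_le {N : ℝ × ℝ → ℝ} (hN : PNorm N) (u w : ℝ × ℝ) {t : ℝ} (ht : 0 < t) :
    rho N u w ≤ (N (u + t • w) - N u) / t :=
  csInf_le (rho_bdd hN u w) ⟨t, ht, rfl⟩

lemma le_rho {N : ℝ × ℝ → ℝ} {u w : ℝ × ℝ} {a : ℝ}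
    (h : ∀ t : ℝ, 0 < t → a ≤ (N (u + t • w) - N u) / t) : a ≤ rho N u w := by
  refine le_csInf ⟨(N (u + (1 : ℝ) • w) - N u) / 1, 1, by simp, rfl⟩ ?_
  rintro _ ⟨t, ht, rfl⟩
  exact h t ht

lemma exists_rho_lt {N : ℝ × ℝ → ℝ} {u w : ℝ × ℝ} {a : ℝ} (h : rho N u w < a) :
    ∃ t : ℝ, 0 < t ∧ (N (u + t • w) - N u) / t < a := by
  have hne : ((fun t : ℝ => (N (u + t • w) - N u) / t) '' Ioi 0).Nonempty :=
    ⟨_, 1, by simp, rfl⟩
  obtain ⟨_, ⟨t, ht, rfl⟩, hlt⟩ := exists_lt_of_csInf_lt hne h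
  exact ⟨t, ht, hlt⟩

/-- extreme supporting directions are `d`-perpendicular -/
lemma perp_ext (C : PreCore M F d) {O u w : ℝ × ℝ} (hO : O ∈ M) (hu : u ≠ 0) (huw : Om u w ≠ 0) :
    Perp M d O u (w - (rho (F O) u w / F O u) • u) := by
  have hN := C.Fn O hO
  set N := F O with hNd
  set s0 := rho N u w / N u with hs0
  have hNu := hN.pos hu
  intro τ t hX hP
  rcases eq_or_ne τ 0 with h0 | h0
  · rw [h0, zero_smul, add_zero]
    obtain ⟨r, hr, _, hint, _⟩ := C.loc O hO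
    have h1 := hint O (mem_ball_self hr) O (mem_ball_self hr)
    have h2 : d O O = 0 := by
      rw [h1]
      simp [hN.zero, ← hNd]
    rw [h2]
    exact C.nn _ hO _ hP
  -- the perturbed directions
  set uk : ℝ → ℝ × ℝ := fun ε => u + ε • w with huk
  have hOmk : ∀ ε, Om (uk ε) w ≠ 0 := by
    intro ε; simp only [huk]; rw [Om_add_left, Om_smul_left, Om_self]; simpa using huw
  have huk0 : ∀ ε, uk ε ≠ 0 := by
    intro ε h
    have := hOmk ε
    rw [h, Om_zero_left] at this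
    exact this rfl
  have hkM : ∀ᶠ ε in 𝓝[>] (0 : ℝ), O + τ • uk ε ∈ M := by
    have c : ContinuousAt (fun ε : ℝ => O + τ • uk ε) 0 := by simp only [huk]; fun_prop
    have := c.eventually (C.op.mem_nhds (by simpa [huk] using hX))
    exact this.filter_mono nhdsWithin_le_nhds
  have hex : ∀ ε : ℝ, ∃ s : ℝ, O + τ • uk ε ∈ M → ((∀ t : ℝ, O + t • (w - s • uk ε) ∈ M →
      d (O + τ • uk ε) O ≤ d (O + τ • uk ε) (O + t • (w - s • uk ε))) ∧
      ∀ t : ℝ, s * t * N (uk ε) ≤ N (uk ε + t • w) - N (uk ε)) := by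
    intro ε
    by_cases h : O + τ • uk ε ∈ M
    · obtain ⟨s, hs⟩ := C.exists_support hO (huk0 ε) (hOmk ε) h0 h
      exact ⟨s, fun _ => hs⟩
    · exact ⟨0, fun h' => absurd h' h⟩
  choose S hS using hex
  have hNc := hN.continuous
  have hlim : Tendsto S (𝓝[>] 0) (𝓝 s0) := by
    rw [tendsto_order]
    constructor
    · intro a ha
      -- lower bound: S ε ≥ rho / N (uk ε)
      have c : Tendsto (fun ε : ℝ => rho N u w / N (uk ε)) (𝓝[>] 0) (𝓝 s0) := by
        have c1 : ContinuousAt (fun ε : ℝ => rho N u w / N (uk ε)) 0 := by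
          refine ContinuousAt.div continuousAt_const ?_ (by simpa [huk] using hNu.ne')
          refine hNc.continuousAt.comp ?_
          simp only [huk]; fun_prop
        have := c1.tendsto
        simp only [huk, zero_smul, add_zero] at this
        exact this.mono_left nhdsWithin_le_nhds
      filter_upwards [c.eventually (lt_mem_nhds ha), hkM, self_mem_nhdsWithin] with ε h1 h2 h3
      have hε : 0 < ε := h3
      refine lt_of_lt_of_le h1 ?_
      have h4 := (hS ε h2).2 (-ε)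
      have e : uk ε + (-ε) • w = u := by simp only [huk]; module
      rw [e] at h4
      have h5 := rho_le hN u w hε
      have hk := hN.pos (huk0 ε)
      rw [div_le_iff₀ hk]
      rw [le_div_iff₀ hε] at h5
      have h6 : rho N u w * ε ≤ S ε * N (uk ε) * ε := by
        have : N (u + ε • w) = N (uk ε) := rfl
        rw [this] at h5
        linarith
      exact le_of_mul_le_mul_right h6 hε
    · intro a ha
      -- upper bound
      have h1 : rho N u w < a * N u := by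
        have ha' : s0 < a := ha
        rwa [hs0, div_lt_iff₀ hNu] at ha'
      obtain ⟨t1, ht1, hlt⟩ := exists_rho_lt h1
      have c1 : ContinuousAt (fun ε : ℝ => (N (uk ε + t1 • w) - N (uk ε)) / t1 - a * N (uk ε)) 0 := by
        have cu : ContinuousAt uk 0 := by simp only [huk]; fun_prop
        have c2 : ContinuousAt (fun ε : ℝ => N (uk ε)) 0 := hNc.continuousAt.comp cu
        have c3 : ContinuousAt (fun ε : ℝ => N (uk ε + t1 • w)) 0 :=
          hNc.continuousAt.comp (cu.add continuousAt_const)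
        exact ((c3.sub c2).div_const t1).sub (continuousAt_const.mul c2)
      have ev : ∀ᶠ ε in 𝓝 (0 : ℝ), (N (uk ε + t1 • w) - N (uk ε)) / t1 - a * N (uk ε) < 0 :=
        c1.eventually (gt_mem_nhds (by
          simp only [huk, zero_smul, add_zero]; linarith [hlt]))
      filter_upwards [ev.filter_mono nhdsWithin_le_nhds, hkM] with ε h2 h3
      have h4 := (hS ε h3).2 t1
      have hk := hN.pos (huk0 ε)
      have h5 : S ε * N (uk ε) ≤ (N (uk ε + t1 • w) - N (uk ε)) / t1 := by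
        rw [le_div_iff₀ ht1]; linarith
      have h6 : S ε * N (uk ε) < a * N (uk ε) := by linarith
      exact lt_of_mul_lt_mul_right h6 hk.le
  -- pass to the limit
  have hPk : Tendsto (fun ε => O + t • (w - S ε • uk ε)) (𝓝[>] 0)
      (𝓝 (O + t • (w - s0 • u))) := by
    have c1 : Tendsto uk (𝓝[>] 0) (𝓝 u) := by
      have : ContinuousAt uk 0 := by simp only [huk]; fun_prop
      have h2 := this.tendsto
      simp only [huk, zero_smul, add_zero] at h2
      exact h2.mono_left nhdsWithin_le_nhds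
    exact ((tendsto_const_nhds.sub (hlim.smul c1)).const_smul t).const_add O
  have hXk : Tendsto (fun ε => O + τ • uk ε) (𝓝[>] 0) (𝓝 (O + τ • u)) := by
    have : ContinuousAt (fun ε : ℝ => O + τ • uk ε) 0 := by simp only [huk]; fun_prop
    have h2 := this.tendsto
    simp only [huk, zero_smul, add_zero] at h2
    exact h2.mono_left nhdsWithin_le_nhds
  have dcont : ∀ a ∈ M, ∀ b ∈ M, ContinuousAt (fun p : (ℝ × ℝ) × (ℝ × ℝ) => d p.1 p.2) (a, b) :=
    fun a ha b hb => C.dc.continuousAt ((C.op.prod C.op).mem_nhds ⟨ha, hb⟩)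
  have L1 : Tendsto (fun ε => d (O + τ • uk ε) O) (𝓝[>] 0) (𝓝 (d (O + τ • u) O)) := by
    have h1 := (dcont _ hX _ hO).tendsto
    exact h1.comp (hXk.prodMk_nhds tendsto_const_nhds)
  have L2 : Tendsto (fun ε => d (O + τ • uk ε) (O + t • (w - S ε • uk ε))) (𝓝[>] 0)
      (𝓝 (d (O + τ • u) (O + t • (w - s0 • u)))) := by
    have h1 := (dcont _ hX _ hP).tendsto
    exact h1.comp (hXk.prodMk_nhds hPk)
  refine le_of_tendsto_of_tendsto L1 L2 ?_
  filter_upwards [hkM, hPk.eventually (C.op.mem_nhds hP)] with ε h1 h2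
  exact (hS ε h1).1 t h2

lemma perp_bk (C : PreCore M F d) {O u v : ℝ × ℝ} (hO : O ∈ M) (hu : u ≠ 0)
    (hp : Perp M d O u v) : Bk (F O) u v := by
  have c : ContinuousAt (fun s : ℝ => O + s • u) 0 := by fun_prop
  have ev := c.eventually (C.op.mem_nhds (by simpa using hO))
  rw [Metric.eventually_nhds_iff] at ev
  obtain ⟨ε, hε, hε'⟩ := ev
  have hs : 0 < ε / 2 := by positivity
  have hX : O + (ε / 2) • u ∈ M := hε' (by
    rw [Real.dist_eq, sub_zero, abs_of_pos hs]; linarith)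
  have hne : O + (ε / 2) • u ≠ O := by
    intro h
    have : (ε / 2) • u = 0 := by simpa using h
    exact smul_ne_zero hs.ne' hu this
  have hb := C.foot_bk hX hO hne (fun t ht => hp _ t hX ht)
  have hN := C.Fn O hO
  have e0 : O + (ε / 2) • u - O = (ε / 2) • u := by abel
  rw [e0] at hb
  intro t
  have h1 := hb ((ε / 2) * t)
  have e : (ε / 2) • u + ((ε / 2) * t) • v = (ε / 2) • (u + t • v) := by module
  rw [e, hN.smul, hN.smul] at h1
  exact le_of_mul_le_mul_left h1 (abs_pos.2 hs.ne')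


/-- in the interior of a flat side the only orthogonal direction is that of the side -/
lemma flat_dir {N : ℝ × ℝ → ℝ} (hN : PNorm N) {v e v' : ℝ × ℝ} (hOm : Om e v ≠ 0) {δ : ℝ}
    (hδ : 0 < δ) (hflat : ∀ r : ℝ, |r| < δ → N (v + r • e) = N v) (hv : v ≠ 0) (hv' : v' ≠ 0)
    (hb : Bk N v v') : ∃ k : ℝ, k ≠ 0 ∧ v' = k • e := by
  have hdec := Om_decomp hOm v'
  set α := Om v' v / Om e v with hα
  set β := Om e v' / Om e v with hβ
  by_cases hβ0 : β = 0
  · refine ⟨α, ?_, by rw [hβ0, zero_smul, add_zero] at hdec; exact hdec⟩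
    intro h0
    rw [h0, hβ0] at hdec
    apply hv'
    rw [hdec]; simp
  exfalso
  have hNv := hN.pos hv
  -- a small parameter with the right sign
  have hB : 0 < |β| := abs_pos.2 hβ0
  obtain ⟨c, hc, hc1, hc2⟩ : ∃ c > 0, c * |β| ≤ 1 / 2 ∧ 2 * c * |α| < δ := by
    refine ⟨min (1 / (2 * |β|)) (δ / (4 * (|α| + 1))), by positivity, ?_, ?_⟩
    · calc min (1 / (2 * |β|)) (δ / (4 * (|α| + 1))) * |β| ≤ 1 / (2 * |β|) * |β| := by
            gcongr; exact min_le_left _ _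
        _ = 1 / 2 := by field_simp
    · have h1 : min (1 / (2 * |β|)) (δ / (4 * (|α| + 1))) ≤ δ / (4 * (|α| + 1)) := min_le_right _ _
      have h2 : δ / (4 * (|α| + 1)) * (4 * (|α| + 1)) = δ := by field_simp
      have h3 := abs_nonneg α
      have h4 : 0 < min (1 / (2 * |β|)) (δ / (4 * (|α| + 1))) := by positivity
      nlinarith [mul_le_mul_of_nonneg_right h1 (by positivity : 0 ≤ 4 * (|α| + 1))]
  obtain ⟨t, ht1, ht2⟩ : ∃ t : ℝ, t * β = -(c * |β|) ∧ |t| = c := by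
    rcases lt_or_gt_of_ne hβ0 with h | h
    · exact ⟨c, by rw [abs_of_neg h]; ring, abs_of_pos hc⟩
    · exact ⟨-c, by rw [abs_of_pos h]; ring, by rw [abs_neg, abs_of_pos hc]⟩
  have hpos : 0 < 1 + t * β := by rw [ht1]; linarith
  have hlt : 1 + t * β < 1 := by rw [ht1]; nlinarith
  have e1 : v + t • v' = (1 + t * β) • (v + (t * α / (1 + t * β)) • e) := by
    rw [smul_add, smul_smul, mul_div_cancel₀ _ hpos.ne']
    conv_lhs => rw [hdec]
    module
  have hsmall : |t * α / (1 + t * β)| < δ := by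
    rw [abs_div, abs_of_pos hpos, abs_mul, ht2, div_lt_iff₀ hpos]
    have : 1 / 2 ≤ 1 + t * β := by rw [ht1]; linarith
    nlinarith
  have h1 := hb t
  rw [e1, hN.smul, hflat _ hsmall, abs_of_pos hpos] at h1
  nlinarith

/-- the tangent norms are strictly convex -/
lemma strict (C : PreCore M F d) {O : ℝ × ℝ} (hO : O ∈ M) : StrictNorm (F O) := by
  have hN := C.Fn O hO
  refine ⟨hN.1, hN.2.1, fun u v hOm => ?_⟩
  by_contra hcon
  push Not at hcon
  have heq : F O (u + v) = F O u + F O v := le_antisymm (hN.tri u v) hcon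
  set N := F O with hNd
  have hu : u ≠ 0 := by rintro rfl; exact hOm (Om_zero_left _)
  have hv : v ≠ 0 := by rintro rfl; exact hOm (Om_zero_right _)
  have hNu := hN.pos hu
  have hNv := hN.pos hv
  obtain ⟨v0, hv0⟩ : ∃ v0, v0 = (N u)⁻¹ • u := ⟨_, rfl⟩
  obtain ⟨v1, hv1⟩ : ∃ v1, v1 = (N v)⁻¹ • v := ⟨_, rfl⟩
  have n0 : N v0 = 1 := by
    rw [hv0, hN.smul, abs_of_pos (inv_pos.2 hNu), inv_mul_cancel₀ hNu.ne']
  have n1 : N v1 = 1 := by
    rw [hv1, hN.smul, abs_of_pos (inv_pos.2 hNv), inv_mul_cancel₀ hNv.ne']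
  have hOm01 : Om v0 v1 ≠ 0 := by
    rw [hv0, hv1, Om_smul_left, Om_smul_right]
    exact mul_ne_zero (inv_ne_zero hNu.ne') (mul_ne_zero (inv_ne_zero hNv.ne') hOm)
  -- the flat side
  have flat : ∀ s ∈ Icc (0 : ℝ) 1, N ((1 - s) • v0 + s • v1) = 1 := by
    obtain ⟨f, hf1, hf2⟩ := hN.exists_support (u + v)
    have hfu : f u = N u := by
      have := hf2 v
      have h2 := hf2 u
      rw [map_add, heq] at hf1
      linarith
    have hfv : f v = N v := by
      have := hf2 v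
      rw [map_add, heq, hfu] at hf1
      linarith
    intro s hs
    apply le_antisymm
    · refine (hN.tri _ _).trans ?_
      rw [hN.smul, hN.smul, n0, n1, abs_of_nonneg (sub_nonneg.2 hs.2), abs_of_nonneg hs.1]
      linarith
    · have h1 := hf2 ((1 - s) • v0 + s • v1)
      rw [map_add, map_smul, map_smul, hv0, hv1, map_smul, map_smul, hfu, hfv] at h1
      rw [hv0, hv1]
      simp only [smul_eq_mul] at h1
      rw [inv_mul_cancel₀ hNu.ne', inv_mul_cancel₀ hNv.ne'] at h1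
      linarith
  obtain ⟨e, he⟩ : ∃ e, e = v1 - v0 := ⟨_, rfl⟩
  obtain ⟨vm, hvm⟩ : ∃ vm, vm = (1 / 2 : ℝ) • v0 + (1 / 2 : ℝ) • v1 := ⟨_, rfl⟩
  have hOmem : Om e vm ≠ 0 := by
    have : Om e vm = - Om v0 v1 := by
      rw [he, hvm]
      simp only [Om_sub_left, Om_add_right, Om_smul_right, Om_self]
      rw [Om_swap v1 v0]; ring
    rw [this]; exact neg_ne_zero.2 hOm01
  have he0 : e ≠ 0 := by rintro h; rw [h] at hOmem; exact hOmem (Om_zero_left _)
  have flat' : ∀ κ : ℝ, |κ| < 1 / 2 → N (vm + κ • e) = 1 := by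
    intro κ hκ
    rw [abs_lt] at hκ
    have := flat (κ + 1 / 2) ⟨by linarith [hκ.1], by linarith [hκ.2]⟩
    rw [← this]
    congr 1
    rw [hvm, he]
    module
  -- Claim A
  have claimA : ∀ κ : ℝ, |κ| < 1 / 2 → Perp M d O (vm + κ • e) e := by
    intro κ hκ
    have hOm1 : Om e (vm + κ • e) ≠ 0 := by
      rw [Om_add_right, Om_smul_right, Om_self, mul_zero, add_zero]; exact hOmem
    have hne : vm + κ • e ≠ 0 := by
      intro h; rw [h] at hOm1; exact hOm1 (Om_zero_right _)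
    have hOm2 : Om (vm + κ • e) e ≠ 0 := by rw [Om_swap]; exact neg_ne_zero.2 hOm1
    have P := C.perp_ext hO hne hOm2
    set v' := e - (rho (F O) (vm + κ • e) e / F O (vm + κ • e)) • (vm + κ • e) with hv'
    have hv'0 : v' ≠ 0 := by
      intro h
      have : Om (vm + κ • e) v' = Om (vm + κ • e) e := by
        rw [hv', Om_sub_right, Om_smul_right, Om_self]; ring
      rw [h, Om_zero_right] at this
      exact hOm2 this.symm
    have hb := C.perp_bk hO hne P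
    obtain ⟨k, hk, hke⟩ := flat_dir hN hOm1 (δ := 1 / 2 - |κ|) (by linarith)
      (fun r hr => by
        have e1 : vm + κ • e + r • e = vm + (κ + r) • e := by module
        rw [e1, flat' κ hκ, flat' (κ + r) (lt_of_le_of_lt (abs_add_le _ _) (by linarith))])
      hne hv'0 hb
    intro s t h1 h2
    have := P s (t / k) h1
    rw [hke, smul_smul, div_mul_cancel₀ _ hk] at this
    exact this h2
  -- a nearby perpendicular
  obtain ⟨r0, hr0, hfu⟩ := C.fu O hO
  obtain ⟨r1, hr1, hr1M⟩ := Metric.isOpen_iff.1 C.op O hO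
  obtain ⟨r, hr, hrr0, hrr1⟩ : ∃ r > 0, r ≤ r0 ∧ r ≤ r1 :=
    ⟨min r0 r1, lt_min hr0 hr1, min_le_left _ _, min_le_right _ _⟩
  obtain ⟨ε, hε, hε1⟩ : ∃ ε > 0, ε * (4 * (‖vm‖ + ‖e‖)) + ε * ‖e‖ < r := by
    refine ⟨r / (4 * (‖vm‖ + ‖e‖) + ‖e‖ + 1), by positivity, ?_⟩
    rw [← mul_add, div_mul_eq_mul_div, div_lt_iff₀ (by positivity)]
    nlinarith
  have hve : 0 < ‖e‖ := norm_pos_iff.2 he0
  have hO'b : O + ε • e ∈ ball O r := by
    rw [mem_ball, dist_eq_norm, add_sub_cancel_left, norm_smul, Real.norm_eq_abs, abs_of_pos hε]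
    nlinarith [norm_nonneg vm]
  have hO' : O + ε • e ∈ M := hr1M (ball_subset_ball hrr1 hO'b)
  have hN' := C.Fn _ hO'
  have hOm3 : Om e vm ≠ 0 := hOmem
  have P' := C.perp_ext hO' he0 hOm3
  set κ := -(rho (F (O + ε • e)) e vm / F (O + ε • e) e) with hκ
  have hw' : vm - (rho (F (O + ε • e)) e vm / F (O + ε • e) e) • e = vm + κ • e := by
    rw [hκ]; module
  rw [hw'] at P'
  have hw0 : vm + κ • e ≠ 0 := by
    intro h
    have : Om e (vm + κ • e) = Om e vm := by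
      rw [Om_add_right, Om_smul_right, Om_self]; ring
    rw [h, Om_zero_right] at this
    exact hOmem this.symm
  have P'' := C.sym _ hO' e _ he0 hw0 P'
  obtain ⟨τ, hτ0, hτ1, hτ2⟩ : ∃ τ : ℝ, τ ≠ 0 ∧ |τ| ≤ 4 * ε ∧ |κ + ε / τ| < 1 / 2 := by
    rcases lt_or_ge |κ| (1 / 4) with h | h
    · refine ⟨4 * ε, by positivity, by rw [abs_of_pos (by positivity)], ?_⟩
      have : ε / (4 * ε) = 1 / 4 := by field_simp
      rw [this]
      rw [abs_lt] at h ⊢
      constructor <;> linarith [h.1, h.2]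
    · have hκ0 : κ ≠ 0 := by rintro h0; rw [h0] at h; norm_num at h
      refine ⟨-(ε / κ), neg_ne_zero.2 (div_ne_zero hε.ne' hκ0), ?_, ?_⟩
      · rw [abs_neg, abs_div, abs_of_pos hε, div_le_iff₀ (by positivity)]
        nlinarith
      · have : κ + ε / -(ε / κ) = 0 := by field_simp; ring
        rw [this]; norm_num
  set κ' := κ + ε / τ with hκ'
  have eX : O + ε • e + τ • (vm + κ • e) = O + τ • (vm + κ' • e) := by
    have : τ • (vm + κ' • e) = τ • (vm + κ • e) + (τ * (ε / τ)) • e := by rw [hκ']; module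
    rw [this, mul_div_cancel₀ _ hτ0]
    abel
  have hXb : O + τ • (vm + κ' • e) ∈ ball O r := by
    rw [mem_ball, dist_eq_norm, add_sub_cancel_left, norm_smul, Real.norm_eq_abs]
    have h1 : ‖vm + κ' • e‖ ≤ ‖vm‖ + ‖e‖ := by
      refine (norm_add_le _ _).trans ?_
      rw [norm_smul, Real.norm_eq_abs]
      nlinarith
    have h2 : |τ| * ‖vm + κ' • e‖ ≤ 4 * ε * (‖vm‖ + ‖e‖) := by gcongr
    nlinarith
  have hXM : O + τ • (vm + κ' • e) ∈ M := hr1M (ball_subset_ball hrr1 hXb)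
  have f1 : ∀ t : ℝ, O + t • e ∈ M →
      d (O + τ • (vm + κ' • e)) O ≤ d (O + τ • (vm + κ' • e)) (O + t • e) :=
    fun t ht => claimA κ' hτ2 τ t hXM ht
  have f2 : d (O + τ • (vm + κ' • e)) (O + ε • e) ≤ d (O + τ • (vm + κ' • e)) O := by
    have h1 := P'' τ (-ε) (by rw [eX]; exact hXM)
    have e2 : O + ε • e + (-ε) • e = O := by module
    rw [e2, eX] at h1
    exact h1 hO
  have f3 := hfu (O + τ • (vm + κ' • e)) (ball_subset_ball hrr0 hXb) O (mem_ball_self hr0)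
    (O + ε • e) (ball_subset_ball hrr0 hO'b) (by
      intro h
      have : ε • e = 0 := by
        have := h.symm
        simpa using this
      exact smul_ne_zero hε.ne' he0 this) hXM hO hO' (by
      intro t ht
      have e3 : O + t • (O + ε • e - O) = O + (t * ε) • e := by module
      rw [e3] at ht ⊢
      exact f1 _ ht)
  linarith

theorem core (C : PreCore M F d) : Core M F d where
  op := C.op
  cv := C.cv
  Fs := fun _ hx => C.strict hx
  Fc := C.Fc
  dc := C.dc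
  nn := C.nn
  tri := C.tri
  loc := C.loc
  sd := C.sd
  ap := C.ap
  sym := C.sym

end PreCore

end Pool.Agent.Helper831.PM
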