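import Pool.Agent.Helper831.RadonDefs
import Pool.Agent.Helper831.PMProj4
import Pool.Agent.Helper831.PMEnd

namespace Pool.Agent.Helper831.RadonPlane

open Set Module Filter Topology Pool.Agent.Helper831.PM

/-- homogeneous coordinates -/
abbrev V3 := (ℝ × ℝ) × ℝ

/-- the projective plane -/
abbrev P2 := Projectivization ℝ V3

/-- the distance on vectors -/
noncomputable def DD (d : P2 → P2 → ℝ) (x y : V3) : ℝ := by
  classical
  exact if h : x ≠ 0 ∧ y ≠ 0 then
    d (Projectivization.mk ℝ x h.1) (Projectivization.mk ℝ y h.2) else 0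

lemma DD_eq (d : P2 → P2 → ℝ) {x y : V3} (hx : x ≠ 0) (hy : y ≠ 0) :
    DD d x y = d (Projectivization.mk ℝ x hx) (Projectivization.mk ℝ y hy) :=
  dif_pos ⟨hx, hy⟩

lemma mk_smul {x : V3} (hx : x ≠ 0) {a : ℝ} (ha : a ≠ 0) :
    Projectivization.mk ℝ (a • x) (smul_ne_zero ha hx) = Projectivization.mk ℝ x hx :=
  (Projectivization.mk_eq_mk_iff' ℝ _ _ _ _).2 ⟨a, rfl⟩

lemma mk_le {x : V3} (hx : x ≠ 0) {W : Submodule ℝ V3} :
    (Projectivization.mk ℝ x hx).submodule ≤ W ↔ x ∈ W := by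
  rw [Projectivization.submodule_mk, Submodule.span_singleton_le_iff_mem]

lemma rep_mem (P : P2) : P.rep ∈ P.submodule := by
  rw [Projectivization.submodule_eq]; exact Submodule.mem_span_singleton_self _

lemma DD_rep (d : P2 → P2 → ℝ) (P Q : P2) : DD d P.rep Q.rep = d P Q := by
  rw [DD_eq d P.rep_nonzero Q.rep_nonzero, Projectivization.mk_rep, Projectivization.mk_rep]

lemma finrank_span_pair {x u : V3} (h : Ind x u) :
    finrank ℝ (Submodule.span ℝ ({x, u} : Set V3)) = 2 := by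
  have hli : LinearIndependent ℝ ![x, u] := by
    rw [LinearIndependent.pair_iff]
    exact fun a b hab => h a b hab
  have h1 := finrank_span_eq_card hli
  have h2 : Set.range ![x, u] = {x, u} := by
    ext z
    simp only [Set.mem_range, Fin.exists_fin_two, Matrix.cons_val_zero, Matrix.cons_val_one,
      Set.mem_insert_iff, Set.mem_singleton_iff, eq_comm]
  rw [h2] at h1
  simpa using h1

lemma ne_of_ind {x u : V3} (h : Ind x u) : x ≠ 0 := by
  rintro rfl
  exact one_ne_zero (h 1 0 (by simp)).1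

theorem toPV {L : ℝ} {d : P2 → P2 → ℝ} {F : V3 → V3 → ℝ} (E : EllipticPlane L d)
    (hF : EllipticFinsler F d) (hs : EllipticSymmetric d) : PV (DD d) F L where
  hL := E.pos
  inv := by
    intro x y hx hy a b ha hb
    rw [DD_eq d (smul_ne_zero ha hx) (smul_ne_zero hb hy), DD_eq d hx hy, mk_smul hx ha,
      mk_smul hy hb]
  zero_iff := by
    intro x y hx hy
    rw [DD_eq d hx hy, E.eq_zero, eq_comm, Projectivization.mk_eq_mk_iff']
    exact ⟨fun ⟨a, ha⟩ => ⟨a, ha.symm⟩, fun ⟨a, ha⟩ => ⟨a, ha.symm⟩⟩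
  symm := by
    intro x y hx hy
    rw [DD_eq d hx hy, DD_eq d hy hx, E.symm]
  tri := by
    intro x y z hx hy hz
    rw [DD_eq d hx hy, DD_eq d hy hz, DD_eq d hx hz]
    exact E.triangle _ _ _
  cont := by
    rw [continuousOn_iff_continuous_domRestrict]
    have c : Continuous fun p : {p : V3 × V3 | p.1 ≠ 0 ∧ p.2 ≠ 0} =>
        ((⟨p.1.1, p.2.1⟩, ⟨p.1.2, p.2.2⟩) : {x : V3 // x ≠ 0} × {x : V3 // x ≠ 0}) := by
      fun_prop
    refine (E.cont.comp c).congr fun p => ?_
    show d _ _ = DD d p.1.1 p.1.2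
    rw [DD_eq d p.2.1 p.2.2]
  circ := by
    intro x u hxu
    have hL := E.pos
    have : Fact (0 < L) := ⟨hL⟩
    obtain ⟨c, hc1, hc2⟩ := E.circle _ (finrank_span_pair hxu)
    refine ⟨fun s => (c (s : AddCircle L)).rep, fun s => ⟨Projectivization.rep_nonzero _, ?_⟩,
      ?_, ?_, ?_⟩
    · have h1 : c (s : AddCircle L) ∈ range c := mem_range_self _
      rw [hc1] at h1
      have h2 := h1 (rep_mem _)
      obtain ⟨a, b, hab⟩ := Submodule.mem_span_pair.1 h2
      exact ⟨a, b, hab.symm⟩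
    · intro a b hne s0
      have h1 : Projectivization.mk ℝ (a • x + b • u) hne ∈ range c := by
        rw [hc1]
        exact (mk_le hne).2 (Submodule.mem_span_pair.2 ⟨a, b, rfl⟩)
      obtain ⟨θ, hθ⟩ := h1
      refine ⟨AddCircle.equivIco L s0 θ, (AddCircle.equivIco L s0 θ).2, ?_⟩
      have h2 : ((AddCircle.equivIco L s0 θ : ℝ) : AddCircle L) = θ := AddCircle.coe_equivIco
      show ∃ α : ℝ, α ≠ 0 ∧ a • x + b • u =
        α • (c ((AddCircle.equivIco L s0 θ : ℝ) : AddCircle L)).rep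
      rw [h2, hθ]
      obtain ⟨α, hα⟩ := Projectivization.exists_smul_eq_mk_rep ℝ (a • x + b • u) hne
      refine ⟨(α : ℝ)⁻¹, inv_ne_zero α.ne_zero, ?_⟩
      rw [← hα]
      show _ = (α : ℝ)⁻¹ • ((α : ℝ) • (a • x + b • u))
      rw [smul_smul, inv_mul_cancel₀ α.ne_zero, one_smul]
    · intro s t hst
      rw [DD_rep, hc2, dist_eq_norm, ← AddCircle.coe_sub,
        (AddCircle.norm_coe_eq_abs_iff L hL.ne').2 (by rwa [abs_of_pos hL])]
    · intro s
      show (c ((s + L : ℝ) : AddCircle L)).rep = _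
      rw [AddCircle.coe_add_period]
  strict := by
    intro x y z h
    have hx : x ≠ 0 := by
      rintro rfl
      exact one_ne_zero (h 1 0 0 (by simp)).1
    have hy : y ≠ 0 := by
      rintro rfl
      exact one_ne_zero (h 0 1 0 (by simp)).2.1
    have hz : z ≠ 0 := by
      rintro rfl
      exact one_ne_zero (h 0 0 1 (by simp)).2.2
    rw [DD_eq d hx hy, DD_eq d hy hz, DD_eq d hx hz]
    refine E.strict _ _ _ ?_
    rintro ⟨W, hW, h1, h2, h3⟩
    rw [mk_le] at h1 h2 h3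
    have hli : LinearIndependent ℝ ![x, y, z] := by
      rw [Fintype.linearIndependent_iff]
      intro g hg
      simp only [Fin.sum_univ_three, Matrix.cons_val_zero, Matrix.cons_val_one,
        Matrix.cons_val] at hg
      obtain ⟨a1, a2, a3⟩ := h _ _ _ hg
      intro i
      fin_cases i
      · exact a1
      · exact a2
      · exact a3
    have h4 := finrank_span_eq_card hli
    have h5 : Submodule.span ℝ (Set.range ![x, y, z]) ≤ W := by
      rw [Submodule.span_le]
      rintro _ ⟨i, rfl⟩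
      fin_cases i
      · exact h1
      · exact h2
      · exact h3
    have h6 := Submodule.finrank_mono h5
    rw [h4, hW] at h6
    simp at h6
  disc := by
    intro x hx r hr
    obtain ⟨B, hB1, hB2⟩ := E.disc (Projectivization.mk ℝ x hx) r hr
    refine ⟨B, fun y hy hle => ?_, ?_⟩
    · rw [DD_eq d hx hy] at hle
      obtain ⟨p, hp⟩ := hB1 hle
      unfold chart at hp
      rw [eq_comm, Projectivization.mk_eq_mk_iff'] at hp
      obtain ⟨a, ha⟩ := hp
      rw [← ha, map_smul, B.symm_apply_apply]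
      show a * 1 ≠ 0
      rw [mul_one]
      rintro rfl
      rw [zero_smul] at ha
      exact hy ha.symm
    · have e : {p : ℝ × ℝ | DD d x (B (p, 1)) ≤ r} =
          {p | d (Projectivization.mk ℝ x hx) (chart B p) ≤ r} := by
        ext p
        show DD d x (B (p, 1)) ≤ r ↔ _
        rw [DD_eq d hx (pt_ne B p)]
        rfl
      rw [e]; exact hB2
  Fscale := hF.scale
  Fpos := hF.pos
  Fhom := hF.smul
  Ftri := hF.add_le
  Fcont := hF.cont
  len := by
    intro x y hx hy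
    rw [DD_eq d hx hy]
    convert hF.length (Projectivization.mk ℝ x hx) (Projectivization.mk ℝ y hy) using 3 with l
    refine exists_congr fun γ => and_congr_right fun _ => and_congr_right fun hne => ?_
    rw [Projectivization.submodule_mk, Projectivization.submodule_mk,
      Submodule.mem_span_singleton, Submodule.mem_span_singleton]
    have h0 := hne 0 (by simp)
    have h1 := hne 1 (by simp)
    constructor
    · rintro ⟨⟨a, _, ha⟩, ⟨b, _, hb⟩, hl⟩
      exact ⟨⟨a, ha.symm⟩, ⟨b, hb.symm⟩, hl⟩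
    · rintro ⟨⟨a, ha⟩, ⟨b, hb⟩, hl⟩
      refine ⟨⟨a, ?_, ha.symm⟩, ⟨b, ?_, hb.symm⟩, hl⟩
      · rintro rfl; rw [zero_smul] at ha; exact h0 ha.symm
      · rintro rfl; rw [zero_smul] at hb; exact h1 hb.symm
  perp := by
    intro o u v hou hov h
    have ho := ne_of_ind hou
    have key := hs (Projectivization.mk ℝ o ho) _ _ (finrank_span_pair hou)
      (finrank_span_pair hov)
      ((mk_le ho).2 (Submodule.mem_span_pair.2 ⟨1, 0, by simp⟩))
      ((mk_le ho).2 (Submodule.mem_span_pair.2 ⟨1, 0, by simp⟩)) (by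
        intro X Y hX hY
        obtain ⟨a, b, hab⟩ := Submodule.mem_span_pair.1 (hX (rep_mem X))
        obtain ⟨a', b', hab'⟩ := Submodule.mem_span_pair.1 (hY (rep_mem Y))
        have h1 := h a b a' b' (by rw [hab]; exact X.rep_nonzero)
          (by rw [hab']; exact Y.rep_nonzero)
        rw [hab, hab', DD_rep, DD_eq d X.rep_nonzero ho, Projectivization.mk_rep] at h1
        exact h1)
    intro a b a' b' hne hne'
    rw [DD_eq d hne ho, DD_eq d hne hne']
    exact key _ _ ((mk_le hne).2 (Submodule.mem_span_pair.2 ⟨a, b, rfl⟩))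
      ((mk_le hne').2 (Submodule.mem_span_pair.2 ⟨a', b', rfl⟩))

theorem elliptic {L : ℝ} {d : P2 → P2 → ℝ} {F : V3 → V3 → ℝ} (E : EllipticPlane L d)
    (hF : EllipticFinsler F d) (hs : EllipticSymmetric d) (x : V3) (hx : x ≠ 0) :
    IsEuclidean (F x) := by
  have P := toPV E hF hs
  -- a chart centred at x
  obtain ⟨A0⟩ : Nonempty (W3 ≃ₗ[ℝ] V3) := ⟨LinearEquiv.refl ℝ _⟩
  obtain ⟨T, hT⟩ := SeparatingDual.exists_continuousLinearEquiv_apply_eq (R := ℝ)
    (pt_ne A0 0) hx
  set A : W3 ≃ₗ[ℝ] V3 := A0.trans T.toLinearEquiv with hA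
  have hAx : A ((0 : ℝ × ℝ), (1 : ℝ)) = x := hT
  obtain ⟨a, b, c, _, _, h⟩ := P.euclid A 0
  set l1 : V3 →ₗ[ℝ] ℝ := (LinearMap.fst ℝ ℝ ℝ).comp
    ((LinearMap.fst ℝ (ℝ × ℝ) ℝ).comp A.symm.toLinearMap) with hl1
  set l2 : V3 →ₗ[ℝ] ℝ := (LinearMap.snd ℝ ℝ ℝ).comp
    ((LinearMap.fst ℝ (ℝ × ℝ) ℝ).comp A.symm.toLinearMap) with hl2
  refine ⟨a • QuadraticMap.linMulLin l1 l1 + (2 * b) • QuadraticMap.linMulLin l1 l2 +
    c • QuadraticMap.linMulLin l2 l2, fun v => ?_⟩
  obtain ⟨u, s, hv⟩ : ∃ u s, A.symm v = (u, s) := ⟨_, _, rfl⟩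
  have ev : v = A (u, 0) + s • x := by
    rw [← hAx, ← map_smul, ← map_add, ← A.apply_symm_apply v, hv]
    congr 1
    ext <;> simp
  have e1 : F x v = F x (A (u, 0)) := by
    have := P.Fscale x (A (u, 0)) hx 1 s one_ne_zero
    rwa [one_smul, one_smul, ← ev] at this
  have e2 := h u
  have e3 : PV.FA F A 0 u = F x (A (u, 0)) := by
    unfold PV.FA
    rw [hAx]
  rw [e3] at e2
  rw [e1, e2]
  have e4 : l1 v = u.1 := by
    show (A.symm v).1.1 = u.1
    rw [hv]
  have e5 : l2 v = u.2 := by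
    show (A.symm v).1.2 = u.2
    rw [hv]
  simp only [add_apply, smul_apply, QuadraticMap.linMulLin_apply,
    smul_eq_mul, e4, e5]
  ring

theorem affine {M : Set (ℝ × ℝ)} {F d : ℝ × ℝ → ℝ × ℝ → ℝ} (hd : AffinePlane M d)
    (hF : AffineFinsler M F d) (hs : AffineSymmetric M d) :
    (∀ x ∈ M, IsEuclidean (F x)) ∨
      (M = univ ∧ ∃ N, IsRadon N ∧ ∀ x y, d x y = N (y - x)) := by
  have A : AffineMetric M d := ⟨hd.isOpen, hd.convex, hd.eq_zero, hd.symm,
    hd.triangle, hd.cont, hd.complete, hd.geodesic, hd.disc⟩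
  have hF' : FinslerOn M F d := ⟨hF.norm, hF.cont, hF.length⟩
  rcases A.main hF' hs with h | ⟨hM, N, hN, hdN, _⟩
  · left
    intro x hx
    obtain ⟨a, b, c, _, _, h⟩ := h x hx
    refine ⟨a • QuadraticMap.linMulLin (LinearMap.fst ℝ ℝ ℝ) (LinearMap.fst ℝ ℝ ℝ) +
      (2 * b) • QuadraticMap.linMulLin (LinearMap.fst ℝ ℝ ℝ) (LinearMap.snd ℝ ℝ ℝ) +
      c • QuadraticMap.linMulLin (LinearMap.snd ℝ ℝ ℝ) (LinearMap.snd ℝ ℝ ℝ), fun v => ?_⟩
    rw [h v]
    simp only [add_apply, smul_apply, QuadraticMap.linMulLin_apply,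
      smul_eq_mul, LinearMap.fst_apply, LinearMap.snd_apply]
    ring
  · refine Or.inr ⟨hM, N, ⟨⟨hN.1.1, hN.1.2.1, hN.1.tri⟩, fun u v hu hv hne => ?_, hN.2⟩, hdN⟩
    by_cases hO : Om u v = 0
    · have hu0 : u ≠ 0 := by
        rintro rfl
        rw [hN.1.zero] at hu
        norm_num at hu
      obtain ⟨c, rfl⟩ := parallel_of_Om hu0 hO
      rw [hN.1.smul, hu, mul_one] at hv
      rcases (abs_eq zero_le_one).1 hv with hc | hc
      · rw [hc, one_smul] at hne; exact absurd rfl hne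
      · rw [hc, neg_one_smul, add_neg_cancel, hN.1.zero]; norm_num
    · have := hN.1.2.2 u v hO
      rw [hu, hv] at this
      linarith

end Pool.Agent.Helper831.RadonPlane
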