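import Mathlib

/-! Projective-metric planes: definitions. -/

namespace Pool.Agent.Helper831.RadonPlane

open Set Module

/-! ### Norms -/

/-- A norm on the plane, given as a function. -/
def IsNorm (N : ℝ × ℝ → ℝ) : Prop :=
  (∀ u, u ≠ 0 → 0 < N u) ∧ (∀ (c : ℝ) (u : ℝ × ℝ), N (c • u) = |c| * N u) ∧
    ∀ u v, N (u + v) ≤ N u + N v

/-- A (semi)norm comes from an inner product: its square is a quadratic form. -/
def IsEuclidean {E : Type*} [AddCommGroup E] [Module ℝ E] (N : E → ℝ) : Prop :=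
  ∃ Q : QuadraticForm ℝ E, ∀ v, N v ^ 2 = Q v

/-- A Radon norm: a strictly convex norm whose Birkhoff orthogonality is symmetric. -/
def IsRadon (N : ℝ × ℝ → ℝ) : Prop :=
  IsNorm N ∧ (∀ u v, N u = 1 → N v = 1 → u ≠ v → N (u + v) < 2) ∧
    ∀ u v : ℝ × ℝ, (∀ t : ℝ, N u ≤ N (u + t • v)) → ∀ t : ℝ, N v ≤ N (v + t • u)

/-! ### Affine type -/

/-- A projective-metric plane of affine type: `M` is an open convex subset of the plane and `d`
is a complete metric on `M`, continuous for the standard topology, whose geodesic segments are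
exactly the affine segments, and all of whose discs are strictly convex. -/
structure AffinePlane (M : Set (ℝ × ℝ)) (d : ℝ × ℝ → ℝ × ℝ → ℝ) : Prop where
  isOpen : IsOpen M
  convex : Convex ℝ M
  eq_zero : ∀ x ∈ M, ∀ y ∈ M, (d x y = 0 ↔ x = y)
  symm : ∀ x ∈ M, ∀ y ∈ M, d x y = d y x
  triangle : ∀ x ∈ M, ∀ y ∈ M, ∀ z ∈ M, d x z ≤ d x y + d y z
  cont : ContinuousOn (fun p : (ℝ × ℝ) × (ℝ × ℝ) => d p.1 p.2) (M ×ˢ M)
  complete : ∀ s : ℕ → ℝ × ℝ, (∀ n, s n ∈ M) →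
    (∀ ε > 0, ∃ n₀, ∀ m ≥ n₀, ∀ n ≥ n₀, d (s m) (s n) < ε) →
    ∃ x ∈ M, ∀ ε > 0, ∃ n₀, ∀ n ≥ n₀, d (s n) x < ε
  geodesic : ∀ x ∈ M, ∀ y ∈ M, ∀ z ∈ M, (d x y + d y z = d x z ↔ y ∈ segment ℝ x z)
  disc : ∀ X ∈ M, ∀ r : ℝ, StrictConvex ℝ {P | P ∈ M ∧ d X P ≤ r}

/-- `d` is generated by the Finsler function `F`: `F` is continuous, every `F x` is a norm, and
`d` is the infimum of the lengths of the `C¹` curves in `M`. -/
structure AffineFinsler (M : Set (ℝ × ℝ)) (F d : ℝ × ℝ → ℝ × ℝ → ℝ) : Prop where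
  norm : ∀ x ∈ M, IsNorm (F x)
  cont : ContinuousOn (fun p : (ℝ × ℝ) × (ℝ × ℝ) => F p.1 p.2) (M ×ˢ univ)
  length : ∀ x ∈ M, ∀ y ∈ M, IsGLB {l : ℝ | ∃ γ : ℝ → ℝ × ℝ, ContDiff ℝ 1 γ ∧
    (∀ t ∈ Icc (0 : ℝ) 1, γ t ∈ M) ∧ γ 0 = x ∧ γ 1 = y ∧
      l = ∫ t in (0 : ℝ)..1, F (γ t) (deriv γ t)} (d x y)

/-- The line through `O` with direction `u` is perpendicular to the line through `O` with
direction `v`: `O` is a foot on the second line of every point of the first line. -/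
def AffinePerp (M : Set (ℝ × ℝ)) (d : ℝ × ℝ → ℝ × ℝ → ℝ) (O u v : ℝ × ℝ) : Prop :=
  ∀ s t : ℝ, O + s • u ∈ M → O + t • v ∈ M → d (O + s • u) O ≤ d (O + s • u) (O + t • v)

/-- Symmetry of perpendicularity. -/
def AffineSymmetric (M : Set (ℝ × ℝ)) (d : ℝ × ℝ → ℝ × ℝ → ℝ) : Prop :=
  ∀ O ∈ M, ∀ u v : ℝ × ℝ, u ≠ 0 → v ≠ 0 → AffinePerp M d O u v → AffinePerp M d O v u

/-! ### Elliptic type: the projective plane

The real projective plane is the space `Projectivization ℝ ((ℝ × ℝ) × ℝ)` of one-dimensional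
subspaces of the three-dimensional vector space `(ℝ × ℝ) × ℝ`. -/

/-- The affine chart of the projective plane defined by the linear coordinates `B`: the point `p`
of the plane is sent to the point with homogeneous coordinates `B (p, 1)`. The image is the
complement of a projective line. -/
noncomputable def chart (B : ((ℝ × ℝ) × ℝ) ≃ₗ[ℝ] ((ℝ × ℝ) × ℝ)) (p : ℝ × ℝ) :
    Projectivization ℝ ((ℝ × ℝ) × ℝ) :=
  Projectivization.mk ℝ (B (p, 1)) fun h =>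
    one_ne_zero (α := ℝ) (congrArg Prod.snd ((LinearEquiv.map_eq_zero_iff B).1 h))

/-- A projective-metric plane of elliptic type: `d` is a metric on the projective plane,
continuous for the standard topology, every projective line (a subspace `W` of dimension two) is
isometric to a circle of length `L`, the triangle inequality is strict for non-collinear points,
and every disc of radius less than `L / 2` is contained in an affine chart, where it is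
strictly convex. -/
structure EllipticPlane (L : ℝ)
    (d : Projectivization ℝ ((ℝ × ℝ) × ℝ) → Projectivization ℝ ((ℝ × ℝ) × ℝ) → ℝ) : Prop where
  pos : 0 < L
  eq_zero : ∀ P Q, d P Q = 0 ↔ P = Q
  symm : ∀ P Q, d P Q = d Q P
  triangle : ∀ P Q R, d P R ≤ d P Q + d Q R
  cont : Continuous fun p : {x : (ℝ × ℝ) × ℝ // x ≠ 0} × {x : (ℝ × ℝ) × ℝ // x ≠ 0} =>
    d (Projectivization.mk ℝ p.1.1 p.1.2) (Projectivization.mk ℝ p.2.1 p.2.2)
  circle : ∀ W : Submodule ℝ ((ℝ × ℝ) × ℝ), finrank ℝ W = 2 →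
    ∃ c : AddCircle L → Projectivization ℝ ((ℝ × ℝ) × ℝ),
      range c = {P | P.submodule ≤ W} ∧ ∀ s t, d (c s) (c t) = dist s t
  strict : ∀ P Q R : Projectivization ℝ ((ℝ × ℝ) × ℝ),
    (¬ ∃ W : Submodule ℝ ((ℝ × ℝ) × ℝ), finrank ℝ W = 2 ∧ P.submodule ≤ W ∧
      Q.submodule ≤ W ∧ R.submodule ≤ W) → d P R < d P Q + d Q R
  disc : ∀ (X : Projectivization ℝ ((ℝ × ℝ) × ℝ)) (r : ℝ), r < L / 2 →
    ∃ B : ((ℝ × ℝ) × ℝ) ≃ₗ[ℝ] ((ℝ × ℝ) × ℝ),
      {P | d X P ≤ r} ⊆ range (chart B) ∧ StrictConvex ℝ {p | d X (chart B p) ≤ r}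

/-- `d` is generated by the Finsler function `F` on the projective plane. Here `F x v` is the
norm of the tangent vector at `[x]` which is the image of `v` under the differential at `x` of
the projection from the nonzero vectors to the projective plane; `d` is the infimum of the
lengths of the `C¹` curves. -/
structure EllipticFinsler (F : (ℝ × ℝ) × ℝ → (ℝ × ℝ) × ℝ → ℝ)
    (d : Projectivization ℝ ((ℝ × ℝ) × ℝ) → Projectivization ℝ ((ℝ × ℝ) × ℝ) → ℝ) : Prop where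
  scale : ∀ x v : (ℝ × ℝ) × ℝ, x ≠ 0 → ∀ a b : ℝ, a ≠ 0 → F (a • x) (a • v + b • x) = F x v
  pos : ∀ x v : (ℝ × ℝ) × ℝ, x ≠ 0 → (¬ ∃ a : ℝ, v = a • x) → 0 < F x v
  smul : ∀ x v : (ℝ × ℝ) × ℝ, x ≠ 0 → ∀ c : ℝ, F x (c • v) = |c| * F x v
  add_le : ∀ x v w : (ℝ × ℝ) × ℝ, x ≠ 0 → F x (v + w) ≤ F x v + F x w
  cont : ContinuousOn (fun p : ((ℝ × ℝ) × ℝ) × ((ℝ × ℝ) × ℝ) => F p.1 p.2)
    ({x | x ≠ 0} ×ˢ univ)
  length : ∀ P Q : Projectivization ℝ ((ℝ × ℝ) × ℝ),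
    IsGLB {l : ℝ | ∃ γ : ℝ → (ℝ × ℝ) × ℝ, ContDiff ℝ 1 γ ∧
      (∀ t ∈ Icc (0 : ℝ) 1, γ t ≠ 0) ∧ γ 0 ∈ P.submodule ∧ γ 1 ∈ Q.submodule ∧
        l = ∫ t in (0 : ℝ)..1, F (γ t) (deriv γ t)} (d P Q)

/-- The projective line `W` is perpendicular at `O` to the projective line `W'`: `O` is a foot
on `W'` of every point of `W`. -/
def EllipticPerp
    (d : Projectivization ℝ ((ℝ × ℝ) × ℝ) → Projectivization ℝ ((ℝ × ℝ) × ℝ) → ℝ)
    (O : Projectivization ℝ ((ℝ × ℝ) × ℝ)) (W W' : Submodule ℝ ((ℝ × ℝ) × ℝ)) : Prop :=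
  ∀ X Y : Projectivization ℝ ((ℝ × ℝ) × ℝ),
    X.submodule ≤ W → Y.submodule ≤ W' → d X O ≤ d X Y

/-- Symmetry of perpendicularity. -/
def EllipticSymmetric
    (d : Projectivization ℝ ((ℝ × ℝ) × ℝ) → Projectivization ℝ ((ℝ × ℝ) × ℝ) → ℝ) : Prop :=
  ∀ (O : Projectivization ℝ ((ℝ × ℝ) × ℝ)) (W W' : Submodule ℝ ((ℝ × ℝ) × ℝ)),
    finrank ℝ W = 2 → finrank ℝ W' = 2 → O.submodule ≤ W → O.submodule ≤ W' →
      EllipticPerp d O W W' → EllipticPerp d O W' W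

end Pool.Agent.Helper831.RadonPlane
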