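import Mathlib
import Pool.Agent.Helper831.SemiRiem

open scoped Manifold ContDiff Topology

namespace Pool.Agent.Helper831

/-- `g` is Lorentzian (signature `(-,+,...,+)`): at every point there is a vector `v` with
`g(v,v) < 0` whose orthogonal complement is positive definite. -/
def SemiRiemannianMetric.IsLorentzian {E : Type*} [NormedAddCommGroup E] [NormedSpace ℝ E]
    {M : Type*} [TopologicalSpace M] [ChartedSpace E M] (g : SemiRiemannianMetric E M) : Prop :=
  ∀ x : M, ∃ v : TangentSpace 𝓘(ℝ, E) x, g.form x v v < 0 ∧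
    ∀ w : TangentSpace 𝓘(ℝ, E) x, w ≠ 0 → g.form x v w = 0 → 0 < g.form x w w

end Pool.Agent.Helper831
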