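import Mathlib
import Pool.Agent.Helper831.SemiRiem

open scoped Manifold ContDiff Topology

namespace Pool.Agent.Helper831

/-- A subset `S` of the tangent bundle is a null set for the smooth measure class: its image in
every chart of the manifold `TM` has Lebesgue measure zero. -/
def IsNullSet {E : Type*} [NormedAddCommGroup E] [NormedSpace ℝ E] [MeasureTheory.MeasureSpace E]
    {M : Type*} [TopologicalSpace M] [ChartedSpace E M] [IsManifold 𝓘(ℝ, E) ∞ M]
    (S : Set (TangentBundle 𝓘(ℝ, E) M)) : Prop :=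
  ∀ q : TangentBundle 𝓘(ℝ, E) M, MeasureTheory.volume
    (extChartAt 𝓘(ℝ, E).tangent q '' (S ∩ (extChartAt 𝓘(ℝ, E).tangent q).source)) = 0

/-- The orbit `{γ_v'(t) : t ∈ ℝ}` of the tangent vector `q = v` under the geodesic flow of `g` is
bounded, i.e. contained in a compact subset of `TM` (here `γ_v` is the geodesic defined on `ℝ` with
initial velocity `v`). -/
def SemiRiemannianMetric.OrbitBounded {E : Type*} [NormedAddCommGroup E] [NormedSpace ℝ E]
    {M : Type*} [TopologicalSpace M] [ChartedSpace E M] [IsManifold 𝓘(ℝ, E) ∞ M]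
    (g : SemiRiemannianMetric E M)
    (q : TangentBundle 𝓘(ℝ, E) M) : Prop :=
  ∀ γ : ℝ → M, g.IsGeodesic γ → (⟨γ 0, velocity E γ 0⟩ : TangentBundle 𝓘(ℝ, E) M) = q →
    ∃ K : Set (TangentBundle 𝓘(ℝ, E) M), IsCompact K ∧
      ∀ t : ℝ, (⟨γ t, velocity E γ t⟩ : TangentBundle 𝓘(ℝ, E) M) ∈ K

end Pool.Agent.Helper831
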