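import Mathlib
import Pool.Agent.Helper831.Quot2

set_option maxSynthPendingDepth 3
set_option linter.unusedSectionVars false

open scoped Manifold ContDiff Topology
open Set Filter

namespace Pool.Agent.Helper831

/-- The unit `3 + 2√2` of `ℤ[√2]`. -/
def eps : (ℤ√2)ˣ := ⟨⟨3, 2⟩, ⟨3, -2⟩, by decide, by decide⟩

/-- The real number `3 + 2√2`. -/
noncomputable def lam : ℝ := 3 + 2 * Real.sqrt 2

theorem sqrt2_sq : Real.sqrt 2 * Real.sqrt 2 = 2 := Real.mul_self_sqrt (by norm_num)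

theorem lam_pos : 0 < lam := by unfold lam; positivity

theorem one_lt_lam : 1 < lam := by
  unfold lam
  nlinarith [Real.sqrt_nonneg 2]

theorem lam_ne : lam ≠ 0 := lam_pos.ne'

theorem lam_inv : lam⁻¹ = 3 - 2 * Real.sqrt 2 := by
  have h : lam * (3 - 2 * Real.sqrt 2) = 1 := by
    unfold lam
    nlinarith [sqrt2_sq]
  exact (eq_inv_of_mul_eq_one_right h).symm

/-- The first real embedding `a + b√2` of `ℤ[√2]`. -/
noncomputable def emb1 : ℤ√2 →+* ℝ := Zsqrtd.lift ⟨Real.sqrt 2, by simp⟩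

/-- The second real embedding `a - b√2` of `ℤ[√2]`. -/
noncomputable def emb2 : ℤ√2 →+* ℝ := Zsqrtd.lift ⟨-Real.sqrt 2, by simp⟩

theorem emb1_apply (x : ℤ√2) : emb1 x = x.re + x.im * Real.sqrt 2 := by
  simp [emb1, Zsqrtd.lift]

theorem emb2_apply (x : ℤ√2) : emb2 x = x.re - x.im * Real.sqrt 2 := by
  simp [emb2, Zsqrtd.lift, sub_eq_add_neg]

theorem emb1_eps : emb1 (eps : ℤ√2) = lam := by
  rw [emb1_apply]
  show ((3 : ℤ) : ℝ) + ((2 : ℤ) : ℝ) * Real.sqrt 2 = lam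
  unfold lam
  push_cast
  ring

theorem emb2_eps : emb2 (eps : ℤ√2) = lam⁻¹ := by
  rw [emb2_apply, lam_inv]
  show ((3 : ℤ) : ℝ) - ((2 : ℤ) : ℝ) * Real.sqrt 2 = 3 - 2 * Real.sqrt 2
  push_cast
  ring

theorem emb1_zpow (k : ℤ) : emb1 ((eps ^ k : (ℤ√2)ˣ) : ℤ√2) = lam ^ k := by
  have h := map_zpow (Units.map (emb1 : ℤ√2 →* ℝ)) eps k
  have h2 := congrArg (fun u : ℝˣ => (u : ℝ)) h
  simp only [Units.coe_map, Units.val_zpow_eq_zpow_val] at h2
  have h3 : ((emb1 : ℤ√2 →* ℝ) (eps : ℤ√2)) = lam := emb1_eps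
  rw [h3] at h2
  exact h2

theorem emb2_zpow (k : ℤ) : emb2 ((eps ^ k : (ℤ√2)ˣ) : ℤ√2) = lam ^ (-k) := by
  have h := map_zpow (Units.map (emb2 : ℤ√2 →* ℝ)) eps k
  have h2 := congrArg (fun u : ℝˣ => (u : ℝ)) h
  simp only [Units.coe_map, Units.val_zpow_eq_zpow_val] at h2
  have h3 : ((emb2 : ℤ√2 →* ℝ) (eps : ℤ√2)) = lam⁻¹ := emb2_eps
  rw [h3, inv_zpow, ← zpow_neg] at h2
  exact h2

/-- The group `ℤ[√2] ⋊ ℤ`, where `k ∈ ℤ` acts as multiplication by `(3 + 2√2) ^ k`. -/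
@[ext] structure SolZ where
  al : ℤ√2
  k : ℤ

namespace SolZ

instance : Mul SolZ := ⟨fun g h => ⟨g.al + ((eps ^ g.k : (ℤ√2)ˣ) : ℤ√2) * h.al, g.k + h.k⟩⟩
instance : One SolZ := ⟨⟨0, 0⟩⟩
instance : Inv SolZ := ⟨fun g => ⟨-((eps ^ (-g.k) : (ℤ√2)ˣ) : ℤ√2) * g.al, -g.k⟩⟩

@[simp] theorem mul_al (g h : SolZ) :
    (g * h).al = g.al + ((eps ^ g.k : (ℤ√2)ˣ) : ℤ√2) * h.al := rfl
@[simp] theorem mul_k (g h : SolZ) : (g * h).k = g.k + h.k := rfl
@[simp] theorem one_al : (1 : SolZ).al = 0 := rfl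
@[simp] theorem one_k : (1 : SolZ).k = 0 := rfl
@[simp] theorem inv_al (g : SolZ) :
    (g⁻¹).al = -((eps ^ (-g.k) : (ℤ√2)ˣ) : ℤ√2) * g.al := rfl
@[simp] theorem inv_k (g : SolZ) : (g⁻¹).k = -g.k := rfl

theorem ext' {g h : SolZ} (h1 : g.al = h.al) (h2 : g.k = h.k) : g = h := by
  cases g; cases h; simp_all

instance : Group SolZ :=
  Group.ofLeftAxioms
    (by
      intro g h l
      apply ext'
      · simp only [mul_al, mul_k, zpow_add, Units.val_mul]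
        ring
      · simp only [mul_k]
        ring)
    (by
      intro g
      apply ext'
      · simp
      · simp)
    (by
      intro g
      apply ext'
      · simp
      · simp)

/-- The action of `ℤ[√2] ⋊ ℤ` on `ℝ³`. -/
noncomputable instance : MulAction SolZ (ℝ × ℝ × ℝ) where
  smul g p := (lam ^ g.k * p.1 + emb1 g.al, lam ^ (-g.k) * p.2.1 + emb2 g.al, p.2.2 + g.k)
  one_smul p := by
    show ((lam ^ (1 : SolZ).k * p.1 + emb1 (1 : SolZ).al,
      lam ^ (-(1 : SolZ).k) * p.2.1 + emb2 (1 : SolZ).al, p.2.2 + ((1 : SolZ).k : ℝ)) : ℝ × ℝ × ℝ)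
      = p
    simp
  mul_smul g h p := by
    refine Prod.ext ?_ (Prod.ext ?_ ?_)
    · show lam ^ (g * h).k * p.1 + emb1 (g * h).al
        = lam ^ g.k * (lam ^ h.k * p.1 + emb1 h.al) + emb1 g.al
      rw [mul_k, mul_al, zpow_add₀ lam_ne, map_add, map_mul, emb1_zpow]
      ring
    · show lam ^ (-(g * h).k) * p.2.1 + emb2 (g * h).al
        = lam ^ (-g.k) * (lam ^ (-h.k) * p.2.1 + emb2 h.al) + emb2 g.al
      rw [mul_k, mul_al, neg_add, zpow_add₀ lam_ne, map_add, map_mul, emb2_zpow]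
      ring
    · show p.2.2 + ((g * h).k : ℝ) = (p.2.2 + h.k) + g.k
      rw [mul_k]
      push_cast
      ring

theorem smul_def (g : SolZ) (p : ℝ × ℝ × ℝ) : g • p =
    (lam ^ g.k * p.1 + emb1 g.al, lam ^ (-g.k) * p.2.1 + emb2 g.al, p.2.2 + g.k) := rfl

instance : SmoothConst SolZ (ℝ × ℝ × ℝ) where
  smooth g := by
    simp only [smul_def]
    fun_prop

instance : ContinuousConstSMul SolZ (ℝ × ℝ × ℝ) where
  continuous_const_smul g := (SmoothConst.smooth (E := ℝ × ℝ × ℝ) g).continuous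

theorem irr (a b : ℤ) (h : (a : ℝ) - b * Real.sqrt 2 = 0) : a = 0 ∧ b = 0 := by
  have hb : b = 0 := by
    by_contra hb
    have h1 : Real.sqrt 2 = a / b := by
      field_simp
      linarith
    exact irrational_sqrt_two ⟨(a : ℚ) / b, by push_cast; exact h1.symm⟩
  refine ⟨?_, hb⟩
  rw [hb] at h
  simpa using h

theorem emb2_eq_zero {x : ℤ√2} (h : emb2 x = 0) : x = 0 := by
  rw [emb2_apply] at h
  obtain ⟨h1, h2⟩ := irr _ _ h
  exact Zsqrtd.ext h1 h2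

instance : IsCancelSMul SolZ (ℝ × ℝ × ℝ) where
  right_cancel' g h p hp := by
    rw [smul_def, smul_def, Prod.mk.injEq, Prod.mk.injEq] at hp
    obtain ⟨h1, h2, h3⟩ := hp
    have hk : g.k = h.k := by
      have : (g.k : ℝ) = h.k := by linarith
      exact_mod_cast this
    rw [hk] at h2
    have h4 : emb2 (g.al - h.al) = 0 := by
      rw [map_sub]
      linarith
    exact ext' (sub_eq_zero.1 (emb2_eq_zero h4)) hk

theorem finite_box (N : ℤ) : {g : SolZ | |g.al.re| ≤ N ∧ |g.al.im| ≤ N ∧ |g.k| ≤ N}.Finite := by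
  have h : ((Set.Icc (-N) N ×ˢ (Set.Icc (-N) N ×ˢ Set.Icc (-N) N)) : Set (ℤ × ℤ × ℤ)).Finite :=
    (Set.finite_Icc _ _).prod ((Set.finite_Icc _ _).prod (Set.finite_Icc _ _))
  refine (h.image (fun q => (⟨⟨q.1, q.2.1⟩, q.2.2⟩ : SolZ))).subset ?_
  rintro g ⟨h1, h2, h3⟩
  exact ⟨(g.al.re, g.al.im, g.k), ⟨abs_le.1 h1, abs_le.1 h2, abs_le.1 h3⟩, rfl⟩

theorem finite_of_bdd {s : Set SolZ} (R : ℝ) (h : ∀ g ∈ s, |(g.al.re : ℝ)| ≤ R ∧
    |(g.al.im : ℝ)| ≤ R ∧ |(g.k : ℝ)| ≤ R) : s.Finite := by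
  refine (finite_box ⌈R⌉).subset ?_
  intro g hg
  obtain ⟨h1, h2, h3⟩ := h g hg
  have hR := Int.le_ceil R
  refine ⟨?_, ?_, ?_⟩
  · have : ((|g.al.re| : ℤ) : ℝ) ≤ ⌈R⌉ := by rw [Int.cast_abs]; exact h1.trans hR
    exact_mod_cast this
  · have : ((|g.al.im| : ℤ) : ℝ) ≤ ⌈R⌉ := by rw [Int.cast_abs]; exact h2.trans hR
    exact_mod_cast this
  · have : ((|g.k| : ℤ) : ℝ) ≤ ⌈R⌉ := by rw [Int.cast_abs]; exact h3.trans hR
    exact_mod_cast this

theorem zpow_le_of_abs_le {k : ℤ} {N : ℕ} (h : |k| ≤ N) : lam ^ k ≤ lam ^ N := by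
  rw [← zpow_natCast]
  exact zpow_le_zpow_right₀ one_lt_lam.le ((le_abs_self k).trans h)

instance : ProperlyDiscontinuousSMul SolZ (ℝ × ℝ × ℝ) where
  finite_disjoint_inter_image := by
    intro K L hK hL
    obtain ⟨R, hR⟩ := hK.isBounded.exists_norm_le
    obtain ⟨S, hS⟩ := hL.isBounded.exists_norm_le
    set T : ℝ := max (max R S) 1 with hT
    have hT1 : 1 ≤ T := le_max_right _ _
    have hRT : R ≤ T := (le_max_left _ _).trans (le_max_left _ _)
    have hST : S ≤ T := (le_max_right _ _).trans (le_max_left _ _)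
    set N : ℕ := ⌈2 * T⌉₊ with hN
    have hNT : 2 * T ≤ N := Nat.le_ceil _
    set Λ : ℝ := lam ^ N with hΛ
    have hΛ1 : 1 ≤ Λ := one_le_pow₀ one_lt_lam.le
    apply finite_of_bdd (2 * (Λ * T + T) + 2 * T)
    rintro g ⟨q, ⟨p, hp, rfl⟩, hq⟩
    have h1 := (hR p hp).trans hRT
    have h2 := (hS _ hq).trans hST
    simp only [smul_def, Prod.norm_def, Real.norm_eq_abs] at h1 h2
    rw [max_le_iff, max_le_iff] at h1 h2
    obtain ⟨h11, h12, h13⟩ := h1
    obtain ⟨h21, h22, h23⟩ := h2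
    have hk : |(g.k : ℝ)| ≤ 2 * T := by
      rw [abs_le] at h13 h23 ⊢
      constructor <;> linarith
    have hkN : |g.k| ≤ (N : ℤ) := by
      have : ((|g.k| : ℤ) : ℝ) ≤ ((N : ℤ) : ℝ) := by
        rw [Int.cast_abs]
        push_cast
        exact hk.trans hNT
      exact_mod_cast this
    have hl1 : lam ^ g.k ≤ Λ := zpow_le_of_abs_le hkN
    have hl2 : lam ^ (-g.k) ≤ Λ := zpow_le_of_abs_le (by rw [abs_neg]; exact hkN)
    have hp1 : 0 < lam ^ g.k := zpow_pos lam_pos _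
    have hp2 : 0 < lam ^ (-g.k) := zpow_pos lam_pos _
    have he1 : |emb1 g.al| ≤ Λ * T + T := by
      have h3 : |lam ^ g.k * p.1| ≤ Λ * T := by
        rw [abs_mul, abs_of_pos hp1]
        exact mul_le_mul hl1 h11 (abs_nonneg _) (by positivity)
      rw [abs_le] at h3 h21 ⊢
      constructor <;> linarith
    have he2 : |emb2 g.al| ≤ Λ * T + T := by
      have h3 : |lam ^ (-g.k) * p.2.1| ≤ Λ * T := by
        rw [abs_mul, abs_of_pos hp2]
        exact mul_le_mul hl2 h12 (abs_nonneg _) (by positivity)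
      rw [abs_le] at h3 h22 ⊢
      constructor <;> linarith
    have hT0 : 0 ≤ T := by linarith
    have hs1 : 1 ≤ Real.sqrt 2 := by
      rw [Real.one_le_sqrt]; norm_num
    rw [emb1_apply] at he1
    rw [emb2_apply] at he2
    have hre : |(g.al.re : ℝ)| ≤ Λ * T + T := by
      rw [abs_le] at he1 he2 ⊢
      constructor <;> linarith
    have him : |(g.al.im : ℝ)| ≤ Λ * T + T := by
      have h5 : |(g.al.im : ℝ) * Real.sqrt 2| ≤ Λ * T + T := by
        rw [abs_le] at he1 he2 ⊢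
        constructor <;> linarith
      rw [abs_mul, abs_of_nonneg (Real.sqrt_nonneg 2)] at h5
      nlinarith [abs_nonneg (g.al.im : ℝ)]
    have hΛT : 0 ≤ Λ * T + T := by positivity
    refine ⟨by linarith, by linarith, by linarith⟩

/-- a compact set meeting every orbit -/
def box : Set (ℝ × ℝ × ℝ) := Set.Icc (-10) 10 ×ˢ (Set.Icc (-10) 10 ×ˢ Set.Icc 0 1)

theorem exists_box (p : ℝ × ℝ × ℝ) : ∃ g : SolZ, g • p ∈ box := by
  set k : ℤ := -⌊p.2.2⌋ with hk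
  set x : ℝ := lam ^ k * p.1 with hx
  set y : ℝ := lam ^ (-k) * p.2.1 with hy
  -- solve a + b √2 = x, a - b √2 = y
  set a : ℝ := (x + y) / 2 with ha
  set b : ℝ := (x - y) / (2 * Real.sqrt 2) with hb
  have hs0 : 0 < Real.sqrt 2 := by positivity
  have hs2 : Real.sqrt 2 ≤ 2 := by
    rw [Real.sqrt_le_left (by norm_num)]
    norm_num
  have hbs : b * Real.sqrt 2 = (x - y) / 2 := by
    rw [hb]
    field_simp
  refine ⟨⟨⟨-⌊a⌋, -⌊b⌋⟩, k⟩, ?_⟩
  rw [smul_def, box]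
  simp only [Set.mem_prod, Set.mem_Icc]
  rw [emb1_apply, emb2_apply, ← hx, ← hy, hk]
  push_cast
  have h1 := Int.floor_le a
  have h2 := Int.lt_floor_add_one a
  have h3 := Int.floor_le b
  have h4 := Int.lt_floor_add_one b
  have h5 : 0 ≤ (b - ⌊b⌋) * Real.sqrt 2 := mul_nonneg (by linarith) hs0.le
  have h6 : (b - ⌊b⌋) * Real.sqrt 2 ≤ 1 * 2 := mul_le_mul (by linarith) hs2 hs0.le (by norm_num)
  refine ⟨⟨?_, ?_⟩, ⟨?_, ?_⟩, ⟨?_, ?_⟩⟩
  · nlinarith
  · nlinarith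
  · nlinarith
  · nlinarith
  · linarith [Int.floor_le p.2.2]
  · linarith [Int.lt_floor_add_one p.2.2]

end SolZ

/-- The closed 3-manifold `(ℤ[√2] ⋊ ℤ) \ ℝ³`. -/
abbrev SolMfd : Type := MulAction.orbitRel.Quotient SolZ (ℝ × ℝ × ℝ)

theorem continuous_proj' {E : Type*} [TopologicalSpace E] {Γ : Type*} [Group Γ] [MulAction Γ E] :
    Continuous (proj Γ : E → MulAction.orbitRel.Quotient Γ E) := continuous_quot_mk

instance : CompactSpace SolMfd := by
  have hK : IsCompact SolZ.box :=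
    isCompact_Icc.prod (isCompact_Icc.prod isCompact_Icc)
  have h := hK.image (continuous_proj' (E := ℝ × ℝ × ℝ) (Γ := SolZ))
  have h2 : (proj SolZ : ℝ × ℝ × ℝ → SolMfd) '' SolZ.box = univ := by
    rw [eq_univ_iff_forall]
    intro x
    obtain ⟨p, rfl⟩ := proj_surjective x
    obtain ⟨g, hg⟩ := SolZ.exists_box p
    exact ⟨g • p, hg, proj_smul g p⟩
  rw [h2] at h
  exact isCompact_univ_iff.1 h

instance : ConnectedSpace SolMfd := by
  have h : Function.Surjective (proj SolZ : ℝ × ℝ × ℝ → SolMfd) := proj_surjective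
  exact h.connectedSpace continuous_proj'

end Pool.Agent.Helper831
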