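import Mathlib
import Pool.Agent.Helper831.Sol
import Pool.Agent.Helper831.NilMetric
import Pool.Agent.Helper831.SemiLorentz

set_option maxSynthPendingDepth 3
set_option linter.unusedSectionVars false

open scoped Manifold ContDiff Topology
open Set Filter

namespace Pool.Agent.Helper831

/-- `τ = log (3 + 2√2)` -/
noncomputable def tau : ℝ := Real.log lam

theorem tau_pos : 0 < tau := Real.log_pos one_lt_lam

theorem lam_zpow (k : ℤ) : lam ^ k = Real.exp (tau * k) := by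
  rw [← Real.rpow_intCast, Real.rpow_def_of_pos lam_pos]
  rfl

/-- The form `2 e^{-τz} dx dz + e^{2τz} dy²` on `ℝ³`. -/
noncomputable def solForm (p : ℝ × ℝ × ℝ) : LinearMap.BilinForm ℝ (ℝ × ℝ × ℝ) :=
  LinearMap.mk₂ ℝ (fun u w => Real.exp (-tau * p.2.2) * (u.1 * w.2.2 + u.2.2 * w.1)
      + Real.exp (2 * tau * p.2.2) * (u.2.1 * w.2.1))
    (by intro a b c; simp; ring) (by intro r a b; simp; ring)
    (by intro a b c; simp; ring) (by intro r a b; simp; ring)

@[simp] theorem solForm_apply (p u w : ℝ × ℝ × ℝ) :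
    solForm p u w = Real.exp (-tau * p.2.2) * (u.1 * w.2.2 + u.2.2 * w.1)
      + Real.exp (2 * tau * p.2.2) * (u.2.1 * w.2.1) := rfl

theorem solForm_symm (p u w : ℝ × ℝ × ℝ) : solForm p u w = solForm p w u := by
  simp only [solForm_apply]; ring

theorem solForm_nondeg (p u : ℝ × ℝ × ℝ) (h : ∀ w, solForm p u w = 0) : u = 0 := by
  have h1 := h (1, 0, 0)
  have h2 := h (0, 1, 0)
  have h3 := h (0, 0, 1)
  simp only [solForm_apply, mul_zero, mul_one, zero_add, add_zero, mul_eq_zero,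
    Real.exp_ne_zero, false_or] at h1 h2 h3
  exact Prod.ext h3 (Prod.ext h2 h1)

/-- derivative of the action -/
theorem SolZ.fderiv_smul (g : SolZ) (y u : ℝ × ℝ × ℝ) :
    fderiv ℝ (fun z : ℝ × ℝ × ℝ => g • z) y u
      = (lam ^ g.k * u.1, lam ^ (-g.k) * u.2.1, u.2.2) := by
  set L : ℝ × ℝ × ℝ →ₗ[ℝ] ℝ × ℝ × ℝ :=
    { toFun := fun u => (lam ^ g.k * u.1, lam ^ (-g.k) * u.2.1, u.2.2)
      map_add' := by
        intro a b
        refine Prod.ext ?_ (Prod.ext ?_ ?_) <;> simp <;> ring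
      map_smul' := by
        intro r a
        refine Prod.ext ?_ (Prod.ext ?_ ?_) <;> simp <;> ring } with hL
  set Lc : ℝ × ℝ × ℝ →L[ℝ] ℝ × ℝ × ℝ := LinearMap.toContinuousLinearMap L with hLc
  have h : (fun z : ℝ × ℝ × ℝ => g • z) = fun z => Lc z +
      (emb1 g.al, emb2 g.al, (g.k : ℝ)) := by
    ext1 z
    rw [SolZ.smul_def]
    rfl
  rw [h]
  have h2 : HasFDerivAt (fun z => Lc z +
      ((emb1 g.al, emb2 g.al, (g.k : ℝ)) : ℝ × ℝ × ℝ)) Lc y :=
    Lc.hasFDerivAt.add_const _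
  rw [h2.fderiv]
  rfl

/-- The Lorentzian metric on the quotient `(ℤ[√2] ⋊ ℤ) \ ℝ³`. -/
noncomputable def solMetric : SemiRiemannianMetric (ℝ × ℝ × ℝ) SolMfd :=
  quotMetric (Γ := SolZ) solForm solForm_symm solForm_nondeg
    (by
      intro u w
      simp only [solForm_apply]
      fun_prop)
    (by
      intro g y u w
      rw [SolZ.fderiv_smul, SolZ.fderiv_smul, SolZ.smul_def]
      simp only [solForm_apply]
      rw [lam_zpow, lam_zpow]
      push_cast
      have h1 : Real.exp (-tau * (y.2.2 + g.k)) * Real.exp (tau * g.k)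
          = Real.exp (-tau * y.2.2) := by
        rw [← Real.exp_add]; congr 1; ring
      have h2 : Real.exp (2 * tau * (y.2.2 + g.k)) * (Real.exp (tau * -g.k) *
          Real.exp (tau * -g.k)) = Real.exp (2 * tau * y.2.2) := by
        rw [← Real.exp_add, ← Real.exp_add]; congr 1; ring
      calc _ = (Real.exp (-tau * (y.2.2 + g.k)) * Real.exp (tau * g.k)) *
            (u.1 * w.2.2 + u.2.2 * w.1) + (Real.exp (2 * tau * (y.2.2 + g.k)) *
            (Real.exp (tau * -g.k) * Real.exp (tau * -g.k))) * (u.2.1 * w.2.1) := by ring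
        _ = _ := by rw [h1, h2])

theorem solMetric_coeff {e : OpenPartialHomeomorph SolMfd (ℝ × ℝ × ℝ)}
    (he : e ∈ atlas (ℝ × ℝ × ℝ) SolMfd) (y u w : ℝ × ℝ × ℝ) :
    solMetric.coeff e y u w = solForm y u w :=
  quotMetric_coeff _ _ _ _ _ he y u w

theorem solMetric_lorentzian : solMetric.IsLorentzian := by
  intro x
  set p := chartAt (ℝ × ℝ × ℝ) x x with hp
  refine ⟨((1, 0, -1) : ℝ × ℝ × ℝ), ?_, ?_⟩
  · show solForm p (1, 0, -1) (1, 0, -1) < 0
    rw [solForm_apply]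
    have := Real.exp_pos (-tau * p.2.2)
    simp only
    nlinarith
  · intro w hw h
    have hw' : (w : ℝ × ℝ × ℝ) ≠ 0 := hw
    have h1 : solForm p (1, 0, -1) w = 0 := h
    show 0 < solForm p w w
    rw [solForm_apply] at h1 ⊢
    have he1 := Real.exp_pos (-tau * p.2.2)
    have he2 := Real.exp_pos (2 * tau * p.2.2)
    obtain ⟨a, b, c⟩ := (w : ℝ × ℝ × ℝ)
    simp only at h1 ⊢
    have h2 : c = a := by
      have h3 : Real.exp (-tau * p.2.2) * (c - a) = 0 := by linarith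
      rcases mul_eq_zero.1 h3 with h4 | h4
      · exact absurd h4 he1.ne'
      · linarith
    subst h2
    by_cases hb : b = 0
    · subst hb
      have hc : c ≠ 0 := by
        rintro rfl
        exact hw' rfl
      have : 0 < c * c := mul_self_pos.2 hc
      nlinarith [mul_pos he1 this]
    · have : 0 < b * b := mul_self_pos.2 hb
      nlinarith [mul_pos he2 this, mul_nonneg he1.le (mul_self_nonneg c)]

/-- the invariant 1-form `e^{-τz} dx` -/
noncomputable def w1Form (p : ℝ × ℝ × ℝ) : ℝ × ℝ × ℝ →ₗ[ℝ] ℝ where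
  toFun u := Real.exp (-tau * p.2.2) * u.1
  map_add' a b := by simp; ring
  map_smul' r a := by simp; ring

/-- the invariant 1-form `e^{τz} dy` -/
noncomputable def w2Form (p : ℝ × ℝ × ℝ) : ℝ × ℝ × ℝ →ₗ[ℝ] ℝ where
  toFun u := Real.exp (tau * p.2.2) * u.2.1
  map_add' a b := by simp; ring
  map_smul' r a := by simp; ring

@[simp] theorem w1Form_apply (p u : ℝ × ℝ × ℝ) :
    w1Form p u = Real.exp (-tau * p.2.2) * u.1 := rfl
@[simp] theorem w2Form_apply (p u : ℝ × ℝ × ℝ) :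
    w2Form p u = Real.exp (tau * p.2.2) * u.2.1 := rfl

noncomputable def solW1 : OneForm (ℝ × ℝ × ℝ) SolMfd :=
  quotForm (Γ := SolZ) w1Form
    (by intro u; simp only [w1Form_apply]; fun_prop)
    (by
      intro g y u
      rw [SolZ.fderiv_smul, SolZ.smul_def]
      simp only [w1Form_apply]
      rw [lam_zpow]
      have h1 : Real.exp (-tau * (y.2.2 + g.k)) * Real.exp (tau * g.k)
          = Real.exp (-tau * y.2.2) := by
        rw [← Real.exp_add]; congr 1; ring
      rw [← mul_assoc, h1])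

noncomputable def solW2 : OneForm (ℝ × ℝ × ℝ) SolMfd :=
  quotForm (Γ := SolZ) w2Form
    (by intro u; simp only [w2Form_apply]; fun_prop)
    (by
      intro g y u
      rw [SolZ.fderiv_smul, SolZ.smul_def]
      simp only [w2Form_apply]
      rw [lam_zpow]
      push_cast
      have h1 : Real.exp (tau * (y.2.2 + g.k)) * Real.exp (tau * -g.k)
          = Real.exp (tau * y.2.2) := by
        rw [← Real.exp_add]; congr 1; ring
      rw [← mul_assoc, h1])

noncomputable def solW3 : OneForm (ℝ × ℝ × ℝ) SolMfd :=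
  quotForm (Γ := SolZ) (fun _ => zForm) (fun _ => contDiff_const)
    (by
      intro g y u
      rw [SolZ.fderiv_smul]
      simp only [zForm_apply])

theorem solW1_coeff {e : OpenPartialHomeomorph SolMfd (ℝ × ℝ × ℝ)}
    (he : e ∈ atlas (ℝ × ℝ × ℝ) SolMfd) (y u : ℝ × ℝ × ℝ) :
    solW1.form (e.symm y) (coordVec e y u) = Real.exp (-tau * y.2.2) * u.1 :=
  quotForm_coeff _ _ _ he y u

theorem solW2_coeff {e : OpenPartialHomeomorph SolMfd (ℝ × ℝ × ℝ)}
    (he : e ∈ atlas (ℝ × ℝ × ℝ) SolMfd) (y u : ℝ × ℝ × ℝ) :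
    solW2.form (e.symm y) (coordVec e y u) = Real.exp (tau * y.2.2) * u.2.1 :=
  quotForm_coeff _ _ _ he y u

theorem solW3_coeff {e : OpenPartialHomeomorph SolMfd (ℝ × ℝ × ℝ)}
    (he : e ∈ atlas (ℝ × ℝ × ℝ) SolMfd) (y u : ℝ × ℝ × ℝ) :
    solW3.form (e.symm y) (coordVec e y u) = u.2.2 :=
  quotForm_coeff _ _ _ he y u

theorem solForm_fderiv (p u w : ℝ × ℝ × ℝ) :
    fderiv ℝ (fun y => solForm y u u) p w =
      (-(2 * tau) * Real.exp (-tau * p.2.2) * (u.1 * u.2.2)
        + 2 * tau * Real.exp (2 * tau * p.2.2) * (u.2.1 * u.2.1)) * w.2.2 := by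
  have hz : HasFDerivAt (fun y : ℝ × ℝ × ℝ => y.2.2)
      ((ContinuousLinearMap.snd ℝ ℝ ℝ).comp (ContinuousLinearMap.snd ℝ ℝ (ℝ × ℝ))) p :=
    ((ContinuousLinearMap.snd ℝ ℝ ℝ).comp (ContinuousLinearMap.snd ℝ ℝ (ℝ × ℝ))).hasFDerivAt
  have h1 := ((hz.const_mul (-tau)).exp.mul_const (u.1 * u.2.2 + u.2.2 * u.1))
  have h2 := ((hz.const_mul (2 * tau)).exp.mul_const (u.2.1 * u.2.1))
  have h3 := (h1.add h2).fderiv
  have h4 : (fun y => solForm y u u) = fun y : ℝ × ℝ × ℝ =>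
      Real.exp (-tau * y.2.2) * (u.1 * u.2.2 + u.2.2 * u.1)
        + Real.exp (2 * tau * y.2.2) * (u.2.1 * u.2.1) := rfl
  rw [h4]
  have h5 := congrArg (fun L : ℝ × ℝ × ℝ →L[ℝ] ℝ => L w) h3
  refine h5.trans ?_
  simp
  ring

end Pool.Agent.Helper831
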